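import Pool.Agent.OB9.KO

/-!
# Module OB9/AdjB

The Hilbert space adjoint acts on the conjugate space.

PROOF. `adj_bdd`: `S = adjoint T`. Let `y` be bounded, `md (conj Φ) y ≤ 1`. Apply `ko` to
`w = S y / (2C)`: for a simple `x ≥ 0` with `md Φ x ≤ 1` let `x' = x sgn(S y)` (bounded, in `L2`,
`md Φ x' ≤ 1`), then `∫ x |S y| = ⟪x', S y⟫ = ⟪T x', y⟫ ≤ C ∫ (|T x'|/C) |y| ≤ C (1 + 1)`
(`young_md`). `adj_low`: given `e'`, `f'`, apply `LowOn Φ T c` with `e = f'`, `f = e'`: `x` bounded,
supported in `e'`, `md Φ x ≤ 1`, `1 < md Φ (1_{f'} T x / c)`. Let `Ψ = conj Φ` (Orlicz, superlinear,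
`conj Ψ = Φ` on `[0,∞)`, so `md (conj Ψ) = md Φ`). By `ko` for `Ψ` (contrapositive) there is a simple
`z ≥ 0`, `md Ψ z ≤ 1`, `∫ z |1_{f'} T x| > c`. Let `y = z 1_{f'} sgn(T x)`: bounded, in `L2`,
supported in `f'`, `md Ψ y ≤ 1`, `⟪y, T x⟫ > c`. So `∫ x 1_{e'} S y = ⟪x, S y⟫ > c`. If
`md Ψ (1_{e'} S y/(c/2)) ≤ 1` then by `young_md` `∫ |x| |1_{e'} S y| ≤ (c/2)(1 + 1) = c`, contradiction.
`DInf_conj` combines both. `DInf_of_conj`: apply `DInf_conj` to `conj Φ` and use
`md (conj (conj Φ)) = md Φ` (`conj_conj`).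
-/

set_option autoImplicit false

namespace Pool.Agent.OB9

open MeasureTheory Set Filter
open scoped ENNReal Topology

noncomputable section

variable {Φ : ℝ → ℝ}

private theorem inner_eq (f g : L2) : inner ℝ f g = ∫ t, f t * g t ∂lam := by
  rw [MeasureTheory.L2.inner_def]
  refine integral_congr_ae (Eventually.of_forall fun t => ?_)
  simp [mul_comm]

private theorem int_mul (f g : L2) : Integrable (fun t => f t * g t) lam := by
  have h := MeasureTheory.L2.integrable_inner (𝕜 := ℝ) f g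
  refine h.congr (Eventually.of_forall fun t => ?_)
  simp [mul_comm]

private theorem ofReal_int_le {h : ℝ → ℝ} (hh : Integrable h lam) :
    ENNReal.ofReal (∫ t, h t ∂lam) ≤ ∫⁻ t, ENNReal.ofReal |h t| ∂lam := by
  rw [← ofReal_integral_eq_lintegral_ofReal hh.abs (Eventually.of_forall fun t => abs_nonneg _)]
  exact ENNReal.ofReal_le_ofReal (integral_mono hh hh.abs fun t => le_abs_self _)

private theorem lint_const {c : ℝ} (hc : 0 ≤ c) (h : ℝ → ℝ) :
    ∫⁻ t, ENNReal.ofReal (c * h t) ∂lam = ENNReal.ofReal c * ∫⁻ t, ENNReal.ofReal (h t) ∂lam := by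
  simp_rw [ENNReal.ofReal_mul hc]
  exact lintegral_const_mul' _ _ ENNReal.ofReal_ne_top

/-- the class of a simple function with signs -/
private theorem exists_sgn (x : SimpleFunc ℝ ℝ) (hx : ∀ t, 0 ≤ x t) (w : L2) {A : Set ℝ}
    (hA : MeasurableSet A) :
    ∃ y : L2, Bd y ∧ ∀ᵐ t ∂lam, (t ∉ A → y t = 0) ∧ (t ∈ A → |y t| = x t ∧ y t * w t = x t * |w t|) := by
  set g : ℝ → ℝ := A.indicator fun t => if 0 ≤ w t then x t else -(x t) with hg
  obtain ⟨R, hR⟩ := x.exists_forall_norm_le
  have hgm : AEStronglyMeasurable g lam := by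
    have hw : AEMeasurable (fun t => w t) lam := (Lp.aestronglyMeasurable w).aemeasurable
    have h1 : Measurable fun p : ℝ × ℝ => if 0 ≤ p.1 then p.2 else -p.2 :=
      Measurable.ite (measurableSet_le measurable_const measurable_fst) measurable_snd
        measurable_snd.neg
    have h2 : AEMeasurable (fun t => if 0 ≤ w t then x t else -(x t)) lam :=
      h1.comp_aemeasurable (hw.prodMk x.measurable.aemeasurable)
    exact (h2.indicator hA).aestronglyMeasurable
  have hgb : ∀ t, |g t| ≤ R := by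
    intro t
    have h0 : 0 ≤ R := (norm_nonneg _).trans (hR t)
    have h1 : |x t| ≤ R := hR t
    rw [hg]
    by_cases ht : t ∈ A
    · rw [indicator_of_mem ht]
      split_ifs
      · exact h1
      · rw [abs_neg]
        exact h1
    · rw [indicator_of_notMem ht, abs_zero]
      exact h0
  have hgL : MemLp g 2 lam := MemLp.of_bound hgm R (Eventually.of_forall hgb)
  refine ⟨hgL.toLp g, ⟨R, ?_⟩, ?_⟩
  · filter_upwards [hgL.coeFn_toLp] with t ht
    rw [ht]
    exact hgb t
  · filter_upwards [hgL.coeFn_toLp] with t ht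
    rw [ht, hg]
    refine ⟨fun h => indicator_of_notMem h _, fun h => ?_⟩
    rw [indicator_of_mem h]
    split_ifs with h1
    · exact ⟨abs_of_nonneg (hx t), by rw [abs_of_nonneg h1]⟩
    · rw [not_le] at h1
      refine ⟨by rw [abs_neg, abs_of_nonneg (hx t)], ?_⟩
      rw [abs_of_neg h1]
      ring

theorem adj_bdd (hΦ : Orl Φ) (hs : SuperLin Φ) {T : L2 →L[ℝ] L2} {C : ℝ} (hC : 0 < C)
    (hT : BddOn Φ T C) : BddOn (conj Φ) (ContinuousLinearMap.adjoint T) (2 * C) := by
  intro y hy hmd
  set w : L2 := ContinuousLinearMap.adjoint T y with hw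
  have hwm : AEMeasurable (fun t => w t) lam := (Lp.aestronglyMeasurable w).aemeasurable
  refine ko hΦ hs (hwm.div_const _) fun x hx hx1 => ?_
  obtain ⟨z, hz, hz1⟩ := exists_sgn x hx w (MeasurableSet.univ : MeasurableSet (univ : Set ℝ))
  have hzx : md Φ z ≤ 1 := by
    refine (md_mono hΦ.qorl ?_).trans hx1
    filter_upwards [hz1] with t ht
    rw [(ht.2 (mem_univ t)).1]
    exact le_abs_self _
  have h1 : ∫ t, x t * |w t| ∂lam = ∫ t, (T z) t * y t ∂lam := by
    have e1 : ∫ t, x t * |w t| ∂lam = ∫ t, z t * w t ∂lam := by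
      refine integral_congr_ae ?_
      filter_upwards [hz1] with t ht
      exact (ht.2 (mem_univ t)).2.symm
    rw [e1, ← inner_eq, ← inner_eq, hw, ContinuousLinearMap.adjoint_inner_right]
  have hi : Integrable (fun t => x t * |w t|) lam := by
    refine (int_mul z w).congr ?_
    filter_upwards [hz1] with t ht
    exact (ht.2 (mem_univ t)).2
  have h2 : ∫⁻ t, ENNReal.ofReal (x t * |w t|) ∂lam ≤ ENNReal.ofReal C * 2 := by
    rw [← ofReal_integral_eq_lintegral_ofReal hi
      (Eventually.of_forall fun t => mul_nonneg (hx t) (abs_nonneg _)), h1]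
    refine (ofReal_int_le (int_mul (T z) y)).trans ?_
    have e2 : (fun t => ENNReal.ofReal |(T z) t * y t|) =
        fun t => ENNReal.ofReal (C * (|(T z) t / C| * |y t|)) := by
      funext t
      rw [abs_mul, abs_div, abs_of_pos hC]
      congr 1
      field_simp
    rw [e2, lint_const hC.le]
    gcongr
    have hTm : AEMeasurable (fun t => (T z) t / C) lam :=
      (Lp.aestronglyMeasurable (T z)).aemeasurable.div_const _
    refine (young_md hΦ hs hTm).trans ?_
    have h3 := hT z hz hzx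
    calc md Φ (fun t => (T z) t / C) + md (conj Φ) y ≤ 1 + 1 := add_le_add h3 hmd
      _ = 2 := by norm_num
  have e3 : (fun t => ENNReal.ofReal (x t * |w t / (2 * C)|)) =
      fun t => ENNReal.ofReal (1 / (2 * C) * (x t * |w t|)) := by
    funext t
    rw [abs_div, abs_of_pos (show (0 : ℝ) < 2 * C by positivity)]
    congr 1
    ring
  rw [e3, lint_const (by positivity)]
  calc ENNReal.ofReal (1 / (2 * C)) * ∫⁻ t, ENNReal.ofReal (x t * |w t|) ∂lam
      ≤ ENNReal.ofReal (1 / (2 * C)) * (ENNReal.ofReal C * 2) := by gcongr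
    _ = 1 := by
        rw [show (2 : ℝ≥0∞) = ENNReal.ofReal 2 by norm_num, ← ENNReal.ofReal_mul hC.le,
          ← ENNReal.ofReal_mul (by positivity)]
        rw [show 1 / (2 * C) * (C * 2) = 1 by field_simp]
        exact ENNReal.ofReal_one

private theorem md_conj_conj (hΦ : Orl Φ) (hs : SuperLin Φ) : md (conj (conj Φ)) = md Φ := by
  funext x
  unfold md
  congr 1
  funext t
  rw [conj_conj hΦ hs (abs_nonneg _)]

theorem adj_low (hΦ : Orl Φ) (hs : SuperLin Φ) {T : L2 →L[ℝ] L2} {c : ℝ} (hc : 0 < c)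
    (hT : LowOn Φ T c) : LowOn (conj Φ) (ContinuousLinearMap.adjoint T) (c / 2) := by
  intro e f he hf he0 hf0
  obtain ⟨x, hxb, hxs, hx1, hx2⟩ := hT f e hf he hf0 he0
  have hΨ := conj_orl hΦ hs
  have hΨs := conj_superLin hΦ hs
  have hTm : AEMeasurable (fun s => (T x) s) lam := (Lp.aestronglyMeasurable (T x)).aemeasurable
  have h1 : ∃ z : SimpleFunc ℝ ℝ, (∀ t, 0 ≤ z t) ∧ md (conj Φ) z ≤ 1 ∧
      1 < ∫⁻ t, ENNReal.ofReal (z t * |f.indicator (fun s => (T x) s) t / c|) ∂lam := by
    by_contra hcon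
    push Not at hcon
    have h2 := ko hΨ hΨs (y := fun t => f.indicator (fun s => (T x) s) t / c)
      ((hTm.indicator hf).div_const _) hcon
    rw [md_conj_conj hΦ hs] at h2
    exact absurd hx2 (not_lt.2 h2)
  obtain ⟨z, hz0, hz1, hz2⟩ := h1
  obtain ⟨y, hyb, hy1⟩ := exists_sgn z hz0 (T x) hf
  have hy_md : md (conj Φ) y ≤ 1 := by
    refine (md_mono hΨ.qorl ?_).trans hz1
    filter_upwards [hy1] with t ht
    by_cases h : t ∈ f
    · rw [(ht.2 h).1]
      exact le_abs_self _
    · rw [ht.1 h, abs_zero]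
      exact abs_nonneg _
  have hyT : ENNReal.ofReal c < ENNReal.ofReal (∫ t, y t * (T x) t ∂lam) := by
    have e1 : (fun t => y t * (T x) t) =ᵐ[lam]
        fun t => c * (z t * |f.indicator (fun s => (T x) s) t / c|) := by
      filter_upwards [hy1] with t ht
      by_cases h : t ∈ f
      · rw [(ht.2 h).2, indicator_of_mem h, abs_div, abs_of_pos hc]
        field_simp
      · rw [ht.1 h, indicator_of_notMem h]
        simp
    have hi : Integrable (fun t => c * (z t * |f.indicator (fun s => (T x) s) t / c|)) lam :=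
      (int_mul y (T x)).congr e1
    rw [integral_congr_ae e1, ofReal_integral_eq_lintegral_ofReal hi
      (Eventually.of_forall fun t => mul_nonneg hc.le (mul_nonneg (hz0 t) (abs_nonneg _))),
      lint_const hc.le]
    have hc0 : ENNReal.ofReal c ≠ 0 := (ENNReal.ofReal_pos.2 hc).ne'
    calc ENNReal.ofReal c = ENNReal.ofReal c * 1 := (mul_one _).symm
      _ < _ := ENNReal.mul_lt_mul_right hc0 ENNReal.ofReal_ne_top hz2
  refine ⟨y, hyb, ?_, hy_md, ?_⟩
  · filter_upwards [hy1] with t ht h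
    exact ht.1 h
  · by_contra hcon
    rw [not_lt] at hcon
    set w : L2 := ContinuousLinearMap.adjoint T y with hw
    have h3 : ∫ t, y t * (T x) t ∂lam = ∫ t, x t * w t ∂lam := by
      rw [← inner_eq, ← inner_eq, hw, ContinuousLinearMap.adjoint_inner_right]
      exact real_inner_comm _ _
    have h4 : ENNReal.ofReal (∫ t, x t * w t ∂lam) ≤ ENNReal.ofReal c := by
      refine (ofReal_int_le (int_mul x w)).trans ?_
      have e2 : (fun t => ENNReal.ofReal |x t * w t|) =ᵐ[lam]
          fun t => ENNReal.ofReal (c / 2 * (|x t| * |e.indicator (fun s => w s) t / (c / 2)|)) := by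
        filter_upwards [hxs] with t ht
        by_cases h : t ∈ e
        · rw [indicator_of_mem h, abs_div, abs_mul, abs_of_pos (half_pos hc)]
          congr 1
          field_simp
        · rw [ht h]
          simp
      rw [lintegral_congr_ae e2, lint_const (half_pos hc).le]
      have h5 := young_md hΦ hs (x := fun t => x t)
        (y := fun t => e.indicator (fun s => w s) t / (c / 2))
        (Lp.aestronglyMeasurable x).aemeasurable
      calc ENNReal.ofReal (c / 2) *
            ∫⁻ t, ENNReal.ofReal (|x t| * |e.indicator (fun s => w s) t / (c / 2)|) ∂lam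
          ≤ ENNReal.ofReal (c / 2) * (1 + 1) := by
            gcongr
            exact h5.trans (add_le_add hx1 hcon)
        _ = ENNReal.ofReal c := by
            rw [show (1 : ℝ≥0∞) + 1 = ENNReal.ofReal 2 by norm_num,
              ← ENNReal.ofReal_mul (half_pos hc).le]
            congr 1
            ring
    rw [h3] at hyT
    exact absurd hyT (not_lt.2 h4)

theorem DInf_conj (hΦ : Orl Φ) (hs : SuperLin Φ) (h : DInf Φ) : DInf (conj Φ) := by
  obtain ⟨T, C, c, hC, hc, h1, h2⟩ := h
  exact ⟨ContinuousLinearMap.adjoint T, 2 * C, c / 2, by positivity, by positivity,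
    adj_bdd hΦ hs hC h1, adj_low hΦ hs hc h2⟩

theorem DInf_of_conj (hΦ : Orl Φ) (hs : SuperLin Φ) (h : DInf (conj Φ)) : DInf Φ := by
  obtain ⟨T, C, c, hC, hc, h1, h2⟩ := DInf_conj (conj_orl hΦ hs) (conj_superLin hΦ hs) h
  refine ⟨T, C, c, hC, hc, ?_, ?_⟩
  · unfold BddOn at h1 ⊢
    rwa [md_conj_conj hΦ hs] at h1
  · unfold LowOn at h2 ⊢
    rwa [md_conj_conj hΦ hs] at h2

end

end Pool.Agent.OB9
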