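import Pool.Agent.OB9.Core

/-!
# Module OB9/AdrB

Addresses: for `l + a ≤ b` and `i < 2^b` write `i = (j 2^a + m) 2^(b-l-a) + u` with `j < 2^l`,
`m < 2^a`, `u < 2^(b-l-a)`; then `adr l a b i = m` and `wix l a b i = j 2^(b-l-a) + u`.

PROOF. All statements are about quotients and remainders: `i / 2^(b-l-a) = j 2^a + m`,
`i / 2^(b-l) = j` (`Nat.div_div_eq_div_mul`, `2^(b-l) = 2^(b-l-a) 2^a`), `i % 2^(b-l-a) = u`.
`adr_div`: `(i / 2^(b-l-a') % 2^a') / 2^(a'-a) = i / 2^(b-l-a) % 2^a` (`Nat.mod_pow_..`,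
`Nat.div_mod_eq_mod_mul_div`-like facts; or write `i` in the form above).
-/

set_option autoImplicit false

namespace Pool.Agent.OB9

open MeasureTheory Set Filter
open scoped ENNReal Topology

noncomputable section

theorem adr_lt (l a b i : ℕ) : adr l a b i < 2 ^ a := Nat.mod_lt _ (by positivity)

private theorem AdrB_div (a c i : ℕ) : i / 2 ^ (a + c) = i / 2 ^ c / 2 ^ a := by
  rw [Nat.div_div_eq_div_mul, ← pow_add, add_comm c a]

theorem wix_lt {l a b i : ℕ} (h : l + a ≤ b) (hi : i < 2 ^ b) : wix l a b i < 2 ^ (b - a) := by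
  obtain ⟨c, rfl⟩ : ∃ c, b = l + a + c := ⟨b - (l + a), by omega⟩
  unfold wix
  rw [show l + a + c - l - a = c by omega, show l + a + c - l = a + c by omega,
    show l + a + c - a = l + c by omega]
  have h1 : i / 2 ^ (a + c) < 2 ^ l := by
    rw [Nat.div_lt_iff_lt_mul (by positivity), ← pow_add, ← add_assoc]
    exact hi
  have h2 : i % 2 ^ c < 2 ^ c := Nat.mod_lt _ (by positivity)
  have h3 : (i / 2 ^ (a + c) + 1) * 2 ^ c ≤ 2 ^ l * 2 ^ c := Nat.mul_le_mul_right _ h1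
  rw [pow_add 2 l c]
  rw [add_mul, one_mul] at h3
  omega

theorem adr_wix_inj {l a b i j : ℕ} (h : l + a ≤ b) (hi : i < 2 ^ b) (hj : j < 2 ^ b)
    (h1 : adr l a b i = adr l a b j) (h2 : wix l a b i = wix l a b j) : i = j := by
  obtain ⟨c, rfl⟩ : ∃ c, b = l + a + c := ⟨b - (l + a), by omega⟩
  unfold adr at h1
  unfold wix at h2
  rw [show l + a + c - l - a = c by omega] at h1 h2
  rw [show l + a + c - l = a + c by omega] at h2
  have p0 : 0 < 2 ^ c := by positivity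
  have u1 : i % 2 ^ c < 2 ^ c := Nat.mod_lt _ p0
  have u2 : j % 2 ^ c < 2 ^ c := Nat.mod_lt _ p0
  have e1 : i % 2 ^ c = j % 2 ^ c := by
    have h3 := congrArg (fun t => t % 2 ^ c) h2
    simp only [Nat.mul_add_mod', Nat.mod_mod] at h3
    exact h3
  have e2 : i / 2 ^ (a + c) = j / 2 ^ (a + c) := by
    rw [e1] at h2
    have h3 := Nat.add_right_cancel h2
    exact Nat.eq_of_mul_eq_mul_right p0 h3
  rw [AdrB_div, AdrB_div] at e2
  have e3 : i / 2 ^ c = j / 2 ^ c := by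
    rw [← Nat.div_add_mod (i / 2 ^ c) (2 ^ a), ← Nat.div_add_mod (j / 2 ^ c) (2 ^ a), h1, e2]
  rw [← Nat.div_add_mod i (2 ^ c), ← Nat.div_add_mod j (2 ^ c), e1, e3]

theorem adr_div {l a a' b i : ℕ} (h : l + a' ≤ b) (ha : a ≤ a') :
    adr l a' b i / 2 ^ (a' - a) = adr l a b i := by
  obtain ⟨c, rfl⟩ : ∃ c, b = l + a' + c := ⟨b - (l + a'), by omega⟩
  obtain ⟨d, rfl⟩ : ∃ d, a' = a + d := ⟨a' - a, by omega⟩
  unfold adr
  rw [show l + (a + d) + c - l - (a + d) = c by omega, show a + d - a = d by omega,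
    show l + (a + d) + c - l - a = d + c by omega, pow_add 2 a d, Nat.mod_mul_left_div_self,
    AdrB_div]

theorem adr_mk {l a b j m u : ℕ} (h : l + a ≤ b) (hj : j < 2 ^ l) (hm : m < 2 ^ a)
    (hu : u < 2 ^ (b - l - a)) :
    (j * 2 ^ a + m) * 2 ^ (b - l - a) + u < 2 ^ b ∧
      adr l a b ((j * 2 ^ a + m) * 2 ^ (b - l - a) + u) = m ∧
      wix l a b ((j * 2 ^ a + m) * 2 ^ (b - l - a) + u) = j * 2 ^ (b - l - a) + u := by
  obtain ⟨c, rfl⟩ : ∃ c, b = l + a + c := ⟨b - (l + a), by omega⟩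
  unfold adr wix
  rw [show l + a + c - l - a = c by omega] at *
  rw [show l + a + c - l = a + c by omega]
  have p0 : 0 < 2 ^ c := by positivity
  have pa : 0 < 2 ^ a := by positivity
  have d1 : ((j * 2 ^ a + m) * 2 ^ c + u) / 2 ^ c = j * 2 ^ a + m := by
    rw [mul_comm, Nat.mul_add_div p0, Nat.div_eq_of_lt hu, add_zero]
  have d2 : ((j * 2 ^ a + m) * 2 ^ c + u) % 2 ^ c = u := by
    rw [Nat.mul_add_mod', Nat.mod_eq_of_lt hu]
  have d3 : (j * 2 ^ a + m) / 2 ^ a = j := by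
    rw [mul_comm, Nat.mul_add_div pa, Nat.div_eq_of_lt hm, add_zero]
  have d4 : (j * 2 ^ a + m) % 2 ^ a = m := by
    rw [Nat.mul_add_mod', Nat.mod_eq_of_lt hm]
  refine ⟨?_, ?_, ?_⟩
  · have h1 : (j + 1) * 2 ^ a ≤ 2 ^ l * 2 ^ a := Nat.mul_le_mul_right _ hj
    have h2 : j * 2 ^ a + m + 1 ≤ 2 ^ l * 2 ^ a := by
      rw [add_mul, one_mul] at h1
      omega
    have h3 : (j * 2 ^ a + m + 1) * 2 ^ c ≤ 2 ^ l * 2 ^ a * 2 ^ c := Nat.mul_le_mul_right _ h2
    rw [add_mul (j * 2 ^ a + m) 1, one_mul] at h3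
    rw [pow_add, pow_add]
    omega
  · rw [d1, d4]
  · rw [AdrB_div, d1, d2, d3]

/-- The indices `i < 2^b` with given address correspond to the values `wix < 2^(b-a)`. -/
theorem sum_adr {l a b m : ℕ} (h : l + a ≤ b) (hm : m < 2 ^ a) (f : ℕ → ℝ) :
    (∑ i ∈ Finset.range (2 ^ b), if adr l a b i = m then f (wix l a b i) else 0) =
      ∑ q ∈ Finset.range (2 ^ (b - a)), f q := by
  rw [← Finset.sum_filter]
  refine Finset.sum_bij (fun i _ => wix l a b i) ?_ ?_ ?_ ?_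
  · intro i hi
    rw [Finset.mem_filter, Finset.mem_range] at hi
    rw [Finset.mem_range]
    exact wix_lt h hi.1
  · intro i hi j hj hij
    rw [Finset.mem_filter, Finset.mem_range] at hi hj
    exact adr_wix_inj h hi.1 hj.1 (hi.2.trans hj.2.symm) hij
  · intro q hq
    rw [Finset.mem_range] at hq
    have p0 : 0 < 2 ^ (b - l - a) := by positivity
    have h1 : q / 2 ^ (b - l - a) < 2 ^ l := by
      rw [Nat.div_lt_iff_lt_mul p0, ← pow_add, show l + (b - l - a) = b - a by omega]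
      exact hq
    obtain ⟨g1, g2, g3⟩ := adr_mk h h1 hm (Nat.mod_lt q p0)
    refine ⟨_, ?_, g3.trans ?_⟩
    · rw [Finset.mem_filter, Finset.mem_range]
      exact ⟨g1, g2⟩
    · rw [mul_comm]
      exact Nat.div_add_mod q _
  · intro i _
    rfl

end

end Pool.Agent.OB9
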