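import Pool.Agent.OB9.OrlB

/-!
# Module OB9/MdB

Elementary facts on the modular.

PROOF. `md_mono`: monotonicity of `M` and of the lintegral. `md_smul`: `QOrl.sub` pointwise and
`lintegral_const_mul` (measurability is not needed for `≤`, use `lintegral_const_mul'` with a finite
constant). `md_div_le`: `md_smul` with `c = 1/K`. `md_add2`: `|(x+y)/2| ≤ max |x| |y|`, so
`M(..) ≤ M |x| + M |y|` pointwise; `lintegral_add_left'` needs a.e. measurability of one function
(`QOrl.meas.comp_aemeasurable`). `md_add3`: same with the maximum of three. `md_fatou`: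
`lintegral_liminf_le'` and continuity of `M` on `[0,∞)` (`M |x n t| → M |y t|`). `md_ite`: split the
integral over a measurable set (`lintegral_add_compl` after writing as restricted integrals); the
set is given as a null measurable one through the hypothesis. `md_disj`: if `A_1, …` are pairwise
disjoint (a.e. at most one of the functions is nonzero) then the sum of the modulars is the modular
of the sum; here stated as an inequality `∑ md M (x i) ≤ md M y` when at a.e. point at most one
`x i t` is nonzero and `|x i t| ≤ |y t|`: `∑ M |x i t| ≤ M |y t|` pointwise (`M 0 = 0`), and the sum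
of lintegrals is the lintegral of the sum (`lintegral_finset_sum'`).
-/

set_option autoImplicit false

namespace Pool.Agent.OB9

open MeasureTheory Set Filter
open scoped ENNReal Topology

noncomputable section

variable {M : ℝ → ℝ}

theorem md_mono (hM : QOrl M) {x y : ℝ → ℝ} (h : ∀ᵐ t ∂lam, |x t| ≤ |y t|) :
    md M x ≤ md M y := by
  unfold md
  refine lintegral_mono_ae ?_
  filter_upwards [h] with t ht
  exact ENNReal.ofReal_le_ofReal (hM.mono (mem_Ici.2 (abs_nonneg _)) (mem_Ici.2 (abs_nonneg _)) ht)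

theorem md_congr {x y : ℝ → ℝ} (h : x =ᵐ[lam] y) : md M x = md M y := by
  unfold md
  refine lintegral_congr_ae ?_
  filter_upwards [h] with t ht
  rw [ht]

theorem md_smul (hM : QOrl M) {c : ℝ} (h0 : 0 ≤ c) (h1 : c ≤ 1) (x : ℝ → ℝ) :
    md M (fun t => c * x t) ≤ ENNReal.ofReal c * md M x := by
  unfold md
  rw [← lintegral_const_mul' _ _ ENNReal.ofReal_ne_top]
  refine lintegral_mono fun t => ?_
  rw [← ENNReal.ofReal_mul h0, abs_mul, abs_of_nonneg h0]
  exact ENNReal.ofReal_le_ofReal (hM.sub c _ h0 h1 (abs_nonneg _))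

theorem md_div_le (hM : QOrl M) {x : ℝ → ℝ} {K : ℝ} (hK : 1 ≤ K)
    (h : md M x ≤ ENNReal.ofReal K) : md M (fun t => x t / K) ≤ 1 := by
  have hK0 : 0 < K := by linarith
  have h1 := md_smul hM (c := 1 / K) (by positivity) (by rw [div_le_one hK0]; exact hK) x
  have e : (fun t => x t / K) = fun t => 1 / K * x t := by
    funext t
    rw [div_mul_eq_mul_div, one_mul]
  rw [e]
  refine h1.trans ?_
  calc ENNReal.ofReal (1 / K) * md M x ≤ ENNReal.ofReal (1 / K) * ENNReal.ofReal K := by gcongr
    _ = 1 := by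
      rw [← ENNReal.ofReal_mul (by positivity), one_div, inv_mul_cancel₀ hK0.ne',
        ENNReal.ofReal_one]

private theorem md_ae_add (hM : QOrl M) {x : ℝ → ℝ} (hx : AEMeasurable x lam)
    (f : ℝ → ℝ≥0∞) :
    ∫⁻ t, (ENNReal.ofReal (M |x t|) + f t) ∂lam = md M x + ∫⁻ t, f t ∂lam := by
  unfold md
  exact lintegral_add_left' (hM.meas.comp_aemeasurable hx).ennreal_ofReal _

theorem md_add2 (hM : QOrl M) {x y : ℝ → ℝ} (hx : AEMeasurable x lam) :
    md M (fun t => (x t + y t) / 2) ≤ md M x + md M y := by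
  have h1 := md_ae_add hM hx (fun t => ENNReal.ofReal (M |y t|))
  have e : md M y = ∫⁻ t, ENNReal.ofReal (M |y t|) ∂lam := rfl
  rw [e, ← h1]
  unfold md
  refine lintegral_mono fun t => ?_
  have h0 := abs_nonneg (x t)
  have h0' := abs_nonneg (y t)
  have h2 : |(x t + y t) / 2| ≤ max |x t| |y t| := by
    rw [abs_div, abs_two, div_le_iff₀ two_pos]
    have := abs_add_le (x t) (y t)
    have h3 := le_max_left |x t| |y t|
    have h4 := le_max_right |x t| |y t|
    linarith
  refine (ENNReal.ofReal_le_ofReal (hM.mono (mem_Ici.2 (abs_nonneg _))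
    (mem_Ici.2 (h0.trans (le_max_left _ _))) h2)).trans ?_
  rcases max_choice |x t| |y t| with h3 | h3
  · rw [h3]
    exact le_self_add
  · rw [h3]
    exact le_add_self

theorem md_add3 (hM : QOrl M) {x y z : ℝ → ℝ} (hx : AEMeasurable x lam)
    (hy : AEMeasurable y lam) :
    md M (fun t => (x t + y t + z t) / 3) ≤ md M x + md M y + md M z := by
  have h1 := md_ae_add hM hx (fun t => ENNReal.ofReal (M |y t|) + ENNReal.ofReal (M |z t|))
  have h1' := md_ae_add hM hy (fun t => ENNReal.ofReal (M |z t|))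
  have e : md M z = ∫⁻ t, ENNReal.ofReal (M |z t|) ∂lam := rfl
  rw [add_assoc, e, ← h1', ← h1]
  unfold md
  refine lintegral_mono fun t => ?_
  have h0 := abs_nonneg (x t)
  have h2 : |(x t + y t + z t) / 3| ≤ max |x t| (max |y t| |z t|) := by
    rw [abs_div, abs_of_pos (by norm_num : (0 : ℝ) < 3), div_le_iff₀ (by norm_num)]
    have h5 := abs_add_le (x t + y t) (z t)
    have h6 := abs_add_le (x t) (y t)
    have h3 := le_max_left |x t| (max |y t| |z t|)
    have h4 := le_max_right |x t| (max |y t| |z t|)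
    have h7 := (le_max_left |y t| |z t|).trans h4
    have h8 := (le_max_right |y t| |z t|).trans h4
    linarith
  refine (ENNReal.ofReal_le_ofReal (hM.mono (mem_Ici.2 (abs_nonneg _))
    (mem_Ici.2 (h0.trans (le_max_left _ _))) h2)).trans ?_
  rcases max_choice |x t| (max |y t| |z t|) with h3 | h3
  · rw [h3]
    exact le_self_add
  · rw [h3]
    refine le_trans ?_ le_add_self
    rcases max_choice |y t| |z t| with h4 | h4
    · rw [h4]
      exact le_self_add
    · rw [h4]
      exact le_add_self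

theorem md_fatou (hM : QOrl M) {x : ℕ → ℝ → ℝ} {y : ℝ → ℝ} (hx : ∀ n, AEMeasurable (x n) lam)
    (h : ∀ᵐ t ∂lam, Tendsto (fun n => x n t) atTop (𝓝 (y t))) {C : ℝ≥0∞}
    (hC : ∀ n, md M (x n) ≤ C) : md M y ≤ C := by
  have h1 : md M y ≤ ∫⁻ t, liminf (fun n => ENNReal.ofReal (M |x n t|)) atTop ∂lam := by
    unfold md
    refine lintegral_mono_ae ?_
    filter_upwards [h] with t ht
    have h2 : Tendsto (fun n => |x n t|) atTop (𝓝[Ici 0] |y t|) := by
      rw [tendsto_nhdsWithin_iff]
      exact ⟨ht.abs, Eventually.of_forall fun n => mem_Ici.2 (abs_nonneg _)⟩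
    have h3 : Tendsto (fun n => M |x n t|) atTop (𝓝 (M |y t|)) :=
      (hM.cont |y t| (mem_Ici.2 (abs_nonneg _))).tendsto.comp h2
    rw [(ENNReal.tendsto_ofReal h3).liminf_eq]
  have h2 := lintegral_liminf_le' (μ := lam) (u := atTop) (f := fun (n : ℕ) t => ENNReal.ofReal (M |x n t|))
    (fun n => (hM.meas.comp_aemeasurable (hx n)).ennreal_ofReal)
  refine h1.trans (h2.trans ?_)
  refine (liminf_le_liminf (Eventually.of_forall hC)).trans ?_
  simp

theorem md_disj (hM : QOrl M) {n : ℕ} {x : ℕ → ℝ → ℝ} {y : ℝ → ℝ}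
    (hx : ∀ i < n, AEMeasurable (x i) lam)
    (h1 : ∀ᵐ t ∂lam, ∀ i < n, |x i t| ≤ |y t|)
    (h2 : ∀ᵐ t ∂lam, ∀ i < n, ∀ j < n, i ≠ j → x i t = 0 ∨ x j t = 0) :
    ∑ i ∈ Finset.range n, md M (x i) ≤ md M y := by
  have e : ∑ i ∈ Finset.range n, md M (x i) =
      ∫⁻ t, ∑ i ∈ Finset.range n, ENNReal.ofReal (M |x i t|) ∂lam := by
    unfold md
    exact (lintegral_finsetSum' (μ := lam) (Finset.range n)
      (f := fun i t => ENNReal.ofReal (M |x i t|)) fun i hi =>
        (hM.meas.comp_aemeasurable (hx i (Finset.mem_range.1 hi))).ennreal_ofReal).symm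
  rw [e]
  unfold md
  refine lintegral_mono_ae ?_
  filter_upwards [h1, h2] with t ht1 ht2
  by_cases hex : ∃ i, i < n ∧ x i t ≠ 0
  · obtain ⟨i, hi, hne⟩ := hex
    rw [Finset.sum_eq_single_of_mem i (Finset.mem_range.2 hi)]
    · exact ENNReal.ofReal_le_ofReal (hM.mono (mem_Ici.2 (abs_nonneg _))
        (mem_Ici.2 (abs_nonneg _)) (ht1 i hi))
    · intro j hj hji
      rcases ht2 i hi j (Finset.mem_range.1 hj) hji.symm with h3 | h3
      · exact absurd h3 hne
      · rw [h3, abs_zero, hM.zero, ENNReal.ofReal_zero]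
  · push Not at hex
    rw [Finset.sum_eq_zero]
    · exact bot_le
    · intro j hj
      rw [hex j (Finset.mem_range.1 hj), abs_zero, hM.zero, ENNReal.ofReal_zero]

theorem md_zero (hM : QOrl M) : md M (fun _ => 0) = 0 := by
  unfold md
  simp [hM.zero]

theorem md_const_le (hM : QOrl M) {x : ℝ → ℝ} {R : ℝ} (h : ∀ᵐ t ∂lam, |x t| ≤ R) :
    md M x ≤ ENNReal.ofReal (M R) := by
  unfold md
  calc ∫⁻ t, ENNReal.ofReal (M |x t|) ∂lam ≤ ∫⁻ _, ENNReal.ofReal (M R) ∂lam := by
        refine lintegral_mono_ae ?_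
        filter_upwards [h] with t ht
        exact ENNReal.ofReal_le_ofReal (hM.mono (mem_Ici.2 (abs_nonneg _))
          (mem_Ici.2 ((abs_nonneg _).trans ht)) ht)
    _ = ENNReal.ofReal (M R) := by
        rw [lintegral_const, measure_univ, mul_one]

end

end Pool.Agent.OB9
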