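import Pool.Agent.OB9.DyA
import Pool.Agent.OB9.MdB

/-!
# Module OB9/AvB

Averages over dyadic intervals (`av`).

PROOF. `av n x t` is a function of `idx n t`. `av_int`: `integral_mul_idx` for both sides
(`∫_{cell n k} av n x = ∫_{cell n k} x`). `md_av_le`: Jensen's inequality on each cell
(`ConvexOn.map_average_le` or by hand with a supporting line from convexity: `Φ|·|` is convex on `ℝ`
and continuous; if `md Φ x = ∞` nothing to prove, else `Φ|x|` is integrable). `av_height`: by Jensen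
on one cell `Φ |av n x t| ≤ 2^n ∫_{cell} Φ|x| ≤ 2^n`. `av_sq`: Jensen (or Cauchy-Schwarz) for
`t ↦ t²`. `av_bound`: trivial.
-/

set_option autoImplicit false

namespace Pool.Agent.OB9

open MeasureTheory Set Filter
open scoped ENNReal Topology

noncomputable section

variable {Φ : ℝ → ℝ}

private theorem avb_convex (hΦ : Orl Φ) : ConvexOn ℝ univ (fun y : ℝ => Φ |y|) := by
  refine ⟨convex_univ, ?_⟩
  intro x _ y _ a b ha hb hab
  have h1 : |a • x + b • y| ≤ a * |x| + b * |y| := by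
    simp only [smul_eq_mul]
    refine (abs_add_le _ _).trans (le_of_eq ?_)
    rw [abs_mul, abs_mul, abs_of_nonneg ha, abs_of_nonneg hb]
  have h2 := hΦ.mono (mem_Ici.2 (abs_nonneg (a • x + b • y)))
    (mem_Ici.2 (by positivity : (0 : ℝ) ≤ a * |x| + b * |y|)) h1
  refine h2.trans ?_
  exact hΦ.conv.2 (mem_Ici.2 (abs_nonneg x)) (mem_Ici.2 (abs_nonneg y)) ha hb hab

private theorem avb_cont (hΦ : Orl Φ) : Continuous (fun y : ℝ => Φ |y|) :=
  hΦ.qorl.cont.comp_continuous continuous_abs fun y => mem_Ici.2 (abs_nonneg y)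

private theorem avb_real {n k : ℕ} (hk : k < 2 ^ n) : lam.real (cell n k) = 1 / 2 ^ n := by
  rw [measureReal_def, lam_cell hk, ENNReal.toReal_ofReal (by positivity)]

/-- Jensen's inequality on one cell. -/
private theorem avb_jensen (hΦ : Orl Φ) {n k : ℕ} (hk : k < 2 ^ n) {x : ℝ → ℝ}
    (hx : Integrable x lam) :
    ENNReal.ofReal (Φ |2 ^ n * ∫ s in cell n k, x s ∂lam|) ≤
      ENNReal.ofReal (2 ^ n) * ∫⁻ s in cell n k, ENNReal.ofReal (Φ |x s|) ∂lam := by
  have hp : (0 : ℝ) < 2 ^ n := by positivity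
  have hnn : ∀ s, 0 ≤ Φ |x s| := fun s => hΦ.qorl.nonneg (abs_nonneg _)
  by_cases hfin : ∫⁻ s in cell n k, ENNReal.ofReal (Φ |x s|) ∂lam = ⊤
  · rw [hfin, ENNReal.mul_top (by simp)]
    exact le_top
  · have hmeas : AEStronglyMeasurable (fun s => Φ |x s|) (lam.restrict (cell n k)) :=
      (avb_cont hΦ).comp_aestronglyMeasurable hx.aestronglyMeasurable.restrict
    have hint : Integrable (fun s => Φ |x s|) (lam.restrict (cell n k)) := by
      refine ⟨hmeas, ?_⟩
      rw [hasFiniteIntegral_iff_ofReal (Filter.Eventually.of_forall hnn)]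
      exact lt_top_iff_ne_top.2 hfin
    have hreal : (lam.restrict (cell n k)).real univ = 1 / 2 ^ n := by
      rw [measureReal_restrict_apply_univ, avb_real hk]
    have hne : lam.restrict (cell n k) ≠ 0 := by
      intro h0
      rw [h0] at hreal
      have h1 : (0 : ℝ) = 1 / 2 ^ n := by simpa using hreal
      have h2 : (0 : ℝ) < 1 / 2 ^ n := by positivity
      linarith
    have : NeZero (lam.restrict (cell n k)) := ⟨hne⟩
    have hJ := (avb_convex hΦ).map_average_le (avb_cont hΦ).continuousOn isClosed_univ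
      (Filter.Eventually.of_forall fun s => mem_univ (x s)) hx.restrict hint
    rw [average_eq, average_eq, hreal, one_div, inv_inv, smul_eq_mul, smul_eq_mul] at hJ
    refine (ENNReal.ofReal_le_ofReal hJ).trans (le_of_eq ?_)
    rw [ENNReal.ofReal_mul hp.le]
    congr 1
    exact ofReal_integral_eq_lintegral_ofReal hint (Filter.Eventually.of_forall hnn)

private theorem avb_disj {n j k : ℕ} (h : j ≠ k) : Disjoint (cell n j) (cell n k) := by
  rw [Set.disjoint_left]
  intro t hj hk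
  have ht : 0 ≤ t := le_trans (by positivity) hj.1
  rw [mem_cell ht] at hj hk
  exact h (hj.symm.trans hk)

private theorem avb_sum_le (n : ℕ) (g : ℝ → ℝ≥0∞) :
    ∑ k ∈ Finset.range (2 ^ n), ∫⁻ s in cell n k, g s ∂lam ≤ ∫⁻ s, g s ∂lam := by
  rw [← lintegral_biUnion_finset (fun i _ j _ hij => avb_disj hij)
    (fun k _ => measurableSet_cell n k)]
  exact setLIntegral_le_lintegral _ _

theorem measurable_av (n : ℕ) (x : ℝ → ℝ) : Measurable (av n x) := by
  have h : Measurable (fun k : ℕ => 2 ^ n * ∫ s in cell n k, x s ∂lam) := measurable_from_nat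
  exact h.comp (measurable_idx n)

theorem av_eq_idx (n : ℕ) (x : ℝ → ℝ) : ∃ a : ℕ → ℝ, ∀ t, av n x t = a (idx n t) :=
  ⟨fun k => 2 ^ n * ∫ s in cell n k, x s ∂lam, fun _ => rfl⟩

theorem av_int (n : ℕ) {x : ℝ → ℝ} (hx : Integrable x lam) (a : ℕ → ℝ) :
    ∫ t, av n x t * a (idx n t) ∂lam = ∫ t, x t * a (idx n t) ∂lam := by
  have h1 := integral_idx n (fun k => (2 ^ n * ∫ s in cell n k, x s ∂lam) * a k)
  have h2 : ∫ t, av n x t * a (idx n t) ∂lam =
      ∫ t, (fun k => (2 ^ n * ∫ s in cell n k, x s ∂lam) * a k) (idx n t) ∂lam := rfl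
  rw [h2, h1, integral_mul_idx n a hx, Finset.sum_div]
  refine Finset.sum_congr rfl fun k _ => ?_
  have hp : (2 : ℝ) ^ n ≠ 0 := by positivity
  field_simp

theorem md_av_le (hΦ : Orl Φ) (n : ℕ) {x : ℝ → ℝ} (hx : Integrable x lam) :
    md Φ (av n x) ≤ md Φ x := by
  have hp : (0 : ℝ) < 2 ^ n := by positivity
  have h1 := lintegral_idx n (fun k => ENNReal.ofReal (Φ |2 ^ n * ∫ s in cell n k, x s ∂lam|))
  have h2 : md Φ (av n x) = ∫⁻ t, (fun k =>
      ENNReal.ofReal (Φ |2 ^ n * ∫ s in cell n k, x s ∂lam|)) (idx n t) ∂lam := rfl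
  rw [h2, h1, Finset.sum_mul]
  refine le_trans (Finset.sum_le_sum fun k hk => ?_) (avb_sum_le n _)
  refine (mul_le_mul_left (avb_jensen hΦ (Finset.mem_range.1 hk) hx) _).trans (le_of_eq ?_)
  rw [mul_comm, ← mul_assoc, ← ENNReal.ofReal_mul (by positivity), one_div,
    inv_mul_cancel₀ hp.ne', ENNReal.ofReal_one, one_mul]

theorem av_height (hΦ : Orl Φ) (n : ℕ) {x : ℝ → ℝ} (hx : Integrable x lam) (h : md Φ x ≤ 1)
    {t : ℝ} (ht : t ∈ Ico (0 : ℝ) 1) : Φ |av n x t| ≤ 2 ^ n := by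
  have hp : (0 : ℝ) < 2 ^ n := by positivity
  have h1 := avb_jensen hΦ (idx_lt ht.1 ht.2 : idx n t < 2 ^ n) hx
  have h2 : ∫⁻ s in cell n (idx n t), ENNReal.ofReal (Φ |x s|) ∂lam ≤ 1 :=
    (setLIntegral_le_lintegral _ _).trans h
  have h3 : ENNReal.ofReal (Φ |av n x t|) ≤ ENNReal.ofReal (2 ^ n) := by
    refine h1.trans ?_
    calc ENNReal.ofReal (2 ^ n) * ∫⁻ s in cell n (idx n t), ENNReal.ofReal (Φ |x s|) ∂lam
        ≤ ENNReal.ofReal (2 ^ n) * 1 := by gcongr
      _ = ENNReal.ofReal (2 ^ n) := mul_one _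
  exact (ENNReal.ofReal_le_ofReal_iff hp.le).1 h3

private theorem avb_orl_sq : Orl (fun t : ℝ => t ^ 2) := by
  refine ⟨convexOn_pow 2, ?_, by simp, ⟨1, zero_le_one, by norm_num⟩⟩
  intro a ha b _ hab
  exact pow_le_pow_left₀ (mem_Ici.1 ha) hab 2

theorem av_sq (n : ℕ) {x : ℝ → ℝ} (hx : MemLp x 2 lam) :
    ∫ t, av n x t ^ 2 ∂lam ≤ ∫ t, x t ^ 2 ∂lam := by
  have hxi : Integrable x lam := hx.integrable (by norm_num)
  have h1 := md_av_le avb_orl_sq n hxi
  unfold md at h1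
  simp only [sq_abs] at h1
  have hx2 : Integrable (fun t => x t ^ 2) lam := hx.integrable_sq
  have hfin : ∫⁻ t, ENNReal.ofReal (x t ^ 2) ∂lam ≠ ⊤ := by
    have h2 := hx2.2
    rw [hasFiniteIntegral_iff_ofReal (Filter.Eventually.of_forall fun t => sq_nonneg _)] at h2
    exact h2.ne
  rw [integral_eq_lintegral_of_nonneg_ae (Filter.Eventually.of_forall fun t => sq_nonneg _)
    ((measurable_av n x).pow_const 2).aestronglyMeasurable,
    integral_eq_lintegral_of_nonneg_ae (Filter.Eventually.of_forall fun t => sq_nonneg _)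
    hx2.aestronglyMeasurable]
  exact ENNReal.toReal_mono hfin h1

theorem av_bound (n : ℕ) {x : ℝ → ℝ} {R : ℝ} (h : ∀ᵐ t ∂lam, |x t| ≤ R) {t : ℝ}
    (ht : t ∈ Ico (0 : ℝ) 1) : |av n x t| ≤ R := by
  have hp : (0 : ℝ) < 2 ^ n := by positivity
  have h1 : ‖∫ s in cell n (idx n t), x s ∂lam‖ ≤ R * lam.real (cell n (idx n t)) := by
    refine norm_setIntegral_le_of_norm_le_const_ae' (measure_lt_top _ _) ?_
    filter_upwards [h] with s hs _
    exact hs
  rw [avb_real (idx_lt ht.1 ht.2), Real.norm_eq_abs] at h1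
  unfold av
  rw [abs_mul, abs_of_pos hp]
  calc 2 ^ n * |∫ s in cell n (idx n t), x s ∂lam| ≤ 2 ^ n * (R * (1 / 2 ^ n)) := by gcongr
    _ = R := by field_simp

end

end Pool.Agent.OB9
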