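import Pool.Agent.OB9.Core

/-!
# Module OB9/KeyL

Bessel's inequality and the key inequality.

PROOF. Write `β a = cf (e a) (δ a) x`. `bessel`: the functions `e a/√(δ a)` are orthonormal in `L2`
(or expand `0 ≤ ∫ (x - ∑ β_a e_a)²`): `∑ δ_a β_a² ≤ ∫ x²`. Key inequality: for `t ≥ 0` let `G t` be
the maximum of `g₁ |β_a|` over the `a ∈ s` with `|β_a| ≤ t` (`0` if there is none): nondecreasing,
finitely many values, `G |β_a| ≥ g₁ |β_a|`, and `G (2 |x t|) ≤ g₂ |x t|` by `hg` if some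
`|β_a| ≤ 2|x t|` (otherwise `G = 0 ≤`: note `g₂ w ≥ g₁ 0 ≥ 0` for `w ≥ 0` by `hg` when `B ≥ 0`; if
`s` is empty nothing to prove). For every `r > 0` let `S_r = {a ∈ s | r < G |β_a|}`, nonempty, and
`b = min_{S_r} |β_a|`; put `x₁ = x 1_{2|x| < b}`, `x₂ = x - x₁`. For `a ∈ S_r`:
`|cf (e a) (δ a) x₁| ≤ b/2 ≤ |β_a|/2` (as `∫ |e_a| = ∫ e_a² = δ_a`), so
`|cf (e a) (δ a) x₂| ≥ |β_a|/2` and by Bessel `∑_{S_r} δ_a β_a² ≤ 4 ∫ x₂² = 4 ∫_{2|x| ≥ b} x²`, where
`r < G b ≤ G(2|x|)` on `{2|x| ≥ b}`. So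
`∑_{a : r < G|β_a|} δ_a β_a² ≤ 4 ∫ x² 1_{r < G(2|x|)}` for all `r > 0`; integrate over `r ∈ (0,∞)`
(layer cake, Tonelli): `∑ δ_a β_a² G|β_a| ≤ 4 ∫ x² G(2|x|)`. (As `G` has finitely many values one can
also use Abel summation instead of the integral over `r`.)
-/

set_option autoImplicit false

namespace Pool.Agent.OB9

open MeasureTheory Set Filter
open scoped ENNReal Topology

noncomputable section

variable {ι : Type*}

private lemma e_abs {t : ℝ} {e : ℝ → ℝ} (h : e t = 0 ∨ |e t| = 1) : |e t| ≤ 1 := by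
  rcases h with h | h
  · rw [h]; simp
  · rw [h]

private lemma int_e2 {e e' : ℝ → ℝ} (hm : Measurable e) (hm' : Measurable e')
    (hv : ∀ t, e t = 0 ∨ |e t| = 1) (hv' : ∀ t, e' t = 0 ∨ |e' t| = 1) :
    Integrable (fun t => e t * e' t) lam := by
  refine Integrable.of_bound (hm.mul hm').aestronglyMeasurable 1
    (Filter.Eventually.of_forall fun t => ?_)
  rw [Real.norm_eq_abs, abs_mul]
  have h1 := e_abs (hv t)
  have h2 := e_abs (hv' t)
  have h3 := abs_nonneg (e t)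
  have h4 := abs_nonneg (e' t)
  nlinarith

private lemma int_xe {e x : ℝ → ℝ} (hx : Integrable x lam) (hm : Measurable e)
    (hv : ∀ t, e t = 0 ∨ |e t| = 1) : Integrable (fun t => x t * e t) lam := by
  refine hx.mul_bdd (c := 1) hm.aestronglyMeasurable (Filter.Eventually.of_forall fun t => ?_)
  rw [Real.norm_eq_abs]
  exact e_abs (hv t)

theorem bessel (s : Finset ι) (e : ι → ℝ → ℝ) (δ : ι → ℝ) {x : ℝ → ℝ} (hx : MemLp x 2 lam)
    (hm : ∀ a ∈ s, Measurable (e a)) (hv : ∀ a ∈ s, ∀ t, e a t = 0 ∨ |e a t| = 1)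
    (hδ : ∀ a ∈ s, 0 < δ a ∧ ∫ t, e a t ^ 2 ∂lam = δ a)
    (ho : ∀ a ∈ s, ∀ b ∈ s, a ≠ b → ∫ t, e a t * e b t ∂lam = 0) :
    ∑ a ∈ s, δ a * cf (e a) (δ a) x ^ 2 ≤ ∫ t, x t ^ 2 ∂lam := by
  classical
  have hxi : Integrable x lam := hx.integrable one_le_two
  have hx2 : Integrable (fun t => x t ^ 2) lam := hx.integrable_sq
  set β : ι → ℝ := fun a => cf (e a) (δ a) x with hβ
  have hxe : ∀ a ∈ s, Integrable (fun t => x t * e a t) lam := fun a ha =>
    int_xe hxi (hm a ha) (hv a ha)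
  have hee : ∀ a ∈ s, ∀ b ∈ s, Integrable (fun t => e a t * e b t) lam := fun a ha b hb =>
    int_e2 (hm a ha) (hm b hb) (hv a ha) (hv b hb)
  have hexp : ∀ t, (x t - ∑ a ∈ s, β a * e a t) ^ 2 =
      x t ^ 2 - 2 * ∑ a ∈ s, β a * (x t * e a t) +
        ∑ a ∈ s, ∑ b ∈ s, β a * β b * (e a t * e b t) := by
    intro t
    have h1 : (∑ a ∈ s, β a * e a t) ^ 2 = ∑ a ∈ s, ∑ b ∈ s, β a * β b * (e a t * e b t) := by
      rw [sq, Finset.sum_mul_sum]
      exact Finset.sum_congr rfl fun a _ => Finset.sum_congr rfl fun b _ => by ring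
    have h2 : x t * ∑ a ∈ s, β a * e a t = ∑ a ∈ s, β a * (x t * e a t) := by
      rw [Finset.mul_sum]
      exact Finset.sum_congr rfl fun a _ => by ring
    rw [← h1, ← h2]
    ring
  have hI : ∫ t, (x t - ∑ a ∈ s, β a * e a t) ^ 2 ∂lam =
      (∫ t, x t ^ 2 ∂lam) - 2 * ∑ a ∈ s, β a * ∫ t, x t * e a t ∂lam +
        ∑ a ∈ s, ∑ b ∈ s, β a * β b * ∫ t, e a t * e b t ∂lam := by
    simp only [hexp]
    have i1 : Integrable (fun t => ∑ a ∈ s, β a * (x t * e a t)) lam :=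
      integrable_finsetSum _ fun a ha => (hxe a ha).const_mul _
    have i2 : Integrable (fun t => ∑ a ∈ s, ∑ b ∈ s, β a * β b * (e a t * e b t)) lam :=
      integrable_finsetSum _ fun a ha => integrable_finsetSum _ fun b hb =>
        (hee a ha b hb).const_mul _
    have i3 : Integrable (fun t => x t ^ 2 - 2 * ∑ a ∈ s, β a * (x t * e a t)) lam :=
      hx2.sub (i1.const_mul 2)
    rw [integral_add i3 i2, integral_sub hx2 (i1.const_mul 2),
      integral_const_mul, integral_finsetSum _ fun a ha => (hxe a ha).const_mul _,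
      integral_finsetSum _ fun a ha => integrable_finsetSum _ fun b hb =>
        (hee a ha b hb).const_mul _]
    congr 1
    · congr 2
      exact Finset.sum_congr rfl fun a _ => integral_const_mul _ _
    · refine Finset.sum_congr rfl fun a ha => ?_
      rw [integral_finsetSum _ fun b hb => (hee a ha b hb).const_mul _]
      exact Finset.sum_congr rfl fun b _ => integral_const_mul _ _
  have h1 : ∀ a ∈ s, β a * ∫ t, x t * e a t ∂lam = δ a * β a ^ 2 := by
    intro a ha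
    have hd := (hδ a ha).1.ne'
    have : ∫ t, x t * e a t ∂lam = δ a * β a := by
      simp only [hβ, cf]
      field_simp
    rw [this]
    ring
  have h2 : ∀ a ∈ s, ∑ b ∈ s, β a * β b * ∫ t, e a t * e b t ∂lam = δ a * β a ^ 2 := by
    intro a ha
    rw [Finset.sum_eq_single a]
    · have : ∫ t, e a t * e a t ∂lam = δ a := by
        rw [← (hδ a ha).2]
        refine integral_congr_ae (Filter.Eventually.of_forall fun t => ?_)
        simp only
        ring
      rw [this]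
      ring
    · intro b hb hba
      rw [ho a ha b hb (Ne.symm hba), mul_zero]
    · intro h; exact absurd ha h
  rw [Finset.sum_congr rfl h1, Finset.sum_congr rfl h2] at hI
  have hnn : 0 ≤ ∫ t, (x t - ∑ a ∈ s, β a * e a t) ^ 2 ∂lam :=
    integral_nonneg fun t => sq_nonneg _
  rw [hI] at hnn
  change ∑ a ∈ s, δ a * β a ^ 2 ≤ _
  linarith

/-- the bound at a level -/
private lemma level (s : Finset ι) (e : ι → ℝ → ℝ) (δ : ι → ℝ) {x : ℝ → ℝ} (hx : MemLp x 2 lam)
    (hxm : Measurable x)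
    (hm : ∀ a ∈ s, Measurable (e a)) (hv : ∀ a ∈ s, ∀ t, e a t = 0 ∨ |e a t| = 1)
    (hδ : ∀ a ∈ s, 0 < δ a ∧ ∫ t, e a t ^ 2 ∂lam = δ a)
    (ho : ∀ a ∈ s, ∀ b ∈ s, a ≠ b → ∫ t, e a t * e b t ∂lam = 0)
    (b : ℝ) (hb0 : 0 ≤ b) (hb : ∀ a ∈ s, b ≤ |cf (e a) (δ a) x|) :
    ENNReal.ofReal (∑ a ∈ s, δ a * cf (e a) (δ a) x ^ 2) ≤
      4 * ∫⁻ t, {t | b ≤ 2 * |x t|}.indicator (fun t => ENNReal.ofReal (x t ^ 2)) t ∂lam := by
  set D : Set ℝ := {t | b ≤ 2 * |x t|} with hD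
  have hDm : MeasurableSet D := measurableSet_le measurable_const (hxm.abs.const_mul 2)
  set x2 : ℝ → ℝ := D.indicator x with hx2
  set x1 : ℝ → ℝ := Dᶜ.indicator x with hx1
  have hx2L : MemLp x2 2 lam := hx.indicator hDm
  have hx1L : MemLp x1 2 lam := hx.indicator hDm.compl
  have hsum : ∀ t, x t = x1 t + x2 t := by
    intro t
    rw [hx1, hx2, ← Set.indicator_compl_add_self_apply D x t]
  have hx1b : ∀ t, |x1 t| ≤ b / 2 := by
    intro t
    by_cases h : t ∈ D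
    · have hnc : t ∉ Dᶜ := fun h' => h' h
      rw [hx1, Set.indicator_of_notMem hnc, abs_zero]
      linarith
    · rw [hx1, Set.indicator_of_mem (show t ∈ Dᶜ from h)]
      have : ¬ b ≤ 2 * |x t| := h
      linarith [not_le.1 this]
  have hcf : ∀ a ∈ s, |cf (e a) (δ a) x| ≤ 2 * |cf (e a) (δ a) x2| := by
    intro a ha
    have hd := (hδ a ha).1
    have i1 := int_xe (hx1L.integrable one_le_two) (hm a ha) (hv a ha)
    have i2 := int_xe (hx2L.integrable one_le_two) (hm a ha) (hv a ha)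
    have hadd : cf (e a) (δ a) x = cf (e a) (δ a) x1 + cf (e a) (δ a) x2 := by
      unfold cf
      rw [← add_div, ← integral_add i1 i2]
      congr 1
      refine integral_congr_ae (Filter.Eventually.of_forall fun t => ?_)
      simp only
      rw [hsum t]
      ring
    have hsm : |cf (e a) (δ a) x1| ≤ b / 2 := by
      unfold cf
      rw [abs_div, abs_of_pos hd, div_le_iff₀ hd]
      have i3 : Integrable (fun t => e a t ^ 2) lam := by
        have := int_e2 (hm a ha) (hm a ha) (hv a ha) (hv a ha)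
        simpa only [sq] using this
      calc |∫ t, x1 t * e a t ∂lam| ≤ ∫ t, |x1 t * e a t| ∂lam := abs_integral_le_integral_abs
        _ ≤ ∫ t, b / 2 * e a t ^ 2 ∂lam := by
            refine integral_mono i1.abs (i3.const_mul _) fun t => ?_
            simp only
            rw [abs_mul]
            have h1 : |e a t| = e a t ^ 2 := by
              rcases hv a ha t with h | h
              · rw [h]; simp
              · rw [← sq_abs, h]; simp
            rw [h1]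
            exact mul_le_mul_of_nonneg_right (hx1b t) (sq_nonneg _)
        _ = b / 2 * δ a := by rw [integral_const_mul, (hδ a ha).2]
    have h1 := hb a ha
    have h2 : |cf (e a) (δ a) x| ≤ |cf (e a) (δ a) x1| + |cf (e a) (δ a) x2| := by
      rw [hadd]; exact abs_add_le _ _
    linarith
  have hB := bessel s e δ hx2L hm hv hδ ho
  have h4 : ∑ a ∈ s, δ a * cf (e a) (δ a) x ^ 2 ≤ 4 * ∫ t, x2 t ^ 2 ∂lam := by
    calc ∑ a ∈ s, δ a * cf (e a) (δ a) x ^ 2
        ≤ ∑ a ∈ s, 4 * (δ a * cf (e a) (δ a) x2 ^ 2) := by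
          refine Finset.sum_le_sum fun a ha => ?_
          have h1 := hcf a ha
          have h2 : cf (e a) (δ a) x ^ 2 ≤ 4 * cf (e a) (δ a) x2 ^ 2 := by
            rw [← sq_abs (cf (e a) (δ a) x), ← sq_abs (cf (e a) (δ a) x2)]
            nlinarith [abs_nonneg (cf (e a) (δ a) x), abs_nonneg (cf (e a) (δ a) x2)]
          have hd := (hδ a ha).1
          nlinarith
      _ = 4 * ∑ a ∈ s, δ a * cf (e a) (δ a) x2 ^ 2 := by rw [Finset.mul_sum]
      _ ≤ _ := by linarith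
  calc ENNReal.ofReal (∑ a ∈ s, δ a * cf (e a) (δ a) x ^ 2)
      ≤ ENNReal.ofReal (4 * ∫ t, x2 t ^ 2 ∂lam) := ENNReal.ofReal_le_ofReal h4
    _ = 4 * ENNReal.ofReal (∫ t, x2 t ^ 2 ∂lam) := by
        rw [ENNReal.ofReal_mul (by norm_num)]
        norm_num
    _ = 4 * ∫⁻ t, ENNReal.ofReal (x2 t ^ 2) ∂lam := by
        rw [ofReal_integral_eq_lintegral_ofReal hx2L.integrable_sq
          (Filter.Eventually.of_forall fun t => sq_nonneg _)]
    _ = _ := by
        congr 1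
        refine lintegral_congr fun t => ?_
        rw [hx2]
        by_cases h : t ∈ D
        · rw [Set.indicator_of_mem h, Set.indicator_of_mem h]
        · rw [Set.indicator_of_notMem h, Set.indicator_of_notMem h]
          simp

private lemma layer (y : ℝ) :
    ENNReal.ofReal y = ∫⁻ r in Ioi (0 : ℝ), (Iio y).indicator (fun _ => (1 : ℝ≥0∞)) r := by
  rw [lintegral_indicator_const measurableSet_Iio, one_mul,
    Measure.restrict_apply measurableSet_Iio, Iio_inter_Ioi, Real.volume_Ioo, sub_zero]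

private lemma keyL_meas (s : Finset ι) (e : ι → ℝ → ℝ) (δ : ι → ℝ) {x : ℝ → ℝ}
    (hx : MemLp x 2 lam) (hxm : Measurable x)
    (hm : ∀ a ∈ s, Measurable (e a)) (hv : ∀ a ∈ s, ∀ t, e a t = 0 ∨ |e a t| = 1)
    (hδ : ∀ a ∈ s, 0 < δ a ∧ ∫ t, e a t ^ 2 ∂lam = δ a)
    (ho : ∀ a ∈ s, ∀ b ∈ s, a ≠ b → ∫ t, e a t * e b t ∂lam = 0)
    (g₁ g₂ : ℝ → ℝ) (B : ℝ) (h1 : ∀ u, 0 ≤ g₁ u)
    (hg : ∀ u w, 0 ≤ u → u ≤ B → u ≤ 2 * w → g₁ u ≤ g₂ w)
    (hB : ∀ a ∈ s, |cf (e a) (δ a) x| ≤ B) :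
    ENNReal.ofReal (∑ a ∈ s, δ a * cf (e a) (δ a) x ^ 2 * g₁ |cf (e a) (δ a) x|) ≤
      4 * ∫⁻ t, ENNReal.ofReal (x t ^ 2 * g₂ |x t|) ∂lam := by
  classical
  set β : ι → ℝ := fun a => |cf (e a) (δ a) x| with hβ
  set R : Set (ℝ × ℝ) := ⋃ a ∈ s, (Iio (g₁ (β a))) ×ˢ {t | β a ≤ 2 * |x t|} with hR
  have hRm : MeasurableSet R := by
    refine MeasurableSet.biUnion s.countable_toSet fun a _ => ?_
    exact measurableSet_Iio.prod (measurableSet_le measurable_const (hxm.abs.const_mul 2))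
  set Fn : ℝ → ℝ → ℝ≥0∞ := fun r t => R.indicator (fun p => ENNReal.ofReal (x p.2 ^ 2)) (r, t)
    with hFn
  have hFm : Measurable (Function.uncurry Fn) := by
    have h2 : Measurable fun p : ℝ × ℝ => ENNReal.ofReal (x p.2 ^ 2) :=
      ((hxm.comp measurable_snd).pow_const 2).ennreal_ofReal
    exact h2.indicator hRm
  -- left side
  have hL : ENNReal.ofReal (∑ a ∈ s, δ a * cf (e a) (δ a) x ^ 2 * g₁ |cf (e a) (δ a) x|) =
      ∫⁻ r in Ioi (0 : ℝ), ∑ a ∈ s, ENNReal.ofReal (δ a * cf (e a) (δ a) x ^ 2) *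
        (Iio (g₁ (β a))).indicator (fun _ => (1 : ℝ≥0∞)) r := by
    rw [ENNReal.ofReal_sum_of_nonneg fun a ha =>
      mul_nonneg (mul_nonneg (hδ a ha).1.le (sq_nonneg _)) (h1 _)]
    rw [lintegral_finsetSum]
    · refine Finset.sum_congr rfl fun a ha => ?_
      rw [ENNReal.ofReal_mul (mul_nonneg (hδ a ha).1.le (sq_nonneg _)), layer (g₁ _),
        lintegral_const_mul]
      exact measurable_const.indicator measurableSet_Iio
    · intro a _
      exact (measurable_const.indicator measurableSet_Iio).const_mul _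
  rw [hL]
  have hlev : ∀ r : ℝ, ∑ a ∈ s, ENNReal.ofReal (δ a * cf (e a) (δ a) x ^ 2) *
        (Iio (g₁ (β a))).indicator (fun _ => (1 : ℝ≥0∞)) r ≤ 4 * ∫⁻ t, Fn r t ∂lam := by
    intro r
    set A : Finset ι := s.filter (fun a => r < g₁ (β a)) with hA
    have e1 : ∑ a ∈ s, ENNReal.ofReal (δ a * cf (e a) (δ a) x ^ 2) *
        (Iio (g₁ (β a))).indicator (fun _ => (1 : ℝ≥0∞)) r =
        ENNReal.ofReal (∑ a ∈ A, δ a * cf (e a) (δ a) x ^ 2) := by
      rw [ENNReal.ofReal_sum_of_nonneg fun a ha =>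
        mul_nonneg (hδ a (Finset.mem_of_mem_filter a ha)).1.le (sq_nonneg _),
        Finset.sum_filter]
      refine Finset.sum_congr rfl fun a _ => ?_
      by_cases h : r < g₁ (β a)
      · rw [Set.indicator_of_mem (show r ∈ Iio (g₁ (β a)) from h), if_pos h, mul_one]
      · rw [Set.indicator_of_notMem (show r ∉ Iio (g₁ (β a)) from h), if_neg h, mul_zero]
    rw [e1]
    rcases A.eq_empty_or_nonempty with hAe | hAn
    · rw [hAe]
      simp
    · obtain ⟨a0, ha0, hmin⟩ := A.exists_min_image β hAn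
      rw [hA, Finset.mem_filter] at ha0
      have hsub : A ⊆ s := Finset.filter_subset _ _
      have h2 := level A e δ hx hxm (fun a ha => hm a (hsub ha)) (fun a ha => hv a (hsub ha))
        (fun a ha => hδ a (hsub ha)) (fun a ha b hb => ho a (hsub ha) b (hsub hb)) (β a0)
        (abs_nonneg _) (fun a ha => hmin a ha)
      refine h2.trans ?_
      gcongr with t
      by_cases h : t ∈ {t | β a0 ≤ 2 * |x t|}
      · rw [Set.indicator_of_mem h, hFn]
        have hmem : (r, t) ∈ R := by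
          rw [hR]
          exact Set.mem_biUnion (x := a0) (Finset.mem_coe.2 ha0.1) ⟨ha0.2, h⟩
        simp only
        rw [Set.indicator_of_mem hmem]
      · rw [Set.indicator_of_notMem h]
        exact zero_le
  calc ∫⁻ r in Ioi (0 : ℝ), ∑ a ∈ s, ENNReal.ofReal (δ a * cf (e a) (δ a) x ^ 2) *
        (Iio (g₁ (β a))).indicator (fun _ => (1 : ℝ≥0∞)) r
      ≤ ∫⁻ r in Ioi (0 : ℝ), 4 * ∫⁻ t, Fn r t ∂lam := lintegral_mono hlev
    _ = 4 * ∫⁻ r in Ioi (0 : ℝ), ∫⁻ t, Fn r t ∂lam := by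
        rw [lintegral_const_mul]
        exact hFm.lintegral_prod_right
    _ = 4 * ∫⁻ t, (∫⁻ r in Ioi (0 : ℝ), Fn r t) ∂lam := by
        rw [lintegral_lintegral_swap hFm.aemeasurable]
    _ ≤ _ := by
        refine mul_le_mul_right (lintegral_mono fun t => ?_) _
        rw [ENNReal.ofReal_mul (sq_nonneg _), layer (g₂ _), ← lintegral_const_mul _
          (measurable_const.indicator measurableSet_Iio)]
        refine lintegral_mono fun r => ?_
        simp only [hFn]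
        by_cases h : (r, t) ∈ R
        · rw [Set.indicator_of_mem h]
          rw [hR, Set.mem_iUnion₂] at h
          obtain ⟨a, ha, h3, h4⟩ := h
          have h5 : r < g₂ |x t| := lt_of_lt_of_le h3 (hg (β a) |x t| (abs_nonneg _) (hB a ha) h4)
          rw [Set.indicator_of_mem (show r ∈ Iio (g₂ |x t|) from h5), mul_one]
        · rw [Set.indicator_of_notMem h]
          exact zero_le

theorem keyL (s : Finset ι) (e : ι → ℝ → ℝ) (δ : ι → ℝ) {x : ℝ → ℝ} (hx : MemLp x 2 lam)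
    (hm : ∀ a ∈ s, Measurable (e a)) (hv : ∀ a ∈ s, ∀ t, e a t = 0 ∨ |e a t| = 1)
    (hδ : ∀ a ∈ s, 0 < δ a ∧ ∫ t, e a t ^ 2 ∂lam = δ a)
    (ho : ∀ a ∈ s, ∀ b ∈ s, a ≠ b → ∫ t, e a t * e b t ∂lam = 0)
    (g₁ g₂ : ℝ → ℝ) (B : ℝ) (h1 : ∀ u, 0 ≤ g₁ u)
    (hg : ∀ u w, 0 ≤ u → u ≤ B → u ≤ 2 * w → g₁ u ≤ g₂ w)
    (hB : ∀ a ∈ s, |cf (e a) (δ a) x| ≤ B) :
    ENNReal.ofReal (∑ a ∈ s, δ a * cf (e a) (δ a) x ^ 2 * g₁ |cf (e a) (δ a) x|) ≤
      4 * ∫⁻ t, ENNReal.ofReal (x t ^ 2 * g₂ |x t|) ∂lam := by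
  set x' : ℝ → ℝ := hx.1.mk x with hx'
  have hae : x =ᵐ[lam] x' := hx.1.ae_eq_mk
  have hx'm : Measurable x' := hx.1.stronglyMeasurable_mk.measurable
  have hx'L : MemLp x' 2 lam := (memLp_congr_ae hae).1 hx
  have hcf : ∀ a, cf (e a) (δ a) x = cf (e a) (δ a) x' := by
    intro a
    unfold cf
    congr 1
    refine integral_congr_ae ?_
    filter_upwards [hae] with t ht
    rw [ht]
  have hlin : ∫⁻ t, ENNReal.ofReal (x t ^ 2 * g₂ |x t|) ∂lam =
      ∫⁻ t, ENNReal.ofReal (x' t ^ 2 * g₂ |x' t|) ∂lam := by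
    refine lintegral_congr_ae ?_
    filter_upwards [hae] with t ht
    rw [ht]
  rw [hlin]
  simp only [hcf] at hB ⊢
  exact keyL_meas s e δ hx'L hx'm hm hv hδ ho g₁ g₂ B h1 hg hB

end

end Pool.Agent.OB9
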