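import Pool.Agent.OB9.OpEx
import Pool.Agent.OB9.KeyL
import Pool.Agent.OB9.AvB

/-!
# Module OB9/B1A

Type I operators: general facts. Here `l + a ≤ b`, `TI l a b T`, `β t = T x t`; for `i < 2^b`,
`β_i = cf (es l a b (b+1) i) (1/2^a) x`.

PROOF. `TI_av`: `es l a b (b+1) i` is a function of `idx (b+1) t` (`es_idx`), so
`∫ x es = ∫ (av (b+1) x) es` (`av_int`). `TI_sq`: `∫ (T x)² = 2^{-b} ∑_i β_i²` (`integral_idx`), and
`∑_i 2^{-a} β_i² ≤ ∫ (av (b+1) x)²` (`bessel` for `av (b+1) x`, `es_sq`, `es_orth_same`).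
`TI_height`: `|β_i| ≤ 2^a ∫_{cell a m} |x|`, the average of `|x|` over an interval of level `a`; Jensen:
`Φ |β_i| ≤ 2^a ∫ Φ|x| ≤ 2^a`. `TI_md`: `lintegral_idx`. `TI_key`: apply `keyL` to `av (b+1) x`.
-/

set_option autoImplicit false

namespace Pool.Agent.OB9

open MeasureTheory Set Filter
open scoped ENNReal Topology

noncomputable section

variable {Φ : ℝ → ℝ}

private theorem B1A_int (x : L2) : Integrable (x : ℝ → ℝ) lam :=
  (Lp.memLp x).integrable (by norm_num)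

private theorem B1A_memLp (n : ℕ) (x : ℝ → ℝ) : MemLp (av n x) 2 lam := by
  obtain ⟨a, ha⟩ := av_eq_idx n x
  refine MemLp.of_bound (measurable_av n x).aestronglyMeasurable
    (∑ k ∈ Finset.range (2 ^ n), |a k|) ?_
  filter_upwards [ae_mem_Ico] with t ht
  rw [Real.norm_eq_abs, ha t]
  exact Finset.single_le_sum (f := fun k => |a k|) (fun k _ => abs_nonneg _)
    (Finset.mem_range.2 (idx_lt ht.1 ht.2))

theorem TI_av {l a b : ℕ} (h : l + a ≤ b) {x : ℝ → ℝ} (hx : Integrable x lam) (i : ℕ) :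
    cf (es l a b (b + 1) i) (1 / 2 ^ a) (av (b + 1) x) =
      cf (es l a b (b + 1) i) (1 / 2 ^ a) x := by
  obtain ⟨c, hc⟩ := es_idx (p := b + 1) (i := i) h (Nat.le_succ b)
  unfold cf
  congr 1
  have e1 : ∫ t, av (b + 1) x t * es l a b (b + 1) i t ∂lam =
      ∫ t, av (b + 1) x t * c (idx (b + 1) t) ∂lam := by
    refine integral_congr_ae ?_
    filter_upwards [ae_mem_Ico] with t ht
    rw [hc t ht.1]
  have e2 : ∫ t, x t * es l a b (b + 1) i t ∂lam = ∫ t, x t * c (idx (b + 1) t) ∂lam := by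
    refine integral_congr_ae ?_
    filter_upwards [ae_mem_Ico] with t ht
    rw [hc t ht.1]
  rw [e1, e2, av_int (b + 1) hx c]

theorem TI_sq {l a b : ℕ} (h : l + a ≤ b) {T : L2 →L[ℝ] L2} (hT : TI l a b T) (x : L2) :
    ∫ t, T x t ^ 2 ∂lam ≤ 2 ^ a / 2 ^ b * ∫ t, av (b + 1) x t ^ 2 ∂lam := by
  have hpa : (0 : ℝ) < 2 ^ a := by positivity
  have hpb : (0 : ℝ) < 2 ^ b := by positivity
  have e1 : ∫ t, T x t ^ 2 ∂lam =
      (∑ k ∈ Finset.range (2 ^ b), cf (es l a b (b + 1) k) (1 / 2 ^ a) x ^ 2) / 2 ^ b := by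
    rw [← integral_idx b (fun k => cf (es l a b (b + 1) k) (1 / 2 ^ a) x ^ 2)]
    refine integral_congr_ae ?_
    filter_upwards [hT x] with t ht
    rw [ht]
  have e2 := bessel (Finset.range (2 ^ b)) (fun i => es l a b (b + 1) i) (fun _ => 1 / 2 ^ a)
    (B1A_memLp (b + 1) x) (fun i _ => measurable_es l a b (b + 1) i)
    (fun i _ t => es_vals l a b (b + 1) i t) (fun i _ => ⟨by positivity, es_sq l a b (b + 1) i⟩)
    (fun i hi j hj hij => es_orth_same h (Finset.mem_range.1 hi) (Finset.mem_range.1 hj) hij)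
  rw [← Finset.mul_sum] at e2
  have e3 : ∑ i ∈ Finset.range (2 ^ b), cf (es l a b (b + 1) i) (1 / 2 ^ a) (av (b + 1) x) ^ 2 =
      ∑ i ∈ Finset.range (2 ^ b), cf (es l a b (b + 1) i) (1 / 2 ^ a) x ^ 2 :=
    Finset.sum_congr rfl fun i _ => by rw [TI_av h (B1A_int x) i]
  rw [e3] at e2
  rw [e1]
  have e4 : ∑ i ∈ Finset.range (2 ^ b), cf (es l a b (b + 1) i) (1 / 2 ^ a) x ^ 2 ≤
      2 ^ a * ∫ t, av (b + 1) x t ^ 2 ∂lam := by
    have e5 := mul_le_mul_of_nonneg_left e2 hpa.le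
    rw [← mul_assoc, mul_one_div_cancel hpa.ne', one_mul] at e5
    exact e5
  calc (∑ k ∈ Finset.range (2 ^ b), cf (es l a b (b + 1) k) (1 / 2 ^ a) x ^ 2) / 2 ^ b
      ≤ (2 ^ a * ∫ t, av (b + 1) x t ^ 2 ∂lam) / 2 ^ b := by gcongr
    _ = _ := by ring

/-- the coefficients are bounded by averages of `|x|` -/
private theorem B1A_coef (l a b p i : ℕ) (x : L2) : ∃ t ∈ Ico (0 : ℝ) 1,
    |cf (es l a b p i) (1 / 2 ^ a) x| ≤ av a (fun s => |x s|) t := by
  have hpa : (0 : ℝ) < 2 ^ a := by positivity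
  have hm := adr_lt l a b i
  set m := adr l a b i with hmdef
  have hx := B1A_int x
  refine ⟨(m : ℝ) / 2 ^ a, ⟨by positivity, ?_⟩, ?_⟩
  · rw [div_lt_one hpa]
    exact_mod_cast hm
  · have hidx : idx a ((m : ℝ) / 2 ^ a) = m := by
      rw [← mem_cell (by positivity)]
      refine ⟨le_rfl, ?_⟩
      gcongr
      linarith
    unfold av cf
    rw [hidx, abs_div, abs_of_pos (by positivity : (0 : ℝ) < 1 / 2 ^ a), div_div_eq_mul_div,
      div_one, mul_comm]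
    gcongr
    rw [← integral_indicator (measurableSet_cell a m)]
    refine (abs_integral_le_integral_abs).trans ?_
    refine integral_mono_of_nonneg (Eventually.of_forall fun t => abs_nonneg _)
      (hx.abs.indicator (measurableSet_cell a m)) ?_
    filter_upwards [ae_mem_Ico] with t ht
    by_cases hc : t ∈ cell a m
    · rw [indicator_of_mem hc, abs_mul]
      rcases es_vals l a b p i t with h | h
      · rw [h, abs_zero, mul_zero]
        exact abs_nonneg _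
      · rw [h, mul_one]
    · rw [indicator_of_notMem hc]
      have h0 : es l a b p i t = 0 := by
        by_contra hne
        exact hc ((mem_cell ht.1).2 ((es_ne_zero l a b p i t).1 hne))
      rw [h0, mul_zero, abs_zero]

theorem TI_height (hΦ : Orl Φ) {l a b : ℕ} (h : l + a ≤ b) {T : L2 →L[ℝ] L2} (hT : TI l a b T)
    {x : L2} (hx : md Φ x ≤ 1) : ∀ᵐ t ∂lam, Φ |T x t| ≤ 2 ^ a := by
  filter_upwards [hT x] with t ht
  rw [ht]
  obtain ⟨t₀, ht₀, hc⟩ := B1A_coef l a b (b + 1) (idx b t) x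
  have h1 : md Φ (fun s => |x s|) ≤ 1 := by
    unfold md at hx ⊢
    simp only [abs_abs]
    exact hx
  have h2 := av_height hΦ a (B1A_int x).abs h1 ht₀
  refine (hΦ.mono (mem_Ici.2 (abs_nonneg _)) (mem_Ici.2 (abs_nonneg _)) ?_).trans h2
  exact hc.trans (le_abs_self _)

theorem TI_abs {l a b : ℕ} (h : l + a ≤ b) {T : L2 →L[ℝ] L2} (hT : TI l a b T)
    (x : L2) : ∀ᵐ t ∂lam, |T x t| ≤ 2 ^ a * ∫ s, |x s| ∂lam := by
  filter_upwards [hT x] with t ht
  rw [ht]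
  obtain ⟨t₀, ht₀, hc⟩ := B1A_coef l a b (b + 1) (idx b t) x
  refine hc.trans ?_
  unfold av
  exact mul_le_mul_of_nonneg_left (setIntegral_le_integral (B1A_int x).abs
    (Eventually.of_forall fun s => abs_nonneg _)) (by positivity)

theorem TI_bound {l a b : ℕ} (h : l + a ≤ b) {T : L2 →L[ℝ] L2} (hT : TI l a b T)
    {x : L2} {R : ℝ} (hx : ∀ᵐ t ∂lam, |x t| ≤ R) : ∀ᵐ t ∂lam, |T x t| ≤ R := by
  filter_upwards [hT x] with t ht
  rw [ht]
  obtain ⟨t₀, ht₀, hc⟩ := B1A_coef l a b (b + 1) (idx b t) x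
  refine hc.trans ((le_abs_self _).trans ?_)
  refine av_bound a ?_ ht₀
  filter_upwards [hx] with s hs
  rw [abs_abs]
  exact hs

private theorem B1A_ae {n i : ℕ} (hi : i < 2 ^ n) {P : ℝ → Prop} (h : ∀ᵐ t ∂lam, P t) :
    ∃ t, P t ∧ idx n t = i := by
  by_contra hcon
  push Not at hcon
  have h1 : lam (cell n i) = 0 := by
    refine measure_mono_null ?_ (h.and ae_mem_Ico)
    intro t ht
    have ht0 : t ∈ Ico (0 : ℝ) 1 := cell_subset hi ht
    show ¬ (P t ∧ t ∈ Ico (0 : ℝ) 1)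
    rintro ⟨h2, -⟩
    exact hcon t h2 ((mem_cell ht0.1).1 ht)
  rw [lam_cell hi, ENNReal.ofReal_eq_zero] at h1
  have h2 : (0 : ℝ) < 1 / 2 ^ n := by positivity
  linarith

theorem TI_key {l a b : ℕ} (h : l + a ≤ b) {T : L2 →L[ℝ] L2} (hT : TI l a b T) (x : L2)
    {g₁ g₂ : ℝ → ℝ} {B : ℝ} (h1 : ∀ u, 0 ≤ g₁ u) (hB : ∀ᵐ t ∂lam, |T x t| ≤ B)
    (hg : ∀ u w, 0 ≤ u → u ≤ B → u ≤ 2 * w → g₁ u ≤ g₂ w) :
    ∫⁻ t, ENNReal.ofReal (T x t ^ 2 * g₁ |T x t|) ∂lam ≤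
      ENNReal.ofReal (4 * (2 ^ a / 2 ^ b)) *
        ∫⁻ t, ENNReal.ofReal (av (b + 1) x t ^ 2 * g₂ |av (b + 1) x t|) ∂lam := by
  have hpa : (0 : ℝ) < 2 ^ a := by positivity
  have hpb : (0 : ℝ) < 2 ^ b := by positivity
  obtain ⟨β, hβ⟩ : ∃ β : ℕ → ℝ, β = fun k => cf (es l a b (b + 1) k) (1 / 2 ^ a) x := ⟨_, rfl⟩
  have hβav : ∀ k, cf (es l a b (b + 1) k) (1 / 2 ^ a) (av (b + 1) x) = β k := fun k => by
    rw [TI_av h (B1A_int x) k, hβ]
  have hTβ : ∀ᵐ t ∂lam, T x t = β (idx b t) := by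
    filter_upwards [hT x] with t ht
    rw [ht, hβ]
  have hβB : ∀ k, k < 2 ^ b → |β k| ≤ B := by
    intro k hk
    obtain ⟨t, ⟨ht1, ht2⟩, ht3⟩ := B1A_ae hk (hTβ.and hB)
    rw [ht1, ht3] at ht2
    exact ht2
  have e1 : ∫⁻ t, ENNReal.ofReal (T x t ^ 2 * g₁ |T x t|) ∂lam =
      (∑ k ∈ Finset.range (2 ^ b), ENNReal.ofReal (β k ^ 2 * g₁ |β k|)) *
        ENNReal.ofReal (1 / 2 ^ b) := by
    rw [← lintegral_idx b (fun k => ENNReal.ofReal (β k ^ 2 * g₁ |β k|))]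
    refine lintegral_congr_ae ?_
    filter_upwards [hTβ] with t ht
    rw [ht]
  have e2 := keyL (Finset.range (2 ^ b)) (fun i => es l a b (b + 1) i) (fun _ => 1 / 2 ^ a)
    (B1A_memLp (b + 1) x) (fun i _ => measurable_es l a b (b + 1) i)
    (fun i _ t => es_vals l a b (b + 1) i t) (fun i _ => ⟨by positivity, es_sq l a b (b + 1) i⟩)
    (fun i hi j hj hij => es_orth_same h (Finset.mem_range.1 hi) (Finset.mem_range.1 hj) hij)
    g₁ g₂ B h1 hg (fun i hi => by rw [hβav]; exact hβB i (Finset.mem_range.1 hi))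
  simp only [hβav] at e2
  have e3 : ∑ k ∈ Finset.range (2 ^ b), ENNReal.ofReal (β k ^ 2 * g₁ |β k|) =
      ENNReal.ofReal (2 ^ a) *
        ENNReal.ofReal (∑ k ∈ Finset.range (2 ^ b), 1 / 2 ^ a * β k ^ 2 * g₁ |β k|) := by
    rw [← ENNReal.ofReal_mul hpa.le, Finset.mul_sum,
      ENNReal.ofReal_sum_of_nonneg (fun k _ => by
        have := h1 |β k|
        positivity)]
    refine Finset.sum_congr rfl fun k _ => ?_
    congr 1
    field_simp
  rw [e1, e3]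
  have e4 : ENNReal.ofReal (4 * (2 ^ a / 2 ^ b)) =
      ENNReal.ofReal (2 ^ a) * 4 * ENNReal.ofReal (1 / 2 ^ b) := by
    have e5 : (4 : ℝ≥0∞) = ENNReal.ofReal 4 := by norm_num
    rw [e5, ← ENNReal.ofReal_mul hpa.le, ← ENNReal.ofReal_mul (by positivity)]
    congr 1
    ring
  rw [e4]
  calc ENNReal.ofReal (2 ^ a) *
        ENNReal.ofReal (∑ k ∈ Finset.range (2 ^ b), 1 / 2 ^ a * β k ^ 2 * g₁ |β k|) *
        ENNReal.ofReal (1 / 2 ^ b)
      ≤ ENNReal.ofReal (2 ^ a) *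
        (4 * ∫⁻ t, ENNReal.ofReal (av (b + 1) x t ^ 2 * g₂ |av (b + 1) x t|) ∂lam) *
        ENNReal.ofReal (1 / 2 ^ b) := by gcongr
    _ = _ := by ring

end

end Pool.Agent.OB9
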