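import Pool.Agent.OB9.DyA
import Pool.Agent.OB9.AdrB

/-!
# Module OB9/Pick

The choice of an index.

PROOF. Let `ρ`, `j` be from `Good`, `F` the set of the first condition. For `m < 2^a` call `m` good
if `cell a m` contains a point of `F`; `F ⊆ ⋃_{m good} cell a m`, so the number of good `m` is
`≥ ρ 2^a`. By `cell_union` (levels `l` and `a`) `∑_m lam (cell (l+a) (j 2^a + m) \ e) =
lam (cell l j \ e) ≤ ρ/16 2^{-l}`, so the number of `m` with
`lam (cell (l+a) (j 2^a+m) \ e) > (1/2) 2^{-l-a}` is at most `ρ 2^a/8 < ρ 2^a`. So there is a good `m`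
with `lam (cell (l+a) (j 2^a+m) \ e) ≤ (1/2) 2^{-(l+a)}`. By `cell_union` again (levels `l+a` and
`b-l-a`) there is `u < 2^(b-l-a)` with `lam (cell b i \ e) ≤ (1/2) 2^{-b}`,
`i = (j 2^a + m) 2^(b-l-a) + u`. `adr l a b i = m` (`adr_mk`), and for `n ≤ a`
`adr l n b i = m / 2^(a-n) = idx n t` for `t ∈ cell a m ∩ F` (`adr_div`, `idx_div`), which gives the
first property.
-/

set_option autoImplicit false

namespace Pool.Agent.OB9

open MeasureTheory Set Filter
open scoped ENNReal Topology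

noncomputable section

theorem pick {η : ℝ} {l a b : ℕ} {e f : Set ℝ} (he : MeasurableSet e) (hf : MeasurableSet f)
    (hG : Good η l e f) (h : l + a ≤ b) :
    ∃ i, i < 2 ^ b ∧
      (∀ n, l ≤ n → n ≤ a → lam (cell n (adr l n b i) \ f) ≤ ENNReal.ofReal (η / 2 ^ n)) ∧
      lam (cell b i \ e) ≤ ENNReal.ofReal (1 / 2 / 2 ^ b) := by
  classical
  obtain ⟨ρ, hρ, hF, j, hj, hje⟩ := hG
  set Fs : Set ℝ := {t | t ∈ Ico (0 : ℝ) 1 ∧
      ∀ n, l ≤ n → lam (cell n (idx n t) \ f) ≤ ENNReal.ofReal (η / 2 ^ n)} with hFs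
  set g : Finset ℕ := (Finset.range (2 ^ a)).filter (fun m => ∃ t ∈ Fs, idx a t = m) with hg
  have hcover : Fs ⊆ ⋃ m ∈ g, cell a m := by
    intro t ht
    have h1 : idx a t < 2 ^ a := idx_lt ht.1.1 ht.1.2
    refine Set.mem_biUnion (x := idx a t) ?_ ((mem_cell ht.1.1).2 rfl)
    rw [hg, Finset.mem_coe, Finset.mem_filter, Finset.mem_range]
    exact ⟨h1, t, ht, rfl⟩
  have hcard : ρ ≤ (g.card : ℝ) / 2 ^ a := by
    have h1 : ENNReal.ofReal ρ ≤ ENNReal.ofReal ((g.card : ℝ) / 2 ^ a) := by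
      calc ENNReal.ofReal ρ ≤ lam Fs := hF
        _ ≤ lam (⋃ m ∈ g, cell a m) := measure_mono hcover
        _ ≤ ∑ m ∈ g, lam (cell a m) := measure_biUnion_finset_le _ _
        _ = ∑ _m ∈ g, ENNReal.ofReal (1 / 2 ^ a) := by
            refine Finset.sum_congr rfl fun m hm => ?_
            rw [hg, Finset.mem_filter, Finset.mem_range] at hm
            exact lam_cell hm.1
        _ = ENNReal.ofReal ((g.card : ℝ) / 2 ^ a) := by
            rw [Finset.sum_const, nsmul_eq_mul, ← ENNReal.ofReal_natCast,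
              ← ENNReal.ofReal_mul (by positivity)]
            congr 1
            ring
    exact (ENNReal.ofReal_le_ofReal_iff (by positivity)).1 h1
  have hgne : g.Nonempty := by
    rw [← Finset.card_pos]
    have h2 : (0 : ℝ) < (g.card : ℝ) := by
      have h3 : (0 : ℝ) < (g.card : ℝ) / 2 ^ a := lt_of_lt_of_le hρ hcard
      have h4 : (0 : ℝ) < 2 ^ a := by positivity
      rwa [div_pos_iff_of_pos_right h4] at h3
    exact_mod_cast h2
  -- the first choice
  have hsum1 := cell_union (n := l) (m := a) (k := j) eᶜ he.compl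
  have hm : ∃ m ∈ g, lam (cell (l + a) (j * 2 ^ a + m) ∩ eᶜ) ≤
      ENNReal.ofReal (1 / 2 / 2 ^ (l + a)) := by
    refine ENNReal.exists_le_of_sum_le hgne ?_
    calc ∑ m ∈ g, lam (cell (l + a) (j * 2 ^ a + m) ∩ eᶜ)
        ≤ ∑ m ∈ Finset.range (2 ^ a), lam (cell (l + a) (j * 2 ^ a + m) ∩ eᶜ) :=
          Finset.sum_le_sum_of_subset (Finset.filter_subset _ _)
      _ = lam (cell l j ∩ eᶜ) := hsum1.symm
      _ ≤ ENNReal.ofReal (ρ / 16 / 2 ^ l) := by rw [← Set.sdiff_eq]; exact hje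
      _ ≤ ENNReal.ofReal ((g.card : ℝ) * (1 / 2 / 2 ^ (l + a))) := by
          apply ENNReal.ofReal_le_ofReal
          have h5 : (0 : ℝ) < 2 ^ l := by positivity
          have h6 : (0 : ℝ) < 2 ^ a := by positivity
          rw [le_div_iff₀ h6] at hcard
          rw [pow_add]
          calc ρ / 16 / 2 ^ l ≤ ρ / 2 / 2 ^ l := by gcongr; norm_num
            _ = (ρ * 2 ^ a) * (1 / 2 / (2 ^ l * 2 ^ a)) := by field_simp
            _ ≤ (g.card : ℝ) * (1 / 2 / (2 ^ l * 2 ^ a)) := by gcongr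
      _ = ∑ _m ∈ g, ENNReal.ofReal (1 / 2 / 2 ^ (l + a)) := by
          rw [Finset.sum_const, nsmul_eq_mul, ← ENNReal.ofReal_natCast,
              ← ENNReal.ofReal_mul (by positivity)]
  obtain ⟨m, hmg, hme⟩ := hm
  rw [hg, Finset.mem_filter, Finset.mem_range] at hmg
  obtain ⟨hm2, t, ht, htm⟩ := hmg
  -- the second choice
  have hsum2 := cell_union (n := l + a) (m := b - l - a) (k := j * 2 ^ a + m) eᶜ he.compl
  have hba : l + a + (b - l - a) = b := by omega
  rw [hba] at hsum2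
  have hu : ∃ u ∈ Finset.range (2 ^ (b - l - a)),
      lam (cell b ((j * 2 ^ a + m) * 2 ^ (b - l - a) + u) ∩ eᶜ) ≤
        ENNReal.ofReal (1 / 2 / 2 ^ b) := by
    refine ENNReal.exists_le_of_sum_le ⟨0, Finset.mem_range.2 (by positivity)⟩ ?_
    rw [← hsum2, Finset.sum_const, Finset.card_range, nsmul_eq_mul, ← ENNReal.ofReal_natCast,
              ← ENNReal.ofReal_mul (by positivity)]
    refine hme.trans (le_of_eq ?_)
    congr 1
    have h7 : (2 : ℝ) ^ b = 2 ^ (l + a) * 2 ^ (b - l - a) := by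
      rw [← pow_add, hba]
    rw [h7]
    push_cast
    field_simp
  obtain ⟨u, hu1, hu2⟩ := hu
  rw [Finset.mem_range] at hu1
  obtain ⟨q1, q2, -⟩ := adr_mk (l := l) (a := a) (b := b) h hj hm2 hu1
  refine ⟨_, q1, fun n hln hna => ?_, ?_⟩
  · have h8 := adr_div (i := (j * 2 ^ a + m) * 2 ^ (b - l - a) + u) h hna
    rw [q2] at h8
    have h9 := idx_div n (a - n) ht.1.1
    rw [show n + (a - n) = a by omega, htm] at h9
    rw [← h8, h9]
    exact ht.2 n hln
  · rw [Set.sdiff_eq]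
    exact hu2

end

end Pool.Agent.OB9
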