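import Pool.Agent.OB9.OpEx
import Pool.Agent.OB9.Pick
import Pool.Agent.OB9.MdB

/-!
# Module OB9/B1T

The test function of a type I operator.

PROOF. `pick` (with `η = 1/4`) gives `i < 2^b` with `lam (cell a m \ f) ≤ (1/4) 2^{-a}`,
`m = adr l a b i` (`l ≤ a`), and `lam (cell b i \ e) ≤ (1/2) 2^{-b}`. Let
`x = h · es l a b (b+1) i · 1_f` (bounded by `h`, supported in `f`); `md Φ x ≤ Φ(h) 2^{-a} ≤ 1`. On
`cell b i`: `T x = cf (es i) (1/2^a) x = 2^a h lam (cell a m ∩ f) ≥ (3/4) h`. Let `E = cell b i ∩ e`,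
`lam E ≥ (1/2) 2^{-b} ≥ 1/(4 Φ(v))` with `2^b ≤ 2 Φ(v)`, `v = 2h`, and `(3/4) h ≥ (1/4) v`.
-/

set_option autoImplicit false

namespace Pool.Agent.OB9

open MeasureTheory Set Filter
open scoped ENNReal Topology

noncomputable section

variable {Φ : ℝ → ℝ}

theorem TI_test (hΦ : Orl Φ) {l a b : ℕ} (h : l + a ≤ b) (hl : l ≤ a) {T : L2 →L[ℝ] L2}
    (hT : TI l a b T) {r : ℝ} (hr : 0 < r) (ha : Φ r ≤ 2 ^ a) (hb : 2 ^ b ≤ 2 * Φ (2 * r))
    {e f : Set ℝ} (he : MeasurableSet e) (hf : MeasurableSet f) (hG : Good (1 / 4) l e f) :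
    Test Φ (1 / 4) T r (2 * r) e f := by
  obtain ⟨i, hi, h1, h2⟩ := pick he hf hG h
  have h1a := h1 a hl le_rfl
  have hm2 : adr l a b i < 2 ^ a := adr_lt l a b i
  generalize hm : adr l a b i = m at h1a hm2
  have h2a : (0 : ℝ) < 2 ^ a := by positivity
  have h2b : (0 : ℝ) < 2 ^ b := by positivity
  have hes : ∀ t, |es l a b (b + 1) i t| ≤ 1 := fun t => by
    rcases es_vals l a b (b + 1) i t with h3 | h3
    · rw [h3, abs_zero]
      exact zero_le_one
    · exact h3.le
  have hesc : ∀ t, 0 ≤ t → t ∉ cell a m → es l a b (b + 1) i t = 0 := fun t ht htc => by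
    by_contra hcon
    rw [mem_cell ht] at htc
    exact htc (((es_ne_zero l a b (b + 1) i t).1 hcon).trans hm)
  have hesc2 : ∀ t, 0 ≤ t → t ∈ cell a m → es l a b (b + 1) i t ^ 2 = 1 := fun t ht htc => by
    rw [mem_cell ht] at htc
    have h3 : es l a b (b + 1) i t ≠ 0 := (es_ne_zero l a b (b + 1) i t).2 (htc.trans hm.symm)
    rcases es_vals l a b (b + 1) i t with h4 | h4
    · exact (h3 h4).elim
    · rw [← sq_abs, h4, one_pow]
  have hesm := measurable_es l a b (b + 1) i
  have hgm : Measurable (f.indicator (fun s => r * es l a b (b + 1) i s)) :=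
    (hesm.const_mul r).indicator hf
  have hgb : ∀ t, |f.indicator (fun s => r * es l a b (b + 1) i s) t| ≤ r := by
    intro t
    by_cases ht : t ∈ f
    · rw [indicator_of_mem ht, abs_mul, abs_of_pos hr]
      exact mul_le_of_le_one_right hr.le (hes t)
    · rw [indicator_of_notMem ht, abs_zero]
      exact hr.le
  have hx := (memLp_of_bdd hgm hgb).coeFn_toLp
  generalize (memLp_of_bdd hgm hgb).toLp
    (f.indicator (fun s => r * es l a b (b + 1) i s)) = x at hx
  have hΦr : 0 ≤ Φ r := hΦ.qorl.nonneg hr.le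
  have hΦ2 : 0 < Φ (2 * r) := by linarith
  refine ⟨x, ?_, ?_, ?_, cell b i ∩ e, (measurableSet_cell b i).inter he, inter_subset_right,
    ?_, ?_⟩
  · filter_upwards [hx] with t ht
    rw [ht]
    exact hgb t
  · filter_upwards [hx] with t ht htf
    rw [ht, indicator_of_notMem htf]
  · rw [md_congr hx]
    unfold md
    calc ∫⁻ t, ENNReal.ofReal (Φ |f.indicator (fun s => r * es l a b (b + 1) i s) t|) ∂lam
        ≤ ∫⁻ t, (cell a m).indicator (fun _ => ENNReal.ofReal (Φ r)) t ∂lam := by
          refine lintegral_mono_ae ?_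
          filter_upwards [ae_mem_Ico] with t ht
          by_cases htc : t ∈ cell a m
          · rw [indicator_of_mem htc]
            exact ENNReal.ofReal_le_ofReal (hΦ.mono (mem_Ici.2 (abs_nonneg _))
              (mem_Ici.2 hr.le) (hgb t))
          · rw [indicator_of_notMem htc]
            have h3 : f.indicator (fun s => r * es l a b (b + 1) i s) t = 0 := by
              by_cases htf : t ∈ f
              · rw [indicator_of_mem htf, hesc t ht.1 htc, mul_zero]
              · rw [indicator_of_notMem htf]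
            rw [h3, abs_zero, hΦ.zero, ENNReal.ofReal_zero]
      _ = ENNReal.ofReal (Φ r) * lam (cell a m) :=
          lintegral_indicator_const (measurableSet_cell a m) _
      _ = ENNReal.ofReal (Φ r * (1 / 2 ^ a)) := by
          rw [lam_cell hm2, ENNReal.ofReal_mul hΦr]
      _ ≤ ENNReal.ofReal 1 := by
          apply ENNReal.ofReal_le_ofReal
          rw [mul_one_div, div_le_one h2a]
          exact ha
      _ = 1 := ENNReal.ofReal_one
  · have h3 : lam (cell b i) ≤ lam (cell b i ∩ e) + lam (cell b i \ e) := by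
      rw [measure_inter_add_sdiff _ he]
    rw [lam_cell hi] at h3
    have h4 : ENNReal.ofReal (1 / 2 ^ b) ≤
        lam (cell b i ∩ e) + ENNReal.ofReal (1 / 2 / 2 ^ b) := h3.trans (by gcongr)
    have h5 : ENNReal.ofReal (1 / 2 ^ b) =
        ENNReal.ofReal (1 / 2 / 2 ^ b) + ENNReal.ofReal (1 / 2 / 2 ^ b) := by
      rw [← ENNReal.ofReal_add (by positivity) (by positivity)]
      congr 1
      ring
    rw [h5] at h4
    have h6 : ENNReal.ofReal (1 / 2 / 2 ^ b) ≤ lam (cell b i ∩ e) :=
      (ENNReal.add_le_add_iff_right ENNReal.ofReal_ne_top).1 h4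
    refine le_trans (ENNReal.ofReal_le_ofReal ?_) h6
    rw [div_div]
    apply one_div_le_one_div_of_le (by positivity)
    linarith
  · filter_upwards [hT x, ae_mem_Ico] with t ht ht0 htE
    have hidx : idx b t = i := (mem_cell ht0.1).1 htE.1
    rw [ht, hidx]
    unfold cf
    have h3 : ∫ s, x s * es l a b (b + 1) i s ∂lam = r * lam.real (cell a m ∩ f) := by
      have h4 : ∫ s, x s * es l a b (b + 1) i s ∂lam =
          ∫ s, (cell a m ∩ f).indicator (fun _ => r) s ∂lam := by
        refine integral_congr_ae ?_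
        filter_upwards [hx, ae_mem_Ico] with s hs hs0
        rw [hs]
        by_cases hsf : s ∈ f
        · rw [indicator_of_mem hsf]
          by_cases hsc : s ∈ cell a m
          · have hsm : s ∈ cell a m ∩ f := ⟨hsc, hsf⟩
            rw [indicator_of_mem hsm, mul_assoc, ← sq, hesc2 s hs0.1 hsc, mul_one]
          · rw [hesc s hs0.1 hsc, indicator_of_notMem (fun hh => hsc hh.1), mul_zero]
        · rw [indicator_of_notMem hsf, indicator_of_notMem (fun hh => hsf hh.2), zero_mul]
      rw [h4, integral_indicator_const _ ((measurableSet_cell a m).inter hf), smul_eq_mul,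
        mul_comm]
    have h5 : 3 / 4 / 2 ^ a ≤ lam.real (cell a m ∩ f) := by
      have h6 : lam.real (cell a m) = lam.real (cell a m ∩ f) + lam.real (cell a m \ f) := by
        rw [measureReal_inter_add_sdiff hf]
      have h7 : lam.real (cell a m) = 1 / 2 ^ a := by
        rw [measureReal_def, lam_cell hm2, ENNReal.toReal_ofReal (by positivity)]
      have h8 : lam.real (cell a m \ f) ≤ 1 / 4 / 2 ^ a := by
        rw [measureReal_def]
        exact ENNReal.toReal_le_of_le_ofReal (by positivity) h1a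
      have h9 : (3 / 4 / 2 ^ a : ℝ) = 1 / 2 ^ a - 1 / 4 / 2 ^ a := by ring
      rw [h9]
      linarith
    rw [h3, div_div_eq_mul_div, div_one]
    have h6 : 3 / 4 * r ≤ r * lam.real (cell a m ∩ f) * 2 ^ a := by
      have h7 := mul_le_mul_of_nonneg_left h5 (mul_nonneg hr.le h2a.le)
      have h8 : r * 2 ^ a * (3 / 4 / 2 ^ a) = 3 / 4 * r := by
        field_simp
      rw [h8] at h7
      linarith
    rw [abs_of_nonneg (by linarith)]
    linarith

end

end Pool.Agent.OB9
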