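import Pool.Agent.OB9.SeqB
import Pool.Agent.OB9.B1A
import Pool.Agent.OB9.B1T

/-!
# Module OB9/B1P

Type I generations with the pair `(h, 2h)`.

PROOF. Fix `Λ ≥ 2` (we may assume `Λ ≥ 2 τ`, see below), `l ≥ Λ`; `N` is large, depending on `Φ`, `τ`,
`Λ`, `l`; `h` from `D1 Φ τ N h`, `K = Φ(2h)/Φ(h) ≥ N`. Let `a`, `b` with
`2^a/2 < Φ h ≤ 2^a`, `2^b/2 < Φ(2h) ≤ 2^b`. Then `2^b ≥ K 2^a/2 ≥ 2^(a+l)` if `N ≥ 2^(l+1)`; `l ≤ a` if
`Φ h ≥ 2^l` (`h ≥ N`). `2^a/2^b ≤ 2/K`. `T` with `TI l a b T`. Let `X = av (b+1) x`, `C₀ = 1024`.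
Facts for `md Φ x ≤ 1`: (i) `Φ|T x| ≤ 2^a < 2 Φ h ≤ Φ(2h)` so `|T x| ≤ 2h` (`TI_height`);
(ii) `Φ|X| ≤ 2^(b+1) < 4 Φ(2h) ≤ Φ(8h)` so `|X| ≤ 8h` (`av_height`).
(iii) For `w ∈ [τ, 8h]`, `u ≤ 2w`, `τ ≤ u ≤ 2h`: `g(u) ≤ 64 K g(w)`, `g(t) = Φ(t)/t²`: if `w ≤ h` and
`u ≤ w` by the last property of `D1` (`N ≥ 1`); if `w ≤ h`, `w < u ≤ 2w` then
`Φ u ≤ Φ(2w) ≤ 2 K Φ w`; if `w > h`: `g(w) ≥ Φ(h)/(8h)² = g(h)/64`, and `g(u) ≤ K g(h)` both for
`u ≤ h` (`N ≥ 1`) and for `h < u ≤ 2h` (`Φ(u) ≤ K Φ(h)`).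
(iv) `g(w) ≥ N g(τ)/(64 K)` for `w ∈ [τ, 8h]`, so
`∫ X² ≤ τ² + ∫_{|X| > τ} Φ|X|/g|X| ≤ τ² + 64 K/(N g(τ))` (`md_av_le`).
norm: `∫ (T x)² ≤ (2/K) ∫ x²` (`TI_sq`, `av_sq`), so `‖T‖ ≤ √(2/N) ≤ Λ^{-2}`. sup: `u = 2h`.
small: `Φ(Λ y) ≤ (y/Λ) Φ(Λ²)` for `0 ≤ y ≤ Λ`, so the modular is `≤ (Φ(Λ²)/Λ) ∫|T x| ≤
(Φ(Λ²)/Λ) (∫ (T x)²)^{1/2}`, and `∫ (T x)² ≤ (2/K)(τ² + 64 K/(N g(τ))) → 0` as `N → ∞`.
mid (assume `Λ ≥ 2τ`): `Φ|T x| = Φ|T x| 1_{|T x| ≤ Λ} + (T x)² g₁|T x|`, `g₁(u) = g(u)` if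
`u > Λ`, else `0`. The first part is `≤ 1/Λ` by `small`. `TI_key` with `B = 2h`,
`g₂(w) = 64 K g(w)` for `τ ≤ w ≤ 8h`, `0` for `w < τ`, and `g₂(w) = Φ(2h) + ...` large for `w > 8h` (not
attained): `∫ (Tx)² g₁ ≤ 4 (2/K) 64 K ∫ Φ|X| ≤ 512 md Φ x`. So
`md Φ (T x/C₀) ≤ md Φ (T x) ≤ 512 md Φ x + 1/Λ`.
low: `|x| ≤ Λ` gives `|T x| ≤ Λ` (`TI_bound`), `Φ|T x| ≤ (|T x|/Λ) Φ(Λ)`, and
`∫ (T x)² ≤ (2/K) Λ²`: small. high: `∫|x| ≤ (Λ'/Φ(Λ')) md Φ x` as `Φ(t)/t ≥ Φ(Λ')/Λ'` for `t ≥ Λ'`; so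
`|T x| ≤ 2^a Λ'/Φ(Λ')` (`TI_abs`), arbitrarily small for `Λ'` large since `Φ` is superlinear, and
`Φ(s) → 0` as `s → 0`. vbig: `v = 2h ≥ 32 Λ`. test: `TI_test` with `r = h` (`H = h`).
If `Λ < 2τ`: a package for `Λ₁ = max Λ (2τ)` satisfies all requirements for `Λ` except `small` and
`low`, `mid`..; simplest: prove `PkgB` for `Λ ≥ max 2 (2τ)` and use a version of `seqB` started later:
note that `PkgB Φ C₀ Λ₁ l T u H v Λ'` implies `PkgB Φ C₀ Λ l T u H v Λ'` for `2 ≤ Λ ≤ Λ₁`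
(monotone: `small` since `{|T x| ≤ Λ} ⊆ {|T x| ≤ Λ₁}` and `Λ ≤ Λ₁`, `1/Λ₁ ≤ 1/Λ`).
-/

set_option autoImplicit false

namespace Pool.Agent.OB9

open MeasureTheory Set Filter
open scoped ENNReal Topology

noncomputable section

variable {Φ : ℝ → ℝ}

theorem PkgB.anti {M : ℝ → ℝ} (hM : QOrl M) {C₀ Λ Λ₁ : ℝ} {l : ℕ} {T : L2 →L[ℝ] L2}
    {u H v Λ' : ℝ} (h2 : 2 ≤ Λ) (hΛ : Λ ≤ Λ₁) (h : PkgB M C₀ Λ₁ l T u H v Λ') :
    PkgB M C₀ Λ l T u H v Λ' := by
  have h1 : 1 / Λ₁ ≤ 1 / Λ := one_div_le_one_div_of_le (by linarith) hΛ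
  have h1' : ENNReal.ofReal (1 / Λ₁) ≤ ENNReal.ofReal (1 / Λ) := ENNReal.ofReal_le_ofReal h1
  refine ⟨hΛ.trans h.lbig, h.u0, h.H0, ?_, h.sup, ?_, ?_, ?_, ?_, by linarith [h.vbig], h.test⟩
  · refine h.norm.trans ?_
    apply one_div_le_one_div_of_le (by positivity)
    exact pow_le_pow_left₀ (by linarith) hΛ 2
  · intro x hx hx1
    refine le_trans (md_mono hM ?_) ((h.small x hx hx1).trans h1')
    refine Eventually.of_forall fun t => ?_
    by_cases h3 : |T x t| ≤ Λ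
    · rw [if_pos h3, if_pos (h3.trans hΛ), abs_mul, abs_mul, abs_of_pos (by linarith : 0 < Λ),
        abs_of_pos (by linarith : 0 < Λ₁)]
      exact mul_le_mul_of_nonneg_right hΛ (abs_nonneg _)
    · rw [if_neg h3, abs_zero]
      exact abs_nonneg _
  · intro x hx hx1
    exact (h.mid x hx hx1).trans (by gcongr)
  · intro x hx
    refine (h.low x ?_).trans h1'
    filter_upwards [hx] with t ht
    exact ht.trans hΛ
  · intro x hx hx1 hx2
    exact (h.high x hx hx1 hx2).trans h1'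

/-- The square function of an element of `L²` is integrable. -/
theorem b1p_int_sq (x : L2) : Integrable (fun t => x t ^ 2) lam :=
  (Lp.memLp x).integrable_sq

theorem b1p_int (x : L2) : Integrable (fun t => x t) lam :=
  (Lp.memLp x).integrable (by norm_num)

theorem b1p_norm_sq (x : L2) : ‖x‖ ^ 2 = ∫ t, x t ^ 2 ∂lam := by
  rw [← real_inner_self_eq_norm_sq, L2.inner_def]
  refine integral_congr_ae (Eventually.of_forall fun t => ?_)
  simp only [RCLike.inner_apply, conj_trivial]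
  ring

/-- A pointwise bound by `(P/Λ) |f|` and a small `L²` norm. -/
theorem b1p_small {f : ℝ → ℝ} (hf : Integrable (fun t => f t ^ 2) lam) {ψ : ℝ → ℝ}
    {P Λ S : ℝ} (hΛ : 0 < Λ) (hψ : ∀ᵐ t ∂lam, ψ t ≤ P / Λ * |f t|)
    (hS : ∫ t, f t ^ 2 ∂lam ≤ S) (hPS : P ^ 2 * S ≤ 1) :
    ∫⁻ t, ENNReal.ofReal (ψ t) ∂lam ≤ ENNReal.ofReal (1 / Λ) := by
  have e1 : ∫⁻ t, ENNReal.ofReal (ψ t) ∂lam ≤
      ∫⁻ t, ENNReal.ofReal (1 / (2 * Λ) + P ^ 2 / (2 * Λ) * f t ^ 2) ∂lam := by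
    refine lintegral_mono_ae ?_
    filter_upwards [hψ] with t ht
    refine ENNReal.ofReal_le_ofReal (ht.trans ?_)
    have h3 : 0 ≤ (1 - P * |f t|) ^ 2 / (2 * Λ) := by positivity
    have h4 : (1 - P * |f t|) ^ 2 / (2 * Λ) =
        1 / (2 * Λ) + P ^ 2 / (2 * Λ) * f t ^ 2 - P / Λ * |f t| := by
      have : |f t| ^ 2 = f t ^ 2 := sq_abs _
      field_simp
      rw [← this]
      ring
    linarith
  refine e1.trans ?_
  rw [← ofReal_integral_eq_lintegral_ofReal]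
  · refine ENNReal.ofReal_le_ofReal ?_
    rw [integral_add (integrable_const _) (hf.const_mul _), integral_const_mul, integral_const]
    simp only [probReal_univ, smul_eq_mul, one_mul]
    have h3 : P ^ 2 / (2 * Λ) * ∫ t, f t ^ 2 ∂lam ≤ P ^ 2 / (2 * Λ) * S :=
      mul_le_mul_of_nonneg_left hS (by positivity)
    have h4 : P ^ 2 / (2 * Λ) * S = P ^ 2 * S / (2 * Λ) := by ring
    have h5 : P ^ 2 * S / (2 * Λ) ≤ 1 / (2 * Λ) := by
      apply div_le_div_of_nonneg_right hPS (by positivity)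
    have h6 : 1 / (2 * Λ) + 1 / (2 * Λ) = 1 / Λ := by field_simp; norm_num
    linarith
  · exact (integrable_const _).add (hf.const_mul _)
  · exact Eventually.of_forall fun t => by positivity

/-- Powers of two around a number. -/
theorem b1p_pow_two {y : ℝ} (hy : 1 ≤ y) : ∃ n : ℕ, 2 ^ n / 2 < y ∧ y ≤ 2 ^ n := by
  classical
  have hex : ∃ n : ℕ, y ≤ 2 ^ n := by
    obtain ⟨n, hn⟩ := pow_unbounded_of_one_lt y (by norm_num : (1 : ℝ) < 2)
    exact ⟨n, hn.le⟩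
  refine ⟨Nat.find hex, ?_, Nat.find_spec hex⟩
  rcases hn : Nat.find hex with _ | n
  · norm_num
    linarith
  · have := Nat.find_min hex (m := n) (by omega)
    push Not at this
    rw [pow_succ]
    linarith

/-- Facts on `g(t) = Φ t / t²` for the pair `(h, 2h)`. -/
theorem b1p_g_facts (hM : QOrl Φ) {τ N h : ℝ} (hτ : 1 ≤ τ) (hτ0 : 0 < Φ τ) (hN : 1 ≤ N)
    (hD : D1 Φ τ N h) :
    (∀ u w, τ ≤ u → u ≤ 2 * h → u ≤ 2 * w → τ ≤ w → w ≤ 8 * h →
      Φ u / u ^ 2 ≤ 64 * (Φ (2 * h) / Φ h) * (Φ w / w ^ 2)) ∧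
    ∀ w, τ ≤ w → w ≤ 8 * h → w ^ 2 ≤ 64 * (Φ (2 * h) / Φ h) / (N * (Φ τ / τ ^ 2)) * Φ w := by
  obtain ⟨d1, d2, d3, d4, d5⟩ := hD
  have τ0 : 0 < τ := by linarith
  have h0 : 0 < h := by linarith
  have Φh : 0 < Φ h := hM.pos_of_ge τ0.le hτ0 d2
  have Φ2h : 0 < Φ (2 * h) := hM.pos_of_ge τ0.le hτ0 (by linarith)
  set K := Φ (2 * h) / Φ h with hK
  have K0 : 0 < K := div_pos Φ2h Φh
  have hKΦ : Φ (2 * h) = K * Φ h := by rw [hK]; field_simp
  have gpos : ∀ w, τ ≤ w → 0 < Φ w / w ^ 2 := fun w hw =>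
    div_pos (hM.pos_of_ge τ0.le hτ0 hw) (pow_pos (by linarith) 2)
  -- the last property, divided by `Φ h`
  have d5' : ∀ s t, τ ≤ s → s ≤ t → t ≤ h → N * (Φ s / s ^ 2) ≤ K * (Φ t / t ^ 2) := by
    intro s t h1 h2 h3
    have := d5 s t h1 h2 h3
    rw [hKΦ] at this
    have h4 : N * (Φ s / s ^ 2) * Φ h ≤ K * (Φ t / t ^ 2) * Φ h := by linarith
    exact le_of_mul_le_mul_right h4 Φh
  have d5'' : ∀ s t, τ ≤ s → s ≤ t → t ≤ h → Φ s / s ^ 2 ≤ K * (Φ t / t ^ 2) := by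
    intro s t h1 h2 h3
    have h4 := d5' s t h1 h2 h3
    have h5 := gpos s h1
    nlinarith
  have gw : ∀ w, h < w → w ≤ 8 * h → Φ h / h ^ 2 ≤ 64 * (Φ w / w ^ 2) := by
    intro w h1 h2
    have w0 : 0 < w := by linarith
    have h3 : Φ h ≤ Φ w := hM.mono (by simpa using h0.le) (by simpa using w0.le) h1.le
    have h4 : w ^ 2 ≤ 64 * h ^ 2 := by nlinarith
    rw [div_le_iff₀ (by positivity)]
    have h5 : 64 * (Φ w / w ^ 2) * h ^ 2 = Φ w * (64 * h ^ 2 / w ^ 2) := by ring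
    rw [h5]
    have h6 : 1 ≤ 64 * h ^ 2 / w ^ 2 := by rw [le_div_iff₀ (by positivity)]; linarith
    nlinarith
  constructor
  · intro u w h1 h2 h3 h4 h5
    have u0 : 0 < u := by linarith
    have w0 : 0 < w := by linarith
    rcases le_or_gt w h with h6 | h6
    · rcases le_or_gt u w with h7 | h7
      · have h8 := d5'' u w h1 h7 h6
        have h9 : 0 < K * (Φ w / w ^ 2) := mul_pos K0 (gpos w h4)
        linarith
      · have h8 : Φ u ≤ Φ (2 * w) := hM.mono (by simpa using u0.le) (by simp; linarith) h3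
        have h9 := d4 w h4 h6
        rw [hKΦ] at h9
        have h10 : Φ (2 * w) ≤ 2 * K * Φ w := by
          have : Φ (2 * w) * Φ h ≤ 2 * K * Φ w * Φ h := by linarith
          exact le_of_mul_le_mul_right this Φh
        have h11 : Φ u / u ^ 2 ≤ 2 * K * Φ w / w ^ 2 := by
          have h12 : w ^ 2 ≤ u ^ 2 := pow_le_pow_left₀ w0.le h7.le 2
          have h13 : 0 ≤ 2 * K * Φ w :=
            mul_nonneg (by positivity) (hM.nonneg w0.le)
          calc Φ u / u ^ 2 ≤ (2 * K * Φ w) / u ^ 2 := by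
                apply div_le_div_of_nonneg_right (h8.trans h10) (by positivity)
            _ ≤ 2 * K * Φ w / w ^ 2 := by
                apply div_le_div_of_nonneg_left h13 (by positivity) h12
        have h9' : 0 < K * (Φ w / w ^ 2) := mul_pos K0 (gpos w h4)
        have h14 : 2 * K * Φ w / w ^ 2 = 2 * (K * (Φ w / w ^ 2)) := by ring
        rw [h14] at h11
        linarith
    · have h7 := gw w h6 h5
      have h8 : Φ u / u ^ 2 ≤ K * (Φ h / h ^ 2) := by
        rcases le_or_gt u h with h9 | h9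
        · exact d5'' u h h1 h9 le_rfl
        · have h10 : Φ u ≤ Φ (2 * h) := hM.mono (by simpa using u0.le) (by simp; linarith) h2
          have h12 : h ^ 2 ≤ u ^ 2 := pow_le_pow_left₀ h0.le h9.le 2
          calc Φ u / u ^ 2 ≤ Φ (2 * h) / u ^ 2 := by
                apply div_le_div_of_nonneg_right h10 (by positivity)
            _ ≤ Φ (2 * h) / h ^ 2 := by
                apply div_le_div_of_nonneg_left Φ2h.le (by positivity) h12
            _ = K * (Φ h / h ^ 2) := by rw [hKΦ]; ring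
      calc Φ u / u ^ 2 ≤ K * (Φ h / h ^ 2) := h8
        _ ≤ K * (64 * (Φ w / w ^ 2)) := mul_le_mul_of_nonneg_left h7 K0.le
        _ = 64 * K * (Φ w / w ^ 2) := by ring
  · intro w h4 h5
    have w0 : 0 < w := by linarith
    have h6 : N * (Φ τ / τ ^ 2) ≤ 64 * K * (Φ w / w ^ 2) := by
      rcases le_or_gt w h with h6 | h6
      · have h8 := d5' τ w le_rfl h4 h6
        have h9 : 0 < K * (Φ w / w ^ 2) := mul_pos K0 (gpos w h4)
        linarith
      · have h7 := gw w h6 h5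
        have h8 := d5' τ h le_rfl d2 le_rfl
        calc N * (Φ τ / τ ^ 2) ≤ K * (Φ h / h ^ 2) := h8
          _ ≤ K * (64 * (Φ w / w ^ 2)) := mul_le_mul_of_nonneg_left h7 K0.le
          _ = 64 * K * (Φ w / w ^ 2) := by ring
    have h7 : 0 < N * (Φ τ / τ ^ 2) := mul_pos (by linarith) (gpos τ le_rfl)
    have h8 : 64 * K / (N * (Φ τ / τ ^ 2)) * Φ w =
        64 * K * (Φ w / w ^ 2) / (N * (Φ τ / τ ^ 2)) * w ^ 2 := by
      field_simp
    rw [h8]
    have h9 : 1 ≤ 64 * K * (Φ w / w ^ 2) / (N * (Φ τ / τ ^ 2)) := by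
      rw [le_div_iff₀ h7]; linarith
    nlinarith [sq_nonneg w]

/-- A package for `Λ ≥ 2 τ`. -/
theorem b1p_pkg (hΦ : Orl Φ) (hs : SuperLin Φ) {τ : ℝ} (hτ : 1 ≤ τ) (hτ0 : 0 < Φ τ)
    (hD : ∀ N : ℝ, ∃ h, D1 Φ τ N h) {Λ : ℝ} (hΛ : 2 ≤ Λ) (hΛτ : 2 * τ ≤ Λ) :
    ∃ (l : ℕ) (T : L2 →L[ℝ] L2) (u H v Λ' : ℝ), PkgB Φ 1024 Λ l T u H v Λ' := by
  have hM : QOrl Φ := hΦ.qorl
  have τ0 : 0 < τ := by linarith
  have Λ0 : 0 < Λ := by linarith
  set l := ⌈Λ⌉₊ with hl
  have hlΛ : Λ ≤ l := Nat.le_ceil Λ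
  obtain ⟨N₀, hN₀⟩ := (tendsto_atTop.1 hs 1).exists_forall_of_atTop
  set gτ := Φ τ / τ ^ 2 with hgτ
  have gτ0 : 0 < gτ := by positivity
  set A : ℝ := (2 * τ ^ 2 + 128 / gτ) * Φ (Λ ^ 2) ^ 2 with hA
  have hA0 : 0 ≤ A := by positivity
  obtain ⟨N, n1, n2, n3, n4, n5, n6, n7⟩ : ∃ N : ℝ, 1 ≤ N ∧ N₀ ≤ N ∧ 2 ^ (l + 1) ≤ N ∧
      2 * Λ ^ 4 ≤ N ∧ 16 * Λ ≤ N ∧ 2 * Λ ^ 2 * Φ Λ ^ 2 ≤ N ∧ A ≤ N := by
    refine ⟨1 + |N₀| + 2 ^ (l + 1) + 2 * Λ ^ 4 + 16 * Λ + 2 * Λ ^ 2 * Φ Λ ^ 2 + A, ?_⟩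
    have a1 : (0 : ℝ) ≤ 2 ^ (l + 1) := by positivity
    have a2 : 0 ≤ 2 * Λ ^ 4 := by positivity
    have a3 : 0 ≤ 2 * Λ ^ 2 * Φ Λ ^ 2 := by positivity
    have a4 := le_abs_self N₀
    have a5 := abs_nonneg N₀
    refine ⟨by linarith, by linarith, by linarith, by linarith, by linarith, by linarith,
      by linarith⟩
  obtain ⟨h, hDh⟩ := hD N
  have gf := b1p_g_facts hM hτ hτ0 n1 hDh
  obtain ⟨d1, d2, d3, d4, d5⟩ := hDh
  have h0 : 0 < h := by linarith
  have Φh : 0 < Φ h := hM.pos_of_ge τ0.le hτ0 d2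
  have Φ2h : 0 < Φ (2 * h) := hM.pos_of_ge τ0.le hτ0 (by linarith)
  have Φhh : h ≤ Φ h := by
    have := hN₀ h (by linarith)
    rw [le_div_iff₀ h0] at this
    linarith
  have Φ2hh : 2 * Φ h ≤ Φ (2 * h) := hM.super (by norm_num) h0.le
  set K := Φ (2 * h) / Φ h with hK
  have K0 : 0 < K := div_pos Φ2h Φh
  have hKΦ : Φ (2 * h) = K * Φ h := by rw [hK]; field_simp
  have hKN : N ≤ K := by rw [hK, le_div_iff₀ Φh]; exact d3
  obtain ⟨a, ha1, ha2⟩ := b1p_pow_two (y := Φ h) (by linarith)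
  obtain ⟨b, hb1, hb2⟩ := b1p_pow_two (y := Φ (2 * h)) (by linarith)
  have hpa : (0 : ℝ) < 2 ^ a := by positivity
  have hpb : (0 : ℝ) < 2 ^ b := by positivity
  have hla : l ≤ a := by
    have h1 : (2 : ℝ) ^ l ≤ 2 ^ a := by
      have : (2 : ℝ) ^ l ≤ 2 ^ (l + 1) := pow_le_pow_right₀ (by norm_num) (by omega)
      linarith
    exact (pow_le_pow_iff_right₀ (by norm_num : (1 : ℝ) < 2)).1 h1
  have hlab : l + a ≤ b := by
    have h1 : (2 : ℝ) ^ (l + a) ≤ 2 ^ b := by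
      have h2 : (2 : ℝ) ^ (l + a) = 2 ^ (l + 1) * (2 ^ a / 2) := by
        rw [pow_add, pow_succ]; ring
      rw [h2]
      calc (2 : ℝ) ^ (l + 1) * (2 ^ a / 2) ≤ N * Φ h :=
            mul_le_mul n3 ha1.le (by positivity) (by linarith)
        _ ≤ Φ (2 * h) := d3
        _ ≤ 2 ^ b := hb2
    exact (pow_le_pow_iff_right₀ (by norm_num : (1 : ℝ) < 2)).1 h1
  have hab : (2 : ℝ) ^ a / 2 ^ b ≤ 2 / K := by
    rw [div_le_div_iff₀ hpb K0]
    calc (2 : ℝ) ^ a * K ≤ (2 * Φ h) * K := mul_le_mul_of_nonneg_right (by linarith) K0.le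
      _ = 2 * Φ (2 * h) := by rw [hKΦ]; ring
      _ ≤ 2 * 2 ^ b := by linarith
  obtain ⟨T, hT⟩ := exists_TI l a b
  -- square bound
  have hsq : ∀ x : L2, ∫ t, T x t ^ 2 ∂lam ≤ 2 / K * ∫ t, av (b + 1) x t ^ 2 ∂lam := by
    intro x
    refine (TI_sq hlab hT x).trans ?_
    exact mul_le_mul_of_nonneg_right hab (integral_nonneg fun t => sq_nonneg _)
  have hsq2 : ∀ x : L2, ∫ t, T x t ^ 2 ∂lam ≤ 2 / K * ∫ t, x t ^ 2 ∂lam := by
    intro x
    refine (hsq x).trans ?_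
    exact mul_le_mul_of_nonneg_left (av_sq _ (Lp.memLp x)) (by positivity)
  -- heights
  have hsup : ∀ x : L2, md Φ x ≤ 1 → ∀ᵐ t ∂lam, |T x t| ≤ 2 * h := by
    intro x hx
    filter_upwards [TI_height hΦ hlab hT hx] with t ht
    by_contra hc
    push Not at hc
    have : Φ (2 * h) ≤ Φ |T x t| := hM.mono (by simp; linarith) (by simp) hc.le
    linarith
  have hX : ∀ x : L2, md Φ x ≤ 1 → ∀ᵐ t ∂lam, |av (b + 1) x t| ≤ 8 * h := by
    intro x hx
    filter_upwards [ae_mem_Ico] with t ht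
    have h1 := av_height hΦ (b + 1) (b1p_int x) hx ht
    by_contra hc
    push Not at hc
    have h2 : Φ (8 * h) ≤ Φ |av (b + 1) x t| := hM.mono (by simp; linarith) (by simp) hc.le
    have h3 : 4 * Φ (2 * h) ≤ Φ (4 * (2 * h)) := hM.super (by norm_num) (by linarith)
    have h4 : (4 : ℝ) * (2 * h) = 8 * h := by ring
    rw [h4] at h3
    have h5 : (2 : ℝ) ^ (b + 1) = 4 * (2 ^ b / 2) := by rw [pow_succ]; ring
    linarith
  -- the L² norm of the averages
  have hX2 : ∀ x : L2, md Φ x ≤ 1 →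
      ∫ t, av (b + 1) x t ^ 2 ∂lam ≤ τ ^ 2 + 64 * K / (N * gτ) := by
    intro x hx
    set c := 64 * K / (N * gτ) with hc
    have c0 : 0 ≤ c := by positivity
    have e1 : ∫⁻ t, ENNReal.ofReal (av (b + 1) x t ^ 2) ∂lam ≤ ENNReal.ofReal (τ ^ 2 + c) := by
      calc ∫⁻ t, ENNReal.ofReal (av (b + 1) x t ^ 2) ∂lam
          ≤ ∫⁻ t, (ENNReal.ofReal (τ ^ 2) +
              ENNReal.ofReal c * ENNReal.ofReal (Φ |av (b + 1) x t|)) ∂lam := by
            refine lintegral_mono_ae ?_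
            filter_upwards [hX x hx] with t ht
            rw [← ENNReal.ofReal_mul c0, ← ENNReal.ofReal_add (by positivity)
              (mul_nonneg c0 (hM.nonneg (abs_nonneg _)))]
            refine ENNReal.ofReal_le_ofReal ?_
            rcases le_or_gt τ |av (b + 1) x t| with h1 | h1
            · have := gf.2 _ h1 ht
              rw [sq_abs] at this
              have h2 : 0 ≤ τ ^ 2 := by positivity
              linarith
            · have h2 : av (b + 1) x t ^ 2 ≤ τ ^ 2 := by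
                rw [← sq_abs]
                exact pow_le_pow_left₀ (abs_nonneg _) h1.le 2
              have h3 : 0 ≤ c * Φ |av (b + 1) x t| :=
                mul_nonneg c0 (hM.nonneg (abs_nonneg _))
              linarith
        _ = ENNReal.ofReal (τ ^ 2) + ENNReal.ofReal c * md Φ (av (b + 1) x) := by
            rw [lintegral_add_left measurable_const, lintegral_const_mul' _ _
              ENNReal.ofReal_ne_top]
            simp [md]
        _ ≤ ENNReal.ofReal (τ ^ 2) + ENNReal.ofReal c * 1 := by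
            gcongr
            exact (md_av_le hΦ _ (b1p_int x)).trans hx
        _ = ENNReal.ofReal (τ ^ 2 + c) := by
            rw [mul_one, ENNReal.ofReal_add (by positivity) c0]
    rw [integral_eq_lintegral_of_nonneg_ae (Eventually.of_forall fun t => sq_nonneg _)
      ((measurable_av _ _).pow_const 2).aestronglyMeasurable]
    exact ENNReal.toReal_le_of_le_ofReal (by positivity) e1
  have hTsq : ∀ x : L2, md Φ x ≤ 1 → ∫ t, T x t ^ 2 ∂lam ≤ (2 * τ ^ 2 + 128 / gτ) / N := by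
    intro x hx
    have N0 : 0 < N := by linarith
    calc ∫ t, T x t ^ 2 ∂lam ≤ 2 / K * (τ ^ 2 + 64 * K / (N * gτ)) :=
          (hsq x).trans (mul_le_mul_of_nonneg_left (hX2 x hx) (by positivity))
      _ = 2 * τ ^ 2 / K + 128 / gτ / N := by field_simp; ring
      _ ≤ 2 * τ ^ 2 / N + 128 / gτ / N := by
          have : 2 * τ ^ 2 / K ≤ 2 * τ ^ 2 / N :=
            div_le_div_of_nonneg_left (by positivity) N0 hKN
          linarith
      _ = (2 * τ ^ 2 + 128 / gτ) / N := by ring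
  have hsmall : ∀ x : L2, md Φ x ≤ 1 →
      md Φ (fun t => if |T x t| ≤ Λ then Λ * T x t else 0) ≤ ENNReal.ofReal (1 / Λ) := by
    intro x hx
    refine b1p_small (f := fun t => T x t) (b1p_int_sq _) (P := Φ (Λ ^ 2)) Λ0 ?_
      (hTsq x hx) ?_
    · refine Eventually.of_forall fun t => ?_
      have hP : 0 ≤ Φ (Λ ^ 2) := hM.nonneg (by positivity)
      show Φ |if |T x t| ≤ Λ then Λ * T x t else 0| ≤ Φ (Λ ^ 2) / Λ * |T x t|
      by_cases h1 : |T x t| ≤ Λ
      · rw [if_pos h1, abs_mul, abs_of_pos Λ0]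
        have h2 := hM.sub (|T x t| / Λ) (Λ ^ 2) (by positivity)
          (by rw [div_le_one Λ0]; exact h1) (by positivity)
        have h3 : |T x t| / Λ * Λ ^ 2 = Λ * |T x t| := by field_simp
        rw [h3] at h2
        refine h2.trans (le_of_eq ?_)
        ring
      · rw [if_neg h1, abs_zero, hM.zero]
        positivity
    · have N0 : 0 < N := by linarith
      have : Φ (Λ ^ 2) ^ 2 * ((2 * τ ^ 2 + 128 / gτ) / N) = A / N := by rw [hA]; ring
      rw [this, div_le_one N0]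
      exact n7
  -- the choice of `Λ'`
  obtain ⟨Λ', hΛ'1, hΛ'2, hΛ'3⟩ : ∃ Λ' : ℝ, 0 < Λ' ∧ 0 < Φ Λ' ∧
      2 ^ a * (Λ' / Φ Λ') ≤ min 1 (1 / (Λ * (Φ 1 + 1))) := by
    have Φ1 : 0 ≤ Φ 1 := hM.nonneg (by norm_num)
    set m : ℝ := min 1 (1 / (Λ * (Φ 1 + 1))) with hm
    have m0 : 0 < m := lt_min (by norm_num) (by positivity)
    obtain ⟨N₁, hN₁⟩ := (tendsto_atTop.1 hs (2 ^ a / m)).exists_forall_of_atTop
    refine ⟨max N₁ τ, lt_of_lt_of_le τ0 (le_max_right _ _),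
      hM.pos_of_ge τ0.le hτ0 (le_max_right _ _), ?_⟩
    have h1 := hN₁ (max N₁ τ) (le_max_left _ _)
    have h2 : 0 < max N₁ τ := lt_of_lt_of_le τ0 (le_max_right _ _)
    have h3 : 0 < Φ (max N₁ τ) := hM.pos_of_ge τ0.le hτ0 (le_max_right _ _)
    rw [div_le_div_iff₀ m0 h2] at h1
    rw [← mul_div_assoc, div_le_iff₀ h3]
    linarith
  refine ⟨l, T, 2 * h, h, 2 * h, Λ', ?_⟩
  refine ⟨hlΛ, by linarith, h0.le, ?_, ?_, ?_, ?_, ?_, ?_, by linarith, ?_⟩
  · -- norm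
    refine ContinuousLinearMap.opNorm_le_bound _ (by positivity) fun x => ?_
    have h1 : ‖T x‖ ^ 2 ≤ (1 / Λ ^ 2 * ‖x‖) ^ 2 := by
      rw [b1p_norm_sq (T x), mul_pow, b1p_norm_sq x]
      refine (hsq2 x).trans ?_
      refine mul_le_mul_of_nonneg_right ?_ (integral_nonneg fun t => sq_nonneg _)
      have hΛ4 : Λ ^ (2 * 2) = Λ ^ 4 := by norm_num
      rw [div_pow, one_pow, ← pow_mul, div_le_div_iff₀ K0 (by positivity), hΛ4]
      linarith
    exact (pow_le_pow_iff_left₀ (norm_nonneg _) (by positivity) (by norm_num)).1 h1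
  · intro x _ hx
    exact hsup x hx
  · intro x _ hx
    exact hsmall x hx
  · -- mid
    intro x _ hx
    set g₁ : ℝ → ℝ := fun u => if Λ < u then Φ u / u ^ 2 else 0 with hg₁
    set g₂ : ℝ → ℝ := fun w => if w < τ then 0 else if w ≤ 8 * h then 64 * K * (Φ w / w ^ 2)
      else Φ (2 * h) with hg₂
    have k1 : ∀ u, 0 ≤ g₁ u := by
      intro u
      simp only [hg₁]
      split_ifs with h1
      · exact div_nonneg (hM.nonneg (by linarith)) (sq_nonneg _)
      · exact le_rfl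
    have k2 : ∀ u w, 0 ≤ u → u ≤ 2 * h → u ≤ 2 * w → g₁ u ≤ g₂ w := by
      intro u w h1 h2 h3
      have hg₂0 : 0 ≤ g₂ w := by
        simp only [hg₂]
        split_ifs with h4 h5
        · exact le_rfl
        · push Not at h4
          exact mul_nonneg (by positivity) (div_nonneg (hM.nonneg (by linarith)) (sq_nonneg _))
        · exact Φ2h.le
      by_cases h4 : Λ < u
      · have h5 : ¬ w < τ := by push Not; linarith
        have h6 : 0 < u := by linarith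
        simp only [hg₁, if_pos h4, hg₂, if_neg h5]
        push Not at h5
        split_ifs with h7
        · exact gf.1 u w (by linarith) h2 h3 h5 h7
        · rw [div_le_iff₀ (by positivity)]
          have h8 : Φ u ≤ Φ (2 * h) := hM.mono (by simpa using h6.le) (by simp; linarith) h2
          have h9 : 1 ≤ u ^ 2 := by nlinarith
          nlinarith
      · simp only [hg₁, if_neg h4]
        exact hg₂0
    have key := TI_key hlab hT x (g₁ := g₁) (g₂ := g₂) k1 (hsup x hx) k2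
    have e2 : ∫⁻ t, ENNReal.ofReal (av (b + 1) x t ^ 2 * g₂ |av (b + 1) x t|) ∂lam ≤
        ENNReal.ofReal (64 * K) * md Φ x := by
      calc ∫⁻ t, ENNReal.ofReal (av (b + 1) x t ^ 2 * g₂ |av (b + 1) x t|) ∂lam
          ≤ ∫⁻ t, ENNReal.ofReal (64 * K) * ENNReal.ofReal (Φ |av (b + 1) x t|) ∂lam := by
            refine lintegral_mono_ae ?_
            filter_upwards [hX x hx] with t ht
            rw [← ENNReal.ofReal_mul (by positivity)]
            refine ENNReal.ofReal_le_ofReal ?_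
            simp only [hg₂]
            have h1 : 0 ≤ Φ |av (b + 1) x t| := hM.nonneg (abs_nonneg _)
            split_ifs with h4
            · rw [mul_zero]
              positivity
            · push Not at h4
              have h5 : 0 < |av (b + 1) x t| := by linarith
              rw [← sq_abs (av (b + 1) x t)]
              refine le_of_eq ?_
              field_simp
        _ = ENNReal.ofReal (64 * K) * md Φ (av (b + 1) x) := by
            rw [lintegral_const_mul' _ _ ENNReal.ofReal_ne_top]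
            rfl
        _ ≤ ENNReal.ofReal (64 * K) * md Φ x := by
            gcongr
            exact md_av_le hΦ _ (b1p_int x)
    have e3 : ∫⁻ t, ENNReal.ofReal (T x t ^ 2 * g₁ |T x t|) ∂lam ≤
        ENNReal.ofReal 512 * md Φ x := by
      refine key.trans ?_
      refine (mul_le_mul_right e2 _).trans ?_
      rw [← mul_assoc, ← ENNReal.ofReal_mul (by positivity)]
      refine mul_le_mul_left (ENNReal.ofReal_le_ofReal ?_) _
      calc 4 * ((2 : ℝ) ^ a / 2 ^ b) * (64 * K) ≤ 4 * (2 / K) * (64 * K) := by gcongr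
        _ = 512 := by field_simp; norm_num
    have e4 : md Φ (fun t => if |T x t| ≤ Λ then T x t else 0) ≤ ENNReal.ofReal (1 / Λ) := by
      refine le_trans (md_mono hM ?_) (hsmall x hx)
      refine Eventually.of_forall fun t => ?_
      by_cases h3 : |T x t| ≤ Λ
      · rw [if_pos h3, if_pos h3, abs_mul, abs_of_pos Λ0]
        have := abs_nonneg (T x t)
        nlinarith
      · rw [if_neg h3, if_neg h3]
    calc md Φ (fun t => T x t / 1024) ≤ md Φ (T x) := by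
          refine md_mono hM (Eventually.of_forall fun t => ?_)
          rw [abs_div, abs_of_pos (by norm_num : (0 : ℝ) < 1024)]
          have := abs_nonneg (T x t)
          rw [div_le_iff₀ (by norm_num)]
          linarith
      _ ≤ ∫⁻ t, (ENNReal.ofReal (Φ |if |T x t| ≤ Λ then T x t else 0|) +
            ENNReal.ofReal (T x t ^ 2 * g₁ |T x t|)) ∂lam := by
          refine lintegral_mono fun t => ?_
          rw [← ENNReal.ofReal_add (hM.nonneg (abs_nonneg _))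
            (mul_nonneg (sq_nonneg _) (k1 _))]
          refine ENNReal.ofReal_le_ofReal ?_
          simp only [hg₁]
          by_cases h3 : |T x t| ≤ Λ
          · rw [if_pos h3, if_neg (not_lt.2 h3), mul_zero, add_zero]
          · rw [if_neg h3, if_pos (not_le.1 h3), abs_zero, hM.zero, zero_add,
              ← sq_abs (T x t)]
            have : 0 < |T x t| := by linarith [not_le.1 h3]
            refine le_of_eq ?_
            field_simp
      _ = md Φ (fun t => if |T x t| ≤ Λ then T x t else 0) +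
            ∫⁻ t, ENNReal.ofReal (T x t ^ 2 * g₁ |T x t|) ∂lam := by
          rw [lintegral_add_left']
          · rfl
          · refine ENNReal.measurable_ofReal.comp_aemeasurable ?_
            have h5 : AEMeasurable (fun t => if |T x t| ≤ Λ then T x t else 0) lam := by
              have h6 : Measurable (fun y : ℝ => if |y| ≤ Λ then y else 0) :=
                Measurable.ite (measurableSet_le measurable_abs measurable_const)
                  measurable_id measurable_const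
              exact h6.comp_aemeasurable (Lp.aestronglyMeasurable (T x)).aemeasurable
            exact hM.meas.comp_aemeasurable h5
      _ ≤ ENNReal.ofReal (1 / Λ) + ENNReal.ofReal 512 * md Φ x := add_le_add e4 e3
      _ ≤ ENNReal.ofReal 1024 * md Φ x + ENNReal.ofReal (1 / Λ) := by
          rw [add_comm]
          gcongr
          norm_num
  · -- low
    intro x hx
    have hb := TI_bound hlab hT hx
    have hS : ∫ t, T x t ^ 2 ∂lam ≤ 2 / K * Λ ^ 2 := by
      refine (hsq2 x).trans (mul_le_mul_of_nonneg_left ?_ (by positivity))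
      calc ∫ t, x t ^ 2 ∂lam ≤ ∫ _, Λ ^ 2 ∂lam := by
            refine integral_mono_ae (b1p_int_sq x) (integrable_const _) ?_
            filter_upwards [hx] with t ht
            rw [← sq_abs]
            exact pow_le_pow_left₀ (abs_nonneg _) ht 2
        _ = Λ ^ 2 := by simp
    refine b1p_small (f := fun t => T x t) (b1p_int_sq _) (P := Φ Λ) Λ0 ?_ hS ?_
    · filter_upwards [hb] with t ht
      have h2 := hM.sub (|T x t| / Λ) Λ (by positivity) (by rw [div_le_one Λ0]; exact ht) Λ0.le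
      have h3 : |T x t| / Λ * Λ = |T x t| := by field_simp
      rw [h3] at h2
      refine h2.trans (le_of_eq ?_)
      ring
    · have h3 : Φ Λ ^ 2 * (2 / K * Λ ^ 2) = 2 * Λ ^ 2 * Φ Λ ^ 2 / K := by ring
      rw [h3, div_le_one K0]
      linarith
  · -- high
    intro x _ hx hx2
    have hint : Integrable (fun t => Φ |x t|) lam := by
      refine ⟨(hM.meas.comp_aemeasurable
        (Lp.aestronglyMeasurable x).aemeasurable).aestronglyMeasurable, ?_⟩
      rw [hasFiniteIntegral_iff_ofReal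
        (Eventually.of_forall fun t => hM.nonneg (abs_nonneg _))]
      exact lt_of_le_of_lt hx (by norm_num)
    have hint1 : ∫ t, Φ |x t| ∂lam ≤ 1 := by
      rw [integral_eq_lintegral_of_nonneg_ae
        (Eventually.of_forall fun t => hM.nonneg (abs_nonneg _)) hint.aestronglyMeasurable]
      exact ENNReal.toReal_le_of_le_ofReal (by norm_num) (by rw [ENNReal.ofReal_one]; exact hx)
    have h1 : ∫ s, |x s| ∂lam ≤ Λ' / Φ Λ' := by
      calc ∫ s, |x s| ∂lam ≤ ∫ s, Λ' / Φ Λ' * Φ |x s| ∂lam := by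
            refine integral_mono_ae (b1p_int x).abs (hint.const_mul _) ?_
            filter_upwards [hx2] with t ht
            rcases ht with ht | ht
            · rw [ht, abs_zero, hM.zero, mul_zero]
            · have h2 := hM.ratio hΛ'1 ht
              have h3 : 0 < |x t| := lt_of_lt_of_le hΛ'1 ht
              rw [div_le_div_iff₀ hΛ'1 h3] at h2
              rw [div_mul_eq_mul_div, le_div_iff₀ hΛ'2]
              linarith
        _ = Λ' / Φ Λ' * ∫ s, Φ |x s| ∂lam := integral_const_mul _ _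
        _ ≤ Λ' / Φ Λ' * 1 := mul_le_mul_of_nonneg_left hint1 (by positivity)
        _ = Λ' / Φ Λ' := mul_one _
    have h2 : ∀ᵐ t ∂lam, |T x t| ≤ 2 ^ a * (Λ' / Φ Λ') := by
      filter_upwards [TI_abs hlab hT x] with t ht
      exact ht.trans (mul_le_mul_of_nonneg_left h1 (by positivity))
    refine (md_const_le hM h2).trans (ENNReal.ofReal_le_ofReal ?_)
    set s := 2 ^ a * (Λ' / Φ Λ') with hs'
    have s0 : 0 ≤ s := by positivity
    have s1 : s ≤ 1 := hΛ'3.trans (min_le_left _ _)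
    have s2 : s ≤ 1 / (Λ * (Φ 1 + 1)) := hΛ'3.trans (min_le_right _ _)
    have Φ1 : 0 ≤ Φ 1 := hM.nonneg (by norm_num)
    have h3 := hM.sub s 1 s0 s1 (by norm_num)
    rw [mul_one] at h3
    calc Φ s ≤ s * Φ 1 := h3
      _ ≤ 1 / (Λ * (Φ 1 + 1)) * (Φ 1 + 1) := mul_le_mul s2 (by linarith) Φ1 (by positivity)
      _ = 1 / Λ := by field_simp
  · -- test
    intro e f he hf hG _
    exact TI_test hΦ hlab hla hT h0 ha2 (by linarith) he hf hG

theorem supply1 (hΦ : Orl Φ) (hs : SuperLin Φ) {τ : ℝ} (hτ : 1 ≤ τ) (hτ0 : 0 < Φ τ)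
    (hD : ∀ N : ℝ, ∃ h, D1 Φ τ N h) : DInf Φ := by
  refine seqB hΦ.qorl (C₀ := 1024) (by norm_num) fun Λ hΛ => ?_
  obtain ⟨l, T, u, H, v, Λ', h⟩ := b1p_pkg hΦ hs hτ hτ0 hD (Λ := max Λ (2 * τ))
    (hΛ.trans (le_max_left _ _)) (le_max_right _ _)
  exact ⟨l, T, u, H, v, Λ', h.anti hΦ.qorl hΛ (le_max_left _ _)⟩

end

end Pool.Agent.OB9
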