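import Pool.Agent.OB9.RadI

/-!
# Module OB9/SubG

Rademacher sums on a dyadic interval are subgaussian.

PROOF. `exp_rad`: for a function `F` of `idx p t` and `p < q`,
`∫ F exp(θ rad q) = cosh θ ∫ F` (`exp(θ rad q) = cosh θ + rad q sinh θ`, `integral_rad`). By induction
on `n`, for distinct digits `b+1+i`, `i < n`:
`∫ 1_{idx b t = c} exp(θ ∑_{i<n} a_i rad (b+1+i)) = 2^{-b} ∏ cosh(θ a_i) ≤ 2^{-b} exp(θ² A²/2)`,
`A² = ∑ a_i²` (`Real.cosh_le_exp_half_sq`; `1_{idx b t = c} exp(..)` over `i < n` is a function of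
`idx (b+n) t`). Markov's inequality with `θ = r/A` (for `A > 0`): the measure of
`{idx b t = c, ∑ a_i rad ≥ r A}` is `≤ 2^{-b} exp(-r²/2)`; same for `-a`. If `A = 0` all `a_i = 0` and the
set `{|0| ≥ r · 0}` is everything: so the statement assumes `0 < A`.
-/

set_option autoImplicit false

namespace Pool.Agent.OB9

open MeasureTheory Set Filter
open scoped ENNReal Topology

noncomputable section

private def sgF (b c n : ℕ) (a : ℕ → ℝ) (t : ℝ) : ℝ :=
  (if idx b t = c then 1 else 0) * Real.exp (∑ i ∈ Finset.range n, a i * rad (b + 1 + i) t)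

private theorem sgF_meas (b c n : ℕ) (a : ℕ → ℝ) : Measurable (sgF b c n a) := by
  unfold sgF
  refine Measurable.mul ?_ ?_
  · exact Measurable.ite (measurableSet_eq_fun (measurable_idx b) measurable_const)
      measurable_const measurable_const
  · refine Real.measurable_exp.comp (Finset.measurable_sum _ fun i _ => ?_)
    exact (measurable_rad _).const_mul _

private theorem sgF_nonneg (b c n : ℕ) (a : ℕ → ℝ) (t : ℝ) : 0 ≤ sgF b c n a t := by
  unfold sgF
  split_ifs
  · rw [one_mul]
    exact (Real.exp_pos _).le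
  · rw [zero_mul]

private theorem sgF_le (b c n : ℕ) (a : ℕ → ℝ) (t : ℝ) :
    sgF b c n a t ≤ Real.exp (∑ i ∈ Finset.range n, |a i|) := by
  have h1 : Real.exp (∑ i ∈ Finset.range n, a i * rad (b + 1 + i) t) ≤
      Real.exp (∑ i ∈ Finset.range n, |a i|) := by
    rw [Real.exp_le_exp]
    refine Finset.sum_le_sum fun i _ => ?_
    refine (le_abs_self _).trans ?_
    rw [abs_mul, abs_rad, mul_one]
  unfold sgF
  split_ifs
  · rwa [one_mul]
  · rw [zero_mul]
    exact (Real.exp_pos _).le

private theorem sgF_int (b c n : ℕ) (a : ℕ → ℝ) : Integrable (sgF b c n a) lam := by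
  refine Integrable.of_bound (sgF_meas b c n a).aestronglyMeasurable
    (Real.exp (∑ i ∈ Finset.range n, |a i|)) (Eventually.of_forall fun t => ?_)
  rw [Real.norm_eq_abs, abs_of_nonneg (sgF_nonneg _ _ _ _ _)]
  exact sgF_le b c n a t

/-- `sgF` is a function of the index at level `b + n`. -/
private theorem sgF_idx (b c n : ℕ) (a : ℕ → ℝ) :
    ∃ A : ℕ → ℝ, ∀ t, 0 ≤ t → sgF b c n a t = A (idx (b + n) t) := by
  have h : ∀ i : ℕ, ∃ B : ℕ → ℝ, i < n → ∀ t, 0 ≤ t → rad (b + 1 + i) t = B (idx (b + n) t) := by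
    intro i
    by_cases hi : i < n
    · obtain ⟨B, hB⟩ := rad_eq_idx (show b + 1 + i ≤ b + n by omega)
      exact ⟨B, fun _ => hB⟩
    · exact ⟨fun _ => 0, fun h => absurd h hi⟩
  choose B hB using h
  refine ⟨fun k => (if k / 2 ^ n = c then 1 else 0) *
    Real.exp (∑ i ∈ Finset.range n, a i * B i k), fun t ht => ?_⟩
  unfold sgF
  beta_reduce
  rw [idx_div b n ht]
  congr 2
  refine Finset.sum_congr rfl fun i hi => ?_
  rw [hB i (Finset.mem_range.1 hi) t ht]

private theorem sgF_rad (b c n : ℕ) (a : ℕ → ℝ) :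
    ∫ t, sgF b c n a t * rad (b + 1 + n) t ∂lam = 0 := by
  obtain ⟨A, hA⟩ := sgF_idx b c n a
  rw [← integral_rad (show b + n < b + 1 + n by omega) A]
  refine integral_congr_ae ?_
  filter_upwards [ae_mem_Ico] with t ht
  rw [hA t ht.1]

private theorem sgF_eq {b c : ℕ} (hc : c < 2 ^ b) (a : ℕ → ℝ) (n : ℕ) :
    ∫ t, sgF b c n a t ∂lam = (∏ i ∈ Finset.range n, Real.cosh (a i)) / 2 ^ b := by
  induction n with
  | zero =>
    have h1 : ∀ t, sgF b c 0 a t = (fun k : ℕ => if k = c then (1 : ℝ) else 0) (idx b t) := by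
      intro t
      unfold sgF
      simp
    rw [integral_congr_ae (Eventually.of_forall h1),
      integral_idx b (fun k : ℕ => if k = c then (1 : ℝ) else 0)]
    simp [hc]
  | succ n ih =>
    have h1 : ∀ t, sgF b c (n + 1) a t = Real.cosh (a n) * sgF b c n a t +
        Real.sinh (a n) * (sgF b c n a t * rad (b + 1 + n) t) := by
      intro t
      have h2 : Real.exp (a n * rad (b + 1 + n) t) =
          Real.cosh (a n) + Real.sinh (a n) * rad (b + 1 + n) t := by
        unfold rad
        split_ifs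
        · rw [mul_one, mul_one, Real.cosh_add_sinh]
        · rw [mul_neg_one, mul_neg_one, ← sub_eq_add_neg, Real.cosh_sub_sinh]
      have h3 : sgF b c (n + 1) a t = sgF b c n a t * Real.exp (a n * rad (b + 1 + n) t) := by
        unfold sgF
        rw [Finset.sum_range_succ, Real.exp_add]
        ring
      rw [h3, h2]
      ring
    have hi : Integrable (fun t => sgF b c n a t * rad (b + 1 + n) t) lam := by
      refine Integrable.of_bound
        ((sgF_meas b c n a).mul (measurable_rad _)).aestronglyMeasurable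
        (Real.exp (∑ i ∈ Finset.range n, |a i|)) (Eventually.of_forall fun t => ?_)
      rw [Real.norm_eq_abs, abs_mul, abs_rad, mul_one, abs_of_nonneg (sgF_nonneg _ _ _ _ _)]
      exact sgF_le b c n a t
    rw [integral_congr_ae (Eventually.of_forall h1),
      integral_add ((sgF_int b c n a).const_mul _) (hi.const_mul _), integral_const_mul,
      integral_const_mul, sgF_rad, mul_zero, add_zero, ih, Finset.prod_range_succ]
    ring

theorem exp_moment {b c n : ℕ} (hc : c < 2 ^ b) (a : ℕ → ℝ) :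
    ∫ t, (if idx b t = c then 1 else 0) *
      Real.exp (∑ i ∈ Finset.range n, a i * rad (b + 1 + i) t) ∂lam ≤
        Real.exp ((∑ i ∈ Finset.range n, a i ^ 2) / 2) / 2 ^ b := by
  change ∫ t, sgF b c n a t ∂lam ≤ _
  rw [sgF_eq hc]
  apply div_le_div_of_nonneg_right _ (by positivity)
  rw [Finset.sum_div, Real.exp_sum]
  exact Finset.prod_le_prod (fun i _ => (Real.cosh_pos _).le)
    fun i _ => Real.cosh_le_exp_half_sq _

private theorem sg_half {b c n : ℕ} (hc : c < 2 ^ b) (a : ℕ → ℝ) {A r : ℝ} (hA : 0 < A)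
    (hr : 0 ≤ r) (hA2 : ∑ i ∈ Finset.range n, a i ^ 2 = A ^ 2) :
    lam {t | idx b t = c ∧ r * A ≤ ∑ i ∈ Finset.range n, a i * rad (b + 1 + i) t} ≤
      ENNReal.ofReal (Real.exp (-(r ^ 2) / 2) / 2 ^ b) := by
  set S : Set ℝ := {t | idx b t = c ∧ r * A ≤ ∑ i ∈ Finset.range n, a i * rad (b + 1 + i) t}
    with hS
  have hm : Measurable (fun t : ℝ => ∑ i ∈ Finset.range n, a i * rad (b + 1 + i) t) :=
    Finset.measurable_sum _ fun i _ => (measurable_rad _).const_mul _
  have hSm : MeasurableSet S :=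
    MeasurableSet.inter (measurableSet_eq_fun (measurable_idx b) measurable_const)
      (measurableSet_le measurable_const hm)
  have h1 := exp_moment (n := n) hc (fun i => r / A * a i)
  have h2 : ∑ i ∈ Finset.range n, (r / A * a i) ^ 2 = r ^ 2 := by
    simp only [mul_pow]
    rw [← Finset.mul_sum, hA2]
    field_simp
  rw [h2] at h1
  have h3 : ∀ t, S.indicator (fun _ => Real.exp (r ^ 2)) t ≤
      sgF b c n (fun i => r / A * a i) t := by
    intro t
    by_cases ht : t ∈ S
    · rw [Set.indicator_of_mem ht]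
      unfold sgF
      rw [if_pos ht.1, one_mul, Real.exp_le_exp]
      have e1 : ∑ i ∈ Finset.range n, r / A * a i * rad (b + 1 + i) t =
          r / A * ∑ i ∈ Finset.range n, a i * rad (b + 1 + i) t := by
        rw [Finset.mul_sum]
        exact Finset.sum_congr rfl fun i _ => by ring
      rw [e1]
      have e2 : r ^ 2 = r / A * (r * A) := by
        field_simp
      rw [e2]
      exact mul_le_mul_of_nonneg_left ht.2 (by positivity)
    · rw [Set.indicator_of_notMem ht]
      exact sgF_nonneg _ _ _ _ _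
  have h4 : ∫ t, S.indicator (fun _ => Real.exp (r ^ 2)) t ∂lam ≤
      ∫ t, sgF b c n (fun i => r / A * a i) t ∂lam :=
    integral_mono ((integrable_const _).indicator hSm) (sgF_int _ _ _ _) h3
  rw [integral_indicator_const _ hSm, smul_eq_mul] at h4
  have h5 : lam.real S * Real.exp (r ^ 2) ≤ Real.exp (r ^ 2 / 2) / 2 ^ b := h4.trans h1
  have h6 : lam.real S ≤ Real.exp (-(r ^ 2) / 2) / 2 ^ b := by
    rw [← le_div_iff₀ (Real.exp_pos _)] at h5
    refine h5.trans (le_of_eq ?_)
    rw [div_div, mul_comm ((2 : ℝ) ^ b), ← div_div, ← Real.exp_sub]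
    congr 2
    ring
  rw [← ENNReal.ofReal_toReal (measure_ne_top lam S)]
  exact ENNReal.ofReal_le_ofReal h6

theorem subgauss {b c n : ℕ} (hc : c < 2 ^ b) (a : ℕ → ℝ) {A r : ℝ} (hr : 0 ≤ r) (hA : 0 < A)
    (hA2 : ∑ i ∈ Finset.range n, a i ^ 2 = A ^ 2) :
    lam {t | idx b t = c ∧ r * A ≤ |∑ i ∈ Finset.range n, a i * rad (b + 1 + i) t|} ≤
      ENNReal.ofReal (2 * Real.exp (-(r ^ 2) / 2) / 2 ^ b) := by
  have h1 := sg_half (n := n) hc a hA hr hA2
  have h2 := sg_half (n := n) hc (fun i => -a i) hA hr (by simpa using hA2)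
  have hsub : {t | idx b t = c ∧ r * A ≤ |∑ i ∈ Finset.range n, a i * rad (b + 1 + i) t|} ⊆
      {t | idx b t = c ∧ r * A ≤ ∑ i ∈ Finset.range n, a i * rad (b + 1 + i) t} ∪
      {t | idx b t = c ∧ r * A ≤ ∑ i ∈ Finset.range n, -a i * rad (b + 1 + i) t} := by
    rintro t ⟨ht1, ht2⟩
    rcases le_abs.1 ht2 with h | h
    · exact Or.inl ⟨ht1, h⟩
    · refine Or.inr ⟨ht1, ?_⟩
      simp only [neg_mul, Finset.sum_neg_distrib]
      exact h
  refine (measure_mono hsub).trans ((measure_union_le _ _).trans ((add_le_add h1 h2).trans ?_))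
  rw [← ENNReal.ofReal_add (by positivity) (by positivity)]
  apply ENNReal.ofReal_le_ofReal
  apply le_of_eq
  ring

end

end Pool.Agent.OB9
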