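import Pool.Agent.OB9.OpEx
import Pool.Agent.OB9.KeyL
import Pool.Agent.OB9.AvB
import Pool.Agent.OB9.SubG

/-!
# Module OB9/B2A

Type II operators: general facts. Here `l + b ≤ a`, `n = 2^(a-b)`, `TII l b a r T`. For `c < 2^b`,
`q < n` let `α c q` be the average of `x` over the source interval `cell a i` with `adr l b a i = c`,
`wix l b a i = q` (exactly one `i < 2^a`, `sum_adr`); on `cell b c`
`T x = r ∑_{q<n} α c q rad (b+1+q)`.

PROOF. `TII_coef`: define `α` by choosing the index (`adr_wix_inj`, `sum_adr`; e.g.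
`α c q = ∑_{i<2^a} if adr = c ∧ wix = q then 2^a ∫_{cell a i} x else 0`). `∑_{c,q} 2^{-a} f(α c q) =
2^{-a} ∑_{i<2^a} f(av a x on cell a i) = ∫ f(av a x)` (`integral_idx`): property (3) for every `f`.
`TII_sq`: `∫ (T x)² = ∑_c 2^{-b} r² ∑_q (α c q)²` (orthogonality of the Rademacher functions:
`integral_rad`) `= r² 2^(a-b) ∫ (av a x)²`.
-/

set_option autoImplicit false

namespace Pool.Agent.OB9

open MeasureTheory Set Filter
open scoped ENNReal Topology

noncomputable section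

variable {Φ : ℝ → ℝ}

private theorem b2a_ex {l b a c q : ℕ} (h : l + b ≤ a) (hc : c < 2 ^ b) (hq : q < 2 ^ (a - b)) :
    ∃ i, i < 2 ^ a ∧ adr l b a i = c ∧ wix l b a i = q := by
  by_contra hno
  push Not at hno
  have h1 := sum_adr h hc (fun q' => if q' = q then (1 : ℝ) else 0)
  have h2 : (∑ q' ∈ Finset.range (2 ^ (a - b)), if q' = q then (1 : ℝ) else 0) = 1 := by
    rw [Finset.sum_ite_eq' (Finset.range (2 ^ (a - b))) q (fun _ => (1 : ℝ)),
      if_pos (Finset.mem_range.2 hq)]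
  have h3 : (∑ i ∈ Finset.range (2 ^ a), if adr l b a i = c then
      (fun q' => if q' = q then (1 : ℝ) else 0) (wix l b a i) else 0) = 0 := by
    refine Finset.sum_eq_zero fun i hi => ?_
    split_ifs with hi1
    · simp only [ite_eq_right_iff, one_ne_zero, imp_false]
      exact hno i (Finset.mem_range.1 hi) hi1
    · rfl
  rw [h3, h2] at h1
  exact zero_ne_one h1

private theorem b2a_ix {l b a : ℕ} (h : l + b ≤ a) : ∃ ix : ℕ → ℕ → ℕ,
    ∀ c < 2 ^ b, ∀ q < 2 ^ (a - b),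
      ix c q < 2 ^ a ∧ adr l b a (ix c q) = c ∧ wix l b a (ix c q) = q := by
  classical
  refine ⟨fun c q => if hh : c < 2 ^ b ∧ q < 2 ^ (a - b) then
    (b2a_ex h hh.1 hh.2).choose else 0, fun c hc q hq => ?_⟩
  simp only [hc, hq, and_self, dite_true]
  exact (b2a_ex h hc hq).choose_spec

private theorem b2a_sum {A : Type*} [AddCommMonoid A] {l b a : ℕ} (h : l + b ≤ a)
    {ix : ℕ → ℕ → ℕ} (hix : ∀ c < 2 ^ b, ∀ q < 2 ^ (a - b),
      ix c q < 2 ^ a ∧ adr l b a (ix c q) = c ∧ wix l b a (ix c q) = q) (g : ℕ → A) :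
    ∑ c ∈ Finset.range (2 ^ b), ∑ q ∈ Finset.range (2 ^ (a - b)), g (ix c q) =
      ∑ i ∈ Finset.range (2 ^ a), g i := by
  rw [← Finset.sum_product']
  refine Finset.sum_bij' (fun p _ => ix p.1 p.2) (fun i _ => (adr l b a i, wix l b a i))
    ?_ ?_ ?_ ?_ ?_
  · rintro ⟨c, q⟩ hp
    rw [Finset.mem_product, Finset.mem_range, Finset.mem_range] at hp
    exact Finset.mem_range.2 (hix c hp.1 q hp.2).1
  · intro i hi
    rw [Finset.mem_product, Finset.mem_range, Finset.mem_range]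
    exact ⟨adr_lt l b a i, wix_lt h (Finset.mem_range.1 hi)⟩
  · rintro ⟨c, q⟩ hp
    rw [Finset.mem_product, Finset.mem_range, Finset.mem_range] at hp
    have h1 := hix c hp.1 q hp.2
    simp only [h1.2.1, h1.2.2]
  · intro i hi
    have h1 := hix _ (adr_lt l b a i) _ (wix_lt h (Finset.mem_range.1 hi))
    exact adr_wix_inj h h1.1 (Finset.mem_range.1 hi) h1.2.1 h1.2.2
  · rintro ⟨c, q⟩ hp
    rfl

private theorem b2a_coef {l b a : ℕ} (h : l + b ≤ a) {r : ℝ} {T : L2 →L[ℝ] L2}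
    (hT : TII l b a r T) {ix : ℕ → ℕ → ℕ} (hix : ∀ c < 2 ^ b, ∀ q < 2 ^ (a - b),
      ix c q < 2 ^ a ∧ adr l b a (ix c q) = c ∧ wix l b a (ix c q) = q)
    (x : L2) : ∀ᵐ t ∂lam, T x t = r * ∑ q ∈ Finset.range (2 ^ (a - b)),
        (2 ^ a * ∫ s in cell a (ix (idx b t) q), x s ∂lam) * rad (b + 1 + q) t := by
  filter_upwards [hT x, ae_mem_Ico] with t ht hI
  rw [ht]
  congr 1
  have hc : idx b t < 2 ^ b := idx_lt hI.1 hI.2
  rw [← sum_adr h hc (fun q => (2 ^ a * ∫ s in cell a (ix (idx b t) q), x s ∂lam) *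
    rad (b + 1 + q) t)]
  refine Finset.sum_congr rfl fun i hi => ?_
  split_ifs with h1
  · have h2 := hix _ hc _ (wix_lt h (Finset.mem_range.1 hi))
    have h3 : ix (idx b t) (wix l b a i) = i :=
      adr_wix_inj h h2.1 (Finset.mem_range.1 hi) (h2.2.1.trans h1.symm) h2.2.2
    rw [h3]
  · rfl

theorem TII_coef {l b a : ℕ} (h : l + b ≤ a) {r : ℝ} {T : L2 →L[ℝ] L2} (hT : TII l b a r T)
    (x : L2) : ∃ α : ℕ → ℕ → ℝ,
      (∀ᵐ t ∂lam, T x t = r * ∑ q ∈ Finset.range (2 ^ (a - b)),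
        α (idx b t) q * rad (b + 1 + q) t) ∧
      (∀ c < 2 ^ b, ∀ q < 2 ^ (a - b), ∃ i < 2 ^ a, adr l b a i = c ∧ wix l b a i = q ∧
        α c q = 2 ^ a * ∫ s in cell a i, x s ∂lam) ∧
      ∀ f : ℝ → ℝ≥0∞, ∑ c ∈ Finset.range (2 ^ b), ∑ q ∈ Finset.range (2 ^ (a - b)), f (α c q) =
        2 ^ a * ∫⁻ t, f (av a x t) ∂lam := by
  obtain ⟨ix, hix⟩ := b2a_ix h
  refine ⟨fun c q => 2 ^ a * ∫ s in cell a (ix c q), x s ∂lam, b2a_coef h hT hix x,
    fun c hc q hq => ⟨ix c q, (hix c hc q hq).1, (hix c hc q hq).2.1, (hix c hc q hq).2.2, rfl⟩,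
    fun f => ?_⟩
  rw [b2a_sum h hix (fun i => f (2 ^ a * ∫ s in cell a i, x s ∂lam))]
  have h1 : ∫⁻ t, f (av a x t) ∂lam =
      ∫⁻ t, (fun i => f (2 ^ a * ∫ s in cell a i, x s ∂lam)) (idx a t) ∂lam := rfl
  rw [h1, lintegral_idx a (fun i => f (2 ^ a * ∫ s in cell a i, x s ∂lam)),
    mul_comm (∑ k ∈ Finset.range (2 ^ a), _) _, ← mul_assoc]
  have h2 : (2 : ℝ≥0∞) ^ a * ENNReal.ofReal (1 / 2 ^ a) = 1 := by
    rw [one_div, ENNReal.ofReal_inv_of_pos (by positivity), ENNReal.ofReal_pow (by norm_num),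
      ENNReal.ofReal_ofNat]
    exact ENNReal.mul_inv_cancel (by positivity) (ENNReal.pow_ne_top (by simp))
  rw [h2, one_mul]

private theorem b2a_sq (b : ℕ) (α : ℕ → ℕ → ℝ) (n : ℕ) :
    ∫ t, (∑ q ∈ Finset.range n, α (idx b t) q * rad (b + 1 + q) t) ^ 2 ∂lam =
      (∑ c ∈ Finset.range (2 ^ b), ∑ q ∈ Finset.range n, α c q ^ 2) / 2 ^ b := by
  induction n with
  | zero => simp
  | succ n ih =>
    -- the partial sum is a function of the index of level `b + n`
    have hfun : ∃ A : ℕ → ℝ, ∀ t, 0 ≤ t →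
        (∑ q ∈ Finset.range n, α (idx b t) q * rad (b + 1 + q) t) = A (idx (b + n) t) := by
      have h : ∀ i : ℕ, ∃ B : ℕ → ℝ, i < n →
          ∀ t, 0 ≤ t → rad (b + 1 + i) t = B (idx (b + n) t) := by
        intro i
        by_cases hi : i < n
        · obtain ⟨B, hB⟩ := rad_eq_idx (show b + 1 + i ≤ b + n by omega)
          exact ⟨B, fun _ => hB⟩
        · exact ⟨fun _ => 0, fun h => absurd h hi⟩
      choose B hB using h
      refine ⟨fun k => ∑ i ∈ Finset.range n, α (k / 2 ^ n) i * B i k, fun t ht => ?_⟩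
      refine Finset.sum_congr rfl fun i hi => ?_
      rw [hB i (Finset.mem_range.1 hi) t ht, idx_div b n ht]
    obtain ⟨A, hA⟩ := hfun
    set S : ℝ → ℝ := fun t => ∑ q ∈ Finset.range n, α (idx b t) q * rad (b + 1 + q) t with hS
    have hmα : ∀ q, Measurable (fun t => α (idx b t) q) := fun q =>
      (measurable_from_nat (f := fun c => α c q)).comp (measurable_idx b)
    have hSm : Measurable S :=
      Finset.measurable_sum _ fun q _ => (hmα q).mul (measurable_rad _)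
    have hαb : ∀ q, ∃ C : ℝ, ∀ᵐ t ∂lam, |α (idx b t) q| ≤ C := by
      intro q
      refine ⟨∑ c ∈ Finset.range (2 ^ b), |α c q|, ?_⟩
      filter_upwards [ae_mem_Ico] with t ht
      exact Finset.single_le_sum (f := fun c => |α c q|) (fun c _ => abs_nonneg _)
        (Finset.mem_range.2 (idx_lt ht.1 ht.2))
    have hSb : ∃ C : ℝ, ∀ᵐ t ∂lam, |S t| ≤ C := by
      choose C hC using hαb
      refine ⟨∑ q ∈ Finset.range n, C q, ?_⟩
      filter_upwards [ae_all_iff.2 hC] with t ht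
      refine (Finset.abs_sum_le_sum_abs _ _).trans (Finset.sum_le_sum fun q _ => ?_)
      rw [abs_mul, abs_rad, mul_one]
      exact ht q
    obtain ⟨CS, hCS⟩ := hSb
    obtain ⟨Cn, hCn⟩ := hαb n
    have hi1 : Integrable (fun t => S t ^ 2) lam := by
      refine Integrable.of_bound (hSm.pow_const 2).aestronglyMeasurable (CS ^ 2) ?_
      filter_upwards [hCS] with t ht
      rw [Real.norm_eq_abs, abs_pow]
      exact pow_le_pow_left₀ (abs_nonneg _) ht 2
    have hi2 : Integrable (fun t => 2 * (S t * α (idx b t) n * rad (b + 1 + n) t)) lam := by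
      refine (Integrable.of_bound (((hSm.mul (hmα n)).mul
        (measurable_rad _)).aestronglyMeasurable) (CS * Cn) ?_).const_mul 2
      filter_upwards [hCS, hCn] with t ht ht2
      change ‖S t * α (idx b t) n * rad (b + 1 + n) t‖ ≤ _
      rw [Real.norm_eq_abs, abs_mul, abs_rad, mul_one, abs_mul]
      exact mul_le_mul ht ht2 (abs_nonneg _) ((abs_nonneg _).trans ht)
    have hi3 : Integrable (fun t => α (idx b t) n ^ 2) lam := by
      refine Integrable.of_bound ((hmα n).pow_const 2).aestronglyMeasurable (Cn ^ 2) ?_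
      filter_upwards [hCn] with t ht
      rw [Real.norm_eq_abs, abs_pow]
      exact pow_le_pow_left₀ (abs_nonneg _) ht 2
    have h1 : ∀ t, (∑ q ∈ Finset.range (n + 1), α (idx b t) q * rad (b + 1 + q) t) ^ 2 =
        S t ^ 2 + 2 * (S t * α (idx b t) n * rad (b + 1 + n) t) + α (idx b t) n ^ 2 := by
      intro t
      rw [Finset.sum_range_succ]
      have h2 := rad_mul_self (b + 1 + n) t
      change (S t + α (idx b t) n * rad (b + 1 + n) t) ^ 2 = _
      calc (S t + α (idx b t) n * rad (b + 1 + n) t) ^ 2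
          = S t ^ 2 + 2 * (S t * α (idx b t) n * rad (b + 1 + n) t) +
            α (idx b t) n ^ 2 * (rad (b + 1 + n) t * rad (b + 1 + n) t) := by ring
        _ = _ := by rw [h2, mul_one]
    have h3 : ∫ t, S t * α (idx b t) n * rad (b + 1 + n) t ∂lam = 0 := by
      rw [← integral_rad (show b + n < b + 1 + n by omega)
        (fun k => A k * α (k / 2 ^ n) n)]
      refine integral_congr_ae ?_
      filter_upwards [ae_mem_Ico] with t ht
      rw [idx_div b n ht.1, ← hA t ht.1]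
    have h4 : ∫ t, (S t ^ 2 + 2 * (S t * α (idx b t) n * rad (b + 1 + n) t) +
        α (idx b t) n ^ 2) ∂lam = ∫ t, (S t ^ 2 + 2 * (S t * α (idx b t) n *
          rad (b + 1 + n) t)) ∂lam + ∫ t, α (idx b t) n ^ 2 ∂lam := integral_add (hi1.add hi2) hi3
    have h5 : ∫ t, (S t ^ 2 + 2 * (S t * α (idx b t) n * rad (b + 1 + n) t)) ∂lam =
        ∫ t, S t ^ 2 ∂lam + ∫ t, 2 * (S t * α (idx b t) n * rad (b + 1 + n) t) ∂lam :=
      integral_add hi1 hi2
    rw [integral_congr_ae (Eventually.of_forall h1), h4, h5,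
      integral_const_mul, h3, mul_zero, add_zero, ih,
      integral_idx b (fun c => α c n ^ 2), ← add_div, ← Finset.sum_add_distrib]
    congr 1
    exact Finset.sum_congr rfl fun c _ => (Finset.sum_range_succ _ _).symm

theorem TII_sq {l b a : ℕ} (h : l + b ≤ a) {r : ℝ} {T : L2 →L[ℝ] L2} (hT : TII l b a r T)
    (x : L2) : ∫ t, T x t ^ 2 ∂lam = r ^ 2 * (2 ^ a / 2 ^ b) * ∫ t, av a x t ^ 2 ∂lam := by
  obtain ⟨ix, hix⟩ := b2a_ix h
  have h1 := b2a_coef h hT hix x
  have h2 : ∫ t, T x t ^ 2 ∂lam = ∫ t, r ^ 2 * (∑ q ∈ Finset.range (2 ^ (a - b)),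
      (fun c q => 2 ^ a * ∫ s in cell a (ix c q), x s ∂lam) (idx b t) q *
        rad (b + 1 + q) t) ^ 2 ∂lam := by
    refine integral_congr_ae ?_
    filter_upwards [h1] with t ht
    rw [ht, mul_pow]
  have h3 : ∫ t, av a x t ^ 2 ∂lam =
      ∫ t, (fun i => (2 ^ a * ∫ s in cell a i, x s ∂lam) ^ 2) (idx a t) ∂lam := rfl
  rw [h2, integral_const_mul,
    b2a_sq b (fun c q => 2 ^ a * ∫ s in cell a (ix c q), x s ∂lam) (2 ^ (a - b)), h3,
    integral_idx a (fun i => (2 ^ a * ∫ s in cell a i, x s ∂lam) ^ 2)]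
  rw [b2a_sum h hix (fun i => (2 ^ a * ∫ s in cell a i, x s ∂lam) ^ 2)]
  field_simp

end

end Pool.Agent.OB9
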