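import Pool.Agent.OB9.Core

/-!
# Module OB9/OrlB

Elementary facts on Orlicz functions.

PROOF. `nonneg`: `mono` and `zero`. `super`: `sub` with `1/c`. `ratio`: `sub` with `c = s/t`.
`meas`: `M |t| = (fun s => M (max s 0)) |t|` and `fun s => M (max s 0)` is monotone on `ℝ`.
`tendsto`: by `nontriv` there is `t0 > 0` with `M t0 > 0`, and `M t ≥ (t / t0) * M t0` for `t ≥ t0`
(`ratio`). `Orl.qorl`: `sub` is convexity between `0` and `t`; continuity on `(0,∞)` is
`ConvexOn.continuousOn_interior` (or `ConvexOn.continuousOn`), at `0` use `0 ≤ Φ t ≤ t Φ 1` for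
`0 ≤ t ≤ 1`. `pos_of_ge`: monotonicity.
-/

set_option autoImplicit false

namespace Pool.Agent.OB9

open MeasureTheory Set Filter
open scoped ENNReal Topology

noncomputable section

variable {M Φ : ℝ → ℝ}

theorem QOrl.nonneg (h : QOrl M) {t : ℝ} (ht : 0 ≤ t) : 0 ≤ M t := by
  rw [← h.zero]
  exact h.mono (mem_Ici.2 le_rfl) (mem_Ici.2 ht) ht

theorem QOrl.super (h : QOrl M) {c t : ℝ} (hc : 1 ≤ c) (ht : 0 ≤ t) : c * M t ≤ M (c * t) := by
  have hc0 : 0 < c := by linarith
  have h1 := h.sub (1 / c) (c * t) (by positivity) (by rw [div_le_one hc0]; exact hc)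
    (by positivity)
  have e : 1 / c * (c * t) = t := by field_simp
  rw [e] at h1
  calc c * M t ≤ c * (1 / c * M (c * t)) := by gcongr
    _ = M (c * t) := by field_simp

theorem QOrl.ratio (h : QOrl M) {s t : ℝ} (hs : 0 < s) (hst : s ≤ t) : M s / s ≤ M t / t := by
  have ht : 0 < t := by linarith
  have h1 := h.sub (s / t) t (by positivity) (by rw [div_le_one ht]; exact hst) ht.le
  have e : s / t * t = s := by field_simp
  rw [e] at h1
  rw [div_le_div_iff₀ hs ht]
  calc M s * t ≤ (s / t * M t) * t := by gcongr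
    _ = M t * s := by field_simp

theorem QOrl.meas (h : QOrl M) : Measurable (fun t : ℝ => M |t|) := by
  have h1 : Monotone (fun s : ℝ => M (max s 0)) := by
    intro a b hab
    exact h.mono (mem_Ici.2 (le_max_right _ _)) (mem_Ici.2 (le_max_right _ _))
      (max_le_max hab le_rfl)
  have h2 : (fun t : ℝ => M |t|) = (fun s : ℝ => M (max s 0)) ∘ fun t => |t| := by
    funext t
    simp
  rw [h2]
  exact h1.measurable.comp measurable_abs

theorem QOrl.pos_of_ge (h : QOrl M) {s t : ℝ} (hs : 0 ≤ s) (h0 : 0 < M s) (hst : s ≤ t) :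
    0 < M t :=
  h0.trans_le (h.mono (mem_Ici.2 hs) (mem_Ici.2 (hs.trans hst)) hst)

theorem QOrl.tendsto (h : QOrl M) : Tendsto M atTop atTop := by
  obtain ⟨t0, ht0, hne⟩ := h.nontriv
  have hpos : 0 < M t0 := lt_of_le_of_ne (h.nonneg ht0) (Ne.symm hne)
  have ht0' : 0 < t0 := by
    rcases ht0.lt_or_eq with h1 | h1
    · exact h1
    · rw [← h1, h.zero] at hpos
      exact absurd hpos (lt_irrefl _)
  have h1 : Tendsto (fun t : ℝ => (M t0 / t0) * t) atTop atTop :=
    tendsto_id.const_mul_atTop (by positivity)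
  refine tendsto_atTop_mono' _ ?_ h1
  filter_upwards [eventually_ge_atTop t0] with t ht
  have h2 := h.ratio ht0' ht
  have ht' : 0 < t := by linarith
  rw [le_div_iff₀ ht'] at h2
  exact h2

theorem Orl.qorl (h : Orl Φ) : QOrl Φ := by
  have hsub : ∀ c t : ℝ, 0 ≤ c → c ≤ 1 → 0 ≤ t → Φ (c * t) ≤ c * Φ t := by
    intro c t h0 h1 ht
    have h2 := h.conv.2 (mem_Ici.2 ht) (mem_Ici.2 (le_refl (0 : ℝ))) h0
      (by linarith : 0 ≤ 1 - c) (by ring)
    simpa [h.zero] using h2
  refine ⟨h.mono, hsub, h.zero, ?_, h.nontriv⟩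
  intro t ht
  rcases (mem_Ici.1 ht).lt_or_eq with h0 | h0
  · have h1 := h.conv.continuousOn_interior
    rw [interior_Ici] at h1
    exact (h1.continuousAt (Ioi_mem_nhds h0)).continuousWithinAt
  · subst h0
    have hn : ∀ s, 0 ≤ s → 0 ≤ Φ s := by
      intro s hs
      rw [← h.zero]
      exact h.mono (mem_Ici.2 le_rfl) (mem_Ici.2 hs) hs
    show Tendsto Φ (𝓝[Ici 0] 0) (𝓝 (Φ 0))
    rw [h.zero]
    have h2 : Tendsto (fun s : ℝ => s * Φ 1) (𝓝[Ici 0] 0) (𝓝 0) := by
      have h3 : Continuous (fun s : ℝ => s * Φ 1) := by fun_prop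
      have h4 := h3.tendsto 0
      rw [zero_mul] at h4
      exact h4.mono_left nhdsWithin_le_nhds
    refine tendsto_of_tendsto_of_tendsto_of_le_of_le' tendsto_const_nhds h2 ?_ ?_
    · filter_upwards [self_mem_nhdsWithin] with s hs
      exact hn s hs
    · have h5 : ∀ᶠ s : ℝ in 𝓝[Ici 0] 0, s < 1 :=
        nhdsWithin_le_nhds (Iio_mem_nhds one_pos)
      filter_upwards [self_mem_nhdsWithin, h5] with s hs hs1
      have h6 := hsub s 1 hs hs1.le zero_le_one
      rwa [mul_one] at h6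

end

end Pool.Agent.OB9
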