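import Pool.Agent.OB9.SubG
import Pool.Agent.OB9.OrlB

/-!
# Module OB9/B2M

The main estimate for type II: one block. Here `Φ` is an Orlicz function, `g(t) = Φ(t)/t²`, `v < h`,
`g(v) = R g(h)`, and `D2 Φ τ N v h R` holds (only the first two listed properties are used). `n ≥ 1`
with `n Φ(v) ≤ 2 Φ(h)` and `Φ(h) ≤ 2 n Φ(v)`; `a_q ∈ [-2h, 2h]`, `A = (∑ a_q²)^{1/2}`,
`W = ∑ Φ|a_q|`, `V = (v/h) A`.

PROOF. `(v/h)² R = Φ(v)/Φ(h)` lies in `[1/(2n), 2/n]`.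
`block_small`: let `0 < λ ≤ √R/4`, `t = λ V ≥ τ`. Let `I = {q | a_q² > A²/(2n)}`: `∑_I a_q² ≥ A²/2`.
For `q ∈ I`: `|a_q| > A/√(2n) ≥ A (v/h) √R/2 = V √R/2 ≥ t` (as `1/(2n) ≥ (v/h)² R/4`: from
`n ≤ 2 Φ(h)/Φ(v)`). Then `g(t) ≤ 8 R g|a_q|`: if `|a_q| ≤ h` this is property two of `D2` (`τ ≤ t ≤
|a_q| ≤ h`); if `|a_q| ∈ (h, 2h]` and `t ≤ h` then `g(t) ≤ 2 R g(h) ≤ 8 R g|a_q|`
(`g|a_q| ≥ Φ(h)/(2h)²`); if `t > h` then `Φ t ≤ Φ|a_q|`, `|a_q| ≤ 2 t`, so `g(t) ≤ 4 g|a_q|`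
(`R ≥ 1`). So `Φ(t) A²/2 ≤ ∑_I a_q² t² g(t) ≤ 8 R t² ∑_I Φ|a_q| ≤ 8 R t² W`, i.e.
`Φ(t) ≤ 16 R λ² (v/h)² W ≤ 32 λ² W/n`.
`block_V`: if moreover `W ≤ 4 n Φ(v)` and `√R ≥ 4` then `V ≤ 128 v`: if `V ≥ τ`, `block_small` with
`λ = 1` gives `Φ(V) ≤ 32 W/n ≤ 128 Φ(v) ≤ Φ(128 v)`; if `V < τ`, use `τ ≤ v`. (If `Φ V = Φ(128 v)`
cannot be excluded use strictness: `Φ` is strictly increasing where positive, being convex.)
-/

set_option autoImplicit false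

namespace Pool.Agent.OB9

open MeasureTheory Set Filter
open scoped ENNReal Topology

noncomputable section

variable {Φ : ℝ → ℝ}

theorem block_small (hΦ : Orl Φ) {τ N v h R : ℝ} (hτ : 1 ≤ τ) (hτ0 : 0 < Φ τ) (hN : 1 ≤ N)
    (hD : D2 Φ τ N v h R) {n : ℕ} (hn1 : n * Φ v ≤ 2 * Φ h) (hn2 : Φ h ≤ 2 * n * Φ v)
    {a : ℕ → ℝ} (ha : ∀ q < n, |a q| ≤ 2 * h) {A W lm : ℝ} (hA : 0 ≤ A)
    (hA2 : ∑ q ∈ Finset.range n, a q ^ 2 = A ^ 2) (hW : ∑ q ∈ Finset.range n, Φ |a q| = W)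
    (hl : 0 < lm) (hlR : 16 * lm ^ 2 ≤ R) (ht : τ ≤ lm * (v / h * A)) :
    Φ (lm * (v / h * A)) ≤ 32 * lm ^ 2 * W / n := by
  have hQ := hΦ.qorl
  obtain ⟨hNv, hτv, hvh, hNR, hvR, hsec, -, -⟩ := hD
  have hv0 : 0 < v := by linarith
  have hh0 : 0 < h := by linarith
  have hR0 : 0 < R := by linarith
  have hΦv : 0 < Φ v := hQ.pos_of_ge (by linarith) hτ0 hτv
  have hΦh : 0 < Φ h := hQ.pos_of_ge hv0.le hΦv hvh.le
  have hn0 : 0 < (n : ℝ) := by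
    by_contra hn
    have : (n : ℝ) = 0 := le_antisymm (not_lt.1 hn) (Nat.cast_nonneg n)
    rw [this] at hn2
    linarith
  set t : ℝ := lm * (v / h * A) with htd
  have ht0 : 0 < t := by linarith
  have hA0 : 0 < A := by
    rcases hA.lt_or_eq with h1 | h1
    · exact h1
    · rw [← h1] at htd
      simp only [mul_zero] at htd
      linarith
  have hvhR : (v / h) ^ 2 * R = Φ v / Φ h := by
    rw [div_pow, eq_div_iff hΦh.ne', div_mul_eq_mul_div, div_mul_eq_mul_div, div_eq_iff (by positivity)]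
    rw [div_eq_iff (by positivity)] at hvR
    have e1 : R * (Φ h / h ^ 2) * v ^ 2 * h ^ 2 = R * Φ h * v ^ 2 := by
      field_simp
    calc v ^ 2 * R * Φ h = R * (Φ h / h ^ 2) * v ^ 2 * h ^ 2 := by rw [e1]; ring
      _ = Φ v * h ^ 2 := by rw [← hvR]
  have hratio : Φ v / Φ h ≤ 2 / n := by
    rw [div_le_div_iff₀ hΦh hn0]
    linarith
  have ht2 : 4 * t ^ 2 ≤ A ^ 2 / (2 * n) := by
    have e1 : t ^ 2 = lm ^ 2 * (v / h) ^ 2 * A ^ 2 := by rw [htd]; ring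
    have h1 : 16 * t ^ 2 ≤ Φ v / Φ h * A ^ 2 := by
      rw [e1, ← hvhR]
      have : 16 * lm ^ 2 * ((v / h) ^ 2 * A ^ 2) ≤ R * ((v / h) ^ 2 * A ^ 2) :=
        mul_le_mul_of_nonneg_right hlR (by positivity)
      linarith
    have h2 : Φ v / Φ h * A ^ 2 ≤ 2 / n * A ^ 2 := mul_le_mul_of_nonneg_right hratio (by positivity)
    have e2 : A ^ 2 / (2 * n) = (2 / n * A ^ 2) / 4 := by
      field_simp
      norm_num
    rw [e2]
    linarith
  -- the large coordinates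
  set I : Finset ℕ := (Finset.range n).filter (fun q => A ^ 2 / (2 * n) < a q ^ 2) with hI
  have hsplit : A ^ 2 / 2 ≤ ∑ q ∈ I, a q ^ 2 := by
    have h1 := Finset.sum_filter_add_sum_filter_not (Finset.range n)
      (fun q => A ^ 2 / (2 * n) < a q ^ 2) (fun q => a q ^ 2)
    rw [hA2] at h1
    have h2 : ∑ q ∈ (Finset.range n).filter (fun q => ¬ A ^ 2 / (2 * n) < a q ^ 2), a q ^ 2 ≤
        A ^ 2 / 2 := by
      have h3 : ∑ q ∈ (Finset.range n).filter (fun q => ¬ A ^ 2 / (2 * n) < a q ^ 2), a q ^ 2 ≤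
          ∑ _q ∈ Finset.range n, A ^ 2 / (2 * n) := by
        refine (Finset.sum_le_sum (fun q hq => not_lt.1 (Finset.mem_filter.1 hq).2)).trans ?_
        exact Finset.sum_le_sum_of_subset_of_nonneg (Finset.filter_subset _ _)
          (fun _ _ _ => by positivity)
      rw [Finset.sum_const, Finset.card_range, nsmul_eq_mul] at h3
      have e1 : (n : ℝ) * (A ^ 2 / (2 * n)) = A ^ 2 / 2 := by
        field_simp
      rwa [e1] at h3
    rw [← hI] at h1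
    linarith
  have hkey : ∀ q ∈ I, Φ t * a q ^ 2 ≤ 8 * R * t ^ 2 * Φ |a q| := by
    intro q hq
    rw [hI, Finset.mem_filter, Finset.mem_range] at hq
    have h1 : 2 * t < |a q| := by
      have : (2 * t) ^ 2 < |a q| ^ 2 := by
        rw [sq_abs]
        have e1 : (2 * t) ^ 2 = 4 * t ^ 2 := by ring
        rw [e1]
        exact lt_of_le_of_lt ht2 hq.2
      exact lt_of_pow_lt_pow_left₀ 2 (abs_nonneg _) this
    have h2 := ha q hq.1
    have hth : t ≤ h := by linarith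
    have haq : 0 < |a q| := by linarith
    have haq2 : 0 < a q ^ 2 := by rw [← sq_abs]; positivity
    have hgoal : Φ t / t ^ 2 ≤ 8 * R * (Φ |a q| / a q ^ 2) := by
      have hΦa : 0 ≤ Φ |a q| := hQ.nonneg haq.le
      rcases le_or_gt |a q| h with h3 | h3
      · have h4 := hsec t |a q| ht (by linarith) h3
        rw [sq_abs] at h4
        have h5 : 0 ≤ R * (Φ |a q| / a q ^ 2) := by positivity
        linarith
      · have h4 := hsec t h ht hth le_rfl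
        have h5 : Φ h / h ^ 2 ≤ 4 * (Φ |a q| / a q ^ 2) := by
          have h6 : Φ h ≤ Φ |a q| := hΦ.mono hh0.le (abs_nonneg (a q)) h3.le
          have h7 : a q ^ 2 ≤ 4 * h ^ 2 := by
            rw [← sq_abs]
            have := pow_le_pow_left₀ haq.le h2 2
            linarith [show (2 * h) ^ 2 = 4 * h ^ 2 by ring]
          rw [← mul_div_assoc, div_le_div_iff₀ (by positivity) haq2]
          have h8 : Φ h * a q ^ 2 ≤ Φ |a q| * (4 * h ^ 2) :=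
            mul_le_mul h6 h7 haq2.le hΦa
          linarith
        have h6 := mul_le_mul_of_nonneg_left h5 hR0.le
        linarith
    rw [div_le_iff₀ (by positivity)] at hgoal
    have h3 := mul_le_mul_of_nonneg_right hgoal haq2.le
    have e1 : ∀ X Y : ℝ, Y ≠ 0 → 8 * R * (X / Y) * t ^ 2 * Y = 8 * R * t ^ 2 * X := by
      intro X Y hY
      field_simp
    rwa [e1 _ _ haq2.ne'] at h3
  have hsum : Φ t * (A ^ 2 / 2) ≤ 8 * R * t ^ 2 * W := by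
    have hΦt : 0 ≤ Φ t := hQ.nonneg ht0.le
    calc Φ t * (A ^ 2 / 2) ≤ Φ t * ∑ q ∈ I, a q ^ 2 := mul_le_mul_of_nonneg_left hsplit hΦt
      _ = ∑ q ∈ I, Φ t * a q ^ 2 := Finset.mul_sum _ _ _
      _ ≤ ∑ q ∈ I, 8 * R * t ^ 2 * Φ |a q| := Finset.sum_le_sum hkey
      _ = 8 * R * t ^ 2 * ∑ q ∈ I, Φ |a q| := (Finset.mul_sum _ _ _).symm
      _ ≤ 8 * R * t ^ 2 * W := by
          apply mul_le_mul_of_nonneg_left _ (by positivity)
          rw [← hW]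
          exact Finset.sum_le_sum_of_subset_of_nonneg (Finset.filter_subset _ _)
            (fun q _ _ => hQ.nonneg (abs_nonneg _))
  have hW0 : 0 ≤ W := by
    rw [← hW]
    exact Finset.sum_nonneg fun q _ => hQ.nonneg (abs_nonneg _)
  have e1 : 8 * R * t ^ 2 * W = 16 * lm ^ 2 * (Φ v / Φ h) * W * (A ^ 2 / 2) := by
    rw [← hvhR, htd]
    ring
  rw [e1] at hsum
  have h1 : Φ t ≤ 16 * lm ^ 2 * (Φ v / Φ h) * W := le_of_mul_le_mul_right hsum (by positivity)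
  refine h1.trans ?_
  have h2 : 16 * lm ^ 2 * (Φ v / Φ h) * W ≤ 16 * lm ^ 2 * (2 / n) * W := by gcongr
  refine h2.trans (le_of_eq ?_)
  ring

theorem block_V (hΦ : Orl Φ) {τ N v h R : ℝ} (hτ : 1 ≤ τ) (hτ0 : 0 < Φ τ) (hN : 16 ≤ N)
    (hD : D2 Φ τ N v h R) {n : ℕ} (hn1 : n * Φ v ≤ 2 * Φ h) (hn2 : Φ h ≤ 2 * n * Φ v)
    {a : ℕ → ℝ} (ha : ∀ q < n, |a q| ≤ 2 * h) {A W : ℝ} (hA : 0 ≤ A)
    (hA2 : ∑ q ∈ Finset.range n, a q ^ 2 = A ^ 2) (hW : ∑ q ∈ Finset.range n, Φ |a q| = W)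
    (hW4 : W ≤ 4 * n * Φ v) : v / h * A ≤ 128 * v := by
  have hQ := hΦ.qorl
  have hD' := hD
  obtain ⟨hNv, hτv, hvh, hNR, -, -, -, -⟩ := hD'
  have hv0 : 0 < v := by linarith
  have hΦv : 0 < Φ v := hQ.pos_of_ge (by linarith) hτ0 hτv
  have hΦh : 0 < Φ h := hQ.pos_of_ge hv0.le hΦv hvh.le
  have hn0 : 0 < (n : ℝ) := by
    by_contra hn
    have : (n : ℝ) = 0 := le_antisymm (not_lt.1 hn) (Nat.cast_nonneg n)
    rw [this] at hn2
    linarith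
  by_contra hlt
  rw [not_le] at hlt
  have h1 := block_small hΦ hτ hτ0 (by linarith) hD hn1 hn2 ha hA hA2 hW (lm := 1) one_pos
    (by linarith) (by rw [one_mul]; linarith)
  rw [one_mul] at h1
  set V : ℝ := v / h * A with hV
  have h2 : 32 * (1 : ℝ) ^ 2 * W / n ≤ 128 * Φ v := by
    rw [div_le_iff₀ hn0]
    linarith
  have hVv : v ≤ V := by linarith
  have h3 := hQ.ratio hv0 hVv
  rw [div_le_div_iff₀ hv0 (by linarith)] at h3
  have h4 : Φ v * (128 * v) < Φ v * V := mul_lt_mul_of_pos_left hlt hΦv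
  have h5 : Φ V * v ≤ 128 * Φ v * v := mul_le_mul_of_nonneg_right (h1.trans h2) hv0.le
  linarith

end

end Pool.Agent.OB9
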