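import Pool.Agent.OB9.B2M

/-!
# Module OB9/B2N

Summing the tail for one block.

PROOF. Notation of `B2M`; `S(t) = ∑_q a_q rad (b+1+q)(t)` on `cell b c`, `y = (v/h) S`, so
`|y| = V s`, `s = |S|/A` (if `A = 0` then `y = 0` and nothing to prove). Let `Y = {t ∈ cell b c, |y| > Λ}`,
`Λ ≥ τ`. On `Y` with `s < 1`: `Φ|y| ≤ Φ(V)` and `V ≥ |y| > τ`: `≤ 32 W/n` (`block_small`, `λ = 1`). On
`Y` with `2^m ≤ s < 2^(m+1)`, `m ≥ 0` (measure `≤ 2 exp(-4^m/2) 2^{-b}` by `subgauss`):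
`Φ|y| ≤ Φ(2^(m+1) V)`, `2^(m+1) V ≥ |y| > τ`. Let `m₁` be the largest `m ≥ 0` with
`16 (2^(m+1))² ≤ R` (exists if `R ≥ 64`). If `m ≤ m₁`: `Φ(2^(m+1) V) ≤ 32 · 4^(m+1) W/n`. If
`m = m₁ + j`, `j ≥ 1`: apply the doubling property of `D2` `j` times,
`Φ(2^(m+1) V) ≤ R^(2j) Φ(2^(m₁+1) V')`. Precisely: as long as `τ ≤ 2^i V ≤ h`,
`Φ(2^(i+1) V) ≤ R² Φ(2^i V)`. Here `2^m ≤ s ≤ √n` (Cauchy-Schwarz) and
`2^m V ≤ √n · 128 v ≤ √2 (h/v) R^{-1/2} 128 v ≤ h` if `R ≥ 2·128²` (`n ≤ 2 Φ(h)/Φ(v) = 2 (h/v)²/R`), so all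
`2^i V`, `i ≤ m`, are `≤ h`. If `2^(m₁+1) V ≥ τ` we get
`Φ(2^(m+1) V) ≤ R^(2j) 32 · 4^(m₁+1) W/n ≤ R^(2j) · 2 R W/n` (`16·4^(m₁+1) ≤ R`). If
`2^(m₁+1) V < τ` let `i₀ ≥ m₁+1` be the first with `2^(i₀) V ≥ τ`; then `i₀ ≤ m + 1`, `2^{i₀} V < 2τ` and
`|y| > Λ ≥ τ`; use instead `λ = √R/4`.. : to avoid this case note that it only occurs when
`|y| ≤ 2^(m+1) V` with `V < τ 2^{-m₁-1}`; here we use the crude bound
`Φ(2^(m+1) V) ≤ R^(2(m+1-i₀)) Φ(2 τ)`, and the total contribution of these terms is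
`≤ ∑_{m ≥ m₁+1} R^(2(m+1)) Φ(2τ) 2 exp(-4^m/2) 2^{-b} ≤ ε 2^{-b}` where `ε → 0` as `R → ∞`
(`4^(m₁) ≥ R/256`). The exponential factors: for `m = m₁ + j`, `4^m ≥ 4^j R/256`, so
`∑_{j ≥ 1} R^(2j+1) exp(-4^j R/512) ≤ 1` for `R ≥ R₀`, and `∑_m 4^(m+1) exp(-4^m/2)` is a finite constant.
So `∫_Y Φ|y| ≤ 2^{-b} (C₂ W/n + ε)`, with an absolute `C₂ = 10^4` (generous) and `ε` as small as we
like if `R ≥ R₀(Φ, τ, ε)`.
-/

set_option autoImplicit false

namespace Pool.Agent.OB9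

open MeasureTheory Set Filter
open scoped ENNReal Topology

noncomputable section

variable {Φ : ℝ → ℝ}

private theorem b2n_half (n : ℕ) : ∑ m ∈ Finset.range n, (1 / 2 : ℝ) ^ m ≤ 2 := by
  have h : ∀ n : ℕ, ∑ m ∈ Finset.range n, (1 / 2 : ℝ) ^ m = 2 - 2 * (1 / 2 : ℝ) ^ n := by
    intro n
    induction n with
    | zero => simp
    | succ n ih => rw [Finset.sum_range_succ, ih, pow_succ]; ring
  rw [h]
  have : (0 : ℝ) ≤ (1 / 2 : ℝ) ^ n := by positivity
  linarith

private theorem b2n_shift (M n : ℕ) :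
    ∑ m ∈ Finset.range n, (if M ≤ m then (1 / 2 : ℝ) ^ (m - M) else 0) ≤ 2 := by
  have h : ∀ n : ℕ, ∑ m ∈ Finset.range n, (if M ≤ m then (1 / 2 : ℝ) ^ (m - M) else 0) =
      ∑ m ∈ Finset.range (n - M), (1 / 2 : ℝ) ^ m := by
    intro n
    induction n with
    | zero => simp
    | succ n ih =>
      rw [Finset.sum_range_succ, ih]
      split_ifs with h1
      · rw [show n + 1 - M = (n - M) + 1 by omega, Finset.sum_range_succ]
      · rw [show n + 1 - M = n - M by omega, add_zero]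
  rw [h]
  exact b2n_half _

private theorem b2n_exp4 (m : ℕ) : Real.exp (-((2 : ℝ) ^ m) ^ 2 / 2) ≤ 8 / 16 ^ m := by
  have h1 : (0 : ℝ) < 4 ^ m / 2 := by positivity
  have h2 := Real.quadratic_le_exp_of_nonneg h1.le
  have h3 : ((2 : ℝ) ^ m) ^ 2 = 4 ^ m := by
    rw [← pow_mul, mul_comm, pow_mul]; norm_num
  rw [h3, neg_div, Real.exp_neg, ← one_div, div_le_div_iff₀ (Real.exp_pos _) (by positivity),
    one_mul]
  have h4 : (16 : ℝ) ^ m = (4 ^ m) ^ 2 := by
    rw [← pow_mul, mul_comm, pow_mul]; norm_num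
  rw [h4]
  nlinarith [h2, h1]

/-- The purely real estimate: sum of the bounds for the dyadic pieces. -/
private theorem b2n_real {w R P ε : ℝ} (hw : 0 ≤ w) (hP : 0 ≤ P) (hR1 : 1 ≤ R) {M : ℕ}
    (hM : R / 16 < 4 ^ (M + 1))
    (hRa : R ^ 2 * Real.exp (-(3 * R / 128)) ≤ 1 / 2)
    (hRb : 8 * R ^ 3 * Real.exp (-(R / 128)) ≤ 1)
    (hRc : 4 * R ^ 2 * Real.exp (-(R / 128)) * P ≤ ε) (n : ℕ) :
    32 * w + ∑ m ∈ Finset.range n, (if m + 1 ≤ M then 32 * ((2 : ℝ) ^ (m + 1)) ^ 2 * w else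
      R ^ (2 * (m + 1 - M)) * (2 * R * w + P)) * (2 * Real.exp (-((2 : ℝ) ^ m) ^ 2 / 2)) ≤
      10 ^ 4 * w + ε := by
  set G : ℝ := 2 * R ^ 2 * Real.exp (-(R / 128)) * (2 * R * w + P) with hG
  have hG0 : 0 ≤ G := by positivity
  have hterm : ∀ m ∈ Finset.range n, (if m + 1 ≤ M then 32 * ((2 : ℝ) ^ (m + 1)) ^ 2 * w else
      R ^ (2 * (m + 1 - M)) * (2 * R * w + P)) * (2 * Real.exp (-((2 : ℝ) ^ m) ^ 2 / 2)) ≤
      2048 * w * (1 / 2) ^ m + G * (if M ≤ m then (1 / 2 : ℝ) ^ (m - M) else 0) := by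
    intro m _
    split_ifs with h1 h2 h2
    · omega
    · rw [mul_zero, add_zero]
      have h3 := b2n_exp4 m
      have h4 : ((2 : ℝ) ^ (m + 1)) ^ 2 = 4 * 4 ^ m := by
        rw [← pow_mul, mul_comm, pow_mul, pow_succ]; norm_num; ring
      have h5 : (16 : ℝ) ^ m = 4 ^ m * 4 ^ m := by
        rw [← mul_pow]; norm_num
      calc 32 * ((2 : ℝ) ^ (m + 1)) ^ 2 * w * (2 * Real.exp (-((2 : ℝ) ^ m) ^ 2 / 2))
          ≤ 32 * (4 * 4 ^ m) * w * (2 * (8 / 16 ^ m)) := by
            rw [h4]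
            gcongr
        _ = 2048 * w * (1 / 4 ^ m) := by
            rw [h5]
            field_simp
            ring
        _ ≤ 2048 * w * (1 / 2) ^ m := by
            rw [← one_div_pow]
            gcongr
            norm_num
    · have h3 : ((2 : ℝ) ^ m) ^ 2 = 4 ^ M * 4 ^ (m - M) := by
        rw [← pow_add, ← pow_mul, show M + (m - M) = m by omega, mul_comm, pow_mul]
        norm_num
      have h4 : (1 : ℝ) + 3 * ((m - M : ℕ) : ℝ) ≤ 4 ^ (m - M) := by
        have := one_add_mul_le_pow (show (-2 : ℝ) ≤ 3 by norm_num) (m - M)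
        norm_num at this
        linarith
      have h5 : R / 64 ≤ 4 ^ M := by
        rw [pow_succ] at hM
        linarith
      have h6 : R / 64 * (1 + 3 * ((m - M : ℕ) : ℝ)) ≤ ((2 : ℝ) ^ m) ^ 2 := by
        rw [h3]
        exact mul_le_mul h5 h4 (by positivity) (by positivity)
      have h7 : Real.exp (-((2 : ℝ) ^ m) ^ 2 / 2) ≤
          Real.exp (-(R / 128)) * Real.exp (-(3 * R / 128)) ^ (m - M) := by
        rw [← Real.exp_nat_mul, ← Real.exp_add, Real.exp_le_exp]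
        linarith
      have h8 : R ^ (2 * (m + 1 - M)) = R ^ 2 * (R ^ 2) ^ (m - M) := by
        rw [show m + 1 - M = (m - M) + 1 by omega, pow_mul, pow_succ]
        ring
      rw [h8]
      have h9 : 0 ≤ 2 * R * w + P := by positivity
      have h10 : (R ^ 2 * Real.exp (-(3 * R / 128))) ^ (m - M) ≤ (1 / 2 : ℝ) ^ (m - M) :=
        pow_le_pow_left₀ (by positivity) hRa _
      calc R ^ 2 * (R ^ 2) ^ (m - M) * (2 * R * w + P) *
            (2 * Real.exp (-((2 : ℝ) ^ m) ^ 2 / 2))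
          ≤ R ^ 2 * (R ^ 2) ^ (m - M) * (2 * R * w + P) *
            (2 * (Real.exp (-(R / 128)) * Real.exp (-(3 * R / 128)) ^ (m - M))) := by gcongr
        _ = G * (R ^ 2 * Real.exp (-(3 * R / 128))) ^ (m - M) := by
            rw [hG, mul_pow]
            ring
        _ ≤ G * (1 / 2 : ℝ) ^ (m - M) := by gcongr
        _ ≤ 2048 * w * (1 / 2) ^ m + G * (1 / 2 : ℝ) ^ (m - M) := by
            have : 0 ≤ 2048 * w * (1 / 2 : ℝ) ^ m := by positivity
            linarith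
    · omega
  have hsum := Finset.sum_le_sum hterm
  rw [Finset.sum_add_distrib, ← Finset.mul_sum, ← Finset.mul_sum] at hsum
  have h1 := mul_le_mul_of_nonneg_left (b2n_half n) (show 0 ≤ 2048 * w by positivity)
  have h2 := mul_le_mul_of_nonneg_left (b2n_shift M n) hG0
  have h3 : G * 2 ≤ w + ε := by
    have h4 : G * 2 = (8 * R ^ 3 * Real.exp (-(R / 128))) * w +
        4 * R ^ 2 * Real.exp (-(R / 128)) * P := by
      rw [hG]
      ring
    rw [h4]
    have := mul_le_mul_of_nonneg_right hRb hw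
    linarith
  have h5 : (10 : ℝ) ^ 4 * w = 10000 * w := by norm_num
  linarith

private theorem b2n_lim (k : ℕ) {θ : ℝ} (hθ : 0 < θ) :
    Tendsto (fun R : ℝ => R ^ k * Real.exp (-(R * θ))) atTop (𝓝 0) := by
  have h1 := Real.tendsto_pow_mul_exp_neg_atTop_nhds_zero k
  have h2 : Tendsto (fun R : ℝ => R * θ) atTop atTop := tendsto_id.atTop_mul_const hθ
  have h3 := (h1.comp h2).const_mul ((1 / θ) ^ k)
  rw [mul_zero] at h3
  refine h3.congr fun R => ?_
  simp only [Function.comp, mul_pow, one_div, inv_pow]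
  field_simp

private theorem b2n_R0 {P ε : ℝ} (hε : 0 < ε) : ∃ R₀ : ℝ, 32768 ≤ R₀ ∧
    ∀ R, R₀ ≤ R → R ^ 2 * Real.exp (-(3 * R / 128)) ≤ 1 / 2 ∧
      8 * R ^ 3 * Real.exp (-(R / 128)) ≤ 1 ∧
      4 * R ^ 2 * Real.exp (-(R / 128)) * P ≤ ε := by
  have h1 := (b2n_lim 2 (show (0 : ℝ) < 3 / 128 by norm_num)).eventually
    (eventually_le_nhds (show (0 : ℝ) < 1 / 2 by norm_num))
  have h2 := ((b2n_lim 3 (show (0 : ℝ) < 1 / 128 by norm_num)).const_mul 8).eventually
    (eventually_le_nhds (show (8 * 0 : ℝ) < 1 by norm_num))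
  have h3 := ((b2n_lim 2 (show (0 : ℝ) < 1 / 128 by norm_num)).const_mul (4 * P)).eventually
    (eventually_le_nhds (show (4 * P * 0 : ℝ) < ε by simpa using hε))
  obtain ⟨R₁, hR₁⟩ := eventually_atTop.1 (h1.and (h2.and h3))
  refine ⟨max R₁ 32768, le_max_right _ _, fun R hR => ?_⟩
  obtain ⟨e1, e2, e3⟩ := hR₁ R ((le_max_left _ _).trans hR)
  refine ⟨?_, ?_, ?_⟩
  · have : -(3 * R / 128) = -(R * (3 / 128)) := by ring
    rw [this]; exact e1
  · have : -(R / 128) = -(R * (1 / 128)) := by ring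
    rw [this, mul_assoc]; exact e2
  · have h4 : -(R / 128) = -(R * (1 / 128)) := by ring
    have h5 : 4 * R ^ 2 * Real.exp (-(R / 128)) * P =
        4 * P * (R ^ 2 * Real.exp (-(R * (1 / 128)))) := by rw [h4]; ring
    rw [h5]; exact e3

theorem block_tail (hΦ : Orl Φ) {τ : ℝ} (hτ : 1 ≤ τ) (hτ0 : 0 < Φ τ) {ε : ℝ} (hε : 0 < ε) :
    ∃ R₀ : ℝ, ∀ (N v h R : ℝ), R₀ ≤ N → D2 Φ τ N v h R →
      ∀ (n b c : ℕ), c < 2 ^ b → n * Φ v ≤ 2 * Φ h → Φ h ≤ 2 * n * Φ v →
      ∀ (a : ℕ → ℝ) (W Λ : ℝ), (∀ q < n, |a q| ≤ 2 * h) →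
        ∑ q ∈ Finset.range n, Φ |a q| = W → W ≤ 4 * n * Φ v → τ ≤ Λ →
        ∫⁻ t, (if idx b t = c ∧ Λ < |v / h * ∑ q ∈ Finset.range n, a q * rad (b + 1 + q) t|
          then ENNReal.ofReal (Φ |v / h * ∑ q ∈ Finset.range n, a q * rad (b + 1 + q) t|)
          else 0) ∂lam ≤ ENNReal.ofReal ((10 ^ 4 * W / n + ε) / 2 ^ b) := by
  have hq := hΦ.qorl
  have hP : 0 ≤ Φ (2 * τ) := hq.nonneg (by linarith)
  obtain ⟨R₀, hR₀, hR⟩ := b2n_R0 (P := Φ (2 * τ)) hε
  refine ⟨R₀, ?_⟩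
  intro N v h R hN hD n b c hc hn1 hn2 a W Λ ha hW hW4 hΛ
  obtain ⟨hNv, hτv, hvh, hNR, hgR, hdrop, hdoub, hlow⟩ := hD
  have hD : D2 Φ τ N v h R := ⟨hNv, hτv, hvh, hNR, hgR, hdrop, hdoub, hlow⟩
  have hN16 : 16 ≤ N := by linarith
  have hRbig : R₀ ≤ R := hN.trans hNR
  have hR1 : 1 ≤ R := by linarith
  obtain ⟨hRa, hRb, hRc⟩ := hR R hRbig
  have hv0 : 0 < v := by linarith
  have hh0 : 0 < h := by linarith
  have hΦv : 0 < Φ v := hq.pos_of_ge (by linarith) hτ0 hτv
  have hΦh : 0 < Φ h := hq.pos_of_ge hv0.le hΦv hvh.le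
  -- `n` is positive
  rcases Nat.eq_zero_or_pos n with hn0 | hn0
  · subst hn0
    have : Φ h ≤ 0 := by simpa using hn2
    linarith
  have hnR : (0 : ℝ) < n := by exact_mod_cast hn0
  have hW0 : 0 ≤ W := by
    rw [← hW]
    exact Finset.sum_nonneg fun q _ => hq.nonneg (abs_nonneg _)
  set S : ℝ → ℝ := fun t => ∑ q ∈ Finset.range n, a q * rad (b + 1 + q) t with hS
  set A : ℝ := √(∑ q ∈ Finset.range n, a q ^ 2) with hAdef
  have hA : 0 ≤ A := Real.sqrt_nonneg _
  have hA2 : ∑ q ∈ Finset.range n, a q ^ 2 = A ^ 2 :=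
    (Real.sq_sqrt (Finset.sum_nonneg fun q _ => sq_nonneg _)).symm
  have hSm : Measurable S := Finset.measurable_sum _ fun q _ => (measurable_rad _).const_mul _
  -- Cauchy-Schwarz
  have hCS : ∀ t, S t ^ 2 ≤ n * A ^ 2 := by
    intro t
    have h1 : |S t| ≤ ∑ q ∈ Finset.range n, |a q| := by
      refine (Finset.abs_sum_le_sum_abs _ _).trans (Finset.sum_le_sum fun q _ => ?_)
      rw [abs_mul, abs_rad, mul_one]
    have h2 : (∑ q ∈ Finset.range n, |a q|) ^ 2 ≤
        ((Finset.range n).card : ℝ) * ∑ q ∈ Finset.range n, |a q| ^ 2 :=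
      sq_sum_le_card_mul_sum_sq
    rw [Finset.card_range] at h2
    simp only [sq_abs] at h2
    rw [hA2] at h2
    refine le_trans ?_ h2
    rw [← sq_abs]
    exact pow_le_pow_left₀ (abs_nonneg _) h1 2
  have hrhs : 0 ≤ (10 ^ 4 * W / n + ε) / 2 ^ b := by positivity
  rcases hA.lt_or_eq with hApos | hA0
  swap
  · -- trivial case
    have hS0 : ∀ t, S t = 0 := by
      intro t
      have h1 := hCS t
      rw [← hA0] at h1
      have h2 : S t ^ 2 ≤ 0 := by simpa using h1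
      exact pow_eq_zero_iff (two_ne_zero) |>.1 (le_antisymm h2 (sq_nonneg _))
    have h1 : ∀ t, (if idx b t = c ∧ Λ < |v / h * S t|
          then ENNReal.ofReal (Φ |v / h * S t|) else 0) = 0 := by
      intro t
      rw [if_neg]
      rintro ⟨_, h2⟩
      rw [hS0, mul_zero, abs_zero] at h2
      linarith
    calc ∫⁻ t, (if idx b t = c ∧ Λ < |v / h * S t|
          then ENNReal.ofReal (Φ |v / h * S t|) else 0) ∂lam = 0 := by
          rw [lintegral_congr h1, lintegral_zero]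
      _ ≤ _ := zero_le
  -- the main case
  set V : ℝ := v / h * A with hV
  have hV0 : 0 < V := by positivity
  have hV128 : V ≤ 128 * v := block_V hΦ hτ hτ0 hN16 hD hn1 hn2 ha hA hA2 hW hW4
  obtain ⟨M, hM1, hM2⟩ := exists_nat_pow_near (show (1 : ℝ) ≤ R / 16 by linarith)
    (show (1 : ℝ) < 4 by norm_num)
  have hM4 : 16 * (4 : ℝ) ^ M ≤ R := by linarith
  have hsmall : ∀ j, j ≤ M → τ ≤ 2 ^ j * V → Φ (2 ^ j * V) ≤ 32 * ((2 : ℝ) ^ j) ^ 2 * (W / n) := by
    intro j hj hjτ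
    have h1 : 16 * ((2 : ℝ) ^ j) ^ 2 ≤ R := by
      have h2 : ((2 : ℝ) ^ j) ^ 2 = 4 ^ j := by
        rw [← pow_mul, mul_comm, pow_mul]; norm_num
      rw [h2]
      have h3 : (4 : ℝ) ^ j ≤ 4 ^ M := pow_le_pow_right₀ (by norm_num) hj
      linarith
    have h2 := block_small hΦ hτ hτ0 (by linarith) hD hn1 hn2 ha hA hA2 hW
      (show (0 : ℝ) < 2 ^ j by positivity) h1 hjτ
    rw [mul_div_assoc'] 
    exact h2
  have hbig : ∀ j, M ≤ j → (∀ i, i < j → 2 ^ i * V ≤ h) →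
      Φ (2 ^ j * V) ≤ R ^ (2 * (j - M)) * (2 * R * (W / n) + Φ (2 * τ)) := by
    intro j hj
    induction j, hj using Nat.le_induction with
    | base =>
      intro _
      rw [Nat.sub_self, mul_zero, pow_zero, one_mul]
      by_cases h1 : τ ≤ 2 ^ M * V
      · have h2 := hsmall M le_rfl h1
        have h3 : ((2 : ℝ) ^ M) ^ 2 = 4 ^ M := by
          rw [← pow_mul, mul_comm, pow_mul]; norm_num
        rw [h3] at h2
        have h4 : 32 * (4 : ℝ) ^ M * (W / n) ≤ 2 * R * (W / n) := by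
          apply mul_le_mul_of_nonneg_right _ (by positivity)
          linarith
        linarith
      · push Not at h1
        have h2 : Φ (2 ^ M * V) ≤ Φ (2 * τ) :=
          hq.mono (mem_Ici.2 (by positivity)) (mem_Ici.2 (by linarith)) (by linarith)
        have : 0 ≤ 2 * R * (W / n) := by positivity
        linarith
    | succ j hj ih =>
      intro hi
      have ih' := ih fun i hij => hi i (by omega)
      have h5 : 0 ≤ 2 * R * (W / n) + Φ (2 * τ) := by positivity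
      have h6 : R ^ (2 * (j + 1 - M)) = R ^ (2 * (j - M)) * R ^ 2 := by
        rw [← pow_add]
        congr 1
        omega
      rw [h6]
      by_cases h1 : τ ≤ 2 ^ j * V
      · have h2 := hdoub (2 ^ j * V) h1 (hi j (by omega))
        have h3 : 2 * (2 ^ j * V) = 2 ^ (j + 1) * V := by ring
        rw [h3] at h2
        calc Φ (2 ^ (j + 1) * V) ≤ R ^ 2 * Φ (2 ^ j * V) := h2
          _ ≤ R ^ 2 * (R ^ (2 * (j - M)) * (2 * R * (W / n) + Φ (2 * τ))) := by gcongr
          _ = _ := by ring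
      · push Not at h1
        have h2 : Φ (2 ^ (j + 1) * V) ≤ Φ (2 * τ) :=
          hq.mono (mem_Ici.2 (by positivity)) (mem_Ici.2 (by linarith))
            (by rw [pow_succ]; linarith)
        have h3 : 1 ≤ R ^ (2 * (j - M)) * R ^ 2 :=
          one_le_mul_of_one_le_of_one_le (one_le_pow₀ hR1) (one_le_pow₀ hR1)
        have h4 : 0 ≤ 2 * R * (W / n) := by positivity
        calc Φ (2 ^ (j + 1) * V) ≤ 1 * (2 * R * (W / n) + Φ (2 * τ)) := by linarith
          _ ≤ _ := by gcongr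
  -- heights
  have hheight : ∀ m : ℕ, (4 : ℝ) ^ m ≤ n → 2 ^ m * V ≤ h := by
    intro m hm
    have h1 : (n : ℝ) * (v ^ 2 * R) ≤ 2 * h ^ 2 := by
      have h2 : Φ v * h ^ 2 = R * Φ h * v ^ 2 := by
        field_simp at hgR
        linarith
      have h3 : (n : ℝ) * Φ v * h ^ 2 ≤ 2 * Φ h * h ^ 2 := by gcongr
      have h4 : Φ h * ((n : ℝ) * (v ^ 2 * R)) ≤ Φ h * (2 * h ^ 2) := by nlinarith
      exact le_of_mul_le_mul_left h4 hΦh
    have h5 : (2 ^ m * V) ^ 2 ≤ h ^ 2 := by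
      have h6 : ((2 : ℝ) ^ m) ^ 2 = 4 ^ m := by
        rw [← pow_mul, mul_comm, pow_mul]; norm_num
      have h7 : V ^ 2 ≤ (128 * v) ^ 2 := pow_le_pow_left₀ hV0.le hV128 2
      calc (2 ^ m * V) ^ 2 = 4 ^ m * V ^ 2 := by rw [mul_pow, h6]
        _ ≤ n * (128 * v) ^ 2 := by gcongr
        _ = n * v ^ 2 * 32768 / 2 := by ring
        _ ≤ n * v ^ 2 * R / 2 := by
            have : (32768 : ℝ) ≤ R := by linarith
            gcongr
        _ ≤ h ^ 2 := by linarith
    exact le_of_sq_le_sq h5 hh0.le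
  set K : ℕ → ℝ := fun m => if m + 1 ≤ M then 32 * ((2 : ℝ) ^ (m + 1)) ^ 2 * (W / n) else
      R ^ (2 * (m + 1 - M)) * (2 * R * (W / n) + Φ (2 * τ)) with hK
  have hK0 : ∀ m, 0 ≤ K m := by
    intro m
    simp only [hK]
    split_ifs <;> positivity
  have hKle : ∀ m : ℕ, (4 : ℝ) ^ m ≤ n → τ ≤ 2 ^ (m + 1) * V → Φ (2 ^ (m + 1) * V) ≤ K m := by
    intro m hm hmτ
    simp only [hK]
    split_ifs with h1
    · exact hsmall (m + 1) h1 hmτ
    · refine hbig (m + 1) (by omega) fun i hi => hheight i ?_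
      exact (pow_le_pow_right₀ (by norm_num) (by omega)).trans hm
  set E : Set ℝ := {t | idx b t = c} with hE
  set F : ℕ → Set ℝ := fun m => {t | idx b t = c ∧ 2 ^ m * A ≤ |S t|} with hF
  have hEm : MeasurableSet E := measurableSet_eq_fun (measurable_idx b) measurable_const
  have hFm : ∀ m, MeasurableSet (F m) := fun m =>
    MeasurableSet.inter (measurableSet_eq_fun (measurable_idx b) measurable_const)
      (measurableSet_le measurable_const (measurable_abs.comp hSm))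
  have hpt : ∀ t, (if idx b t = c ∧ Λ < |v / h * S t|
          then ENNReal.ofReal (Φ |v / h * S t|) else 0) ≤
      E.indicator (fun _ => ENNReal.ofReal (32 * (W / n))) t +
        ∑ m ∈ Finset.range n, (F m).indicator (fun _ => ENNReal.ofReal (K m)) t := by
    intro t
    split_ifs with h1
    swap
    · exact zero_le
    obtain ⟨h1, h2⟩ := h1
    have habs : |v / h * S t| = v / h * |S t| := by
      rw [abs_mul, abs_of_pos (by positivity)]
    rw [habs] at h2 ⊢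
    by_cases h3 : |S t| < A
    · -- `s < 1`
      refine le_trans ?_ le_self_add
      rw [Set.indicator_of_mem (show t ∈ E from h1)]
      apply ENNReal.ofReal_le_ofReal
      have h4 : v / h * |S t| ≤ V := by
        rw [hV]
        gcongr
      have h5 : τ ≤ 2 ^ 0 * V := by
        rw [pow_zero, one_mul]
        linarith
      have h6 := hsmall 0 (Nat.zero_le _) h5
      rw [pow_zero, one_mul, one_pow, mul_one] at h6
      refine le_trans (hq.mono (mem_Ici.2 (by positivity)) (mem_Ici.2 hV0.le) h4) h6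
    · push Not at h3
      obtain ⟨m, hm1, hm2⟩ := exists_nat_pow_near
        (show (1 : ℝ) ≤ |S t| / A by rwa [le_div_iff₀ hApos, one_mul])
        (show (1 : ℝ) < 2 by norm_num)
      rw [le_div_iff₀ hApos] at hm1
      rw [div_lt_iff₀ hApos] at hm2
      have hm4 : (4 : ℝ) ^ m ≤ n := by
        have h4 : (2 ^ m * A) ^ 2 ≤ n * A ^ 2 := by
          refine le_trans ?_ (hCS t)
          rw [← sq_abs (S t)]
          exact pow_le_pow_left₀ (by positivity) hm1 2
        have h6 : ((2 : ℝ) ^ m) ^ 2 = 4 ^ m := by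
          rw [← pow_mul, mul_comm, pow_mul]; norm_num
        rw [mul_pow, h6] at h4
        exact le_of_mul_le_mul_right h4 (by positivity)
      have hmn : m < n := by
        have h4 : (m : ℝ) < 4 ^ m := by
          exact_mod_cast Nat.lt_pow_self (show 1 < 4 by norm_num)
        exact_mod_cast h4.trans_le hm4
      refine le_trans ?_ le_add_self
      refine le_trans ?_ (Finset.single_le_sum
        (f := fun m => (F m).indicator (fun _ => ENNReal.ofReal (K m)) t)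
        (fun _ _ => zero_le) (Finset.mem_range.2 hmn))
      rw [Set.indicator_of_mem (show t ∈ F m from ⟨h1, hm1⟩)]
      apply ENNReal.ofReal_le_ofReal
      have h4 : v / h * |S t| ≤ 2 ^ (m + 1) * V := by
        calc v / h * |S t| ≤ v / h * (2 ^ (m + 1) * A) := by gcongr
          _ = _ := by rw [hV]; ring
      refine le_trans (hq.mono (mem_Ici.2 (by positivity)) (mem_Ici.2 (by positivity)) h4)
        (hKle m hm4 (by linarith))
  have hlamE : lam E = ENNReal.ofReal (1 / 2 ^ b) := by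
    have h1 : lam E = ∫⁻ t, (fun k : ℕ => if k = c then (1 : ℝ≥0∞) else 0) (idx b t) ∂lam := by
      rw [← lintegral_indicator_one hEm]
      refine lintegral_congr fun t => ?_
      by_cases ht : idx b t = c
      · rw [Set.indicator_of_mem (show t ∈ E from ht)]
        simp [ht]
      · rw [Set.indicator_of_notMem (show t ∉ E from ht)]
        simp [ht]
    rw [h1, lintegral_idx b (fun k : ℕ => if k = c then (1 : ℝ≥0∞) else 0),
      Finset.sum_ite_eq' (Finset.range (2 ^ b)) c (fun _ => (1 : ℝ≥0∞)),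
      if_pos (Finset.mem_range.2 hc), one_mul]
  have hlamF : ∀ m, lam (F m) ≤ ENNReal.ofReal (2 * Real.exp (-((2 : ℝ) ^ m) ^ 2 / 2) / 2 ^ b) := by
    intro m
    exact subgauss hc a (by positivity) hApos hA2
  have hreal := b2n_real (w := W / n) (P := Φ (2 * τ)) (M := M) (ε := ε) (by positivity) hP hR1
    hM2 hRa hRb hRc n
  calc ∫⁻ t, (if idx b t = c ∧ Λ < |v / h * S t|
          then ENNReal.ofReal (Φ |v / h * S t|) else 0) ∂lam
      ≤ ∫⁻ t, (E.indicator (fun _ => ENNReal.ofReal (32 * (W / n))) t +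
        ∑ m ∈ Finset.range n, (F m).indicator (fun _ => ENNReal.ofReal (K m)) t) ∂lam :=
        lintegral_mono hpt
    _ = ENNReal.ofReal (32 * (W / n)) * lam E +
        ∑ m ∈ Finset.range n, ENNReal.ofReal (K m) * lam (F m) := by
        rw [lintegral_add_left (measurable_const.indicator hEm),
          lintegral_indicator_const hEm, lintegral_finsetSum _
            (fun m _ => measurable_const.indicator (hFm m))]
        congr 1
        exact Finset.sum_congr rfl fun m _ => lintegral_indicator_const (hFm m) _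
    _ ≤ ENNReal.ofReal (32 * (W / n)) * ENNReal.ofReal (1 / 2 ^ b) +
        ∑ m ∈ Finset.range n, ENNReal.ofReal (K m) *
          ENNReal.ofReal (2 * Real.exp (-((2 : ℝ) ^ m) ^ 2 / 2) / 2 ^ b) := by
        rw [hlamE]
        gcongr with m _
        exact hlamF m
    _ = ENNReal.ofReal ((32 * (W / n) + ∑ m ∈ Finset.range n, K m *
          (2 * Real.exp (-((2 : ℝ) ^ m) ^ 2 / 2))) / 2 ^ b) := by
        rw [← ENNReal.ofReal_mul (by positivity)]
        have h1 : ∀ m ∈ Finset.range n, ENNReal.ofReal (K m) *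
          ENNReal.ofReal (2 * Real.exp (-((2 : ℝ) ^ m) ^ 2 / 2) / 2 ^ b) =
            ENNReal.ofReal (K m * (2 * Real.exp (-((2 : ℝ) ^ m) ^ 2 / 2) / 2 ^ b)) :=
          fun m _ => (ENNReal.ofReal_mul (hK0 m)).symm
        have h2 : ∀ m ∈ Finset.range n,
            0 ≤ K m * (2 * Real.exp (-((2 : ℝ) ^ m) ^ 2 / 2) / 2 ^ b) :=
          fun m _ => mul_nonneg (hK0 m) (by positivity)
        rw [Finset.sum_congr rfl h1, ← ENNReal.ofReal_sum_of_nonneg h2,
          ← ENNReal.ofReal_add (by positivity) (Finset.sum_nonneg h2)]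
        congr 1
        rw [add_div, Finset.sum_div]
        congr 1
        · ring
        · exact Finset.sum_congr rfl fun m _ => by ring
    _ ≤ _ := by
        apply ENNReal.ofReal_le_ofReal
        rw [mul_div_assoc]
        gcongr

end

end Pool.Agent.OB9
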