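import Pool.Agent.OB9.SeqB
import Pool.Agent.OB9.B2A
import Pool.Agent.OB9.B2N
import Pool.Agent.OB9.Pick

/-!
# Module OB9/B2P

Type II generations.

PROOF. Fix `Λ ≥ max 2 τ` (enough by `PkgB.anti`, or argue as in `B1P`), `l ≥ Λ`, and take `N` large
depending on `Φ`, `τ`, `Λ`, `l`; `v, h, R` from `D2 Φ τ N v h R`. Levels: `2^a/2 < Φ h ≤ 2^a`,
`2^b/2 < Φ v ≤ 2^b`, `n = 2^(a-b)`. `Φ(h)/Φ(v) = (h/v)²/R` and `≥ h/v` (convexity), so `h/v ≥ R` and
`Φ(h)/Φ(v) ≥ R ≥ N`: so `2^a ≥ N 2^b/2 ≥ 2^(b+l)` if `N ≥ 2^(l+1)`. Also `n Φ v ≤ 2 Φ h`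
(`2^a ≤ 2 Φ h`, `Φ v ≤ 2^b`) and `Φ h ≤ 2 n Φ v`. `T` with `TII l b a (v/h) T`, `α c q` from `TII_coef`.
norm: `∫ (T x)² = (v/h)² n ∫ (av a x)² ≤ (2/R) ∫ x²` (`n ≤ 2 (h/v)²/R`).
For `md Φ x ≤ 1`: `Φ|α c q| ≤ 2^a ≤ 2Φ(h) ≤ Φ(2h)` (`av_height`), so `|α c q| ≤ 2h`;
sup: `u = (v/h) n 2h`. small: as in `B1P`:
`∫ (T x)² ≤ (2/R) ∫ (av a x)² ≤ (2/R)(τ² + sup_{[τ,2h]} 1/g) ≤ 2 τ²/R + 8/N` (`g(w) ≥ N/R` on `[τ,h]`,
`≥ N/(4R)` on `[h,2h]`), and the modular is `≤ (Φ(Λ²)/Λ) (∫ (T x)²)^{1/2}`.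
mid: `Φ|T x| = Φ|T x|1_{|T x| ≤ Λ} + Φ|T x| 1_{|T x| > Λ}`; the first part is small by `small`; for the
second one apply `block_tail` on each `cell b c` with `W_c = ∑_q Φ|α c q|`
(`W_c ≤ 2^a ≤ 4 n Φ v`, as `∑_c W_c = 2^a md Φ (av a x) ≤ 2^a` and `2^a = n 2^b ≤ 2 n Φ v`) and sum over
`c < 2^b`: `≤ 10^4 ∑_c W_c/2^a + ε ≤ 10^4 md Φ x + ε` (`n 2^b = 2^a`, `md_av_le`). `C₀ = 10^4`.
low: `|x| ≤ Λ`: `|α c q| ≤ Λ`, `V = (v/h) A ≤ (v/h) Λ √n ≤ Λ √(2/R) =: δ`. Here
`Φ|y| ≤ |y| Φ(1)` for `|y| ≤ 1` (contribution `≤ Φ(1) δ`), and for `2^m < |y| ≤ 2^(m+1)`, `m ≥ 0`: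
measure `≤ 2 exp(-4^m/(2 δ²)) 2^{-b}` on each cell, `Φ(2^(m+1)) ≤ R^(2(m+1)) Φ(2τ)` by the doubling
property of `D2` as long as `2^m ≤ h`, and `|y| ≤ √n V ≤ h` for `R` large. The sum is
`≤ Φ(1) δ + ∑_m R^(2m+2) Φ(2τ) 2 exp(-4^m R/(4 Λ²)) → 0` as `R → ∞` (`R ≥ N`).
high: `|α c q| ≤ 2^a ∫|x| ≤ 2^a Λ'/Φ(Λ')`, so `|T x| ≤ (v/h) n 2^a Λ'/Φ(Λ')`, as small as we like for
`Λ'` large (`Φ` superlinear, `Φ(s) → 0` as `s → 0`).
vbig: `v ≥ N ≥ 32 Λ`. test (`H = h`): use `pick` with the roles of `e` and `f` exchanged and with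
levels `(l, b, a)` in place of `(l, a, b)`: from `Good (1/4) l f e` we get `i < 2^a` with
`lam (cell b c \ e) ≤ (1/4) 2^{-b}`, `c = adr l b a i` (`n := b`, `l ≤ b` if `Φ v ≥ 2^l`), and
`lam (cell a i \ f) ≤ (1/2) 2^{-a}`. `x = h 1_{cell a i ∩ f}`: `md Φ x ≤ Φ(h) 2^{-a} ≤ 1`; on
`cell b c`: `|T x| = (v/h) 2^a h lam(cell a i ∩ f) ≥ v/2`; `E = cell b c ∩ e`,
`lam E ≥ (3/4) 2^{-b} ≥ (3/8)/Φ(v)`.
-/

set_option autoImplicit false

namespace Pool.Agent.OB9

open MeasureTheory Set Filter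
open scoped ENNReal Topology

noncomputable section

variable {Φ : ℝ → ℝ}

private theorem b2p_int (x : L2) : Integrable (x : ℝ → ℝ) lam :=
  (Lp.memLp x).integrable one_le_two

private theorem b2p_pt {a i : ℕ} (hi : i < 2 ^ a) : ∃ t ∈ Ico (0 : ℝ) 1, idx a t = i := by
  have h1 : (i : ℝ) < 2 ^ a := by exact_mod_cast hi
  refine ⟨i / 2 ^ a, ⟨by positivity, by rw [div_lt_one (by positivity)]; exact h1⟩, ?_⟩
  unfold idx
  rw [mul_div_cancel₀ _ (by positivity)]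
  exact Nat.floor_natCast i

private theorem b2p_l1 {y : ℝ → ℝ} (hy : MemLp y 2 lam) {K η : ℝ} (hK : 0 ≤ K) (hη : 0 < η)
    (h : ∫ t, y t ^ 2 ∂lam ≤ η ^ 2) :
    ∫⁻ t, ENNReal.ofReal (K * |y t|) ∂lam ≤ ENNReal.ofReal (K * η) := by
  have hi : Integrable (fun t => y t ^ 2) lam := hy.integrable_sq
  have hi1 : Integrable y lam := hy.integrable one_le_two
  rw [← ofReal_integral_eq_lintegral_ofReal (hi1.abs.const_mul K)
    (Eventually.of_forall fun t => by positivity)]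
  apply ENNReal.ofReal_le_ofReal
  rw [integral_const_mul]
  apply mul_le_mul_of_nonneg_left _ hK
  have h1 : ∫ t, |y t| ∂lam ≤ ∫ t, (η / 2 + y t ^ 2 / (2 * η)) ∂lam := by
    refine integral_mono hi1.abs ((integrable_const _).add (hi.div_const _)) fun t => ?_
    have h2 : 2 * η * |y t| ≤ η ^ 2 + y t ^ 2 := by
      nlinarith [sq_nonneg (η - |y t|), sq_abs (y t)]
    calc |y t| = 2 * η * |y t| / (2 * η) := by field_simp
      _ ≤ (η ^ 2 + y t ^ 2) / (2 * η) := by gcongr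
      _ = η / 2 + y t ^ 2 / (2 * η) := by field_simp
  have h3 : ∫ t, (η / 2 + y t ^ 2 / (2 * η)) ∂lam =
      η / 2 + (∫ t, y t ^ 2 ∂lam) / (2 * η) := by
    rw [integral_add (integrable_const _) (hi.div_const _), integral_div (2 * η)]
    simp
  rw [h3] at h1
  refine h1.trans ?_
  calc η / 2 + (∫ t, y t ^ 2 ∂lam) / (2 * η) ≤ η / 2 + η ^ 2 / (2 * η) := by gcongr
    _ = η := by field_simp; ring

private theorem b2p_lim (k : ℕ) {θ : ℝ} (hθ : 0 < θ) :
    Tendsto (fun R : ℝ => R ^ k * Real.exp (-(R * θ))) atTop (𝓝 0) := by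
  have h1 := Real.tendsto_pow_mul_exp_neg_atTop_nhds_zero k
  have h2 : Tendsto (fun R : ℝ => R * θ) atTop atTop := tendsto_id.atTop_mul_const hθ
  have h3 := (h1.comp h2).const_mul ((1 / θ) ^ k)
  rw [mul_zero] at h3
  refine h3.congr fun R => ?_
  simp only [Function.comp, mul_pow, one_div, inv_pow]
  field_simp

private theorem b2p_half (n : ℕ) : ∑ m ∈ Finset.range n, (1 / 2 : ℝ) ^ m ≤ 2 := by
  have h : ∀ n : ℕ, ∑ m ∈ Finset.range n, (1 / 2 : ℝ) ^ m = 2 - 2 * (1 / 2 : ℝ) ^ n := by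
    intro n
    induction n with
    | zero => simp
    | succ n ih => rw [Finset.sum_range_succ, ih, pow_succ]; ring
  rw [h]
  have : (0 : ℝ) ≤ (1 / 2 : ℝ) ^ n := by positivity
  linarith

private theorem b2p_R0 {P θ ε : ℝ} (hθ : 0 < θ) (hε : 0 < ε) : ∃ R₁ : ℝ,
    ∀ R, R₁ ≤ R → R ^ 2 * Real.exp (-(R * (3 * θ))) ≤ 1 / 2 ∧
      4 * P * (R ^ 2 * Real.exp (-(R * θ))) ≤ ε := by
  have h1 := (b2p_lim 2 (show (0 : ℝ) < 3 * θ by positivity)).eventually
    (eventually_le_nhds (show (0 : ℝ) < 1 / 2 by norm_num))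
  have h3 := ((b2p_lim 2 hθ).const_mul (4 * P)).eventually
    (eventually_le_nhds (show (4 * P * 0 : ℝ) < ε by simpa using hε))
  obtain ⟨R₁, hR₁⟩ := eventually_atTop.1 (h1.and h3)
  exact ⟨R₁, fun R hR => hR₁ R hR⟩

private theorem b2p_real {R P θ : ℝ} (hR : 1 ≤ R) (hP : 0 ≤ P) (hθ : 0 < θ)
    (h : R ^ 2 * Real.exp (-(R * (3 * θ))) ≤ 1 / 2) (n : ℕ) :
    ∑ m ∈ Finset.range n, R ^ (2 * (m + 1)) * P * (2 * Real.exp (-((2 : ℝ) ^ m) ^ 2 * (R * θ))) ≤
      4 * P * (R ^ 2 * Real.exp (-(R * θ))) := by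
  have hterm : ∀ m ∈ Finset.range n,
      R ^ (2 * (m + 1)) * P * (2 * Real.exp (-((2 : ℝ) ^ m) ^ 2 * (R * θ))) ≤
      2 * P * (R ^ 2 * Real.exp (-(R * θ))) * (1 / 2) ^ m := by
    intro m _
    have h3 : ((2 : ℝ) ^ m) ^ 2 = 4 ^ m := by
      rw [← pow_mul, mul_comm, pow_mul]; norm_num
    have h4 : (1 : ℝ) + 3 * (m : ℝ) ≤ 4 ^ m := by
      have := one_add_mul_le_pow (show (-2 : ℝ) ≤ 3 by norm_num) m
      norm_num at this
      linarith
    have h6 : (1 + 3 * (m : ℝ)) * (R * θ) ≤ ((2 : ℝ) ^ m) ^ 2 * (R * θ) := by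
      rw [h3]
      exact mul_le_mul_of_nonneg_right h4 (by positivity)
    have h7 : Real.exp (-((2 : ℝ) ^ m) ^ 2 * (R * θ)) ≤
        Real.exp (-(R * θ)) * Real.exp (-(R * (3 * θ))) ^ m := by
      rw [← Real.exp_nat_mul, ← Real.exp_add, Real.exp_le_exp]
      linarith
    have h8 : R ^ (2 * (m + 1)) = R ^ 2 * (R ^ 2) ^ m := by
      rw [pow_mul, pow_succ]
      ring
    rw [h8]
    have h10 : (R ^ 2 * Real.exp (-(R * (3 * θ)))) ^ m ≤ (1 / 2 : ℝ) ^ m :=
      pow_le_pow_left₀ (by positivity) h _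
    calc R ^ 2 * (R ^ 2) ^ m * P * (2 * Real.exp (-((2 : ℝ) ^ m) ^ 2 * (R * θ)))
        ≤ R ^ 2 * (R ^ 2) ^ m * P *
          (2 * (Real.exp (-(R * θ)) * Real.exp (-(R * (3 * θ))) ^ m)) := by gcongr
      _ = 2 * P * (R ^ 2 * Real.exp (-(R * θ))) * (R ^ 2 * Real.exp (-(R * (3 * θ)))) ^ m := by
          rw [mul_pow]
          ring
      _ ≤ 2 * P * (R ^ 2 * Real.exp (-(R * θ))) * (1 / 2) ^ m := by gcongr
  refine (Finset.sum_le_sum hterm).trans ?_
  rw [← Finset.mul_sum]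
  have h1 := mul_le_mul_of_nonneg_left (b2p_half n)
    (show 0 ≤ 2 * P * (R ^ 2 * Real.exp (-(R * θ))) by positivity)
  linarith

/-- A tail estimate on one cell. -/
private theorem b2p_tail {b c n : ℕ} (hc : c < 2 ^ b) (a : ℕ → ℝ) {κ s d : ℝ} (hκ : 0 < κ)
    (hs : 0 < s) (h : κ ^ 2 * ∑ q ∈ Finset.range n, a q ^ 2 ≤ d) :
    lam {t | idx b t = c ∧ s ≤ |κ * ∑ q ∈ Finset.range n, a q * rad (b + 1 + q) t|} ≤
      ENNReal.ofReal (2 * Real.exp (-(s ^ 2) / (2 * d)) / 2 ^ b) := by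
  set A : ℝ := √(∑ q ∈ Finset.range n, a q ^ 2) with hAdef
  have hA : 0 ≤ A := Real.sqrt_nonneg _
  have hA2 : ∑ q ∈ Finset.range n, a q ^ 2 = A ^ 2 :=
    (Real.sq_sqrt (Finset.sum_nonneg fun q _ => sq_nonneg _)).symm
  rcases hA.lt_or_eq with hApos | hA0
  · have h1 := subgauss (r := s / (κ * A)) hc a (by positivity) hApos hA2
    refine le_trans (measure_mono ?_) (h1.trans (ENNReal.ofReal_le_ofReal ?_))
    · rintro t ⟨ht1, ht2⟩
      refine ⟨ht1, ?_⟩
      rw [abs_mul, abs_of_pos hκ] at ht2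
      rw [show s / (κ * A) * A = s / κ by field_simp, div_le_iff₀ hκ]
      linarith
    · rw [hA2] at h
      have h2 : -(s / (κ * A)) ^ 2 / 2 ≤ -(s ^ 2) / (2 * d) := by
        rw [div_pow, neg_div, neg_div, neg_le_neg_iff, div_div]
        apply div_le_div_of_nonneg_left (by positivity) (by positivity)
        rw [mul_pow]
        linarith
      have h3 := Real.exp_le_exp.2 h2
      apply div_le_div_of_nonneg_right _ (by positivity)
      linarith
  · have h0 : ∀ q ∈ Finset.range n, a q ^ 2 = 0 := by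
      have h1 : ∑ q ∈ Finset.range n, a q ^ 2 = 0 := by rw [hA2, ← hA0]; ring
      exact (Finset.sum_eq_zero_iff_of_nonneg fun q _ => sq_nonneg _).1 h1
    have h2 : {t | idx b t = c ∧ s ≤ |κ * ∑ q ∈ Finset.range n, a q * rad (b + 1 + q) t|} = ∅ := by
      ext t
      simp only [mem_ofPred_eq, mem_empty_iff_false, iff_false, not_and, not_le]
      intro _
      have h3 : ∑ q ∈ Finset.range n, a q * rad (b + 1 + q) t = 0 := by
        refine Finset.sum_eq_zero fun q hq => ?_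
        rw [pow_eq_zero_iff two_ne_zero |>.1 (h0 q hq), zero_mul]
      rw [h3, mul_zero, abs_zero]
      exact hs
    rw [h2, measure_empty]
    exact zero_le

private theorem b2p_anti {M : ℝ → ℝ} (hM : QOrl M) {C₀ Λ Λ₁ : ℝ} {l : ℕ} {T : L2 →L[ℝ] L2}
    {u H v Λ' : ℝ} (h2 : 2 ≤ Λ) (hΛ : Λ ≤ Λ₁) (h : PkgB M C₀ Λ₁ l T u H v Λ') :
    PkgB M C₀ Λ l T u H v Λ' := by
  have hinv : 1 / Λ₁ ≤ 1 / Λ := one_div_le_one_div_of_le (by linarith) hΛ
  have hinv' : ENNReal.ofReal (1 / Λ₁) ≤ ENNReal.ofReal (1 / Λ) := ENNReal.ofReal_le_ofReal hinv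
  refine ⟨hΛ.trans h.lbig, h.u0, h.H0, h.norm.trans ?_, h.sup, ?_, ?_, ?_, ?_, ?_, h.test⟩
  · exact one_div_le_one_div_of_le (by positivity) (pow_le_pow_left₀ (by linarith) hΛ 2)
  · intro x hb hx
    refine le_trans (md_mono hM (Eventually.of_forall fun t => ?_)) ((h.small x hb hx).trans hinv')
    split_ifs with h3 h4 h4
    · rw [abs_mul, abs_mul]
      apply mul_le_mul_of_nonneg_right _ (abs_nonneg _)
      rw [abs_of_nonneg (by linarith), abs_of_nonneg (by linarith)]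
      exact hΛ
    · exact absurd (h3.trans hΛ) h4
    · rw [abs_zero]; exact abs_nonneg _
    · exact le_rfl
  · intro x hb hx
    exact (h.mid x hb hx).trans (by gcongr)
  · intro x hx
    exact (h.low x (hx.mono fun t ht => ht.trans hΛ)).trans hinv'
  · intro x hb hx h3
    exact (h.high x hb hx h3).trans hinv'
  · linarith [h.vbig]

private structure B2PCtx (Φ : ℝ → ℝ) (τ N v h R : ℝ) (l b a : ℕ) (T : L2 →L[ℝ] L2) : Prop where
  orl : Orl Φ
  τ1 : 1 ≤ τ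
  τ0 : 0 < Φ τ
  D : D2 Φ τ N v h R
  N1 : 1 ≤ N
  a1 : 2 ^ a ≤ 2 * Φ h
  a2 : Φ h ≤ 2 ^ a
  b1 : 2 ^ b ≤ 2 * Φ v
  b2 : Φ v ≤ 2 ^ b
  lba : l + b ≤ a
  T : TII l b a (v / h) T

variable {τ N v h R : ℝ} {l b a : ℕ} {T : L2 →L[ℝ] L2}

private theorem b2p_v0 (X : B2PCtx Φ τ N v h R l b a T) : 0 < v := by
  have := X.τ1; have := X.D.2.1; linarith

private theorem b2p_h0 (X : B2PCtx Φ τ N v h R l b a T) : 0 < h :=
  (b2p_v0 X).trans X.D.2.2.1

private theorem b2p_R1 (X : B2PCtx Φ τ N v h R l b a T) : 1 ≤ R :=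
  X.N1.trans X.D.2.2.2.1

private theorem b2p_Φv (X : B2PCtx Φ τ N v h R l b a T) : 0 < Φ v :=
  X.orl.qorl.pos_of_ge (by have := X.τ1; linarith) X.τ0 X.D.2.1

private theorem b2p_Φh (X : B2PCtx Φ τ N v h R l b a T) : 0 < Φ h :=
  X.orl.qorl.pos_of_ge (b2p_v0 X).le (b2p_Φv X) X.D.2.2.1.le

private theorem b2p_pow (X : B2PCtx Φ τ N v h R l b a T) :
    ((2 ^ (a - b) : ℕ) : ℝ) = 2 ^ a / 2 ^ b := by
  have := X.lba
  rw [Nat.cast_pow, Nat.cast_ofNat, pow_sub₀ _ two_ne_zero (by omega)]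
  rfl

private theorem b2p_n1 (X : B2PCtx Φ τ N v h R l b a T) :
    ((2 ^ (a - b) : ℕ) : ℝ) * Φ v ≤ 2 * Φ h := by
  rw [b2p_pow X]
  calc (2 : ℝ) ^ a / 2 ^ b * Φ v ≤ 2 ^ a / 2 ^ b * 2 ^ b := by
        have := X.b2
        gcongr
    _ = 2 ^ a := by field_simp
    _ ≤ _ := X.a1

private theorem b2p_n2 (X : B2PCtx Φ τ N v h R l b a T) :
    Φ h ≤ 2 * ((2 ^ (a - b) : ℕ) : ℝ) * Φ v := by
  rw [b2p_pow X]
  calc Φ h ≤ 2 ^ a := X.a2
    _ = 2 ^ a / 2 ^ b * 2 ^ b := by field_simp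
    _ ≤ 2 ^ a / 2 ^ b * (2 * Φ v) := by
        have := X.b1
        gcongr
    _ = _ := by ring

private theorem b2p_ratio (X : B2PCtx Φ τ N v h R l b a T) :
    (v / h) ^ 2 * (2 ^ a / 2 ^ b) ≤ 2 / R := by
  have hv := b2p_v0 X
  have hh := b2p_h0 X
  have hR := b2p_R1 X
  have hΦv := b2p_Φv X
  have hΦh := b2p_Φh X
  have h1 : Φ v / v ^ 2 = R * (Φ h / h ^ 2) := X.D.2.2.2.2.1
  have h2 : Φ v * h ^ 2 = R * Φ h * v ^ 2 := by
    field_simp at h1
    linarith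
  calc (v / h) ^ 2 * (2 ^ a / 2 ^ b) ≤ (v / h) ^ 2 * (2 * Φ h / Φ v) := by
        have := X.a1
        have := X.b2
        gcongr
    _ = 2 * (Φ h * v ^ 2) / (Φ v * h ^ 2) := by field_simp
    _ = 2 * (Φ h * v ^ 2) / (R * Φ h * v ^ 2) := by rw [h2]
    _ = 2 / R := by field_simp

private theorem b2p_height (X : B2PCtx Φ τ N v h R l b a T) {x : L2} (hx : md Φ x ≤ 1) {t : ℝ}
    (ht : t ∈ Ico (0 : ℝ) 1) : |av a x t| ≤ 2 * h := by
  have hq := X.orl.qorl
  have hh := b2p_h0 X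
  have h1 := av_height X.orl a (b2p_int x) hx ht
  by_contra h2
  push Not at h2
  have h3 : 2 * Φ h ≤ Φ (2 * h) := hq.super (by norm_num) hh.le
  have h4 : 0 < Φ (2 * h) := by have := b2p_Φh X; linarith
  have h5 := hq.ratio (show 0 < 2 * h by linarith) h2.le
  have h6 := X.a1
  rw [div_le_div_iff₀ (by linarith) (by linarith)] at h5
  have h7 : Φ (2 * h) * |av a x t| ≤ Φ (2 * h) * (2 * h) := by
    refine h5.trans ?_
    apply mul_le_mul_of_nonneg_right _ (by linarith)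
    linarith
  have h8 := le_of_mul_le_mul_left h7 h4
  linarith

private theorem b2p_alpha {a b l : ℕ} {x : L2} {α : ℕ → ℕ → ℝ}
    (hα : ∀ c < 2 ^ b, ∀ q < 2 ^ (a - b), ∃ i < 2 ^ a, adr l b a i = c ∧ wix l b a i = q ∧
        α c q = 2 ^ a * ∫ s in cell a i, x s ∂lam) {B : ℝ}
    (hB : ∀ t ∈ Ico (0 : ℝ) 1, |av a x t| ≤ B) :
    ∀ c < 2 ^ b, ∀ q < 2 ^ (a - b), |α c q| ≤ B := by
  intro c hc q hq
  obtain ⟨i, hi, -, -, h1⟩ := hα c hc q hq
  obtain ⟨t, ht, h2⟩ := b2p_pt hi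
  have h3 := hB t ht
  unfold av at h3
  rw [h2] at h3
  rwa [h1]

private theorem b2p_mom (X : B2PCtx Φ τ N v h R l b a T) {x : L2} (hx : md Φ x ≤ 1) :
    ∫ t, av a x t ^ 2 ∂lam ≤ τ ^ 2 + 4 * R / N := by
  have hq := X.orl.qorl
  have hh := b2p_h0 X
  have hR := b2p_R1 X
  have hN := X.N1
  have hτ := X.τ1
  obtain ⟨-, -, hvh, -, -, -, -, hlow⟩ := X.D
  have hτh : τ ≤ h := by have := X.D.2.1; linarith
  have hpt : ∀ᵐ t ∂lam, ENNReal.ofReal (av a x t ^ 2) ≤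
      ENNReal.ofReal (τ ^ 2) + ENNReal.ofReal (4 * R / N) * ENNReal.ofReal (Φ |av a x t|) := by
    filter_upwards [ae_mem_Ico] with t ht
    rw [← ENNReal.ofReal_mul (by positivity), ← ENNReal.ofReal_add (by positivity)
      (mul_nonneg (by positivity) (hq.nonneg (abs_nonneg _)))]
    apply ENNReal.ofReal_le_ofReal
    rw [← sq_abs (av a x t)]
    have h2 := b2p_height X hx ht
    have h0 : 0 ≤ Φ |av a x t| := hq.nonneg (abs_nonneg _)
    have h1 := abs_nonneg (av a x t)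
    set w := |av a x t| with hw
    by_cases h3 : w ≤ τ
    · have h4 : w ^ 2 ≤ τ ^ 2 := pow_le_pow_left₀ h1 h3 2
      have h5 : 0 ≤ 4 * R / N * Φ w := by positivity
      linarith
    · push Not at h3
      have hw0 : 0 < w := by linarith
      have hτ2 : 0 ≤ τ ^ 2 := by positivity
      by_cases h4 : w ≤ h
      · have h5 := hlow w h3.le h4
        have h6 : w ^ 2 ≤ R / N * Φ w := by
          rw [div_mul_eq_mul_div, le_div_iff₀ (by linarith)]
          rw [mul_div_assoc', le_div_iff₀ (by positivity)] at h5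
          linarith
        have h7 : R / N * Φ w ≤ 4 * R / N * Φ w := by
          apply mul_le_mul_of_nonneg_right _ h0
          apply div_le_div_of_nonneg_right _ (by linarith)
          linarith
        linarith
      · push Not at h4
        have h5 := hlow h hτh le_rfl
        have h8 : Φ h ≤ Φ w := hq.mono (mem_Ici.2 hh.le) (mem_Ici.2 h1) h4.le
        have h6 : h ^ 2 ≤ R / N * Φ h := by
          rw [div_mul_eq_mul_div, le_div_iff₀ (by linarith)]
          rw [mul_div_assoc', le_div_iff₀ (by positivity)] at h5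
          linarith
        have h9 : w ^ 2 ≤ (2 * h) ^ 2 := pow_le_pow_left₀ h1 h2 2
        have h7 : 4 * (R / N * Φ h) ≤ 4 * R / N * Φ w := by
          calc 4 * (R / N * Φ h) = 4 * R / N * Φ h := by ring
            _ ≤ _ := by gcongr
        nlinarith
  have h1 : ∫⁻ t, ENNReal.ofReal (av a x t ^ 2) ∂lam ≤ ENNReal.ofReal (τ ^ 2 + 4 * R / N) := by
    refine (lintegral_mono_ae hpt).trans ?_
    rw [lintegral_add_left measurable_const, lintegral_const_mul' _ _ ENNReal.ofReal_ne_top,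
      lintegral_const, measure_univ, mul_one, ENNReal.ofReal_add (by positivity) (by positivity)]
    have h2 : ∫⁻ t, ENNReal.ofReal (Φ |av a x t|) ∂lam ≤ 1 :=
      (md_av_le X.orl a (b2p_int x)).trans hx
    gcongr
    calc ENNReal.ofReal (4 * R / N) * ∫⁻ t, ENNReal.ofReal (Φ |av a x t|) ∂lam
        ≤ ENNReal.ofReal (4 * R / N) * 1 := by gcongr
      _ = _ := mul_one _
  rw [integral_eq_lintegral_of_nonneg_ae (Eventually.of_forall fun t => sq_nonneg _)
    ((measurable_av a x).pow_const 2).aestronglyMeasurable]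
  exact ENNReal.toReal_le_of_le_ofReal (by positivity) h1

private theorem b2p_sq (X : B2PCtx Φ τ N v h R l b a T) (x : L2) :
    ∫ t, T x t ^ 2 ∂lam ≤ 2 / R * ∫ t, av a x t ^ 2 ∂lam := by
  rw [TII_sq X.lba X.T x]
  exact mul_le_mul_of_nonneg_right (b2p_ratio X) (integral_nonneg fun t => sq_nonneg _)

private theorem b2p_norm (X : B2PCtx Φ τ N v h R l b a T) {Λ : ℝ} (hΛ : 0 < Λ)
    (hN : 2 * Λ ^ 4 ≤ N) : ‖T‖ ≤ 1 / Λ ^ 2 := by
  refine opNorm_le T (by positivity) fun x => ?_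
  have h1 := b2p_sq X x
  have h2 := av_sq a (Lp.memLp x)
  have hR : 2 * Λ ^ 4 ≤ R := hN.trans X.D.2.2.2.1
  have hR0 : 0 < R := by have := b2p_R1 X; linarith
  have h3 : 2 / R ≤ (1 / Λ ^ 2) ^ 2 := by
    rw [div_pow, one_pow, ← pow_mul, div_le_div_iff₀ hR0 (by positivity), one_mul]
    norm_num
    exact hR
  have h4 : 0 ≤ ∫ t, x t ^ 2 ∂lam := integral_nonneg fun t => sq_nonneg _
  calc ∫ t, T x t ^ 2 ∂lam ≤ 2 / R * ∫ t, av a x t ^ 2 ∂lam := h1
    _ ≤ 2 / R * ∫ t, x t ^ 2 ∂lam := by gcongr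
    _ ≤ _ := by gcongr

private theorem b2p_msq (X : B2PCtx Φ τ N v h R l b a T) {x : L2} (hx : md Φ x ≤ 1) :
    ∫ t, T x t ^ 2 ∂lam ≤ (2 * τ ^ 2 + 8) / N := by
  have h1 := b2p_sq X x
  have h2 := b2p_mom X hx
  have hNR : N ≤ R := X.D.2.2.2.1
  have hN := X.N1
  have hR := b2p_R1 X
  calc ∫ t, T x t ^ 2 ∂lam ≤ 2 / R * ∫ t, av a x t ^ 2 ∂lam := h1
    _ ≤ 2 / R * (τ ^ 2 + 4 * R / N) := by gcongr
    _ = 2 * τ ^ 2 / R + 8 / N := by field_simp; ring
    _ ≤ 2 * τ ^ 2 / N + 8 / N := by gcongr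
    _ = _ := by ring

/-- The contribution of the small values. -/
private theorem b2p_smallval (X : B2PCtx Φ τ N v h R l b a T) {Λ η : ℝ} (hΛ : 1 ≤ Λ) (hη : 0 < η)
    {x : L2} (hx : ∫ t, T x t ^ 2 ∂lam ≤ η ^ 2) :
    md Φ (fun t => if |T x t| ≤ Λ then Λ * T x t else 0) ≤
      ENNReal.ofReal (Φ (Λ ^ 2) / Λ * η) := by
  have hq := X.orl.qorl
  have hK : 0 ≤ Φ (Λ ^ 2) / Λ := div_nonneg (hq.nonneg (by positivity)) (by linarith)
  refine le_trans ?_ (b2p_l1 (Lp.memLp (T x)) hK hη hx)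
  unfold md
  refine lintegral_mono fun t => ?_
  apply ENNReal.ofReal_le_ofReal
  change Φ |if |T x t| ≤ Λ then Λ * T x t else 0| ≤ _
  split_ifs with h1
  · rw [abs_mul, abs_of_nonneg (show 0 ≤ Λ by linarith)]
    have h2 := hq.sub (|T x t| / Λ) (Λ ^ 2) (by positivity)
      (by rw [div_le_one (by linarith)]; exact h1) (by positivity)
    have h3 : |T x t| / Λ * Λ ^ 2 = Λ * |T x t| := by field_simp
    rw [h3] at h2
    refine h2.trans (le_of_eq ?_)
    ring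
  · rw [abs_zero, hq.zero]
    positivity

/-- The rough bound for the operator. -/
private theorem b2p_abs (X : B2PCtx Φ τ N v h R l b a T) {x : L2} {B : ℝ}
    (hB : ∀ t ∈ Ico (0 : ℝ) 1, |av a x t| ≤ B) :
    ∀ᵐ t ∂lam, |T x t| ≤ v / h * (2 ^ a / 2 ^ b) * B := by
  obtain ⟨α, h1, h2, -⟩ := TII_coef X.lba X.T x
  have hα := b2p_alpha h2 hB
  have hv := b2p_v0 X
  have hh := b2p_h0 X
  filter_upwards [h1, ae_mem_Ico] with t ht hI
  rw [ht, abs_mul, abs_of_pos (by positivity), mul_assoc]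
  apply mul_le_mul_of_nonneg_left _ (by positivity)
  calc |∑ q ∈ Finset.range (2 ^ (a - b)), α (idx b t) q * rad (b + 1 + q) t|
      ≤ ∑ q ∈ Finset.range (2 ^ (a - b)), |α (idx b t) q * rad (b + 1 + q) t| :=
        Finset.abs_sum_le_sum_abs _ _
    _ ≤ ∑ q ∈ Finset.range (2 ^ (a - b)), B := by
        refine Finset.sum_le_sum fun q hq => ?_
        rw [abs_mul, abs_rad, mul_one]
        exact hα _ (idx_lt hI.1 hI.2) q (Finset.mem_range.1 hq)
    _ = 2 ^ a / 2 ^ b * B := by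
        rw [Finset.sum_const, Finset.card_range, nsmul_eq_mul, b2p_pow X]

private theorem b2p_mid (X : B2PCtx Φ τ N v h R l b a T) {Λ ε η : ℝ} (hΛ : 1 ≤ Λ)
    (hη : 0 < η) (hε : 0 < ε)
    (htail : ∀ c : ℕ, c < 2 ^ b → ∀ (α : ℕ → ℝ) (W : ℝ), (∀ q < 2 ^ (a - b), |α q| ≤ 2 * h) →
      ∑ q ∈ Finset.range (2 ^ (a - b)), Φ |α q| = W → W ≤ 4 * ((2 ^ (a - b) : ℕ) : ℝ) * Φ v →
      ∫⁻ t, (if idx b t = c ∧
          Λ < |v / h * ∑ q ∈ Finset.range (2 ^ (a - b)), α q * rad (b + 1 + q) t|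
        then ENNReal.ofReal
          (Φ |v / h * ∑ q ∈ Finset.range (2 ^ (a - b)), α q * rad (b + 1 + q) t|)
        else 0) ∂lam ≤ ENNReal.ofReal ((10 ^ 4 * W / ((2 ^ (a - b) : ℕ) : ℝ) + ε) / 2 ^ b))
    {x : L2} (hx : md Φ x ≤ 1) (hsq : ∫ t, T x t ^ 2 ∂lam ≤ η ^ 2) :
    md Φ (T x) ≤ ENNReal.ofReal (10 ^ 4) * md Φ x + ENNReal.ofReal ε +
      ENNReal.ofReal (Φ (Λ ^ 2) / Λ * η) := by
  have hq := X.orl.qorl
  have hv := b2p_v0 X
  have hh := b2p_h0 X
  have hΦv := b2p_Φv X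
  obtain ⟨α, h1, h2, h3⟩ := TII_coef X.lba X.T x
  have hα := b2p_alpha h2 (fun t ht => b2p_height X hx ht)
  have hnpos : (0 : ℝ) < ((2 ^ (a - b) : ℕ) : ℝ) := by positivity
  set W : ℕ → ℝ := fun c => ∑ q ∈ Finset.range (2 ^ (a - b)), Φ |α c q| with hW
  have hW0 : ∀ c, 0 ≤ W c := fun c => Finset.sum_nonneg fun q _ => hq.nonneg (abs_nonneg _)
  have hWsum : ENNReal.ofReal (∑ c ∈ Finset.range (2 ^ b), W c) =
      2 ^ a * md Φ (av a x) := by
    rw [ENNReal.ofReal_sum_of_nonneg fun c _ => hW0 c]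
    have := h3 (fun y => ENNReal.ofReal (Φ |y|))
    unfold md
    rw [← this]
    refine Finset.sum_congr rfl fun c _ => ?_
    rw [hW, ENNReal.ofReal_sum_of_nonneg fun q _ => hq.nonneg (abs_nonneg _)]
  have hmd1 : md Φ (av a x) ≤ md Φ x := md_av_le X.orl a (b2p_int x)
  have hp2 : (2 : ℝ≥0∞) ^ a = ENNReal.ofReal (2 ^ a) := by
    rw [ENNReal.ofReal_pow (by norm_num), ENNReal.ofReal_ofNat]
  have hWle : ∑ c ∈ Finset.range (2 ^ b), W c ≤ 2 ^ a := by
    have h4 : ENNReal.ofReal (∑ c ∈ Finset.range (2 ^ b), W c) ≤ ENNReal.ofReal (2 ^ a) := by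
      rw [hWsum, ← hp2]
      calc (2 : ℝ≥0∞) ^ a * md Φ (av a x) ≤ 2 ^ a * 1 := by
            gcongr
            exact hmd1.trans hx
        _ = _ := mul_one _
    exact (ENNReal.ofReal_le_ofReal_iff (by positivity)).1 h4
  have hWc : ∀ c < 2 ^ b, W c ≤ 4 * ((2 ^ (a - b) : ℕ) : ℝ) * Φ v := by
    intro c hc
    have h4 : W c ≤ ∑ c ∈ Finset.range (2 ^ b), W c :=
      Finset.single_le_sum (fun c _ => hW0 c) (Finset.mem_range.2 hc)
    have h5 : (2 : ℝ) ^ a ≤ 4 * ((2 ^ (a - b) : ℕ) : ℝ) * Φ v := by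
      rw [b2p_pow X]
      calc (2 : ℝ) ^ a = 2 ^ a / 2 ^ b * 2 ^ b := by field_simp
        _ ≤ 2 ^ a / 2 ^ b * (2 * Φ v) := by
            have := X.b1
            gcongr
        _ ≤ 4 * (2 ^ a / 2 ^ b) * Φ v := by
            have : 0 ≤ 2 ^ a / 2 ^ b * Φ v := by positivity
            linarith
    linarith
  set G : ℕ → ℝ → ℝ≥0∞ := fun c t => (if idx b t = c ∧
      Λ < |v / h * ∑ q ∈ Finset.range (2 ^ (a - b)), α c q * rad (b + 1 + q) t|
    then ENNReal.ofReal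
      (Φ |v / h * ∑ q ∈ Finset.range (2 ^ (a - b)), α c q * rad (b + 1 + q) t|)
    else 0) with hG
  have hSm : ∀ c, Measurable (fun t : ℝ =>
      v / h * ∑ q ∈ Finset.range (2 ^ (a - b)), α c q * rad (b + 1 + q) t) := fun c =>
    (Finset.measurable_sum _ fun q _ => (measurable_rad _).const_mul _).const_mul _
  have hGm : ∀ c, Measurable (G c) := by
    intro c
    refine Measurable.ite ?_ (ENNReal.measurable_ofReal.comp (hq.meas.comp (hSm c)))
      measurable_const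
    exact MeasurableSet.inter (measurableSet_eq_fun (measurable_idx b) measurable_const)
      (measurableSet_lt measurable_const (measurable_abs.comp (hSm c)))
  have hpt : ∀ᵐ t ∂lam, ENNReal.ofReal (Φ |T x t|) ≤
      ENNReal.ofReal (Φ (Λ ^ 2) / Λ * |T x t|) + ∑ c ∈ Finset.range (2 ^ b), G c t := by
    filter_upwards [h1, ae_mem_Ico] with t ht hI
    by_cases h4 : |T x t| ≤ Λ
    · refine le_trans ?_ le_self_add
      apply ENNReal.ofReal_le_ofReal
      have h5 := hq.sub (|T x t| / Λ) Λ (by positivity)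
        (by rw [div_le_one (by linarith)]; exact h4) (by positivity)
      have h6 : |T x t| / Λ * Λ = |T x t| := by field_simp
      rw [h6] at h5
      have h7 : Φ Λ ≤ Φ (Λ ^ 2) := hq.mono (mem_Ici.2 (by linarith)) (mem_Ici.2 (by positivity))
        (by nlinarith)
      calc Φ |T x t| ≤ |T x t| / Λ * Φ Λ := h5
        _ ≤ |T x t| / Λ * Φ (Λ ^ 2) := by gcongr
        _ = _ := by ring
    · push Not at h4
      refine le_trans ?_ le_add_self
      refine le_trans ?_ (Finset.single_le_sum (f := fun c => G c t) (fun _ _ => zero_le)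
        (Finset.mem_range.2 (idx_lt hI.1 hI.2)))
      rw [ht] at h4
      change _ ≤ G (idx b t) t
      rw [hG]
      change _ ≤ (if idx b t = idx b t ∧ _ then _ else _)
      rw [if_pos ⟨rfl, h4⟩, ht]
  have hmeas : Measurable (fun t => ENNReal.ofReal (Φ (Λ ^ 2) / Λ * |T x t|)) :=
    ENNReal.measurable_ofReal.comp
      ((measurable_abs.comp (Lp.stronglyMeasurable (T x)).measurable).const_mul _)
  have hK : 0 ≤ Φ (Λ ^ 2) / Λ := div_nonneg (hq.nonneg (by positivity)) (by linarith)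
  have hone : ENNReal.ofReal (10 ^ 4 * (∑ c ∈ Finset.range (2 ^ b), W c) / 2 ^ a) ≤
      ENNReal.ofReal (10 ^ 4) * md Φ x := by
    rw [show 10 ^ 4 * (∑ c ∈ Finset.range (2 ^ b), W c) / 2 ^ a =
      10 ^ 4 / 2 ^ a * ∑ c ∈ Finset.range (2 ^ b), W c by ring,
      ENNReal.ofReal_mul (by positivity), hWsum, ← mul_assoc, hp2,
      ← ENNReal.ofReal_mul (by positivity)]
    rw [show (10 : ℝ) ^ 4 / 2 ^ a * 2 ^ a = 10 ^ 4 by field_simp]
    gcongr
  calc md Φ (T x) ≤ ∫⁻ t, (ENNReal.ofReal (Φ (Λ ^ 2) / Λ * |T x t|) +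
        ∑ c ∈ Finset.range (2 ^ b), G c t) ∂lam := lintegral_mono_ae hpt
    _ = ∫⁻ t, ENNReal.ofReal (Φ (Λ ^ 2) / Λ * |T x t|) ∂lam +
        ∑ c ∈ Finset.range (2 ^ b), ∫⁻ t, G c t ∂lam := by
        rw [lintegral_add_left hmeas, lintegral_finsetSum _ fun c _ => hGm c]
    _ ≤ ENNReal.ofReal (Φ (Λ ^ 2) / Λ * η) + ∑ c ∈ Finset.range (2 ^ b),
          ENNReal.ofReal ((10 ^ 4 * W c / ((2 ^ (a - b) : ℕ) : ℝ) + ε) / 2 ^ b) := by
        refine add_le_add (b2p_l1 (Lp.memLp (T x)) hK hη hsq) (Finset.sum_le_sum fun c hc => ?_)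
        have hc' := Finset.mem_range.1 hc
        exact htail c hc' (α c) (W c) (hα c hc') rfl (hWc c hc')
    _ = ENNReal.ofReal (Φ (Λ ^ 2) / Λ * η) +
        (ENNReal.ofReal (10 ^ 4 * (∑ c ∈ Finset.range (2 ^ b), W c) / 2 ^ a) +
          ENNReal.ofReal ε) := by
        congr 1
        have hWs : 0 ≤ ∑ c ∈ Finset.range (2 ^ b), W c := Finset.sum_nonneg fun c _ => hW0 c
        have hWt : ∀ c ∈ Finset.range (2 ^ b),
            0 ≤ (10 ^ 4 * W c / ((2 ^ (a - b) : ℕ) : ℝ) + ε) / 2 ^ b := by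
          intro c _
          have := hW0 c
          positivity
        rw [← ENNReal.ofReal_add (by positivity) hε.le, ← ENNReal.ofReal_sum_of_nonneg hWt]
        congr 1
        rw [← Finset.sum_div, Finset.sum_add_distrib, Finset.sum_const, Finset.card_range,
          nsmul_eq_mul, b2p_pow X, ← Finset.sum_div, ← Finset.mul_sum]
        push_cast
        field_simp
    _ ≤ _ := by
        rw [add_comm]
        gcongr

private theorem b2p_low (X : B2PCtx Φ τ N v h R l b a T) {Λ η : ℝ} (hΛ : 1 ≤ Λ)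
    (hη : 0 < η) (hvΛ : 2 * Λ ≤ v) (hRη : 2 / R * Λ ^ 2 ≤ η ^ 2)
    (hRe : R ^ 2 * Real.exp (-(R * (3 * (1 / (4 * Λ ^ 2))))) ≤ 1 / 2)
    {x : L2} (hx : ∀ᵐ t ∂lam, |x t| ≤ Λ) :
    md Φ (T x) ≤ ENNReal.ofReal (Φ 1 * η +
      4 * Φ (2 * τ) * (R ^ 2 * Real.exp (-(R * (1 / (4 * Λ ^ 2)))))) := by
  have hq := X.orl.qorl
  have hv := b2p_v0 X
  have hh := b2p_h0 X
  have hR := b2p_R1 X
  have hτ := X.τ1
  have hP : 0 ≤ Φ (2 * τ) := hq.nonneg (by linarith)
  have hΦ1 : 0 ≤ Φ 1 := hq.nonneg (by norm_num)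
  obtain ⟨-, -, -, -, -, -, hdoub, -⟩ := X.D
  have hav : ∀ t ∈ Ico (0 : ℝ) 1, |av a x t| ≤ Λ := fun t ht => av_bound a hx ht
  obtain ⟨α, h1, h2, -⟩ := TII_coef X.lba X.T x
  have hα := b2p_alpha h2 hav
  have hratio := b2p_ratio X
  -- the second moment
  have hsq : ∫ t, T x t ^ 2 ∂lam ≤ η ^ 2 := by
    refine (b2p_sq X x).trans (le_trans ?_ hRη)
    apply mul_le_mul_of_nonneg_left _ (by positivity)
    calc ∫ t, av a x t ^ 2 ∂lam ≤ ∫ t, Λ ^ 2 ∂lam := by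
          refine integral_mono_of_nonneg (Eventually.of_forall fun t => sq_nonneg _)
            (integrable_const _) ?_
          filter_upwards [ae_mem_Ico] with t ht
          rw [← sq_abs]
          exact pow_le_pow_left₀ (abs_nonneg _) (hav t ht) 2
      _ = Λ ^ 2 := by simp
  -- the height
  have hheight : ∀ᵐ t ∂lam, |T x t| ≤ h := by
    filter_upwards [b2p_abs X hav] with t ht
    refine ht.trans ?_
    have h3 : v / h * (2 ^ a / 2 ^ b) ≤ 2 / R * (h / v) := by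
      calc v / h * (2 ^ a / 2 ^ b) = (v / h) ^ 2 * (2 ^ a / 2 ^ b) * (h / v) := by field_simp
        _ ≤ 2 / R * (h / v) := by gcongr
    calc v / h * (2 ^ a / 2 ^ b) * Λ ≤ 2 / R * (h / v) * Λ := by gcongr
      _ ≤ 2 / 1 * (h / v) * Λ := by gcongr
      _ = 2 * Λ * h / v := by ring
      _ ≤ v * h / v := by gcongr
      _ = h := by field_simp
  obtain ⟨L, hL⟩ := pow_unbounded_of_one_lt h (show (1 : ℝ) < 2 by norm_num)
  -- growth
  have hgrow : ∀ m : ℕ, (2 : ℝ) ^ m ≤ h → Φ (2 ^ (m + 1)) ≤ R ^ (2 * (m + 1)) * Φ (2 * τ) := by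
    have hgrow' : ∀ j : ℕ, (∀ i, i < j → (2 : ℝ) ^ i ≤ h) →
        Φ (2 ^ j) ≤ R ^ (2 * j) * Φ (2 * τ) := by
      intro j
      induction j with
      | zero =>
        intro _
        rw [mul_zero, pow_zero, pow_zero, one_mul]
        exact hq.mono (mem_Ici.2 (by norm_num)) (mem_Ici.2 (by linarith)) (by linarith)
      | succ j ih =>
        intro hi
        have ih' := ih fun i hij => hi i (by omega)
        rw [show 2 * (j + 1) = 2 * j + 2 by ring, pow_add R]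
        by_cases h3 : τ ≤ (2 : ℝ) ^ j
        · have h4 := hdoub _ h3 (hi j (by omega))
          calc Φ (2 ^ (j + 1)) = Φ (2 * 2 ^ j) := by rw [pow_succ, mul_comm]
            _ ≤ R ^ 2 * Φ (2 ^ j) := h4
            _ ≤ R ^ 2 * (R ^ (2 * j) * Φ (2 * τ)) := by gcongr
            _ = _ := by ring
        · push Not at h3
          have h4 : Φ (2 ^ (j + 1)) ≤ Φ (2 * τ) :=
            hq.mono (mem_Ici.2 (by positivity)) (mem_Ici.2 (by linarith))
              (by rw [pow_succ]; linarith)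
          have h5 : 1 ≤ R ^ (2 * j) * R ^ 2 :=
            one_le_mul_of_one_le_of_one_le (one_le_pow₀ hR) (one_le_pow₀ hR)
          calc Φ (2 ^ (j + 1)) ≤ 1 * Φ (2 * τ) := by linarith
            _ ≤ _ := by gcongr
    intro m hm
    refine hgrow' (m + 1) fun i hi => ?_
    exact (pow_le_pow_right₀ (by norm_num) (by omega)).trans hm
  -- pointwise bound
  set F : ℕ → Set ℝ := fun m => {t | (2 : ℝ) ^ m ≤ |T x t|} with hF
  have hTm : Measurable (fun t => T x t) := (Lp.stronglyMeasurable (T x)).measurable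
  have hFm : ∀ m, MeasurableSet (F m) := fun m =>
    measurableSet_le measurable_const (measurable_abs.comp hTm)
  have hpt : ∀ᵐ t ∂lam, ENNReal.ofReal (Φ |T x t|) ≤ ENNReal.ofReal (Φ 1 * |T x t|) +
      ∑ m ∈ Finset.range L,
        (F m).indicator (fun _ => ENNReal.ofReal (R ^ (2 * (m + 1)) * Φ (2 * τ))) t := by
    filter_upwards [hheight] with t ht
    by_cases h3 : |T x t| ≤ 1
    · refine le_trans ?_ le_self_add
      apply ENNReal.ofReal_le_ofReal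
      have h4 := hq.sub |T x t| 1 (abs_nonneg _) h3 (by norm_num)
      rw [mul_one] at h4
      linarith
    · push Not at h3
      refine le_trans ?_ le_add_self
      obtain ⟨m, hm1, hm2⟩ := exists_nat_pow_near h3.le (show (1 : ℝ) < 2 by norm_num)
      have hmL : m < L := by
        have h4 : (2 : ℝ) ^ m < 2 ^ L := by linarith
        exact (pow_lt_pow_iff_right₀ (by norm_num)).1 h4
      refine le_trans ?_ (Finset.single_le_sum
        (f := fun m => (F m).indicator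
          (fun _ => ENNReal.ofReal (R ^ (2 * (m + 1)) * Φ (2 * τ))) t)
        (fun _ _ => zero_le) (Finset.mem_range.2 hmL))
      rw [Set.indicator_of_mem (show t ∈ F m from hm1)]
      apply ENNReal.ofReal_le_ofReal
      exact (hq.mono (mem_Ici.2 (abs_nonneg _)) (mem_Ici.2 (by positivity)) hm2.le).trans
        (hgrow m (hm1.trans ht))
  -- tails
  have hlamF : ∀ m, lam (F m) ≤
      ENNReal.ofReal (2 * Real.exp (-((2 : ℝ) ^ m) ^ 2 * (R * (1 / (4 * Λ ^ 2))))) := by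
    intro m
    have hsub : F m ≤ᵐ[lam] ⋃ c ∈ Finset.range (2 ^ b), {t | idx b t = c ∧ (2 : ℝ) ^ m ≤
        |v / h * ∑ q ∈ Finset.range (2 ^ (a - b)), α c q * rad (b + 1 + q) t|} := by
      filter_upwards [h1, ae_mem_Ico] with t ht hI
      intro htF
      have h3 : (2 : ℝ) ^ m ≤ |T x t| := htF
      rw [ht] at h3
      have h4 : t ∈ ⋃ c ∈ Finset.range (2 ^ b), {t | idx b t = c ∧ (2 : ℝ) ^ m ≤
          |v / h * ∑ q ∈ Finset.range (2 ^ (a - b)), α c q * rad (b + 1 + q) t|} := by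
        rw [mem_iUnion₂]
        exact ⟨idx b t, Finset.mem_range.2 (idx_lt hI.1 hI.2), rfl, h3⟩
      exact h4
    refine (measure_mono_ae hsub).trans ((measure_biUnion_finset_le _ _).trans ?_)
    have h3 : ∀ c ∈ Finset.range (2 ^ b), lam {t | idx b t = c ∧ (2 : ℝ) ^ m ≤
        |v / h * ∑ q ∈ Finset.range (2 ^ (a - b)), α c q * rad (b + 1 + q) t|} ≤
        ENNReal.ofReal (2 * Real.exp (-((2 : ℝ) ^ m) ^ 2 * (R * (1 / (4 * Λ ^ 2)))) /
          2 ^ b) := by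
      intro c hc
      have hc' := Finset.mem_range.1 hc
      have h4 : (v / h) ^ 2 * ∑ q ∈ Finset.range (2 ^ (a - b)), α c q ^ 2 ≤ 2 / R * Λ ^ 2 := by
        calc (v / h) ^ 2 * ∑ q ∈ Finset.range (2 ^ (a - b)), α c q ^ 2
            ≤ (v / h) ^ 2 * ∑ q ∈ Finset.range (2 ^ (a - b)), Λ ^ 2 := by
              apply mul_le_mul_of_nonneg_left _ (by positivity)
              refine Finset.sum_le_sum fun q hq' => ?_
              rw [← sq_abs]
              exact pow_le_pow_left₀ (abs_nonneg _) (hα c hc' q (Finset.mem_range.1 hq')) 2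
          _ = (v / h) ^ 2 * (2 ^ a / 2 ^ b) * Λ ^ 2 := by
              rw [Finset.sum_const, Finset.card_range, nsmul_eq_mul, b2p_pow X, mul_assoc]
          _ ≤ _ := by gcongr
      have h5 := b2p_tail hc' (α c) (show 0 < v / h by positivity)
        (show (0 : ℝ) < 2 ^ m by positivity) h4
      refine h5.trans (le_of_eq ?_)
      congr 4
      field_simp
      norm_num
    refine (Finset.sum_le_sum h3).trans (le_of_eq ?_)
    rw [Finset.sum_const, Finset.card_range, nsmul_eq_mul]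
    have h6 : ((2 ^ b : ℕ) : ℝ≥0∞) = ENNReal.ofReal (2 ^ b) := by
      rw [ENNReal.ofReal_pow (by norm_num), ENNReal.ofReal_ofNat]
      push_cast
      rfl
    rw [h6, ← ENNReal.ofReal_mul (by positivity)]
    congr 1
    field_simp
  have hmeas : Measurable (fun t => ENNReal.ofReal (Φ 1 * |T x t|)) :=
    ENNReal.measurable_ofReal.comp ((measurable_abs.comp hTm).const_mul _)
  have hreal := b2p_real hR hP (show (0 : ℝ) < 1 / (4 * Λ ^ 2) by positivity) hRe L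
  calc md Φ (T x) ≤ ∫⁻ t, (ENNReal.ofReal (Φ 1 * |T x t|) + ∑ m ∈ Finset.range L,
        (F m).indicator (fun _ => ENNReal.ofReal (R ^ (2 * (m + 1)) * Φ (2 * τ))) t) ∂lam :=
        lintegral_mono_ae hpt
    _ = ∫⁻ t, ENNReal.ofReal (Φ 1 * |T x t|) ∂lam + ∑ m ∈ Finset.range L,
        ENNReal.ofReal (R ^ (2 * (m + 1)) * Φ (2 * τ)) * lam (F m) := by
        rw [lintegral_add_left hmeas, lintegral_finsetSum _ fun m _ =>
          measurable_const.indicator (hFm m)]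
        congr 1
        exact Finset.sum_congr rfl fun m _ => lintegral_indicator_const (hFm m) _
    _ ≤ ENNReal.ofReal (Φ 1 * η) + ∑ m ∈ Finset.range L,
        ENNReal.ofReal (R ^ (2 * (m + 1)) * Φ (2 * τ)) *
          ENNReal.ofReal (2 * Real.exp (-((2 : ℝ) ^ m) ^ 2 * (R * (1 / (4 * Λ ^ 2))))) := by
        refine add_le_add (b2p_l1 (Lp.memLp (T x)) hΦ1 hη hsq) (Finset.sum_le_sum fun m _ => ?_)
        gcongr
        exact hlamF m
    _ = ENNReal.ofReal (Φ 1 * η + ∑ m ∈ Finset.range L, R ^ (2 * (m + 1)) * Φ (2 * τ) *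
          (2 * Real.exp (-((2 : ℝ) ^ m) ^ 2 * (R * (1 / (4 * Λ ^ 2)))))) := by
        have h7 : ∀ m ∈ Finset.range L, 0 ≤ R ^ (2 * (m + 1)) * Φ (2 * τ) *
          (2 * Real.exp (-((2 : ℝ) ^ m) ^ 2 * (R * (1 / (4 * Λ ^ 2))))) :=
          fun m _ => by positivity
        rw [ENNReal.ofReal_add (by positivity) (Finset.sum_nonneg h7),
          ENNReal.ofReal_sum_of_nonneg h7]
        congr 1
        exact Finset.sum_congr rfl fun m _ => (ENNReal.ofReal_mul (by positivity)).symm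
    _ ≤ _ := ENNReal.ofReal_le_ofReal (by gcongr)

private theorem b2p_high (X : B2PCtx Φ τ N v h R l b a T) {Λ' s : ℝ} (hΛ' : 0 < Λ')
    (hΦΛ : 0 < Φ Λ') (hs : v / h * (2 ^ a / 2 ^ b) * (2 ^ a * (Λ' / Φ Λ')) ≤ s) (hs1 : s ≤ 1)
    {x : L2} (hx : md Φ x ≤ 1) (hx' : ∀ᵐ t ∂lam, x t = 0 ∨ Λ' ≤ |x t|) :
    md Φ (T x) ≤ ENNReal.ofReal (s * Φ 1) := by
  have hq := X.orl.qorl
  have hv := b2p_v0 X
  have hh := b2p_h0 X
  have hi := (b2p_int x).abs
  have hs0 : 0 ≤ s := le_trans (by positivity) hs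
  have hl1 : ∫ t, |x t| ∂lam ≤ Λ' / Φ Λ' := by
    have h1 : ∫⁻ t, ENNReal.ofReal |x t| ∂lam ≤ ENNReal.ofReal (Λ' / Φ Λ') := by
      have hpt : ∀ᵐ t ∂lam, ENNReal.ofReal |x t| ≤
          ENNReal.ofReal (Λ' / Φ Λ') * ENNReal.ofReal (Φ |x t|) := by
        filter_upwards [hx'] with t ht
        rw [← ENNReal.ofReal_mul (by positivity)]
        apply ENNReal.ofReal_le_ofReal
        rcases ht with ht | ht
        · rw [ht, abs_zero, hq.zero, mul_zero]
        · have h2 := hq.ratio hΛ' ht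
          have h3 : 0 < |x t| := hΛ'.trans_le ht
          rw [div_le_div_iff₀ hΛ' h3] at h2
          rw [div_mul_eq_mul_div, le_div_iff₀ hΦΛ]
          linarith
      refine (lintegral_mono_ae hpt).trans ?_
      rw [lintegral_const_mul' _ _ ENNReal.ofReal_ne_top]
      calc ENNReal.ofReal (Λ' / Φ Λ') * ∫⁻ t, ENNReal.ofReal (Φ |x t|) ∂lam
          ≤ ENNReal.ofReal (Λ' / Φ Λ') * 1 := by
            gcongr
            exact hx
        _ = _ := mul_one _
    rw [integral_eq_lintegral_of_nonneg_ae (Eventually.of_forall fun t => abs_nonneg _)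
      hi.aestronglyMeasurable]
    exact ENNReal.toReal_le_of_le_ofReal (by positivity) h1
  have hav : ∀ t ∈ Ico (0 : ℝ) 1, |av a x t| ≤ 2 ^ a * (Λ' / Φ Λ') := by
    intro t _
    unfold av
    rw [abs_mul, abs_of_pos (by positivity : (0 : ℝ) < 2 ^ a)]
    apply mul_le_mul_of_nonneg_left _ (by positivity)
    calc |∫ s in cell a (idx a t), x s ∂lam| ≤ ∫ s in cell a (idx a t), |x s| ∂lam :=
          abs_integral_le_integral_abs
      _ ≤ ∫ s, |x s| ∂lam := setIntegral_le_integral hi (Eventually.of_forall fun t => abs_nonneg _)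
      _ ≤ _ := hl1
  have hT : ∀ᵐ t ∂lam, |T x t| ≤ s := (b2p_abs X hav).mono fun t ht => ht.trans hs
  refine (md_const_le hq hT).trans (ENNReal.ofReal_le_ofReal ?_)
  have := hq.sub s 1 hs0 hs1 zero_le_one
  rwa [mul_one] at this

private theorem b2p_cell_disj {a i j : ℕ} (hij : i ≠ j) : Disjoint (cell a i) (cell a j) := by
  rw [Set.disjoint_left]
  intro t h1 h2
  have h0 : 0 ≤ t := by
    have h3 : (i : ℝ) / 2 ^ a ≤ t := h1.1
    have h4 : (0 : ℝ) ≤ (i : ℝ) / 2 ^ a := by positivity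
    linarith
  exact hij (((mem_cell h0).1 h1).symm.trans ((mem_cell h0).1 h2))

private theorem b2p_testthm (X : B2PCtx Φ τ N v h R l b a T) (hlb : l ≤ b) {e f : Set ℝ}
    (he : MeasurableSet e) (hf : MeasurableSet f) (hG : Good (1 / 4) l f e) :
    Test Φ (1 / 4) T h v e f := by
  have hq := X.orl.qorl
  have hv := b2p_v0 X
  have hh := b2p_h0 X
  have hΦv := b2p_Φv X
  have hΦh := b2p_Φh X
  obtain ⟨i, hi, h1, h2⟩ := pick hf he hG X.lba
  have h3 := h1 b hlb le_rfl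
  set c := adr l b a i with hc
  have hcb : c < 2 ^ b := adr_lt l b a i
  set D : Set ℝ := cell a i ∩ f with hD
  have hDm : MeasurableSet D := (measurableSet_cell a i).inter hf
  have hxm : Measurable (D.indicator (fun _ : ℝ => h)) := measurable_const.indicator hDm
  have hxL : MemLp (D.indicator (fun _ : ℝ => h)) 2 lam := by
    refine memLp_of_bdd hxm (R := h) fun t => ?_
    by_cases ht : t ∈ D
    · rw [Set.indicator_of_mem ht, abs_of_pos hh]
    · rw [Set.indicator_of_notMem ht, abs_zero]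
      exact hh.le
  have hxe : hxL.toLp (D.indicator (fun _ : ℝ => h)) =ᵐ[lam] D.indicator (fun _ : ℝ => h) :=
    hxL.coeFn_toLp
  have hlamc : lam (cell a i) = ENNReal.ofReal (1 / 2 ^ a) := lam_cell hi
  have hlamD : lam D ≤ ENNReal.ofReal (1 / 2 ^ a) := by
    rw [← hlamc]
    exact measure_mono inter_subset_left
  have hμ : 1 / 2 / 2 ^ a ≤ lam.real D := by
    have h4 : lam (cell a i) = lam D + lam (cell a i \ f) :=
      (measure_inter_add_sdiff _ hf).symm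
    have h5 : ENNReal.ofReal (1 / 2 ^ a) ≤ lam D + ENNReal.ofReal (1 / 2 / 2 ^ a) := by
      rw [← hlamc, h4]
      gcongr
    have h6 : lam D = ENNReal.ofReal (lam.real D) := by
      rw [Measure.real, ENNReal.ofReal_toReal (measure_ne_top lam D)]
    rw [h6, ← ENNReal.ofReal_add measureReal_nonneg (by positivity),
      ENNReal.ofReal_le_ofReal_iff (add_nonneg measureReal_nonneg (by positivity))] at h5
    have h7 : (1 : ℝ) / 2 ^ a = 1 / 2 / 2 ^ a + 1 / 2 / 2 ^ a := by ring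
    linarith
  refine ⟨hxL.toLp _, ?_, ?_, ?_, cell b c ∩ e, (measurableSet_cell b c).inter he,
    inter_subset_right, ?_, ?_⟩
  · filter_upwards [hxe] with t ht
    rw [ht]
    by_cases ht' : t ∈ D
    · rw [Set.indicator_of_mem ht', abs_of_pos hh]
    · rw [Set.indicator_of_notMem ht', abs_zero]
      exact hh.le
  · filter_upwards [hxe] with t ht htf
    rw [ht, Set.indicator_of_notMem fun h => htf h.2]
  · rw [md_congr hxe]
    have h4 : md Φ (D.indicator (fun _ : ℝ => h)) = ENNReal.ofReal (Φ h) * lam D := by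
      unfold md
      rw [← lintegral_indicator_const hDm]
      refine lintegral_congr fun t => ?_
      by_cases ht' : t ∈ D
      · rw [Set.indicator_of_mem ht', Set.indicator_of_mem ht', abs_of_pos hh]
      · rw [Set.indicator_of_notMem ht', Set.indicator_of_notMem ht', abs_zero, hq.zero,
          ENNReal.ofReal_zero]
    rw [h4]
    calc ENNReal.ofReal (Φ h) * lam D ≤ ENNReal.ofReal (2 ^ a) * ENNReal.ofReal (1 / 2 ^ a) := by
          gcongr
          exact X.a2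
      _ = 1 := by
          rw [← ENNReal.ofReal_mul (by positivity), mul_one_div_cancel (by positivity),
            ENNReal.ofReal_one]
  · have h4 : lam (cell b c) = lam (cell b c ∩ e) + lam (cell b c \ e) :=
      (measure_inter_add_sdiff _ he).symm
    have h5 : ENNReal.ofReal (1 / 2 ^ b) ≤
        lam (cell b c ∩ e) + ENNReal.ofReal (1 / 4 / 2 ^ b) := by
      rw [← lam_cell hcb, h4]
      gcongr
    have h6 : lam (cell b c ∩ e) = ENNReal.ofReal (lam.real (cell b c ∩ e)) := by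
      rw [Measure.real, ENNReal.ofReal_toReal (measure_ne_top lam _)]
    rw [h6, ← ENNReal.ofReal_add measureReal_nonneg (by positivity),
      ENNReal.ofReal_le_ofReal_iff (add_nonneg measureReal_nonneg (by positivity))] at h5
    rw [h6]
    apply ENNReal.ofReal_le_ofReal
    have h7 : 1 / (16 * Φ v) ≤ 1 / (8 * 2 ^ b) := by
      have := X.b1
      apply one_div_le_one_div_of_le (by positivity)
      linarith
    have h8 : (1 : ℝ) / (8 * 2 ^ b) ≤ 3 / 4 / 2 ^ b := by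
      rw [div_le_div_iff₀ (by positivity) (by positivity)]
      have : (0 : ℝ) < 2 ^ b := by positivity
      linarith
    have h9 : (1 : ℝ) / 2 ^ b = 1 / 4 / 2 ^ b + 3 / 4 / 2 ^ b := by ring
    linarith
  · filter_upwards [X.T (hxL.toLp _), ae_mem_Ico] with t ht hI htE
    have hidx : idx b t = c := (mem_cell hI.1).1 htE.1
    have hint : ∀ j, ∫ s in cell a j, (hxL.toLp (D.indicator (fun _ : ℝ => h))) s ∂lam =
        if j = i then h * lam.real D else 0 := by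
      intro j
      rw [integral_congr_ae (ae_restrict_of_ae hxe), integral_indicator hDm,
        Measure.restrict_restrict hDm]
      split_ifs with hj
      · subst hj
        rw [show D ∩ cell a j = D from inter_eq_left.2 inter_subset_left]
        simp [mul_comm]
      · rw [show D ∩ cell a j = ∅ from by
          rw [← Set.disjoint_iff_inter_eq_empty]
          exact (b2p_cell_disj (Ne.symm hj)).mono_left inter_subset_left]
        simp
    rw [ht, Finset.sum_eq_single i]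
    · rw [if_pos hidx.symm, hint, if_pos rfl, abs_mul, abs_mul, abs_rad, mul_one,
        abs_of_pos (by positivity : 0 < v / h),
        abs_of_nonneg (by positivity : 0 ≤ 2 ^ a * (h * lam.real D))]
      calc 1 / 4 * v ≤ 1 / 2 * v := by linarith
        _ = v / h * (2 ^ a * (h * (1 / 2 / 2 ^ a))) := by field_simp
        _ ≤ _ := by gcongr
    · intro j _ hj
      rw [hint, if_neg hj]
      simp
    · intro hi'
      exact absurd (Finset.mem_range.2 hi) hi'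

private theorem b2p_pow_near {y : ℝ} (hy : 1 ≤ y) : ∃ n : ℕ, (2 : ℝ) ^ n ≤ 2 * y ∧ y ≤ 2 ^ n := by
  obtain ⟨n, h1, h2⟩ := exists_nat_pow_near hy (show (1 : ℝ) < 2 by norm_num)
  refine ⟨n + 1, ?_, h2.le⟩
  rw [pow_succ]
  linarith

private theorem b2p_package (hΦ : Orl Φ) (hs : SuperLin Φ) {τ : ℝ} (hτ : 1 ≤ τ) (hτ0 : 0 < Φ τ)
    (hD : ∀ N : ℝ, ∃ v h R, D2 Φ τ N v h R) {Λ : ℝ} (hΛ2 : 2 ≤ Λ) (hΛτ : τ ≤ Λ) :
    ∃ (l : ℕ) (T : L2 →L[ℝ] L2) (u H v Λ' : ℝ), PkgB Φ (10 ^ 4) Λ l T u H v Λ' := by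
  have hq := hΦ.qorl
  have hΦ1 : 0 ≤ Φ 1 := hq.nonneg zero_le_one
  have hΦΛ2 : 0 ≤ Φ (Λ ^ 2) := hq.nonneg (by positivity)
  have hΛ0 : 0 < Λ := by linarith
  set l : ℕ := ⌈Λ⌉₊ with hl
  have hlΛ : Λ ≤ l := Nat.le_ceil Λ
  set ε : ℝ := 1 / (2 * Λ) with hεdef
  have hε : 0 < ε := by positivity
  set η : ℝ := 1 / (2 * (Φ (Λ ^ 2) + 1)) with hηdef
  have hη : 0 < η := by positivity
  set η' : ℝ := 1 / (2 * Λ * (2 * (Φ 1 + 1))) with hη'def
  have hη' : 0 < η' := by positivity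
  obtain ⟨R₀, hR₀⟩ := block_tail hΦ hτ hτ0 hε
  obtain ⟨R₁, hR₁⟩ := b2p_R0 (P := Φ (2 * τ)) (θ := 1 / (4 * Λ ^ 2))
    (show (0 : ℝ) < 1 / (4 * Λ ^ 2) by positivity) (show 0 < ε / 2 by positivity)
  obtain ⟨N₂, hN₂⟩ := (hq.tendsto.eventually (eventually_ge_atTop ((2 : ℝ) ^ l))).exists_forall_of_atTop
  set N : ℝ := max (max (max R₀ R₁) (max N₂ (2 ^ (l + 1)))) (max (max (2 * Λ ^ 4) (32 * Λ))
    (max ((2 * τ ^ 2 + 8) / η ^ 2) (2 * Λ ^ 2 / η' ^ 2))) with hNdef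
  have e1 : R₀ ≤ N := (le_max_left _ _).trans ((le_max_left _ _).trans (le_max_left _ _))
  have e2 : R₁ ≤ N := (le_max_right _ _).trans ((le_max_left _ _).trans (le_max_left _ _))
  have e3 : N₂ ≤ N := (le_max_left _ _).trans ((le_max_right _ _).trans (le_max_left _ _))
  have e4 : 2 ^ (l + 1) ≤ N := (le_max_right _ _).trans ((le_max_right _ _).trans (le_max_left _ _))
  have e5 : 2 * Λ ^ 4 ≤ N := (le_max_left _ _).trans ((le_max_left _ _).trans (le_max_right _ _))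
  have e6 : 32 * Λ ≤ N := (le_max_right _ _).trans ((le_max_left _ _).trans (le_max_right _ _))
  have e7 : (2 * τ ^ 2 + 8) / η ^ 2 ≤ N :=
    (le_max_left _ _).trans ((le_max_right _ _).trans (le_max_right _ _))
  have e8 : 2 * Λ ^ 2 / η' ^ 2 ≤ N :=
    (le_max_right _ _).trans ((le_max_right _ _).trans (le_max_right _ _))
  clear_value N
  have hN1 : 1 ≤ N := by linarith
  obtain ⟨v, h, R, hD2⟩ := hD N
  obtain ⟨hNv, hτv, hvh, hNR, hgR, hdrop, hdoub, hlow⟩ := id hD2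
  have hv0 : 0 < v := by linarith
  have hh0 : 0 < h := by linarith
  have hR0 : 0 < R := by linarith
  have hΦv : 0 < Φ v := hq.pos_of_ge (by linarith) hτ0 hτv
  have hΦh : 0 < Φ h := hq.pos_of_ge hv0.le hΦv hvh.le
  have hΦvl : (2 : ℝ) ^ l ≤ Φ v := hN₂ v (e3.trans hNv)
  have hΦvh : Φ v ≤ Φ h := hq.mono (mem_Ici.2 hv0.le) (mem_Ici.2 hh0.le) hvh.le
  have hl1 : (1 : ℝ) ≤ 2 ^ l := one_le_pow₀ (by norm_num)
  obtain ⟨b, hb1, hb2⟩ := b2p_pow_near (hl1.trans hΦvl)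
  obtain ⟨a, ha1, ha2⟩ := b2p_pow_near ((hl1.trans hΦvl).trans hΦvh)
  have hlb : l ≤ b := by
    have h1 : (2 : ℝ) ^ l ≤ 2 ^ b := hΦvl.trans hb2
    exact (pow_le_pow_iff_right₀ (by norm_num)).1 h1
  have hRΦ : R * Φ v ≤ Φ h := by
    -- `Φ v / v² = R Φ h / h²` and `Φ v / v ≤ Φ h / h`
    have h1 : Φ v * h ^ 2 = R * Φ h * v ^ 2 := by
      have := hgR
      field_simp at this
      linarith
    have h2 := hq.ratio hv0 hvh.le
    rw [div_le_div_iff₀ hv0 hh0] at h2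
    -- h ≥ R v
    have h3 : R * v ≤ h := by
      have h4 : R * Φ h * v ^ 2 ≤ Φ h * v * h := by
        rw [← h1]
        calc Φ v * h ^ 2 = Φ v * h * h := by ring
          _ ≤ Φ h * v * h := by gcongr
      have h5 : (Φ h * v) * (R * v) ≤ (Φ h * v) * h := by nlinarith
      exact le_of_mul_le_mul_left h5 (by positivity)
    have h6 := hq.super (c := h / v) (t := v) (by rw [le_div_iff₀ hv0]; linarith) hv0.le
    have h7 : h / v * v = h := by field_simp
    rw [h7] at h6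
    refine le_trans ?_ h6
    apply mul_le_mul_of_nonneg_right _ hΦv.le
    rwa [le_div_iff₀ hv0]
  have hlba : l + b ≤ a := by
    have h1 : (2 : ℝ) ^ (l + b) ≤ 2 ^ a := by
      calc (2 : ℝ) ^ (l + b) = 2 ^ (l + 1) * (2 ^ b / 2) := by rw [pow_add, pow_add]; ring
        _ ≤ N * (2 ^ b / 2) := by gcongr
        _ ≤ R * Φ v := by
            have h2 : (2 : ℝ) ^ b / 2 ≤ Φ v := by linarith
            gcongr
        _ ≤ Φ h := hRΦ
        _ ≤ 2 ^ a := ha2
    exact (pow_le_pow_iff_right₀ (by norm_num)).1 h1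
  obtain ⟨T, hT⟩ := exists_TII l b a (v / h)
  have X : B2PCtx Φ τ N v h R l b a T := ⟨hΦ, hτ, hτ0, hD2, hN1, ha1, ha2, hb1, hb2, hlba, hT⟩
  -- choice of `Λ'`
  set κ : ℝ := v / h * (2 ^ a / 2 ^ b) * 2 ^ a with hκ
  have hκ0 : 0 < κ := by positivity
  set s : ℝ := 1 / (Λ * (Φ 1 + 1)) with hsdef
  have hs0 : 0 < s := by positivity
  have hs1 : s ≤ 1 := by
    rw [hsdef, div_le_one (by positivity)]
    nlinarith
  obtain ⟨Λ', hΛ'1, hΛ'2⟩ := ((hs.eventually (eventually_ge_atTop (κ / s))).and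
    (eventually_gt_atTop 0)).exists
  have hΛκ : 0 < κ / s := by positivity
  have hΦΛ' : 0 < Φ Λ' := by
    have h1 : 0 < Φ Λ' / Λ' := hΛκ.trans_le hΛ'1
    have h2 := mul_pos h1 hΛ'2
    rwa [div_mul_cancel₀ _ hΛ'2.ne'] at h2
  have hΛ's : v / h * (2 ^ a / 2 ^ b) * (2 ^ a * (Λ' / Φ Λ')) ≤ s := by
    have h1 : κ * (Λ' / Φ Λ') ≤ s := by
      rw [div_le_div_iff₀ hs0 hΛ'2] at hΛ'1
      rw [mul_div_assoc', div_le_iff₀ hΦΛ']
      linarith
    calc v / h * (2 ^ a / 2 ^ b) * (2 ^ a * (Λ' / Φ Λ')) = κ * (Λ' / Φ Λ') := by rw [hκ]; ring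
      _ ≤ s := h1
  have hsq : ∀ x : L2, md Φ x ≤ 1 → ∫ t, T x t ^ 2 ∂lam ≤ η ^ 2 := by
    intro x hx
    refine (b2p_msq X hx).trans ?_
    rw [div_le_iff₀ (by positivity)] at e7
    rw [div_le_iff₀ (by linarith)]
    linarith
  have hKη : Φ (Λ ^ 2) / Λ * η ≤ ε := by
    rw [hηdef, hεdef, div_mul_div_comm, mul_one, div_le_div_iff₀ (by positivity) (by positivity)]
    have : 0 ≤ Λ := hΛ0.le
    linarith
  refine ⟨l, T, v / h * (2 ^ a / 2 ^ b) * (2 * h), h, v, Λ', hlΛ, by positivity, hh0.le,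
    b2p_norm X hΛ0 e5, ?_, ?_, ?_, ?_, ?_, by linarith, ?_⟩
  · intro x _ hx
    exact b2p_abs X fun t ht => b2p_height X hx ht
  · intro x _ hx
    refine (b2p_smallval X (by linarith) hη (hsq x hx)).trans (ENNReal.ofReal_le_ofReal ?_)
    refine hKη.trans ?_
    rw [hεdef]
    apply one_div_le_one_div_of_le hΛ0
    linarith
  · intro x _ hx
    have h1 : md Φ (fun t => T x t / 10 ^ 4) ≤ md Φ (T x) := by
      refine md_mono hq (Eventually.of_forall fun t => ?_)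
      rw [abs_div, abs_of_pos (by norm_num : (0 : ℝ) < 10 ^ 4)]
      exact div_le_self (abs_nonneg _) (by norm_num)
    refine h1.trans ?_
    have h2 := b2p_mid X (Λ := Λ) (ε := ε) (by linarith) hη hε
      (fun c hc α W hα hW hW4 => hR₀ N v h R e1 hD2 (2 ^ (a - b)) b c hc (b2p_n1 X) (b2p_n2 X)
        α W Λ hα hW hW4 hΛτ) hx (hsq x hx)
    refine h2.trans ?_
    rw [add_assoc, ← ENNReal.ofReal_add hε.le (by positivity)]
    gcongr
    have h3 : ε + ε = 1 / Λ := by rw [hεdef]; field_simp; norm_num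
    linarith
  · intro x hx
    obtain ⟨f1, f2⟩ := hR₁ R (e2.trans hNR)
    refine (b2p_low X (Λ := Λ) (η := η') (by linarith) hη' (by linarith) ?_ f1 hx).trans
      (ENNReal.ofReal_le_ofReal ?_)
    · rw [div_le_iff₀ (by positivity)] at e8
      rw [div_mul_eq_mul_div, div_le_iff₀ hR0]
      have h3 : N * η' ^ 2 ≤ R * η' ^ 2 := by gcongr
      linarith
    · have h3 : Φ 1 * η' ≤ ε / 2 := by
        rw [hη'def, hεdef, mul_one_div, div_div, div_le_div_iff₀ (by positivity) (by positivity)]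
        nlinarith
      have h4 : ε ≤ 1 / Λ := by
        rw [hεdef]
        apply one_div_le_one_div_of_le hΛ0
        linarith
      linarith
  · intro x _ hx hx'
    refine (b2p_high X hΛ'2 hΦΛ' hΛ's hs1 hx hx').trans (ENNReal.ofReal_le_ofReal ?_)
    rw [hsdef, div_mul_eq_mul_div, one_mul, div_le_div_iff₀ (by positivity) hΛ0]
    nlinarith
  · intro e f he hf _ hG
    exact b2p_testthm X hlb he hf hG

theorem supply2 (hΦ : Orl Φ) (hs : SuperLin Φ) {τ : ℝ} (hτ : 1 ≤ τ) (hτ0 : 0 < Φ τ)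
    (hD : ∀ N : ℝ, ∃ v h R, D2 Φ τ N v h R) : DInf Φ := by
  refine seqB hΦ.qorl (C₀ := 10 ^ 4) (by norm_num) fun Λ hΛ => ?_
  obtain ⟨l, T, u, H, v, Λ', hP⟩ := b2p_package hΦ hs hτ hτ0 hD
    (Λ := max Λ τ) (hΛ.trans (le_max_left _ _)) (le_max_right _ _)
  exact ⟨l, T, u, H, v, Λ', b2p_anti hΦ.qorl hΛ (le_max_left _ _) hP⟩

end

end Pool.Agent.OB9
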