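import Pool.Agent.OB9.MdB

/-!
# Module OB9/BstA

Gluing the generations: the upper bound.

PROOF. `Λ g ≥ 2^(g+1)`, `Λ g ≥ 2 ∑_{g' < g} u g'` by induction (`Gen.lambda_ge`). Partial sums: let
`S_n = ∑_{g<n} T g x`, `y_g = T g x`. For a.e. `t` (all `|y_g t| ≤ u g`):
`|S_n| ≤ A + B`, `A = ∑_{g<n} |y_g| 1_{|y_g| ≤ Λ g}`, `B = ∑_{g<n} |y_g| 1_{|y_g| > Λ g}`.
`A ≤ ∑ 2^{-g-1} (Λ g |y_g| 1_{..}) ≤ max_g Λ g |y_g| 1_{..}`, so `M(A) ≤ ∑_g M(Λ g |y_g| 1_{|y_g| ≤ Λ g})`
and the integral is `≤ ∑ 1/Λ g ≤ 1` (`small`). If `B ≠ 0` let `g*` be the largest `g < n` with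
`|y_g| > Λ g`; then `B ≤ |y_{g*}| + ∑_{g<g*} u g ≤ |y_{g*}| + Λ_{g*}/2 ≤ 2 |y_{g*}|`, so
`M(B/(2 C₀)) ≤ ∑_g M(|y_g|/C₀)`, with integral `≤ C₁`. As `C₀ ≥ 1`,
`|S_n|/(4 C₀) ≤ (A/(2C₀) + B/(2C₀))/2 ≤ max A (B/(2 C₀))`, so `md M (S_n/(4C₀)) ≤ 1 + C₁` and
`md M (S_n/(4 C₀ (1+C₁))) ≤ 1` (`md_div_le`). The series `∑ T g` converges in operator norm
(`norm`, `Λ g ≥ 2^(g+1)`; `T∞ = ∑' g, T g`), so `S_n → T∞ x` in `L2`, a subsequence converges a.e.
(`tendstoInMeasure_of_tendsto_eLpNorm`, `TendstoInMeasure.exists_seq_tendsto_ae`), and `md_fatou`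
gives the bound.
-/

set_option autoImplicit false

namespace Pool.Agent.OB9

open MeasureTheory Set Filter
open scoped ENNReal Topology

noncomputable section

variable {M : ℝ → ℝ} {c₀ : ℝ} {T : ℕ → (L2 →L[ℝ] L2)} {Λ u H v : ℕ → ℝ}

theorem Gen.lambda_ge (hG : Gen M c₀ T Λ u H v) (g : ℕ) :
    2 ^ (g + 1) ≤ Λ g ∧ 2 * ∑ i ∈ Finset.range g, u i ≤ Λ g := by
  induction g with
  | zero =>
    have h := hG.L0
    refine ⟨by simpa using h, ?_⟩
    simp only [Finset.range_zero, Finset.sum_empty, mul_zero]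
    linarith
  | succ g ih =>
    have h := hG.Lstep g
    have h0 := hG.u0 g
    have h1 : (0 : ℝ) ≤ 2 ^ (g + 1) := by positivity
    refine ⟨?_, ?_⟩
    · rw [pow_succ]
      linarith [ih.1]
    · rw [Finset.sum_range_succ]
      linarith [ih.1, ih.2]

private theorem Gen.lpos (hG : Gen M c₀ T Λ u H v) (g : ℕ) : 0 < Λ g :=
  lt_of_lt_of_le (by positivity) (hG.lambda_ge g).1

private theorem Gen.linv (hG : Gen M c₀ T Λ u H v) (g : ℕ) : 1 / Λ g ≤ (1 / 2) ^ (g + 1) := by
  rw [one_div_pow]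
  exact one_div_le_one_div_of_le (by positivity) (hG.lambda_ge g).1

private theorem geo_le (n : ℕ) : ∑ g ∈ Finset.range n, (1 / 2 : ℝ) ^ (g + 1) ≤ 1 := by
  have h : ∀ n : ℕ, ∑ g ∈ Finset.range n, (1 / 2 : ℝ) ^ (g + 1) = 1 - (1 / 2) ^ n := by
    intro n
    induction n with
    | zero => simp
    | succ n ih =>
      rw [Finset.sum_range_succ, ih, pow_succ]
      ring
  rw [h]
  have : (0 : ℝ) ≤ (1 / 2) ^ n := by positivity
  linarith

theorem Gen.summable (hG : Gen M c₀ T Λ u H v) : Summable T := by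
  have h1 : Summable fun g : ℕ => (1 / 2 : ℝ) ^ g := summable_geometric_two
  refine Summable.of_norm_bounded h1 fun g => ?_
  refine (hG.norm g).trans ?_
  have h2 := hG.linv g
  have h3 : 0 < 1 / Λ g := one_div_pos.2 (hG.lpos g)
  have h4 : (1 / 2 : ℝ) ^ (g + 1) ≤ (1 / 2) ^ g := by
    rw [pow_succ]
    have : (0 : ℝ) ≤ (1 / 2) ^ g := by positivity
    linarith
  have h5 : (1 / 2 : ℝ) ^ (g + 1) ≤ 1 := pow_le_one₀ (by norm_num) (by norm_num)
  have h6 : 1 / Λ g ^ 2 = (1 / Λ g) * (1 / Λ g) := by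
    rw [one_div_mul_one_div, sq]
  rw [h6]
  nlinarith

/-- the pointwise estimate -/
private theorem pointwise (hM : QOrl M) (hG : Gen M c₀ T Λ u H v) {C₀ : ℝ} (h0 : 1 ≤ C₀)
    {y : ℕ → ℝ} (hy : ∀ g, |y g| ≤ u g) (n : ℕ) :
    M |(∑ g ∈ Finset.range n, y g) / (4 * C₀)| ≤
      ∑ g ∈ Finset.range n, M |if |y g| ≤ Λ g then Λ g * y g else 0| +
        ∑ g ∈ Finset.range n, M |y g / C₀| := by
  have hC : 0 < C₀ := by linarith
  set A : ℝ := ∑ g ∈ Finset.range n, (if |y g| ≤ Λ g then |y g| else 0) with hA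
  set B : ℝ := ∑ g ∈ Finset.range n, (if |y g| ≤ Λ g then 0 else |y g|) with hB
  have hA0 : 0 ≤ A := Finset.sum_nonneg fun g _ => by split_ifs <;> first | exact abs_nonneg _ | exact le_refl _
  have hB0 : 0 ≤ B := Finset.sum_nonneg fun g _ => by split_ifs <;> first | exact abs_nonneg _ | exact le_refl _
  have hAB : |∑ g ∈ Finset.range n, y g| ≤ A + B := by
    rw [hA, hB, ← Finset.sum_add_distrib]
    refine (Finset.abs_sum_le_sum_abs _ _).trans (Finset.sum_le_sum fun g _ => ?_)
    split_ifs <;> simp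
  -- the part A
  have hMA : M A ≤ ∑ g ∈ Finset.range n, M |if |y g| ≤ Λ g then Λ g * y g else 0| := by
    rcases Nat.eq_zero_or_pos n with rfl | hn
    · simp [hA, hM.zero]
    · obtain ⟨g0, hg0, hmax⟩ := Finset.exists_max_image (Finset.range n)
        (fun g => |if |y g| ≤ Λ g then Λ g * y g else 0|) ⟨0, Finset.mem_range.2 hn⟩
      set m : ℝ := |if |y g0| ≤ Λ g0 then Λ g0 * y g0 else 0| with hm
      have hm0 : 0 ≤ m := abs_nonneg _
      have h1 : A ≤ m := by
        calc A ≤ ∑ g ∈ Finset.range n, (1 / 2 : ℝ) ^ (g + 1) * m := by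
              rw [hA]
              refine Finset.sum_le_sum fun g hg => ?_
              split_ifs with h
              · have h2 := hmax g hg
                rw [if_pos h, abs_mul, abs_of_pos (hG.lpos g)] at h2
                have h3 : |y g| = (1 / Λ g) * (Λ g * |y g|) := by
                  have := (hG.lpos g).ne'
                  field_simp
                rw [h3]
                exact mul_le_mul (hG.linv g) h2
                  (mul_nonneg (hG.lpos g).le (abs_nonneg _)) (by positivity)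
              · positivity
          _ = (∑ g ∈ Finset.range n, (1 / 2 : ℝ) ^ (g + 1)) * m := by rw [Finset.sum_mul]
          _ ≤ 1 * m := mul_le_mul_of_nonneg_right (geo_le n) hm0
          _ = m := one_mul m
      calc M A ≤ M m := hM.mono hA0 hm0 h1
        _ ≤ _ := by
            rw [hm]
            exact Finset.single_le_sum (f := fun g => M |if |y g| ≤ Λ g then Λ g * y g else 0|)
              (fun g _ => hM.nonneg (abs_nonneg _)) hg0
  -- the part B
  have hBc : B = 0 ∨ ∃ g ∈ Finset.range n, B ≤ 2 * |y g| := by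
    rw [hB]
    clear hMA hAB hA hB hA0 hB0
    clear A B
    induction n with
    | zero => left; simp
    | succ n ih =>
      rw [Finset.sum_range_succ]
      by_cases h : |y n| ≤ Λ n
      · rw [if_pos h, add_zero]
        rcases ih with ih | ⟨g, hg, ih⟩
        · exact Or.inl ih
        · exact Or.inr ⟨g, Finset.mem_range.2 ((Finset.mem_range.1 hg).trans (Nat.lt_succ_self n)), ih⟩
      · rw [if_neg h]
        rw [not_le] at h
        right
        refine ⟨n, Finset.mem_range.2 (Nat.lt_succ_self n), ?_⟩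
        have h2 : ∑ g ∈ Finset.range n, (if |y g| ≤ Λ g then (0 : ℝ) else |y g|) ≤
            ∑ g ∈ Finset.range n, u g := by
          refine Finset.sum_le_sum fun g _ => ?_
          split_ifs
          · exact hG.u0 g
          · exact hy g
        have h3 := (hG.lambda_ge n).2
        have h4 := hG.lpos n
        linarith
  have hMB : M (B / (2 * C₀)) ≤ ∑ g ∈ Finset.range n, M |y g / C₀| := by
    rcases hBc with h | ⟨g, hg, h⟩
    · rw [h, zero_div, hM.zero]
      exact Finset.sum_nonneg fun g _ => hM.nonneg (abs_nonneg _)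
    · calc M (B / (2 * C₀)) ≤ M |y g / C₀| := by
            refine hM.mono (show 0 ≤ B / (2 * C₀) by positivity)
              (mem_Ici.2 (abs_nonneg (y g / C₀))) ?_
            rw [abs_div, abs_of_pos hC, div_le_div_iff₀ (by positivity) hC]
            nlinarith
        _ ≤ _ := Finset.single_le_sum (f := fun g => M |y g / C₀|)
              (fun g _ => hM.nonneg (abs_nonneg _)) hg
  have h1 : |(∑ g ∈ Finset.range n, y g) / (4 * C₀)| ≤ max A (B / (2 * C₀)) := by
    rw [abs_div, abs_of_pos (show (0 : ℝ) < 4 * C₀ by positivity), div_le_iff₀ (by positivity)]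
    have h2 : A ≤ max A (B / (2 * C₀)) := le_max_left _ _
    have h3 : B / (2 * C₀) ≤ max A (B / (2 * C₀)) := le_max_right _ _
    rw [div_le_iff₀ (by positivity)] at h3
    have h4 : 0 ≤ max A (B / (2 * C₀)) := hA0.trans h2
    nlinarith
  have hB1 : 0 ≤ B / (2 * C₀) := by positivity
  have h2 : M (max A (B / (2 * C₀))) ≤ M A + M (B / (2 * C₀)) := by
    rcases max_choice A (B / (2 * C₀)) with h | h
    · rw [h]
      linarith [hM.nonneg hB1]
    · rw [h]
      linarith [hM.nonneg hA0]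
  have h3 := hM.mono (mem_Ici.2 (abs_nonneg ((∑ g ∈ Finset.range n, y g) / (4 * C₀))))
    (mem_Ici.2 (hA0.trans (le_max_left A (B / (2 * C₀))))) h1
  linarith

theorem bst_upper (hM : QOrl M) (hG : Gen M c₀ T Λ u H v) {C₀ C₁ : ℝ} (h0 : 1 ≤ C₀)
    (h1 : 0 ≤ C₁)
    (hsum : ∀ x : L2, Bd x → md M x ≤ 1 → ∀ n : ℕ,
      ∑ g ∈ Finset.range n, md M (fun t => T g x t / C₀) ≤ ENNReal.ofReal C₁) :
    BddOn M (∑' g, T g) (4 * C₀ * (1 + C₁)) := by
  intro x hx hx1
  have hC : 0 < C₀ := by linarith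
  have hmeas : ∀ w : L2, AEMeasurable (fun t => w t) lam := fun w =>
    (Lp.aestronglyMeasurable w).aemeasurable
  -- the partial sums
  have hpart : ∀ n, md M (fun t => ((∑ g ∈ Finset.range n, T g) x : L2) t / (4 * C₀ * (1 + C₁))) ≤ 1 := by
    intro n
    have hS : ((((∑ g ∈ Finset.range n, T g) x : L2)) : ℝ → ℝ) =ᵐ[lam]
        fun t => ∑ g ∈ Finset.range n, (T g x) t := by
      have e : ∀ n : ℕ, ((((∑ g ∈ Finset.range n, T g) x : L2)) : ℝ → ℝ) =ᵐ[lam]
          fun t => ∑ g ∈ Finset.range n, (T g x) t := by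
        intro n
        induction n with
        | zero =>
          simp only [Finset.range_zero, Finset.sum_empty, ContinuousLinearMap.zero_apply]
          exact Lp.coeFn_zero ℝ 2 lam
        | succ n ih =>
          rw [Finset.sum_range_succ, ContinuousLinearMap.add_apply]
          filter_upwards [ih, Lp.coeFn_add ((∑ g ∈ Finset.range n, T g) x) (T n x)] with t h2 h3
          rw [h3, Pi.add_apply, h2, Finset.sum_range_succ]
      exact e n
    have hall : ∀ᵐ t ∂lam, ∀ g, |(T g x) t| ≤ u g := ae_all_iff.2 fun g => hG.sup g x hx hx1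
    have h2 : md M (fun t => ((∑ g ∈ Finset.range n, T g) x : L2) t / (4 * C₀)) ≤
        ∑ g ∈ Finset.range n, md M (fun t => if |(T g x) t| ≤ Λ g then Λ g * (T g x) t else 0) +
          ∑ g ∈ Finset.range n, md M (fun t => (T g x) t / C₀) := by
      have hm1 : ∀ g, AEMeasurable (fun t => if |(T g x) t| ≤ Λ g then Λ g * (T g x) t else 0) lam := by
        intro g
        have h3 : Measurable fun a : ℝ => if |a| ≤ Λ g then Λ g * a else 0 :=
          Measurable.ite (measurableSet_le measurable_norm measurable_const)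
            (measurable_const.mul measurable_id) measurable_const
        exact h3.comp_aemeasurable (hmeas (T g x))
      have hm2 : ∀ f : ℝ → ℝ, AEMeasurable f lam →
          AEMeasurable (fun t => ENNReal.ofReal (M |f t|)) lam := fun f hf =>
        (hM.meas.comp_aemeasurable hf).ennreal_ofReal
      unfold md
      rw [← lintegral_finset_sum' _ fun g _ => hm2 _ (hm1 g),
        ← lintegral_finset_sum' _ fun g _ => hm2 _ ((hmeas (T g x)).div_const _),
        ← lintegral_add_left' (Finset.aemeasurable_fun_sum _ fun g _ => hm2 _ (hm1 g))]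
      refine lintegral_mono_ae ?_
      filter_upwards [hS, hall] with t ht1 ht2
      have h3 := pointwise hM hG h0 (y := fun g => (T g x) t) ht2 n
      rw [ht1]
      rw [← ENNReal.ofReal_sum_of_nonneg fun g _ => hM.nonneg (abs_nonneg _),
        ← ENNReal.ofReal_sum_of_nonneg fun g _ => hM.nonneg (abs_nonneg _),
        ← ENNReal.ofReal_add (Finset.sum_nonneg fun g _ => hM.nonneg (abs_nonneg _))
          (Finset.sum_nonneg fun g _ => hM.nonneg (abs_nonneg _))]
      exact ENNReal.ofReal_le_ofReal h3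
    have h3 : ∑ g ∈ Finset.range n,
        md M (fun t => if |(T g x) t| ≤ Λ g then Λ g * (T g x) t else 0) ≤ ENNReal.ofReal 1 := by
      calc ∑ g ∈ Finset.range n,
            md M (fun t => if |(T g x) t| ≤ Λ g then Λ g * (T g x) t else 0)
          ≤ ∑ g ∈ Finset.range n, ENNReal.ofReal (1 / Λ g) :=
            Finset.sum_le_sum fun g _ => hG.small g x hx hx1
        _ = ENNReal.ofReal (∑ g ∈ Finset.range n, 1 / Λ g) := by
            rw [ENNReal.ofReal_sum_of_nonneg fun g _ => (one_div_pos.2 (hG.lpos g)).le]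
        _ ≤ ENNReal.ofReal 1 := by
            refine ENNReal.ofReal_le_ofReal ?_
            exact (Finset.sum_le_sum fun g _ => hG.linv g).trans (geo_le n)
    have h4 : md M (fun t => ((∑ g ∈ Finset.range n, T g) x : L2) t / (4 * C₀)) ≤
        ENNReal.ofReal (1 + C₁) := by
      refine h2.trans ?_
      rw [ENNReal.ofReal_add zero_le_one h1]
      exact add_le_add h3 (hsum x hx hx1 n)
    have h5 := md_div_le hM (show (1 : ℝ) ≤ 1 + C₁ by linarith) h4
    have e : (fun t => ((∑ g ∈ Finset.range n, T g) x : L2) t / (4 * C₀ * (1 + C₁))) =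
        fun t => ((∑ g ∈ Finset.range n, T g) x : L2) t / (4 * C₀) / (1 + C₁) := by
      funext t
      rw [div_div]
    rw [e]
    exact h5
  -- the limit
  have hlim : Tendsto (fun n => (∑ g ∈ Finset.range n, T g) x) atTop (𝓝 ((∑' g, T g) x)) := by
    have h2 := hG.summable.hasSum.tendsto_sum_nat
    exact ((ContinuousLinearMap.apply ℝ L2 x).continuous.tendsto _).comp h2
  obtain ⟨ns, -, hns⟩ := (tendstoInMeasure_of_tendsto_Lp hlim).exists_seq_tendsto_ae
  refine md_fatou hM (x := fun n t => ((∑ g ∈ Finset.range (ns n), T g) x : L2) t /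
    (4 * C₀ * (1 + C₁))) (fun n => (hmeas _).div_const _) ?_ fun n => hpart (ns n)
  filter_upwards [hns] with t ht
  exact ht.div_const _

end

end Pool.Agent.OB9
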