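import Pool.Agent.OB9.BstA

/-!
# Module OB9/BstB

Gluing the generations: the lower bound.

PROOF. Given `e`, `f`, choose `g` large, such that `M (v g) > 0` (`v g → ∞`, `QOrl.tendsto`), with a
test function `x` from `hlow`: `|x| ≤ H g`, supported in `f`, `md M x ≤ 1`, `E ⊆ e`,
`lam E ≥ 1/(16 M(v g))`, `|T g x| ≥ c₀ v g` on `E`. Earlier generations:
`∑_{i<g} |T i x| ≤ ∑ u i ≤ Λ g/2 ≤ c₀ v g/16`. Later ones: `‖∑_{i>g} T i x‖₂ ≤ H g ∑_{i>g} Λ_i^{-2}
≤ 2 H g/Λ_{g+1}²` (`Λ_{i+1} ≥ 2 Λ_i`, `‖x‖₂ ≤ H g`), so by Chebyshev the set where it exceeds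
`c₀ v g/4` has measure `≤ 64 H²/(Λ⁴ c₀² v²)`, `Λ = Λ (g+1)`, and by `Hsm`
(`H (M(v)+1) ≤ c₀ v Λ/64`) this is `≤ 64 Λ²/(4096 Λ⁴ (M(v)+1)²) ≤ 1/(256 (M(v)+1)²) ≤ 1/(32 M(v))`
(`Λ ≥ 2`). So on a set `E' ⊆ E` of measure `≥ 1/(32 M(v))`: `|T∞ x| ≥ c₀ v/2`. With `c = c₀/66`,
`M(c₀ v/(2c)) = M(33 v) ≥ 33 M(v)`, so `md M (1_e T∞ x/c) ≥ 33/32 > 1`.
-/

set_option autoImplicit false

namespace Pool.Agent.OB9

open MeasureTheory Set Filter
open scoped ENNReal Topology

noncomputable section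

variable {M : ℝ → ℝ} {c₀ : ℝ} {T : ℕ → (L2 →L[ℝ] L2)} {Λ u H v : ℕ → ℝ}

private theorem bstB_cheb (z : L2) {a : ℝ} (ha : 0 < a) :
    lam {t | a ≤ |z t|} ≤ ENNReal.ofReal ((‖z‖ / a) ^ 2) := by
  have h := Lp.meas_ge_le_mul_pow_enorm z (by norm_num) (by norm_num)
    (ε := ENNReal.ofReal a) (by simpa using ha)
  have e1 : {t | ENNReal.ofReal a ≤ (‖z t‖₊ : ℝ≥0∞)} = {t | a ≤ |z t|} := by
    ext t
    simp only [Set.mem_ofPred_eq]
    rw [← enorm_eq_nnnorm, Real.enorm_eq_ofReal_abs, ENNReal.ofReal_le_ofReal_iff (abs_nonneg _)]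
  rw [e1] at h
  refine h.trans (le_of_eq ?_)
  have e2 : (2 : ℝ≥0∞).toReal = ((2 : ℕ) : ℝ) := by norm_num
  rw [e2, ENNReal.rpow_natCast, ENNReal.rpow_natCast, ← mul_pow, ← ENNReal.ofReal_inv_of_pos ha,
    ← ENNReal.ofReal_mul (by positivity), ← ENNReal.ofReal_pow (by positivity)]
  congr 2
  rw [div_eq_inv_mul]

private theorem bstB_sum (f : ℕ → L2) (n : ℕ) :
    ∀ᵐ t ∂lam, (∑ i ∈ Finset.range n, f i : L2) t = ∑ i ∈ Finset.range n, f i t := by
  induction n with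
  | zero =>
    filter_upwards [Lp.coeFn_zero ℝ 2 lam] with t ht
    simp
  | succ n ih =>
    rw [Finset.sum_range_succ]
    filter_upwards [ih, Lp.coeFn_add (∑ i ∈ Finset.range n, f i) (f n)] with t h1 h2
    rw [h2, Finset.sum_range_succ, Pi.add_apply, h1]

private theorem bstB_grow (hG : Gen M c₀ T Λ u H v) (g i : ℕ) : 2 ^ i * Λ g ≤ Λ (i + g) := by
  induction i with
  | zero => simp
  | succ i ih =>
    have h1 := hG.Lstep (i + g)
    have h2 := hG.u0 (i + g)
    have e : i + 1 + g = i + g + 1 := by omega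
    rw [e, pow_succ]
    linarith

private theorem bstB_tail (hG : Gen M c₀ T Λ u H v) (g : ℕ) :
    ‖∑' i, T (i + g)‖ ≤ 2 / Λ g ^ 2 := by
  have hL : 0 < Λ g := lt_of_lt_of_le (by positivity) (hG.lambda_ge g).1
  have hs : HasSum (fun i : ℕ => 1 / Λ g ^ 2 * (1 / 4 : ℝ) ^ i) (1 / Λ g ^ 2 * (1 - 1 / 4)⁻¹) :=
    (hasSum_geometric_of_lt_one (by norm_num) (by norm_num)).mul_left _
  have h := tsum_of_norm_bounded (f := fun i => T (i + g)) hs (fun i => by
    refine (hG.norm (i + g)).trans ?_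
    have h1 := bstB_grow hG g i
    have h2 : (2 ^ i * Λ g) ^ 2 ≤ Λ (i + g) ^ 2 := pow_le_pow_left₀ (by positivity) h1 2
    have e : 1 / Λ g ^ 2 * (1 / 4 : ℝ) ^ i = 1 / (2 ^ i * Λ g) ^ 2 := by
      have h4 : ((2 : ℝ) ^ i) ^ 2 = 4 ^ i := by
        rw [← pow_mul, mul_comm, pow_mul]
        norm_num
      rw [mul_pow, h4, one_div_pow]
      field_simp
    rw [e]
    exact one_div_le_one_div_of_le (by positivity) h2)
  refine h.trans ?_
  have e : 1 / Λ g ^ 2 * (1 - 1 / 4)⁻¹ = 4 / 3 / Λ g ^ 2 := by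
    norm_num
    ring
  rw [e]
  apply div_le_div_of_nonneg_right _ (by positivity)
  norm_num

theorem bst_lower (hM : QOrl M) (hG : Gen M c₀ T Λ u H v) (hc : 0 < c₀) (hc1 : c₀ ≤ 1)
    (hlow : ∀ e f : Set ℝ, MeasurableSet e → MeasurableSet f → lam e ≠ 0 → lam f ≠ 0 →
      ∃ g0 : ℕ, ∀ g, g0 ≤ g → Test M c₀ (T g) (H g) (v g) e f) :
    LowOn M (∑' g, T g) (c₀ / 66) := by
  intro e f he hf he0 hf0
  obtain ⟨g0, hg0⟩ := hlow e f he hf he0 hf0
  obtain ⟨R0, hR0⟩ := eventually_atTop.1 (hM.tendsto.eventually_ge_atTop 1)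
  obtain ⟨k, hk⟩ := exists_nat_ge R0
  set g : ℕ := max g0 k with hg
  have hgk : (k : ℝ) ≤ g := by exact_mod_cast le_max_right g0 k
  have hL := (hG.lambda_ge g).1
  have hL0 : 0 < Λ g := lt_of_lt_of_le (by positivity) hL
  have hvb := hG.vbig g
  have hv0 : 0 < v g := by
    by_contra h
    have : c₀ * v g ≤ 0 := mul_nonpos_of_nonneg_of_nonpos hc.le (not_lt.1 h)
    linarith
  have hvΛ : Λ g ≤ v g := by
    have : c₀ * v g ≤ 1 * v g := mul_le_mul_of_nonneg_right hc1 hv0.le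
    linarith
  have h2g : (g : ℝ) ≤ 2 ^ (g + 1) := by
    have : (g : ℝ) < 2 ^ g := by exact_mod_cast Nat.lt_two_pow_self
    have h2 : (2 : ℝ) ^ g ≤ 2 ^ (g + 1) := pow_le_pow_right₀ one_le_two (Nat.le_succ g)
    linarith
  have hMv : 1 ≤ M (v g) := hR0 _ (by linarith)
  have hMv0 : 0 < M (v g) := by linarith
  obtain ⟨x, hxH, hxf, hxm, E, hE, hEe, hEl, hET⟩ := hg0 g (le_max_left _ _)
  have hxB : Bd x := ⟨H g, hxH⟩
  have hHg := hG.H0 g
  refine ⟨x, hxB, hxf, hxm, ?_⟩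
  -- the decomposition
  set Rst : L2 →L[ℝ] L2 := ∑' i, T (i + (g + 1)) with hRst
  have hdec : (∑' i, T i) = ∑ i ∈ Finset.range (g + 1), T i + Rst :=
    (hG.summable.sum_add_tsum_nat_add (g + 1)).symm
  have hdecx : (∑' i, T i) x = ∑ i ∈ Finset.range (g + 1), T i x + Rst x := by
    rw [hdec, add_apply, sum_apply]
  have hae : ∀ᵐ t ∂lam, ((∑' i, T i) x) t =
      ∑ i ∈ Finset.range g, T i x t + T g x t + Rst x t := by
    rw [hdecx]
    filter_upwards [Lp.coeFn_add (∑ i ∈ Finset.range (g + 1), T i x) (Rst x),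
      bstB_sum (fun i => T i x) (g + 1)] with t h1 h2
    rw [h1, Pi.add_apply, h2, Finset.sum_range_succ]
  have hearly : ∀ᵐ t ∂lam, |∑ i ∈ Finset.range g, T i x t| ≤ c₀ * v g / 16 := by
    have h1 : ∀ᵐ t ∂lam, ∀ i : ℕ, |T i x t| ≤ u i := by
      rw [ae_all_iff]
      intro i
      exact hG.sup i x hxB hxm
    filter_upwards [h1] with t ht
    refine (Finset.abs_sum_le_sum_abs _ _).trans ((Finset.sum_le_sum fun i _ => ht i).trans ?_)
    have := (hG.lambda_ge g).2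
    linarith
  -- the later generations
  set Λ' : ℝ := Λ (g + 1) with hΛ'
  have hL1 : 0 < Λ' := lt_of_lt_of_le (by positivity) (hG.lambda_ge (g + 1)).1
  have hL1' : 2 ≤ Λ' := by
    refine le_trans ?_ (hG.lambda_ge (g + 1)).1
    have : (2 : ℝ) ^ 1 ≤ 2 ^ (g + 1 + 1) := pow_le_pow_right₀ one_le_two (by omega)
    linarith
  have hxn : ‖x‖ ≤ H g := by
    have h1 := Lp.norm_le_of_ae_bound (f := x) hHg (by simpa [Real.norm_eq_abs] using hxH)
    have h2 : measureUnivNNReal lam = 1 := by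
      simp [measureUnivNNReal]
    rw [h2] at h1
    simpa using h1
  have hRn : ‖Rst x‖ ≤ 2 / Λ' ^ 2 * H g := by
    refine (Rst.le_opNorm x).trans ?_
    exact mul_le_mul (bstB_tail hG (g + 1)) hxn (norm_nonneg _) (by positivity)
  set a : ℝ := c₀ * v g / 4 with ha
  have ha0 : 0 < a := by positivity
  have hch := bstB_cheb (Rst x) ha0
  have hsm := hG.Hsm g
  have hbound : (‖Rst x‖ / a) ^ 2 ≤ 1 / (256 * M (v g)) := by
    have h1 : ‖Rst x‖ / a ≤ 1 / (16 * (M (v g) + 1)) := by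
      rw [div_le_div_iff₀ ha0 (by positivity), one_mul]
      have h2 : ‖Rst x‖ * (16 * (M (v g) + 1)) ≤ 2 / Λ' ^ 2 * H g * (16 * (M (v g) + 1)) :=
        mul_le_mul_of_nonneg_right hRn (by positivity)
      refine h2.trans ?_
      have e1 : 2 / Λ' ^ 2 * H g * (16 * (M (v g) + 1)) =
          (64 * H g * (M (v g) + 1)) / (2 * Λ' ^ 2) := by
        field_simp
        ring
      rw [e1, div_le_iff₀ (by positivity)]
      refine hsm.trans ?_
      rw [ha]
      have h3 : c₀ * v g * Λ' ≤ c₀ * v g * (Λ' * Λ' / 2) := by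
        apply mul_le_mul_of_nonneg_left _ (by positivity)
        nlinarith
      refine h3.trans (le_of_eq ?_)
      ring
    have h2 : (‖Rst x‖ / a) ^ 2 ≤ (1 / (16 * (M (v g) + 1))) ^ 2 :=
      pow_le_pow_left₀ (by positivity) h1 2
    refine h2.trans ?_
    rw [div_pow, one_pow]
    apply one_div_le_one_div_of_le (by positivity)
    nlinarith
  -- the good set
  set Bad : Set ℝ := {t | a ≤ |Rst x t|} with hBad
  have hBm : MeasurableSet Bad :=
    measurableSet_le measurable_const (Lp.stronglyMeasurable (Rst x)).measurable.abs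
  have hBl : lam Bad ≤ ENNReal.ofReal (1 / (256 * M (v g))) :=
    hch.trans (ENNReal.ofReal_le_ofReal hbound)
  have hEl' : ENNReal.ofReal (15 / (256 * M (v g))) ≤ lam (E \ Bad) := by
    have h1 : lam E ≤ lam (E \ Bad) + lam Bad := by
      refine (measure_mono ?_).trans (measure_union_le _ _)
      intro t ht
      by_cases htB : t ∈ Bad
      · exact Or.inr htB
      · exact Or.inl ⟨ht, htB⟩
    have h2 : ENNReal.ofReal (1 / (16 * M (v g))) ≤
        lam (E \ Bad) + ENNReal.ofReal (1 / (256 * M (v g))) :=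
      hEl.trans (h1.trans (add_le_add le_rfl hBl))
    have h3 := tsub_le_iff_right.2 h2
    rw [← ENNReal.ofReal_sub _ (by positivity)] at h3
    refine le_trans (le_of_eq ?_) h3
    congr 1
    field_simp
    norm_num
  have hkey : ∀ᵐ t ∂lam, t ∈ E \ Bad → ENNReal.ofReal (33 * M (v g)) ≤
      ENNReal.ofReal (M |e.indicator (fun s => ((∑' i, T i) x) s) t / (c₀ / 66)|) := by
    filter_upwards [hae, hearly, hET] with t h1 h2 h3 ht
    apply ENNReal.ofReal_le_ofReal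
    rw [Set.indicator_of_mem (hEe ht.1)]
    have h4 := h3 ht.1
    have h5 : |Rst x t| < a := by
      by_contra h
      exact ht.2 (not_lt.1 h)
    have h6 : c₀ * v g / 2 ≤ |((∑' i, T i) x) t| := by
      rw [h1]
      have h7 : |T g x t| ≤ |∑ i ∈ Finset.range g, T i x t + T g x t + Rst x t| +
          |∑ i ∈ Finset.range g, T i x t| + |Rst x t| := by
        have e1 : T g x t = (∑ i ∈ Finset.range g, T i x t + T g x t + Rst x t) +
            (-∑ i ∈ Finset.range g, T i x t) + (-Rst x t) := by ring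
        calc |T g x t| = |(∑ i ∈ Finset.range g, T i x t + T g x t + Rst x t) +
            (-∑ i ∈ Finset.range g, T i x t) + (-Rst x t)| := congrArg _ e1
          _ ≤ _ := (abs_add_le _ _).trans (add_le_add (abs_add_le _ _) le_rfl)
          _ = _ := by rw [abs_neg, abs_neg]
      rw [ha] at h5
      linarith
    have h7 : 33 * v g ≤ |((∑' i, T i) x) t / (c₀ / 66)| := by
      rw [abs_div, abs_of_pos (show 0 < c₀ / 66 by positivity), le_div_iff₀ (by positivity)]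
      refine le_trans (le_of_eq ?_) h6
      ring
    have h8 := hM.super (c := 33) (by norm_num) hv0.le
    exact h8.trans (hM.mono (Set.mem_Ici.2 (by positivity)) (Set.mem_Ici.2 (abs_nonneg _)) h7)
  have hfin : ENNReal.ofReal (33 * M (v g)) * lam (E \ Bad) ≤
      md M (fun t => e.indicator (fun s => ((∑' i, T i) x) s) t / (c₀ / 66)) := by
    unfold md
    rw [← setLIntegral_const]
    refine le_trans ?_ (setLIntegral_le_lintegral (E \ Bad) _)
    exact setLIntegral_mono_ae' (hE.diff hBm) hkey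
  refine lt_of_lt_of_le ?_ hfin
  have h9 : ENNReal.ofReal (33 * M (v g)) * ENNReal.ofReal (15 / (256 * M (v g))) ≤
      ENNReal.ofReal (33 * M (v g)) * lam (E \ Bad) := by gcongr
  refine lt_of_lt_of_le ?_ h9
  rw [← ENNReal.ofReal_mul (by positivity), ← ENNReal.ofReal_one]
  apply (ENNReal.ofReal_lt_ofReal_iff (by positivity)).2
  have e1 : 33 * M (v g) * (15 / (256 * M (v g))) = 495 / 256 := by
    field_simp
    norm_num
  rw [e1]
  norm_num

end

end Pool.Agent.OB9
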