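import Pool.Agent.OB9.DrA

/-!
# Module OB9/DrC

The dichotomy, and the case of a non-doubling function.

PROOF. `D1.mk_max`: on a compact interval `[τ,T]` the continuous function `Φ(2t)/Φ(t)` attains its
maximum `K` at some `h`. `drC`: suppose `D2` fails for some `N₀`. `D2 Φ τ N ..` implies
`D2 Φ τ N₀ ..` for `N ≥ N₀`. Given `N'` (wlog `N' ≥ 1`), let `A'` be the maximum of `Φ(2t)/Φ(t)` on
`[τ, max N' τ]` and take `N ≥ max(N₀, 2N', A' + 1, 1)` and `v, h, R` from `DR`; the doubling property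
must fail: there is `t ∈ [τ,h]` with `Φ(2t) > R² Φ(t)`. Let `K` be the maximum of `Φ(2t)/Φ(t)` on
`[τ,h]`, attained at `h'`; `K ≥ R² ≥ N²`. `h' > N'` since `K > A'`. `N' Φ h' ≤ Φ(2h')` as `K ≥ N'`. The
fourth property of `D1` is the maximality. The last one: `g(s) ≤ 2 R g(t) ≤ 2 √K g(t)` and
`N' 2 √K ≤ K` because `√K ≥ N ≥ 2 N'`. `cqA`: given `N ≥ 1`, `A` the maximum of `Φ(2t)/Φ(t)` on
`[τ, max N τ]`, choose `T ≥ τ` with `Φ(2T) > C' Φ(T)`, `C' = max(A, N C, N)` (`¬ Doubling`), and `h` the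
maximum point on `[τ,T]`.
-/

set_option autoImplicit false

namespace Pool.Agent.OB9

open MeasureTheory Set Filter
open scoped ENNReal Topology

noncomputable section

variable {Φ : ℝ → ℝ}

private theorem d1_mono {τ N M h : ℝ} (hΦ : Orl Φ) (hτ : 1 ≤ τ) (hNM : N ≤ M)
    (h1 : D1 Φ τ M h) : D1 Φ τ N h := by
  obtain ⟨a, b, c, d, e⟩ := h1
  have hh : 0 ≤ Φ h := hΦ.qorl.nonneg (by linarith)
  refine ⟨hNM.trans a, b, ?_, d, ?_⟩
  · exact (mul_le_mul_of_nonneg_right hNM hh).trans c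
  · intro s t h1 h2 h3
    refine le_trans ?_ (e s t h1 h2 h3)
    have h4 : 0 ≤ Φ s := hΦ.qorl.nonneg (by linarith)
    have h5 : 0 ≤ Φ s / s ^ 2 := by positivity
    exact mul_le_mul_of_nonneg_right (mul_le_mul_of_nonneg_right hNM h5) hh

private theorem d1_core (hΦ : Orl Φ) {τ : ℝ} (hτ : 1 ≤ τ) (hτ0 : 0 < Φ τ) {M T C' : ℝ}
    (hM : 1 ≤ M) (hMC : M ≤ C') (hA : Φ (2 * max M τ) ≤ C' * Φ τ)
    (hT : ∃ t, τ ≤ t ∧ t ≤ T ∧ C' * Φ t < Φ (2 * t))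
    (hs : ∀ s t, τ ≤ s → s ≤ t → t ≤ T → M * (Φ s / s ^ 2) ≤ C' * (Φ t / t ^ 2)) :
    ∃ h, D1 Φ τ M h := by
  have hpos : ∀ t, τ ≤ t → 0 < Φ t := fun t ht => hΦ.qorl.pos_of_ge (by linarith) hτ0 ht
  have hcont : ContinuousOn (fun t => Φ (2 * t) / Φ t) (Icc τ T) := by
    refine ContinuousOn.div ?_ ?_ ?_
    · refine hΦ.qorl.cont.comp (by fun_prop) ?_
      intro t ht
      have := ht.1
      exact mem_Ici.2 (by linarith)
    · exact hΦ.qorl.cont.mono fun t ht => mem_Ici.2 (by linarith [ht.1])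
    · intro t ht
      exact (hpos t ht.1).ne'
  obtain ⟨t0, ht0, ht0T, hgt⟩ := hT
  obtain ⟨h, hh, hmax⟩ := isCompact_Icc.exists_isMaxOn ⟨t0, ht0, ht0T⟩ hcont
  rw [isMaxOn_iff] at hmax
  have hhp := hpos h hh.1
  obtain ⟨K, hK⟩ : ∃ K, K = Φ (2 * h) / Φ h := ⟨_, rfl⟩
  have hKeq : Φ (2 * h) = K * Φ h := by rw [hK]; field_simp
  have hle : ∀ t, τ ≤ t → t ≤ T → Φ (2 * t) ≤ K * Φ t := by
    intro t h1 h2
    have h3 := hmax t ⟨h1, h2⟩
    rw [← hK, div_le_iff₀ (hpos t h1)] at h3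
    exact h3
  have hKC : C' < K := by
    have h1 := hgt.trans_le (hle t0 ht0 ht0T)
    exact lt_of_mul_lt_mul_right h1 (hpos t0 ht0).le
  have hMh : M ≤ h := by
    by_contra hc
    push Not at hc
    have h1 : Φ (2 * h) ≤ Φ (2 * max M τ) := by
      refine hΦ.qorl.mono (mem_Ici.2 (by linarith [hh.1])) (mem_Ici.2 ?_) ?_
      · have := le_max_right M τ
        linarith
      · have := le_max_left M τ
        linarith
    have h2 : Φ τ ≤ Φ h := hΦ.qorl.mono (mem_Ici.2 (by linarith)) (mem_Ici.2 (by linarith [hh.1])) hh.1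
    have h3 : C' * Φ τ ≤ C' * Φ h := mul_le_mul_of_nonneg_left h2 (by linarith)
    have h4 : K * Φ h ≤ C' * Φ h := by rw [← hKeq]; linarith
    have h5 := le_of_mul_le_mul_right h4 hhp
    linarith
  refine ⟨h, hMh, hh.1, ?_, ?_, ?_⟩
  · rw [hKeq]
    exact mul_le_mul_of_nonneg_right (by linarith) hhp.le
  · intro t h1 h2
    have h3 := hle t h1 (h2.trans hh.2)
    have h4 := (hpos t h1).le
    have h5 : 0 ≤ K * Φ h * Φ t := by
      have : 0 ≤ K := by linarith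
      positivity
    calc Φ (2 * t) * Φ h ≤ (K * Φ t) * Φ h := mul_le_mul_of_nonneg_right h3 hhp.le
      _ = K * Φ h * Φ t := by ring
      _ ≤ 2 * (K * Φ h * Φ t) := by linarith
      _ = 2 * Φ (2 * h) * Φ t := by rw [hKeq]; ring
  · intro s t h1 h2 h3
    have h4 := hs s t h1 h2 (h3.trans hh.2)
    have h5 : 0 ≤ Φ t / t ^ 2 := by
      have := (hpos t (h1.trans h2)).le
      positivity
    calc M * (Φ s / s ^ 2) * Φ h ≤ (C' * (Φ t / t ^ 2)) * Φ h :=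
          mul_le_mul_of_nonneg_right h4 hhp.le
      _ ≤ (K * (Φ t / t ^ 2)) * Φ h :=
          mul_le_mul_of_nonneg_right (mul_le_mul_of_nonneg_right hKC.le h5) hhp.le
      _ = Φ (2 * h) * (Φ t / t ^ 2) := by rw [hKeq]; ring

theorem drC (hΦ : Orl Φ) {τ : ℝ} (hτ : 1 ≤ τ) (hτ0 : 0 < Φ τ) (h : DR Φ τ) :
    (∀ N : ℝ, ∃ v h R, D2 Φ τ N v h R) ∨ ∀ N : ℝ, ∃ h, D1 Φ τ N h := by
  by_cases hD2 : ∀ N : ℝ, ∃ v h R, D2 Φ τ N v h R
  · exact Or.inl hD2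
  right
  push Not at hD2
  obtain ⟨N0, hN0⟩ := hD2
  intro N'
  obtain ⟨M, hM⟩ : ∃ M, M = max N' 1 := ⟨_, rfl⟩
  have hM1 : 1 ≤ M := by rw [hM]; exact le_max_right _ _
  have hMN : N' ≤ M := by rw [hM]; exact le_max_left _ _
  obtain ⟨A, hA⟩ : ∃ A, A = Φ (2 * max M τ) / Φ τ := ⟨_, rfl⟩
  have hAeq : Φ (2 * max M τ) = A * Φ τ := by rw [hA]; field_simp
  obtain ⟨v, h, R, h1, h2, h3, h4, h5, h6, h7⟩ := h (max (max N0 (2 * M)) (max A 1))
  have a1 : N0 ≤ max (max N0 (2 * M)) (max A 1) := (le_max_left _ _).trans (le_max_left _ _)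
  have a2 : 2 * M ≤ max (max N0 (2 * M)) (max A 1) := (le_max_right _ _).trans (le_max_left _ _)
  have a3 : A ≤ max (max N0 (2 * M)) (max A 1) := (le_max_left _ _).trans (le_max_right _ _)
  have hR0 : 0 < R := by linarith
  have hRR : R ≤ R ^ 2 := by nlinarith
  have hnd : ¬ ∀ t, τ ≤ t → t ≤ h → Φ (2 * t) ≤ R ^ 2 * Φ t := by
    intro hd
    refine hN0 v h R ⟨a1.trans h1, h2, h3, a1.trans h4, h5, h6, hd, ?_⟩
    intro t b1 b2
    exact a1.trans (h7 t b1 b2)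
  push Not at hnd
  obtain ⟨t, b1, b2, b3⟩ := hnd
  obtain ⟨h', hh'⟩ := d1_core hΦ hτ hτ0 (M := M) (T := h) (C' := R ^ 2) hM1 (by linarith)
    (by
      rw [hAeq]
      exact mul_le_mul_of_nonneg_right (by linarith) hτ0.le) ⟨t, b1, b2, b3⟩
    (by
      intro s t c1 c2 c3
      have c4 := h6 s t c1 c2 c3
      have c5 : 0 ≤ Φ t / t ^ 2 := by
        have : 0 ≤ Φ t := hΦ.qorl.nonneg (by linarith)
        positivity
      have c6 : M * (2 * R) ≤ R ^ 2 := by nlinarith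
      calc M * (Φ s / s ^ 2) ≤ M * (2 * R * (Φ t / t ^ 2)) :=
            mul_le_mul_of_nonneg_left c4 (by linarith)
        _ = (M * (2 * R)) * (Φ t / t ^ 2) := by ring
        _ ≤ R ^ 2 * (Φ t / t ^ 2) := mul_le_mul_of_nonneg_right c6 c5)
  exact ⟨h', d1_mono hΦ hτ hMN hh'⟩

theorem cqA (hΦ : Orl Φ) {τ : ℝ} (hτ : 1 ≤ τ) (hτ0 : 0 < Φ τ) {C : ℝ}
    (hc : ∀ s t, τ ≤ s → s ≤ t → Φ s / s ^ 2 ≤ C * (Φ t / t ^ 2)) (hnd : ¬ Doubling Φ) :
    ∀ N : ℝ, ∃ h, D1 Φ τ N h := by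
  intro N'
  obtain ⟨M, hM⟩ : ∃ M, M = max N' 1 := ⟨_, rfl⟩
  have hM1 : 1 ≤ M := by rw [hM]; exact le_max_right _ _
  have hMN : N' ≤ M := by rw [hM]; exact le_max_left _ _
  obtain ⟨A, hA⟩ : ∃ A, A = Φ (2 * max M τ) / Φ τ := ⟨_, rfl⟩
  have hAeq : Φ (2 * max M τ) = A * Φ τ := by rw [hA]; field_simp
  have hd : ∃ t, τ ≤ t ∧ max (max A (M * C)) M * Φ t < Φ (2 * t) := by
    by_contra hcon
    push Not at hcon
    exact hnd ⟨_, τ, by linarith, hcon⟩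
  obtain ⟨T, hT, hT2⟩ := hd
  have a1 : A ≤ max (max A (M * C)) M := (le_max_left _ _).trans (le_max_left _ _)
  have a2 : M * C ≤ max (max A (M * C)) M := (le_max_right _ _).trans (le_max_left _ _)
  have a3 : M ≤ max (max A (M * C)) M := le_max_right _ _
  obtain ⟨h', hh'⟩ := d1_core hΦ hτ hτ0 (M := M) (T := T) (C' := max (max A (M * C)) M) hM1 a3
    (by
      rw [hAeq]
      exact mul_le_mul_of_nonneg_right a1 hτ0.le) ⟨T, hT, le_rfl, hT2⟩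
    (by
      intro s t c1 c2 c3
      have c4 := hc s t c1 c2
      have c5 : 0 ≤ Φ t / t ^ 2 := by
        have : 0 ≤ Φ t := hΦ.qorl.nonneg (by linarith)
        positivity
      calc M * (Φ s / s ^ 2) ≤ M * (C * (Φ t / t ^ 2)) :=
            mul_le_mul_of_nonneg_left c4 (by linarith)
        _ = (M * C) * (Φ t / t ^ 2) := by ring
        _ ≤ max (max A (M * C)) M * (Φ t / t ^ 2) := mul_le_mul_of_nonneg_right a2 c5)
  exact ⟨h', d1_mono hΦ hτ hMN hh'⟩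

end

end Pool.Agent.OB9
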