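import Pool.Agent.OB9.DyA

/-!
# Module OB9/DensA

Lebesgue's density theorem for dyadic intervals.

PROOF. For a measurable set `S`, for almost every `t ∈ S ∩ [0,1)` the ratios
`lam (cell n (idx n t) \ S)/2^{-n}` tend to `0`: `IsUnifLocDoublingMeasure.ae_tendsto_measure_inter_div`
with centers the midpoints of the cells, radii `2^{-n-1}`, `K = 1` (the closed cell differs from the
cell by a point; cells of points of `[0,1)` lie in `[0,1)`, where `lam` is `volume`); or the martingale
convergence theorem. Let `F_l` be the set of `t ∈ [0,1)` with `lam (cell n (idx n t) \ f) ≤ η 2^{-n}`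
for all `n ≥ l`: increasing in `l`, and `⋃ F_l` contains almost all of `f`, so for large `l`
`lam F_l ≥ lam f/2 = ρ` (note that `F_l` is measurable, being defined by functions of `idx n t`; or use
outer measure continuity `measure_iUnion` for monotone unions). For the same `ρ`, take a density point
`t₀ ∈ e` and `j = idx l t₀` for large `l`.
-/

set_option autoImplicit false

namespace Pool.Agent.OB9

open MeasureTheory Set Filter
open scoped ENNReal Topology

noncomputable section

private theorem DensA_key {S : Set ℝ} (hS : MeasurableSet S) {η : ℝ} (hη : 0 < η) :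
    ∀ᵐ t ∂lam, t ∈ S → t ∈ Ico (0 : ℝ) 1 → ∃ l : ℕ, ∀ n, l ≤ n →
      lam (cell n (idx n t) \ S) ≤ ENNReal.ofReal (η / 2 ^ n) := by
  have h0 := IsUnifLocDoublingMeasure.ae_tendsto_measure_inter_div (μ := (volume : Measure ℝ)) S 1
  rw [ae_restrict_iff' hS] at h0
  have h1 : ∀ᵐ t ∂lam, t ∈ S → ∀ (w : ℕ → ℝ) (δ : ℕ → ℝ), Tendsto δ atTop (𝓝[>] 0) →
      (∀ᶠ j in atTop, t ∈ Metric.closedBall (w j) (1 * δ j)) →
      Tendsto (fun j => volume (S ∩ Metric.closedBall (w j) (δ j)) /
        volume (Metric.closedBall (w j) (δ j))) atTop (𝓝 1) := by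
    refine ae_restrict_of_ae ?_
    filter_upwards [h0] with t ht htS w δ h2 h3
    exact ht htS w δ h2 h3
  filter_upwards [h1] with t ht htS ht01
  have hmem : ∀ n, t ∈ cell n (idx n t) := fun n => (mem_cell ht01.1).2 rfl
  have hpos : ∀ n : ℕ, (0 : ℝ) < 2 ^ n := fun n => by positivity
  set w : ℕ → ℝ := fun n => ((idx n t : ℝ) + 1 / 2) / 2 ^ n with hw
  set δ : ℕ → ℝ := fun n => (1 / 2) * (1 / 2) ^ n with hδ
  have hδ' : ∀ n, δ n = 1 / 2 / 2 ^ n := fun n => by
    simp only [hδ, one_div, inv_pow]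
    rw [div_eq_mul_inv]
  have hwl : ∀ n, w n - δ n = (idx n t : ℝ) / 2 ^ n := fun n => by
    rw [hδ', hw]
    simp only
    rw [← sub_div]
    congr 1
    ring
  have hwr : ∀ n, w n + δ n = ((idx n t : ℝ) + 1) / 2 ^ n := fun n => by
    rw [hδ', hw]
    simp only
    rw [← add_div]
    congr 1
    ring
  have hball : ∀ n, Metric.closedBall (w n) (δ n) =
      Icc ((idx n t : ℝ) / 2 ^ n) (((idx n t : ℝ) + 1) / 2 ^ n) := fun n => by
    rw [Real.closedBall_eq_Icc, hwl, hwr]
  have hδt : Tendsto δ atTop (𝓝[>] 0) := by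
    rw [tendsto_nhdsWithin_iff]
    refine ⟨?_, Eventually.of_forall fun n => ?_⟩
    · have := (tendsto_pow_atTop_nhds_zero_of_lt_one (r := (1 / 2 : ℝ)) (by norm_num)
        (by norm_num)).const_mul (1 / 2)
      simpa [hδ] using this
    · show 0 < δ n
      rw [hδ']
      positivity
  have hx : ∀ᶠ j in atTop, t ∈ Metric.closedBall (w j) (1 * δ j) := by
    refine Eventually.of_forall fun n => ?_
    rw [one_mul, hball]
    exact ⟨(hmem n).1, (hmem n).2.le⟩
  have hT := ht htS w δ hδt hx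
  have hlt : 1 - ENNReal.ofReal η < 1 :=
    ENNReal.sub_lt_self ENNReal.one_ne_top one_ne_zero (by
      rw [Ne, ENNReal.ofReal_eq_zero]
      linarith)
  obtain ⟨l, hl⟩ := eventually_atTop.1 ((tendsto_order.1 hT).1 _ hlt)
  refine ⟨l, fun n hn => ?_⟩
  have hr := hl n hn
  set A : Set ℝ := Metric.closedBall (w n) (δ n) with hA
  have hvA : volume A = ENNReal.ofReal (1 / 2 ^ n) := by
    rw [hA, Real.volume_closedBall, hδ']
    congr 1
    ring
  have hvA0 : volume A ≠ 0 := by
    rw [hvA, Ne, ENNReal.ofReal_eq_zero, not_le]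
    positivity
  have hvAt : volume A ≠ ⊤ := by
    rw [hvA]
    exact ENNReal.ofReal_ne_top
  have h2 : (1 - ENNReal.ofReal η) * volume A ≤ volume (S ∩ A) := by
    rw [← ENNReal.le_div_iff_mul_le (Or.inl hvA0) (Or.inl hvAt)]
    exact hr.le
  have h3 : volume (A ∩ S) + volume (A \ S) = volume A := measure_inter_add_sdiff A hS
  have h4 : volume (A ∩ S) + volume (A \ S) ≤ volume (A ∩ S) + ENNReal.ofReal η * volume A := by
    rw [h3]
    calc volume A = 1 * volume A := (one_mul _).symm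
      _ ≤ ((1 - ENNReal.ofReal η) + ENNReal.ofReal η) * volume A := by
          gcongr
          exact le_tsub_add
      _ = (1 - ENNReal.ofReal η) * volume A + ENNReal.ofReal η * volume A := add_mul _ _ _
      _ ≤ volume (A ∩ S) + ENNReal.ofReal η * volume A := by
          gcongr
          rw [inter_comm]
          exact h2
  have hfin : volume (A ∩ S) ≠ ⊤ := ((measure_mono inter_subset_left).trans_lt hvAt.lt_top).ne
  have h5 : volume (A \ S) ≤ ENNReal.ofReal η * volume A :=
    (ENNReal.add_le_add_iff_left hfin).1 h4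
  calc lam (cell n (idx n t) \ S) ≤ volume (cell n (idx n t) \ S) := by
        exact Measure.restrict_le_self _
    _ ≤ volume (A \ S) := by
        refine measure_mono (sdiff_subset_sdiff_left ?_)
        rw [hA, hball]
        exact Ico_subset_Icc_self
    _ ≤ ENNReal.ofReal η * volume A := h5
    _ = ENNReal.ofReal (η / 2 ^ n) := by
        rw [hvA, ← ENNReal.ofReal_mul hη.le]
        congr 1
        ring

theorem dens {η : ℝ} (hη : 0 < η) {e f : Set ℝ} (he : MeasurableSet e) (hf : MeasurableSet f)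
    (he0 : lam e ≠ 0) (hf0 : lam f ≠ 0) : ∃ l0 : ℕ, ∀ l, l0 ≤ l → Good η l e f := by
  let G : ℕ → Set ℝ := fun l => {t | t ∈ Ico (0 : ℝ) 1 ∧
      ∀ n, l ≤ n → lam (cell n (idx n t) \ f) ≤ ENNReal.ofReal (η / 2 ^ n)}
  have hGm : Monotone G := fun l l' hll t ht => ⟨ht.1, fun n hn => ht.2 n (hll.trans hn)⟩
  have hft : lam f ≠ ⊤ := measure_ne_top lam f
  have hle : lam f ≤ lam (⋃ l, G l) := by
    refine measure_mono_ae ?_
    filter_upwards [DensA_key hf hη, ae_mem_Ico] with t ht ht01 htf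
    obtain ⟨l, hl⟩ := ht htf ht01
    exact mem_iUnion.2 ⟨l, ht01, hl⟩
  rw [hGm.measure_iUnion] at hle
  have hhalf : lam f / 2 < ⨆ l, lam (G l) := (ENNReal.half_lt_self hf0 hft).trans_le hle
  obtain ⟨l1, hl1⟩ := lt_iSup_iff.1 hhalf
  set ρ : ℝ := (lam f / 2).toReal with hρ
  have hhalft : lam f / 2 ≠ ⊤ := (ENNReal.div_lt_top hft (by norm_num)).ne
  have hρ0 : 0 < ρ := ENNReal.toReal_pos (by
    rw [Ne, ENNReal.div_eq_zero_iff]
    simp [hf0]) hhalft
  -- a density point of `e`
  have hex : ∃ t, t ∈ e ∧ t ∈ Ico (0 : ℝ) 1 ∧ ∃ l : ℕ, ∀ n, l ≤ n →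
      lam (cell n (idx n t) \ e) ≤ ENNReal.ofReal (ρ / 16 / 2 ^ n) := by
    by_contra hno
    push Not at hno
    apply he0
    rw [measure_eq_zero_iff_ae_notMem]
    filter_upwards [DensA_key he (show 0 < ρ / 16 by positivity), ae_mem_Ico] with t ht ht01 hte
    obtain ⟨l, hl⟩ := ht hte ht01
    obtain ⟨n, hn, hlt⟩ := hno t hte ht01 l
    exact absurd (hl n hn) (not_le.2 hlt)
  obtain ⟨t0, _, ht01, l2, hl2⟩ := hex
  refine ⟨max l1 l2, fun l hl => ⟨ρ, hρ0, ?_, idx l t0, idx_lt ht01.1 ht01.2,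
    hl2 l ((le_max_right _ _).trans hl)⟩⟩
  rw [hρ, ENNReal.ofReal_toReal hhalft]
  exact hl1.le.trans (measure_mono (hGm ((le_max_left _ _).trans hl)))

end

end Pool.Agent.OB9
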