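import Pool.Agent.OB9.PmB
import Pool.Agent.OB9.Pick
import Pool.Agent.OB9.MdB

/-!
# Module OB9/PmD

Multi-level operators: the test function.

PROOF. Let `ρ = 2^(1/κ)` (`κ ≥ 1`, since `geo`... if `K = 1` no ratio is needed; if `κ = 0`, `G` is
constant `1`, impossible by `tends`), so `h_{k+1} ≥ ρ h_k`, `R₀ = ρ/(ρ - 1) = ∑ ρ^{-j}`. By `pick` with
`η` small get `i < 2^b` with `lam (A_k \ f) ≤ η 2^(-α_k)` for all `k < K`,
`A_k = cell (α_k) (adr l (α_k) b i)` (use `a = α_{K-1}` in `pick`), and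
`lam (cell b i \ e) ≤ (1/2) 2^{-b}`. Let `e_k = es l (α k) b (p+k) i`,
`x = (1/R₀) ∑_k h_k e_k 1_f`: bounded, supported in `f`. With `k*(t)` the largest `k` such that
`t ∈ A_k`: `|x t| ≤ (1/R₀) ∑_{k ≤ k*} h_k ≤ h_{k*}`, so `M|x| ≤ ∑_k M(h_k) 1_{A_k}` and
`md M x ≤ ∑ M(h_k) 2^(-α_k) ≤ ∑ σ_k = 1`. On `cell b i`, `T x = v F`,
`F = ∑_k (σ_k/h_k) 2^(α_k) ∫ x e_k = (1/R₀) ∑_k (σ_k/h_k) 2^(α_k) [h_k lam(A_k ∩ f) +
∑_{j ≠ k} h_j ∫_f e_j e_k]`, where `|∫_f e_j e_k| = |∫_{fᶜ} e_j e_k| ≤ lam (A_{max(j,k)} \ f) ≤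
η 2^(-α_{max(j,k)})` (`es_fam`). Diagonal: `∑ σ_k (1-η) = 1 - η`. `j < k`: `σ_k η ∑_{j<k} h_j/h_k ≤
σ_k η R₀`. `j > k`: `(σ_k/h_k) 2^(α_k) h_j η 2^(-α_j) ≤ 2 Th(h_k) η h_j σ_j/M(h_j) =
2 η σ_j Th(h_k)/Th(h_j)`, the sum over `k < j` is `≤ 2 η σ_j`. So
`F ≥ (1/R₀)(1 - η (3 + R₀)) ≥ 1/(2R₀)` for `η = 1/(2(3+R₀))`. `c₀ = 1/(2R₀) ≤ 1`, `H = h_{K-1}`.
`E = cell b i ∩ e`, `lam E ≥ (1/2) 2^{-b} ≥ 1/(4 M(v))`. `η`, `c₀` depend only on `κ`.
-/

set_option autoImplicit false

namespace Pool.Agent.OB9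

open MeasureTheory Set Filter
open scoped ENNReal Topology

noncomputable section

variable {κ : ℕ} {G : ℝ → ℝ}

private theorem kappa_pos (hG : Nice κ G) : κ ≠ 0 := by
  rintro rfl
  obtain ⟨T, hT1, hT2⟩ := ((hG.tends.eventually_ge_atTop (2 : ℝ)).and
    (eventually_ge_atTop (1 : ℝ))).exists
  have h1 := hG.grow T 1 hT2 zero_le_one
  rw [mul_one, pow_zero, one_mul, hG.one 1 zero_le_one le_rfl] at h1
  linarith

private theorem exists_R (hG : Nice κ G) : ∃ R : ℝ, 1 ≤ R ∧ ∀ {K : ℕ} {h : ℕ → ℝ},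
    (∀ k < K, 1 ≤ h k) → (∀ k, k + 1 < K → 2 * h k ^ κ ≤ h (k + 1) ^ κ) →
    ∀ k < K, ∑ j ∈ Finset.range (k + 1), h j ≤ R * h k := by
  have hκ := kappa_pos hG
  have hκ' : (0 : ℝ) < κ := by exact_mod_cast Nat.pos_of_ne_zero hκ
  obtain ⟨ρ, hρ1, hρκ⟩ : ∃ ρ : ℝ, 1 < ρ ∧ ρ ^ κ = 2 :=
    ⟨(2 : ℝ) ^ ((κ : ℝ)⁻¹), Real.one_lt_rpow (by norm_num) (by positivity),
      Real.rpow_inv_natCast_pow (by norm_num) hκ⟩
  have hρ0 : 0 < ρ - 1 := by linarith
  have hR1 : 1 ≤ ρ / (ρ - 1) := by
    rw [le_div_iff₀ hρ0]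
    linarith
  refine ⟨ρ / (ρ - 1), hR1, ?_⟩
  intro K h h1 h2 k
  induction k with
  | zero =>
    intro hk
    rw [zero_add, Finset.sum_range_one]
    have h3 := h1 0 hk
    exact le_mul_of_one_le_left (by linarith) hR1
  | succ k ih =>
    intro hk
    rw [Finset.sum_range_succ]
    have h3 := ih (by omega)
    have h5 : ρ * h k ≤ h (k + 1) := by
      refine le_of_pow_le_pow_left₀ hκ (by linarith [h1 (k + 1) hk]) ?_
      rw [mul_pow, hρκ]
      exact h2 k hk
    have h6 : ρ / (ρ - 1) * h k ≤ 1 / (ρ - 1) * h (k + 1) := by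
      calc ρ / (ρ - 1) * h k = 1 / (ρ - 1) * (ρ * h k) := by ring
        _ ≤ 1 / (ρ - 1) * h (k + 1) := mul_le_mul_of_nonneg_left h5 (by positivity)
    have h7 : ρ / (ρ - 1) * h (k + 1) = 1 / (ρ - 1) * h (k + 1) + h (k + 1) := by
      field_simp
      ring
    rw [h7]
    linarith

private theorem sum_T {K : ℕ} {Tk : ℕ → ℝ} (h0 : 0 < K → 0 ≤ Tk 0)
    (h : ∀ k, k + 1 < K → 2 * Tk k ≤ Tk (k + 1)) :
    ∀ j < K, ∑ k ∈ Finset.range j, Tk k ≤ Tk j := by
  intro j
  induction j with
  | zero =>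
    intro hj
    simpa using h0 hj
  | succ j ih =>
    intro hj
    rw [Finset.sum_range_succ]
    have h3 := ih (by omega)
    have h4 := h j hj
    linarith

private theorem sum_lt {K k : ℕ} (hk : k < K) (u : ℕ → ℝ) :
    ∑ j ∈ Finset.range K, (if j < k then u j else 0) = ∑ j ∈ Finset.range k, u j := by
  rw [← Finset.sum_filter]
  refine Finset.sum_congr ?_ fun _ _ => rfl
  ext j
  simp only [Finset.mem_filter, Finset.mem_range]
  omega

private theorem core_low {K : ℕ} {h σ A Tk : ℕ → ℝ} {I : ℕ → ℕ → ℝ} {η R : ℝ} (hη : 0 ≤ η)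
    (hh : ∀ k < K, 0 < h k) (hσ : ∀ k < K, 0 < σ k)
    (hσ1 : ∑ k ∈ Finset.range K, σ k = 1) (hA : ∀ k < K, 0 < A k)
    (hTk : ∀ k < K, 0 < Tk k)
    (hd : ∀ k < K, (1 - η) / A k ≤ I k k)
    (ho : ∀ k < K, ∀ j < K, j ≠ k → |I j k| ≤ η / A k ∧ |I j k| ≤ η / A j)
    (hR : ∀ k < K, ∑ j ∈ Finset.range (k + 1), h j ≤ R * h k)
    (hT : ∀ j < K, ∑ k ∈ Finset.range j, Tk k ≤ Tk j)
    (hup : ∀ k < K, σ k / h k * A k ≤ 2 * Tk k)
    (hdn : ∀ k < K, h k / A k ≤ σ k / Tk k) :
    1 - η * (3 + R) ≤ ∑ k ∈ Finset.range K,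
      σ k / h k * (A k * ∑ j ∈ Finset.range K, h j * I j k) := by
  have e : ∑ k ∈ Finset.range K, σ k / h k * (A k * ∑ j ∈ Finset.range K, h j * I j k) =
      ∑ k ∈ Finset.range K, ∑ j ∈ Finset.range K, σ k / h k * (A k * (h j * I j k)) := by
    refine Finset.sum_congr rfl fun k _ => ?_
    rw [Finset.mul_sum, Finset.mul_sum]
  rw [e]
  have hterm : ∀ k ∈ Finset.range K, ∀ j ∈ Finset.range K,
      (if j = k then σ k * (1 - η) else 0) - (if j < k then η * σ k / h k * h j else 0) -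
        (if k < j then 2 * η * σ j / Tk j * Tk k else 0) ≤
      σ k / h k * (A k * (h j * I j k)) := by
    intro k hk j hj
    rw [Finset.mem_range] at hk hj
    have h1 := hh k hk
    have h2 := hh j hj
    have h3 := hσ k hk
    have h4 := hA k hk
    have h5 := hA j hj
    have h6 := hTk k hk
    have h7 := hTk j hj
    have h8 := hσ j hj
    rcases lt_trichotomy j k with hjk | hjk | hjk
    · rw [if_neg hjk.ne, if_pos hjk, if_neg (not_lt.2 hjk.le)]
      have h9 := (ho k hk j hj hjk.ne).1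
      have h10 : |σ k / h k * (A k * (h j * I j k))| ≤ η * σ k / h k * h j := by
        rw [abs_mul, abs_mul, abs_mul, abs_of_pos (div_pos h3 h1), abs_of_pos h4, abs_of_pos h2]
        calc σ k / h k * (A k * (h j * |I j k|)) ≤ σ k / h k * (A k * (h j * (η / A k))) := by
              gcongr
          _ = η * σ k / h k * h j := by field_simp
      have := (abs_le.1 h10).1
      linarith
    · subst hjk
      rw [if_pos rfl, if_neg (lt_irrefl j), if_neg (lt_irrefl j), sub_zero, sub_zero]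
      calc σ j * (1 - η) = σ j / h j * (A j * (h j * ((1 - η) / A j))) := by
            field_simp
        _ ≤ σ j / h j * (A j * (h j * I j j)) := by
            have := hd j hj
            gcongr
    · rw [if_neg hjk.ne', if_neg (not_lt.2 hjk.le), if_pos hjk]
      have h9 := (ho k hk j hj hjk.ne').2
      have h10 : |σ k / h k * (A k * (h j * I j k))| ≤ 2 * η * σ j / Tk j * Tk k := by
        rw [abs_mul, abs_mul, abs_mul, abs_of_pos (div_pos h3 h1), abs_of_pos h4, abs_of_pos h2]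
        calc σ k / h k * (A k * (h j * |I j k|)) = (σ k / h k * A k) * (h j * |I j k|) := by ring
          _ ≤ (2 * Tk k) * (h j * (η / A j)) := by
              have := hup k hk
              gcongr
          _ = 2 * Tk k * η * (h j / A j) := by ring
          _ ≤ 2 * Tk k * η * (σ j / Tk j) := by
              have := hdn j hj
              gcongr
          _ = 2 * η * σ j / Tk j * Tk k := by ring
      have := (abs_le.1 h10).1
      linarith
  have hs := Finset.sum_le_sum fun k hk => Finset.sum_le_sum (hterm k hk)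
  refine le_trans ?_ hs
  simp only [Finset.sum_sub_distrib]
  have h1 : ∑ k ∈ Finset.range K, ∑ j ∈ Finset.range K, (if j = k then σ k * (1 - η) else 0) =
      1 - η := by
    have : ∀ k ∈ Finset.range K, ∑ j ∈ Finset.range K, (if j = k then σ k * (1 - η) else 0) =
        σ k * (1 - η) := by
      intro k hk
      rw [Finset.sum_ite_eq' (Finset.range K) k, if_pos hk]
    rw [Finset.sum_congr rfl this, ← Finset.sum_mul, hσ1, one_mul]
  have h2 : ∑ k ∈ Finset.range K, ∑ j ∈ Finset.range K,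
      (if j < k then η * σ k / h k * h j else 0) ≤ η * R := by
    have : ∀ k ∈ Finset.range K, ∑ j ∈ Finset.range K,
        (if j < k then η * σ k / h k * h j else 0) ≤ σ k * (η * R) := by
      intro k hk
      rw [Finset.mem_range] at hk
      rw [sum_lt hk, ← Finset.mul_sum]
      have h3 := hR k hk
      have h4 := hh k hk
      have h5 := hσ k hk
      rw [Finset.sum_range_succ] at h3
      calc η * σ k / h k * ∑ j ∈ Finset.range k, h j ≤ η * σ k / h k * (R * h k) := by
            gcongr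
            linarith
        _ = σ k * (η * R) := by field_simp
    calc _ ≤ ∑ k ∈ Finset.range K, σ k * (η * R) := Finset.sum_le_sum this
      _ = η * R := by rw [← Finset.sum_mul, hσ1, one_mul]
  have h3 : ∑ k ∈ Finset.range K, ∑ j ∈ Finset.range K,
      (if k < j then 2 * η * σ j / Tk j * Tk k else 0) ≤ 2 * η := by
    rw [Finset.sum_comm]
    have : ∀ j ∈ Finset.range K, ∑ k ∈ Finset.range K,
        (if k < j then 2 * η * σ j / Tk j * Tk k else 0) ≤ σ j * (2 * η) := by
      intro j hj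
      rw [Finset.mem_range] at hj
      rw [sum_lt hj, ← Finset.mul_sum]
      have h3 := hT j hj
      have h4 := hTk j hj
      have h5 := hσ j hj
      calc 2 * η * σ j / Tk j * ∑ k ∈ Finset.range j, Tk k ≤ 2 * η * σ j / Tk j * Tk j := by
            gcongr
        _ = σ j * (2 * η) := by field_simp
    calc _ ≤ ∑ j ∈ Finset.range K, σ j * (2 * η) := Finset.sum_le_sum this
      _ = 2 * η := by rw [← Finset.sum_mul, hσ1, one_mul]
  rw [h1]
  linarith

/-- The function `(1/R) ∑ h_k E_k 1_f`. -/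
private def XX (R : ℝ) (K : ℕ) (h : ℕ → ℝ) (E : ℕ → ℝ → ℝ) (f : Set ℝ) : ℝ → ℝ :=
  f.indicator (fun t => 1 / R * ∑ j ∈ Finset.range K, h j * E j t)

private theorem XX_meas {R : ℝ} {K : ℕ} {h : ℕ → ℝ} {E : ℕ → ℝ → ℝ} {f : Set ℝ}
    (hE : ∀ j, Measurable (E j)) (hf : MeasurableSet f) : Measurable (XX R K h E f) :=
  Measurable.indicator (measurable_const.mul
    (Finset.measurable_sum _ fun j _ => measurable_const.mul (hE j))) hf

private theorem abs_E_le {E : ℕ → ℝ → ℝ} (hE : ∀ j t, E j t = 0 ∨ |E j t| = 1) (j : ℕ) (t : ℝ) :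
    |E j t| ≤ 1 := by
  rcases hE j t with h | h
  · rw [h, abs_zero]
    exact zero_le_one
  · exact h.le

private theorem XX_le {R : ℝ} (hR1 : 1 ≤ R) {K : ℕ} {h : ℕ → ℝ} (hh : ∀ k < K, 1 ≤ h k)
    {E : ℕ → ℝ → ℝ} (hE : ∀ j t, E j t = 0 ∨ |E j t| = 1) {f : Set ℝ} (t : ℝ) :
    |XX R K h E f t| ≤ ∑ k ∈ Finset.range K, h k := by
  have h0 : 0 ≤ ∑ k ∈ Finset.range K, h k :=
    Finset.sum_nonneg fun k hk => zero_le_one.trans (hh k (Finset.mem_range.1 hk))
  unfold XX
  by_cases ht : t ∈ f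
  · rw [indicator_of_mem ht, abs_mul, abs_of_pos (by positivity : (0 : ℝ) < 1 / R)]
    have h1 : |∑ j ∈ Finset.range K, h j * E j t| ≤ ∑ k ∈ Finset.range K, h k := by
      refine (Finset.abs_sum_le_sum_abs _ _).trans (Finset.sum_le_sum fun k hk => ?_)
      have h2 := hh k (Finset.mem_range.1 hk)
      rw [abs_mul, abs_of_nonneg (by linarith : 0 ≤ h k)]
      calc h k * |E k t| ≤ h k * 1 := by
            have := abs_E_le hE k t
            gcongr
        _ = h k := mul_one _
    have h2 : 1 / R ≤ 1 := by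
      rw [div_le_one (by linarith)]
      exact hR1
    calc 1 / R * |∑ j ∈ Finset.range K, h j * E j t| ≤ 1 * ∑ k ∈ Finset.range K, h k := by
          gcongr
      _ = _ := one_mul _
  · rw [indicator_of_notMem ht, abs_zero]
    exact h0

private theorem XX_MG (hG : Nice κ G) {R : ℝ} (hR1 : 1 ≤ R) {K : ℕ} {h : ℕ → ℝ}
    (hh : ∀ k < K, 1 ≤ h k)
    (hR : ∀ k < K, ∑ j ∈ Finset.range (k + 1), h j ≤ R * h k)
    {E : ℕ → ℝ → ℝ} (hE : ∀ j t, E j t = 0 ∨ |E j t| = 1) {f : Set ℝ} (t : ℝ) :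
    MG G |XX R K h E f t| ≤ ∑ k ∈ Finset.range K, MG G (h k) * E k t ^ 2 := by
  classical
  have hM : ∀ k < K, 0 ≤ MG G (h k) := fun k hk =>
    (sq_nonneg _).trans (hG.sq_le (zero_le_one.trans (hh k hk)))
  have hnn : 0 ≤ ∑ k ∈ Finset.range K, MG G (h k) * E k t ^ 2 :=
    Finset.sum_nonneg fun k hk => mul_nonneg (hM k (Finset.mem_range.1 hk)) (sq_nonneg _)
  have hz : MG G |(0 : ℝ)| ≤ ∑ k ∈ Finset.range K, MG G (h k) * E k t ^ 2 := by
    rw [abs_zero, hG.qorl.zero]
    exact hnn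
  by_cases ht : t ∈ f
  swap
  · unfold XX
    rw [indicator_of_notMem ht]
    exact hz
  have hX : XX R K h E f t = 1 / R * ∑ j ∈ Finset.range K, h j * E j t := by
    unfold XX
    rw [indicator_of_mem ht]
  set S : Finset ℕ := (Finset.range K).filter (fun k => E k t ≠ 0) with hS
  have hXS : ∑ j ∈ Finset.range K, h j * E j t = ∑ j ∈ S, h j * E j t := by
    rw [hS, Finset.sum_filter]
    refine Finset.sum_congr rfl fun j _ => ?_
    by_cases h0 : E j t = 0
    · simp [h0]
    · simp [h0]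
  rcases S.eq_empty_or_nonempty with hempty | hne
  · rw [hX, hXS, hempty, Finset.sum_empty, mul_zero]
    exact hz
  · set m := S.max' hne with hm
    have hmS : m ∈ S := S.max'_mem hne
    have hmK : m < K := Finset.mem_range.1 (Finset.mem_filter.1 hmS).1
    have hmE : |E m t| = 1 := (hE m t).resolve_left (Finset.mem_filter.1 hmS).2
    have h1 : |∑ j ∈ S, h j * E j t| ≤ ∑ j ∈ Finset.range (m + 1), h j := by
      calc |∑ j ∈ S, h j * E j t| ≤ ∑ j ∈ S, |h j * E j t| := Finset.abs_sum_le_sum_abs _ _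
        _ ≤ ∑ j ∈ S, h j := by
            refine Finset.sum_le_sum fun k hk => ?_
            have h2 := hh k (Finset.mem_range.1 (Finset.mem_filter.1 hk).1)
            rw [abs_mul, abs_of_nonneg (by linarith : 0 ≤ h k)]
            calc h k * |E k t| ≤ h k * 1 := by
                  have := abs_E_le hE k t
                  gcongr
              _ = h k := mul_one _
        _ ≤ ∑ j ∈ Finset.range (m + 1), h j := by
            refine Finset.sum_le_sum_of_subset_of_nonneg ?_ ?_
            · intro k hk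
              rw [Finset.mem_range]
              have := S.le_max' k hk
              omega
            · intro k hk _
              rw [Finset.mem_range] at hk
              exact zero_le_one.trans (hh k (by omega))
    have h2 : |XX R K h E f t| ≤ h m := by
      rw [hX, hXS, abs_mul, abs_of_pos (by positivity : (0 : ℝ) < 1 / R)]
      have h3 := h1.trans (hR m hmK)
      rw [one_div, inv_mul_le_iff₀ (by linarith)]
      exact h3
    calc MG G |XX R K h E f t| ≤ MG G (h m) :=
          hG.qorl.mono (mem_Ici.2 (abs_nonneg _)) (mem_Ici.2 (zero_le_one.trans (hh m hmK))) h2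
      _ = MG G (h m) * E m t ^ 2 := by rw [← sq_abs, hmE]; ring
      _ ≤ ∑ k ∈ Finset.range K, MG G (h k) * E k t ^ 2 :=
          Finset.single_le_sum (f := fun k => MG G (h k) * E k t ^ 2)
            (fun k hk => mul_nonneg (hM k (Finset.mem_range.1 hk)) (sq_nonneg _))
            (Finset.mem_range.2 hmK)

private theorem XX_md (hG : Nice κ G) {R : ℝ} (hR1 : 1 ≤ R) {K : ℕ} {h σ A : ℕ → ℝ}
    (hh : ∀ k < K, 1 ≤ h k) (hσ1 : ∑ k ∈ Finset.range K, σ k = 1)
    (hMA : ∀ k < K, MG G (h k) * (1 / A k) ≤ σ k)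
    (hR : ∀ k < K, ∑ j ∈ Finset.range (k + 1), h j ≤ R * h k)
    {E : ℕ → ℝ → ℝ} (hE : ∀ j t, E j t = 0 ∨ |E j t| = 1) (hEm : ∀ j, Measurable (E j))
    (hEs : ∀ k < K, ∫ t, E k t ^ 2 ∂lam = 1 / A k) {f : Set ℝ} :
    md (MG G) (XX R K h E f) ≤ 1 := by
  have hint : ∀ k, Integrable (fun t => E k t ^ 2) lam := by
    intro k
    refine Integrable.of_bound ((hEm k).pow_const 2).aestronglyMeasurable 1
      (Eventually.of_forall fun t => ?_)
    rw [Real.norm_eq_abs, abs_pow]
    exact pow_le_one₀ (abs_nonneg _) (abs_E_le hE k t)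
  have hM : ∀ k < K, 0 ≤ MG G (h k) := fun k hk =>
    (sq_nonneg _).trans (hG.sq_le (zero_le_one.trans (hh k hk)))
  unfold md
  calc ∫⁻ t, ENNReal.ofReal (MG G |XX R K h E f t|) ∂lam
      ≤ ∫⁻ t, ENNReal.ofReal (∑ k ∈ Finset.range K, MG G (h k) * E k t ^ 2) ∂lam :=
        lintegral_mono fun t => ENNReal.ofReal_le_ofReal (XX_MG hG hR1 hh hR hE t)
    _ = ENNReal.ofReal (∫ t, ∑ k ∈ Finset.range K, MG G (h k) * E k t ^ 2 ∂lam) := by
        rw [ofReal_integral_eq_lintegral_ofReal]
        · exact integrable_finsetSum _ fun k _ => (hint k).const_mul _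
        · exact Eventually.of_forall fun t => Finset.sum_nonneg fun k hk =>
            mul_nonneg (hM k (Finset.mem_range.1 hk)) (sq_nonneg _)
    _ ≤ ENNReal.ofReal 1 := by
        refine ENNReal.ofReal_le_ofReal ?_
        rw [integral_finsetSum _ fun k _ => (hint k).const_mul _, ← hσ1]
        refine Finset.sum_le_sum fun k hk => ?_
        rw [integral_const_mul, hEs k (Finset.mem_range.1 hk)]
        exact hMA k (Finset.mem_range.1 hk)
    _ = 1 := ENNReal.ofReal_one

private theorem XX_int {R : ℝ} {K : ℕ} {h : ℕ → ℝ} {E : ℕ → ℝ → ℝ}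
    (hE : ∀ j t, E j t = 0 ∨ |E j t| = 1) (hEm : ∀ j, Measurable (E j)) {f : Set ℝ}
    (hf : MeasurableSet f) (k : ℕ) :
    ∫ t, XX R K h E f t * E k t ∂lam =
      1 / R * ∑ j ∈ Finset.range K, h j * ∫ t in f, E j t * E k t ∂lam := by
  have hint : ∀ j, Integrable (fun t => E j t * E k t) (lam.restrict f) := by
    intro j
    refine Integrable.of_bound ((hEm j).mul (hEm k)).aestronglyMeasurable 1
      (Eventually.of_forall fun t => ?_)
    rw [Real.norm_eq_abs, abs_mul]
    exact mul_le_one₀ (abs_E_le hE j t) (abs_nonneg _) (abs_E_le hE k t)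
  have e : (fun t => XX R K h E f t * E k t) =
      f.indicator (fun t => 1 / R * ∑ j ∈ Finset.range K, h j * (E j t * E k t)) := by
    funext t
    unfold XX
    by_cases ht : t ∈ f
    · rw [indicator_of_mem ht, indicator_of_mem ht, mul_assoc, Finset.sum_mul]
      congr 1
      exact Finset.sum_congr rfl fun j _ => mul_assoc _ _ _
    · rw [indicator_of_notMem ht, indicator_of_notMem ht, zero_mul]
  rw [e, integral_indicator hf, integral_const_mul,
    integral_finsetSum _ fun j _ => (hint j).const_mul _]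
  congr 1
  exact Finset.sum_congr rfl fun j _ => integral_const_mul _ _

/-- The integral of `E_j E_k` over the complement of `f`. -/
private theorem compl_le {E : ℕ → ℝ → ℝ}
    (hE : ∀ j t, E j t = 0 ∨ |E j t| = 1) (hEm : ∀ j, Measurable (E j)) {f : Set ℝ}
    (hf : MeasurableSet f) {j k m : ℕ} (hm : m = j ∨ m = k) {A : Set ℝ} (hA : MeasurableSet A)
    (hEA : ∀ t, 0 ≤ t → E m t ≠ 0 → t ∈ A) {r : ℝ} (hr : 0 ≤ r)
    (h : lam (A \ f) ≤ ENNReal.ofReal r) :
    |∫ t in fᶜ, E j t * E k t ∂lam| ≤ r := by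
  have hm1 : ∀ t, |E j t * E k t| ≤ |E m t| := by
    intro t
    rw [abs_mul]
    rcases hm with rfl | rfl
    · calc |E m t| * |E k t| ≤ |E m t| * 1 := by
            have := abs_E_le hE k t
            gcongr
        _ = _ := mul_one _
    · calc |E j t| * |E m t| ≤ 1 * |E m t| := by
            have := abs_E_le hE j t
            gcongr
        _ = _ := one_mul _
  have h1 : ∀ᵐ t ∂lam, ‖fᶜ.indicator (fun t => E j t * E k t) t‖ ≤
      (A \ f).indicator (fun _ => (1 : ℝ)) t := by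
    filter_upwards [ae_mem_Ico] with t ht
    rw [Real.norm_eq_abs]
    by_cases h2 : t ∈ f
    · rw [indicator_of_notMem (show t ∉ fᶜ from fun h3 => h3 h2), abs_zero]
      exact indicator_nonneg (fun _ _ => zero_le_one) t
    · rw [indicator_of_mem (show t ∈ fᶜ from h2)]
      by_cases h3 : E m t = 0
      · refine (hm1 t).trans ?_
        rw [h3, abs_zero]
        exact indicator_nonneg (fun _ _ => zero_le_one) t
      · rw [indicator_of_mem (show t ∈ A \ f from ⟨hEA t ht.1 h3, h2⟩)]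
        exact (hm1 t).trans (abs_E_le hE m t)
  rw [← integral_indicator hf.compl]
  have h2 := norm_integral_le_of_norm_le
    ((integrable_const (μ := lam) (1 : ℝ)).indicator (hA.diff hf)) h1
  rw [Real.norm_eq_abs] at h2
  refine h2.trans ?_
  rw [integral_indicator (hA.diff hf), setIntegral_const, smul_eq_mul, mul_one]
  rw [measureReal_def]
  exact ENNReal.toReal_le_of_le_ofReal hr h

theorem TM_test (hG : Nice κ G) :
    ∃ η c₀ : ℝ, 0 < η ∧ 0 < c₀ ∧ c₀ ≤ 1 ∧ ∀ {CJ N : ℝ}, 1 ≤ N → ∀ {K l b p : ℕ} {α : ℕ → ℕ}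
      {h σ : ℕ → ℝ} {v : ℝ}, Prof κ G CJ N K h σ v → Lev G l b K α h σ v → b < p →
      ∀ {T : L2 →L[ℝ] L2}, TM l b p K α h σ v T → ∃ H : ℝ, 0 ≤ H ∧
      ∀ {e f : Set ℝ}, MeasurableSet e → MeasurableSet f → Good η l e f →
        Test (MG G) c₀ T H v e f := by
  obtain ⟨R, hR1, hRs⟩ := exists_R hG
  have hR0 : 0 < R := by linarith
  refine ⟨1 / (2 * (3 + R)), 1 / (2 * R), by positivity, by positivity, ?_, ?_⟩
  · rw [div_le_one (by positivity)]
    linarith
  intro CJ N hN K l b p α h σ v hP hL hp T hT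
  set η : ℝ := 1 / (2 * (3 + R)) with hη
  have hη0 : 0 < η := by positivity
  have hh : ∀ k < K, 1 ≤ h k := fun k hk => (hP.hN k hk).2
  have hR := hRs hh (fun k hk => (hP.geo k hk).1)
  have hv : 0 < v := by linarith [hP.vN]
  refine ⟨∑ k ∈ Finset.range K, h k, Finset.sum_nonneg fun k hk =>
    zero_le_one.trans (hh k (Finset.mem_range.1 hk)), ?_⟩
  intro e f he hf hGood
  have hK := hP.Kpos
  obtain ⟨i, hi, hi1, hi2⟩ := pick he hf hGood (hL.le (K - 1) (by omega)).1
  have hE : ∀ k t, es l (α k) b (p + k) i t = 0 ∨ |es l (α k) b (p + k) i t| = 1 :=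
    fun k t => es_vals _ _ _ _ _ _
  have hEm : ∀ k, Measurable (es l (α k) b (p + k) i) := fun k => measurable_es _ _ _ _ _
  have hMh : ∀ k < K, 0 < MG G (h k) := fun k hk =>
    lt_of_lt_of_le (by have := hh k hk; positivity) (hG.sq_le (zero_le_one.trans (hh k hk)))
  have hThM : ∀ k < K, MG G (h k) = h k * Th G (h k) := fun k _ => by
    unfold MG Th
    ring
  have hTh : ∀ k < K, 0 < Th G (h k) := fun k hk => by
    have h1 := hMh k hk
    rw [hThM k hk] at h1
    exact (pos_iff_pos_of_mul_pos h1).1 (by linarith [hh k hk])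
  set x : L2 := (memLp_of_bdd (XX_meas (R := R) (K := K) (h := h) hEm hf)
    (fun t => XX_le hR1 hh hE (f := f) t)).toLp _ with hx
  have hxX : ∀ᵐ t ∂lam, x t = XX R K h (fun k => es l (α k) b (p + k) i) f t :=
    MemLp.coeFn_toLp _
  have hcompl : ∀ j < K, ∀ k < K, ∀ m < K, m = j ∨ m = k →
      |∫ t in fᶜ, es l (α j) b (p + j) i t * es l (α k) b (p + k) i t ∂lam| ≤ η / 2 ^ (α m) := by
    intro j _ k _ m hm hmjk
    refine compl_le (E := fun k => es l (α k) b (p + k) i) hE hEm hf hmjk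
      (measurableSet_cell (α m) (adr l (α m) b i)) ?_ (by positivity)
      (hi1 (α m) (hL.le m hm).2 (hL.mono m (K - 1) (by omega) (by omega)))
    intro t ht0 ht
    rw [mem_cell ht0]
    exact (es_ne_zero _ _ _ _ _ _).1 ht
  have hintE : ∀ j k, Integrable
      (fun t => es l (α j) b (p + j) i t * es l (α k) b (p + k) i t) lam := by
    intro j k
    refine Integrable.of_bound ((hEm j).mul (hEm k)).aestronglyMeasurable 1
      (Eventually.of_forall fun t => ?_)
    rw [Real.norm_eq_abs, abs_mul]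
    exact mul_le_one₀ (abs_E_le (E := fun k => es l (α k) b (p + k) i) hE j t) (abs_nonneg _)
      (abs_E_le (E := fun k => es l (α k) b (p + k) i) hE k t)
  have hsplit : ∀ j k, ∫ t in f, es l (α j) b (p + j) i t * es l (α k) b (p + k) i t ∂lam =
      ∫ t, es l (α j) b (p + j) i t * es l (α k) b (p + k) i t ∂lam -
      ∫ t in fᶜ, es l (α j) b (p + j) i t * es l (α k) b (p + k) i t ∂lam := by
    intro j k
    rw [← integral_add_compl hf (hintE j k)]
    ring
  have hlow := core_low (K := K) (h := h) (σ := σ) (A := fun k => (2 : ℝ) ^ (α k))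
    (Tk := fun k => Th G (h k))
    (I := fun j k => ∫ t in f, es l (α j) b (p + j) i t * es l (α k) b (p + k) i t ∂lam)
    (η := η) (R := R) hη0.le (fun k hk => by linarith [hh k hk]) hP.σpos hP.σsum
    (fun k _ => by positivity) hTh
    (by
      intro k hk
      show (1 - η) / 2 ^ (α k) ≤ ∫ t in f, es l (α k) b (p + k) i t * es l (α k) b (p + k) i t ∂lam
      rw [hsplit]
      have h1 := (abs_le.1 (hcompl k hk k hk k hk (Or.inl rfl))).2
      have h2 : ∫ t, es l (α k) b (p + k) i t * es l (α k) b (p + k) i t ∂lam =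
          1 / 2 ^ (α k) := by
        rw [← es_sq l (α k) b (p + k) i]
        exact integral_congr_ae (Eventually.of_forall fun t => (sq _).symm)
      rw [h2, sub_div]
      linarith)
    (by
      intro k hk j hj hjk
      have h1 : ∫ t, es l (α j) b (p + j) i t * es l (α k) b (p + k) i t ∂lam = 0 :=
        es_fam (fun k hk => (hL.le k hk).1) hp hj hk hi hi (by
          intro h2
          exact hjk (Prod.mk.inj h2).1)
      show |∫ t in f, es l (α j) b (p + j) i t * es l (α k) b (p + k) i t ∂lam| ≤ _ ∧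
        |∫ t in f, es l (α j) b (p + j) i t * es l (α k) b (p + k) i t ∂lam| ≤ _
      rw [hsplit, h1, zero_sub, abs_neg]
      exact ⟨hcompl j hj k hk k hk (Or.inr rfl), hcompl j hj k hk j hj (Or.inl rfl)⟩)
    hR
    (sum_T (fun h0 => (hTh 0 h0).le) (fun k hk => (hP.geo k hk).2))
    (by
      intro k hk
      have h1 := hL.dn k hk
      have h2 := hP.σpos k hk
      have h3 : 0 < h k := by linarith [hh k hk]
      show σ k / h k * 2 ^ (α k) ≤ 2 * Th G (h k)
      calc σ k / h k * 2 ^ (α k) ≤ σ k / h k * (2 * (MG G (h k) / σ k)) := by gcongr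
        _ = 2 * Th G (h k) := by
          rw [hThM k hk]
          field_simp)
    (by
      intro k hk
      have h1 := hL.up k hk
      have h2 := hP.σpos k hk
      have h3 : 0 < h k := by linarith [hh k hk]
      have h4 := hTh k hk
      show h k / 2 ^ (α k) ≤ σ k / Th G (h k)
      rw [div_le_div_iff₀ (by positivity) h4, ← hThM k hk]
      rw [div_le_iff₀ h2] at h1
      linarith)
  have h12 : 1 / 2 ≤ 1 - η * (3 + R) := by
    rw [hη]
    field_simp
    linarith
  refine ⟨x, ?_, ?_, ?_, cell b i ∩ e, (measurableSet_cell b i).inter he, inter_subset_right, ?_, ?_⟩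
  · filter_upwards [hxX] with t ht
    rw [ht]
    exact XX_le hR1 hh hE t
  · filter_upwards [hxX] with t ht htf
    rw [ht]
    unfold XX
    exact indicator_of_notMem htf _
  · rw [md_congr hxX]
    refine XX_md hG hR1 (σ := σ) (A := fun k => (2 : ℝ) ^ (α k)) hh hP.σsum ?_ hR hE hEm ?_
    · intro k hk
      have h1 := hL.up k hk
      have h2 := hP.σpos k hk
      rw [div_le_iff₀ h2] at h1
      show MG G (h k) * (1 / 2 ^ (α k)) ≤ σ k
      rw [mul_one_div, div_le_iff₀ (by positivity)]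
      linarith
    · intro k _
      exact es_sq l (α k) b (p + k) i
  · -- the measure of the cell
    have h1 : lam (cell b i) ≤ lam (cell b i ∩ e) + lam (cell b i \ e) := by
      refine le_trans (measure_mono ?_) (measure_union_le _ _)
      rw [inter_union_sdiff]
    rw [lam_cell hi] at h1
    have h2 : ENNReal.ofReal (1 / 2 ^ b) ≤ lam (cell b i ∩ e) + ENNReal.ofReal (1 / 2 / 2 ^ b) :=
      h1.trans (by gcongr)
    have h3 : ENNReal.ofReal (1 / 2 / 2 ^ b) ≤ lam (cell b i ∩ e) := by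
      have h4 : ENNReal.ofReal (1 / 2 ^ b) = ENNReal.ofReal (1 / 2 / 2 ^ b) +
          ENNReal.ofReal (1 / 2 / 2 ^ b) := by
        rw [← ENNReal.ofReal_add (by positivity) (by positivity)]
        congr 1
        ring
      rw [h4] at h2
      exact (ENNReal.add_le_add_iff_right ENNReal.ofReal_ne_top).1 h2
    refine le_trans (ENNReal.ofReal_le_ofReal ?_) h3
    have h5 := hL.bdn
    have hMv : 0 < MG G v := by
      have : (0 : ℝ) < 2 ^ b := by positivity
      linarith
    rw [div_le_div_iff₀ (by positivity) (by positivity)]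
    linarith
  · filter_upwards [hT x, ae_mem_Ico] with t ht ht0 htE
    have hidx : idx b t = i := (mem_cell ht0.1).1 htE.1
    rw [ht, hidx]
    have hcf : ∀ k ∈ Finset.range K,
        σ k / h k * cf (es l (α k) b (p + k) i) (1 / 2 ^ (α k)) x =
        1 / R * (σ k / h k * (2 ^ (α k) * ∑ j ∈ Finset.range K, h j *
          ∫ t in f, es l (α j) b (p + j) i t * es l (α k) b (p + k) i t ∂lam)) := by
      intro k _
      have h1 : ∫ t, x t * es l (α k) b (p + k) i t ∂lam =
          1 / R * ∑ j ∈ Finset.range K, h j *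
          ∫ t in f, es l (α j) b (p + j) i t * es l (α k) b (p + k) i t ∂lam := by
        rw [← XX_int (E := fun k => es l (α k) b (p + k) i) hE hEm hf k]
        refine integral_congr_ae ?_
        filter_upwards [hxX] with s hs
        rw [hs]
      unfold cf
      rw [h1, div_div_eq_mul_div, div_one]
      ring
    rw [Finset.sum_congr rfl hcf, ← Finset.mul_sum, abs_mul, abs_of_pos hv, mul_comm (1 / (2 * R))]
    refine mul_le_mul_of_nonneg_left ?_ hv.le
    refine le_trans ?_ (le_abs_self _)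
    have h6 := h12.trans hlow
    calc 1 / (2 * R) = 1 / R * (1 / 2) := by
          field_simp
      _ ≤ _ := mul_le_mul_of_nonneg_left h6 (by positivity)

end

end Pool.Agent.OB9
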