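import Pool.Agent.OB9.Core

/-!
# Module OB9/NiB

Basic facts on nice functions.

PROOF. `G ≥ 1`, `G > 0`; continuity on `[0,∞)`: for `t > 0` and `s` near `t`,
`G(t) (min(s/t, 1))^κ ≤ ... ≤ G s ≤ G(t) (max(s/t,1))^κ` by `mono` and `grow` (for `s ≤ t`:
`G t = G((t/s) s) ≤ (t/s)^κ G s`); near `0` `G` is constant. `Th` is strictly increasing, continuous,
`Th 0 = 0`, tends to infinity, so it is onto `[0,∞)` (intermediate value theorem). `lt_of_two_mul`: if
`2 G s ≤ G t` then `s < t` (as `G s > 0` and `G` is monotone) and `2 G s ≤ G t ≤ (t/s)^κ G s` for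
`s > 0`. `G_le_pow`: `G t = G (t · 1) ≤ t^κ` for `t ≥ 1`, `G t = 1` for `t ≤ 1`.
-/

set_option autoImplicit false

namespace Pool.Agent.OB9

open MeasureTheory Set Filter
open scoped ENNReal Topology

noncomputable section

variable {κ : ℕ} {G : ℝ → ℝ}

theorem Nice.one_le (h : Nice κ G) {t : ℝ} (ht : 0 ≤ t) : 1 ≤ G t := by
  rcases le_total t 1 with h1 | h1
  · exact (h.one t ht h1).ge
  · have h2 := h.mono (mem_Ici.2 zero_le_one) (mem_Ici.2 ht) h1
    rwa [h.one 1 zero_le_one le_rfl] at h2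

private theorem nib_pos (h : Nice κ G) {t : ℝ} (ht : 0 ≤ t) : 0 < G t :=
  lt_of_lt_of_le one_pos (h.one_le ht)

private theorem nib_mono (h : Nice κ G) {s t : ℝ} (hs : 0 ≤ s) (hst : s ≤ t) : G s ≤ G t :=
  h.mono (show s ∈ Ici 0 from hs) (show t ∈ Ici 0 from hs.trans hst) hst

private theorem nib_up (h : Nice κ G) {s t : ℝ} (hs : 0 < s) (hst : s ≤ t) :
    G t ≤ (t / s) ^ κ * G s := by
  have h1 := h.grow (t / s) s ((one_le_div hs).2 hst) hs.le
  rwa [div_mul_cancel₀ _ hs.ne'] at h1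

theorem Nice.cont (h : Nice κ G) : ContinuousOn G (Ici 0) := by
  intro t ht
  rcases eq_or_lt_of_le (show (0 : ℝ) ≤ t from ht) with h0 | h0
  · subst h0
    have h1 : G =ᶠ[𝓝[Ici 0] (0 : ℝ)] fun _ => 1 := by
      have h2 : ∀ᶠ s in 𝓝[Ici 0] (0 : ℝ), s ∈ Iio (1 : ℝ) :=
        mem_nhdsWithin_of_mem_nhds (Iio_mem_nhds one_pos)
      filter_upwards [h2, self_mem_nhdsWithin] with s hs hs'
      exact h.one s hs' (le_of_lt hs)
    exact (continuousWithinAt_const).congr_of_eventuallyEq h1 (h.one 0 le_rfl zero_le_one)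
  · refine ContinuousAt.continuousWithinAt ?_
    have e1 : Tendsto (fun s : ℝ => (max (s / t) 1) ^ κ * G t) (𝓝 t)
        (𝓝 ((max (t / t) 1) ^ κ * G t)) :=
      ((((tendsto_id.div_const t).max tendsto_const_nhds).pow κ).mul_const _)
    have e2 : Tendsto (fun s : ℝ => G t / (max (t / s) 1) ^ κ) (𝓝 t)
        (𝓝 (G t / (max (t / t) 1) ^ κ)) := by
      refine Tendsto.div tendsto_const_nhds
        (((tendsto_const_nhds.div tendsto_id h0.ne').max tendsto_const_nhds).pow κ) ?_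
      rw [div_self h0.ne']
      simp
    rw [div_self h0.ne', max_self, one_pow, one_mul] at e1
    rw [div_self h0.ne', max_self, one_pow, div_one] at e2
    refine tendsto_of_tendsto_of_tendsto_of_le_of_le' e2 e1 ?_ ?_
    · filter_upwards [Ioi_mem_nhds h0] with s hs
      have hs0 : 0 < s := hs
      rw [div_le_iff₀ (by positivity)]
      rcases le_total s t with h1 | h1
      · have h2 := nib_up h hs0 h1
        have h3 : (t / s) ^ κ ≤ (max (t / s) 1) ^ κ :=
          pow_le_pow_left₀ (by positivity) (le_max_left _ _) κ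
        calc G t ≤ (t / s) ^ κ * G s := h2
          _ ≤ (max (t / s) 1) ^ κ * G s := mul_le_mul_of_nonneg_right h3 (nib_pos h hs0.le).le
          _ = G s * (max (t / s) 1) ^ κ := mul_comm _ _
      · have h2 := nib_mono h h0.le h1
        have h3 : (1 : ℝ) ≤ (max (t / s) 1) ^ κ := one_le_pow₀ (le_max_right _ _)
        calc G t ≤ G s := h2
          _ = G s * 1 := (mul_one _).symm
          _ ≤ G s * (max (t / s) 1) ^ κ := mul_le_mul_of_nonneg_left h3 (nib_pos h hs0.le).le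
    · filter_upwards [Ioi_mem_nhds h0] with s hs
      have hs0 : 0 < s := hs
      rcases le_total s t with h1 | h1
      · have h2 := nib_mono h hs0.le h1
        have h3 : (1 : ℝ) ≤ (max (s / t) 1) ^ κ := one_le_pow₀ (le_max_right _ _)
        calc G s ≤ G t := h2
          _ = 1 * G t := (one_mul _).symm
          _ ≤ (max (s / t) 1) ^ κ * G t := mul_le_mul_of_nonneg_right h3 (nib_pos h h0.le).le
      · have h2 := nib_up h h0 h1
        have h3 : (s / t) ^ κ ≤ (max (s / t) 1) ^ κ :=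
          pow_le_pow_left₀ (by positivity) (le_max_left _ _) κ
        exact h2.trans (mul_le_mul_of_nonneg_right h3 (nib_pos h h0.le).le)

theorem Nice.qorl (h : Nice κ G) : QOrl (MG G) := by
  refine ⟨?_, ?_, ?_, ?_, ?_⟩
  · intro s hs t ht hst
    have hs' : (0 : ℝ) ≤ s := hs
    exact mul_le_mul (pow_le_pow_left₀ hs' hst 2) (h.mono hs ht hst) (nib_pos h hs').le
      (by positivity)
  · intro c t hc0 hc1 ht
    have h1 : G (c * t) ≤ G t :=
      nib_mono h (mul_nonneg hc0 ht) (mul_le_of_le_one_left ht hc1)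
    have h2 : 0 ≤ t ^ 2 * G t := mul_nonneg (sq_nonneg t) (nib_pos h ht).le
    have h3 : c ^ 2 ≤ c := by nlinarith
    calc MG G (c * t) = c ^ 2 * (t ^ 2 * G (c * t)) := by unfold MG; ring
      _ ≤ c ^ 2 * (t ^ 2 * G t) :=
        mul_le_mul_of_nonneg_left (mul_le_mul_of_nonneg_left h1 (sq_nonneg t)) (sq_nonneg c)
      _ ≤ c * (t ^ 2 * G t) := mul_le_mul_of_nonneg_right h3 h2
      _ = c * MG G t := rfl
  · simp [MG]
  · exact ((continuous_pow 2).continuousOn).mul h.cont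
  · refine ⟨1, zero_le_one, ?_⟩
    simp [MG, h.one 1 zero_le_one le_rfl]

theorem Nice.G_le_pow (h : Nice κ G) {t : ℝ} (ht : 0 ≤ t) : G t ≤ 1 + t ^ κ := by
  rcases le_total t 1 with h1 | h1
  · rw [h.one t ht h1]
    have : 0 ≤ t ^ κ := pow_nonneg ht κ
    linarith
  · have h2 := h.grow t 1 h1 zero_le_one
    rw [mul_one, h.one 1 zero_le_one le_rfl, mul_one] at h2
    linarith

theorem Nice.Th_lt (h : Nice κ G) {s t : ℝ} (hs : 0 ≤ s) (hst : s < t) : Th G s < Th G t := by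
  unfold Th
  calc s * G s ≤ s * G t := mul_le_mul_of_nonneg_left (nib_mono h hs hst.le) hs
    _ < t * G t := mul_lt_mul_of_pos_right hst (nib_pos h (hs.trans hst.le))

theorem Nice.Th_le_iff (h : Nice κ G) {s t : ℝ} (hs : 0 ≤ s) (ht : 0 ≤ t) :
    Th G s ≤ Th G t ↔ s ≤ t := by
  constructor
  · intro h1
    by_contra h2
    exact absurd h1 (not_le.2 (h.Th_lt ht (not_le.1 h2)))
  · intro h1
    rcases eq_or_lt_of_le h1 with h2 | h2
    · rw [h2]
    · exact (h.Th_lt hs h2).le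

theorem Nice.Th_surj (h : Nice κ G) {y : ℝ} (hy : 0 ≤ y) : ∃ t, 0 ≤ t ∧ Th G t = y := by
  have hc : ContinuousOn (Th G) (Icc 0 y) :=
    (continuousOn_id.mul h.cont).mono fun t ht => ht.1
  have h1 := intermediate_value_Icc hy hc
  have h2 : y ∈ Icc (Th G 0) (Th G y) := by
    constructor
    · unfold Th
      rw [zero_mul]
      exact hy
    · unfold Th
      exact le_mul_of_one_le_right hy (h.one_le hy)
  obtain ⟨t, ht, e⟩ := h1 h2
  exact ⟨t, ht.1, e⟩

theorem Nice.Th_mul_ge (h : Nice κ G) {c t : ℝ} (hc : 1 ≤ c) (ht : 0 ≤ t) :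
    c * Th G t ≤ Th G (c * t) := by
  have h1 : G t ≤ G (c * t) := nib_mono h ht (le_mul_of_one_le_left ht hc)
  have h2 : 0 ≤ c * t := mul_nonneg (by linarith) ht
  calc c * Th G t = c * t * G t := by unfold Th; ring
    _ ≤ c * t * G (c * t) := mul_le_mul_of_nonneg_left h1 h2

theorem Nice.Th_mul_le (h : Nice κ G) {c t : ℝ} (hc : 1 ≤ c) (ht : 0 ≤ t) :
    Th G (c * t) ≤ c ^ (κ + 1) * Th G t := by
  have h1 := h.grow c t hc ht
  have h2 : 0 ≤ c * t := mul_nonneg (by linarith) ht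
  calc Th G (c * t) = c * t * G (c * t) := rfl
    _ ≤ c * t * (c ^ κ * G t) := mul_le_mul_of_nonneg_left h1 h2
    _ = c ^ (κ + 1) * Th G t := by unfold Th; ring

theorem Nice.MG_mul_ge (h : Nice κ G) {c t : ℝ} (hc : 1 ≤ c) (ht : 0 ≤ t) :
    c ^ 2 * MG G t ≤ MG G (c * t) := by
  have h1 : G t ≤ G (c * t) := nib_mono h ht (le_mul_of_one_le_left ht hc)
  calc c ^ 2 * MG G t = (c * t) ^ 2 * G t := by unfold MG; ring
    _ ≤ (c * t) ^ 2 * G (c * t) := mul_le_mul_of_nonneg_left h1 (sq_nonneg _)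

theorem Nice.MG_mul_le (h : Nice κ G) {c t : ℝ} (hc : 1 ≤ c) (ht : 0 ≤ t) :
    MG G (c * t) ≤ c ^ (κ + 2) * MG G t := by
  have h1 := h.grow c t hc ht
  calc MG G (c * t) = (c * t) ^ 2 * G (c * t) := rfl
    _ ≤ (c * t) ^ 2 * (c ^ κ * G t) := mul_le_mul_of_nonneg_left h1 (sq_nonneg _)
    _ = c ^ (κ + 2) * MG G t := by unfold MG; ring

theorem Nice.sq_le (h : Nice κ G) {t : ℝ} (ht : 0 ≤ t) : t ^ 2 ≤ MG G t :=
  le_mul_of_one_le_right (sq_nonneg t) (h.one_le ht)

theorem Nice.lt_of_two_mul (h : Nice κ G) {s t : ℝ} (hs : 0 ≤ s) (ht : 0 ≤ t)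
    (h2 : 2 * G s ≤ G t) : s < t ∧ 2 * s ^ κ ≤ t ^ κ ∧ 2 * Th G s ≤ Th G t := by
  have hp := nib_pos h hs
  have hst : s < t := by
    by_contra h3
    have h4 := nib_mono h ht (not_lt.1 h3)
    linarith
  refine ⟨hst, ?_, ?_⟩
  · rcases le_or_gt s 1 with h3 | h3
    · rw [h.one s hs h3] at h2
      have h4 : 1 < t := by
        by_contra h5
        rw [h.one t ht (not_lt.1 h5)] at h2
        linarith
      have h5 := h.grow t 1 h4.le zero_le_one
      rw [mul_one, h.one 1 zero_le_one le_rfl, mul_one] at h5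
      have h6 : s ^ κ ≤ 1 := pow_le_one₀ hs h3
      linarith
    · have hs0 : 0 < s := by linarith
      have h4 := nib_up h hs0 hst.le
      have h5 : 2 ≤ (t / s) ^ κ := by
        by_contra h6
        have h7 := mul_lt_mul_of_pos_right (not_le.1 h6) hp
        linarith
      rwa [div_pow, le_div_iff₀ (by positivity)] at h5
  · unfold Th
    calc 2 * (s * G s) = s * (2 * G s) := by ring
      _ ≤ s * G t := mul_le_mul_of_nonneg_left h2 hs
      _ ≤ t * G t := mul_le_mul_of_nonneg_right hst.le (nib_pos h ht).le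

end

end Pool.Agent.OB9
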