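import Pool.Agent.OB9.PmB
import Pool.Agent.OB9.KeyL
import Pool.Agent.OB9.NiB

/-!
# Module OB9/PmE

The key inequality for a sequence of multi-level generations.

PROOF. The functions `es l_g (α_g k) b_g (p_g + k) i`, `g < n`, `k < K_g`, `i < 2^(b_g)`, are pairwise
orthogonal: same `g`: `es_fam`; `g < g'`: the first one is a function of `idx (p_g + k) t` (`es_idx`) and
`p_g + k < p_g + K_g ≤ p_{g'} ≤ p_{g'} + k'`, `b_{g'} < p_{g'}`: `es_orth_level` (the hypothesis
`hpp` chained). Apply `keyL` on the finite set of triples (`Finset.sigma` or a product set) with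
`δ = 1/2^(α_g k)`, `g₁(u) = G(max u 0)`, `g₂(w) = G(2 w)` (for `w ≥ 0`; `G(max (2 w) 0)`), any large `B`
(`x` is bounded): `∑ δ β² G|β| ≤ 4 ∫ x² G(2|x|) ≤ 4 · 2^κ ∫ M|x|`. `MG G |β| = β² G|β|`.
-/

set_option autoImplicit false

namespace Pool.Agent.OB9

open MeasureTheory Set Filter
open scoped ENNReal Topology

noncomputable section

variable {κ : ℕ} {G : ℝ → ℝ}

private theorem pmE_orth {l b p K : ℕ → ℕ} {α : ℕ → ℕ → ℕ}
    (hα : ∀ g, ∀ k < K g, l g + α g k ≤ b g) (hp : ∀ g, b g < p g)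
    (hpp : ∀ g, p g + K g ≤ p (g + 1)) {g g' k k' i i' : ℕ} (hgg : g < g') (hk : k < K g)
    (hk' : k' < K g') :
    ∫ t, es (l g) (α g k) (b g) (p g + k) i t *
      es (l g') (α g' k') (b g') (p g' + k') i' t ∂lam = 0 := by
  have hmono : Monotone p := monotone_nat_of_le_succ fun g => le_trans (Nat.le_add_right _ _) (hpp g)
  have h1 := hpp g
  have h2 : p (g + 1) ≤ p g' := hmono hgg
  have h3 := hp g
  have h4 := hp g'
  obtain ⟨c, hc⟩ := es_idx (i := i) (hα g k hk) (show b g ≤ p g + k by omega)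
  exact es_orth_level (i := i') (hα g' k' hk') (show b g' < p g' + k' by omega)
    (show p g + k < p g' + k' by omega) c hc

theorem seq_key (hG : Nice κ G) {l b p K : ℕ → ℕ} {α : ℕ → ℕ → ℕ}
    (hα : ∀ g, ∀ k < K g, l g + α g k ≤ b g) (hp : ∀ g, b g < p g)
    (hpp : ∀ g, p g + K g ≤ p (g + 1)) {x : L2} (hb : Bd x) (n : ℕ) :
    ENNReal.ofReal (∑ g ∈ Finset.range n, ∑ k ∈ Finset.range (K g),
      ∑ i ∈ Finset.range (2 ^ (b g)), 1 / 2 ^ (α g k) *
        MG G |cf (es (l g) (α g k) (b g) (p g + k) i) (1 / 2 ^ (α g k)) x|) ≤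
      ENNReal.ofReal (4 * 2 ^ κ) * md (MG G) x := by
  clear hb
  let s : Finset (Σ _ : ℕ, Σ _ : ℕ, ℕ) := (Finset.range n).sigma fun g =>
    (Finset.range (K g)).sigma fun _ => Finset.range (2 ^ (b g))
  let e : (Σ _ : ℕ, Σ _ : ℕ, ℕ) → ℝ → ℝ := fun a =>
    es (l a.1) (α a.1 a.2.1) (b a.1) (p a.1 + a.2.1) a.2.2
  let δ : (Σ _ : ℕ, Σ _ : ℕ, ℕ) → ℝ := fun a => 1 / 2 ^ (α a.1 a.2.1)
  have hs : ∀ a ∈ s, a.1 < n ∧ a.2.1 < K a.1 ∧ a.2.2 < 2 ^ (b a.1) := by
    intro a ha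
    rw [Finset.mem_sigma, Finset.mem_sigma] at ha
    exact ⟨Finset.mem_range.1 ha.1, Finset.mem_range.1 ha.2.1, Finset.mem_range.1 ha.2.2⟩
  have key := keyL s e δ (x := x) (Lp.memLp x) (fun a _ => measurable_es _ _ _ _ _)
    (fun a _ t => es_vals _ _ _ _ _ t) (fun a _ => ⟨by positivity, es_sq _ _ _ _ _⟩) ?_
    (fun u => G (max u 0)) (fun w => G (max (2 * w) 0)) (∑ a ∈ s, |cf (e a) (δ a) x|) ?_ ?_ ?_
  · have e1 : (∑ a ∈ s, δ a * cf (e a) (δ a) x ^ 2 * (fun u => G (max u 0)) |cf (e a) (δ a) x|) =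
        ∑ g ∈ Finset.range n, ∑ k ∈ Finset.range (K g),
      ∑ i ∈ Finset.range (2 ^ (b g)), 1 / 2 ^ (α g k) *
        MG G |cf (es (l g) (α g k) (b g) (p g + k) i) (1 / 2 ^ (α g k)) x| := by
      rw [Finset.sum_sigma]
      refine Finset.sum_congr rfl fun g _ => ?_
      rw [Finset.sum_sigma]
      refine Finset.sum_congr rfl fun k _ => ?_
      refine Finset.sum_congr rfl fun i _ => ?_
      have hmax : ∀ r : ℝ, max |r| 0 = |r| := fun r => max_eq_left (abs_nonneg r)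
      simp only [e, δ, MG, sq_abs, hmax]
      ring
    rw [e1] at key
    refine key.trans ?_
    have h2 : ∫⁻ t, ENNReal.ofReal (x t ^ 2 * G (max (2 * |x t|) 0)) ∂lam ≤
        ENNReal.ofReal (2 ^ κ) * md (MG G) x := by
      unfold md
      rw [← lintegral_const_mul' _ _ ENNReal.ofReal_ne_top]
      refine lintegral_mono fun t => ?_
      rw [← ENNReal.ofReal_mul (by positivity)]
      refine ENNReal.ofReal_le_ofReal ?_
      rw [max_eq_left (by positivity)]
      have h3 := hG.grow 2 |x t| (by norm_num) (abs_nonneg _)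
      calc x t ^ 2 * G (2 * |x t|) ≤ x t ^ 2 * (2 ^ κ * G |x t|) :=
            mul_le_mul_of_nonneg_left h3 (sq_nonneg _)
        _ = 2 ^ κ * MG G |x t| := by
          unfold MG
          rw [sq_abs]
          ring
    calc 4 * ∫⁻ t, ENNReal.ofReal (x t ^ 2 * G (max (2 * |x t|) 0)) ∂lam
        ≤ 4 * (ENNReal.ofReal (2 ^ κ) * md (MG G) x) := mul_le_mul_right h2 4
      _ = ENNReal.ofReal (4 * 2 ^ κ) * md (MG G) x := by
        rw [ENNReal.ofReal_mul (by norm_num), ← mul_assoc]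
        norm_num
  · intro a ha c hc hac
    obtain ⟨g, k, i⟩ := a
    obtain ⟨g', k', i'⟩ := c
    obtain ⟨h1, h2, h3⟩ := hs _ ha
    obtain ⟨h1', h2', h3'⟩ := hs _ hc
    simp only at h1 h2 h3 h1' h2' h3'
    simp only [e]
    rcases lt_trichotomy g g' with hlt | heq | hgt
    · exact pmE_orth hα hp hpp hlt h2 h2'
    · subst heq
      refine es_fam (hα g) (hp g) h2 h2' h3 h3' ?_
      intro h4
      apply hac
      simp only [Prod.mk.injEq] at h4
      rw [h4.1, h4.2]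
    · simp_rw [mul_comm (es (l g) (α g k) (b g) (p g + k) i _)]
      exact pmE_orth hα hp hpp hgt h2' h2
  · intro u
    exact le_trans zero_le_one (hG.one_le (le_max_right _ _))
  · intro u w _ _ huw
    exact hG.mono (mem_Ici.2 (le_max_right _ _)) (mem_Ici.2 (le_max_right _ _))
      (max_le_max huw le_rfl)
  · intro a ha
    exact Finset.single_le_sum (f := fun a => |cf (e a) (δ a) x|) (fun a _ => abs_nonneg _) ha

end

end Pool.Agent.OB9
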