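import Pool.Agent.OB9.RecA

/-!
# Module OB9/RecJ

The dual sums of a good chain.

PROOF. Let `0 < v' ≤ v` and `Y_k ≥ 0` with `Th (Y_k) Th (X_k) = Th v'`. As `X` decreases, `Y` increases
in `k`. Split the indices: (i) `Y_k ≥ N₁`: these are `k₀ ≤ k < m`; the reversed sequence
`(X_{m-1-i}, Y_{m-1-i})`, `i < m - k₀`, is a chain at `v'` with base `N₁` (`X_k ≥ N ≥ N₁`, and
`2 G(X_{k+1}) ≤ G(X_k)`), so its sum is `≤ SN G N₁ v' v'` (`chain_le_SN`). (ii) `1 ≤ Y_k < N₁`: then
`Th (X_k) ≤ Th v'` so `X_k ≤ v'`, and `2 X_{k+1}^κ ≤ X_k^κ` (`lt_of_two_mul`), so the sum of these `X_k`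
is `≤ C_κ v'` with `C_κ = 1/(1 - 2^{-1/κ})` (if `κ = 0`, `G` would be bounded, impossible): sum
`≤ N₁ C_κ v'`. (iii) `Y_k < 1`: `Th (Y_k) = Y_k` (`Nice.one`), so `X_k Y_k = Th v'/G(X_k)` and `X_k ≥ v'`
(`Th (X_k) > Th v'`), `∑ 1/G(X_k) ≤ 2/G(v')` (each is at most half of the next one, the last
`G(X_k) ≥ G(v')`): sum `≤ 2 v'`. Total `≤ (SN G N₁ v' + N₁ C_κ + 2) v' ≤ C_R S v'`,
`C_R = (N₁ C_κ + 3)/c₁`.
-/

set_option autoImplicit false

namespace Pool.Agent.OB9

open MeasureTheory Set Filter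
open scoped ENNReal Topology

noncomputable section

variable {κ : ℕ} {G : ℝ → ℝ}

/-- Geometrically decreasing sequences, summed over the terms `≤ w`. -/
private theorem recJ_dec {r w : ℝ} (hr0 : 0 ≤ r) (hr : r < 1) (hw : 0 ≤ w) {m : ℕ} {a : ℕ → ℝ}
    (h0 : ∀ k < m, 0 ≤ a k) (h1 : ∀ k, k + 1 < m → a (k + 1) ≤ r * a k) :
    (1 - r) * ∑ k ∈ Finset.range m, (if a k ≤ w then a k else 0) ≤ w := by
  have key : ∀ n, n < m →
      (1 - r) * ∑ k ∈ Finset.range n, (if a k ≤ w then a k else 0) + min (a n) w ≤ w := by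
    intro n
    induction n with
    | zero => intro _; simp
    | succ n ih =>
      intro hn
      have h2 := ih (by omega)
      have h3 := h1 n hn
      have h4 := h0 n (by omega)
      rw [Finset.sum_range_succ, mul_add]
      by_cases h5 : a n ≤ w
      · rw [if_pos h5]
        rw [min_eq_left h5] at h2
        have h6 : min (a (n + 1)) w ≤ r * a n := (min_le_left _ _).trans h3
        linarith
      · rw [if_neg h5]
        rw [min_eq_right (not_le.1 h5).le] at h2
        have h6 : min (a (n + 1)) w ≤ w := min_le_right _ _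
        linarith
  rcases Nat.eq_zero_or_pos m with rfl | hm
  · simpa using hw
  · obtain ⟨n, rfl⟩ : ∃ n, m = n + 1 := ⟨m - 1, by omega⟩
    have h2 := key n (by omega)
    have h4 := h0 n (by omega)
    rw [Finset.sum_range_succ, mul_add]
    by_cases h5 : a n ≤ w
    · rw [if_pos h5]
      rw [min_eq_left h5] at h2
      nlinarith
    · rw [if_neg h5]
      rw [min_eq_right (not_le.1 h5).le] at h2
      linarith

/-- Geometrically increasing sequences, summed over the terms `≤ w`. -/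
private theorem recJ_inc {w : ℝ} (hw : 0 ≤ w) {m : ℕ} {a : ℕ → ℝ}
    (h0 : ∀ k < m, 0 ≤ a k) (h1 : ∀ k, k + 1 < m → 2 * a k ≤ a (k + 1)) :
    ∑ k ∈ Finset.range m, (if a k ≤ w then a k else 0) ≤ 2 * w := by
  have key : ∀ n, n < m → ∑ k ∈ Finset.range n, (if a k ≤ w then a k else 0) ≤ a n := by
    intro n
    induction n with
    | zero => intro hn; simpa using h0 0 hn
    | succ n ih =>
      intro hn
      have h2 := ih (by omega)
      have h3 := h1 n hn
      have h4 := h0 n (by omega)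
      rw [Finset.sum_range_succ]
      have h5 : (if a n ≤ w then a n else 0) ≤ a n := by split_ifs <;> linarith
      linarith
  have key2 : ∀ n, n ≤ m → ∑ k ∈ Finset.range n, (if a k ≤ w then a k else 0) ≤ 2 * w := by
    intro n
    induction n with
    | zero => intro _; simpa using hw
    | succ n ih =>
      intro hn
      rw [Finset.sum_range_succ]
      by_cases h5 : a n ≤ w
      · rw [if_pos h5]
        have h2 := key n (by omega)
        linarith
      · rw [if_neg h5]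
        have h2 := ih (by omega)
        linarith
  exact key2 m le_rfl

theorem recJ (hG : Nice κ G) {c₁ N₁ : ℝ} (hc : 0 < c₁) (hN₁ : 1 ≤ N₁) :
    ∃ CR : ℝ, 1 ≤ CR ∧ ∀ (N v S : ℝ) (m : ℕ) (h X : ℕ → ℝ), N₁ ≤ N →
      GoodChain G c₁ N₁ N v S m h X → ∀ (v' : ℝ) (Y : ℕ → ℝ), 0 < v' → v' ≤ v →
        (∀ k < m, 0 ≤ Y k ∧ Th G (Y k) * Th G (X k) = Th G v') →
        ∑ k ∈ Finset.range m, X k * Y k ≤ CR * S * v' := by
  obtain ⟨r, hr0, hr1, hr⟩ : ∃ r : ℝ, 0 ≤ r ∧ r < 1 ∧ ∀ s t : ℝ, 0 ≤ s → 0 ≤ t →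
      2 * s ^ κ ≤ t ^ κ → s ≤ r * t := by
    rcases Nat.eq_zero_or_pos κ with hκ | hκ
    · refine ⟨0, le_rfl, one_pos, fun s t _ _ h1 => ?_⟩
      rw [hκ, pow_zero, pow_zero] at h1
      linarith
    · have hκ' : (1 : ℝ) ≤ κ := by exact_mod_cast hκ
      have hk0 : (0 : ℝ) < 2 * κ := by linarith
      have hle : 1 / (2 * (κ : ℝ)) ≤ 1 / 2 := by
        apply one_div_le_one_div_of_le <;> linarith
      have hpos : 0 < 1 / (2 * (κ : ℝ)) := by positivity
      refine ⟨1 - 1 / (2 * κ), by linarith, by linarith, fun s t hs ht h1 => ?_⟩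
      by_contra h2
      rw [not_le] at h2
      have h3 : ((1 - 1 / (2 * (κ : ℝ))) * t) ^ κ < s ^ κ :=
        pow_lt_pow_left₀ h2 (mul_nonneg (by linarith) ht) (by omega)
      have h4 : (1 : ℝ) + κ * (-(1 / (2 * (κ : ℝ)))) ≤ (1 + -(1 / (2 * (κ : ℝ)))) ^ κ :=
        one_add_mul_le_pow (by linarith) κ
      have h5 : (1 : ℝ) + κ * (-(1 / (2 * (κ : ℝ)))) = 1 / 2 := by
        field_simp
        norm_num
      rw [h5] at h4
      rw [mul_pow] at h3
      have h6 : (1 - 1 / (2 * (κ : ℝ))) ^ κ = (1 + -(1 / (2 * (κ : ℝ)))) ^ κ := by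
        rw [sub_eq_add_neg]
      rw [h6] at h3
      have h7 : 0 ≤ t ^ κ := pow_nonneg ht κ
      nlinarith
  have hThpos : ∀ t, 0 < t → 0 < Th G t := fun t ht =>
    mul_pos ht (lt_of_lt_of_le one_pos (hG.one_le ht.le))
  have hTh1 : Th G 1 = 1 := by
    unfold Th
    rw [hG.one 1 zero_le_one le_rfl]
    norm_num
  have hCpos : 0 < 1 / (1 - r) := by
    have : 0 < 1 - r := by linarith
    positivity
  refine ⟨(N₁ * (1 / (1 - r)) + 2) / c₁ + 1, ?_, ?_⟩
  · have : 0 ≤ (N₁ * (1 / (1 - r)) + 2) / c₁ := by positivity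
    linarith
  intro N v S m h X hN hch v' Y hv' hvv hY
  obtain ⟨hv, hS, ⟨hc1, hc2⟩, heq, hdb, hsum, hcmp, hMG⟩ := hch
  have hX1 : ∀ k < m, N₁ ≤ X k := fun k hk => hN.trans (hc1 k hk).2.1
  have hX0 : ∀ k < m, 0 < X k := fun k hk => by linarith [hX1 k hk]
  have hstep : ∀ k, k + 1 < m → X (k + 1) < X k ∧ 2 * X (k + 1) ^ κ ≤ X k ^ κ ∧
      2 * Th G (X (k + 1)) ≤ Th G (X k) := fun k hk =>
    hG.lt_of_two_mul (hX0 (k + 1) hk).le (hX0 k (by omega)).le (hdb k hk)
  have hanti : ∀ d k, k + d < m → X (k + d) ≤ X k := by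
    intro d
    induction d with
    | zero => intro k _; exact le_rfl
    | succ d ih =>
      intro k hk
      have h1 := ih k (by omega)
      have h2 := (hstep (k + d) (by omega)).1
      exact h2.le.trans h1
  have hYmono : ∀ k k', k ≤ k' → k' < m → Y k ≤ Y k' := by
    intro k k' hkk hk'
    have h1 : X k' ≤ X k := by
      have h2 := hanti (k' - k) k (by omega)
      rwa [show k + (k' - k) = k' by omega] at h2
    obtain ⟨hy0, hy⟩ := hY k (by omega)
    obtain ⟨hy0', hy'⟩ := hY k' hk'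
    rw [← hG.Th_le_iff hy0 hy0']
    have h3 : Th G (X k') ≤ Th G (X k) :=
      (hG.Th_le_iff (hX0 k' hk').le (hX0 k (by omega)).le).2 h1
    have h4 := hThpos _ (hX0 k' hk')
    by_contra h5
    rw [not_le] at h5
    have h6 : 0 ≤ Th G (Y k') := mul_nonneg hy0' (by linarith [hG.one_le hy0'])
    have h7 : Th G (Y k') * Th G (X k') < Th G (Y k) * Th G (X k') :=
      mul_lt_mul_of_pos_right h5 h4
    have h8 : Th G (Y k) * Th G (X k') ≤ Th G (Y k) * Th G (X k) :=
      mul_le_mul_of_nonneg_left h3 (h6.trans h5.le)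
    linarith
  -- the large part
  have hlarge : ∑ k ∈ Finset.range m, (if N₁ ≤ Y k then X k * Y k else 0) ≤
      SN G N₁ v' * v' := by
    by_cases hex : ∃ k, k < m ∧ N₁ ≤ Y k
    · classical
      obtain ⟨k₀, hk₀, hk₀', hmin⟩ : ∃ k₀, k₀ < m ∧ N₁ ≤ Y k₀ ∧ ∀ k < k₀, ¬ N₁ ≤ Y k := by
        refine ⟨Nat.find hex, (Nat.find_spec hex).1, (Nat.find_spec hex).2, fun k hk h1 => ?_⟩
        exact Nat.find_min hex hk ⟨hk.trans (Nat.find_spec hex).1, h1⟩
      have e1 : ∑ k ∈ Finset.range m, (if N₁ ≤ Y k then X k * Y k else 0) =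
          ∑ j ∈ Finset.range (m - k₀), X (k₀ + (m - k₀ - 1 - j)) * Y (k₀ + (m - k₀ - 1 - j)) := by
        rw [Finset.sum_range_reflect (fun j => X (k₀ + j) * Y (k₀ + j)) (m - k₀)]
        have h1 : m = k₀ + (m - k₀) := by omega
        conv_lhs => rw [h1]
        rw [Finset.sum_range_add]
        have h2 : ∑ k ∈ Finset.range k₀, (if N₁ ≤ Y k then X k * Y k else 0) = 0 :=
          Finset.sum_eq_zero fun k hk => if_neg (hmin k (Finset.mem_range.1 hk))
        rw [h2, zero_add]
        refine Finset.sum_congr rfl fun j hj => ?_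
        have h3 := Finset.mem_range.1 hj
        exact if_pos (hk₀'.trans (hYmono k₀ (k₀ + j) (by omega) (by omega)))
      rw [e1]
      refine chain_le_SN hG hN₁ hv' (m := m - k₀) (h := fun j => X (k₀ + (m - k₀ - 1 - j)))
        (X := fun j => Y (k₀ + (m - k₀ - 1 - j))) ⟨fun j hj => ?_, fun j hj => ?_⟩
      · refine ⟨hX1 _ (by omega), hk₀'.trans (hYmono k₀ _ (by omega) (by omega)), ?_⟩
        have h4 := (hY (k₀ + (m - k₀ - 1 - j)) (by omega)).2
        rw [mul_comm]
        exact h4.le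
      · have h4 := hdb (k₀ + (m - k₀ - 1 - (j + 1))) (by omega)
        rw [show k₀ + (m - k₀ - 1 - (j + 1)) + 1 = k₀ + (m - k₀ - 1 - j) by omega] at h4
        exact h4
    · have h1 : ∑ k ∈ Finset.range m, (if N₁ ≤ Y k then X k * Y k else 0) = 0 :=
        Finset.sum_eq_zero fun k hk => if_neg fun h2 => hex ⟨k, Finset.mem_range.1 hk, h2⟩
      rw [h1]
      exact mul_nonneg (SN_nonneg hG hN₁ hv') hv'.le
  -- the middle part
  have hmid := recJ_dec hr0 hr1 hv'.le (m := m) (a := X) (fun k hk => (hX0 k hk).le)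
    (fun k hk => hr _ _ (hX0 (k + 1) hk).le (hX0 k (by omega)).le (hstep k hk).2.1)
  -- the small part
  have hGpos : ∀ t, 0 ≤ t → 0 < G t := fun t ht => lt_of_lt_of_le one_pos (hG.one_le ht)
  have hsmall := recJ_inc (w := 1 / G v') (by have := hGpos v' hv'.le; positivity) (m := m)
    (a := fun k => 1 / G (X k)) (fun k hk => by have := hGpos _ (hX0 k hk).le; positivity)
    (fun k hk => by
      have h1 := hdb k hk
      have h2 := hGpos _ (hX0 (k + 1) hk).le
      show 2 * (1 / G (X k)) ≤ 1 / G (X (k + 1))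
      have h3 := hGpos _ (hX0 k (by omega)).le
      rw [mul_one_div, div_le_div_iff₀ h3 h2]
      linarith)
  have hpt : ∀ k ∈ Finset.range m, X k * Y k ≤ (if N₁ ≤ Y k then X k * Y k else 0) +
      N₁ * (if X k ≤ v' then X k else 0) +
        Th G v' * (if 1 / G (X k) ≤ 1 / G v' then 1 / G (X k) else 0) := by
    intro k hk
    have hk' := Finset.mem_range.1 hk
    obtain ⟨hy0, hy⟩ := hY k hk'
    have hx := hX0 k hk'
    have hTv := hThpos v' hv'
    have hGx := hGpos _ hx.le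
    have t2 : 0 ≤ N₁ * (if X k ≤ v' then X k else 0) := by
      refine mul_nonneg (by linarith) ?_
      split_ifs
      · exact hx.le
      · exact le_rfl
    have t3 : 0 ≤ Th G v' * (if 1 / G (X k) ≤ 1 / G v' then 1 / G (X k) else 0) := by
      refine mul_nonneg hTv.le ?_
      split_ifs
      · positivity
      · exact le_rfl
    by_cases h1 : N₁ ≤ Y k
    · rw [if_pos h1]
      linarith
    · rw [if_neg h1]
      rw [not_le] at h1
      by_cases h2 : 1 ≤ Y k
      · have h3 : 1 ≤ Th G (Y k) := by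
          rw [← hTh1]
          exact (hG.Th_le_iff zero_le_one hy0).2 h2
        have h4 : Th G (X k) ≤ Th G v' := by
          have h5 := hThpos _ hx
          nlinarith
        have h5 : X k ≤ v' := (hG.Th_le_iff hx.le hv'.le).1 h4
        rw [if_pos h5] at t2 ⊢
        have h6 : X k * Y k ≤ N₁ * X k := by nlinarith
        linarith
      · rw [not_le] at h2
        have h3 : Th G (Y k) = Y k := by
          unfold Th
          rw [hG.one _ hy0 h2.le, mul_one]
        rw [h3] at hy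
        have h4 : X k * Y k = Th G v' * (1 / G (X k)) := by
          rw [← hy]
          unfold Th
          field_simp
        have h5 : v' ≤ X k := by
          rw [← hG.Th_le_iff hv'.le hx.le, ← hy]
          have h6 := hThpos _ hx
          nlinarith
        have h7 : 1 / G (X k) ≤ 1 / G v' :=
          one_div_le_one_div_of_le (hGpos v' hv'.le) (hG.mono (mem_Ici.2 hv'.le) (mem_Ici.2 hx.le) h5)
        rw [if_pos h7]
        linarith
  have htot := Finset.sum_le_sum hpt
  rw [Finset.sum_add_distrib, Finset.sum_add_distrib, ← Finset.mul_sum, ← Finset.mul_sum] at htot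
  have hcm := hcmp v' hv' hvv
  have hmid' : ∑ k ∈ Finset.range m, (if X k ≤ v' then X k else 0) ≤ 1 / (1 - r) * v' := by
    have h1 : 0 < 1 - r := by linarith
    rw [one_div_mul_eq_div, le_div_iff₀ h1, mul_comm]
    exact hmid
  have hsm' : Th G v' * ∑ k ∈ Finset.range m,
      (if 1 / G (X k) ≤ 1 / G v' then 1 / G (X k) else 0) ≤ 2 * v' := by
    have h1 := hThpos v' hv'
    have h2 := hGpos v' hv'.le
    calc _ ≤ Th G v' * (2 * (1 / G v')) := mul_le_mul_of_nonneg_left hsmall h1.le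
      _ = 2 * v' := by
        unfold Th
        field_simp
  have hS1 : 1 + SN G N₁ v' ≤ S / c₁ := by
    rw [le_div_iff₀ hc]
    linarith
  have hSN0 := SN_nonneg hG hN₁ hv'
  have hSc : 1 ≤ S / c₁ := by linarith
  have hfin : SN G N₁ v' * v' + N₁ * (1 / (1 - r) * v') + 2 * v' ≤
      ((N₁ * (1 / (1 - r)) + 2) / c₁ + 1) * S * v' := by
    have e : ((N₁ * (1 / (1 - r)) + 2) / c₁ + 1) * S * v' =
        ((N₁ * (1 / (1 - r)) + 2) * (S / c₁) + S) * v' := by
      field_simp
    rw [e]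
    have h1 : SN G N₁ v' + N₁ * (1 / (1 - r)) + 2 ≤ (N₁ * (1 / (1 - r)) + 2) * (S / c₁) + S := by
      have h2 : 0 ≤ N₁ * (1 / (1 - r)) := by positivity
      have h3 : N₁ * (1 / (1 - r)) ≤ N₁ * (1 / (1 - r)) * (S / c₁) := le_mul_of_one_le_right h2 hSc
      nlinarith
    nlinarith
  have h9 : N₁ * ∑ k ∈ Finset.range m, (if X k ≤ v' then X k else 0) ≤
      N₁ * (1 / (1 - r) * v') := mul_le_mul_of_nonneg_left hmid' (by linarith)
  linarith

end

end Pool.Agent.OB9
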