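import Pool.Agent.OB9.RecB
import Pool.Agent.OB9.RecJ

/-!
# Module OB9/ProfA

Profiles from good chains.

PROOF. Given `N ≥ 1` take a good chain with base `N' = max (max N N₁) N''` where `N''` is so large that
`c₁ G(N'') ≥ 2 N` (`tends`). Let `K = m`, `σ_k = h_k X_k/(S v)`. `∑ σ = 1`; `K > 0` since `S > 0`.
`vN`: `h_0 ≤ v`. `geo`: `lt_of_two_mul`. `nest`: `M(h_k)/σ_k = S v Th(h_k)/X_k` (`M = t Th t`), and
`Th(h_{k+1}) ≥ 2 Th(h_k)`, `X_{k+1} ≤ X_k`. `cap`:
`σ_k M(v)/M(h_k) = h_k X_k v Th(v)/(S v h_k Th(h_k)) = X_k Th(X_k)/S = M(X_k)/S ≥ N`. `l2`: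
`σ_k G(h_k)/G(v) = h_k X_k v G(h_k)/(S v v G(v)) = X_k Th(h_k)/(S Th v) = X_k/(S Th(X_k)) =
1/(S G(X_k))`, and `∑ 1/G(X_k) ≤ 2/G(X_{m-1}) ≤ 2/G(N'')`, `S ≥ c₁`: so the sum is
`≤ 2/(c₁ G(N'')) ≤ 1/N`. `J1`: let `s = ∑ σ_k b_k ∈ [0,1]`; if `s = 0` nothing to prove. `v' = s v`.
Let `C_*` with `C_*^{1/(κ+1)} ≥ 2 CR`, e.g. `C_* = (2 CR)^(κ+1)`. Let `Y_k` solve
`Th(Y_k) Th(X_k) = Th v'` and `Y*_k` solve `Th(Y*_k) Th(X_k) = Th v'/C_*` (`Th_surj`). By `Th_mul_le`
`Th(2 CR Y*_k) ≤ C_* Th(Y*_k) = Th(Y_k)`, so `Y*_k ≤ Y_k/(2 CR)` and by `recJ`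
`∑ X_k Y*_k ≤ S v'/2`. Put `c_k = Y*_k/h_k`: `∑ σ_k c_k = ∑ X_k Y*_k/(S v) ≤ s/2`. So
`∑_{b_k > c_k} σ_k b_k ≥ s/2`. If `b_k > c_k`: `Th(h_k b_k) ≥ Th(Y*_k) = Th v'/(C_* Th(X_k)) =
Th v' Th(h_k)/(C_* Th v)`, so `b_k Th v' ≤ C_* Th v · b_k Th(h_k b_k)/Th(h_k) =
C_* Th v · M(h_k b_k)/M(h_k)`. Hence `M(v s) = v s Th v' ≤ 2 v ∑_{b_k>c_k} σ_k b_k Th v' ≤
2 C_* M(v) ∑ σ_k M(h_k b_k)/M(h_k)`. `CJ = 2 C_*`.
-/

set_option autoImplicit false

namespace Pool.Agent.OB9

open MeasureTheory Set Filter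
open scoped ENNReal Topology

noncomputable section

variable {κ : ℕ} {G : ℝ → ℝ}

private theorem pa_MG (t : ℝ) : MG G t = t * Th G t := by
  unfold MG Th
  ring

private theorem pa_Th_pos (hG : Nice κ G) {t : ℝ} (ht : 0 < t) : 0 < Th G t := by
  have h1 := hG.one_le ht.le
  unfold Th
  exact mul_pos ht (by linarith)

private theorem pa_geom (a : ℕ → ℝ) : ∀ m : ℕ, (∀ k, k < m → 0 ≤ a k) →
    (∀ k, k + 1 < m → 2 * a k ≤ a (k + 1)) →
    ∑ k ∈ Finset.range m, a k ≤ 2 * a (m - 1) ∨ m = 0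
  | 0, _, _ => Or.inr rfl
  | 1, h0, _ => by
    left
    have := h0 0 (by norm_num)
    simp only [Finset.range_one, Finset.sum_singleton, Nat.sub_self]
    linarith
  | m + 2, h0, h1 => by
    left
    have ih := pa_geom a (m + 1) (fun k hk => h0 k (by omega)) (fun k hk => h1 k (by omega))
    rcases ih with ih | ih
    · rw [Finset.sum_range_succ]
      have h2 := h1 m (by omega)
      have e1 : m + 1 - 1 = m := by omega
      have e2 : m + 2 - 1 = m + 1 := by omega
      rw [e1] at ih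
      rw [e2]
      linarith
    · omega

private theorem pa_J1 (hG : Nice κ G) {c₁ N₁ N v S CR Cs : ℝ} {m : ℕ} {h X : ℕ → ℝ}
    (hCR : 1 ≤ CR) (hCs : Cs = (2 * CR) ^ (κ + 1)) (hg : GoodChain G c₁ N₁ N v S m h X)
    (hN : 1 ≤ N)
    (hJ : ∀ (v' : ℝ) (Y : ℕ → ℝ), 0 < v' → v' ≤ v →
        (∀ k < m, 0 ≤ Y k ∧ Th G (Y k) * Th G (X k) = Th G v') →
        ∑ k ∈ Finset.range m, X k * Y k ≤ CR * S * v')
    (b : ℕ → ℝ) (hb : ∀ k < m, 0 ≤ b k)
    (hs1 : ∑ k ∈ Finset.range m, h k * X k / (S * v) * b k ≤ 1) :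
    MG G (v * ∑ k ∈ Finset.range m, h k * X k / (S * v) * b k) ≤
      2 * Cs * MG G v *
        ∑ k ∈ Finset.range m, h k * X k / (S * v) * (MG G (h k * b k) / MG G (h k)) := by
  obtain ⟨hv, hS, hch, heq, -, -, -, -⟩ := hg
  have hCs1 : 1 ≤ Cs := by
    rw [hCs]
    exact one_le_pow₀ (by linarith)
  have hCs0 : 0 < Cs := by linarith
  have hh : ∀ k < m, 0 < h k := fun k hk => by
    have := (hch.1 k hk).1
    linarith
  have hX : ∀ k < m, 0 < X k := fun k hk => by
    have := (hch.1 k hk).2.1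
    linarith
  have hσ : ∀ k < m, 0 < h k * X k / (S * v) := fun k hk => by
    have := hh k hk
    have := hX k hk
    positivity
  obtain ⟨s, hs⟩ : ∃ s, s = ∑ k ∈ Finset.range m, h k * X k / (S * v) * b k := ⟨_, rfl⟩
  rw [← hs] at hs1 ⊢
  have hs0 : 0 ≤ s := by
    rw [hs]
    refine Finset.sum_nonneg fun k hk => ?_
    have hk' := Finset.mem_range.1 hk
    exact mul_nonneg (hσ k hk').le (hb k hk')
  have hMG0 : ∀ t, 0 ≤ t → 0 ≤ MG G t := by
    intro t ht
    have := hG.one_le ht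
    unfold MG
    positivity
  obtain ⟨R, hR⟩ : ∃ R, R =
      ∑ k ∈ Finset.range m, h k * X k / (S * v) * (MG G (h k * b k) / MG G (h k)) := ⟨_, rfl⟩
  rw [← hR]
  have hR0 : 0 ≤ R := by
    rw [hR]
    refine Finset.sum_nonneg fun k hk => ?_
    have hk' := Finset.mem_range.1 hk
    have h1 := hMG0 _ (mul_nonneg (hh k hk').le (hb k hk'))
    have h2 := hMG0 _ (hh k hk').le
    have h3 := hσ k hk'
    positivity
  rcases hs0.eq_or_lt with hs00 | hspos
  · rw [← hs00, mul_zero]
    have h1 : MG G 0 = 0 := by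
      unfold MG
      ring
    rw [h1]
    have := hMG0 v hv.le
    positivity
  · have hv' : 0 < v * s := mul_pos hv hspos
    have hv'v : v * s ≤ v := by nlinarith
    have hTv' : 0 < Th G (v * s) := pa_Th_pos hG hv'
    have hTv : 0 < Th G v := pa_Th_pos hG hv
    have hTX : ∀ k < m, 0 < Th G (X k) := fun k hk => pa_Th_pos hG (hX k hk)
    have hTh : ∀ k < m, 0 < Th G (h k) := fun k hk => pa_Th_pos hG (hh k hk)
    have hY : ∀ k, ∃ Y : ℝ, k < m → 0 ≤ Y ∧ Th G Y = Th G (v * s) / Th G (X k) := by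
      intro k
      by_cases hk : k < m
      · obtain ⟨Y, h1, h2⟩ := hG.Th_surj (y := Th G (v * s) / Th G (X k))
          (div_nonneg hTv'.le (hTX k hk).le)
        exact ⟨Y, fun _ => ⟨h1, h2⟩⟩
      · exact ⟨0, fun h => absurd h hk⟩
    have hZ : ∀ k, ∃ Y : ℝ, k < m → 0 ≤ Y ∧ Th G Y = Th G (v * s) / (Cs * Th G (X k)) := by
      intro k
      by_cases hk : k < m
      · have h0 := hTX k hk
        obtain ⟨Y, h1, h2⟩ := hG.Th_surj (y := Th G (v * s) / (Cs * Th G (X k)))
          (by positivity)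
        exact ⟨Y, fun _ => ⟨h1, h2⟩⟩
      · exact ⟨0, fun h => absurd h hk⟩
    choose Y hY using hY
    choose Z hZ using hZ
    have hYZ : ∀ k < m, 2 * CR * Z k ≤ Y k := by
      intro k hk
      obtain ⟨h1, h2⟩ := hY k hk
      obtain ⟨h3, h4⟩ := hZ k hk
      have h0 := hTX k hk
      rw [← hG.Th_le_iff (by positivity) h1]
      refine (hG.Th_mul_le (by linarith) h3).trans (le_of_eq ?_)
      rw [← hCs, h2, h4]
      field_simp
    have hsum1 := hJ (v * s) Y hv' hv'v (fun k hk => by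
      obtain ⟨h1, h2⟩ := hY k hk
      refine ⟨h1, ?_⟩
      rw [h2]
      exact div_mul_cancel₀ _ (hTX k hk).ne')
    have hsum2 : ∑ k ∈ Finset.range m, X k * Z k ≤ S * (v * s) / 2 := by
      have h1 : 2 * CR * ∑ k ∈ Finset.range m, X k * Z k ≤ ∑ k ∈ Finset.range m, X k * Y k := by
        rw [Finset.mul_sum]
        refine Finset.sum_le_sum fun k hk => ?_
        have hk' := Finset.mem_range.1 hk
        have := mul_le_mul_of_nonneg_left (hYZ k hk') (hX k hk').le
        linarith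
      have h2 : 2 * CR * ∑ k ∈ Finset.range m, X k * Z k ≤ 2 * CR * (S * (v * s) / 2) := by
        linarith
      exact le_of_mul_le_mul_left h2 (by linarith)
    -- pointwise
    have hpt : ∀ k < m, h k * X k / (S * v) * b k * Th G (v * s) ≤
        X k * Z k / (S * v) * Th G (v * s) + Cs * Th G v *
          (h k * X k / (S * v) * (MG G (h k * b k) / MG G (h k))) := by
      intro k hk
      have a1 := hh k hk
      have a2 := hX k hk
      have a3 := hTh k hk
      have a4 := hTX k hk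
      have a5 := hb k hk
      obtain ⟨h3, h4⟩ := hZ k hk
      have a6 := hMG0 _ (mul_nonneg a1.le a5)
      have a7 := hMG0 _ a1.le
      rcases le_or_gt (h k * b k) (Z k) with hc | hc
      · have h1 : h k * X k / (S * v) * b k * Th G (v * s) ≤
            X k * Z k / (S * v) * Th G (v * s) := by
          apply mul_le_mul_of_nonneg_right _ hTv'.le
          calc h k * X k / (S * v) * b k = X k * (h k * b k) / (S * v) := by ring
            _ ≤ X k * Z k / (S * v) := by gcongr
        have h2 : 0 ≤ Cs * Th G v *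
          (h k * X k / (S * v) * (MG G (h k * b k) / MG G (h k))) := by positivity
        linarith
      · have h1 : Th G (Z k) ≤ Th G (h k * b k) :=
          (hG.Th_le_iff h3 (mul_nonneg a1.le a5)).2 hc.le
        rw [h4, div_le_iff₀ (by positivity)] at h1
        have h2 : Th G (v * s) * Th G (h k) ≤ Cs * Th G v * Th G (h k * b k) := by
          calc Th G (v * s) * Th G (h k)
              ≤ Th G (h k * b k) * (Cs * Th G (X k)) * Th G (h k) :=
                mul_le_mul_of_nonneg_right h1 a3.le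
            _ = Cs * (Th G (h k) * Th G (X k)) * Th G (h k * b k) := by ring
            _ = _ := by rw [heq k hk]
        have h5 : b k * Th G (v * s) ≤ Cs * Th G v * (MG G (h k * b k) / MG G (h k)) := by
          rw [pa_MG, pa_MG]
          have e : Cs * Th G v * (h k * b k * Th G (h k * b k) / (h k * Th G (h k))) =
              b k * (Cs * Th G v * Th G (h k * b k)) / Th G (h k) := by
            field_simp
          rw [e, le_div_iff₀ a3]
          calc b k * Th G (v * s) * Th G (h k) = b k * (Th G (v * s) * Th G (h k)) := by ring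
            _ ≤ _ := mul_le_mul_of_nonneg_left h2 a5
        have h6 : h k * X k / (S * v) * b k * Th G (v * s) ≤ Cs * Th G v *
          (h k * X k / (S * v) * (MG G (h k * b k) / MG G (h k))) := by
          calc h k * X k / (S * v) * b k * Th G (v * s)
              = h k * X k / (S * v) * (b k * Th G (v * s)) := by ring
            _ ≤ h k * X k / (S * v) * (Cs * Th G v * (MG G (h k * b k) / MG G (h k))) :=
                mul_le_mul_of_nonneg_left h5 (hσ k hk).le
            _ = _ := by ring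
        have h7 : 0 ≤ X k * Z k / (S * v) * Th G (v * s) := by positivity
        linarith
    have hsum3 : s * Th G (v * s) ≤ s / 2 * Th G (v * s) + Cs * Th G v * R := by
      have h1 : ∑ k ∈ Finset.range m, h k * X k / (S * v) * b k * Th G (v * s) ≤
          ∑ k ∈ Finset.range m, (X k * Z k / (S * v) * Th G (v * s) + Cs * Th G v *
            (h k * X k / (S * v) * (MG G (h k * b k) / MG G (h k)))) :=
        Finset.sum_le_sum fun k hk => hpt k (Finset.mem_range.1 hk)
      rw [Finset.sum_add_distrib, ← Finset.sum_mul, ← Finset.sum_mul, ← Finset.mul_sum, ← hR,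
        ← hs, ← Finset.sum_div] at h1
      refine h1.trans ?_
      have h2 : (∑ k ∈ Finset.range m, X k * Z k) / (S * v) ≤ s / 2 := by
        rw [div_le_iff₀ (by positivity)]
        refine hsum2.trans (le_of_eq ?_)
        ring
      have h3 := mul_le_mul_of_nonneg_right h2 hTv'.le
      linarith
    rw [pa_MG, pa_MG]
    calc v * s * Th G (v * s) = 2 * v * (s * Th G (v * s) - s / 2 * Th G (v * s)) := by ring
      _ ≤ 2 * v * (Cs * Th G v * R) := by
        apply mul_le_mul_of_nonneg_left _ (by positivity)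
        linarith
      _ = _ := by ring

theorem prof_exists (hG : Nice κ G) (hT : ¬ ThinG G) :
    ∃ CJ : ℝ, 1 ≤ CJ ∧ ∀ N : ℝ, 1 ≤ N → ∃ (K : ℕ) (h σ : ℕ → ℝ) (v : ℝ),
      Prof κ G CJ N K h σ v := by
  obtain ⟨c₁, N₁, hc₁, hN₁, hrec⟩ := rec_exists hG hT
  obtain ⟨CR, hCR, hJ⟩ := recJ hG hc₁ hN₁
  obtain ⟨Cs, hCs⟩ : ∃ Cs : ℝ, Cs = (2 * CR) ^ (κ + 1) := ⟨_, rfl⟩
  have hCs1 : 1 ≤ Cs := by
    rw [hCs]
    exact one_le_pow₀ (by linarith)
  refine ⟨2 * Cs, by linarith, fun N hN => ?_⟩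
  obtain ⟨N₂, hN₂1, hN₂⟩ : ∃ N₂ : ℝ, 1 ≤ N₂ ∧ 2 * N / c₁ ≤ G N₂ :=
    ((eventually_ge_atTop (1 : ℝ)).and (hG.tends.eventually_ge_atTop (2 * N / c₁))).exists
  obtain ⟨N', hN'⟩ : ∃ N' : ℝ, N' = max (max N N₁) N₂ := ⟨_, rfl⟩
  have hN'N : N ≤ N' := by rw [hN']; exact (le_max_left _ _).trans (le_max_left _ _)
  have hN'1 : N₁ ≤ N' := by rw [hN']; exact (le_max_right _ _).trans (le_max_left _ _)
  have hN'2 : N₂ ≤ N' := by rw [hN']; exact le_max_right _ _
  have hN'0 : 1 ≤ N' := hN.trans hN'N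
  obtain ⟨v, S, m, h, X, hg⟩ := hrec N' hN'0
  have hg' := hg
  obtain ⟨hv, hS, hch, heq, hXd, hsum, hSN, hMX⟩ := hg'
  have hh : ∀ k < m, 0 < h k := fun k hk => by
    have := (hch.1 k hk).1
    linarith
  have hX : ∀ k < m, 0 < X k := fun k hk => by
    have := (hch.1 k hk).2.1
    linarith
  have hσ : ∀ k < m, 0 < h k * X k / (S * v) := fun k hk => by
    have := hh k hk
    have := hX k hk
    positivity
  have hTX : ∀ k < m, 0 < Th G (X k) := fun k hk => pa_Th_pos hG (hX k hk)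
  have hTh : ∀ k < m, 0 < Th G (h k) := fun k hk => pa_Th_pos hG (hh k hk)
  have hGX : ∀ k < m, 0 < G (X k) := fun k hk => by
    have := hG.one_le (hX k hk).le
    linarith
  have hm : 0 < m := by
    rcases Nat.eq_zero_or_pos m with h0 | h0
    · rw [h0, Finset.range_zero, Finset.sum_empty] at hsum
      have : 0 < S * v := mul_pos hS hv
      linarith
    · exact h0
  have hgeo : ∀ k, k + 1 < m → 2 * h k ^ κ ≤ h (k + 1) ^ κ ∧ 2 * Th G (h k) ≤ Th G (h (k + 1)) := by
    intro k hk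
    have h1 := hG.lt_of_two_mul (hh k (by omega)).le (hh (k + 1) hk).le (hch.2 k hk)
    exact h1.2
  have hXlt : ∀ k, k + 1 < m → X (k + 1) ≤ X k := by
    intro k hk
    exact (hG.lt_of_two_mul (hX (k + 1) hk).le (hX k (by omega)).le (hXd k hk)).1.le
  refine ⟨m, h, fun k => h k * X k / (S * v), v, ?_⟩
  refine ⟨hm, ?_, ?_, hσ, ?_, hgeo, ?_, ?_, ?_, ?_⟩
  · intro k hk
    have := (hch.1 k hk).1
    exact ⟨by linarith, by linarith⟩
  · have h1 := ((chain_bounds hG hN'0 hv hch).2 0 hm).1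
    have h2 := (hch.1 0 hm).1
    linarith
  · rw [← Finset.sum_div, hsum]
    exact div_self (mul_pos hS hv).ne'
  · intro k hk
    have e : ∀ j, j < m → MG G (h j) / (h j * X j / (S * v)) = S * v * Th G (h j) / X j := by
      intro j hj
      have a1 := hh j hj
      have a2 := hX j hj
      rw [pa_MG]
      field_simp
    rw [e k (by omega), e (k + 1) hk]
    have a1 := hX k (by omega)
    have a2 := hX (k + 1) hk
    have a3 := hXlt k hk
    have a4 := (hgeo k hk).2
    have a5 := hTh k (by omega)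
    calc 2 * (S * v * Th G (h k) / X k) = S * v * (2 * Th G (h k)) / X k := by ring
      _ ≤ S * v * Th G (h (k + 1)) / X k := by gcongr
      _ ≤ S * v * Th G (h (k + 1)) / X (k + 1) := by
        have a6 := hTh (k + 1) hk
        gcongr
  · intro k hk
    have a1 := hh k hk
    have a2 := hX k hk
    have a3 := hTh k hk
    have a4 := hTX k hk
    have e : h k * X k / (S * v) * MG G v = MG G (h k) * MG G (X k) / S := by
      have e1 : h k * X k / (S * v) * MG G v = h k * X k * Th G v / S := by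
        rw [pa_MG]
        field_simp
      rw [e1, ← heq k hk, pa_MG, pa_MG]
      ring
    rw [e, le_div_iff₀ hS]
    have h1 : N * S ≤ MG G (X k) := by
      refine le_trans ?_ (hMX k hk)
      exact mul_le_mul_of_nonneg_right hN'N hS.le
    have h2 : 0 ≤ MG G (h k) := by
      rw [pa_MG]
      positivity
    calc N * MG G (h k) * S = MG G (h k) * (N * S) := by ring
      _ ≤ _ := mul_le_mul_of_nonneg_left h1 h2
  · have hGv : 0 < G v := by
      have := hG.one_le hv.le
      linarith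
    have e : ∀ k ∈ Finset.range m, h k * X k / (S * v) * G (h k) = G v / S * (1 / G (X k)) := by
      intro k hk
      have hk' := Finset.mem_range.1 hk
      have a1 := hh k hk'
      have a2 := hX k hk'
      have a3 := hGX k hk'
      have h1 := heq k hk'
      unfold Th at h1
      rw [div_mul_eq_mul_div, div_mul_div_comm, div_eq_div_iff (by positivity) (by positivity)]
      calc h k * X k * G (h k) * (S * G (X k)) = S * (h k * G (h k) * (X k * G (X k))) := by ring
        _ = S * (v * G v) := by rw [h1]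
        _ = _ := by ring
    rw [Finset.sum_congr rfl e, ← Finset.mul_sum]
    have hge := pa_geom (fun k => 1 / G (X k)) m (fun k hk => by
      have := hGX k hk
      positivity) (fun k hk => by
      have a1 := hGX k (by omega)
      have a2 := hGX (k + 1) hk
      have a3 := hXd k hk
      rw [mul_one_div, div_le_div_iff₀ a1 a2]
      linarith)
    have hge' : ∑ k ∈ Finset.range m, 1 / G (X k) ≤ 2 * (1 / G (X (m - 1))) := by
      rcases hge with h1 | h1
      · exact h1
      · omega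
    have hXm : N₂ ≤ X (m - 1) := by
      have := (hch.1 (m - 1) (by omega)).2.1
      linarith
    have hG2 : G N₂ ≤ G (X (m - 1)) :=
      hG.mono (by rw [mem_Ici]; linarith) (by rw [mem_Ici]; linarith) hXm
    have hGN2 : 0 < G N₂ := by
      have := hG.one_le (by linarith : (0 : ℝ) ≤ N₂)
      linarith
    have hS1 : c₁ ≤ S := by
      have h1 := hSN v hv le_rfl
      have h2 := SN_nonneg hG hN₁ hv
      have h3 : 0 ≤ c₁ * SN G N₁ v := mul_nonneg hc₁.le h2
      linarith
    have h5 : 2 * N ≤ c₁ * G N₂ := by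
      rw [div_le_iff₀ hc₁] at hN₂
      linarith
    have h6 : ∑ k ∈ Finset.range m, 1 / G (X k) ≤ 2 / G N₂ := by
      refine hge'.trans ?_
      rw [mul_one_div]
      gcongr
    calc N * (G v / S * ∑ k ∈ Finset.range m, 1 / G (X k))
        ≤ N * (G v / S * (2 / G N₂)) := by gcongr
      _ = G v * (2 * N) / (S * G N₂) := by
        field_simp
      _ ≤ G v * (S * G N₂) / (S * G N₂) := by
        have : 2 * N ≤ S * G N₂ := h5.trans (mul_le_mul_of_nonneg_right hS1 hGN2.le)
        gcongr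
      _ = G v := by
        field_simp
  · intro b hb hs1
    exact pa_J1 hG hCR hCs hg hN'0 (fun v' Y h1 h2 h3 => hJ N' v S m h X hN'1 hg v' Y h1 h2 h3)
      b hb hs1

end

end Pool.Agent.OB9
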