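import Pool.Agent.OB9.PmC
import Pool.Agent.OB9.PmD
import Pool.Agent.OB9.PmE
import Pool.Agent.OB9.ProfA
import Pool.Agent.OB9.BstB
import Pool.Agent.OB9.DensA

/-!
# Module OB9/PmF

`DInf (MG G)` when the chain condition fails.

PROOF. `CJ` from `prof_exists`, `η`, `c₀` from `TM_test`. Choose generations by recursion: given the
earlier ones, let `Λ_g` be large: `Λ_0 = 2`,
`Λ_{g+1} ≥ max(2(Λ_g + u_g), 64 H_g (M(v_g)+1)/(c₀ v_g) + 1)`; `l_g = g` (so `l_g → ∞`), `N_g` so large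
that `N_g ≥ 2^(g+1)`, `√(2/N_g) ≤ Λ_g^{-2}`, `8 Λ_g ≤ c₀ N_g` and
`Λ_g² G(Λ_g²) · 2/N_g ≤ 1/Λ_g`; profile `Prof κ G CJ N_g K h σ v` (`v ≥ N_g`), levels from `levels`,
`p_g` larger than `b_g` and than `p_{g-1} + K_{g-1}`, `T_g` from `exists_TM`, `u_g = 8 v_g` (`TM_sup`),
`H_g` from `TM_test`. `norm`: `TM_sq`, `opNorm_le`. `small`: for `|y| ≤ Λ`,
`M(Λ|y|) = Λ² y² G(Λ|y|) ≤ Λ² G(Λ²) y²`, and `∫ (T_g x)² ≤ (2/N_g) ∫ x² ≤ 2/N_g` as
`∫ x² ≤ md M x ≤ 1` (`Nice.sq_le`). So `Gen` holds. Sum condition: `TM_md` and `seq_key`: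
`∑_{g<n} md M (T_g x/8) ≤ 2 CJ · 4 · 2^κ md M x`. Lower bound: `dens` gives `Good η l_g e f` for large
`g`, then `TM_test`. Conclude with `bst_upper`, `bst_lower`.
-/

set_option autoImplicit false

namespace Pool.Agent.OB9

open MeasureTheory Set Filter
open scoped ENNReal Topology

noncomputable section

variable {κ : ℕ} {G : ℝ → ℝ}

/-- The data of one generation. -/
private structure PmFDat where
  K : ℕ
  h : ℕ → ℝ
  σ : ℕ → ℝ
  v : ℝ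
  N : ℝ
  b : ℕ
  α : ℕ → ℕ
  p : ℕ
  T : L2 →L[ℝ] L2
  H : ℝ

/-- The properties of one generation. -/
private structure PmFOk (κ : ℕ) (G : ℝ → ℝ) (CJ η c₀ : ℝ) (g : ℕ) (Λ : ℝ) (p₀ : ℕ)
    (d : PmFDat) : Prop where
  N1 : 1 ≤ d.N
  N2 : 2 / d.N ≤ (1 / Λ ^ 2) ^ 2
  N3 : 8 * Λ ≤ c₀ * d.N
  N4 : Λ ^ 2 * G (Λ ^ 2) * (2 / d.N) ≤ 1 / Λ
  prof : Prof κ G CJ d.N d.K d.h d.σ d.v
  lev : Lev G g d.b d.K d.α d.h d.σ d.v
  bp : d.b < d.p
  pp : p₀ ≤ d.p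
  tm : TM g d.b d.p d.K d.α d.h d.σ d.v d.T
  H0 : 0 ≤ d.H
  test : ∀ {e f : Set ℝ}, MeasurableSet e → MeasurableSet f → Good η g e f →
    Test (MG G) c₀ d.T d.H d.v e f

private theorem pmf_exists (hG : Nice κ G) {CJ η c₀ : ℝ} (hc₀ : 0 < c₀)
    (hprof : ∀ N : ℝ, 1 ≤ N → ∃ (K : ℕ) (h σ : ℕ → ℝ) (v : ℝ), Prof κ G CJ N K h σ v)
    (htest : ∀ {CJ N : ℝ}, 1 ≤ N → ∀ {K l b p : ℕ} {α : ℕ → ℕ}
      {h σ : ℕ → ℝ} {v : ℝ}, Prof κ G CJ N K h σ v → Lev G l b K α h σ v → b < p →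
      ∀ {T : L2 →L[ℝ] L2}, TM l b p K α h σ v T → ∃ H : ℝ, 0 ≤ H ∧
      ∀ {e f : Set ℝ}, MeasurableSet e → MeasurableSet f → Good η l e f →
        Test (MG G) c₀ T H v e f)
    (g : ℕ) (Λ : ℝ) (p₀ : ℕ) (hΛ : 2 ≤ Λ) : ∃ d, PmFOk κ G CJ η c₀ g Λ p₀ d := by
  have hΛ0 : 0 < Λ := by linarith
  have hGΛ : 1 ≤ G (Λ ^ 2) := hG.one_le (by positivity)
  have hA : 0 < Λ ^ 2 * G (Λ ^ 2) := by positivity
  set N : ℝ := 1 + 2 ^ (g + 1) + 2 * Λ ^ 4 + 8 * Λ / c₀ + 2 * Λ * (Λ ^ 2 * G (Λ ^ 2)) with hN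
  have t1 : (0 : ℝ) < 2 ^ (g + 1) := by positivity
  have t2 : (0 : ℝ) < 2 * Λ ^ 4 := by positivity
  have t3 : (0 : ℝ) < 8 * Λ / c₀ := by positivity
  have t4 : (0 : ℝ) < 2 * Λ * (Λ ^ 2 * G (Λ ^ 2)) := by positivity
  have hN1 : 1 ≤ N := by linarith
  have hNpos : 0 < N := by linarith
  obtain ⟨K, h, σ, v, hP⟩ := hprof N hN1
  obtain ⟨b, α, hL⟩ := levels hG g (by linarith : (2 : ℝ) ^ (g + 1) ≤ N) hP
  obtain ⟨T, hTM⟩ := exists_TM g b (b + 1 + p₀) K α h σ v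
  obtain ⟨H, hH0, hH⟩ := htest hN1 hP hL (by omega : b < b + 1 + p₀) hTM
  refine ⟨⟨K, h, σ, v, N, b, α, b + 1 + p₀, T, H⟩, ⟨hN1, ?_, ?_, ?_, hP, hL, by simp; omega,
    by simp, hTM, hH0, hH⟩⟩
  · show 2 / N ≤ (1 / Λ ^ 2) ^ 2
    rw [div_pow, one_pow, div_le_div_iff₀ hNpos (by positivity)]
    have : (Λ ^ 2) ^ 2 = Λ ^ 4 := by ring
    rw [this]
    linarith
  · show 8 * Λ ≤ c₀ * N
    have h1 : 8 * Λ / c₀ ≤ N := by linarith
    rw [div_le_iff₀ hc₀] at h1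
    linarith
  · show Λ ^ 2 * G (Λ ^ 2) * (2 / N) ≤ 1 / Λ
    rw [mul_div_assoc', div_le_div_iff₀ hNpos hΛ0]
    linarith

private theorem pmf_sq_le (hG : Nice κ G) {x : L2} (hx : md (MG G) x ≤ 1) :
    ∫ t, x t ^ 2 ∂lam ≤ 1 := by
  have h1 : ENNReal.ofReal (∫ t, x t ^ 2 ∂lam) ≤ 1 := by
    have hint : Integrable (fun t => x t ^ 2) lam := (Lp.memLp x).integrable_sq
    rw [ofReal_integral_eq_lintegral_ofReal hint (Eventually.of_forall fun t => sq_nonneg _)]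
    refine le_trans (lintegral_mono fun t => ?_) hx
    refine ENNReal.ofReal_le_ofReal ?_
    rw [← sq_abs]
    exact hG.sq_le (abs_nonneg _)
  rwa [ENNReal.ofReal_le_one] at h1

private theorem pmf_small (hG : Nice κ G) {Λ N : ℝ} (hΛ : 2 ≤ Λ) (hN : 1 ≤ N)
    (h4 : Λ ^ 2 * G (Λ ^ 2) * (2 / N) ≤ 1 / Λ) {x y : L2} (hx : md (MG G) x ≤ 1)
    (hy : ∫ t, y t ^ 2 ∂lam ≤ 2 / N * ∫ t, x t ^ 2 ∂lam) :
    md (MG G) (fun t => if |y t| ≤ Λ then Λ * y t else 0) ≤ ENNReal.ofReal (1 / Λ) := by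
  have hΛ0 : 0 < Λ := by linarith
  have hGΛ : 1 ≤ G (Λ ^ 2) := hG.one_le (by positivity)
  have hA : 0 ≤ Λ ^ 2 * G (Λ ^ 2) := by positivity
  have hx1 := pmf_sq_le hG hx
  have hy1 : ∫ t, y t ^ 2 ∂lam ≤ 2 / N := by
    have : 0 ≤ 2 / N := by positivity
    nlinarith
  have hint : Integrable (fun t => y t ^ 2) lam := (Lp.memLp y).integrable_sq
  have hM0 : MG G 0 = 0 := by simp [MG]
  have h1 : md (MG G) (fun t => if |y t| ≤ Λ then Λ * y t else 0) ≤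
      ∫⁻ t, ENNReal.ofReal (Λ ^ 2 * G (Λ ^ 2) * y t ^ 2) ∂lam := by
    unfold md
    refine lintegral_mono fun t => ENNReal.ofReal_le_ofReal ?_
    show MG G |if |y t| ≤ Λ then Λ * y t else 0| ≤ Λ ^ 2 * G (Λ ^ 2) * y t ^ 2
    split_ifs with h
    · rw [abs_mul, abs_of_pos hΛ0]
      unfold MG
      have h2 : G (Λ * |y t|) ≤ G (Λ ^ 2) := by
        refine hG.mono (mem_Ici.2 (by positivity)) (mem_Ici.2 (by positivity)) ?_
        rw [sq]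
        exact mul_le_mul_of_nonneg_left h hΛ0.le
      have h3 : (Λ * |y t|) ^ 2 = Λ ^ 2 * y t ^ 2 := by rw [mul_pow, sq_abs]
      rw [h3]
      have h5 : 0 ≤ Λ ^ 2 * y t ^ 2 := by positivity
      calc Λ ^ 2 * y t ^ 2 * G (Λ * |y t|) ≤ Λ ^ 2 * y t ^ 2 * G (Λ ^ 2) :=
            mul_le_mul_of_nonneg_left h2 h5
        _ = Λ ^ 2 * G (Λ ^ 2) * y t ^ 2 := by ring
    · rw [abs_zero, hM0]
      positivity
  refine h1.trans ?_
  rw [← ofReal_integral_eq_lintegral_ofReal (hint.const_mul _)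
    (Eventually.of_forall fun t => by positivity), integral_const_mul]
  refine ENNReal.ofReal_le_ofReal (le_trans ?_ h4)
  exact mul_le_mul_of_nonneg_left hy1 hA

theorem DInf_of_not_thin (hG : Nice κ G) (hT : ¬ ThinG G) : DInf (MG G) := by
  obtain ⟨CJ, hCJ, hprof⟩ := prof_exists hG hT
  obtain ⟨η, c₀, hη, hc₀, hc₀1, htest⟩ := TM_test hG
  have hM : QOrl (MG G) := hG.qorl
  have hex : ∀ (g : ℕ) (Λ : ℝ) (p₀ : ℕ), ∃ d, 2 ≤ Λ → PmFOk κ G CJ η c₀ g Λ p₀ d := by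
    intro g Λ p₀
    by_cases h2 : 2 ≤ Λ
    · obtain ⟨d, hd⟩ := pmf_exists hG hc₀ hprof htest g Λ p₀ h2
      exact ⟨d, fun _ => hd⟩
    · exact ⟨⟨0, 0, 0, 0, 0, 0, 0, 0, 0, 0⟩, fun h => absurd h h2⟩
  choose d hd using hex
  let st : ℕ → ℝ × ℕ := fun g => Nat.rec (2, 0) (fun g s =>
    (max (2 * (s.1 + 8 * (d g s.1 s.2).v))
      (64 * (d g s.1 s.2).H * (MG G (d g s.1 s.2).v + 1) / (c₀ * (d g s.1 s.2).v)),
      (d g s.1 s.2).p + (d g s.1 s.2).K)) g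
  obtain ⟨Λ, hΛdef⟩ : ∃ Λ : ℕ → ℝ, Λ = fun g => (st g).1 := ⟨_, rfl⟩
  obtain ⟨D, hDdef⟩ : ∃ D : ℕ → PmFDat, D = fun g => d g (st g).1 (st g).2 := ⟨_, rfl⟩
  have hΛ0 : Λ 0 = 2 := by
    rw [hΛdef]
    rfl
  have hΛs : ∀ g, Λ (g + 1) = max (2 * (Λ g + 8 * (D g).v))
      (64 * (D g).H * (MG G (D g).v + 1) / (c₀ * (D g).v)) := by
    intro g
    rw [hΛdef, hDdef]
  have hps : ∀ g, (st (g + 1)).2 = (D g).p + (D g).K := by
    intro g
    rw [hDdef]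
  have hok' : ∀ g, 2 ≤ Λ g → PmFOk κ G CJ η c₀ g (Λ g) (st g).2 (D g) := by
    intro g h2
    have h3 : 2 ≤ (st g).1 := by rw [hΛdef] at h2; exact h2
    have := hd g (st g).1 (st g).2 h3
    rw [hΛdef, hDdef]
    exact this
  have hv0 : ∀ g, 2 ≤ Λ g → 1 ≤ (D g).v := fun g h2 => (hok' g h2).N1.trans (hok' g h2).prof.vN
  have hΛ2 : ∀ g, 2 ≤ Λ g := by
    intro g
    induction g with
    | zero => rw [hΛ0]
    | succ g ih =>
      rw [hΛs g]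
      refine le_trans ?_ (le_max_left _ _)
      have := hv0 g ih
      linarith
  have hok : ∀ g, PmFOk κ G CJ η c₀ g (Λ g) (st g).2 (D g) := fun g => hok' g (hΛ2 g)
  have hv1 : ∀ g, 1 ≤ (D g).v := fun g => hv0 g (hΛ2 g)
  have hpp : ∀ g, (D g).p + (D g).K ≤ (D (g + 1)).p := by
    intro g
    rw [← hps g]
    exact (hok (g + 1)).pp
  have hsq : ∀ g (x : L2), ∫ t, (D g).T x t ^ 2 ∂lam ≤ 2 / (D g).N * ∫ t, x t ^ 2 ∂lam :=
    fun g x => TM_sq hG (hok g).N1 (hok g).prof (hok g).lev (hok g).bp (hok g).tm x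
  have hgen : Gen (MG G) c₀ (fun g => (D g).T) Λ (fun g => 8 * (D g).v) (fun g => (D g).H)
      (fun g => (D g).v) := by
    refine ⟨hΛ0.ge, fun g => ?_, fun g => ?_, fun g => (hok g).H0, fun g => ?_,
      fun g x hb hx => ?_, fun g x hb hx => ?_, fun g => ?_, fun g => ?_⟩
    · rw [hΛs g]
      exact le_max_left _ _
    · have := hv1 g
      linarith
    · refine opNorm_le _ (by positivity) fun x => ?_
      refine (hsq g x).trans ?_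
      exact mul_le_mul_of_nonneg_right (hok g).N2 (integral_nonneg fun t => sq_nonneg _)
    · exact TM_sup hG (by linarith [hv1 g]) (hok g).prof (hok g).lev (hok g).bp (hok g).tm hb hx
    · exact pmf_small hG (hΛ2 g) (hok g).N1 (hok g).N4 hx (hsq g x)
    · refine (hok g).N3.trans ?_
      exact mul_le_mul_of_nonneg_left (hok g).prof.vN hc₀.le
    · have hcv : 0 < c₀ * (D g).v := by
        have := hv1 g
        positivity
      have h1 : 64 * (D g).H * (MG G (D g).v + 1) / (c₀ * (D g).v) ≤ Λ (g + 1) := by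
        rw [hΛs g]
        exact le_max_right _ _
      rw [div_le_iff₀ hcv] at h1
      linarith
  have hC1 : (0 : ℝ) ≤ 2 * CJ * (4 * 2 ^ κ) := by positivity
  have hsum : ∀ x : L2, Bd x → md (MG G) x ≤ 1 → ∀ n : ℕ,
      ∑ g ∈ Finset.range n, md (MG G) (fun t => (D g).T x t / 8) ≤
        ENNReal.ofReal (2 * CJ * (4 * 2 ^ κ)) := by
    intro x hb hx n
    set a : ℕ → ℝ := fun g => ∑ k ∈ Finset.range (D g).K, ∑ i ∈ Finset.range (2 ^ (D g).b),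
      1 / 2 ^ ((D g).α k) *
        MG G |cf (es g ((D g).α k) (D g).b ((D g).p + k) i) (1 / 2 ^ ((D g).α k)) x| with ha
    have ha0 : ∀ g, 0 ≤ a g := fun g => Finset.sum_nonneg fun k _ =>
      Finset.sum_nonneg fun i _ => mul_nonneg (by positivity) (hM.nonneg (abs_nonneg _))
    have h1 : ∀ g, md (MG G) (fun t => (D g).T x t / 8) ≤ ENNReal.ofReal (2 * CJ * a g) :=
      fun g => TM_md hG hCJ (by linarith [hv1 g]) (hok g).prof (hok g).lev (hok g).bp (hok g).tm hb hx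
    have h2 : ENNReal.ofReal (∑ g ∈ Finset.range n, a g) ≤
        ENNReal.ofReal (4 * 2 ^ κ) * md (MG G) x := by
      exact seq_key hG (l := fun g => g) (b := fun g => (D g).b) (p := fun g => (D g).p)
        (K := fun g => (D g).K) (α := fun g => (D g).α)
        (fun g k hk => ((hok g).lev.le k hk).1) (fun g => (hok g).bp) hpp hb n
    calc ∑ g ∈ Finset.range n, md (MG G) (fun t => (D g).T x t / 8)
        ≤ ∑ g ∈ Finset.range n, ENNReal.ofReal (2 * CJ * a g) :=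
          Finset.sum_le_sum fun g _ => h1 g
      _ = ENNReal.ofReal (∑ g ∈ Finset.range n, 2 * CJ * a g) :=
          (ENNReal.ofReal_sum_of_nonneg fun g _ => by have := ha0 g; positivity).symm
      _ = ENNReal.ofReal (2 * CJ) * ENNReal.ofReal (∑ g ∈ Finset.range n, a g) := by
          rw [← Finset.mul_sum, ENNReal.ofReal_mul (by positivity)]
      _ ≤ ENNReal.ofReal (2 * CJ) * (ENNReal.ofReal (4 * 2 ^ κ) * md (MG G) x) := by gcongr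
      _ ≤ ENNReal.ofReal (2 * CJ) * (ENNReal.ofReal (4 * 2 ^ κ) * 1) := by gcongr
      _ = ENNReal.ofReal (2 * CJ * (4 * 2 ^ κ)) := by
          rw [mul_one, ← ENNReal.ofReal_mul (by positivity)]
  have hup := bst_upper hM hgen (C₀ := 8) (by norm_num) hC1 hsum
  have hlow := bst_lower hM hgen hc₀ hc₀1 (fun e f he hf he0 hf0 => by
    obtain ⟨l0, hl0⟩ := dens hη he hf he0 hf0
    exact ⟨l0, fun g hg => (hok g).test he hf (hl0 g hg)⟩)
  exact ⟨_, _, _, by positivity, by positivity, hup, hlow⟩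

end

end Pool.Agent.OB9
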