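import Pool.Agent.OB9.RgA

/-!
# Module OB9/RgB

Transfer of the chain condition between `Φ` and `G`.

PROOF. Let `A ≥ 1`, `t0` be as in the hypothesis: `g ≤ A G`, `G ≤ A g` on `[t0,∞)`, `g(t) = Φ(t)/t²`.
Then for `t ≥ t0`: `Φ(t)/t = t g(t) ≤ A Th(t)` and `Th(t) ≤ A Φ(t)/t`.
(1) `ChainSmall Φ → ThinG G`. Let `ε > 0`; let `q ≥ 1` be an integer with `2^q ≥ 2 A²`. Take `N` from
`ChainSmall Φ` with `ε' = ε/(q A³)`, and `N' = max N t0 (≥ 1)`. Let `(h, X)` be a chain for `G` at `v`,
base `N'`; `v ≥ N'` (if `m > 0`, as `h_i ≤ v`). For each residue `r < q` the subsequence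
`h_{r+qj}`, `X_{r+qj}` satisfies `h` increasing, `g(h') ≥ G(h')/A ≥ 2^q G(h)/A ≥ 2 A G(h) ≥ 2 g(h)`, and
`Φ(h)/h · Φ(X)/X ≤ A² Th(h) Th(X) ≤ A² Th(v) ≤ A³ Φ(v)/v ≤ Φ(A³v)/(A³v)·(...)`: precisely with
`v' = A³ v`: `Φ(v')/v' ≥ ...`: as `Φ(t)/t` need not grow linearly for general `Φ`, use
`Th(A³ v) ≥ A³ Th(v)` instead: `Φ(v')/v' ≥ Th(v')/A ≥ A² Th(v)` for `v' = A³ v`. So the subsequence is
a chain for `Φ` at `v'`, with sum `≤ ε' v' = ε v/q`; add over `r`. (2) `ThinG G → ChainSmall Φ`: the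
same with the roles exchanged: `G(h') ≥ g(h')/A ≥ 2^q g(h)/A ≥ 2 G(h)`;
`Th(h) Th(X) ≤ A² Φ(h)/h Φ(X)/X ≤ A² Φ(v)/v ≤ A³ Th(v) ≤ Th(A³ v)` where `v ≥ t0` because
`Φ(v)/v ≥ Φ(h)/h Φ(X)/X` is large: choose the base `N'` with also `Φ(N')/N' ≥ 1` and
`(Φ(N')/N')² > Φ(t0)/t0`, so that `v > t0` by monotonicity of `Φ(t)/t` (if `m = 0` the sum is `0`).
-/

set_option autoImplicit false

namespace Pool.Agent.OB9

open MeasureTheory Set Filter
open scoped ENNReal Topology

noncomputable section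

variable {κ : ℕ} {Φ G : ℝ → ℝ}

private theorem rgb_lt {q m r j : ℕ} (hq : 0 < q) (hr : r < q) :
    j < (m + q - 1 - r) / q ↔ r + q * j < m := by
  rw [← Nat.succ_le_iff, Nat.le_div_iff_mul_le hq, Nat.succ_mul, mul_comm j q]
  omega

private theorem rgb_split {q m : ℕ} (hq : 0 < q) (f : ℕ → ℝ) {B : ℝ}
    (hB : ∀ r < q, ∑ j ∈ Finset.range ((m + q - 1 - r) / q), f (r + q * j) ≤ B) :
    ∑ i ∈ Finset.range m, f i ≤ q * B := by
  have h1 : ∑ r ∈ Finset.range q, ∑ i ∈ Finset.range m with i % q = r, f i =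
      ∑ i ∈ Finset.range m, f i :=
    Finset.sum_fiberwise_of_maps_to (fun i _ => Finset.mem_range.2 (Nat.mod_lt i hq)) f
  have h2 : ∀ r ∈ Finset.range q, ∑ i ∈ Finset.range m with i % q = r, f i ≤ B := by
    intro r hr
    have hr' : r < q := Finset.mem_range.1 hr
    refine le_trans (le_of_eq ?_) (hB r hr')
    symm
    refine Finset.sum_nbij' (fun j => r + q * j) (fun i => i / q) ?_ ?_ ?_ ?_ ?_
    · intro j hj
      rw [Finset.mem_filter, Finset.mem_range]
      refine ⟨(rgb_lt hq hr').1 (Finset.mem_range.1 hj), ?_⟩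
      rw [Nat.add_mul_mod_self_left, Nat.mod_eq_of_lt hr']
    · intro i hi
      rw [Finset.mem_filter, Finset.mem_range] at hi
      rw [Finset.mem_range, rgb_lt hq hr']
      have h3 := Nat.mod_add_div i q
      rw [hi.2] at h3
      rw [h3]
      exact hi.1
    · intro j _
      show (r + q * j) / q = j
      rw [Nat.add_mul_div_left _ _ hq, Nat.div_eq_of_lt hr', zero_add]
    · intro i hi
      rw [Finset.mem_filter] at hi
      have h3 := Nat.mod_add_div i q
      rw [hi.2] at h3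
      exact h3
    · intro j _
      rfl
  calc ∑ i ∈ Finset.range m, f i = ∑ r ∈ Finset.range q,
        ∑ i ∈ Finset.range m with i % q = r, f i := h1.symm
    _ ≤ ∑ _r ∈ Finset.range q, B := Finset.sum_le_sum h2
    _ = q * B := by rw [Finset.sum_const, Finset.card_range, nsmul_eq_mul]

private theorem rgb_pow {g : ℕ → ℝ} {m : ℕ} (h : ∀ i, i + 1 < m → 2 * g i ≤ g (i + 1)) (i : ℕ) :
    ∀ k, i + k < m → 2 ^ k * g i ≤ g (i + k) := by
  intro k
  induction k with
  | zero =>
    intro _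
    simp
  | succ k ih =>
    intro hk
    have h1 := ih (by omega)
    have h2 := h (i + k) (by omega)
    rw [pow_succ, ← add_assoc]
    linarith

private theorem rgb_q {A : ℝ} : ∃ q : ℕ, 0 < q ∧ 2 * A ^ 2 ≤ 2 ^ q := by
  obtain ⟨q, hq⟩ := pow_unbounded_of_one_lt (2 * A ^ 2) (by norm_num : (1 : ℝ) < 2)
  refine ⟨q + 1, Nat.succ_pos q, ?_⟩
  rw [pow_succ (2 : ℝ) q]
  have h1 : (0 : ℝ) < 2 ^ q := by positivity
  linarith

theorem thinG_of_chainSmall (hΦ : Orl Φ) (hG : Nice κ G) {A t0 : ℝ} (hA : 1 ≤ A) (ht : 1 ≤ t0)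
    (h : ∀ t, t0 ≤ t → Φ t / t ^ 2 ≤ A * G t ∧ G t ≤ A * (Φ t / t ^ 2))
    (hc : ChainSmall Φ) : ThinG G := by
  have hA0 : 0 < A := by linarith
  intro ε hε
  obtain ⟨q, hq, hq2⟩ := rgb_q (A := A)
  have hq0 : (0 : ℝ) < q := by exact_mod_cast hq
  obtain ⟨N, hN, hcN⟩ := hc (ε / (q * A ^ 3)) (by positivity)
  refine ⟨max N t0, le_max_of_le_right ht, ?_⟩
  intro v m hh X hv hch
  obtain ⟨hch1, hch2⟩ := hch
  rcases Nat.eq_zero_or_pos m with rfl | hm
  · rw [Finset.range_zero, Finset.sum_empty]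
    positivity
  have hnn : ∀ t, t0 ≤ t → 0 ≤ Φ t / t := fun t htt =>
    div_nonneg (hΦ.qorl.nonneg (by linarith)) (by linarith)
  have hle1 : ∀ t, t0 ≤ t → Φ t / t ≤ A * Th G t := by
    intro t htt
    have ht1 : 0 < t := by linarith
    have h1 := mul_le_mul_of_nonneg_left (h t htt).1 ht1.le
    have e : t * (Φ t / t ^ 2) = Φ t / t := by field_simp
    rw [e] at h1
    unfold Th
    linarith
  have hle2 : ∀ t, t0 ≤ t → Th G t ≤ A * (Φ t / t) := by
    intro t htt
    have ht1 : 0 < t := by linarith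
    have h1 := mul_le_mul_of_nonneg_left (h t htt).2 ht1.le
    have e : t * (A * (Φ t / t ^ 2)) = A * (Φ t / t) := by field_simp
    rw [e] at h1
    exact h1
  have hTh1 : ∀ t, 1 ≤ t → 1 ≤ Th G t := by
    intro t htt
    have h1 := hG.one_le (t := t) (by linarith)
    unfold Th
    nlinarith
  have hTh0 : ∀ t, 0 ≤ t → 0 ≤ Th G t := by
    intro t htt
    have h1 := hG.one_le htt
    unfold Th
    positivity
  -- `v ≥ t0`
  have hvt : t0 ≤ v := by
    obtain ⟨h1, h2, h3⟩ := hch1 0 hm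
    have h4 : t0 ≤ hh 0 := (le_max_right _ _).trans h1
    have h5 : t0 ≤ X 0 := (le_max_right _ _).trans h2
    have h6 := hTh1 (X 0) (by linarith)
    have h7 := hTh0 (hh 0) (by linarith)
    have h8 : Th G (hh 0) ≤ Th G v := by nlinarith
    exact h4.trans ((hG.Th_le_iff (by linarith) hv.le).1 h8)
  have hA3 : 1 ≤ A ^ 3 := one_le_pow₀ hA
  have hv' : v ≤ A ^ 3 * v := by nlinarith
  have key : ∀ r < q, ∑ j ∈ Finset.range ((m + q - 1 - r) / q),
      hh (r + q * j) * X (r + q * j) ≤ ε * v / q := by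
    intro r hr
    have h1 := hcN (A ^ 3 * v) ((m + q - 1 - r) / q) (fun j => hh (r + q * j))
      (fun j => X (r + q * j)) (by positivity) ?_ ?_
    · refine h1.trans (le_of_eq ?_)
      field_simp
    · intro j hj
      obtain ⟨h2, h3, h4⟩ := hch1 _ ((rgb_lt hq hr).1 hj)
      have h5 : t0 ≤ hh (r + q * j) := (le_max_right _ _).trans h2
      have h6 : t0 ≤ X (r + q * j) := (le_max_right _ _).trans h3
      refine ⟨(le_max_left _ _).trans h2, (le_max_left _ _).trans h3, ?_⟩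
      have h7 := mul_le_mul (hle1 _ h5) (hle1 _ h6) (hnn _ h6)
        (mul_nonneg hA0.le (hTh0 _ (by linarith)))
      have h8 := hle2 (A ^ 3 * v) (by linarith)
      have h9 := hG.Th_mul_ge hA3 hv.le
      have h10 : A * Th G (hh (r + q * j)) * (A * Th G (X (r + q * j))) ≤ A ^ 2 * Th G v := by
        have e : A * Th G (hh (r + q * j)) * (A * Th G (X (r + q * j))) =
            A ^ 2 * (Th G (hh (r + q * j)) * Th G (X (r + q * j))) := by ring
        rw [e]
        exact mul_le_mul_of_nonneg_left h4 (by positivity)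
      refine h7.trans (h10.trans ?_)
      have h11 : A * (A ^ 2 * Th G v) ≤ A * (Φ (A ^ 3 * v) / (A ^ 3 * v)) := by
        have e : A * (A ^ 2 * Th G v) = A ^ 3 * Th G v := by ring
        rw [e]
        exact h9.trans h8
      exact le_of_mul_le_mul_left h11 hA0
    · intro j hj
      have hj' : r + q * (j + 1) < m := (rgb_lt hq hr).1 hj
      have hj0 : r + q * j < m := by
        rw [mul_add] at hj'
        omega
      have e1 : r + q * (j + 1) = r + q * j + q := by ring
      rw [e1] at hj'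
      have h2 := rgb_pow (g := fun i => G (hh i)) hch2 (r + q * j) q hj'
      have h3 : t0 ≤ hh (r + q * j) := (le_max_right _ _).trans (hch1 _ hj0).1
      have h4 : t0 ≤ hh (r + q * j + q) := (le_max_right _ _).trans (hch1 _ hj').1
      have h5 := hG.one_le (t := hh (r + q * j)) (by linarith)
      show hh (r + q * j) < hh (r + q * (j + 1)) ∧
        2 * (Φ (hh (r + q * j)) / hh (r + q * j) ^ 2) ≤
          Φ (hh (r + q * (j + 1))) / hh (r + q * (j + 1)) ^ 2
      rw [e1]
      have hA2 : 1 ≤ A ^ 2 := one_le_pow₀ hA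
      refine ⟨?_, ?_⟩
      · by_contra hcon
        rw [not_lt] at hcon
        have h6 := hG.mono (mem_Ici.2 (by linarith : (0 : ℝ) ≤ hh (r + q * j + q)))
          (mem_Ici.2 (by linarith : (0 : ℝ) ≤ hh (r + q * j))) hcon
        have h7 : 2 * G (hh (r + q * j)) ≤ 2 ^ q * G (hh (r + q * j)) :=
          mul_le_mul_of_nonneg_right (by linarith) (by linarith)
        linarith
      · have h6 := (h _ h3).1
        have h7 := (h _ h4).2
        have h8 : A * (2 * (Φ (hh (r + q * j)) / hh (r + q * j) ^ 2)) ≤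
            A * (Φ (hh (r + q * j + q)) / hh (r + q * j + q) ^ 2) := by
          calc A * (2 * (Φ (hh (r + q * j)) / hh (r + q * j) ^ 2))
              ≤ A * (2 * (A * G (hh (r + q * j)))) := by gcongr
            _ = 2 * A ^ 2 * G (hh (r + q * j)) := by ring
            _ ≤ 2 ^ q * G (hh (r + q * j)) := mul_le_mul_of_nonneg_right hq2 (by linarith)
            _ ≤ G (hh (r + q * j + q)) := h2
            _ ≤ _ := h7
        exact le_of_mul_le_mul_left h8 hA0
  refine (rgb_split hq (fun i => hh i * X i) key).trans (le_of_eq ?_)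
  field_simp

theorem chainSmall_of_thinG (hΦ : Orl Φ) (hG : Nice κ G) {A t0 : ℝ} (hA : 1 ≤ A) (ht : 1 ≤ t0)
    (h : ∀ t, t0 ≤ t → Φ t / t ^ 2 ≤ A * G t ∧ G t ≤ A * (Φ t / t ^ 2))
    (hc : ThinG G) : ChainSmall Φ := by
  have hA0 : 0 < A := by linarith
  intro ε hε
  obtain ⟨q, hq, hq2⟩ := rgb_q (A := A)
  have hq0 : (0 : ℝ) < q := by exact_mod_cast hq
  obtain ⟨N, hN, hcN⟩ := hc (ε / (q * A ^ 3)) (by positivity)
  have hnn : ∀ t, t0 ≤ t → 0 ≤ Φ t / t := fun t htt =>
    div_nonneg (hΦ.qorl.nonneg (by linarith)) (by linarith)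
  have hle1 : ∀ t, t0 ≤ t → Φ t / t ≤ A * Th G t := by
    intro t htt
    have ht1 : 0 < t := by linarith
    have h1 := mul_le_mul_of_nonneg_left (h t htt).1 ht1.le
    have e : t * (Φ t / t ^ 2) = Φ t / t := by field_simp
    rw [e] at h1
    unfold Th
    linarith
  have hle2 : ∀ t, t0 ≤ t → Th G t ≤ A * (Φ t / t) := by
    intro t htt
    have ht1 : 0 < t := by linarith
    have h1 := mul_le_mul_of_nonneg_left (h t htt).2 ht1.le
    have e : t * (A * (Φ t / t ^ 2)) = A * (Φ t / t) := by field_simp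
    rw [e] at h1
    exact h1
  have hTh0 : ∀ t, 0 ≤ t → 0 ≤ Th G t := by
    intro t htt
    have h1 := hG.one_le htt
    unfold Th
    positivity
  obtain ⟨B, hB⟩ : ∃ B : ℝ, B = max 1 (Φ t0 / t0 + 1) := ⟨_, rfl⟩
  have hB1 : 1 ≤ B := by rw [hB]; exact le_max_left _ _
  have hB2 : Φ t0 / t0 + 1 ≤ B := by rw [hB]; exact le_max_right _ _
  obtain ⟨N', hN'⟩ : ∃ N' : ℝ, N' = max (max N t0) (A * B) := ⟨_, rfl⟩
  have hN1 : N ≤ N' := by rw [hN']; exact (le_max_left _ _).trans (le_max_left _ _)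
  have hN2 : t0 ≤ N' := by rw [hN']; exact (le_max_right _ _).trans (le_max_left _ _)
  have hN3 : A * B ≤ N' := by rw [hN']; exact le_max_right _ _
  have hbig : ∀ t, N' ≤ t → B ≤ Φ t / t := by
    intro t htt
    have h1 := hle2 t (hN2.trans htt)
    have h2 := hG.one_le (t := t) (by linarith)
    have h3 : t ≤ Th G t := by
      unfold Th
      nlinarith
    have h4 : A * B ≤ A * (Φ t / t) := by linarith
    exact le_of_mul_le_mul_left h4 hA0
  refine ⟨N', by linarith, ?_⟩
  intro v m hh X hv hch1 hch2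
  rcases Nat.eq_zero_or_pos m with rfl | hm
  · rw [Finset.range_zero, Finset.sum_empty]
    positivity
  -- `v ≥ t0`
  have hvt : t0 ≤ v := by
    obtain ⟨h1, h2, h3⟩ := hch1 0 hm
    have h4 := hbig _ h1
    have h5 := hbig _ h2
    have h6 : B ≤ Φ v / v := by
      refine le_trans ?_ h3
      nlinarith
    by_contra hcon
    rw [not_le] at hcon
    have h7 := hΦ.qorl.ratio hv hcon.le
    linarith
  have hA3 : 1 ≤ A ^ 3 := one_le_pow₀ hA
  have key : ∀ r < q, ∑ j ∈ Finset.range ((m + q - 1 - r) / q),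
      hh (r + q * j) * X (r + q * j) ≤ ε * v / q := by
    intro r hr
    have h1 := hcN (A ^ 3 * v) ((m + q - 1 - r) / q) (fun j => hh (r + q * j))
      (fun j => X (r + q * j)) (by positivity) ⟨?_, ?_⟩
    · refine h1.trans (le_of_eq ?_)
      field_simp
    · intro j hj
      obtain ⟨h2, h3, h4⟩ := hch1 _ ((rgb_lt hq hr).1 hj)
      have h5 : t0 ≤ hh (r + q * j) := hN2.trans h2
      have h6 : t0 ≤ X (r + q * j) := hN2.trans h3
      refine ⟨hN1.trans h2, hN1.trans h3, ?_⟩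
      have h7 := mul_le_mul (hle2 _ h5) (hle2 _ h6) (hTh0 _ (by linarith))
        (mul_nonneg hA0.le (hnn _ h5))
      have h9 := hG.Th_mul_ge hA3 hv.le
      have h10 : A * (Φ (hh (r + q * j)) / hh (r + q * j)) *
          (A * (Φ (X (r + q * j)) / X (r + q * j))) ≤ A ^ 2 * (Φ v / v) := by
        have e : A * (Φ (hh (r + q * j)) / hh (r + q * j)) *
            (A * (Φ (X (r + q * j)) / X (r + q * j))) =
            A ^ 2 * (Φ (hh (r + q * j)) / hh (r + q * j) *
              (Φ (X (r + q * j)) / X (r + q * j))) := by ring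
        rw [e]
        exact mul_le_mul_of_nonneg_left h4 (by positivity)
      have h11 : A ^ 2 * (Φ v / v) ≤ A ^ 3 * Th G v := by
        have e : A ^ 3 * Th G v = A ^ 2 * (A * Th G v) := by ring
        rw [e]
        exact mul_le_mul_of_nonneg_left (hle1 v hvt) (by positivity)
      exact h7.trans (h10.trans (h11.trans h9))
    · intro j hj
      have hj' : r + q * (j + 1) < m := (rgb_lt hq hr).1 hj
      have hj0 : r + q * j < m := by
        rw [mul_add] at hj'
        omega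
      have e1 : r + q * (j + 1) = r + q * j + q := by ring
      rw [e1] at hj'
      have h2 := rgb_pow (g := fun i => Φ (hh i) / hh i ^ 2) (fun i hi => (hch2 i hi).2)
        (r + q * j) q hj'
      have h3 : t0 ≤ hh (r + q * j) := hN2.trans (hch1 _ hj0).1
      have h4 : t0 ≤ hh (r + q * j + q) := hN2.trans (hch1 _ hj').1
      have h5 := hG.one_le (t := hh (r + q * j)) (by linarith)
      show 2 * G (hh (r + q * j)) ≤ G (hh (r + q * (j + 1)))
      rw [e1]
      have h6 := (h _ h3).2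
      have h7 := (h _ h4).1
      have h9 : 0 ≤ Φ (hh (r + q * j)) / hh (r + q * j) ^ 2 :=
        div_nonneg (hΦ.qorl.nonneg (by linarith)) (by positivity)
      have h8 : A * (2 * G (hh (r + q * j))) ≤ A * G (hh (r + q * j + q)) := by
        calc A * (2 * G (hh (r + q * j)))
            ≤ A * (2 * (A * (Φ (hh (r + q * j)) / hh (r + q * j) ^ 2))) := by gcongr
          _ = 2 * A ^ 2 * (Φ (hh (r + q * j)) / hh (r + q * j) ^ 2) := by ring
          _ ≤ 2 ^ q * (Φ (hh (r + q * j)) / hh (r + q * j) ^ 2) :=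
              mul_le_mul_of_nonneg_right hq2 h9
          _ ≤ Φ (hh (r + q * j + q)) / hh (r + q * j + q) ^ 2 := h2
          _ ≤ _ := h7
      exact le_of_mul_le_mul_left h8 hA0
  refine (rgb_split hq (fun i => hh i * X i) key).trans (le_of_eq ?_)
  field_simp

end

end Pool.Agent.OB9
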