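import Pool.Agent.OB9.B1P
import Pool.Agent.OB9.B2P
import Pool.Agent.OB9.PmF
import Pool.Agent.OB9.RgB
import Pool.Agent.OB9.DrC

/-!
# Module OB9/CaseA

`DInf Φ` when `Φ(t)/t²` is unbounded and `Φ` is not thin.

PROOF. Let `τ ≥ 1` with `Φ τ > 0` (and larger than the thresholds below); `g(t) = Φ(t)/t²`.
(i) `g → ∞`. If `TwoConvex` and `Doubling` hold then `ChainSmall` fails; `regular` gives `G`,
`ThinG G` fails (`chainSmall_of_thinG`), so `DInf (MG G)` (`DInf_of_not_thin`) and `DInf Φ`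
(`DInf_of_eqv`). If `TwoConvex` holds and `Doubling` fails: `cqA`, `supply1`. If `TwoConvex` fails: `g` is
bounded below by some `c > 0` on `[τ,∞)` (continuous, positive, tends to infinity), and the failure of
`TwoConvex` with `t0 = τ` is `hdrop`: `drA`, `drC`, `supply1`, `supply2`. (ii) `g` does not tend to
infinity: there is `B > 0` with `g(t) < B` for arbitrarily large `t`. If `g ≥ c > 0` on `[τ,∞)`:
`hdrop` for `C` (wlog `C > 0`): `s ≥ τ` with `g(s) > C B`, then `t ≥ s` with `g(t) < B`: `drA`. Otherwise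
for every `δ > 0` and `T` there is `t ≥ T` with `g(t) < δ` (`g` has a positive minimum on `[τ,T]`):
`drB`.
-/

set_option autoImplicit false

namespace Pool.Agent.OB9

open MeasureTheory Set Filter
open scoped ENNReal Topology

noncomputable section

variable {Φ : ℝ → ℝ}

theorem caseA (hΦ : Orl Φ) (hs : SuperLin Φ)
    (hu : ∀ C T : ℝ, ∃ s, T ≤ s ∧ C * s ^ 2 < Φ s) (hnt : ¬ Thin Φ) : DInf Φ := by
  have hq := hΦ.qorl
  obtain ⟨τ, hτ, hτ0⟩ : ∃ τ : ℝ, 1 ≤ τ ∧ 0 < Φ τ := by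
    obtain ⟨t, h1, h2⟩ := ((eventually_ge_atTop (1 : ℝ)).and
      (hq.tendsto.eventually_gt_atTop 0)).exists
    exact ⟨t, h1, h2⟩
  have hfin : ∀ {τ : ℝ}, 1 ≤ τ → 0 < Φ τ → DR Φ τ → DInf Φ := by
    intro τ hτ hτ0 h
    rcases drC hΦ hτ hτ0 h with h' | h'
    · exact supply2 hΦ hs hτ hτ0 h'
    · exact supply1 hΦ hs hτ hτ0 h'
  have hmin : ∀ T : ℝ, τ ≤ T → ∃ m : ℝ, 0 < m ∧ ∀ t, τ ≤ t → t ≤ T → m ≤ Φ t / t ^ 2 := by
    intro T hT
    have hc : ContinuousOn (fun t : ℝ => Φ t / t ^ 2) (Icc τ T) := by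
      apply ContinuousOn.div
      · exact hq.cont.mono (fun t ht => by
          have := ht.1
          show (0 : ℝ) ≤ t
          linarith)
      · exact (continuous_pow 2).continuousOn
      · intro t ht
        have := ht.1
        have : (0 : ℝ) < t := by linarith
        positivity
    obtain ⟨x, hx, hxm⟩ := isCompact_Icc.exists_isMinOn (Set.nonempty_Icc.2 hT) hc
    have hx1 := hx.1
    have hx0 : (0 : ℝ) < x := by linarith
    have hΦx : 0 < Φ x := hq.pos_of_ge (by linarith) hτ0 hx1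
    exact ⟨Φ x / x ^ 2, by positivity, fun t h1 h2 => hxm ⟨h1, h2⟩⟩
  have hg0 : ∀ t, τ ≤ t → 0 < Φ t / t ^ 2 := by
    intro t ht
    have h1 : (0 : ℝ) < t := by linarith
    have h2 : 0 < Φ t := hq.pos_of_ge (by linarith) hτ0 ht
    positivity
  by_cases hT : Tendsto (fun t => Φ t / t ^ 2) atTop atTop
  · by_cases hc : TwoConvex Φ
    · by_cases hd : Doubling Φ
      · have hnc : ¬ ChainSmall Φ := fun hch => hnt ⟨hT, hd, hc, hch⟩
        obtain ⟨κ, G, A, t0, hG, hA, ht0, hE, hcmp⟩ := regular hΦ hT hd hc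
        have hnG : ¬ ThinG G := fun h => hnc (chainSmall_of_thinG hΦ hG hA ht0 hcmp h)
        exact DInf_of_eqv hG.qorl hq hE.symm (DInf_of_not_thin hG hnG)
      · obtain ⟨C, t0, ht0, hC⟩ := hc
        have hτ' : 1 ≤ max τ t0 := hτ.trans (le_max_left _ _)
        have hτ0' : 0 < Φ (max τ t0) := hq.pos_of_ge (by linarith) hτ0 (le_max_left _ _)
        exact supply1 hΦ hs hτ' hτ0' (cqA hΦ hτ' hτ0'
          (fun s t h1 h2 => hC s t ((le_max_right _ _).trans h1) h2) hd)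
    · obtain ⟨T, hT1⟩ := (tendsto_atTop_atTop.1 hT) 1
      obtain ⟨m, hm, hmT⟩ := hmin (max τ T) (le_max_left _ _)
      have hlow : ∀ t, τ ≤ t → min m 1 ≤ Φ t / t ^ 2 := by
        intro t ht
        rcases le_total t (max τ T) with h1 | h1
        · exact (min_le_left _ _).trans (hmT t ht h1)
        · exact (min_le_right _ _).trans (hT1 t ((le_max_right _ _).trans h1))
      have hdrop : ∀ C : ℝ, ∃ s t, τ ≤ s ∧ s ≤ t ∧ C * (Φ t / t ^ 2) < Φ s / s ^ 2 := by
        intro C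
        by_contra hcon
        push Not at hcon
        exact hc ⟨C, τ, by linarith, fun s t h1 h2 => hcon s t h1 h2⟩
      exact hfin hτ hτ0 (drA hΦ hτ hτ0 (lt_min hm one_pos) hlow hdrop)
  · have hsup : ∀ C T : ℝ, ∃ t, T ≤ t ∧ C < Φ t / t ^ 2 := by
      intro C T
      obtain ⟨s, h1, h2⟩ := hu C (max T 1)
      have h3 : (1 : ℝ) ≤ s := (le_max_right _ _).trans h1
      refine ⟨s, (le_max_left _ _).trans h1, ?_⟩
      rw [lt_div_iff₀ (by positivity)]
      exact h2
    by_cases hlow : ∃ c : ℝ, 0 < c ∧ ∀ t, τ ≤ t → c ≤ Φ t / t ^ 2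
    · obtain ⟨c, hc, hlow⟩ := hlow
      rw [tendsto_atTop_atTop] at hT
      push Not at hT
      obtain ⟨B, hB⟩ := hT
      have hdrop : ∀ C : ℝ, ∃ s t, τ ≤ s ∧ s ≤ t ∧ C * (Φ t / t ^ 2) < Φ s / s ^ 2 := by
        intro C
        obtain ⟨s, h1, h2⟩ := hsup (max C 0 * B) τ
        obtain ⟨t, h3, h4⟩ := hB s
        refine ⟨s, t, h1, h3, lt_of_le_of_lt ?_ h2⟩
        have h5 := hg0 t (h1.trans h3)
        calc C * (Φ t / t ^ 2) ≤ max C 0 * (Φ t / t ^ 2) :=
              mul_le_mul_of_nonneg_right (le_max_left _ _) h5.le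
          _ ≤ max C 0 * B := mul_le_mul_of_nonneg_left h4.le (le_max_right _ _)
      exact hfin hτ hτ0 (drA hΦ hτ hτ0 hc hlow hdrop)
    · have hinf : ∀ δ T : ℝ, 0 < δ → ∃ t, T ≤ t ∧ Φ t / t ^ 2 < δ := by
        intro δ T hδ
        obtain ⟨m, hm, hmT⟩ := hmin (max τ T) (le_max_left _ _)
        by_contra hcon
        push Not at hcon
        apply hlow
        refine ⟨min m δ, lt_min hm hδ, ?_⟩
        intro t ht
        rcases le_total t (max τ T) with h1 | h1
        · exact (min_le_left _ _).trans (hmT t ht h1)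
        · exact (min_le_right _ _).trans (hcon t ((le_max_right _ _).trans h1))
      exact hfin hτ hτ0 (drB hΦ hτ hτ0 hinf hsup)

end

end Pool.Agent.OB9
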