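import Pool.Agent.OB9.MdB

/-!
# Module OB9/EqvInf

Equivalent functions.

PROOF. Let `C ≥ 1` be from `Eqv`. `md M₁ (x/C) ≤ md M₂ x + C` and conversely (`lam` is a probability
measure). Put `A = C (1 + C)`. If `md M₂ x ≤ 1` then `md M₁ (x/A) ≤ 1` (`md_div_le` with `1 + C`), and
conversely. Let `T`, `C'`, `c` be from `DInf M₁`. Upper bound: `md M₂ x ≤ 1` gives
`md M₁ (x/A) ≤ 1`, so `md M₁ (T x/(A C')) ≤ 1`, so `md M₂ (T x/(A² C')) ≤ 1`. Lower bound: for `e`, `f`
let `x` be from `DInf M₁`, `x' = x/A`: `md M₂ x' ≤ 1`; if `md M₂ (1_e T x'/c') ≤ 1` with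
`c' = c/A²`, then `md M₁ (1_e T x'/(A c')) ≤ 1`, i.e. `md M₁ (1_e T x/c) ≤ 1`, contradiction.
-/

set_option autoImplicit false

namespace Pool.Agent.OB9

open MeasureTheory Set Filter
open scoped ENNReal Topology

noncomputable section

variable {M₁ M₂ : ℝ → ℝ}

theorem Eqv.symm (h : Eqv M₁ M₂) : Eqv M₂ M₁ := by
  obtain ⟨C, hC, h⟩ := h
  exact ⟨C, hC, fun t ht => ⟨(h t ht).2, (h t ht).1⟩⟩

/-- One direction. -/
private theorem md_le_aux (h₂ : QOrl M₂) {C : ℝ} (hC : 1 ≤ C)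
    (h : ∀ t, 0 ≤ t → M₂ t ≤ M₁ (C * t) + C) (x : ℝ → ℝ) (hx : md M₁ x ≤ 1) :
    md M₂ (fun t => x t / (C * (1 + C))) ≤ 1 := by
  have hC0 : 0 < C := by linarith
  have h1 : md M₂ (fun t => x t / C) ≤ ENNReal.ofReal (1 + C) := by
    have h2 : md M₂ (fun t => x t / C) ≤
        ∫⁻ t, (ENNReal.ofReal (M₁ |x t|) + ENNReal.ofReal C) ∂lam := by
      unfold md
      refine lintegral_mono fun t => ?_
      have h3 := h |x t / C| (abs_nonneg _)
      have h4 : C * |x t / C| = |x t| := by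
        rw [abs_div, abs_of_pos hC0]
        field_simp
      rw [h4] at h3
      exact (ENNReal.ofReal_le_ofReal h3).trans ENNReal.ofReal_add_le
    rw [lintegral_add_right _ measurable_const, lintegral_const, measure_univ, mul_one] at h2
    refine h2.trans ?_
    rw [ENNReal.ofReal_add zero_le_one hC0.le, ENNReal.ofReal_one]
    exact add_le_add hx le_rfl
  have h5 := md_div_le h₂ (by linarith : (1 : ℝ) ≤ 1 + C) h1
  have h6 : (fun t => x t / C / (1 + C)) = fun t => x t / (C * (1 + C)) := by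
    funext t
    rw [div_div]
  rw [← h6]
  exact h5

theorem Eqv.md_le (h₁ : QOrl M₁) (h₂ : QOrl M₂) (h : Eqv M₁ M₂) :
    ∃ A : ℝ, 1 ≤ A ∧ (∀ x : ℝ → ℝ, AEMeasurable x lam → md M₁ x ≤ 1 →
      md M₂ (fun t => x t / A) ≤ 1) ∧
      ∀ x : ℝ → ℝ, AEMeasurable x lam → md M₂ x ≤ 1 → md M₁ (fun t => x t / A) ≤ 1 := by
  obtain ⟨C, hC, h⟩ := h
  refine ⟨C * (1 + C), by nlinarith, fun x _ hx => ?_, fun x _ hx => ?_⟩
  · exact md_le_aux h₂ hC (fun t ht => (h t ht).2) x hx
  · exact md_le_aux h₁ hC (fun t ht => (h t ht).1) x hx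

private theorem smul_ae (a : ℝ) (x : L2) :
    (fun t => (a • x : L2) t) =ᵐ[lam] fun t => a * x t := by
  filter_upwards [Lp.coeFn_smul a x] with t ht
  rw [ht, Pi.smul_apply, smul_eq_mul]

private theorem aem (x : L2) : AEMeasurable (fun t => x t) lam :=
  (Lp.aestronglyMeasurable x).aemeasurable

theorem DInf_of_eqv (h₁ : QOrl M₁) (h₂ : QOrl M₂) (h : Eqv M₁ M₂) (hD : DInf M₁) :
    DInf M₂ := by
  obtain ⟨A, hA, h12, h21⟩ := h.md_le h₁ h₂
  obtain ⟨T, C, c, hC, hc, hB, hL⟩ := hD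
  have hA0 : 0 < A := by linarith
  have hsm : ∀ x : L2, Bd x → Bd ((1 / A) • x : L2) := by
    rintro x ⟨R, hR⟩
    refine ⟨1 / A * R, ?_⟩
    filter_upwards [hR, smul_ae (1 / A) x] with t h1 h2
    rw [h2, abs_mul, abs_of_pos (by positivity : (0 : ℝ) < 1 / A)]
    exact mul_le_mul_of_nonneg_left h1 (by positivity)
  have hmd : ∀ (M : ℝ → ℝ) (x : L2),
      md M (fun t => ((1 / A) • x : L2) t) = md M (fun t => x t / A) := by
    intro M x
    refine md_congr ?_
    filter_upwards [smul_ae (1 / A) x] with t ht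
    rw [ht]
    ring
  have hT : ∀ x : L2, ∀ᵐ t ∂lam, T ((1 / A) • x) t = T x t / A := by
    intro x
    rw [map_smul]
    filter_upwards [smul_ae (1 / A) (T x)] with t ht
    rw [ht]
    ring
  refine ⟨T, A ^ 2 * C, c / A ^ 2, by positivity, by positivity, ?_, ?_⟩
  · intro x hx hm
    have e1 : md M₁ (fun t => ((1 / A) • x : L2) t) ≤ 1 := by
      rw [hmd]
      exact h21 _ (aem x) hm
    have e2 := hB _ (hsm x hx) e1
    have e3 := h12 _ ((aem (T ((1 / A) • x))).div_const C) e2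
    refine le_of_eq_of_le (md_congr ?_) e3
    filter_upwards [hT x] with t ht
    rw [ht]
    field_simp
  · intro e f he hf he0 hf0
    obtain ⟨x, hx, hs, hm, hl⟩ := hL e f he hf he0 hf0
    refine ⟨(1 / A) • x, hsm x hx, ?_, ?_, ?_⟩
    · filter_upwards [hs, smul_ae (1 / A) x] with t h3 h4 h5
      rw [h4, h3 h5, mul_zero]
    · have e4 := h12 _ (aem x) hm
      rw [← hmd] at e4
      exact e4
    · by_contra hcon
      rw [not_lt] at hcon
      have e5 := h21 _ (((aem (T ((1 / A) • x))).indicator he).div_const _) hcon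
      refine absurd (le_of_eq_of_le (md_congr ?_) e5) (not_le.mpr hl)
      filter_upwards [hT x] with t ht
      by_cases h6 : t ∈ e
      · simp only [indicator_of_mem h6]
        rw [ht]
        field_simp
      · simp only [indicator_of_notMem h6, zero_div]

end

end Pool.Agent.OB9
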