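import Pool.Agent.OB9.LtB
import Pool.Agent.OB9.EqvInf

/-!
# Module OB9/CaseB

The case `c t² ≤ Φ t ≤ C t²` for large `t`.

PROOF. Let `M(t) = t²` (a `QOrl` function); `Eqv M Φ` holds: for `t ≥ t0` the two bounds give
`Φ t ≤ C t² ≤ (C' t)²`, `t² ≤ Φ t/c ≤ Φ(C' t)` (`QOrl.super`), and for `t ≤ t0` use the additive
constant. `DInf M`: `T` of `l2_operator` satisfies `BddOn M T 1` (`md M x = ofReal ‖x‖²`) and
`LowOn M T (1/3)`: `md M (1_e T x/(1/3)) = 9 ∫_e (T x)² ≥ 9/4 > 1`. Then `DInf_of_eqv`.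
-/

set_option autoImplicit false

namespace Pool.Agent.OB9

open MeasureTheory Set Filter
open scoped ENNReal Topology

noncomputable section

variable {Φ : ℝ → ℝ}

private theorem cb_qorl : QOrl (fun t : ℝ => t ^ 2) := by
  refine ⟨?_, ?_, by norm_num, by fun_prop, ⟨1, by norm_num, by norm_num⟩⟩
  · intro a ha b hb hab
    exact pow_le_pow_left₀ (mem_Ici.1 ha) hab 2
  · intro c t h0 h1 ht
    show (c * t) ^ 2 ≤ c * t ^ 2
    have h2 : c ^ 2 ≤ c := by nlinarith
    have h3 : 0 ≤ t ^ 2 := sq_nonneg t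
    nlinarith [mul_le_mul_of_nonneg_right h2 h3]

private theorem cb_int (x : L2) : Integrable (fun t => x t ^ 2) lam := by
  have h := L2.integrable_inner (𝕜 := ℝ) x x
  refine h.congr ?_
  filter_upwards with t
  simp [sq]

private theorem cb_norm (x : L2) : ‖x‖ ^ 2 = ∫ t, x t ^ 2 ∂lam := by
  rw [← real_inner_self_eq_norm_sq, L2.inner_def]
  refine integral_congr_ae ?_
  filter_upwards with t
  simp [sq]

private theorem cb_md (x : L2) :
    md (fun t : ℝ => t ^ 2) x = ENNReal.ofReal (‖x‖ ^ 2) := by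
  rw [cb_norm, ofReal_integral_eq_lintegral_ofReal (cb_int x)
    (Filter.Eventually.of_forall fun t => sq_nonneg _)]
  unfold md
  refine lintegral_congr fun t => ?_
  simp only [sq_abs]

private theorem cb_dinf : DInf (fun t : ℝ => t ^ 2) := by
  obtain ⟨T, hT, hlow⟩ := l2_operator
  refine ⟨T, 1, 1 / 3, one_pos, by norm_num, ?_, ?_⟩
  · intro x _ hx
    have h1 : (fun t => T x t / 1) = fun t => T x t := by
      funext t
      rw [div_one]
    rw [h1]
    have h2 : md (fun t : ℝ => t ^ 2) (fun t => T x t) = ENNReal.ofReal (‖T x‖ ^ 2) := cb_md (T x)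
    rw [h2]
    rw [cb_md] at hx
    refine le_trans (ENNReal.ofReal_le_ofReal ?_) hx
    have h3 : ‖T x‖ ≤ ‖x‖ := by
      refine (T.le_opNorm x).trans ?_
      have := mul_le_mul_of_nonneg_right hT (norm_nonneg x)
      rwa [one_mul] at this
    exact pow_le_pow_left₀ (norm_nonneg _) h3 2
  · intro e f he hf he0 hf0
    obtain ⟨x, hx, hs, hn, hl⟩ := hlow e f he hf he0 hf0
    refine ⟨x, hx, hs, ?_, ?_⟩
    · rw [cb_md, ENNReal.ofReal_le_one]
      exact pow_le_one₀ (norm_nonneg _) hn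
    · have h1 : md (fun t : ℝ => t ^ 2) (fun t => e.indicator (fun s => T x s) t / (1 / 3)) =
          ∫⁻ t in e, ENNReal.ofReal (9 * T x t ^ 2) ∂lam := by
        rw [← lintegral_indicator he]
        unfold md
        refine lintegral_congr fun t => ?_
        by_cases ht : t ∈ e
        · simp only [indicator_of_mem ht]
          rw [sq_abs]
          congr 1
          ring
        · simp only [indicator_of_notMem ht]
          simp
      rw [h1, ← ofReal_integral_eq_lintegral_ofReal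
        (((cb_int (T x)).const_mul 9).integrableOn (s := e))
        (Filter.Eventually.of_forall fun t => by positivity)]
      rw [integral_const_mul]
      rw [← ENNReal.ofReal_one]
      rw [ENNReal.ofReal_lt_ofReal_iff (by linarith)]
      linarith

theorem caseB (hΦ : Orl Φ) {c C t0 : ℝ} (hc : 0 < c)
    (h1 : ∀ t, t0 ≤ t → c * t ^ 2 ≤ Φ t) (h2 : ∀ t, t0 ≤ t → Φ t ≤ C * t ^ 2) : DInf Φ := by
  have hq := hΦ.qorl
  refine DInf_of_eqv (M₁ := fun t : ℝ => t ^ 2) cb_qorl hq ?_ cb_dinf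
  set s0 : ℝ := max t0 0 with hs0
  have hs0' : 0 ≤ s0 := le_max_right _ _
  have ht0' : t0 ≤ s0 := le_max_left _ _
  have hΦ0 : 0 ≤ Φ s0 := hq.nonneg hs0'
  obtain ⟨K, hK1, hKc, hKC, hKs, hKΦ⟩ : ∃ K : ℝ, 1 ≤ K ∧ 1 / c ≤ K ∧ C ≤ K ∧ s0 ^ 2 ≤ K ∧
      Φ s0 ≤ K := by
    refine ⟨1 + 1 / c + |C| + s0 ^ 2 + Φ s0, ?_, ?_, ?_, ?_, ?_⟩
    all_goals
      have a1 : 0 < 1 / c := by positivity
      have a2 : 0 ≤ |C| := abs_nonneg C
      have a3 : 0 ≤ s0 ^ 2 := sq_nonneg _
      have a4 : C ≤ |C| := le_abs_self C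
      linarith
  have hK0 : 0 < K := by linarith
  refine ⟨K, hK1, fun t ht => ?_⟩
  have hKt : 0 ≤ K * t := by positivity
  show t ^ 2 ≤ Φ (K * t) + K ∧ Φ t ≤ (K * t) ^ 2 + K
  rcases le_total s0 t with hst | hst
  · have b1 := h1 t (ht0'.trans hst)
    have b2 := h2 t (ht0'.trans hst)
    have b3 := hq.super hK1 ht
    constructor
    · have b4 : t ^ 2 ≤ K * Φ t := by
        have e1 : t ^ 2 = 1 / c * (c * t ^ 2) := by field_simp
        rw [e1]
        refine (mul_le_mul_of_nonneg_left b1 (by positivity)).trans ?_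
        exact mul_le_mul_of_nonneg_right hKc (hq.nonneg ht)
      linarith
    · have b5 : C * t ^ 2 ≤ K * t ^ 2 := mul_le_mul_of_nonneg_right hKC (sq_nonneg t)
      have b6 : K * t ^ 2 ≤ (K * t) ^ 2 := by
        have e2 : (K * t) ^ 2 = K * (K * t ^ 2) := by ring
        rw [e2]
        have b7 : t ^ 2 ≤ K * t ^ 2 := by nlinarith [sq_nonneg t]
        exact mul_le_mul_of_nonneg_left b7 hK0.le
      linarith
  · constructor
    · have c1 : t ^ 2 ≤ s0 ^ 2 := pow_le_pow_left₀ ht hst 2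
      have c2 := hq.nonneg hKt
      linarith
    · have c3 : Φ t ≤ Φ s0 := hq.mono (mem_Ici.2 ht) (mem_Ici.2 hs0') hst
      have c4 : 0 ≤ (K * t) ^ 2 := sq_nonneg _
      linarith

end

end Pool.Agent.OB9
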