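import Pool.Agent.OB9.OrlB

/-!
# Module OB9/ConjB

The conjugate function. `Φ` is an Orlicz function with `Φ t / t → ∞`.

PROOF. For `s ≥ 0` choose `T` with `Φ t ≥ s t` for `t ≥ T` (`SuperLin`); so the supremum is over
`[0,T]` (values `≤ 0` beyond, value `0` at `0`), it is bounded above and attained by continuity
(`Orl.qorl` gives `ContinuousOn Φ (Ici 0)`; `IsCompact.exists_isMaxOn`). `young`: `le_csSup`.
`conj_sub` (for given `t ≥ 0` there is `s ≥ 0` with `conj Φ s = s t - Φ t`): for `t = 0` take `s = 0`;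
for `t > 0` let `s` be the supremum of the slopes `(Φ t - Φ u)/(t - u)`, `0 ≤ u < t` (bounded above by
every slope to the right, by convexity `ConvexOn.slope_mono_adjacent`); then
`Φ u ≥ Φ t + s (u - t)` for all `u ≥ 0`, i.e. `s u - Φ u ≤ s t - Φ t`. `conj_orl`: convexity and
monotonicity as a supremum of affine nondecreasing functions of `s` (on `s ≥ 0`); `conj Φ 0 = 0` as
`Φ ≥ 0`; not identically `0` as `conj Φ s ≥ s - Φ 1`. `conj_superLin`: `conj Φ s ≥ s t - Φ t` for each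
fixed `t`. `conj_conj`: `≤` is Young (`s t - conj Φ s ≤ Φ t`), `≥` is `conj_sub`.
-/

set_option autoImplicit false

namespace Pool.Agent.OB9

open MeasureTheory Set Filter
open scoped ENNReal Topology

noncomputable section

variable {Φ : ℝ → ℝ}

private theorem att (hΦ : Orl Φ) (hs : SuperLin Φ) {s : ℝ} (h0 : 0 ≤ s) :
    ∃ t, 0 ≤ t ∧ ∀ u, 0 ≤ u → s * u - Φ u ≤ s * t - Φ t := by
  have h1 : ∀ᶠ t in atTop, s ≤ Φ t / t := hs.eventually_ge_atTop s
  obtain ⟨T, hT⟩ := eventually_atTop.1 (h1.and (eventually_ge_atTop (1 : ℝ)))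
  set R : ℝ := max T 1 with hR
  have hR1 : 1 ≤ R := le_max_right _ _
  have hbig : ∀ u, R ≤ u → s * u - Φ u ≤ 0 := by
    intro u hu
    have h2 := (hT u ((le_max_left _ _).trans hu)).1
    have hu0 : 0 < u := by linarith
    rw [le_div_iff₀ hu0] at h2
    linarith
  have hcont : ContinuousOn (fun u => s * u - Φ u) (Icc 0 R) := by
    refine (continuousOn_const.mul continuousOn_id).sub ?_
    exact hΦ.qorl.cont.mono fun u hu => hu.1
  obtain ⟨t, ht, hmax⟩ := isCompact_Icc.exists_isMaxOn ⟨0, le_refl _, by linarith⟩ hcont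
  refine ⟨t, ht.1, fun u hu => ?_⟩
  rcases le_total u R with h2 | h2
  · exact hmax ⟨hu, h2⟩
  · have h3 : s * 0 - Φ 0 ≤ s * t - Φ t := hmax (show (0 : ℝ) ∈ Icc 0 R from ⟨le_refl _, by linarith⟩)
    rw [hΦ.zero] at h3
    linarith [hbig u h2]

private theorem conj_eq (s t : ℝ) (ht : 0 ≤ t) (h : ∀ u, 0 ≤ u → s * u - Φ u ≤ s * t - Φ t) :
    conj Φ s = s * t - Φ t := by
  have h1 : IsGreatest {r : ℝ | ∃ t, 0 ≤ t ∧ r = s * t - Φ t} (s * t - Φ t) := by
    refine ⟨⟨t, ht, rfl⟩, ?_⟩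
    rintro r ⟨u, hu, rfl⟩
    exact h u hu
  exact h1.csSup_eq

theorem young (hΦ : Orl Φ) (hs : SuperLin Φ) {s t : ℝ} (h0 : 0 ≤ s) (ht : 0 ≤ t) :
    s * t ≤ Φ t + conj Φ s := by
  obtain ⟨u, hu, h⟩ := att hΦ hs h0
  rw [conj_eq s u hu h]
  have := h t ht
  linarith

theorem conj_attained (hΦ : Orl Φ) (hs : SuperLin Φ) {s : ℝ} (h0 : 0 ≤ s) :
    ∃ t, 0 ≤ t ∧ conj Φ s = s * t - Φ t := by
  obtain ⟨u, hu, h⟩ := att hΦ hs h0
  exact ⟨u, hu, conj_eq s u hu h⟩

theorem conj_sub (hΦ : Orl Φ) (hs : SuperLin Φ) {t : ℝ} (h0 : 0 ≤ t) :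
    ∃ s, 0 ≤ s ∧ conj Φ s = s * t - Φ t := by
  rcases h0.eq_or_lt with rfl | ht
  · refine ⟨0, le_refl _, conj_eq 0 0 (le_refl _) fun u hu => ?_⟩
    rw [hΦ.zero]
    have := hΦ.qorl.nonneg hu
    linarith
  · set S : Set ℝ := {m | ∃ u, 0 ≤ u ∧ u < t ∧ m = (Φ t - Φ u) / (t - u)} with hS
    have hub : ∀ w, t < w → ∀ m ∈ S, m ≤ (Φ w - Φ t) / (w - t) := by
      rintro w hw m ⟨u, hu, hut, rfl⟩
      exact hΦ.conv.slope_mono_adjacent hu (ht.le.trans hw.le) hut hw
    have hne : S.Nonempty := ⟨_, 0, le_refl _, ht, rfl⟩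
    have hbdd : BddAbove S := ⟨_, fun m hm => hub (t + 1) (by linarith) m hm⟩
    have h1 : ∀ u, 0 ≤ u → u < t → Φ t - Φ u ≤ sSup S * (t - u) := by
      intro u hu hut
      have h2 := le_csSup hbdd (show (Φ t - Φ u) / (t - u) ∈ S from ⟨u, hu, hut, rfl⟩)
      rwa [div_le_iff₀ (by linarith)] at h2
    have h2 : ∀ u, t < u → sSup S * (u - t) ≤ Φ u - Φ t := by
      intro u hut
      have h3 := csSup_le hne (hub u hut)
      rwa [le_div_iff₀ (by linarith)] at h3
    have h3 : 0 ≤ sSup S := by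
      have h4 := le_csSup hbdd (show (Φ t - Φ 0) / (t - 0) ∈ S from ⟨0, le_refl _, ht, rfl⟩)
      refine le_trans ?_ h4
      rw [hΦ.zero]
      have := hΦ.qorl.nonneg ht.le
      positivity
    refine ⟨sSup S, h3, conj_eq _ t ht.le fun u hu => ?_⟩
    rcases lt_trichotomy u t with h4 | rfl | h4
    · have := h1 u hu h4
      linarith
    · exact le_refl _
    · have := h2 u h4
      linarith

theorem conj_le (hΦ : Orl Φ) (hs : SuperLin Φ) {s c : ℝ} (h0 : 0 ≤ s)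
    (h : ∀ t, 0 ≤ t → s * t - Φ t ≤ c) : conj Φ s ≤ c := by
  obtain ⟨t, ht, h1⟩ := conj_attained hΦ hs h0
  rw [h1]
  exact h t ht

theorem conj_orl (hΦ : Orl Φ) (hs : SuperLin Φ) : Orl (conj Φ) := by
  refine ⟨⟨convex_Ici 0, ?_⟩, ?_, ?_, ?_⟩
  · intro s1 h1 s2 h2 a b ha hb hab
    have h1' : 0 ≤ s1 := h1
    have h2' : 0 ≤ s2 := h2
    have h3 : 0 ≤ a • s1 + b • s2 := by
      simp only [smul_eq_mul]
      positivity
    obtain ⟨t, ht, h4⟩ := conj_attained hΦ hs h3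
    rw [h4]
    have h5 := young hΦ hs h1' ht
    have h6 := young hΦ hs h2' ht
    simp only [smul_eq_mul]
    have h7 : Φ t = (a + b) * Φ t := by rw [hab, one_mul]
    have h8 : (a * s1 + b * s2) * t - Φ t = a * (s1 * t - Φ t) + b * (s2 * t - Φ t) := by
      have : a = 1 - b := by linarith
      subst this
      ring
    rw [h8]
    have h9 : a * (s1 * t - Φ t) ≤ a * conj Φ s1 := mul_le_mul_of_nonneg_left (by linarith) ha
    have h10 : b * (s2 * t - Φ t) ≤ b * conj Φ s2 := mul_le_mul_of_nonneg_left (by linarith) hb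
    linarith
  · intro s1 h1 s2 h2 h12
    have h1' : 0 ≤ s1 := h1
    have h2' : 0 ≤ s2 := h2
    obtain ⟨t, ht, h4⟩ := conj_attained hΦ hs h1'
    rw [h4]
    have h6 := young hΦ hs h2' ht
    have h7 : s1 * t ≤ s2 * t := mul_le_mul_of_nonneg_right h12 ht
    linarith
  · have h1 := conj_eq (Φ := Φ) 0 0 (le_refl _) fun u hu => by
      rw [hΦ.zero]
      have := hΦ.qorl.nonneg hu
      linarith
    rw [h1, hΦ.zero]
    ring
  · have h1 : 0 ≤ Φ 1 := hΦ.qorl.nonneg zero_le_one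
    refine ⟨Φ 1 + 1, by linarith, ?_⟩
    have h2 := young hΦ hs (s := Φ 1 + 1) (t := 1) (by linarith) zero_le_one
    intro h3
    rw [h3] at h2
    linarith

theorem conj_superLin (hΦ : Orl Φ) (hs : SuperLin Φ) : SuperLin (conj Φ) := by
  unfold SuperLin
  rw [tendsto_atTop]
  intro K
  set K' : ℝ := max K 0 + 1 with hK'
  have hK0 : 0 ≤ K' := by
    have := le_max_right K 0
    linarith
  filter_upwards [eventually_ge_atTop (1 : ℝ), eventually_ge_atTop (Φ K')] with s h1 h2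
  have hs0 : 0 < s := by linarith
  rw [le_div_iff₀ hs0]
  have h3 := young hΦ hs hs0.le hK0
  have h4 : K * s ≤ max K 0 * s := mul_le_mul_of_nonneg_right (le_max_left _ _) hs0.le
  have h5 : s * K' = max K 0 * s + s := by
    rw [hK']
    ring
  linarith

theorem conj_conj (hΦ : Orl Φ) (hs : SuperLin Φ) {t : ℝ} (ht : 0 ≤ t) :
    conj (conj Φ) t = Φ t := by
  apply le_antisymm
  · obtain ⟨s, hs0, h1⟩ := conj_attained (conj_orl hΦ hs) (conj_superLin hΦ hs) ht
    rw [h1]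
    have := young hΦ hs hs0 ht
    linarith
  · obtain ⟨s, hs0, h1⟩ := conj_sub hΦ hs ht
    have := young (conj_orl hΦ hs) (conj_superLin hΦ hs) ht hs0
    rw [h1] at this
    linarith

end

end Pool.Agent.OB9
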