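import Pool.Agent.OB9.Defs

/-!
# OB9/Core: internal definitions used by the proof
-/

set_option autoImplicit false

namespace Pool.Agent.OB9

open MeasureTheory Set Filter
open scoped ENNReal

noncomputable section

instance : IsProbabilityMeasure lam := ⟨by simp [lam]⟩

/-- Functions with `M t / t` nondecreasing (and continuous): all we need from an Orlicz function
in many places. -/
structure QOrl (M : ℝ → ℝ) : Prop where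
  mono : MonotoneOn M (Ici 0)
  sub : ∀ c t : ℝ, 0 ≤ c → c ≤ 1 → 0 ≤ t → M (c * t) ≤ c * M t
  zero : M 0 = 0
  cont : ContinuousOn M (Ici 0)
  nontriv : ∃ t, 0 ≤ t ∧ M t ≠ 0

/-- `Φ t / t → ∞`. -/
def SuperLin (Φ : ℝ → ℝ) : Prop := Tendsto (fun t => Φ t / t) atTop atTop

/-- `Φ` and `Ψ` are equivalent at infinity. -/
def Eqv (M₁ M₂ : ℝ → ℝ) : Prop :=
  ∃ C : ℝ, 1 ≤ C ∧ ∀ t, 0 ≤ t → M₁ t ≤ M₂ (C * t) + C ∧ M₂ t ≤ M₁ (C * t) + C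

abbrev L2 : Type := Lp ℝ 2 lam

/-- Essentially bounded elements of `L²`. -/
def Bd (x : L2) : Prop := ∃ R : ℝ, ∀ᵐ t ∂lam, |x t| ≤ R

/-- `T` (an operator of `L²`) is bounded for the norm of `L^M`, on bounded functions. -/
def BddOn (M : ℝ → ℝ) (T : L2 →L[ℝ] L2) (C : ℝ) : Prop :=
  ∀ x : L2, Bd x → md M x ≤ 1 → md M (fun t => T x t / C) ≤ 1

/-- All blocks of `T` are bounded below, with bounded test functions. -/
def LowOn (M : ℝ → ℝ) (T : L2 →L[ℝ] L2) (c : ℝ) : Prop :=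
  ∀ e f : Set ℝ, MeasurableSet e → MeasurableSet f → lam e ≠ 0 → lam f ≠ 0 →
    ∃ x : L2, Bd x ∧ (∀ᵐ t ∂lam, t ∉ f → x t = 0) ∧ md M x ≤ 1 ∧
      1 < md M (fun t => e.indicator (fun s => T x s) t / c)

/-- The version of `𝒟(L^M) ≠ ∅` with operators of `L²` and bounded test functions. -/
def DInf (M : ℝ → ℝ) : Prop :=
  ∃ (T : L2 →L[ℝ] L2) (C c : ℝ), 0 < C ∧ 0 < c ∧ BddOn M T C ∧ LowOn M T c

/-- The bounded functions, as a subspace of `L²`. -/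
def Linf : Submodule ℝ L2 where
  carrier := {x | Bd x}
  add_mem' := by
    rintro x y ⟨R, hR⟩ ⟨S, hS⟩
    refine ⟨R + S, ?_⟩
    filter_upwards [hR, hS, Lp.coeFn_add x y] with t h1 h2 h3
    rw [h3]
    exact (abs_add_le _ _).trans (add_le_add h1 h2)
  zero_mem' := by
    refine ⟨0, ?_⟩
    filter_upwards [Lp.coeFn_zero ℝ 2 lam] with t ht
    simp [ht]
  smul_mem' := by
    rintro a x ⟨R, hR⟩
    refine ⟨|a| * R, ?_⟩
    filter_upwards [hR, Lp.coeFn_smul a x] with t h1 h2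
    rw [h2]
    simp only [Pi.smul_apply, smul_eq_mul, abs_mul]
    exact mul_le_mul_of_nonneg_left h1 (abs_nonneg a)

/-- Every bounded operator has arbitrarily small blocks (on bounded functions). -/
def Triv (M : ℝ → ℝ) : Prop :=
  ∀ (T : Linf →ₗ[ℝ] L2) (K : ℝ),
    (∀ x : Linf, md M (x : L2) ≤ 1 → md M (T x) ≤ ENNReal.ofReal K) →
    ∀ c : ℝ, 0 < c → ∃ e f : Set ℝ, MeasurableSet e ∧ MeasurableSet f ∧ lam e ≠ 0 ∧ lam f ≠ 0 ∧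
      ∀ x : Linf, (∀ᵐ t ∂lam, t ∉ f → (x : L2) t = 0) → md M (x : L2) ≤ 1 →
        md M (fun t => e.indicator (fun s => T x s) t / c) ≤ 1

/-! ### Dyadic notation -/

/-- The index of the dyadic interval of level `n` containing `t ≥ 0`. -/
def idx (n : ℕ) (t : ℝ) : ℕ := ⌊(2 : ℝ) ^ n * t⌋₊

/-- The dyadic interval `[k/2^n, (k+1)/2^n)`. -/
def cell (n k : ℕ) : Set ℝ := Ico ((k : ℝ) / 2 ^ n) (((k : ℝ) + 1) / 2 ^ n)

/-- Rademacher functions: the sign of the `p`-th binary digit. -/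
def rad (p : ℕ) (t : ℝ) : ℝ := if idx p t % 2 = 0 then 1 else -1

/-- Walsh signs: the parity of the number of common binary digits. -/
def wal : ℕ → ℕ → ℕ → ℝ
  | 0, _, _ => 1
  | n + 1, u, s => (if u % 2 = 1 ∧ s % 2 = 1 then -1 else 1) * wal n (u / 2) (s / 2)

/-- Address: the `a` binary digits after the first `l` digits of `i < 2^b` (`l + a ≤ b`). -/
def adr (l a b i : ℕ) : ℕ := i / 2 ^ (b - l - a) % 2 ^ a

/-- The remaining `b - a` digits of `i`: the first `l` and the last `b - l - a`. -/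
def wix (l a b i : ℕ) : ℕ := i / 2 ^ (b - l) * 2 ^ (b - l - a) + i % 2 ^ (b - l - a)

/-- The functions of the type I systems: a Walsh function on a dyadic interval of level `a`, times
the Rademacher function `rad p`. -/
def es (l a b p i : ℕ) (t : ℝ) : ℝ :=
  (if idx a t = adr l a b i then 1 else 0) * wal (b - a) (wix l a b i) (idx b t % 2 ^ (b - a)) *
    rad p t

/-- `f` is dense at all levels `≥ l` around the points of a set of measure `≥ ρ`, and `e` is very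
dense in some interval of level `l`. -/
def Good (η : ℝ) (l : ℕ) (e f : Set ℝ) : Prop :=
  ∃ ρ : ℝ, 0 < ρ ∧
    ENNReal.ofReal ρ ≤ lam {t | t ∈ Ico (0 : ℝ) 1 ∧
      ∀ n, l ≤ n → lam (cell n (idx n t) \ f) ≤ ENNReal.ofReal (η / 2 ^ n)} ∧
    ∃ j, j < 2 ^ l ∧ lam (cell l j \ e) ≤ ENNReal.ofReal (ρ / 16 / 2 ^ l)

/-- The average of `x` over the dyadic interval of level `n` around `t`. -/
def av (n : ℕ) (x : ℝ → ℝ) (t : ℝ) : ℝ := 2 ^ n * ∫ s in cell n (idx n t), x s ∂lam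

/-- The normalized coefficient of `x` with respect to `e`. -/
def cf (e : ℝ → ℝ) (δ : ℝ) (x : ℝ → ℝ) : ℝ := (∫ t, x t * e t ∂lam) / δ

/-- Type I operator: source intervals of level `a` with Walsh functions, target intervals of
level `b`. -/
def TI (l a b : ℕ) (T : L2 →L[ℝ] L2) : Prop :=
  ∀ x : L2, ∀ᵐ t ∂lam, T x t = cf (es l a b (b + 1) (idx b t)) (1 / 2 ^ a) x

/-- Type II operator: source intervals of level `a`, Rademacher functions on target intervals of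
level `b ≤ a`. -/
def TII (l b a : ℕ) (r : ℝ) (T : L2 →L[ℝ] L2) : Prop :=
  ∀ x : L2, ∀ᵐ t ∂lam, T x t = r * ∑ i ∈ Finset.range (2 ^ a),
    if adr l b a i = idx b t then
      (2 ^ a * ∫ s in cell a i, x s ∂lam) * rad (b + 1 + wix l b a i) t else 0

/-- Multi-level type I operator with weights. -/
def TM (l b p K : ℕ) (α : ℕ → ℕ) (h σ : ℕ → ℝ) (v : ℝ) (T : L2 →L[ℝ] L2) : Prop :=
  ∀ x : L2, ∀ᵐ t ∂lam, T x t = v * ∑ k ∈ Finset.range K,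
    σ k / h k * cf (es l (α k) b (p + k) (idx b t)) (1 / 2 ^ (α k)) x

/-! ### Nice functions -/

/-- `G` is nondecreasing, `1` on `[0,1]`, tends to infinity and grows at most like `t^κ`. -/
structure Nice (κ : ℕ) (G : ℝ → ℝ) : Prop where
  mono : MonotoneOn G (Ici 0)
  one : ∀ t, 0 ≤ t → t ≤ 1 → G t = 1
  grow : ∀ c t : ℝ, 1 ≤ c → 0 ≤ t → G (c * t) ≤ c ^ κ * G t
  tends : Tendsto G atTop atTop

/-- `M(t) = t² G(t)`. -/
def MG (G : ℝ → ℝ) (t : ℝ) : ℝ := t ^ 2 * G t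

/-- `Θ(t) = t G(t)`. -/
def Th (G : ℝ → ℝ) (t : ℝ) : ℝ := t * G t

/-- The data of a chain at `v`, with all levels at least `N`. -/
def Chain (G : ℝ → ℝ) (N v : ℝ) (m : ℕ) (h X : ℕ → ℝ) : Prop :=
  (∀ i < m, N ≤ h i ∧ N ≤ X i ∧ Th G (h i) * Th G (X i) ≤ Th G v) ∧
    ∀ i, i + 1 < m → 2 * G (h i) ≤ G (h (i + 1))

/-- The value of chains: all the values `∑ h_i X_i / v`. -/
def chainVals (G : ℝ → ℝ) (N v : ℝ) : Set ℝ :=
  {r | ∃ (m : ℕ) (h X : ℕ → ℝ), Chain G N v m h X ∧ r = (∑ i ∈ Finset.range m, h i * X i) / v}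

/-- The supremum of the values of chains. -/
def SN (G : ℝ → ℝ) (N v : ℝ) : ℝ := sSup (chainVals G N v)

/-- The chain condition for `G`. -/
def ThinG (G : ℝ → ℝ) : Prop :=
  ∀ ε : ℝ, 0 < ε → ∃ N : ℝ, 1 ≤ N ∧ ∀ (v : ℝ) (m : ℕ) (h X : ℕ → ℝ), 0 < v →
    Chain G N v m h X → ∑ i ∈ Finset.range m, h i * X i ≤ ε * v

/-- A profile: the data of a multi-level generation. -/
structure Prof (κ : ℕ) (G : ℝ → ℝ) (CJ N : ℝ) (K : ℕ) (h σ : ℕ → ℝ) (v : ℝ) : Prop where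
  Kpos : 0 < K
  hN : ∀ k < K, N ≤ h k ∧ 1 ≤ h k
  vN : N ≤ v
  σpos : ∀ k < K, 0 < σ k
  σsum : ∑ k ∈ Finset.range K, σ k = 1
  geo : ∀ k, k + 1 < K → 2 * h k ^ κ ≤ h (k + 1) ^ κ ∧ 2 * Th G (h k) ≤ Th G (h (k + 1))
  nest : ∀ k, k + 1 < K → 2 * (MG G (h k) / σ k) ≤ MG G (h (k + 1)) / σ (k + 1)
  cap : ∀ k < K, N * MG G (h k) ≤ σ k * MG G v
  l2 : N * ∑ k ∈ Finset.range K, σ k * G (h k) ≤ G v
  J1 : ∀ b : ℕ → ℝ, (∀ k < K, 0 ≤ b k) → ∑ k ∈ Finset.range K, σ k * b k ≤ 1 →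
    MG G (v * ∑ k ∈ Finset.range K, σ k * b k) ≤
      CJ * MG G v * ∑ k ∈ Finset.range K, σ k * (MG G (h k * b k) / MG G (h k))

/-- A sequence of generations: growth conditions for the gluing theorem. -/
structure Gen (M : ℝ → ℝ) (c₀ : ℝ) (T : ℕ → (L2 →L[ℝ] L2)) (Λ u H v : ℕ → ℝ) : Prop where
  L0 : 2 ≤ Λ 0
  Lstep : ∀ g, 2 * (Λ g + u g) ≤ Λ (g + 1)
  u0 : ∀ g, 0 ≤ u g
  H0 : ∀ g, 0 ≤ H g
  norm : ∀ g, ‖T g‖ ≤ 1 / Λ g ^ 2
  sup : ∀ g (x : L2), Bd x → md M x ≤ 1 → ∀ᵐ t ∂lam, |T g x t| ≤ u g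
  small : ∀ g (x : L2), Bd x → md M x ≤ 1 →
    md M (fun t => if |T g x t| ≤ Λ g then Λ g * T g x t else 0) ≤ ENNReal.ofReal (1 / Λ g)
  vbig : ∀ g, 8 * Λ g ≤ c₀ * v g
  Hsm : ∀ g, 64 * H g * (M (v g) + 1) ≤ c₀ * v g * Λ (g + 1)

/-- A test function for the block `(e, f)` at one generation. -/
def Test (M : ℝ → ℝ) (c₀ : ℝ) (T : L2 →L[ℝ] L2) (H v : ℝ) (e f : Set ℝ) : Prop :=
  ∃ x : L2, (∀ᵐ t ∂lam, |x t| ≤ H) ∧ (∀ᵐ t ∂lam, t ∉ f → x t = 0) ∧ md M x ≤ 1 ∧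
    ∃ E : Set ℝ, MeasurableSet E ∧ E ⊆ e ∧ ENNReal.ofReal (1 / (16 * M v)) ≤ lam E ∧
      ∀ᵐ t ∂lam, t ∈ E → c₀ * v ≤ |T x t|

/-- A generation for the case where heights are separated. -/
structure PkgB (M : ℝ → ℝ) (C₀ Λ : ℝ) (l : ℕ) (T : L2 →L[ℝ] L2) (u H v Λ' : ℝ) : Prop where
  lbig : Λ ≤ l
  u0 : 0 ≤ u
  H0 : 0 ≤ H
  norm : ‖T‖ ≤ 1 / Λ ^ 2
  sup : ∀ x : L2, Bd x → md M x ≤ 1 → ∀ᵐ t ∂lam, |T x t| ≤ u
  small : ∀ x : L2, Bd x → md M x ≤ 1 →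
    md M (fun t => if |T x t| ≤ Λ then Λ * T x t else 0) ≤ ENNReal.ofReal (1 / Λ)
  mid : ∀ x : L2, Bd x → md M x ≤ 1 →
    md M (fun t => T x t / C₀) ≤ ENNReal.ofReal C₀ * md M x + ENNReal.ofReal (1 / Λ)
  low : ∀ x : L2, (∀ᵐ t ∂lam, |x t| ≤ Λ) → md M (T x) ≤ ENNReal.ofReal (1 / Λ)
  high : ∀ x : L2, Bd x → md M x ≤ 1 → (∀ᵐ t ∂lam, x t = 0 ∨ Λ' ≤ |x t|) →
    md M (T x) ≤ ENNReal.ofReal (1 / Λ)
  vbig : 32 * Λ ≤ v
  test : ∀ e f : Set ℝ, MeasurableSet e → MeasurableSet f → Good (1 / 4) l e f →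
    Good (1 / 4) l f e → Test M (1 / 4) T H v e f

/-- Data for type I generations with the pair `(h, 2h)`. -/
def D1 (Φ : ℝ → ℝ) (τ N h : ℝ) : Prop :=
  N ≤ h ∧ τ ≤ h ∧ N * Φ h ≤ Φ (2 * h) ∧
    (∀ t, τ ≤ t → t ≤ h → Φ (2 * t) * Φ h ≤ 2 * Φ (2 * h) * Φ t) ∧
    ∀ s t, τ ≤ s → s ≤ t → t ≤ h → N * (Φ s / s ^ 2) * Φ h ≤ Φ (2 * h) * (Φ t / t ^ 2)

/-- Data for type II generations: a record drop of `Φ(t)/t²` from `v` to `h > v`. -/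
def D2 (Φ : ℝ → ℝ) (τ N v h R : ℝ) : Prop :=
  N ≤ v ∧ τ ≤ v ∧ v < h ∧ N ≤ R ∧ Φ v / v ^ 2 = R * (Φ h / h ^ 2) ∧
    (∀ s t, τ ≤ s → s ≤ t → t ≤ h → Φ s / s ^ 2 ≤ 2 * R * (Φ t / t ^ 2)) ∧
    (∀ t, τ ≤ t → t ≤ h → Φ (2 * t) ≤ R ^ 2 * Φ t) ∧
    ∀ t, τ ≤ t → t ≤ h → N ≤ R * (Φ t / t ^ 2)

end

end Pool.Agent.OB9
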