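import Mathlib

/-!
# OB9/Defs: operator blocks in Orlicz spaces (MP_7f9a53_an), the definitions of the statement

`lam` is Lebesgue measure on `[0,1]`, `md Φ x = ∫ Φ(|x|)`, `LPhi Φ` the Orlicz space (as a set of
classes of measurable functions), `Nm Φ` the Luxemburg norm, `Q e` multiplication by the indicator
of `e`, `BddOp Φ T`: `T` is a bounded linear operator of `LPhi Φ`, `blockNorm` is `‖Q_e T Q_f‖`,
`sigma Φ T` the infimum over all `e`, `f` of positive measure, and `DNonempty Φ` says that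
`𝒟(L^Φ) ≠ ∅`.
-/

set_option autoImplicit false

namespace Pool.Agent.OB9

open MeasureTheory Set Filter
open scoped ENNReal

noncomputable section

/-- Lebesgue measure on `[0,1]`. -/
def lam : Measure ℝ := volume.restrict (Icc 0 1)

/-- Orlicz functions: finite-valued, convex and nondecreasing on `[0,∞)`, `Φ 0 = 0`, not
identically zero. -/
structure Orl (Φ : ℝ → ℝ) : Prop where
  conv : ConvexOn ℝ (Ici 0) Φ
  mono : MonotoneOn Φ (Ici 0)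
  zero : Φ 0 = 0
  nontriv : ∃ t, 0 ≤ t ∧ Φ t ≠ 0

/-- The modular `∫ Φ(|x|)` over `[0,1]`. -/
def md (Φ : ℝ → ℝ) (x : ℝ → ℝ) : ℝ≥0∞ := ∫⁻ t, ENNReal.ofReal (Φ |x t|) ∂lam

/-- Measurable functions on `[0,1]` modulo null sets. -/
abbrev F0 : Type := ℝ →ₘ[lam] ℝ

/-- The Orlicz space `L^Φ`. -/
def LPhi (Φ : ℝ → ℝ) : Set F0 := {x | ∃ r : ℝ, 0 < r ∧ md Φ (fun t => x t / r) < ⊤}

/-- The Luxemburg norm. -/
def Nm (Φ : ℝ → ℝ) (x : F0) : ℝ := sInf {r : ℝ | 0 < r ∧ md Φ (fun t => x t / r) ≤ 1}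

/-- Multiplication by the indicator function of `e`. -/
def Q (e : Set ℝ) (he : MeasurableSet e) (x : F0) : F0 :=
  AEEqFun.mk (e.indicator (x : ℝ → ℝ)) (x.aestronglyMeasurable.indicator he)

/-- `T` is a bounded linear operator of `L^Φ` into itself. -/
structure BddOp (Φ : ℝ → ℝ) (T : F0 → F0) : Prop where
  maps : ∀ x ∈ LPhi Φ, T x ∈ LPhi Φ
  add : ∀ x ∈ LPhi Φ, ∀ y ∈ LPhi Φ, T (x + y) = T x + T y
  smul : ∀ a : ℝ, ∀ x ∈ LPhi Φ, T (a • x) = a • T x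
  bdd : ∃ K : ℝ, ∀ x ∈ LPhi Φ, Nm Φ (T x) ≤ K * Nm Φ x

/-- The operator norm of `Q_e T Q_f` on `L^Φ`. -/
def blockNorm (Φ : ℝ → ℝ) (T : F0 → F0) (e f : Set ℝ) (he : MeasurableSet e)
    (hf : MeasurableSet f) : ℝ :=
  sInf {C : ℝ | 0 ≤ C ∧ ∀ x ∈ LPhi Φ, Nm Φ (Q e he (T (Q f hf x))) ≤ C * Nm Φ x}

/-- `σ(T, L^Φ)`. -/
def sigma (Φ : ℝ → ℝ) (T : F0 → F0) : ℝ :=
  sInf {r : ℝ | ∃ (e f : Set ℝ) (he : MeasurableSet e) (hf : MeasurableSet f),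
    0 < lam e * lam f ∧ r = blockNorm Φ T e f he hf}

/-- `𝒟(L^Φ) ≠ ∅`. -/
def DNonempty (Φ : ℝ → ℝ) : Prop := ∃ T : F0 → F0, BddOp Φ T ∧ 0 < sigma Φ T

/-- The conjugate function `Φ*(s) = sup_{t ≥ 0} (s t - Φ t)`. -/
def conj (Φ : ℝ → ℝ) (s : ℝ) : ℝ := sSup {r : ℝ | ∃ t, 0 ≤ t ∧ r = s * t - Φ t}

/-- The doubling condition for large `t`. -/
def Doubling (Φ : ℝ → ℝ) : Prop := ∃ C t0 : ℝ, 0 < t0 ∧ ∀ t, t0 ≤ t → Φ (2 * t) ≤ C * Φ t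

/-- `Φ(t)/t²` is increasing for large `t` up to a constant factor. -/
def TwoConvex (Φ : ℝ → ℝ) : Prop :=
  ∃ C t0 : ℝ, 0 < t0 ∧ ∀ s t, t0 ≤ s → s ≤ t → Φ s / s ^ 2 ≤ C * (Φ t / t ^ 2)

/-- The chain condition. -/
def ChainSmall (Φ : ℝ → ℝ) : Prop :=
  ∀ ε : ℝ, 0 < ε → ∃ N : ℝ, 0 < N ∧ ∀ (v : ℝ) (m : ℕ) (h X : ℕ → ℝ), 0 < v →
    (∀ i < m, N ≤ h i ∧ N ≤ X i ∧ Φ (h i) / h i * (Φ (X i) / X i) ≤ Φ v / v) →
    (∀ i, i + 1 < m → h i < h (i + 1) ∧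
      2 * (Φ (h i) / h i ^ 2) ≤ Φ (h (i + 1)) / h (i + 1) ^ 2) →
    ∑ i ∈ Finset.range m, h i * X i ≤ ε * v

/-- The condition under which every operator of `L^Φ` has small blocks. -/
structure Thin (Φ : ℝ → ℝ) : Prop where
  superquad : Tendsto (fun t => Φ t / t ^ 2) atTop atTop
  doubling : Doubling Φ
  twoconvex : TwoConvex Φ
  chain : ChainSmall Φ

end

end Pool.Agent.OB9
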