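import Pool.Agent.OB9.OrlB

/-!
# Module OB9/DrA

Record drops of `g(t) = Φ(t)/t²`. `DR` is `D2` without the doubling property.

PROOF. `g` is continuous and positive on `[τ,∞)`. `drA`: given `N` let `A` be the maximum of `g` on
`[τ, max N τ]` and `B > max(1, N, N/c, A/c)`. By hypothesis there are `τ ≤ s ≤ t` with `g(s) > B g(t)`.
Let `(v, h)` maximize `g(s')/g(t')` on the compact set `τ ≤ s' ≤ t' ≤ t`; `R = g(v)/g(h) > B`. For
`τ ≤ s' ≤ t' ≤ h` we get `g(s') ≤ R g(t')`. `v < h` as `R > 1`; `R g(t') ≥ R c ≥ N`; `g(v) = R g(h) ≥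
B c > A`, so `v > N`. `drB`: given `N` let `A` be as before, `t₁ ≥ τ` with `g(t₁) > max A N`, and
`0 < δ < min(min_{[τ,t₁]} g, 1)`. Let `h` be the first `t ≥ τ` with `g(t) ≤ δ` (infimum of a closed
nonempty set); `g(h) = δ`, `g ≥ δ` on `[τ,h]`, `h > t₁`. Let `v` be a maximum point of `g` on `[τ,h]`,
`g(v) ≥ g(t₁) > max A N`, so `v > N`, `v < h`; `R = g(v)/δ ≥ N`. Then `g(s) ≤ g(v) = R δ ≤ R g(t)` and
`R g(t) ≥ R δ = g(v) ≥ N`.
-/

set_option autoImplicit false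

namespace Pool.Agent.OB9

open MeasureTheory Set Filter
open scoped ENNReal Topology

noncomputable section

variable {Φ : ℝ → ℝ}

/-- Near-record drops of `Φ(t)/t²`. -/
def DR (Φ : ℝ → ℝ) (τ : ℝ) : Prop :=
  ∀ N : ℝ, ∃ v h R : ℝ, N ≤ v ∧ τ ≤ v ∧ v < h ∧ N ≤ R ∧ Φ v / v ^ 2 = R * (Φ h / h ^ 2) ∧
    (∀ s t, τ ≤ s → s ≤ t → t ≤ h → Φ s / s ^ 2 ≤ 2 * R * (Φ t / t ^ 2)) ∧
    ∀ t, τ ≤ t → t ≤ h → N ≤ R * (Φ t / t ^ 2)

lemma drA_pos (hΦ : Orl Φ) {τ : ℝ} (hτ : 1 ≤ τ) (hτ0 : 0 < Φ τ) {t : ℝ} (ht : τ ≤ t) :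
    0 < Φ t / t ^ 2 := by
  have h1 : 0 < Φ t := hΦ.qorl.pos_of_ge (by linarith) hτ0 ht
  have h2 : 0 < t := by linarith
  positivity

lemma drA_cont (hΦ : Orl Φ) {τ : ℝ} (hτ : 1 ≤ τ) :
    ContinuousOn (fun t => Φ t / t ^ 2) (Ici τ) := by
  refine ContinuousOn.div (hΦ.qorl.cont.mono (Ici_subset_Ici.2 (by linarith)))
    (by fun_prop) ?_
  intro t ht
  have h2 : 0 < t := by linarith [mem_Ici.1 ht]
  positivity

/-- An upper bound of `g` on `[τ, max N τ]`. -/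
lemma drA_bound (hΦ : Orl Φ) {τ : ℝ} (hτ : 1 ≤ τ) (N : ℝ) :
    ∃ A : ℝ, ∀ t, τ ≤ t → t ≤ max N τ → Φ t / t ^ 2 ≤ A := by
  have hc : IsCompact (Icc τ (max N τ)) := isCompact_Icc
  obtain ⟨A, hA⟩ := hc.bddAbove_image ((drA_cont hΦ hτ).mono Icc_subset_Ici_self)
  refine ⟨A, fun t h1 h2 => hA ⟨t, ⟨h1, h2⟩, rfl⟩⟩

theorem drA (hΦ : Orl Φ) {τ : ℝ} (hτ : 1 ≤ τ) (hτ0 : 0 < Φ τ) {c : ℝ} (hc : 0 < c)
    (hlow : ∀ t, τ ≤ t → c ≤ Φ t / t ^ 2)
    (hdrop : ∀ C : ℝ, ∃ s t, τ ≤ s ∧ s ≤ t ∧ C * (Φ t / t ^ 2) < Φ s / s ^ 2) : DR Φ τ := by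
  intro N
  set g : ℝ → ℝ := fun t => Φ t / t ^ 2 with hg
  have gpos : ∀ t, τ ≤ t → 0 < g t := fun t ht => drA_pos hΦ hτ hτ0 ht
  have gcont : ContinuousOn g (Ici τ) := drA_cont hΦ hτ
  obtain ⟨A, hA⟩ := drA_bound hΦ hτ N
  set B : ℝ := max (max 1 N) (max (N / c) (A / c)) + 1 with hB
  have hB1 : 1 < B := by
    have h1 : (1 : ℝ) ≤ max (max 1 N) (max (N / c) (A / c)) :=
      le_trans (le_max_left _ _) (le_max_left _ _)
    linarith
  have hBN : N < B := by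
    have h1 : N ≤ max (max 1 N) (max (N / c) (A / c)) :=
      le_trans (le_max_right _ _) (le_max_left _ _)
    linarith
  have hBNc : N < B * c := by
    have h1 : N / c ≤ max (max 1 N) (max (N / c) (A / c)) :=
      le_trans (le_max_left _ _) (le_max_right _ _)
    have h2 : N / c < B := by linarith
    rwa [div_lt_iff₀ hc] at h2
  have hBAc : A < B * c := by
    have h1 : A / c ≤ max (max 1 N) (max (N / c) (A / c)) :=
      le_trans (le_max_right _ _) (le_max_right _ _)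
    have h2 : A / c < B := by linarith
    rwa [div_lt_iff₀ hc] at h2
  obtain ⟨s, t, hs, hst, hd⟩ := hdrop B
  -- the compact set
  set K : Set (ℝ × ℝ) := {p | τ ≤ p.1 ∧ p.1 ≤ p.2 ∧ p.2 ≤ t} with hK
  have hKc : IsCompact K := by
    refine IsCompact.of_isClosed_subset (isCompact_Icc.prod isCompact_Icc :
      IsCompact (Icc τ t ×ˢ Icc τ t)) ?_ ?_
    · exact (isClosed_le continuous_const continuous_fst).inter
        ((isClosed_le continuous_fst continuous_snd).inter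
          (isClosed_le continuous_snd continuous_const))
    · rintro ⟨x, y⟩ ⟨h1, h2, h3⟩
      exact ⟨⟨h1, le_trans h2 h3⟩, ⟨le_trans h1 h2, h3⟩⟩
  have hKne : K.Nonempty := ⟨(s, t), hs, hst, le_rfl⟩
  have hF : ContinuousOn (fun p : ℝ × ℝ => g p.1 / g p.2) K := by
    refine ContinuousOn.div (gcont.comp continuous_fst.continuousOn ?_)
      (gcont.comp continuous_snd.continuousOn ?_) ?_
    · rintro ⟨x, y⟩ ⟨h1, h2, h3⟩
      exact h1
    · rintro ⟨x, y⟩ ⟨h1, h2, h3⟩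
      exact le_trans h1 h2
    · rintro ⟨x, y⟩ ⟨h1, h2, h3⟩
      exact (gpos y (le_trans h1 h2)).ne'
  obtain ⟨⟨v, h⟩, ⟨hv1, hv2, hv3⟩, hmax⟩ := hKc.exists_isMaxOn hKne hF
  simp only at hv1 hv2 hv3
  have hmax' : ∀ x y, τ ≤ x → x ≤ y → y ≤ t → g x / g y ≤ g v / g h := fun x y h1 h2 h3 =>
    hmax (show ((x, y) : ℝ × ℝ) ∈ K from ⟨h1, h2, h3⟩)
  have gh := gpos h (le_trans hv1 hv2)
  set R : ℝ := g v / g h with hR
  have hRB : B < R := by
    have h1 := hmax' s t hs hst le_rfl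
    have h2 : B < g s / g t := by
      rw [lt_div_iff₀ (gpos t (le_trans hs hst))]
      exact hd
    linarith
  have hvR : g v = R * g h := by rw [hR]; field_simp
  have hR0 : 0 < R := by linarith
  have hRc : ∀ y, τ ≤ y → B * c ≤ R * g y := fun y hy =>
    mul_le_mul hRB.le (hlow y hy) hc.le hR0.le
  refine ⟨v, h, R, ?_, hv1, ?_, by linarith, hvR, ?_, ?_⟩
  · by_contra hcon
    have h1 : g v ≤ A := hA v hv1 (le_trans (not_le.1 hcon).le (le_max_left _ _))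
    have h2 := hRc h (le_trans hv1 hv2)
    rw [← hvR] at h2
    linarith
  · rcases hv2.lt_or_eq with h1 | h1
    · exact h1
    · exfalso
      have h2 : R = 1 := by rw [hR, h1]; exact div_self gh.ne'
      linarith
  · intro x y h1 h2 h3
    have h4 := hmax' x y h1 h2 (le_trans h3 hv3)
    have h5 := gpos y (le_trans h1 h2)
    rw [div_le_iff₀ h5] at h4
    have h6 : 0 < R * g y := mul_pos hR0 h5
    show g x ≤ 2 * R * g y
    linarith
  · intro y h1 h2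
    have h3 := hRc y h1
    show N ≤ R * g y
    linarith

theorem drB (hΦ : Orl Φ) {τ : ℝ} (hτ : 1 ≤ τ) (hτ0 : 0 < Φ τ)
    (hinf : ∀ δ T : ℝ, 0 < δ → ∃ t, T ≤ t ∧ Φ t / t ^ 2 < δ)
    (hsup : ∀ C T : ℝ, ∃ t, T ≤ t ∧ C < Φ t / t ^ 2) : DR Φ τ := by
  intro N
  set g : ℝ → ℝ := fun t => Φ t / t ^ 2 with hg
  have gpos : ∀ t, τ ≤ t → 0 < g t := fun t ht => drA_pos hΦ hτ hτ0 ht
  have gcont : ContinuousOn g (Ici τ) := drA_cont hΦ hτ
  obtain ⟨A, hA⟩ := drA_bound hΦ hτ N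
  obtain ⟨t₁, ht₁, hgt₁⟩ := hsup (max A N) τ
  have hgt₁' : max A N < g t₁ := hgt₁
  obtain ⟨m0, hm0, hmin⟩ := (isCompact_Icc : IsCompact (Icc τ t₁)).exists_isMinOn
    ⟨τ, le_rfl, ht₁⟩ (gcont.mono Icc_subset_Ici_self)
  have hm : 0 < g m0 := gpos m0 hm0.1
  set δ : ℝ := min (g m0) 1 / 2 with hδ
  have hδ0 : 0 < δ := by
    have h1 : 0 < min (g m0) 1 := lt_min hm one_pos
    linarith
  have hδm : δ < g m0 := by
    have h1 : min (g m0) 1 ≤ g m0 := min_le_left _ _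
    linarith
  have hδ1 : δ < 1 := by
    have h1 : min (g m0) 1 ≤ 1 := min_le_right _ _
    linarith
  obtain ⟨t₂, ht₂, hgt₂⟩ := hinf δ t₁ hδ0
  have hSc : IsCompact {t | t ∈ Icc τ t₂ ∧ g t ≤ δ} := by
    have h1 : {t | t ∈ Icc τ t₂ ∧ g t ≤ δ} = Icc τ t₂ ∩ g ⁻¹' (Iic δ) := rfl
    rw [h1]
    exact IsCompact.of_isClosed_subset isCompact_Icc
      (ContinuousOn.preimage_isClosed_of_isClosed (gcont.mono Icc_subset_Ici_self) isClosed_Icc
        isClosed_Iic) inter_subset_left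
  obtain ⟨h, ⟨⟨hh1, hh2⟩, hh3⟩, hleast⟩ := hSc.exists_isLeast
    ⟨t₂, ⟨le_trans ht₁ ht₂, le_rfl⟩, hgt₂.le⟩
  have hbefore : ∀ y, τ ≤ y → y ≤ h → g h ≤ g y := by
    intro y h1 h2
    rcases h2.lt_or_eq with h3 | h3
    · by_contra hcon
      have h4 : g y ≤ δ := le_trans (not_le.1 hcon).le hh3
      have h5 := hleast (show y ∈ {t | t ∈ Icc τ t₂ ∧ g t ≤ δ} from
        ⟨⟨h1, le_trans h2 hh2⟩, h4⟩)
      linarith
    · rw [h3]
  have ht₁h : t₁ < h := by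
    by_contra hcon
    have h1 := hmin (show h ∈ Icc τ t₁ from ⟨hh1, not_lt.1 hcon⟩)
    have h2 : g m0 ≤ g h := h1
    linarith
  obtain ⟨v, ⟨hv1, hv2⟩, hvmax⟩ := (isCompact_Icc : IsCompact (Icc τ h)).exists_isMaxOn
    ⟨τ, le_rfl, hh1⟩ (gcont.mono Icc_subset_Ici_self)
  have hgv : max A N < g v := lt_of_lt_of_le hgt₁' (hvmax ⟨ht₁, ht₁h.le⟩)
  have hgvA : A < g v := lt_of_le_of_lt (le_max_left _ _) hgv
  have hgvN : N < g v := lt_of_le_of_lt (le_max_right _ _) hgv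
  have gh := gpos h hh1
  have gv := gpos v hv1
  set R : ℝ := g v / g h with hR
  have hvR : g v = R * g h := by rw [hR]; field_simp
  have hR0 : 0 < R := div_pos gv gh
  have hRv : g v ≤ R := by
    rw [hR, le_div_iff₀ gh]
    have h1 : g h ≤ 1 := by linarith
    nlinarith
  refine ⟨v, h, R, ?_, hv1, ?_, by linarith, hvR, ?_, ?_⟩
  · by_contra hcon
    have h1 : g v ≤ A := hA v hv1 (le_trans (not_le.1 hcon).le (le_max_left _ _))
    linarith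
  · rcases hv2.lt_or_eq with h1 | h1
    · exact h1
    · exfalso
      have h2 : g t₁ ≤ g v := hvmax ⟨ht₁, ht₁h.le⟩
      have h3 : g m0 ≤ g t₁ := hmin ⟨ht₁, le_rfl⟩
      rw [h1] at h2
      linarith
  · intro x y h1 h2 h3
    have h4 : g x ≤ g v := hvmax ⟨h1, le_trans h2 h3⟩
    have h5 : R * g h ≤ R * g y :=
      mul_le_mul_of_nonneg_left (hbefore y (le_trans h1 h2) h3) hR0.le
    have h6 : 0 < R * g y := mul_pos hR0 (gpos y (le_trans h1 h2))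
    show g x ≤ 2 * R * g y
    linarith
  · intro y h1 h2
    have h5 : R * g h ≤ R * g y := mul_le_mul_of_nonneg_left (hbefore y h1 h2) hR0.le
    show N ≤ R * g y
    linarith

end

end Pool.Agent.OB9
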