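import Pool.Agent.OB9.ConjB

/-!
# Module OB9/DualP

Transfer of growth conditions between `Φ` and `conj Φ`.

PROOF. `dual_quad`: if `conj Φ s ≥ s²` for `s ≥ s0` (`s0 ≥ 1`), then
`Φ t = sup_s (s t - conj Φ s)` (`conj_conj`, `conj_attained` for `conj Φ`): for `s ≤ s0` the value is
`≤ s0 t`, for `s ≥ s0` it is `≤ s t - s² ≤ t²/4`. So `Φ t ≤ s0 t + t² ≤ C (1 + t²)`.
`dual_doubling`: let `conj Φ s/s² ≤ C conj Φ s'/s'²` for `t0 ≤ s ≤ s'` (`C ≥ 1`). Take `λ = 2C`:
`conj Φ (λ s) ≥ (λ²/C) conj Φ s = 2 λ conj Φ s` for `s ≥ t0`. So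
`Φ(2t) = sup_s (2 t λ s - conj Φ (λ s))`, where for `s ≥ t0` the value is
`≤ 2 λ (t s - conj Φ s) ≤ 2 λ Φ t`, and for `s ≤ t0` it is `≤ 2 t λ t0`, which is `≤ 2 λ t0 t ≤ C' Φ t`
for large `t` as `Φ` is superlinear. `dual_unbdd`: given `C`, `T` put `δ = 1/(8(|C|+1))`; since `Φ`
is superlinear choose `T1` with `Φ t ≥ (T + 1) t` for `t ≥ T1`, and by hypothesis there is
`t ≥ max T1 1` with `Φ t ≤ δ t²`. Put `s = 2 δ t`: `conj Φ s ≥ s t - Φ t ≥ δ t² = s²/(4 δ) > C s²`, and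
`s ≥ δ t ≥ Φ t/t ≥ T + 1`.
-/

set_option autoImplicit false

namespace Pool.Agent.OB9

open MeasureTheory Set Filter
open scoped ENNReal Topology

noncomputable section

variable {Φ : ℝ → ℝ}

private theorem dualP_conj_nonneg (hΦ : Orl Φ) (hs : SuperLin Φ) {s : ℝ} (h0 : 0 ≤ s) :
    0 ≤ conj Φ s := by
  have h := young hΦ hs h0 (le_refl (0 : ℝ))
  rw [mul_zero, hΦ.zero, zero_add] at h
  exact h

theorem dual_quad (hΦ : Orl Φ) (hs : SuperLin Φ)
    (h : Tendsto (fun t => conj Φ t / t ^ 2) atTop atTop) :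
    ∃ C : ℝ, 0 < C ∧ ∀ t, 0 ≤ t → Φ t ≤ C * (1 + t ^ 2) := by
  obtain ⟨s1, hs1⟩ := eventually_atTop.1 (h.eventually_ge_atTop 1)
  have hs0 : ∀ s, max s1 1 ≤ s → s ^ 2 ≤ conj Φ s := by
    intro s hs'
    have h1 := hs1 s ((le_max_left _ _).trans hs')
    have h2 : 0 < s := lt_of_lt_of_le one_pos ((le_max_right _ _).trans hs')
    rw [le_div_iff₀ (by positivity), one_mul] at h1
    exact h1
  set s0 : ℝ := max s1 1 with hs0d
  have h10 : 1 ≤ s0 := le_max_right _ _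
  refine ⟨s0 + 1, by linarith, fun t ht => ?_⟩
  obtain ⟨s, hs', e⟩ := conj_sub hΦ hs ht
  have h0 := dualP_conj_nonneg hΦ hs hs'
  rcases le_total s s0 with h1 | h1
  · have h2 : s * t ≤ s0 * t := mul_le_mul_of_nonneg_right h1 ht
    nlinarith [sq_nonneg (t - 1)]
  · have h2 := hs0 s h1
    nlinarith [sq_nonneg (s - t / 2), sq_nonneg t]

theorem dual_doubling (hΦ : Orl Φ) (hs : SuperLin Φ) (h : TwoConvex (conj Φ)) :
    Doubling Φ := by
  obtain ⟨C0, t0, ht0, h⟩ := h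
  set C : ℝ := max C0 1 with hC
  have hC1 : 1 ≤ C := le_max_right _ _
  have h' : ∀ s t, t0 ≤ s → s ≤ t → conj Φ s / s ^ 2 ≤ C * (conj Φ t / t ^ 2) := by
    intro s t hs' hst
    refine (h s t hs' hst).trans ?_
    apply mul_le_mul_of_nonneg_right (le_max_left _ _)
    exact div_nonneg (dualP_conj_nonneg hΦ hs (by linarith)) (by positivity)
  obtain ⟨t1, ht1⟩ := eventually_atTop.1 (hs.eventually_ge_atTop 1)
  refine ⟨4 * C * (1 + t0), max t1 1, by positivity, fun t ht => ?_⟩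
  have htp : 0 < t := lt_of_lt_of_le one_pos ((le_max_right _ _).trans ht)
  have hΦt : t ≤ Φ t := by
    have h1 := ht1 t ((le_max_left _ _).trans ht)
    rw [le_div_iff₀ htp, one_mul] at h1
    exact h1
  obtain ⟨s, hs', e⟩ := conj_sub hΦ hs (show 0 ≤ 2 * t by linarith)
  have h0 := dualP_conj_nonneg hΦ hs hs'
  by_cases h1 : t0 ≤ s / (2 * C)
  · set r : ℝ := s / (2 * C) with hr
    have hrs : s = 2 * C * r := by
      rw [hr]
      field_simp
    have hr0 : 0 < r := lt_of_lt_of_le ht0 h1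
    have h2 := h' r s h1 (by rw [hrs]; nlinarith)
    have h3 : 4 * C * conj Φ r ≤ conj Φ s := by
      rw [div_le_iff₀ (by positivity)] at h2
      have e1 : ∀ A : ℝ, C * (A / s ^ 2) * r ^ 2 = A / (4 * C) := by
        intro A
        rw [hrs]
        field_simp
        ring
      rw [e1, le_div_iff₀ (by positivity)] at h2
      linarith
    have h4 := young hΦ hs hr0.le htp.le
    have h5 : Φ (2 * t) ≤ 4 * C * Φ t := by
      have e2 : Φ (2 * t) = s * (2 * t) - conj Φ s := by linarith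
      rw [e2]
      have e3 : s * (2 * t) = 4 * C * (r * t) := by rw [hrs]; ring
      rw [e3]
      have h6 : 4 * C * (r * t) ≤ 4 * C * (Φ t + conj Φ r) :=
        mul_le_mul_of_nonneg_left h4 (by positivity)
      linarith
    refine h5.trans ?_
    have h6 : 0 ≤ 4 * C * t0 * Φ t := by
      have : 0 ≤ Φ t := by linarith
      positivity
    linarith
  · rw [not_le, div_lt_iff₀ (by positivity)] at h1
    have e2 : Φ (2 * t) = s * (2 * t) - conj Φ s := by linarith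
    have h2 : s * (2 * t) ≤ t0 * (2 * C) * (2 * t) := mul_le_mul_of_nonneg_right h1.le (by linarith)
    have h3 : 4 * C * t0 * t ≤ 4 * C * t0 * Φ t := mul_le_mul_of_nonneg_left hΦt (by positivity)
    have h4 : 0 ≤ 4 * C * Φ t := by
      have : 0 ≤ Φ t := by linarith
      positivity
    rw [e2]
    linarith

theorem dual_unbdd (hΦ : Orl Φ) (hs : SuperLin Φ)
    (h : ∀ δ T : ℝ, 0 < δ → ∃ t, T ≤ t ∧ Φ t ≤ δ * t ^ 2) :
    ∀ C T : ℝ, ∃ s, T ≤ s ∧ C * s ^ 2 < conj Φ s := by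
  intro C T
  have hc : 0 < |C| + 1 := by positivity
  set δ : ℝ := 1 / (8 * (|C| + 1)) with hδ
  have hδ0 : 0 < δ := by positivity
  have hδc : δ * (8 * (|C| + 1)) = 1 := by
    rw [hδ]
    field_simp
  obtain ⟨T1, hT1⟩ := eventually_atTop.1 (hs.eventually_ge_atTop (T + 1))
  obtain ⟨t, ht, hΦt⟩ := h δ (max T1 1) hδ0
  have htp : 0 < t := lt_of_lt_of_le one_pos ((le_max_right _ _).trans ht)
  have h1 := hT1 t ((le_max_left _ _).trans ht)
  rw [le_div_iff₀ htp] at h1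
  have h2 : (T + 1) * t ≤ δ * t * t := by
    have : δ * t ^ 2 = δ * t * t := by ring
    rw [← this]
    exact h1.trans hΦt
  have h3 : T + 1 ≤ δ * t := le_of_mul_le_mul_right h2 htp
  have hst : 0 < δ * t := by positivity
  refine ⟨2 * δ * t, by linarith, ?_⟩
  have h4 := young hΦ hs (show 0 ≤ 2 * δ * t by positivity) htp.le
  have h5 : δ * t ^ 2 ≤ conj Φ (2 * δ * t) := by
    have : 2 * δ * t * t = 2 * (δ * t ^ 2) := by ring
    rw [this] at h4
    linarith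
  refine lt_of_lt_of_le ?_ h5
  have e1 : δ * t ^ 2 = 8 * (|C| + 1) * (δ * t) ^ 2 := by
    calc δ * t ^ 2 = δ * t ^ 2 * 1 := (mul_one _).symm
      _ = δ * t ^ 2 * (δ * (8 * (|C| + 1))) := by rw [hδc]
      _ = 8 * (|C| + 1) * (δ * t) ^ 2 := by ring
  have e2 : C * (2 * δ * t) ^ 2 = 4 * C * (δ * t) ^ 2 := by ring
  rw [e1, e2]
  apply mul_lt_mul_of_pos_right _ (by positivity)
  have := le_abs_self C
  have := abs_nonneg C
  linarith

end

end Pool.Agent.OB9
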