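import Pool.Agent.OB9.Core

/-!
# Module OB9/DyA

Dyadic intervals.

PROOF. `lam_eq`: `Ico_ae_eq_Icc`, `Measure.restrict_congr_set`. `measurable_idx`:
`Nat.measurable_floor.comp`. `mem_cell`: `Nat.floor_eq_iff`. `idx_div`: `Nat.floor_div_natCast` (with
`2^(n+m) t = 2^m (2^n t)`). `lam_cell`: for `k < 2^n` the cell is contained in `[0,1)`.
`integral_idx`, `lintegral_idx`, `integral_mul_idx`: `[0,1)` is the disjoint union of the cells
`k < 2^n`, and `idx n` is `k` on `cell n k` (`integral_finset_biUnion` or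
`a (idx n t) = ∑_k a k 1_{cell n k}(t)` for `t ∈ [0,1)`, then integrate the finite sum).
-/

set_option autoImplicit false

namespace Pool.Agent.OB9

open MeasureTheory Set Filter
open scoped ENNReal Topology

noncomputable section

theorem lam_eq : lam = volume.restrict (Ico 0 1) := by
  unfold lam
  exact (Measure.restrict_congr_set Ico_ae_eq_Icc).symm

theorem ae_mem_Ico : ∀ᵐ t ∂lam, t ∈ Ico (0 : ℝ) 1 := by
  rw [lam_eq]
  exact ae_restrict_mem measurableSet_Ico

theorem measurable_idx (n : ℕ) : Measurable (idx n) := by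
  unfold idx
  exact Nat.measurable_floor.comp (measurable_const.mul measurable_id)

theorem mem_cell {n k : ℕ} {t : ℝ} (ht : 0 ≤ t) : t ∈ cell n k ↔ idx n t = k := by
  unfold cell idx
  have h2 : (0 : ℝ) < 2 ^ n := by positivity
  rw [Nat.floor_eq_iff (by positivity), mem_Ico, div_le_iff₀ h2, lt_div_iff₀ h2, mul_comm t]

theorem idx_lt {n : ℕ} {t : ℝ} (h0 : 0 ≤ t) (h1 : t < 1) : idx n t < 2 ^ n := by
  unfold idx
  have h2 : (0 : ℝ) < 2 ^ n := by positivity
  rw [Nat.floor_lt (by positivity)]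
  push_cast
  nlinarith

theorem idx_div (n m : ℕ) {t : ℝ} (ht : 0 ≤ t) : idx (n + m) t / 2 ^ m = idx n t := by
  unfold idx
  rw [← Nat.floor_div_natCast]
  congr 1
  push_cast
  rw [pow_add]
  field_simp

theorem cell_subset {n k : ℕ} (hk : k < 2 ^ n) : cell n k ⊆ Ico 0 1 := by
  intro t ht
  unfold cell at ht
  have h2 : (0 : ℝ) < 2 ^ n := by positivity
  have h3 : ((k : ℝ) + 1) ≤ 2 ^ n := by exact_mod_cast hk
  refine ⟨le_trans (by positivity) ht.1, lt_of_lt_of_le ht.2 ?_⟩
  rw [div_le_one h2]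
  exact h3

theorem measurableSet_cell (n k : ℕ) : MeasurableSet (cell n k) := measurableSet_Ico

theorem lam_cell {n k : ℕ} (hk : k < 2 ^ n) : lam (cell n k) = ENNReal.ofReal (1 / 2 ^ n) := by
  rw [lam_eq, Measure.restrict_apply (measurableSet_cell n k),
    inter_eq_left.mpr (cell_subset hk)]
  unfold cell
  rw [Real.volume_Ico]
  congr 1
  ring

private theorem idx_ind {E : Type*} [AddCommMonoid E] (n : ℕ) (f : ℕ → ℝ → E) {t : ℝ}
    (ht : t ∈ Ico (0 : ℝ) 1) :
    f (idx n t) t = ∑ k ∈ Finset.range (2 ^ n), (cell n k).indicator (f k) t := by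
  rw [Finset.sum_eq_single (idx n t)]
  · rw [indicator_of_mem ((mem_cell ht.1).mpr rfl)]
  · intro k _ hk
    rw [indicator_of_notMem]
    intro h
    exact hk ((mem_cell ht.1).mp h).symm
  · intro h
    exact absurd (Finset.mem_range.mpr (idx_lt ht.1 ht.2)) h

theorem integral_mul_idx (n : ℕ) (a : ℕ → ℝ) {x : ℝ → ℝ} (hx : Integrable x lam) :
    ∫ t, x t * a (idx n t) ∂lam =
      ∑ k ∈ Finset.range (2 ^ n), a k * ∫ t in cell n k, x t ∂lam := by
  have h1 : ∫ t, x t * a (idx n t) ∂lam =
      ∫ t, ∑ k ∈ Finset.range (2 ^ n), (cell n k).indicator (fun t => a k * x t) t ∂lam := by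
    refine integral_congr_ae ?_
    filter_upwards [ae_mem_Ico] with t ht
    rw [← idx_ind n (fun k t => a k * x t) ht, mul_comm]
  rw [h1, integral_finsetSum]
  · refine Finset.sum_congr rfl fun k _ => ?_
    rw [integral_indicator (measurableSet_cell n k), integral_const_mul]
  · intro k _
    exact (hx.const_mul (a k)).indicator (measurableSet_cell n k)

theorem integral_idx (n : ℕ) (a : ℕ → ℝ) :
    ∫ t, a (idx n t) ∂lam = (∑ k ∈ Finset.range (2 ^ n), a k) / 2 ^ n := by
  have h1 := integral_mul_idx n a (integrable_const (1 : ℝ))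
  simp only [one_mul] at h1
  rw [h1, Finset.sum_div]
  refine Finset.sum_congr rfl fun k hk => ?_
  rw [setIntegral_const, smul_eq_mul, mul_one, measureReal_def,
    lam_cell (Finset.mem_range.mp hk), ENNReal.toReal_ofReal (by positivity)]
  ring

theorem lintegral_idx (n : ℕ) (a : ℕ → ℝ≥0∞) :
    ∫⁻ t, a (idx n t) ∂lam =
      (∑ k ∈ Finset.range (2 ^ n), a k) * ENNReal.ofReal (1 / 2 ^ n) := by
  have h1 : ∫⁻ t, a (idx n t) ∂lam =
      ∫⁻ t, ∑ k ∈ Finset.range (2 ^ n), (cell n k).indicator (fun _ => a k) t ∂lam := by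
    refine lintegral_congr_ae ?_
    filter_upwards [ae_mem_Ico] with t ht
    exact idx_ind n (fun k _ => a k) ht
  rw [h1, lintegral_finsetSum, Finset.sum_mul]
  · refine Finset.sum_congr rfl fun k hk => ?_
    rw [lintegral_indicator_const (measurableSet_cell n k), lam_cell (Finset.mem_range.mp hk)]
  · intro k _
    exact measurable_const.indicator (measurableSet_cell n k)

/-- The cells of level `n + m` inside `cell n k`. -/
theorem cell_union {n m k : ℕ} (A : Set ℝ) (hA : MeasurableSet A) :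
    lam (cell n k ∩ A) =
      ∑ r ∈ Finset.range (2 ^ m), lam (cell (n + m) (k * 2 ^ m + r) ∩ A) := by
  have hc0 : ∀ {n k : ℕ} {t : ℝ}, t ∈ cell n k → 0 ≤ t := by
    intro n k t ht
    unfold cell at ht
    exact le_trans (by positivity) ht.1
  have h2 : 0 < 2 ^ m := by positivity
  have h1 : cell n k ∩ A =
      ⋃ r ∈ Finset.range (2 ^ m), (cell (n + m) (k * 2 ^ m + r) ∩ A) := by
    ext t
    simp only [mem_iUnion, mem_inter_iff, Finset.mem_range, exists_prop]
    constructor
    · rintro ⟨ht, hA'⟩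
      have h0 := hc0 ht
      have h3 := (mem_cell h0).mp ht
      rw [← idx_div n m h0] at h3
      refine ⟨idx (n + m) t % 2 ^ m, Nat.mod_lt _ h2, (mem_cell h0).mpr ?_, hA'⟩
      rw [← h3]
      exact (Nat.div_add_mod' _ _).symm
    · rintro ⟨r, hr, ht, hA'⟩
      have h0 := hc0 ht
      have h3 := (mem_cell h0).mp ht
      refine ⟨(mem_cell h0).mpr ?_, hA'⟩
      rw [← idx_div n m h0, h3, Nat.add_div_of_dvd_right (Dvd.intro_left _ rfl),
        Nat.mul_div_cancel _ h2, Nat.div_eq_of_lt hr, add_zero]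
  rw [h1, measure_biUnion_finset]
  · intro i _ j _ hij
    refine disjoint_left.mpr fun t h3 h4 => hij ?_
    have h0 := hc0 h3.1
    have h5 := (mem_cell h0).mp h3.1
    have h6 := (mem_cell h0).mp h4.1
    omega
  · intro r _
    exact (measurableSet_cell _ _).inter hA

end

end Pool.Agent.OB9
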