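import Pool.Agent.OB9.Core

/-!
# Module OB9/Exh

Exhaustion with overlapping functions.

PROOF. States are finite lists `L` of elements of `B` with `∑ z² ≤ 1` a.e.; `lv L = ∑ ∫ z² ≤ 1/8`.
For a state `L` let `S L` be the supremum of `lv L'` over the states `L'` with suffix `L`. Choose
`L_{n+1}` with suffix `L_n` and `lv L_{n+1} ≥ (lv L_n + S L_n)/2`; then `S L_n - lv L_n ≤ 2^{-n}`. Put
`f = {t | ∀ n, q_n t ≤ 1/2}`, `q_n = ∑_{z ∈ L_n} z²`. Markov's inequality and monotonicity give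
`lam fᶜ ≤ 1/4`. If `z ∈ B` is supported in `f` with `z² ≤ 1/2` then `z :: L_n` is a state for all `n`,
so `∫ z² ≤ S L_n - lv L_n` for all `n`.
-/

set_option autoImplicit false

namespace Pool.Agent.OB9

open MeasureTheory Set Filter
open scoped ENNReal Topology

noncomputable section

private def lq (L : List Linf) (t : ℝ) : ℝ := (L.map (fun z : Linf => ((z : L2) t) ^ 2)).sum

private def lv (L : List Linf) : ℝ := (L.map (fun z : Linf => ∫ t, ((z : L2) t) ^ 2 ∂lam)).sum

private def St (B : Set Linf) (L : List Linf) : Prop :=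
  (∀ z ∈ L, z ∈ B) ∧ ∀ᵐ t ∂lam, lq L t ≤ 1

private theorem int_sq (z : Linf) : Integrable (fun t => ((z : L2) t) ^ 2) lam :=
  (Lp.memLp (z : L2)).integrable_sq

private theorem lq_cons (z : Linf) (L : List Linf) (t : ℝ) :
    lq (z :: L) t = ((z : L2) t) ^ 2 + lq L t := by
  simp [lq]

private theorem lv_cons (z : Linf) (L : List Linf) :
    lv (z :: L) = ∫ t, ((z : L2) t) ^ 2 ∂lam + lv L := by
  simp [lv]

private theorem lq_int (L : List Linf) : Integrable (lq L) lam := by
  induction L with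
  | nil =>
    have : lq [] = fun _ => (0 : ℝ) := by funext t; simp [lq]
    rw [this]
    exact integrable_const _
  | cons z L ih =>
    have : lq (z :: L) = fun t => ((z : L2) t) ^ 2 + lq L t := by
      funext t; exact lq_cons z L t
    rw [this]
    exact (int_sq z).add ih

private theorem lv_eq (L : List Linf) : lv L = ∫ t, lq L t ∂lam := by
  induction L with
  | nil => simp [lv, lq]
  | cons z L ih =>
    have : lq (z :: L) = fun t => ((z : L2) t) ^ 2 + lq L t := by
      funext t; exact lq_cons z L t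
    rw [this, lv_cons, ih, ← integral_add (int_sq z) (lq_int L)]

private theorem lq_meas (L : List Linf) : Measurable (lq L) := by
  induction L with
  | nil =>
    have : lq [] = fun _ => (0 : ℝ) := by funext t; simp [lq]
    rw [this]
    exact measurable_const
  | cons z L ih =>
    have : lq (z :: L) = fun t => ((z : L2) t) ^ 2 + lq L t := by
      funext t; exact lq_cons z L t
    rw [this]
    exact ((Lp.stronglyMeasurable (z : L2)).measurable.pow_const 2).add ih

private theorem lq_nonneg (L : List Linf) (t : ℝ) : 0 ≤ lq L t := by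
  unfold lq
  refine List.sum_nonneg ?_
  intro r hr
  rw [List.mem_map] at hr
  obtain ⟨z, -, rfl⟩ := hr
  positivity

private theorem lq_app (L₁ L₂ : List Linf) (t : ℝ) : lq (L₁ ++ L₂) t = lq L₁ t + lq L₂ t := by
  simp [lq]

private theorem lq_suffix {L L' : List Linf} (h : L <:+ L') (t : ℝ) : lq L t ≤ lq L' t := by
  obtain ⟨L₁, rfl⟩ := h
  rw [lq_app]
  have := lq_nonneg L₁ t
  linarith

private theorem lv_le {B : Set Linf}
    (hB : ∀ (n : ℕ) (z : Fin n → Linf), (∀ i, z i ∈ B) →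
      (∀ᵐ t ∂lam, ∑ i, (z i : L2) t ^ 2 ≤ 1) → ∑ i, ∫ t, (z i : L2) t ^ 2 ∂lam ≤ 1 / 8)
    {L : List Linf} (hL : St B L) : lv L ≤ 1 / 8 := by
  have h1 := hB L.length (fun i => L[i.1]) (fun i => hL.1 _ (List.getElem_mem _)) (by
    filter_upwards [hL.2] with t ht
    have h2 : ∑ i : Fin L.length, ((L[i.1] : Linf) : L2) t ^ 2 = lq L t :=
      Fin.sum_univ_fun_getElem L (fun z : Linf => ((z : L2) t) ^ 2)
    rw [h2]
    exact ht)
  have h2 : ∑ i : Fin L.length, ∫ t, ((L[i.1] : Linf) : L2) t ^ 2 ∂lam = lv L :=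
    Fin.sum_univ_fun_getElem L (fun z : Linf => ∫ t, ((z : L2) t) ^ 2 ∂lam)
  rw [h2] at h1
  exact h1

private def Ext (B : Set Linf) (L : List Linf) : Set ℝ :=
  {r | ∃ L' : List Linf, St B L' ∧ L <:+ L' ∧ r = lv L'}

theorem exh (B : Set Linf)
    (hB : ∀ (n : ℕ) (z : Fin n → Linf), (∀ i, z i ∈ B) →
      (∀ᵐ t ∂lam, ∑ i, (z i : L2) t ^ 2 ≤ 1) → ∑ i, ∫ t, (z i : L2) t ^ 2 ∂lam ≤ 1 / 8) :
    ∃ f : Set ℝ, MeasurableSet f ∧ lam f ≠ 0 ∧ ∀ z ∈ B,
      (∀ᵐ t ∂lam, t ∉ f → (z : L2) t = 0) → (∀ᵐ t ∂lam, (z : L2) t ^ 2 ≤ 1 / 2) →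
      ∫ t, (z : L2) t ^ 2 ∂lam = 0 := by
  classical
  have hbd : ∀ L : List Linf, BddAbove (Ext B L) := by
    intro L
    refine ⟨1 / 8, ?_⟩
    rintro r ⟨L', h1, -, rfl⟩
    exact lv_le hB h1
  have hnext : ∀ L : {L : List Linf // St B L}, ∃ L' : {L : List Linf // St B L},
      L.1 <:+ L'.1 ∧ (lv L.1 + sSup (Ext B L.1)) / 2 ≤ lv L'.1 := by
    rintro ⟨L, hL⟩
    have hmem : lv L ∈ Ext B L := ⟨L, hL, List.suffix_rfl, rfl⟩
    have h1 : lv L ≤ sSup (Ext B L) := le_csSup (hbd L) hmem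
    rcases h1.eq_or_lt with h2 | h2
    · refine ⟨⟨L, hL⟩, List.suffix_rfl, ?_⟩
      simp only
      rw [← h2]
      linarith
    · have h3 : (lv L + sSup (Ext B L)) / 2 < sSup (Ext B L) := by linarith
      obtain ⟨r, ⟨L', h4, h5, rfl⟩, h6⟩ := exists_lt_of_lt_csSup ⟨_, hmem⟩ h3
      exact ⟨⟨L', h4⟩, h5, h6.le⟩
  choose nx hnx1 hnx2 using hnext
  have h0 : St B [] := by
    refine ⟨by simp, Eventually.of_forall fun t => ?_⟩
    simp [lq]
  let s : ℕ → {L : List Linf // St B L} := fun n => Nat.rec ⟨[], h0⟩ (fun _ L => nx L) n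
  have hs : ∀ n, s (n + 1) = nx (s n) := fun n => rfl
  have hsuf : ∀ n, (s n).1 <:+ (s (n + 1)).1 := fun n => by rw [hs]; exact hnx1 _
  have hgap : ∀ n, sSup (Ext B (s n).1) - lv (s n).1 ≤ (1 / 2) ^ n := by
    intro n
    induction n with
    | zero =>
      have h1 : sSup (Ext B (s 0).1) ≤ 1 / 8 := by
        refine csSup_le ⟨_, ⟨(s 0).1, (s 0).2, List.suffix_rfl, rfl⟩⟩ ?_
        rintro r ⟨L', h1, -, rfl⟩
        exact lv_le hB h1
      have h2 : 0 ≤ lv (s 0).1 := by
        rw [lv_eq]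
        exact integral_nonneg fun t => lq_nonneg _ t
      rw [pow_zero]
      linarith
    | succ n ih =>
      have h1 : sSup (Ext B (s (n + 1)).1) ≤ sSup (Ext B (s n).1) := by
        refine csSup_le_csSup (hbd _) ⟨_, ⟨(s (n + 1)).1, (s (n + 1)).2, List.suffix_rfl, rfl⟩⟩ ?_
        rintro r ⟨L', h1, h2, rfl⟩
        exact ⟨L', h1, (hsuf n).trans h2, rfl⟩
      have h2 := hnx2 (s n)
      rw [← hs n] at h2
      rw [pow_succ]
      linarith
  have hqmono : ∀ t, Monotone (fun n => lq (s n).1 t) := by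
    intro t
    exact monotone_nat_of_le_succ fun n => lq_suffix (hsuf n) t
  refine ⟨{t | ∀ n, lq (s n).1 t ≤ 1 / 2}, ?_, ?_, ?_⟩
  · have : {t | ∀ n, lq (s n).1 t ≤ 1 / 2} = ⋂ n, {t | lq (s n).1 t ≤ 1 / 2} := by
      ext t; simp
    rw [this]
    exact MeasurableSet.iInter fun n => measurableSet_le (lq_meas _) measurable_const
  · have hc : lam {t | ∀ n, lq (s n).1 t ≤ 1 / 2}ᶜ ≤ ENNReal.ofReal (1 / 4) := by
      have e : {t | ∀ n, lq (s n).1 t ≤ 1 / 2}ᶜ = ⋃ n, {t | 1 / 2 < lq (s n).1 t} := by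
        ext t
        simp
      rw [e]
      have hm : Monotone (fun n => {t | 1 / 2 < lq (s n).1 t}) := by
        intro n m hnm t ht
        exact lt_of_lt_of_le ht (hqmono t hnm)
      rw [hm.measure_iUnion]
      refine iSup_le fun n => ?_
      have h1 := mul_meas_ge_le_integral_of_nonneg (μ := lam) (f := lq (s n).1)
        (Eventually.of_forall fun t => lq_nonneg _ t) (lq_int _) (1 / 2)
      rw [← lv_eq] at h1
      have h2 := lv_le hB (s n).2
      have h3 : lam.real {t | 1 / 2 ≤ lq (s n).1 t} ≤ 1 / 4 := by linarith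
      have h4 : lam {t | 1 / 2 ≤ lq (s n).1 t} ≤ ENNReal.ofReal (1 / 4) := by
        rw [← ofReal_measureReal]
        exact ENNReal.ofReal_le_ofReal h3
      refine le_trans (measure_mono ?_) h4
      intro t ht
      have ht' : 1 / 2 < lq (s n).1 t := ht
      exact ht'.le
    intro h
    have h1 : lam (univ : Set ℝ) ≤ lam {t | ∀ n, lq (s n).1 t ≤ 1 / 2} +
        lam {t | ∀ n, lq (s n).1 t ≤ 1 / 2}ᶜ := by
      rw [← union_compl_self {t | ∀ n, lq (s n).1 t ≤ 1 / 2}]
      exact measure_union_le _ _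
    rw [h, zero_add, measure_univ] at h1
    have h2 := h1.trans hc
    rw [← ENNReal.ofReal_one, ENNReal.ofReal_le_ofReal_iff (by norm_num)] at h2
    norm_num at h2
  · intro z hz h1 h2
    have h3 : ∀ n, ∫ t, (z : L2) t ^ 2 ∂lam ≤ (1 / 2) ^ n := by
      intro n
      have h4 : St B (z :: (s n).1) := by
        refine ⟨?_, ?_⟩
        · intro w hw
          rcases List.mem_cons.1 hw with rfl | hw
          · exact hz
          · exact (s n).2.1 w hw
        · filter_upwards [h1, h2, (s n).2.2] with t ht1 ht2 ht3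
          rw [lq_cons]
          by_cases h5 : t ∈ {t | ∀ n, lq (s n).1 t ≤ 1 / 2}
          · have h6 : lq (s n).1 t ≤ 1 / 2 := h5 n
            linarith
          · rw [ht1 h5]
            linarith
      have h5 : lv (z :: (s n).1) ≤ sSup (Ext B (s n).1) :=
        le_csSup (hbd _) ⟨_, h4, List.suffix_cons _ _, rfl⟩
      rw [lv_cons] at h5
      have h6 := hgap n
      linarith
    have h4 : ∫ t, (z : L2) t ^ 2 ∂lam ≤ 0 := by
      refine ge_of_tendsto' (tendsto_pow_atTop_nhds_zero_of_lt_one (by norm_num)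
        (by norm_num : (1 / 2 : ℝ) < 1)) h3
    exact le_antisymm h4 (integral_nonneg fun t => by positivity)

end

end Pool.Agent.OB9
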