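import Pool.Agent.OB9.EmB
import Pool.Agent.OB9.Exh

/-!
# Module OB9/Em12

The two inequalities on a set `f`.

PROOF. `K₃` from `square_bound`, `K₀ = 16 K₃ + 16`. Given `ε₁ > 0` let `e` be from `small_e` with
`δ = ε₁/16`. Let `B = B₁ ∪ B₂`, `B₁ = {z | ∫_e (T z)² > ε₁ ∫ z²}`, `B₂ = {z | md M (T z) > K₀ ∫ z²}`. For a
finite family in `B` with `∑ z_i² ≤ 1` (subfamilies also satisfy this; to get a `Fin` family from a
subset use `Finset.equivFin`, or pad by zeros: replace the other `z_i` by `0`):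
`∑_{B₁} ∫ z_i² ≤ (1/ε₁) ∑ ∫_e (T z_i)² ≤ 1/16` and `∑_{B₂} ∫ z_i² ≤ K₃/K₀ ≤ 1/16` (`sum_md`). So `exh`
applies: `f`. Let `z ∈ Linf` be supported in `f`. If `z² ≤ 1/2` then either `z ∉ B`, or
`∫ z² = 0`, i.e. `z = 0`, `T z = 0`; in both cases the inequalities hold. For general `z` the first
inequality follows by scaling (`z/R`).
-/

set_option autoImplicit false

namespace Pool.Agent.OB9

open MeasureTheory Set Filter
open scoped ENNReal Topology

noncomputable section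

variable {κ : ℕ} {G : ℝ → ℝ}

theorem Linf_zero_of_integral {z : Linf} (hz : ∫ t, (z : L2) t ^ 2 ∂lam = 0) : z = 0 := by
  have hint : Integrable (fun t => (z : L2) t ^ 2) lam := (Lp.memLp (z : L2)).integrable_sq
  have h1 := (integral_eq_zero_iff_of_nonneg (fun t => sq_nonneg _) hint).1 hz
  apply Subtype.ext
  apply Lp.ext
  filter_upwards [h1, Lp.coeFn_zero ℝ 2 lam] with t h2 h3
  have h4 : (((0 : Linf) : L2) : ℝ → ℝ) t = 0 := h3
  rw [h4]
  have h5 : (z : L2) t ^ 2 = 0 := h2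
  exact pow_eq_zero_iff (two_ne_zero) |>.1 h5

theorem T_zero_ae (T : Linf →ₗ[ℝ] L2) : ∀ᵐ t ∂lam, (T 0) t = 0 := by
  rw [map_zero]
  filter_upwards [Lp.coeFn_zero ℝ 2 lam] with t ht
  rw [ht]
  rfl

theorem zero_ae : ∀ᵐ t ∂lam, ((0 : Linf) : L2) t = 0 := by
  filter_upwards [Lp.coeFn_zero ℝ 2 lam] with t ht
  exact ht

theorem em12 (hG : Nice κ G) (T : Linf →ₗ[ℝ] L2) {K : ℝ}
    (hT : ∀ x : Linf, md (MG G) (x : L2) ≤ 1 → md (MG G) (T x) ≤ ENNReal.ofReal K) :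
    ∃ K₀ : ℝ, 0 < K₀ ∧ ∀ ε₁ : ℝ, 0 < ε₁ → ∃ e f : Set ℝ, MeasurableSet e ∧ MeasurableSet f ∧
      lam e ≠ 0 ∧ lam f ≠ 0 ∧
      (∀ z : Linf, (∀ᵐ t ∂lam, t ∉ f → (z : L2) t = 0) →
        ∫ t in e, (T z) t ^ 2 ∂lam ≤ ε₁ * ∫ t, (z : L2) t ^ 2 ∂lam) ∧
      ∀ z : Linf, (∀ᵐ t ∂lam, t ∉ f → (z : L2) t = 0) → (∀ᵐ t ∂lam, (z : L2) t ^ 2 ≤ 1 / 2) →
        md (MG G) (T z) ≤ ENNReal.ofReal (K₀ * ∫ t, (z : L2) t ^ 2 ∂lam) := by
  obtain ⟨K₃, hK₃, h3⟩ := square_bound hG T hT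
  have hM := hG.qorl
  -- values at zero
  have hI0 : ∫ t, ((0 : Linf) : L2) t ^ 2 ∂lam = 0 := by
    have : (fun t => ((0 : Linf) : L2) t ^ 2) =ᵐ[lam] fun _ => (0 : ℝ) := by
      filter_upwards [zero_ae] with t ht
      rw [ht]
      norm_num
    rw [integral_congr_ae this, integral_zero]
  have hE0 : ∀ e : Set ℝ, ∫ t in e, (T 0) t ^ 2 ∂lam = 0 := by
    intro e
    have : (fun t => (T 0) t ^ 2) =ᵐ[lam.restrict e] fun _ => (0 : ℝ) := by
      filter_upwards [ae_restrict_of_ae (T_zero_ae T)] with t ht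
      rw [ht]
      norm_num
    rw [integral_congr_ae this, integral_zero]
  have hM0 : md (MG G) (T 0) = 0 := by
    have : ((T 0 : L2) : ℝ → ℝ) =ᵐ[lam] fun _ => (0 : ℝ) := T_zero_ae T
    rw [md_congr this, md_zero hM]
  refine ⟨16 * K₃ + 16, by linarith, ?_⟩
  intro ε₁ hε₁
  obtain ⟨e, he, he0, hse⟩ := small_e hG T h3 (δ := ε₁ / 16) (by linarith)
  set B₁ : Set Linf := {z | ε₁ * ∫ t, (z : L2) t ^ 2 ∂lam < ∫ t in e, (T z) t ^ 2 ∂lam} with hB₁
  set B₂ : Set Linf := {z | ENNReal.ofReal ((16 * K₃ + 16) * ∫ t, (z : L2) t ^ 2 ∂lam) <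
    md (MG G) (T z)} with hB₂
  have hB : ∀ (n : ℕ) (z : Fin n → Linf), (∀ i, z i ∈ B₁ ∪ B₂) →
      (∀ᵐ t ∂lam, ∑ i, (z i : L2) t ^ 2 ≤ 1) → ∑ i, ∫ t, (z i : L2) t ^ 2 ∂lam ≤ 1 / 8 := by
    intro n z hz hz1
    classical
    set z1 : Fin n → Linf := fun i => if z i ∈ B₁ then z i else 0 with hz1d
    set z2 : Fin n → Linf := fun i => if z i ∈ B₁ then 0 else z i with hz2d
    have hs1 : ∀ᵐ t ∂lam, ∑ i, (z1 i : L2) t ^ 2 ≤ 1 := by
      filter_upwards [hz1, zero_ae] with t ht h0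
      refine le_trans (Finset.sum_le_sum fun i _ => ?_) ht
      by_cases hi : z i ∈ B₁
      · simp only [hz1d, if_pos hi]
        exact le_refl _
      · simp only [hz1d, if_neg hi]
        rw [h0]
        have := sq_nonneg ((z i : L2) t)
        simpa using this
    have hs2 : ∀ᵐ t ∂lam, ∑ i, (z2 i : L2) t ^ 2 ≤ 1 := by
      filter_upwards [hz1, zero_ae] with t ht h0
      refine le_trans (Finset.sum_le_sum fun i _ => ?_) ht
      by_cases hi : z i ∈ B₁
      · simp only [hz2d, if_pos hi]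
        rw [h0]
        have := sq_nonneg ((z i : L2) t)
        simpa using this
      · simp only [hz2d, if_neg hi]
        exact le_refl _
    have hsum : ∀ i, ∫ t, (z i : L2) t ^ 2 ∂lam =
        ∫ t, (z1 i : L2) t ^ 2 ∂lam + ∫ t, (z2 i : L2) t ^ 2 ∂lam := by
      intro i
      by_cases hi : z i ∈ B₁
      · simp only [hz1d, hz2d, if_pos hi]
        rw [hI0, add_zero]
      · simp only [hz1d, hz2d, if_neg hi]
        rw [hI0, zero_add]
    have hA1 : ∑ i, ∫ t, (z1 i : L2) t ^ 2 ∂lam ≤ 1 / 16 := by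
      have h1 : ε₁ * ∑ i, ∫ t, (z1 i : L2) t ^ 2 ∂lam ≤ ε₁ / 16 := by
        rw [Finset.mul_sum]
        refine le_trans (Finset.sum_le_sum fun i _ => ?_) (hse n z1 hs1)
        by_cases hi : z i ∈ B₁
        · simp only [hz1d, if_pos hi]
          exact le_of_lt hi
        · simp only [hz1d, if_neg hi]
          rw [hI0, hE0, mul_zero]
      have h2 : ε₁ * ∑ i, ∫ t, (z1 i : L2) t ^ 2 ∂lam ≤ ε₁ * (1 / 16) := by
        linarith
      exact le_of_mul_le_mul_left h2 hε₁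
    have hA2 : ∑ i, ∫ t, (z2 i : L2) t ^ 2 ∂lam ≤ 1 / 16 := by
      have hnn : ∀ i, 0 ≤ ∫ t, (z2 i : L2) t ^ 2 ∂lam := fun i =>
        integral_nonneg fun t => sq_nonneg _
      have h1 : ENNReal.ofReal (∑ i, (16 * K₃ + 16) * ∫ t, (z2 i : L2) t ^ 2 ∂lam) ≤
          ENNReal.ofReal K₃ := by
        rw [ENNReal.ofReal_sum_of_nonneg (fun i _ => mul_nonneg (by linarith) (hnn i))]
        refine le_trans (Finset.sum_le_sum fun i _ => ?_)
          ((sum_md hG T z2).trans (h3 n z2 hs2))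
        by_cases hi : z i ∈ B₁
        · simp only [hz2d, if_pos hi]
          rw [hI0, mul_zero, ENNReal.ofReal_zero]
          exact zero_le
        · simp only [hz2d, if_neg hi]
          exact le_of_lt ((hz i).resolve_left hi)
      have h2 : ∑ i, (16 * K₃ + 16) * ∫ t, (z2 i : L2) t ^ 2 ∂lam ≤ K₃ :=
        (ENNReal.ofReal_le_ofReal_iff hK₃.le).1 h1
      rw [← Finset.mul_sum] at h2
      have h4 : (16 * K₃ + 16) * ∑ i, ∫ t, (z2 i : L2) t ^ 2 ∂lam ≤
          (16 * K₃ + 16) * (1 / 16) := by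
        linarith
      exact le_of_mul_le_mul_left h4 (by linarith)
    calc ∑ i, ∫ t, (z i : L2) t ^ 2 ∂lam
        = ∑ i, ∫ t, (z1 i : L2) t ^ 2 ∂lam + ∑ i, ∫ t, (z2 i : L2) t ^ 2 ∂lam := by
          rw [← Finset.sum_add_distrib]
          exact Finset.sum_congr rfl fun i _ => hsum i
      _ ≤ 1 / 16 + 1 / 16 := add_le_add hA1 hA2
      _ = 1 / 8 := by norm_num
  obtain ⟨f, hf, hf0, hfB⟩ := exh (B₁ ∪ B₂) hB
  refine ⟨e, f, he, hf, he0, hf0, ?_, ?_⟩
  · intro z hz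
    by_contra hcon
    push Not at hcon
    obtain ⟨R, hR⟩ := z.2
    set c : ℝ := 1 / (2 * (1 + |R|)) with hc
    have hc0 : 0 < c := by positivity
    have hcz : ∀ᵐ t ∂lam, ((c • z : Linf) : L2) t = c * (z : L2) t := by
      filter_upwards [Lp.coeFn_smul c (z : L2)] with t ht
      have h1 : ((c • z : Linf) : L2) = c • (z : L2) := rfl
      rw [h1, ht]
      rfl
    have hTz : ∀ᵐ t ∂lam, (T (c • z)) t = c * (T z) t := by
      rw [map_smul]
      filter_upwards [Lp.coeFn_smul c (T z)] with t ht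
      rw [ht]
      rfl
    have hI : ∫ t, ((c • z : Linf) : L2) t ^ 2 ∂lam = c ^ 2 * ∫ t, (z : L2) t ^ 2 ∂lam := by
      rw [← integral_const_mul]
      apply integral_congr_ae
      filter_upwards [hcz] with t ht
      rw [ht, mul_pow]
    have hJ : ∫ t in e, (T (c • z)) t ^ 2 ∂lam = c ^ 2 * ∫ t in e, (T z) t ^ 2 ∂lam := by
      rw [← integral_const_mul]
      apply integral_congr_ae
      filter_upwards [ae_restrict_of_ae hTz] with t ht
      rw [ht, mul_pow]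
    have hmem : c • z ∈ B₁ := by
      show ε₁ * ∫ t, ((c • z : Linf) : L2) t ^ 2 ∂lam < ∫ t in e, (T (c • z)) t ^ 2 ∂lam
      rw [hI, hJ]
      have h1 : c ^ 2 * (ε₁ * ∫ t, (z : L2) t ^ 2 ∂lam) <
          c ^ 2 * ∫ t in e, (T z) t ^ 2 ∂lam :=
        mul_lt_mul_of_pos_left hcon (by positivity)
      calc ε₁ * (c ^ 2 * ∫ t, (z : L2) t ^ 2 ∂lam)
          = c ^ 2 * (ε₁ * ∫ t, (z : L2) t ^ 2 ∂lam) := by ring
        _ < _ := h1
    have h0 := hfB (c • z) (Or.inl hmem) (by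
      filter_upwards [hz, hcz] with t h1 h2 h3
      rw [h2, h1 h3, mul_zero]) (by
      filter_upwards [hcz, hR] with t h1 h2
      rw [h1]
      have h3 : |c * (z : L2) t| ≤ 1 / 2 := by
        rw [abs_mul, abs_of_pos hc0]
        calc c * |(z : L2) t| ≤ c * (1 + |R|) := by
              apply mul_le_mul_of_nonneg_left _ hc0.le
              have := le_abs_self R
              linarith
          _ = 1 / 2 := by
              rw [hc]
              have : (1 + |R|) ≠ 0 := by positivity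
              field_simp
      have h4 : (c * (z : L2) t) ^ 2 ≤ (1 / 2) ^ 2 := sq_le_sq' (abs_le.1 h3).1 (abs_le.1 h3).2
      linarith)
    rw [hI] at h0
    have h1 : ∫ t, (z : L2) t ^ 2 ∂lam = 0 :=
      (mul_eq_zero.1 h0).resolve_left (by positivity)
    have h2 := Linf_zero_of_integral h1
    rw [h2, hI0, hE0, mul_zero] at hcon
    exact lt_irrefl _ hcon
  · intro z hz hz2
    by_contra hcon
    push Not at hcon
    have h0 := hfB z (Or.inr hcon) hz hz2
    have h2 := Linf_zero_of_integral h0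
    rw [h2, hM0] at hcon
    exact not_lt_zero hcon

end

end Pool.Agent.OB9
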