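import Pool.Agent.OB9.NiB
import Pool.Agent.OB9.MdB

/-!
# Module OB9/EmA

Moment bound for an operator bounded on `L^M`.

PROOF. `M = MG G`. `M(t) ≤ 2 + 2 t^(2r)` for some natural `r` (`G_le_pow`: `M(t) ≤ t² + t^(κ+2)`, take
`2r ≥ κ + 2`). Let `x` be bounded, `ρ = 1 + (md M x).toReal`. `md M (x/√ρ) ≤ 1` since
`M(t/√ρ) ≤ M(t)/ρ` (`MG_mul_ge`). So `md M (T x/√ρ) ≤ K` (by linearity `T (x/√ρ) = T x/√ρ`), and
`M(t) = M(√ρ t/√ρ) ≤ ρ^((κ+2)/2) M(t/√ρ) ≤ ρ^(κ+2) M(t/√ρ)`, so `md M (T x) ≤ K ρ^(κ+2)`. Finally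
`ρ ≤ 3 + 2 ∫ x^(2r)`, and with `q = κ + 2`: `ρ^q ≤ 2^q (3^q + 2^q (∫ x^(2r))^q) ≤ C (1 + ∫ x^(2 r q))`
(Jensen on a probability space: `inner_le_nnorm_mul_nnorm` / `integral_pow_le`-type: convexity of
`t^q`, `ConvexOn.map_integral_le`). `m = r q`.
-/

set_option autoImplicit false

namespace Pool.Agent.OB9

open MeasureTheory Set Filter
open scoped ENNReal Topology

noncomputable section

variable {κ : ℕ} {G : ℝ → ℝ}

private theorem ema_MG_le (hG : Nice κ G) {t : ℝ} (ht : 0 ≤ t) :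
    MG G t ≤ 2 + 2 * t ^ (2 * (κ + 2)) := by
  have h1 : MG G t ≤ t ^ 2 * (1 + t ^ κ) :=
    mul_le_mul_of_nonneg_left (hG.G_le_pow ht) (sq_nonneg t)
  have h2 : t ^ 2 * (1 + t ^ κ) = t ^ 2 + t ^ (κ + 2) := by ring
  rw [h2] at h1
  refine h1.trans ?_
  rcases le_total t 1 with h | h
  · have h3 : t ^ 2 ≤ 1 := pow_le_one₀ ht h
    have h4 : t ^ (κ + 2) ≤ 1 := pow_le_one₀ ht h
    have h5 : 0 ≤ t ^ (2 * (κ + 2)) := pow_nonneg ht _
    linarith
  · have h3 : t ^ 2 ≤ t ^ (2 * (κ + 2)) := pow_le_pow_right₀ h (by omega)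
    have h4 : t ^ (κ + 2) ≤ t ^ (2 * (κ + 2)) := pow_le_pow_right₀ h (by omega)
    linarith

private theorem ema_int {x : L2} {R : ℝ} (hR : ∀ᵐ t ∂lam, |x t| ≤ R) (n : ℕ) :
    Integrable (fun t => x t ^ n) lam := by
  refine Integrable.of_bound ((Lp.aestronglyMeasurable x).pow n) (R ^ n) ?_
  filter_upwards [hR] with t ht
  rw [Real.norm_eq_abs, abs_pow]
  exact pow_le_pow_left₀ (abs_nonneg _) ht n

private theorem ema_md (hG : Nice κ G) {x : L2} {R : ℝ} (hR : ∀ᵐ t ∂lam, |x t| ≤ R) :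
    md (MG G) x ≤ ENNReal.ofReal (2 + 2 * ∫ t, x t ^ (2 * (κ + 2)) ∂lam) := by
  have h1 : md (MG G) x ≤ ∫⁻ t, ENNReal.ofReal (2 + 2 * x t ^ (2 * (κ + 2))) ∂lam := by
    unfold md
    refine lintegral_mono fun t => ENNReal.ofReal_le_ofReal ?_
    have h2 := ema_MG_le hG (abs_nonneg (x t))
    have h3 : |x t| ^ (2 * (κ + 2)) = x t ^ (2 * (κ + 2)) := by
      rw [pow_mul, pow_mul, sq_abs]
    rw [h3] at h2
    exact h2
  refine h1.trans (le_of_eq ?_)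
  have hint := ema_int hR (2 * (κ + 2))
  have hint2 : Integrable (fun t => 2 + 2 * x t ^ (2 * (κ + 2))) lam :=
    (integrable_const (2 : ℝ)).add (hint.const_mul 2)
  rw [← ofReal_integral_eq_lintegral_ofReal hint2
    (Eventually.of_forall fun t => by
      have : 0 ≤ x t ^ (2 * (κ + 2)) := by rw [pow_mul]; positivity
      show (0 : ℝ) ≤ 2 + 2 * x t ^ (2 * (κ + 2))
      linarith)]
  congr 1
  rw [integral_add (integrable_const (2 : ℝ)) (hint.const_mul 2), integral_const_mul]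
  simp

private theorem ema_jensen {x : L2} {R : ℝ} (hR : ∀ᵐ t ∂lam, |x t| ≤ R) (a q : ℕ) :
    (∫ t, x t ^ (2 * a) ∂lam) ^ q ≤ ∫ t, x t ^ (2 * (a * q)) ∂lam := by
  have h1 := ConvexOn.map_integral_le (μ := lam) (s := Ici (0 : ℝ)) (g := fun y : ℝ => y ^ q)
    (f := fun t => x t ^ (2 * a)) (convexOn_pow q) (continuous_pow q).continuousOn isClosed_Ici
    (Eventually.of_forall fun t => by
      show (0 : ℝ) ≤ x t ^ (2 * a)
      rw [pow_mul]
      positivity) (ema_int hR _) ?_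
  · refine h1.trans (le_of_eq ?_)
    refine integral_congr_ae (Eventually.of_forall fun t => ?_)
    show (x t ^ (2 * a)) ^ q = x t ^ (2 * (a * q))
    rw [← pow_mul, mul_assoc]
  · have h2 : ((fun y : ℝ => y ^ q) ∘ fun t => x t ^ (2 * a)) = fun t => x t ^ (2 * (a * q)) := by
      funext t
      show (x t ^ (2 * a)) ^ q = x t ^ (2 * (a * q))
      rw [← pow_mul, mul_assoc]
    rw [h2]
    exact ema_int hR _

private theorem ema_scale (hG : Nice κ G) {s : ℝ} (hs : 1 ≤ s) (x : ℝ → ℝ) :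
    md (MG G) (fun t => s * x t) ≤ ENNReal.ofReal (s ^ (κ + 2)) * md (MG G) x := by
  have hs0 : 0 ≤ s := by linarith
  unfold md
  rw [← lintegral_const_mul' _ _ ENNReal.ofReal_ne_top]
  refine lintegral_mono fun t => ?_
  show ENNReal.ofReal (MG G |s * x t|) ≤ ENNReal.ofReal (s ^ (κ + 2)) * ENNReal.ofReal (MG G |x t|)
  rw [← ENNReal.ofReal_mul (by positivity), abs_mul, abs_of_nonneg hs0]
  exact ENNReal.ofReal_le_ofReal (hG.MG_mul_le hs (abs_nonneg _))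

private theorem ema_shrink (hG : Nice κ G) {s : ℝ} (hs : 1 ≤ s) {x : ℝ → ℝ}
    (hx : md (MG G) x ≤ ENNReal.ofReal (s ^ 2)) : md (MG G) (fun t => 1 / s * x t) ≤ 1 := by
  have hs0 : 0 < s := by linarith
  have h1 : md (MG G) (fun t => 1 / s * x t) ≤ ENNReal.ofReal ((s ^ 2)⁻¹) * md (MG G) x := by
    unfold md
    rw [← lintegral_const_mul' _ _ ENNReal.ofReal_ne_top]
    refine lintegral_mono fun t => ?_
    show ENNReal.ofReal (MG G |1 / s * x t|) ≤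
      ENNReal.ofReal ((s ^ 2)⁻¹) * ENNReal.ofReal (MG G |x t|)
    rw [← ENNReal.ofReal_mul (by positivity), abs_mul, abs_of_nonneg (by positivity : 0 ≤ 1 / s)]
    refine ENNReal.ofReal_le_ofReal ?_
    have h2 := hG.MG_mul_ge hs (by positivity : 0 ≤ 1 / s * |x t|)
    have h3 : s * (1 / s * |x t|) = |x t| := by field_simp
    rw [h3] at h2
    rw [inv_mul_eq_div, le_div_iff₀ (by positivity)]
    linarith
  refine h1.trans ?_
  calc ENNReal.ofReal ((s ^ 2)⁻¹) * md (MG G) x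
      ≤ ENNReal.ofReal ((s ^ 2)⁻¹) * ENNReal.ofReal (s ^ 2) := by gcongr
    _ = 1 := by
      rw [← ENNReal.ofReal_mul (by positivity), inv_mul_cancel₀ (by positivity),
        ENNReal.ofReal_one]

theorem moment_bound (hG : Nice κ G) (T : Linf →ₗ[ℝ] L2) {K : ℝ}
    (hT : ∀ x : Linf, md (MG G) (x : L2) ≤ 1 → md (MG G) (T x) ≤ ENNReal.ofReal K) :
    ∃ (m : ℕ) (C : ℝ), 0 < C ∧ ∀ x : Linf,
      md (MG G) (T x) ≤ ENNReal.ofReal (C * (1 + ∫ t, (x : L2) t ^ (2 * m) ∂lam)) := by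
  refine ⟨(κ + 2) * (κ + 2), 2 ^ (κ + 1) * (3 ^ (κ + 2) + 2 ^ (κ + 2)) * (|K| + 1),
    by positivity, fun x => ?_⟩
  obtain ⟨R, hR⟩ : Bd (x : L2) := x.2
  set I : ℝ := ∫ t, (x : L2) t ^ (2 * (κ + 2)) ∂lam with hI
  set J : ℝ := ∫ t, (x : L2) t ^ (2 * ((κ + 2) * (κ + 2))) ∂lam with hJ
  have hI0 : 0 ≤ I := integral_nonneg fun t => by
    show (0 : ℝ) ≤ (x : L2) t ^ (2 * (κ + 2))
    rw [pow_mul]
    positivity
  have hIJ : I ^ (κ + 2) ≤ J := ema_jensen hR (κ + 2) (κ + 2)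
  have hmd := ema_md hG hR
  rw [← hI] at hmd
  set ρ : ℝ := 3 + 2 * I with hρ
  have hρ1 : 1 ≤ ρ := by linarith
  set s : ℝ := Real.sqrt ρ with hs
  have hs1 : 1 ≤ s := by
    rw [hs]
    exact Real.one_le_sqrt.2 hρ1
  have hs2 : s ^ 2 = ρ := Real.sq_sqrt (by linarith)
  have hs0 : 0 < s := by linarith
  have hsρ : s ≤ ρ := by nlinarith
  have hx1 : md (MG G) (fun t => 1 / s * (x : L2) t) ≤ 1 := by
    refine ema_shrink hG hs1 (hmd.trans (ENNReal.ofReal_le_ofReal ?_))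
    rw [hs2]
    linarith
  have hy : md (MG G) (((1 / s) • x : Linf) : L2) ≤ 1 := by
    refine le_trans (le_of_eq (md_congr ?_)) hx1
    filter_upwards [Lp.coeFn_smul (1 / s) (x : L2)] with t ht
    have h1 : (((1 / s) • x : Linf) : L2) = (1 / s) • (x : L2) := rfl
    rw [h1, ht]
    rfl
  have hTy := hT _ hy
  have hTx : md (MG G) (T x) = md (MG G) (fun t => s * (T ((1 / s) • x)) t) := by
    refine md_congr ?_
    have h1 : T ((1 / s) • x) = (1 / s) • T x := T.map_smul _ _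
    rw [h1]
    filter_upwards [Lp.coeFn_smul (1 / s) (T x)] with t ht
    rw [ht]
    show (T x) t = s * (1 / s * (T x) t)
    field_simp
  rw [hTx]
  refine (ema_scale hG hs1 _).trans ?_
  have h2 : ENNReal.ofReal (s ^ (κ + 2)) * md (MG G) (T ((1 / s) • x)) ≤
      ENNReal.ofReal (s ^ (κ + 2)) * ENNReal.ofReal (|K| + 1) := by
    gcongr
    exact hTy.trans (ENNReal.ofReal_le_ofReal (by linarith [le_abs_self K]))
  refine h2.trans ?_
  rw [← ENNReal.ofReal_mul (by positivity)]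
  refine ENNReal.ofReal_le_ofReal ?_
  have h3 : s ^ (κ + 2) ≤ ρ ^ (κ + 2) := pow_le_pow_left₀ hs0.le hsρ _
  have h4 : ρ ^ (κ + 2) ≤ 2 ^ (κ + 1) * (3 ^ (κ + 2) + (2 * I) ^ (κ + 2)) := by
    have := add_pow_le (by norm_num : (0 : ℝ) ≤ 3) (by positivity : 0 ≤ 2 * I) (κ + 2)
    exact this
  have h5 : (3 : ℝ) ^ (κ + 2) + (2 * I) ^ (κ + 2) ≤
      (3 ^ (κ + 2) + 2 ^ (κ + 2)) * (1 + J) := by
    rw [mul_pow]
    have h6 : (0 : ℝ) < 3 ^ (κ + 2) := by positivity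
    have h7 : (0 : ℝ) < 2 ^ (κ + 2) := by positivity
    have h8 : 0 ≤ I ^ (κ + 2) := by positivity
    have h9 : 0 ≤ J := h8.trans hIJ
    have h10 : (2 : ℝ) ^ (κ + 2) * I ^ (κ + 2) ≤ 2 ^ (κ + 2) * J :=
      mul_le_mul_of_nonneg_left hIJ h7.le
    nlinarith [mul_nonneg h6.le h9]
  have h11 : (0 : ℝ) < 2 ^ (κ + 1) := by positivity
  calc s ^ (κ + 2) * (|K| + 1)
      ≤ (2 ^ (κ + 1) * ((3 ^ (κ + 2) + 2 ^ (κ + 2)) * (1 + J))) * (|K| + 1) :=
        mul_le_mul_of_nonneg_right ((h3.trans h4).trans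
          (mul_le_mul_of_nonneg_left h5 h11.le)) (by positivity)
    _ = 2 ^ (κ + 1) * (3 ^ (κ + 2) + 2 ^ (κ + 2)) * (|K| + 1) * (1 + J) := by ring

end

end Pool.Agent.OB9
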