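import Pool.Agent.OB9.RsA
import Pool.Agent.OB9.EmA

/-!
# Module OB9/EmB

Square function bounds for families with `∑ z_i² ≤ 1`.

PROOF. Let `m`, `C` be from `moment_bound`. For signs `ε` put `z_ε = ∑ sg ε i • z_i ∈ Linf`,
`T z_ε = ∑ sg ε i • T z_i`. Pointwise a.e., `avg z_ε^(2m) ≤ 2 (2m)!` (`avg_pow`), so
`avg_ε md M (T z_ε) ≤ C (1 + 2 (2m)!)`, and pointwise `M((∑ (T z_i)²)^{1/2}) ≤
2^(κ+1) avg_ε M|T z_ε|` (`avg_low`). Integrate: `K₃ = 2^(κ+1) C (1 + 2 (2m)!)`. `sum_md`: `sum_le_MG`.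
`small_e`: let `w = (∑ (T z_i)²)^{1/2}`, `∫ M(w) ≤ K₃`. For `U > 0`:
`∫_e w² ≤ U² lam e + (1/G(U)) ∫ M(w) ≤ U² lam e + K₃/G(U)`; choose `U` with `K₃/G(U) ≤ δ/2`, then `e`
with `0 < lam e ≤ δ/(2 U²)` (e.g. `e = Ico 0 s`).
-/

set_option autoImplicit false

namespace Pool.Agent.OB9

open MeasureTheory Set Filter
open scoped ENNReal Topology

noncomputable section

variable {κ : ℕ} {G : ℝ → ℝ}

private theorem emb_coe {ι : Type*} (s : Finset ι) (c : ι → ℝ) (f : ι → L2) :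
    ∀ᵐ t ∂lam, (∑ i ∈ s, c i • f i : L2) t = ∑ i ∈ s, c i * f i t := by
  classical
  induction s using Finset.induction_on with
  | empty =>
    filter_upwards [Lp.coeFn_zero ℝ 2 lam] with t ht
    simp only [Finset.sum_empty]
    rw [ht]
    rfl
  | insert a s ha ih =>
    rw [Finset.sum_insert ha]
    filter_upwards [ih, Lp.coeFn_add (c a • f a) (∑ i ∈ s, c i • f i),
      Lp.coeFn_smul (c a) (f a)] with t h1 h2 h3
    rw [Finset.sum_insert ha, h2, Pi.add_apply, h1, h3]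
    rfl

private theorem emb_MG_nonneg (hG : Nice κ G) (t : ℝ) : 0 ≤ MG G |t| :=
  mul_nonneg (sq_nonneg _) (zero_le_one.trans (hG.one_le (abs_nonneg t)))

private theorem emb_sqrt_meas {n : ℕ} (y : Fin n → L2) :
    AEMeasurable (fun t => Real.sqrt (∑ i, (y i) t ^ 2)) lam := by
  refine Real.continuous_sqrt.measurable.comp_aemeasurable ?_
  refine Finset.aemeasurable_fun_sum _ fun i _ => ?_
  exact (Lp.aestronglyMeasurable (y i)).aemeasurable.pow_const 2

theorem square_bound (hG : Nice κ G) (T : Linf →ₗ[ℝ] L2) {K : ℝ}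
    (hT : ∀ x : Linf, md (MG G) (x : L2) ≤ 1 → md (MG G) (T x) ≤ ENNReal.ofReal K) :
    ∃ K₃ : ℝ, 0 < K₃ ∧ ∀ (n : ℕ) (z : Fin n → Linf),
      (∀ᵐ t ∂lam, ∑ i, (z i : L2) t ^ 2 ≤ 1) →
      md (MG G) (fun t => Real.sqrt (∑ i, (T (z i)) t ^ 2)) ≤ ENNReal.ofReal K₃ := by
  obtain ⟨m, C, hC, hm⟩ := moment_bound hG T hT
  refine ⟨2 ^ (κ + 1) * (C * (1 + 2 * (2 * m).factorial)), by positivity, fun n z hz => ?_⟩
  set zz : (Fin n → Bool) → Linf := fun ε => ∑ i, sg ε i • z i with hzz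
  have hTz : ∀ ε, T (zz ε) = ∑ i, sg ε i • T (z i) := by
    intro ε
    rw [hzz]
    simp only [map_sum, map_smul]
  have hzz' : ∀ ε, ((zz ε : Linf) : L2) = ∑ i, sg ε i • (z i : L2) := by
    intro ε
    rw [hzz]
    simp only [Submodule.coe_sum, Submodule.coe_smul]
  have hcoe : ∀ᵐ t ∂lam, ∀ ε, ((zz ε : Linf) : L2) t = ∑ i, sg ε i * (z i : L2) t := by
    rw [ae_all_iff]
    intro ε
    rw [hzz' ε]
    exact emb_coe _ _ _
  have hcoeT : ∀ᵐ t ∂lam, ∀ ε, (T (zz ε)) t = ∑ i, sg ε i * (T (z i)) t := by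
    rw [ae_all_iff]
    intro ε
    rw [hTz ε]
    exact emb_coe _ _ _
  have hint : ∀ ε, Integrable (fun t => ((zz ε : Linf) : L2) t ^ (2 * m)) lam := by
    intro ε
    obtain ⟨R, hR⟩ : Bd ((zz ε : Linf) : L2) := (zz ε).2
    refine Integrable.of_bound ((Lp.aestronglyMeasurable ((zz ε : Linf) : L2)).pow (2 * m))
      (R ^ (2 * m)) ?_
    filter_upwards [hR] with t ht
    rw [Real.norm_eq_abs, abs_pow]
    exact pow_le_pow_left₀ (abs_nonneg _) ht _
  have h2n : (0 : ℝ) < 2 ^ n := by positivity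
  have h2 : ∑ ε, ∫ t, ((zz ε : Linf) : L2) t ^ (2 * m) ∂lam ≤
      2 ^ n * (2 * (2 * m).factorial) := by
    rw [← integral_finsetSum _ fun ε _ => hint ε]
    have h3 : ∫ t, ∑ ε, ((zz ε : Linf) : L2) t ^ (2 * m) ∂lam ≤
        ∫ _, (2 : ℝ) ^ n * (2 * (2 * m).factorial) ∂lam := by
      refine integral_mono_ae (integrable_finsetSum _ fun ε _ => hint ε)
        (integrable_const _) ?_
      filter_upwards [hcoe, hz] with t h4 h5
      have h6 := avg_pow (fun i => (z i : L2) t) m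
      unfold avg at h6
      rw [div_le_iff₀ h2n] at h6
      have h7 : (∑ i, (z i : L2) t ^ 2) ^ m ≤ 1 :=
        pow_le_one₀ (Finset.sum_nonneg fun i _ => sq_nonneg _) h5
      have h8 : (0 : ℝ) ≤ 2 * (2 * m).factorial := by positivity
      calc ∑ ε, ((zz ε : Linf) : L2) t ^ (2 * m)
          = ∑ ε, (∑ i, sg ε i * (z i : L2) t) ^ (2 * m) :=
            Finset.sum_congr rfl fun ε _ => by rw [h4 ε]
        _ ≤ 2 * (2 * m).factorial * (∑ i, (z i : L2) t ^ 2) ^ m * 2 ^ n := h6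
        _ ≤ 2 * (2 * m).factorial * 1 * 2 ^ n := by gcongr
        _ = 2 ^ n * (2 * (2 * m).factorial) := by ring
    refine h3.trans (le_of_eq ?_)
    simp
  have h1 : ∑ ε, md (MG G) (T (zz ε)) ≤
      ENNReal.ofReal (2 ^ n * (C * (1 + 2 * (2 * m).factorial))) := by
    calc ∑ ε, md (MG G) (T (zz ε))
        ≤ ∑ ε, ENNReal.ofReal (C * (1 + ∫ t, ((zz ε : Linf) : L2) t ^ (2 * m) ∂lam)) :=
          Finset.sum_le_sum fun ε _ => hm (zz ε)
      _ = ENNReal.ofReal (∑ ε, C * (1 + ∫ t, ((zz ε : Linf) : L2) t ^ (2 * m) ∂lam)) := by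
          rw [ENNReal.ofReal_sum_of_nonneg]
          intro ε _
          have h3 : 0 ≤ ∫ t, ((zz ε : Linf) : L2) t ^ (2 * m) ∂lam :=
            integral_nonneg fun t => by
              show (0 : ℝ) ≤ ((zz ε : Linf) : L2) t ^ (2 * m)
              rw [pow_mul]
              positivity
          positivity
      _ ≤ _ := by
          refine ENNReal.ofReal_le_ofReal ?_
          rw [← Finset.mul_sum, Finset.sum_add_distrib, Finset.sum_const, Finset.card_univ,
            Fintype.card_fun, Fintype.card_bool, Fintype.card_fin, nsmul_eq_mul, mul_one]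
          push_cast
          have h4 := mul_le_mul_of_nonneg_left h2 hC.le
          nlinarith
  have hq := hG.qorl
  have hmeasT : ∀ ε, AEMeasurable (fun t => ENNReal.ofReal (MG G |(T (zz ε)) t|)) lam := fun ε =>
    (hq.meas.comp_aemeasurable (Lp.aestronglyMeasurable (T (zz ε))).aemeasurable).ennreal_ofReal
  calc md (MG G) (fun t => Real.sqrt (∑ i, (T (z i)) t ^ 2))
      ≤ ∫⁻ t, ENNReal.ofReal (2 ^ (κ + 1) / 2 ^ n) *
          ∑ ε, ENNReal.ofReal (MG G |(T (zz ε)) t|) ∂lam := by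
        unfold md
        refine lintegral_mono_ae ?_
        filter_upwards [hcoeT] with t ht
        rw [← ENNReal.ofReal_sum_of_nonneg fun ε _ => emb_MG_nonneg hG _,
          ← ENNReal.ofReal_mul (by positivity)]
        refine ENNReal.ofReal_le_ofReal ?_
        have h3 := avg_low hG (fun i => (T (z i)) t)
        rw [abs_of_nonneg (Real.sqrt_nonneg _)]
        refine h3.trans (le_of_eq ?_)
        have h4 : ∑ ε, MG G |∑ i, sg ε i * (T (z i)) t| = ∑ ε, MG G |(T (zz ε)) t| :=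
          Finset.sum_congr rfl fun ε _ => by rw [ht ε]
        unfold avg
        rw [h4]
        ring
    _ = ENNReal.ofReal (2 ^ (κ + 1) / 2 ^ n) * ∑ ε, md (MG G) (T (zz ε)) := by
        rw [lintegral_const_mul' _ _ ENNReal.ofReal_ne_top,
          lintegral_finsetSum' _ fun ε _ => hmeasT ε]
        rfl
    _ ≤ ENNReal.ofReal (2 ^ (κ + 1) / 2 ^ n) *
          ENNReal.ofReal (2 ^ n * (C * (1 + 2 * (2 * m).factorial))) := by gcongr
    _ = _ := by
        rw [← ENNReal.ofReal_mul (by positivity)]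
        congr 1
        field_simp

theorem sum_md (hG : Nice κ G) (T : Linf →ₗ[ℝ] L2) {n : ℕ} (z : Fin n → Linf) :
    ∑ i, md (MG G) (T (z i)) ≤ md (MG G) (fun t => Real.sqrt (∑ i, (T (z i)) t ^ 2)) := by
  have hq := hG.qorl
  have h1 : ∑ i, md (MG G) (T (z i)) =
      ∫⁻ t, ∑ i, ENNReal.ofReal (MG G |(T (z i)) t|) ∂lam := by
    unfold md
    exact (lintegral_finsetSum' _ fun i _ =>
      (hq.meas.comp_aemeasurable
        (Lp.aestronglyMeasurable (T (z i))).aemeasurable).ennreal_ofReal).symm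
  rw [h1]
  unfold md
  refine lintegral_mono fun t => ?_
  show ∑ i, ENNReal.ofReal (MG G |(T (z i)) t|) ≤
    ENNReal.ofReal (MG G |Real.sqrt (∑ i, (T (z i)) t ^ 2)|)
  rw [← ENNReal.ofReal_sum_of_nonneg fun i _ => emb_MG_nonneg hG _,
    abs_of_nonneg (Real.sqrt_nonneg _)]
  exact ENNReal.ofReal_le_ofReal (sum_le_MG hG fun i => (T (z i)) t)

theorem small_e (hG : Nice κ G) (T : Linf →ₗ[ℝ] L2) {K₃ : ℝ}
    (h3 : ∀ (n : ℕ) (z : Fin n → Linf), (∀ᵐ t ∂lam, ∑ i, (z i : L2) t ^ 2 ≤ 1) →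
      md (MG G) (fun t => Real.sqrt (∑ i, (T (z i)) t ^ 2)) ≤ ENNReal.ofReal K₃) {δ : ℝ}
    (hδ : 0 < δ) :
    ∃ e : Set ℝ, MeasurableSet e ∧ lam e ≠ 0 ∧ ∀ (n : ℕ) (z : Fin n → Linf),
      (∀ᵐ t ∂lam, ∑ i, (z i : L2) t ^ 2 ≤ 1) →
      ∑ i, ∫ t in e, (T (z i)) t ^ 2 ∂lam ≤ δ := by
  -- choice of `U`
  obtain ⟨U, hU1, hU2⟩ : ∃ U : ℝ, 1 ≤ U ∧ 2 * (|K₃| + 1) / δ ≤ G U := by
    have h1 := (hG.tends.eventually_ge_atTop (2 * (|K₃| + 1) / δ)).and (eventually_ge_atTop 1)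
    obtain ⟨U, hU⟩ := h1.exists
    exact ⟨U, hU.2, hU.1⟩
  have hU0 : 0 < U := by linarith
  have hGU : 0 < G U := by
    have := hG.one_le hU0.le
    linarith
  -- choice of `e`
  set s : ℝ := min 1 (δ / (2 * U ^ 2)) with hs
  have hs0 : 0 < s := lt_min one_pos (by positivity)
  have hs1 : s ≤ 1 := min_le_left _ _
  have hs2 : s ≤ δ / (2 * U ^ 2) := min_le_right _ _
  have hlam : lam (Ico 0 s) = ENNReal.ofReal s := by
    have h4 : Ico 0 s ∩ Icc 0 1 = Ico 0 s := by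
      apply inter_eq_left.2
      intro t ht
      exact ⟨ht.1, ht.2.le.trans hs1⟩
    rw [lam, Measure.restrict_apply measurableSet_Ico, h4, Real.volume_Ico, sub_zero]
  refine ⟨Ico 0 s, measurableSet_Ico, ?_, fun n z hz => ?_⟩
  · rw [hlam]
    exact (ENNReal.ofReal_pos.2 hs0).ne'
  have hK := h3 n z hz
  set w : ℝ → ℝ := fun t => Real.sqrt (∑ i, (T (z i)) t ^ 2) with hw
  have hw2 : ∀ t, w t ^ 2 = ∑ i, (T (z i)) t ^ 2 := fun t =>
    Real.sq_sqrt (Finset.sum_nonneg fun i _ => sq_nonneg _)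
  have hw0 : ∀ t, 0 ≤ w t := fun t => Real.sqrt_nonneg _
  have hwm : AEMeasurable w lam := emb_sqrt_meas fun i => T (z i)
  have hsq : ∀ i, Integrable (fun t => (T (z i)) t ^ 2) lam := fun i =>
    (Lp.memLp (T (z i))).integrable_sq
  have hsum : ∑ i, ∫ t in Ico 0 s, (T (z i)) t ^ 2 ∂lam = ∫ t in Ico 0 s, w t ^ 2 ∂lam := by
    rw [← integral_finsetSum _ fun i _ => (hsq i).integrableOn]
    refine integral_congr_ae (Eventually.of_forall fun t => ?_)
    exact (hw2 t).symm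
  rw [hsum]
  have hnn : 0 ≤ ∫ t in Ico 0 s, w t ^ 2 ∂lam := integral_nonneg fun t => sq_nonneg _
  rw [integral_eq_lintegral_of_nonneg_ae (Eventually.of_forall fun t => sq_nonneg _)
    ((hwm.pow_const 2).aestronglyMeasurable.restrict)]
  refine ENNReal.toReal_le_of_le_ofReal hδ.le ?_
  have hpt : ∀ t, ENNReal.ofReal (w t ^ 2) ≤
      ENNReal.ofReal (U ^ 2) + ENNReal.ofReal ((G U)⁻¹) * ENNReal.ofReal (MG G |w t|) := by
    intro t
    rw [← ENNReal.ofReal_mul (by positivity),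
      ← ENNReal.ofReal_add (by positivity)
        (mul_nonneg (by positivity) (emb_MG_nonneg hG _))]
    refine ENNReal.ofReal_le_ofReal ?_
    rw [abs_of_nonneg (hw0 t)]
    have h5 : 0 ≤ MG G (w t) := by
      have := emb_MG_nonneg hG (w t)
      rwa [abs_of_nonneg (hw0 t)] at this
    rcases le_total (w t) U with h4 | h4
    · have h6 : w t ^ 2 ≤ U ^ 2 := pow_le_pow_left₀ (hw0 t) h4 2
      have h7 : 0 ≤ (G U)⁻¹ * MG G (w t) := by positivity
      linarith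
    · have h6 : G U ≤ G (w t) := hG.mono (mem_Ici.2 hU0.le) (mem_Ici.2 (hw0 t)) h4
      have h7 : w t ^ 2 ≤ (G U)⁻¹ * MG G (w t) := by
        rw [inv_mul_eq_div, le_div_iff₀ hGU]
        unfold MG
        exact mul_le_mul_of_nonneg_left h6 (sq_nonneg _)
      have h8 : 0 ≤ U ^ 2 := sq_nonneg _
      linarith
  calc ∫⁻ t in Ico 0 s, ENNReal.ofReal (w t ^ 2) ∂lam
      ≤ ∫⁻ t in Ico 0 s, (ENNReal.ofReal (U ^ 2) +
          ENNReal.ofReal ((G U)⁻¹) * ENNReal.ofReal (MG G |w t|)) ∂lam :=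
        lintegral_mono fun t => hpt t
    _ = ENNReal.ofReal (U ^ 2) * lam (Ico 0 s) +
          ENNReal.ofReal ((G U)⁻¹) * ∫⁻ t in Ico 0 s, ENNReal.ofReal (MG G |w t|) ∂lam := by
        rw [lintegral_add_left measurable_const, lintegral_const,
          lintegral_const_mul' _ _ ENNReal.ofReal_ne_top, Measure.restrict_apply_univ]
    _ ≤ ENNReal.ofReal (U ^ 2) * ENNReal.ofReal s +
          ENNReal.ofReal ((G U)⁻¹) * ENNReal.ofReal (|K₃| + 1) := by
        rw [hlam]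
        gcongr
        calc ∫⁻ t in Ico 0 s, ENNReal.ofReal (MG G |w t|) ∂lam
            ≤ ∫⁻ t, ENNReal.ofReal (MG G |w t|) ∂lam := setLIntegral_le_lintegral _ _
          _ ≤ ENNReal.ofReal K₃ := hK
          _ ≤ ENNReal.ofReal (|K₃| + 1) :=
            ENNReal.ofReal_le_ofReal (by linarith [le_abs_self K₃])
    _ = ENNReal.ofReal (U ^ 2 * s + (G U)⁻¹ * (|K₃| + 1)) := by
        rw [← ENNReal.ofReal_mul (by positivity), ← ENNReal.ofReal_mul (by positivity),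
          ← ENNReal.ofReal_add (by positivity) (by positivity)]
    _ ≤ ENNReal.ofReal δ := by
        refine ENNReal.ofReal_le_ofReal ?_
        have h4 : U ^ 2 * s ≤ δ / 2 := by
          calc U ^ 2 * s ≤ U ^ 2 * (δ / (2 * U ^ 2)) := by gcongr
            _ = δ / 2 := by field_simp
        have h5 : (G U)⁻¹ * (|K₃| + 1) ≤ δ / 2 := by
          rw [inv_mul_eq_div, div_le_iff₀ hGU]
          rw [div_le_iff₀ hδ] at hU2
          linarith
        linarith

end

end Pool.Agent.OB9
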