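import Pool.Agent.OB9.NiB

/-!
# Module OB9/EmL

The pointwise argument for the lower part.

PROOF. Numbers: `v > 0`, `0 < ς ≤ 1`, levels `b_j`, `j₀ < j ≤ J₁` (finite index set `s`, an interval of
naturals `Ioc j₀ J₁`), `G(b_j) = 4^(j+1)`, `b_j ≥ N` for `j > j₀`, `ξ_j ≥ 0`,
`v ≤ 4 ∑_{j ∈ s} b_j ξ_j`, `v > b_{J₁ + D - 1}` where `4^(D-1) ≥ ς Th(N/ς)`, `D ≥ 1`, and `N` satisfies
the property of `ThinG` with `ε = ς/8`. Let `X_j ≥ 0` with `ς Th(b_j) Th(X_j) = Th v` (`Th_surj`).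
`Th v/Th(b_j) ≥ G v/G(b_j) ≥ 4^(D-1)`: `v > b_{J₁+D-1} ≥ b_j`, `G v ≥ 4^(J₁+D)`, `G(b_j) = 4^(j+1)`.
So `Th(X_j) ≥ 4^(D-1)/ς ≥ Th(N/ς)`, `X_j ≥ N/ς`, `X'_j = ς X_j ≥ N` and
`Th(b_j) Th(X'_j) ≤ Th(b_j) ς Th(X_j) = Th v` (`Th_mul_ge` with `1/ς`). So `(b_j, X'_j)`, reindexed by
`i = j - j₀ - 1`, is a chain at `v` with base `N` (`G(b_{j+1}) = 4 G(b_j)`): `∑ b_j X'_j ≤ (ς/8) v`,
i.e. `∑ b_j X_j ≤ v/8`. For `ξ_j ≤ X_j`: `b_j ξ_j ≤ b_j X_j`. For `ξ_j > X_j`: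
`Th v ≤ ς Th(b_j) Th(ξ_j)`, so `b_j ξ_j Th v ≤ ς M(b_j) M(ξ_j)`. Hence
`v Th v ≤ 4 ∑ b_j ξ_j Th v ≤ 4 (v/8) Th v + 4 ς ∑ M(b_j) M(ξ_j)` and
`M(v) = v Th v ≤ 8 ς ∑ M(b_j) M(ξ_j)`.
-/

set_option autoImplicit false

namespace Pool.Agent.OB9

open MeasureTheory Set Filter
open scoped ENNReal Topology

noncomputable section

variable {κ : ℕ} {G : ℝ → ℝ}

lemma emL_Th_nonneg (hG : Nice κ G) {t : ℝ} (ht : 0 ≤ t) : 0 ≤ Th G t :=
  mul_nonneg ht (le_trans zero_le_one (hG.one_le ht))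

lemma emL_MG_nonneg (hG : Nice κ G) {t : ℝ} (ht : 0 ≤ t) : 0 ≤ MG G t :=
  mul_nonneg (sq_nonneg _) (le_trans zero_le_one (hG.one_le ht))

theorem lower_pt (hG : Nice κ G) {ς N : ℝ} (h0 : 0 < ς) (h1 : ς ≤ 1) (hN : 1 ≤ N)
    (hT : ∀ (v : ℝ) (m : ℕ) (h X : ℕ → ℝ), 0 < v → Chain G N v m h X →
      ∑ i ∈ Finset.range m, h i * X i ≤ ς / 8 * v)
    {D j₀ J₁ : ℕ} (hD : 1 ≤ D) (hDN : ς * Th G (N / ς) ≤ 4 ^ (D - 1)) {b ξ : ℕ → ℝ}
    (hb0 : ∀ j, 0 ≤ b j) (hb : ∀ j, G (b j) = 4 ^ (j + 1)) (hbN : ∀ j, j₀ < j → N ≤ b j)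
    (hξ : ∀ j, 0 ≤ ξ j) {v : ℝ} (hv : 0 < v) (hv1 : b (J₁ + D - 1) < v)
    (hle : v ≤ 4 * ∑ j ∈ Finset.Ioc j₀ J₁, b j * ξ j) :
    MG G v ≤ 8 * ς * ∑ j ∈ Finset.Ioc j₀ J₁, MG G (b j) * MG G (ξ j) := by
  classical
  have hthv : 0 ≤ Th G v := emL_Th_nonneg hG hv.le
  have hGv : (4 : ℝ) ^ (J₁ + D) ≤ G v := by
    have h2 := hG.mono (show b (J₁ + D - 1) ∈ Ici 0 from hb0 _) (show v ∈ Ici 0 from hv.le) hv1.le
    rw [hb] at h2
    have h3 : J₁ + D - 1 + 1 = J₁ + D := by omega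
    rw [h3] at h2
    exact h2
  have hble : ∀ j ≤ J₁, b j ≤ v := by
    intro j hj
    refine le_trans ?_ hv1.le
    rcases Nat.lt_or_ge j (J₁ + D - 1) with h2 | h2
    · have h3 : 2 * G (b j) ≤ G (b (J₁ + D - 1)) := by
        rw [hb, hb]
        have h4 : (4 : ℝ) ^ (j + 1 + 1) ≤ 4 ^ (J₁ + D - 1 + 1) :=
          pow_le_pow_right₀ (by norm_num) (by omega)
        have h5 : (0 : ℝ) < 4 ^ (j + 1) := by positivity
        rw [pow_succ (4 : ℝ) (j + 1)] at h4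
        linarith
      exact (hG.lt_of_two_mul (hb0 _) (hb0 _) h3).1.le
    · have h3 : j = J₁ + D - 1 := by omega
      rw [← h3]
  have hex : ∀ j, ∃ X : ℝ, j ∈ Finset.Ioc j₀ J₁ →
      0 ≤ X ∧ ς * Th G (b j) * Th G X = Th G v ∧ N ≤ ς * X ∧ Th G (b j) * Th G (ς * X) ≤ Th G v := by
    intro j
    by_cases hj : j ∈ Finset.Ioc j₀ J₁
    swap
    · exact ⟨0, fun h => absurd h hj⟩
    obtain ⟨hj1, hj2⟩ := Finset.mem_Ioc.1 hj
    have hbj : 0 < b j := lt_of_lt_of_le (by linarith) (hbN j hj1)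
    have hThb : Th G (b j) = b j * 4 ^ (j + 1) := by unfold Th; rw [hb]
    have hThb0 : 0 < Th G (b j) := by rw [hThb]; positivity
    have hς : 0 < ς * Th G (b j) := mul_pos h0 hThb0
    obtain ⟨X, hX0, hX⟩ := hG.Th_surj (show 0 ≤ Th G v / (ς * Th G (b j)) by positivity)
    refine ⟨X, fun _ => ⟨hX0, ?_, ?_, ?_⟩⟩
    · rw [hX]; field_simp
    · have h2 : Th G (N / ς) ≤ Th G X := by
        rw [hX, le_div_iff₀ hς]
        have h3 : b j * (4 : ℝ) ^ (J₁ + D) ≤ Th G v := by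
          unfold Th
          exact mul_le_mul (hble j hj2) hGv (by positivity) hv.le
        have h4 : (4 : ℝ) ^ (D - 1) * 4 ^ (j + 1) ≤ 4 ^ (J₁ + D) := by
          rw [← pow_add]
          exact pow_le_pow_right₀ (by norm_num) (by omega)
        calc Th G (N / ς) * (ς * Th G (b j)) = (ς * Th G (N / ς)) * Th G (b j) := by ring
          _ ≤ 4 ^ (D - 1) * Th G (b j) := mul_le_mul_of_nonneg_right hDN hThb0.le
          _ = b j * (4 ^ (D - 1) * 4 ^ (j + 1)) := by rw [hThb]; ring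
          _ ≤ b j * 4 ^ (J₁ + D) := mul_le_mul_of_nonneg_left h4 hbj.le
          _ ≤ Th G v := h3
      have h5 : N / ς ≤ X := (hG.Th_le_iff (by positivity) hX0).1 h2
      rw [div_le_iff₀ h0] at h5
      linarith
    · have h2 := hG.Th_mul_ge (c := 1 / ς) (t := ς * X) (by rw [le_div_iff₀ h0]; linarith)
        (by positivity)
      have h3 : 1 / ς * (ς * X) = X := by field_simp
      rw [h3, div_mul_eq_mul_div, one_mul, div_le_iff₀ h0] at h2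
      calc Th G (b j) * Th G (ς * X) ≤ Th G (b j) * (Th G X * ς) :=
            mul_le_mul_of_nonneg_left h2 hThb0.le
        _ = ς * Th G (b j) * Th G X := by ring
        _ = Th G v := by rw [hX]; field_simp
        _ ≤ Th G v := le_rfl
  choose X hX using hex
  -- the chain
  have hsum : ∑ j ∈ Finset.Ioc j₀ J₁, b j * X j ≤ v / 8 := by
    have hc : Chain G N v (J₁ - j₀) (fun i => b (j₀ + 1 + i)) (fun i => ς * X (j₀ + 1 + i)) := by
      refine ⟨fun i hi => ?_, fun i hi => ?_⟩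
      · have hm : j₀ + 1 + i ∈ Finset.Ioc j₀ J₁ := Finset.mem_Ioc.2 ⟨by omega, by omega⟩
        exact ⟨hbN _ (by omega), (hX _ hm).2.2.1, (hX _ hm).2.2.2⟩
      · show 2 * G (b (j₀ + 1 + i)) ≤ G (b (j₀ + 1 + (i + 1)))
        rw [hb, hb]
        have h4 : (4 : ℝ) ^ (j₀ + 1 + (i + 1) + 1) = 4 ^ (j₀ + 1 + i + 1) * 4 := by
          rw [← pow_succ]; congr 1
        rw [h4]
        have h5 : (0 : ℝ) < 4 ^ (j₀ + 1 + i + 1) := by positivity
        linarith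
    have h2 := hT v _ _ _ hv hc
    have h3 : ∑ i ∈ Finset.range (J₁ - j₀), b (j₀ + 1 + i) * (ς * X (j₀ + 1 + i)) =
        ς * ∑ j ∈ Finset.Ioc j₀ J₁, b j * X j := by
      rw [Finset.mul_sum]
      have h4 : Finset.Ioc j₀ J₁ = Finset.Ico (j₀ + 1) (J₁ + 1) := by
        ext a
        simp only [Finset.mem_Ioc, Finset.mem_Ico]
        omega
      rw [h4, Finset.sum_Ico_eq_sum_range]
      have h5 : J₁ + 1 - (j₀ + 1) = J₁ - j₀ := by omega
      rw [h5]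
      refine Finset.sum_congr rfl fun i _ => ?_
      ring
    have h6 : ς * ∑ j ∈ Finset.Ioc j₀ J₁, b j * X j ≤ ς * (v / 8) := by
      rw [← h3]
      calc _ ≤ ς / 8 * v := h2
        _ = ς * (v / 8) := by ring
    exact le_of_mul_le_mul_left h6 h0
  -- the termwise bound
  have hterm : ∀ j ∈ Finset.Ioc j₀ J₁, b j * ξ j * Th G v ≤
      b j * X j * Th G v + ς * (MG G (b j) * MG G (ξ j)) := by
    intro j hj
    have hM : 0 ≤ MG G (b j) * MG G (ξ j) :=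
      mul_nonneg (emL_MG_nonneg hG (hb0 j)) (emL_MG_nonneg hG (hξ j))
    rcases le_or_gt (ξ j) (X j) with h2 | h2
    · have h3 : b j * ξ j * Th G v ≤ b j * X j * Th G v :=
        mul_le_mul_of_nonneg_right (mul_le_mul_of_nonneg_left h2 (hb0 j)) hthv
      have h4 := mul_nonneg h0.le hM
      linarith
    · have h3 : Th G v ≤ ς * Th G (b j) * Th G (ξ j) := by
        rw [← (hX j hj).2.1]
        exact mul_le_mul_of_nonneg_left
          ((hG.Th_le_iff (hX j hj).1 (hξ j)).2 h2.le)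
          (mul_nonneg h0.le (emL_Th_nonneg hG (hb0 j)))
      have h4 : b j * ξ j * Th G v ≤ b j * ξ j * (ς * Th G (b j) * Th G (ξ j)) :=
        mul_le_mul_of_nonneg_left h3 (mul_nonneg (hb0 j) (hξ j))
      have h5 : b j * ξ j * (ς * Th G (b j) * Th G (ξ j)) = ς * (MG G (b j) * MG G (ξ j)) := by
        unfold MG Th; ring
      have h6 : 0 ≤ b j * X j * Th G v :=
        mul_nonneg (mul_nonneg (hb0 j) (hX j hj).1) hthv
      linarith
  have hfin : v * Th G v ≤ 4 * (v / 8 * Th G v +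
      ς * ∑ j ∈ Finset.Ioc j₀ J₁, MG G (b j) * MG G (ξ j)) := by
    calc v * Th G v ≤ (4 * ∑ j ∈ Finset.Ioc j₀ J₁, b j * ξ j) * Th G v :=
          mul_le_mul_of_nonneg_right hle hthv
      _ = 4 * ∑ j ∈ Finset.Ioc j₀ J₁, b j * ξ j * Th G v := by
          rw [mul_assoc, Finset.sum_mul]
      _ ≤ 4 * ∑ j ∈ Finset.Ioc j₀ J₁,
            (b j * X j * Th G v + ς * (MG G (b j) * MG G (ξ j))) := by
          gcongr with j hj
          exact hterm j hj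
      _ = 4 * ((∑ j ∈ Finset.Ioc j₀ J₁, b j * X j) * Th G v +
            ς * ∑ j ∈ Finset.Ioc j₀ J₁, MG G (b j) * MG G (ξ j)) := by
          rw [Finset.sum_add_distrib, Finset.sum_mul, Finset.mul_sum]
      _ ≤ _ := by
          gcongr
  have hMG : MG G v = v * Th G v := by unfold MG Th; ring
  rw [hMG]
  linarith

end

end Pool.Agent.OB9
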