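import Pool.Agent.OB9.Em12
import Pool.Agent.OB9.EmL

/-!
# Module OB9/EmC

Blocks: cutting a function at the levels `b_j` with `G(b_j) = 4^(j+1)`.

PROOF. `levels4`: intermediate value theorem for `G` (`Nice.cont`, `G 0 = 1`, `tends`); `b` is strictly
increasing as `G` is monotone. `piece b j x`: the element of `Linf` equal to `x` where
`b_{j-1} < |x| ≤ b_j` (`j ≥ 1`) and `0` elsewhere. (Construct it as `MemLp.toLp` of an indicator
function; `|piece| ≤ |x|`.) `piece_sum`: if `|x| ≤ b_J` a.e. and `|x| > b_{j₀}` or `x = 0` a.e., then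
`x = ∑_{j₀ < j ≤ J} piece j x`. `piece_sq`: `4^j ∫ (piece j x)² ≤ md M (piece j x)` (as `G ≥ 4^j` for
`t > b_{j-1}`), and the sum of `md M (piece j x)` over distinct `j` is `≤ md M x` (`md_disj`).
-/

set_option autoImplicit false

namespace Pool.Agent.OB9

open MeasureTheory Set Filter
open scoped ENNReal Topology

noncomputable section

variable {κ : ℕ} {G : ℝ → ℝ}

theorem levels4 (hG : Nice κ G) : ∃ b : ℕ → ℝ, (∀ j, 1 ≤ b j) ∧ (∀ j, G (b j) = 4 ^ (j + 1)) ∧
    StrictMono b ∧ Tendsto b atTop atTop := by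
  have hex : ∀ j : ℕ, ∃ t, 1 ≤ t ∧ G t = 4 ^ (j + 1) := by
    intro j
    obtain ⟨T, hT1, hT2⟩ := ((hG.tends.eventually_ge_atTop ((4 : ℝ) ^ (j + 1))).and
      (eventually_ge_atTop (1 : ℝ))).exists
    have hc : ContinuousOn G (Icc 1 T) := hG.cont.mono fun t ht => by
      have := ht.1
      exact mem_Ici.2 (by linarith)
    have h1 : G 1 = 1 := hG.one 1 zero_le_one le_rfl
    obtain ⟨t, ht, hGt⟩ := intermediate_value_Icc hT2 hc
      (show (4 : ℝ) ^ (j + 1) ∈ Icc (G 1) (G T) from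
        ⟨by rw [h1]; exact one_le_pow₀ (by norm_num), hT1⟩)
    exact ⟨t, ht.1, hGt⟩
  choose b hb1 hb2 using hex
  have hb0 : ∀ j, 0 ≤ b j := fun j => zero_le_one.trans (hb1 j)
  refine ⟨b, hb1, hb2, ?_, ?_⟩
  · refine strictMono_nat_of_lt_succ fun n => ?_
    refine (hG.lt_of_two_mul (hb0 _) (hb0 _) ?_).1
    rw [hb2, hb2, pow_succ (4 : ℝ) (n + 1)]
    have : (0 : ℝ) < 4 ^ (n + 1) := by positivity
    linarith
  · rw [tendsto_atTop]
    intro R
    have h4 : Tendsto (fun n : ℕ => (4 : ℝ) ^ (n + 1)) atTop atTop :=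
      (tendsto_pow_atTop_atTop_of_one_lt (by norm_num : (1 : ℝ) < 4)).comp (tendsto_add_atTop_nat 1)
    filter_upwards [h4.eventually_gt_atTop (G (max R 0))] with n hn
    by_contra hlt
    push Not at hlt
    have h5 : b n ≤ max R 0 := hlt.le.trans (le_max_left _ _)
    have h6 := hG.mono (mem_Ici.2 (hb0 n)) (mem_Ici.2 (le_max_right R 0)) h5
    rw [hb2] at h6
    linarith

/-- `y` is the part of `x` with `b_{j-1} < |x| ≤ b_j`. -/
def IsPiece (b : ℕ → ℝ) (j : ℕ) (x y : Linf) : Prop :=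
  ∀ᵐ t ∂lam, (y : L2) t =
    if b (j - 1) < |(x : L2) t| ∧ |(x : L2) t| ≤ b j then (x : L2) t else 0

theorem exists_piece (b : ℕ → ℝ) (j : ℕ) (x : Linf) : ∃ y : Linf, IsPiece b j x y := by
  have hm : Measurable (fun t => (x : L2) t) := (Lp.stronglyMeasurable (x : L2)).measurable
  have hs : MeasurableSet {t : ℝ | b (j - 1) < |(x : L2) t| ∧ |(x : L2) t| ≤ b j} :=
    (measurableSet_lt measurable_const hm.abs).inter (measurableSet_le hm.abs measurable_const)
  have hmem : MemLp ({t : ℝ | b (j - 1) < |(x : L2) t| ∧ |(x : L2) t| ≤ b j}.indicator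
      (fun t => (x : L2) t)) 2 lam := (Lp.memLp (x : L2)).indicator hs
  have hae : ∀ᵐ t ∂lam, (hmem.toLp _ : L2) t =
      if b (j - 1) < |(x : L2) t| ∧ |(x : L2) t| ≤ b j then (x : L2) t else 0 := by
    filter_upwards [hmem.coeFn_toLp] with t ht
    rw [ht]
    simp only [indicator, mem_setOf_eq]
  refine ⟨⟨hmem.toLp _, ?_⟩, hae⟩
  obtain ⟨R, hR⟩ := x.2
  refine ⟨R, ?_⟩
  filter_upwards [hae, hR] with t h1 h2
  rw [h1]
  split_ifs
  · exact h2
  · rw [abs_zero]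
    exact (abs_nonneg _).trans h2

private theorem coe_sum (s : Finset ℕ) (y : ℕ → Linf) :
    ∀ᵐ t ∂lam, ((∑ j ∈ s, y j : Linf) : L2) t = ∑ j ∈ s, ((y j : Linf) : L2) t := by
  classical
  induction s using Finset.induction_on with
  | empty =>
    filter_upwards [Lp.coeFn_zero ℝ 2 lam] with t ht
    simpa using ht
  | insert a s ha ih =>
    filter_upwards [ih, Lp.coeFn_add ((y a : Linf) : L2) ((∑ j ∈ s, y j : Linf) : L2)] with t h1 h2
    rw [Finset.sum_insert ha, Finset.sum_insert ha, ← h1]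
    simpa using h2

private theorem pc_disj {b : ℕ → ℝ} (hb : StrictMono b) {a : ℝ} {i j : ℕ}
    (hi : b (i - 1) < a ∧ a ≤ b i) (hj : b (j - 1) < a ∧ a ≤ b j) : i = j := by
  by_contra hne
  rcases Nat.lt_or_gt_of_ne hne with h | h
  · have : b i ≤ b (j - 1) := hb.monotone (by omega)
    linarith [hi.2, hj.1]
  · have : b j ≤ b (i - 1) := hb.monotone (by omega)
    linarith [hj.2, hi.1]

private theorem pc_ae {b : ℕ → ℝ} {x : Linf} {y : ℕ → Linf} (hy : ∀ j, IsPiece b j x (y j)) :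
    ∀ᵐ t ∂lam, ∀ j, ((y j : Linf) : L2) t =
      if b (j - 1) < |(x : L2) t| ∧ |(x : L2) t| ≤ b j then (x : L2) t else 0 :=
  ae_all_iff.2 hy

theorem piece_sum {b : ℕ → ℝ} (hb : StrictMono b) {j₀ J : ℕ} (h : j₀ ≤ J) {x : Linf}
    {y : ℕ → Linf} (hy : ∀ j, IsPiece b j x (y j))
    (h1 : ∀ᵐ t ∂lam, (x : L2) t = 0 ∨ b j₀ < |(x : L2) t|)
    (h2 : ∀ᵐ t ∂lam, |(x : L2) t| ≤ b J) : x = ∑ j ∈ Finset.Ioc j₀ J, y j := by
  refine Subtype.ext (Lp.ext ?_)
  filter_upwards [coe_sum (Finset.Ioc j₀ J) y, pc_ae hy, h1, h2] with t ht1 ht2 ht3 ht4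
  rw [ht1]
  rcases ht3 with h0 | h0
  · rw [h0, Finset.sum_eq_zero]
    intro j _
    rw [ht2 j, h0]
    simp
  · have hex : ∃ j, |(x : L2) t| ≤ b j := ⟨J, ht4⟩
    classical
    have hf1 := Nat.find_spec hex
    have hfJ : Nat.find hex ≤ J := Nat.find_min' hex ht4
    have hfj : j₀ < Nat.find hex := by
      by_contra hle
      push Not at hle
      have := hb.monotone hle
      linarith
    have hf2 : b (Nat.find hex - 1) < |(x : L2) t| := by
      have := Nat.find_min hex (m := Nat.find hex - 1) (by omega)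
      push Not at this
      exact this
    rw [Finset.sum_eq_single_of_mem (Nat.find hex) (Finset.mem_Ioc.2 ⟨hfj, hfJ⟩)]
    · rw [ht2, if_pos ⟨hf2, hf1⟩]
    · intro j _ hne
      rw [ht2, if_neg]
      intro hj
      exact hne (pc_disj hb hj ⟨hf2, hf1⟩)

private theorem pc_int (z : Linf) : Integrable (fun t => ((z : L2) t) ^ 2) lam :=
  (Lp.memLp (z : L2)).integrable_sq

theorem piece_sq (hG : Nice κ G) {b : ℕ → ℝ} (hb1 : ∀ j, 1 ≤ b j)
    (hb : ∀ j, G (b j) = 4 ^ (j + 1)) (hbm : StrictMono b) {j₀ J : ℕ} {x : Linf}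
    {y : ℕ → Linf} (hy : ∀ j, IsPiece b j x (y j)) (hx : md (MG G) (x : L2) ≤ 1) :
    ∑ j ∈ Finset.Ioc j₀ J, (4 : ℝ) ^ j * ∫ t, (y j : L2) t ^ 2 ∂lam ≤ 1 := by
  have e : ∑ j ∈ Finset.Ioc j₀ J, (4 : ℝ) ^ j * ∫ t, (y j : L2) t ^ 2 ∂lam =
      ∫ t, ∑ j ∈ Finset.Ioc j₀ J, (4 : ℝ) ^ j * (y j : L2) t ^ 2 ∂lam := by
    rw [integral_finset_sum _ fun j _ => (pc_int (y j)).const_mul _]
    exact Finset.sum_congr rfl fun j _ => (integral_const_mul _ _).symm
  rw [e]
  have hnn : ∀ t, 0 ≤ ∑ j ∈ Finset.Ioc j₀ J, (4 : ℝ) ^ j * (y j : L2) t ^ 2 :=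
    fun t => Finset.sum_nonneg fun j _ => by positivity
  have hint : Integrable (fun t => ∑ j ∈ Finset.Ioc j₀ J, (4 : ℝ) ^ j * (y j : L2) t ^ 2) lam :=
    integrable_finset_sum _ fun j _ => (pc_int (y j)).const_mul _
  have h1 : ENNReal.ofReal (∫ t, ∑ j ∈ Finset.Ioc j₀ J, (4 : ℝ) ^ j * (y j : L2) t ^ 2 ∂lam) ≤ 1 := by
    rw [ofReal_integral_eq_lintegral_ofReal hint (Eventually.of_forall hnn)]
    refine le_trans ?_ hx
    unfold md
    refine lintegral_mono_ae ?_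
    filter_upwards [pc_ae hy] with t ht
    refine ENNReal.ofReal_le_ofReal ?_
    have hMnn : 0 ≤ MG G |(x : L2) t| :=
      (sq_nonneg _).trans (hG.sq_le (abs_nonneg _))
    by_cases hex : ∃ j ∈ Finset.Ioc j₀ J, b (j - 1) < |(x : L2) t| ∧ |(x : L2) t| ≤ b j
    · obtain ⟨j, hj, hj2⟩ := hex
      rw [Finset.sum_eq_single_of_mem j hj]
      · rw [ht, if_pos hj2]
        have hjpos : 1 ≤ j := by
          have := (Finset.mem_Ioc.1 hj).1
          omega
        have h3 : (4 : ℝ) ^ j ≤ G |(x : L2) t| := by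
          have h4 := hG.mono (mem_Ici.2 (zero_le_one.trans (hb1 (j - 1))))
            (mem_Ici.2 (abs_nonneg ((x : L2) t))) hj2.1.le
          rw [hb, Nat.sub_add_cancel hjpos] at h4
          exact h4
        unfold MG
        rw [sq_abs, mul_comm]
        exact mul_le_mul_of_nonneg_left h3 (sq_nonneg _)
      · intro i _ hne
        rw [ht, if_neg, zero_pow two_ne_zero, mul_zero]
        intro hi
        exact hne (pc_disj hbm hi hj2)
    · push Not at hex
      rw [Finset.sum_eq_zero]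
      · exact hMnn
      · intro j hj
        rw [ht, if_neg, zero_pow two_ne_zero, mul_zero]
        rintro ⟨h3, h4⟩
        exact absurd h4 (not_le.2 (hex j hj h3))
  rwa [← ENNReal.ofReal_one, ENNReal.ofReal_le_ofReal_iff zero_le_one] at h1

/-- Orthogonality of pieces: the square of a sum of pieces. -/
theorem piece_sum_sq {b : ℕ → ℝ} (hb : StrictMono b) {x : Linf} {y : ℕ → Linf}
    (hy : ∀ j, IsPiece b j x (y j)) (s : Finset ℕ) (hs : ∀ j ∈ s, 1 ≤ j) :
    ∫ t, ((∑ j ∈ s, y j : Linf) : L2) t ^ 2 ∂lam = ∑ j ∈ s, ∫ t, (y j : L2) t ^ 2 ∂lam := by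
  rw [← integral_finset_sum _ fun j _ => pc_int (y j)]
  refine integral_congr_ae ?_
  filter_upwards [coe_sum s y, pc_ae hy] with t h1 h2
  rw [h1]
  by_cases hex : ∃ j ∈ s, b (j - 1) < |(x : L2) t| ∧ |(x : L2) t| ≤ b j
  · obtain ⟨j, hj, hj2⟩ := hex
    have h0 : ∀ i ∈ s, i ≠ j → ((y i : Linf) : L2) t = 0 := by
      intro i _ hne
      rw [h2, if_neg]
      intro hi
      exact hne (pc_disj hb hi hj2)
    rw [Finset.sum_eq_single_of_mem j hj h0, Finset.sum_eq_single_of_mem j hj]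
    intro i hi hne
    rw [h0 i hi hne]
    simp
  · push Not at hex
    have h0 : ∀ i ∈ s, ((y i : Linf) : L2) t = 0 := by
      intro i hi
      rw [h2, if_neg]
      rintro ⟨h3, h4⟩
      exact absurd h4 (not_le.2 (hex i hi h3))
    rw [Finset.sum_eq_zero h0, Finset.sum_eq_zero]
    · simp
    · intro i hi
      rw [h0 i hi]
      simp

end

end Pool.Agent.OB9
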