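import Pool.Agent.OB9.EmC

/-!
# Module OB9/EmD

The main estimate: functions with all heights above `b_{j₀}`.

PROOF. Notation of the statement; `x` bounded: `|x| ≤ b_J` for some `J`, `x = ∑_{j₀<j≤J} x_j`,
`x_j = y j` the pieces. `ξ_j = |T x_j|/(√2 b_j)`, so `ξ_j = |T z_j|` with `z_j = x_j/(√2 b_j)`,
`z_j² ≤ 1/2`. For a.e. `t ∈ e` let `v = |T x (t)|`; if `v = 0` nothing. Let `I ≥ 0` be the block of `v`:
`I = 0` if `v ≤ b_0`, else `b_{I-1} < v ≤ b_I`; so `G(v) ≤ 4^(I+1)`. Let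
`U = |T (∑_{j > I - D} x_j)|` (sum over `j₀ < j ≤ J`, `j + D > I`), `L = ∑_{j + D ≤ I} |T x_j|`; `v ≤ U + L`.
Case `U ≥ v/2`: `M(v) = v² G(v) ≤ 4^(I+1) 4 U²`; integrating over the `t` of this case with given `I`:
`≤ 4^(I+2) ∫_e (T ∑_{j+D>I} x_j)² ≤ 4^(I+2) ε₁ ∑_{j+D>I} ∫ x_j²` (`h1`, `piece_sum_sq`); the sum over
`I ≥ 0`: `ε₁ ∑_j ∫ x_j² ∑_{I < j+D} 4^(I+2) ≤ ε₁ ∑_j 4^(j+D+2) ∫ x_j² ≤ 4^(D+2) ε₁` (`piece_sq`).
Case `L ≥ v/2`: here `I ≥ j₀ + 1 + D`, `J₁ = min (I - D) J`,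
`v ≤ 2 ∑_{j₀<j≤J₁} √2 b_j ξ_j ≤ 4 ∑ b_j ξ_j`, and `v > b_{I-1} ≥ b_{J₁+D-1}`: `lower_pt` gives
`M(v) ≤ 8 ς ∑_{j₀<j≤J} M(b_j) M(ξ_j)`; integrate:
`≤ 8 ς ∑ M(b_j) md M (T z_j) ≤ 8 ς ∑ M(b_j) K₀ ∫ x_j²/(2 b_j²) = 4 ς K₀ ∑ G(b_j) ∫ x_j² =
16 ς K₀ ∑ 4^j ∫ x_j² ≤ 16 ς K₀` (`h2`, `piece_sq`). Total `4^(D+2) ε₁ + 16 ς K₀`.
(The sum over `I` is finite for a given truncation; use `∫⁻_e M|T x| = ∑_I ∫⁻_{e ∩ {block I}}`, an
infinite sum (`lintegral_iUnion` or `tsum`), or restrict to `|T x| ≤ b_n` and let `n → ∞`.)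
-/

set_option autoImplicit false

namespace Pool.Agent.OB9

open MeasureTheory Set Filter
open scoped ENNReal Topology

noncomputable section

variable {κ : ℕ} {G : ℝ → ℝ}

private theorem emd_sum_ae (s : Finset ℕ) (g : ℕ → L2) :
    ∀ᵐ t ∂lam, (∑ j ∈ s, g j : L2) t = ∑ j ∈ s, g j t := by
  classical
  induction s using Finset.induction_on with
  | empty =>
    filter_upwards [Lp.coeFn_zero ℝ 2 lam] with t ht
    rw [Finset.sum_empty, Finset.sum_empty]
    exact ht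
  | insert a s ha ih =>
    rw [Finset.sum_insert ha]
    filter_upwards [Lp.coeFn_add (g a) (∑ j ∈ s, g j), ih] with t h1 h2
    rw [h1, Finset.sum_insert ha, Pi.add_apply, h2]

private theorem emd_int_sq (x : L2) : Integrable (fun t => x t ^ 2) lam :=
  (Lp.memLp x).integrable_sq

private theorem emd_geom (n : ℕ) : ∑ I ∈ Finset.range n, (4 : ℝ) ^ (I + 2) ≤ 4 ^ (n + 2) := by
  induction n with
  | zero => norm_num
  | succ n ih =>
    rw [Finset.sum_range_succ]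
    have h1 : (4 : ℝ) ^ (n + 1 + 2) = 4 * 4 ^ (n + 2) := by ring
    have h2 : (0 : ℝ) < 4 ^ (n + 2) := by positivity
    rw [h1]
    linarith

/-- Exchange of the two sums. -/
private theorem emd_swap (D j₀ J : ℕ) (q : ℕ → ℝ) (hq : ∀ j, 0 ≤ q j) :
    ∑ I ∈ Finset.range (J + D), (4 : ℝ) ^ (I + 2) *
      ∑ j ∈ (Finset.Ioc j₀ J).filter (fun j => I < j + D), q j ≤
        4 ^ (D + 2) * ∑ j ∈ Finset.Ioc j₀ J, 4 ^ j * q j := by
  have e1 : ∀ I, (4 : ℝ) ^ (I + 2) * ∑ j ∈ (Finset.Ioc j₀ J).filter (fun j => I < j + D), q j =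
      ∑ j ∈ Finset.Ioc j₀ J, if I < j + D then (4 : ℝ) ^ (I + 2) * q j else 0 := by
    intro I
    rw [Finset.sum_filter, Finset.mul_sum]
    refine Finset.sum_congr rfl fun j _ => ?_
    split_ifs <;> simp
  rw [Finset.sum_congr rfl fun I _ => e1 I, Finset.sum_comm, Finset.mul_sum]
  refine Finset.sum_le_sum fun j hj => ?_
  have hj2 := (Finset.mem_Ioc.1 hj).2
  have e2 : ∑ I ∈ Finset.range (J + D), (if I < j + D then (4 : ℝ) ^ (I + 2) * q j else 0) =
      (∑ I ∈ Finset.range (j + D), (4 : ℝ) ^ (I + 2)) * q j := by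
    rw [← Finset.sum_filter, Finset.sum_mul]
    refine Finset.sum_congr ?_ fun _ _ => rfl
    ext I
    simp only [Finset.mem_filter, Finset.mem_range]
    omega
  rw [e2]
  calc (∑ I ∈ Finset.range (j + D), (4 : ℝ) ^ (I + 2)) * q j ≤ 4 ^ (j + D + 2) * q j :=
        mul_le_mul_of_nonneg_right (emd_geom _) (hq j)
    _ = 4 ^ (D + 2) * (4 ^ j * q j) := by ring

/-- The pointwise bound. -/
private theorem emd_point (hG : Nice κ G) {ς N : ℝ} (h0 : 0 < ς) (hς : ς ≤ 1) (hN : 1 ≤ N)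
    (hT : ∀ (v : ℝ) (m : ℕ) (h X : ℕ → ℝ), 0 < v → Chain G N v m h X →
      ∑ i ∈ Finset.range m, h i * X i ≤ ς / 8 * v)
    {D j₀ J : ℕ} (hD : 1 ≤ D) (hDN : ς * Th G (N / ς) ≤ 4 ^ (D - 1)) {b : ℕ → ℝ}
    (hb1 : ∀ j, 1 ≤ b j) (hb : ∀ j, G (b j) = 4 ^ (j + 1)) (hbm : StrictMono b)
    (hbt : Tendsto b atTop atTop) (hbN : ∀ j, j₀ < j → N ≤ b j) {v : ℝ} (hv : 0 ≤ v)
    {U : ℕ → ℝ} {ξ : ℕ → ℝ} (hξ : ∀ j, 0 ≤ ξ j)
    (hvU : ∀ I, v ≤ U I + ∑ j ∈ (Finset.Ioc j₀ J).filter (fun j => ¬ I < j + D),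
      2 * b j * ξ j) (hU0 : ∀ I, J + D ≤ I → U I = 0) :
    MG G v ≤ ∑ I ∈ Finset.range (J + D), 4 ^ (I + 2) * U I ^ 2 +
      ∑ j ∈ Finset.Ioc j₀ J, 8 * ς * MG G (b j) * MG G (ξ j) := by
  classical
  have hMG : ∀ s, 0 ≤ s → 0 ≤ MG G s := fun s hs =>
    mul_nonneg (sq_nonneg _) (le_trans zero_le_one (hG.one_le hs))
  have hb0 : ∀ j, 0 ≤ b j := fun j => le_trans zero_le_one (hb1 j)
  have hA : 0 ≤ ∑ I ∈ Finset.range (J + D), (4 : ℝ) ^ (I + 2) * U I ^ 2 :=
    Finset.sum_nonneg fun I _ => by positivity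
  have hBj : ∀ j, 0 ≤ 8 * ς * MG G (b j) * MG G (ξ j) := fun j =>
    mul_nonneg (mul_nonneg (by positivity) (hMG _ (hb0 j))) (hMG _ (hξ j))
  have hB : 0 ≤ ∑ j ∈ Finset.Ioc j₀ J, 8 * ς * MG G (b j) * MG G (ξ j) :=
    Finset.sum_nonneg fun j _ => hBj j
  rcases hv.eq_or_lt with hv0 | hv0
  · rw [← hv0]
    have : MG G 0 = 0 := by unfold MG; ring
    rw [this]
    linarith
  have hex : ∃ I, v ≤ b I := by
    obtain ⟨I, hI⟩ := (tendsto_atTop.1 hbt v).exists
    exact ⟨I, hI⟩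
  obtain ⟨I, hI1, hI2⟩ : ∃ I, v ≤ b I ∧ ∀ m < I, b m < v := by
    refine ⟨Nat.find hex, Nat.find_spec hex, fun m hm => ?_⟩
    have := Nat.find_min hex hm
    push Not at this
    exact this
  have hGv : G v ≤ 4 ^ (I + 1) := by
    rw [← hb I]
    exact hG.mono (show v ∈ Ici 0 from hv) (show b I ∈ Ici 0 from hb0 I) hI1
  by_cases hc : I < J + D ∧ v ≤ 2 * U I
  · obtain ⟨hc1, hc2⟩ := hc
    have e1 : MG G v ≤ 4 ^ (I + 2) * U I ^ 2 := by
      unfold MG
      calc v ^ 2 * G v ≤ (2 * U I) ^ 2 * 4 ^ (I + 1) := by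
            apply mul_le_mul (pow_le_pow_left₀ hv hc2 2) hGv
              (le_trans zero_le_one (hG.one_le hv)) (by positivity)
        _ = 4 ^ (I + 2) * U I ^ 2 := by ring
    have e2 : (4 : ℝ) ^ (I + 2) * U I ^ 2 ≤
        ∑ I ∈ Finset.range (J + D), (4 : ℝ) ^ (I + 2) * U I ^ 2 :=
      Finset.single_le_sum (f := fun I => (4 : ℝ) ^ (I + 2) * U I ^ 2)
        (fun I _ => by positivity) (Finset.mem_range.2 hc1)
    linarith
  · have hUv : 2 * U I < v := by
      by_cases hc1 : I < J + D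
      · by_contra hcon
        exact hc ⟨hc1, not_lt.1 hcon⟩
      · rw [hU0 I (not_lt.1 hc1), mul_zero]
        exact hv0
    have e1 : v ≤ 4 * ∑ j ∈ (Finset.Ioc j₀ J).filter (fun j => ¬ I < j + D), b j * ξ j := by
      have e2 := hvU I
      have e3 : ∑ j ∈ (Finset.Ioc j₀ J).filter (fun j => ¬ I < j + D), 2 * b j * ξ j =
          2 * ∑ j ∈ (Finset.Ioc j₀ J).filter (fun j => ¬ I < j + D), b j * ξ j := by
        rw [Finset.mul_sum]
        refine Finset.sum_congr rfl fun j _ => ?_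
        ring
      rw [e3] at e2
      linarith
    have hDI : D ≤ I := by
      by_contra hcon
      have : (Finset.Ioc j₀ J).filter (fun j => ¬ I < j + D) = ∅ := by
        rw [Finset.filter_eq_empty_iff]
        intro j hj
        rw [Finset.mem_Ioc] at hj
        omega
      rw [this, Finset.sum_empty, mul_zero] at e1
      linarith
    have hset : (Finset.Ioc j₀ J).filter (fun j => ¬ I < j + D) =
        Finset.Ioc j₀ (min (I - D) J) := by
      ext j
      simp only [Finset.mem_filter, Finset.mem_Ioc, le_min_iff]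
      omega
    rw [hset] at e1
    have hlow := lower_pt hG h0 hς hN hT (j₀ := j₀) (J₁ := min (I - D) J) hD hDN hb0 hb hbN hξ
      hv0 (by
        refine lt_of_le_of_lt (hbm.monotone (?_ : min (I - D) J + D - 1 ≤ I - 1))
          (hI2 (I - 1) (by omega))
        have := min_le_left (I - D) J
        omega) e1
    refine hlow.trans ?_
    have e4 : 8 * ς * ∑ j ∈ Finset.Ioc j₀ (min (I - D) J), MG G (b j) * MG G (ξ j) ≤
        ∑ j ∈ Finset.Ioc j₀ J, 8 * ς * MG G (b j) * MG G (ξ j) := by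
      rw [Finset.mul_sum]
      calc ∑ j ∈ Finset.Ioc j₀ (min (I - D) J), 8 * ς * (MG G (b j) * MG G (ξ j))
          = ∑ j ∈ Finset.Ioc j₀ (min (I - D) J), 8 * ς * MG G (b j) * MG G (ξ j) :=
            Finset.sum_congr rfl fun j _ => by ring
        _ ≤ _ := Finset.sum_le_sum_of_subset_of_nonneg
            (Finset.Ioc_subset_Ioc_right (min_le_right _ _)) fun j _ _ => hBj j
    linarith

theorem em_main (hG : Nice κ G) (T : Linf →ₗ[ℝ] L2) {K₀ ε₁ ς N : ℝ} (hK : 0 < K₀)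
    (hε : 0 < ε₁) (h0 : 0 < ς) (hς : ς ≤ 1) (hN : 1 ≤ N)
    (hT : ∀ (v : ℝ) (m : ℕ) (h X : ℕ → ℝ), 0 < v → Chain G N v m h X →
      ∑ i ∈ Finset.range m, h i * X i ≤ ς / 8 * v)
    {D j₀ : ℕ} (hD : 1 ≤ D) (hDN : ς * Th G (N / ς) ≤ 4 ^ (D - 1)) {b : ℕ → ℝ}
    (hb1 : ∀ j, 1 ≤ b j) (hb : ∀ j, G (b j) = 4 ^ (j + 1)) (hbm : StrictMono b)
    (hbt : Tendsto b atTop atTop) (hbN : ∀ j, j₀ < j → N ≤ b j) {e f : Set ℝ}
    (he : MeasurableSet e) (hf : MeasurableSet f)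
    (h1 : ∀ z : Linf, (∀ᵐ t ∂lam, t ∉ f → (z : L2) t = 0) →
      ∫ t in e, (T z) t ^ 2 ∂lam ≤ ε₁ * ∫ t, (z : L2) t ^ 2 ∂lam)
    (h2 : ∀ z : Linf, (∀ᵐ t ∂lam, t ∉ f → (z : L2) t = 0) →
      (∀ᵐ t ∂lam, (z : L2) t ^ 2 ≤ 1 / 2) →
      md (MG G) (T z) ≤ ENNReal.ofReal (K₀ * ∫ t, (z : L2) t ^ 2 ∂lam))
    {x : Linf} (hxf : ∀ᵐ t ∂lam, t ∉ f → (x : L2) t = 0) (hx : md (MG G) (x : L2) ≤ 1)
    (hxb : ∀ᵐ t ∂lam, (x : L2) t = 0 ∨ b j₀ < |(x : L2) t|) :
    md (MG G) (fun t => e.indicator (fun s => (T x) s) t) ≤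
      ENNReal.ofReal (4 ^ (D + 2) * ε₁ + 16 * ς * K₀) := by
  classical
  have hM := hG.qorl
  have hb0 : ∀ j, 0 < b j := fun j => lt_of_lt_of_le one_pos (hb1 j)
  have hMG : ∀ s, 0 ≤ s → 0 ≤ MG G s := fun s hs => hM.nonneg hs
  -- the level `J`
  obtain ⟨R, hR⟩ := x.2
  obtain ⟨J, hJ1, hJ2⟩ : ∃ J, j₀ ≤ J ∧ R ≤ b J := by
    obtain ⟨J, hJ⟩ := ((tendsto_atTop.1 hbt R).and (eventually_ge_atTop j₀)).exists
    exact ⟨J, hJ.2, hJ.1⟩
  have hxJ : ∀ᵐ t ∂lam, |(x : L2) t| ≤ b J := by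
    filter_upwards [hR] with t ht
    exact ht.trans hJ2
  -- the pieces
  have hpe := fun j => exists_piece b j x
  choose y hy using hpe
  have hsum := piece_sum hbm hJ1 hy hxb hxJ
  have hsq := piece_sq hG hb1 hb hbm (j₀ := j₀) (J := J) hy hx
  set q : ℕ → ℝ := fun j => ∫ t, (y j : L2) t ^ 2 ∂lam with hq
  have hq0 : ∀ j, 0 ≤ q j := fun j => integral_nonneg fun t => sq_nonneg _
  have hyf : ∀ j, ∀ᵐ t ∂lam, t ∉ f → (y j : L2) t = 0 := by
    intro j
    filter_upwards [hy j, hxf] with t ht1 ht2 htf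
    rw [ht1, ht2 htf]
    split_ifs <;> rfl
  have hyb : ∀ j, ∀ᵐ t ∂lam, |(y j : L2) t| ≤ b j := by
    intro j
    filter_upwards [hy j] with t ht1
    rw [ht1]
    split_ifs with h3
    · exact h3.2
    · rw [abs_zero]
      exact (hb0 j).le
  -- upper parts
  set S : ℕ → Finset ℕ := fun I => (Finset.Ioc j₀ J).filter (fun j => I < j + D) with hS
  set Lw : ℕ → Finset ℕ := fun I => (Finset.Ioc j₀ J).filter (fun j => ¬ I < j + D) with hLw
  set u : ℕ → Linf := fun I => ∑ j ∈ S I, y j with hu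
  have huf : ∀ I, ∀ᵐ t ∂lam, t ∉ f → (u I : L2) t = 0 := by
    intro I
    have h3 : ∀ᵐ t ∂lam, ∀ j, t ∉ f → (y j : L2) t = 0 := ae_all_iff.2 hyf
    filter_upwards [emd_sum_ae (S I) fun j => (y j : L2), h3] with t ht1 ht2 htf
    have h4 : ((u I : Linf) : L2) = ∑ j ∈ S I, (y j : L2) := by
      simp only [hu]
      exact Submodule.coe_sum _ _ _
    rw [h4, ht1]
    exact Finset.sum_eq_zero fun j _ => ht2 j htf
  have husq : ∀ I, ∫ t, (u I : L2) t ^ 2 ∂lam = ∑ j ∈ S I, q j := by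
    intro I
    exact piece_sum_sq hbm hy (S I) fun j hj => by
      simp only [hS, Finset.mem_filter, Finset.mem_Ioc] at hj
      omega
  have hTu : ∀ I, ∫ t in e, (T (u I)) t ^ 2 ∂lam ≤ ε₁ * ∑ j ∈ S I, q j := by
    intro I
    rw [← husq I]
    exact h1 (u I) (huf I)
  -- scaled pieces
  set c : ℕ → ℝ := fun j => 1 / (2 * b j) with hc
  have hc0 : ∀ j, 0 < c j := fun j => by
    have := hb0 j
    simp only [hc]
    positivity
  set z : ℕ → Linf := fun j => c j • y j with hz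
  have hzy : ∀ j, ∀ᵐ t ∂lam, (z j : L2) t = c j * (y j : L2) t := by
    intro j
    filter_upwards [Lp.coeFn_smul (c j) (y j : L2)] with t ht
    have h3 : ((z j : Linf) : L2) = c j • (y j : L2) := rfl
    rw [h3, ht]
    rfl
  have hTz : ∀ j, ∀ᵐ t ∂lam, (T (z j)) t = c j * (T (y j)) t := by
    intro j
    simp only [hz]
    rw [map_smul]
    filter_upwards [Lp.coeFn_smul (c j) (T (y j))] with t ht
    rw [ht]
    rfl
  have hzq : ∀ j, ∫ t, (z j : L2) t ^ 2 ∂lam = c j ^ 2 * q j := by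
    intro j
    simp only [hq]
    rw [← integral_const_mul]
    refine integral_congr_ae ?_
    filter_upwards [hzy j] with t ht
    rw [ht]
    ring
  have hmdz : ∀ j, md (MG G) (T (z j)) ≤ ENNReal.ofReal (K₀ * (c j ^ 2 * q j)) := by
    intro j
    rw [← hzq j]
    refine h2 (z j) ?_ ?_
    · filter_upwards [hzy j, hyf j] with t ht1 ht2 htf
      rw [ht1, ht2 htf, mul_zero]
    · filter_upwards [hzy j, hyb j] with t ht1 ht2
      rw [ht1, mul_pow, ← sq_abs ((y j : L2) t)]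
      have h3 : |(y j : L2) t| ^ 2 ≤ b j ^ 2 := pow_le_pow_left₀ (abs_nonneg _) ht2 2
      have h4 : c j ^ 2 * b j ^ 2 = 1 / 4 := by
        simp only [hc]
        have := (hb0 j).ne'
        field_simp
        norm_num
      calc c j ^ 2 * |(y j : L2) t| ^ 2 ≤ c j ^ 2 * b j ^ 2 :=
            mul_le_mul_of_nonneg_left h3 (sq_nonneg _)
        _ ≤ 1 / 2 := by rw [h4]; norm_num
  -- decomposition of `T x`
  have hdec : ∀ I, T x = T (u I) + ∑ j ∈ Lw I, T (y j) := by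
    intro I
    rw [← map_sum, ← map_add]
    congr 1
    rw [hsum]
    simp only [hu, hS, hLw]
    exact (Finset.sum_filter_add_sum_filter_not _ _ _).symm
  have hdec' : ∀ᵐ t ∂lam, ∀ I, (T x) t = (T (u I)) t + ∑ j ∈ Lw I, (T (y j)) t := by
    rw [ae_all_iff]
    intro I
    filter_upwards [Lp.coeFn_add (T (u I)) (∑ j ∈ Lw I, T (y j)),
      emd_sum_ae (Lw I) fun j => T (y j)] with t ht1 ht2
    rw [hdec I, ht1, Pi.add_apply, ht2]
  have hu0 : ∀ I, J + D ≤ I → u I = 0 := by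
    intro I hI
    simp only [hu]
    have : S I = ∅ := by
      simp only [hS]
      rw [Finset.filter_eq_empty_iff]
      intro j hj
      rw [Finset.mem_Ioc] at hj
      omega
    rw [this, Finset.sum_empty]
  have hTu0 : ∀ᵐ t ∂lam, ∀ I, J + D ≤ I → (T (u I)) t = 0 := by
    filter_upwards [Lp.coeFn_zero ℝ 2 lam] with t ht I hI
    rw [hu0 I hI, map_zero]
    exact ht
  have hTz' : ∀ᵐ t ∂lam, ∀ j, (T (z j)) t = c j * (T (y j)) t := ae_all_iff.2 hTz
  -- pointwise bound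
  have hpt : ∀ᵐ t ∂lam, MG G |e.indicator (fun s => (T x) s) t| ≤
      (∑ I ∈ Finset.range (J + D), 4 ^ (I + 2) * e.indicator (fun s => (T (u I)) s ^ 2) t) +
        ∑ j ∈ Finset.Ioc j₀ J, 8 * ς * MG G (b j) * MG G |(T (z j)) t| := by
    filter_upwards [hdec', hTu0, hTz'] with t ht1 ht2 ht3
    have hBj : 0 ≤ ∑ j ∈ Finset.Ioc j₀ J, 8 * ς * MG G (b j) * MG G |(T (z j)) t| :=
      Finset.sum_nonneg fun j _ => mul_nonneg (mul_nonneg (by positivity) (hMG _ (hb0 j).le))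
        (hMG _ (abs_nonneg _))
    by_cases hte : t ∈ e
    · simp only [indicator_of_mem hte]
      have := emd_point hG h0 hς hN hT (j₀ := j₀) (J := J) hD hDN hb1 hb hbm hbt hbN
        (v := |(T x) t|) (abs_nonneg _) (U := fun I => |(T (u I)) t|)
        (ξ := fun j => |(T (z j)) t|) (fun j => abs_nonneg _) ?_ ?_
      · simp only [sq_abs] at this
        exact this
      · intro I
        rw [ht1 I]
        refine (abs_add_le _ _).trans ?_
        have h3 : |∑ j ∈ Lw I, (T (y j)) t| ≤ ∑ j ∈ Lw I, |(T (y j)) t| :=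
          Finset.abs_sum_le_sum_abs _ _
        have h4 : ∑ j ∈ Lw I, |(T (y j)) t| = ∑ j ∈ Lw I, 2 * b j * |(T (z j)) t| := by
          refine Finset.sum_congr rfl fun j _ => ?_
          rw [ht3 j, abs_mul, abs_of_pos (hc0 j), ← mul_assoc]
          have h5 : 2 * b j * c j = 1 := by
            simp only [hc]
            have := (hb0 j).ne'
            field_simp
          rw [h5, one_mul]
        simp only [hLw] at h3 h4 ⊢
        linarith
      · intro I hI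
        show |(T (u I)) t| = 0
        rw [ht2 I hI, abs_zero]
    · simp only [indicator_of_notMem hte, abs_zero, mul_zero, Finset.sum_const_zero, zero_add]
      rw [hM.zero]
      exact hBj
  -- integration
  have hmeasT : ∀ w : Linf, AEMeasurable (fun t => (T w) t) lam := fun w =>
    (Lp.aestronglyMeasurable (T w)).aemeasurable
  have hintI : ∀ I, Integrable (fun t => e.indicator (fun s => (T (u I)) s ^ 2) t) lam :=
    fun I => (emd_int_sq (T (u I))).indicator he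
  have hintA : Integrable (fun t => ∑ I ∈ Finset.range (J + D),
      (4 : ℝ) ^ (I + 2) * e.indicator (fun s => (T (u I)) s ^ 2) t) lam :=
    integrable_finsetSum _ fun I _ => (hintI I).const_mul _
  have hA0 : ∀ t, 0 ≤ ∑ I ∈ Finset.range (J + D),
      (4 : ℝ) ^ (I + 2) * e.indicator (fun s => (T (u I)) s ^ 2) t := fun t =>
    Finset.sum_nonneg fun I _ => mul_nonneg (by positivity)
      (indicator_nonneg (fun s _ => sq_nonneg _) t)
  have hA : ∫⁻ t, ENNReal.ofReal (∑ I ∈ Finset.range (J + D),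
      (4 : ℝ) ^ (I + 2) * e.indicator (fun s => (T (u I)) s ^ 2) t) ∂lam ≤
        ENNReal.ofReal (4 ^ (D + 2) * ε₁) := by
    rw [← ofReal_integral_eq_lintegral_ofReal hintA (Eventually.of_forall hA0)]
    refine ENNReal.ofReal_le_ofReal ?_
    rw [integral_finsetSum _ fun I _ => (hintI I).const_mul _]
    calc ∑ I ∈ Finset.range (J + D), ∫ t, (4 : ℝ) ^ (I + 2) *
          e.indicator (fun s => (T (u I)) s ^ 2) t ∂lam
        = ∑ I ∈ Finset.range (J + D), (4 : ℝ) ^ (I + 2) * ∫ t in e, (T (u I)) t ^ 2 ∂lam := by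
          refine Finset.sum_congr rfl fun I _ => ?_
          rw [integral_const_mul, integral_indicator he]
      _ ≤ ∑ I ∈ Finset.range (J + D), (4 : ℝ) ^ (I + 2) * (ε₁ * ∑ j ∈ S I, q j) :=
          Finset.sum_le_sum fun I _ => mul_le_mul_of_nonneg_left (hTu I) (by positivity)
      _ = ε₁ * ∑ I ∈ Finset.range (J + D), (4 : ℝ) ^ (I + 2) * ∑ j ∈ S I, q j := by
          rw [Finset.mul_sum]
          refine Finset.sum_congr rfl fun I _ => ?_
          ring
      _ ≤ ε₁ * (4 ^ (D + 2) * ∑ j ∈ Finset.Ioc j₀ J, 4 ^ j * q j) :=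
          mul_le_mul_of_nonneg_left (emd_swap D j₀ J q hq0) hε.le
      _ ≤ ε₁ * (4 ^ (D + 2) * 1) := by gcongr
      _ = 4 ^ (D + 2) * ε₁ := by ring
  have hB : ∫⁻ t, ENNReal.ofReal (∑ j ∈ Finset.Ioc j₀ J,
      8 * ς * MG G (b j) * MG G |(T (z j)) t|) ∂lam ≤ ENNReal.ofReal (16 * ς * K₀) := by
    have hcoef : ∀ j, 0 ≤ 8 * ς * MG G (b j) := fun j =>
      mul_nonneg (by positivity) (hMG _ (hb0 j).le)
    calc ∫⁻ t, ENNReal.ofReal (∑ j ∈ Finset.Ioc j₀ J,
          8 * ς * MG G (b j) * MG G |(T (z j)) t|) ∂lam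
        = ∫⁻ t, ∑ j ∈ Finset.Ioc j₀ J, ENNReal.ofReal (8 * ς * MG G (b j)) *
            ENNReal.ofReal (MG G |(T (z j)) t|) ∂lam := by
          refine lintegral_congr fun t => ?_
          rw [ENNReal.ofReal_sum_of_nonneg fun j _ =>
            mul_nonneg (hcoef j) (hMG _ (abs_nonneg _))]
          refine Finset.sum_congr rfl fun j _ => ?_
          rw [ENNReal.ofReal_mul (hcoef j)]
      _ = ∑ j ∈ Finset.Ioc j₀ J, ENNReal.ofReal (8 * ς * MG G (b j)) * md (MG G) (T (z j)) := by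
          rw [lintegral_finsetSum']
          · refine Finset.sum_congr rfl fun j _ => ?_
            rw [lintegral_const_mul' _ _ ENNReal.ofReal_ne_top]
            rfl
          · intro j _
            exact (ENNReal.measurable_ofReal.comp_aemeasurable
              (hM.meas.comp_aemeasurable (hmeasT (z j)))).const_mul _
      _ ≤ ∑ j ∈ Finset.Ioc j₀ J, ENNReal.ofReal (8 * ς * K₀ * (4 ^ j * q j)) := by
          refine Finset.sum_le_sum fun j _ => ?_
          refine (mul_le_mul_right (hmdz j) _).trans ?_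
          rw [← ENNReal.ofReal_mul (hcoef j)]
          refine ENNReal.ofReal_le_ofReal (le_of_eq ?_)
          have h3 : MG G (b j) = b j ^ 2 * 4 ^ (j + 1) := by unfold MG; rw [hb]
          rw [h3]
          simp only [hc]
          have := (hb0 j).ne'
          field_simp
          ring
      _ = ENNReal.ofReal (∑ j ∈ Finset.Ioc j₀ J, 8 * ς * K₀ * (4 ^ j * q j)) := by
          rw [ENNReal.ofReal_sum_of_nonneg fun j _ => ?_]
          have := hq0 j
          positivity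
      _ ≤ ENNReal.ofReal (16 * ς * K₀) := by
          refine ENNReal.ofReal_le_ofReal ?_
          rw [← Finset.mul_sum]
          have h3 : 8 * ς * K₀ * ∑ j ∈ Finset.Ioc j₀ J, (4 : ℝ) ^ j * q j ≤ 8 * ς * K₀ * 1 :=
            mul_le_mul_of_nonneg_left hsq (by positivity)
          have h4 : 0 < ς * K₀ := by positivity
          linarith
  calc md (MG G) (fun t => e.indicator (fun s => (T x) s) t)
      ≤ ∫⁻ t, (ENNReal.ofReal (∑ I ∈ Finset.range (J + D),
            (4 : ℝ) ^ (I + 2) * e.indicator (fun s => (T (u I)) s ^ 2) t) +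
          ENNReal.ofReal (∑ j ∈ Finset.Ioc j₀ J,
            8 * ς * MG G (b j) * MG G |(T (z j)) t|)) ∂lam := by
        refine lintegral_mono_ae ?_
        filter_upwards [hpt] with t ht
        rw [← ENNReal.ofReal_add (hA0 t)]
        · exact ENNReal.ofReal_le_ofReal ht
        · exact Finset.sum_nonneg fun j _ => mul_nonneg
            (mul_nonneg (by positivity) (hMG _ (hb0 j).le)) (hMG _ (abs_nonneg _))
    _ = ∫⁻ t, ENNReal.ofReal (∑ I ∈ Finset.range (J + D),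
            (4 : ℝ) ^ (I + 2) * e.indicator (fun s => (T (u I)) s ^ 2) t) ∂lam +
          ∫⁻ t, ENNReal.ofReal (∑ j ∈ Finset.Ioc j₀ J,
            8 * ς * MG G (b j) * MG G |(T (z j)) t|) ∂lam :=
        lintegral_add_left' (ENNReal.measurable_ofReal.comp_aemeasurable
          hintA.aestronglyMeasurable.aemeasurable) _
    _ ≤ ENNReal.ofReal (4 ^ (D + 2) * ε₁) + ENNReal.ofReal (16 * ς * K₀) := add_le_add hA hB
    _ = ENNReal.ofReal (4 ^ (D + 2) * ε₁ + 16 * ς * K₀) := by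
        rw [ENNReal.ofReal_add (by positivity) (by positivity)]

end

end Pool.Agent.OB9
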