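import Pool.Agent.OB9.EmD

/-!
# Module OB9/EmE

`ThinG G` implies `Triv (MG G)`.

PROOF. Let `T`, `K`, `c > 0` be given (wlog `c ≤ 1`), `q = (1/c)^(κ+2)`, so `M(t/c) ≤ q M(t)`
(`MG_mul_le`), and `η = 1/(4 q 2^(κ+2))`. `K₀` from `em12`. Choose `ς ≤ 1` with `16 ς K₀ ≤ η/2`, `N` from
`ThinG` with `ε = ς/8`, `D ≥ 1` with `4^(D-1) ≥ ς Th(N/ς)`, `ε₁` with `4^(D+2) ε₁ ≤ η/2`, then `e`,
`f₀` from `em12`, the levels `b_j` (`levels4`) and `j₀` with `b_{j₀} ≥ N`. Let `f ⊆ f₀` be measurable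
with `0 < lam f` so small that `(√2 b_{j₀})^(κ+2) K₀ lam f ≤ η` (non-atomic: `f₀ ∩ [0,s]`,
intermediate value, or use the intersection with a small dyadic interval). Let `x` be bounded,
supported in `f`, `md M x ≤ 1`, `x = x_L + x_H`, `x_L = x 1_{|x| ≤ b_{j₀}}`. `x_H`: `em_main` gives
`md M (1_e T x_H) ≤ η`. `x_L`: `z = x_L/(√2 b_{j₀})`, `z² ≤ 1/2`, `md M (T z) ≤ K₀ ∫ z² ≤ K₀ lam f` and
`md M (T x_L) ≤ (√2 b_{j₀})^(κ+2) K₀ lam f ≤ η`. So `md M (1_e T x) ≤ 2^(κ+2) (md M (1_e T x_L) +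
md M (1_e T x_H)) ≤ 2^(κ+2) 2 η ≤ 1/q` and `md M (1_e T x/c) ≤ 1`.
-/

set_option autoImplicit false

namespace Pool.Agent.OB9

open MeasureTheory Set Filter
open scoped ENNReal Topology

noncomputable section

variable {κ : ℕ} {G : ℝ → ℝ}

private theorem eme_scale (hG : Nice κ G) {c : ℝ} (hc : 1 ≤ c) (x : ℝ → ℝ) :
    md (MG G) (fun t => c * x t) ≤ ENNReal.ofReal (c ^ (κ + 2)) * md (MG G) x := by
  unfold md
  rw [← lintegral_const_mul' _ _ ENNReal.ofReal_ne_top]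
  refine lintegral_mono fun t => ?_
  rw [← ENNReal.ofReal_mul (by positivity), abs_mul, abs_of_nonneg (by linarith : (0 : ℝ) ≤ c)]
  exact ENNReal.ofReal_le_ofReal (hG.MG_mul_le hc (abs_nonneg _))

private theorem eme_small {f : Set ℝ} (hf : MeasurableSet f) (h0 : lam f ≠ 0) {s : ℝ}
    (hs : 0 < s) : ∃ g : Set ℝ, MeasurableSet g ∧ g ⊆ f ∧ lam g ≠ 0 ∧
      lam g ≤ ENNReal.ofReal s := by
  by_contra hcon
  push Not at hcon
  have h1 : ∀ n : ℤ, lam (f ∩ Ico ((n : ℝ) * s) (((n : ℝ) + 1) * s)) = 0 := by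
    intro n
    by_contra hne
    have h2 := hcon _ (hf.inter measurableSet_Ico) inter_subset_left hne
    have h3 : lam (f ∩ Ico ((n : ℝ) * s) (((n : ℝ) + 1) * s)) ≤ ENNReal.ofReal s := by
      refine (measure_mono inter_subset_right).trans ?_
      refine (Measure.restrict_apply_le _ _).trans ?_
      rw [Real.volume_Ico]
      exact le_of_eq (by congr 1; ring)
    exact absurd h3 (not_le.2 h2)
  have h2 : f ⊆ ⋃ n : ℤ, f ∩ Ico ((n : ℝ) * s) (((n : ℝ) + 1) * s) := by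
    intro x hx
    rw [mem_iUnion]
    refine ⟨⌊x / s⌋, hx, ?_, ?_⟩
    · have h3 := Int.floor_le (x / s)
      rwa [le_div_iff₀ hs] at h3
    · have h3 := Int.lt_floor_add_one (x / s)
      rwa [div_lt_iff₀ hs] at h3
  exact h0 (measure_mono_null h2 (measure_iUnion_null h1))

theorem triv_of_thin (hG : Nice κ G) (hT : ThinG G) : Triv (MG G) := by
  intro T K hTK c hc
  have hM := hG.qorl
  -- constants
  obtain ⟨c1, hc1⟩ : ∃ c1, c1 = min c 1 := ⟨_, rfl⟩
  have hc10 : 0 < c1 := by rw [hc1]; exact lt_min hc one_pos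
  have hc11 : c1 ≤ 1 := by rw [hc1]; exact min_le_right _ _
  have hc1c : c1 ≤ c := by rw [hc1]; exact min_le_left _ _
  have hci : 1 ≤ 1 / c1 := by rw [le_div_iff₀ hc10]; linarith
  obtain ⟨q, hq⟩ : ∃ q, q = (1 / c1) ^ (κ + 2) := ⟨_, rfl⟩
  have hq0 : 0 < q := by rw [hq]; positivity
  obtain ⟨η, hη⟩ : ∃ η : ℝ, η = 1 / (2 * q * 2 ^ (κ + 2)) := ⟨_, rfl⟩
  have hη0 : 0 < η := by rw [hη]; positivity
  have hηq : q * (2 ^ (κ + 2) * (2 * η)) = 1 := by rw [hη]; field_simp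
  obtain ⟨K₀, hK₀, hem⟩ := em12 hG T hTK
  obtain ⟨ς, hςd⟩ : ∃ ς : ℝ, ς = min 1 (η / (32 * K₀)) := ⟨_, rfl⟩
  have hς0 : 0 < ς := by rw [hςd]; exact lt_min one_pos (by positivity)
  have hς1 : ς ≤ 1 := by rw [hςd]; exact min_le_left _ _
  have hς2 : 16 * ς * K₀ ≤ η / 2 := by
    have h1 : ς ≤ η / (32 * K₀) := by rw [hςd]; exact min_le_right _ _
    rw [le_div_iff₀ (by positivity)] at h1
    linarith
  obtain ⟨N, hN, hchain⟩ := hT (ς / 8) (by positivity)
  obtain ⟨n, hn⟩ := pow_unbounded_of_one_lt (ς * Th G (N / ς)) (by norm_num : (1 : ℝ) < 4)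
  obtain ⟨D, hD⟩ : ∃ D, D = n + 1 := ⟨_, rfl⟩
  have hD1 : 1 ≤ D := by omega
  have hDN : ς * Th G (N / ς) ≤ 4 ^ (D - 1) := by
    rw [hD, Nat.add_sub_cancel]
    exact hn.le
  obtain ⟨ε₁, hε₁⟩ : ∃ ε₁ : ℝ, ε₁ = η / (2 * 4 ^ (D + 2)) := ⟨_, rfl⟩
  have hε₁0 : 0 < ε₁ := by rw [hε₁]; positivity
  have hε₁e : 4 ^ (D + 2) * ε₁ = η / 2 := by rw [hε₁]; field_simp
  obtain ⟨e, f₀, he, hf₀, he0, hf₀0, h1, h2⟩ := hem ε₁ hε₁0
  obtain ⟨b, hb1, hb, hbm, hbt⟩ := levels4 hG
  obtain ⟨j₀, hj₀⟩ := eventually_atTop.1 (hbt.eventually_ge_atTop N)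
  obtain ⟨B, hB⟩ : ∃ B : ℝ, B = Real.sqrt 2 * b j₀ := ⟨_, rfl⟩
  have hsq : (1 : ℝ) ≤ Real.sqrt 2 := by
    rw [show (1 : ℝ) = Real.sqrt 1 by simp]
    exact Real.sqrt_le_sqrt (by norm_num)
  have hbj := hb1 j₀
  have hB1 : 1 ≤ B := by rw [hB]; nlinarith
  have hB0 : 0 < B := by linarith
  have hB2 : B ^ 2 = 2 * b j₀ ^ 2 := by
    rw [hB, mul_pow, Real.sq_sqrt (by norm_num)]
  obtain ⟨s, hs⟩ : ∃ s : ℝ, s = η / (B ^ (κ + 2) * K₀) := ⟨_, rfl⟩
  have hs0 : 0 < s := by rw [hs]; positivity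
  have hse : B ^ (κ + 2) * (K₀ * s) = η := by rw [hs]; field_simp
  obtain ⟨f, hf, hff, hf0, hfs⟩ := eme_small hf₀ hf₀0 hs0
  refine ⟨e, f, he, hf, he0, hf0, ?_⟩
  intro x hxf hx
  -- splitting of `x`
  obtain ⟨R, hR⟩ := x.2
  obtain ⟨xH, hxH⟩ := exists_piece (fun j => if j = 0 then b j₀ else max R (b j₀)) 1 x
  have hH : ∀ᵐ t ∂lam, (xH : L2) t = if b j₀ < |(x : L2) t| then (x : L2) t else 0 := by
    filter_upwards [hxH, hR] with t ht1 ht2
    rw [ht1]
    have h3 : |(x : L2) t| ≤ max R (b j₀) := ht2.trans (le_max_left _ _)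
    simp [h3]
  obtain ⟨xL, hxL⟩ : ∃ xL : Linf, xL = x - xH := ⟨_, rfl⟩
  have hL : ∀ᵐ t ∂lam, (xL : L2) t = if b j₀ < |(x : L2) t| then 0 else (x : L2) t := by
    have h3 : (xL : L2) = (x : L2) - (xH : L2) := by rw [hxL]; rfl
    rw [h3]
    filter_upwards [Lp.coeFn_sub (x : L2) (xH : L2), hH] with t ht1 ht2
    rw [ht1, Pi.sub_apply, ht2]
    split_ifs <;> simp
  have hsum : x = xL + xH := by rw [hxL]; abel
  -- the high part
  have hHmd : md (MG G) (xH : L2) ≤ 1 := by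
    refine le_trans (md_mono hM ?_) hx
    filter_upwards [hH] with t ht
    rw [ht]
    split_ifs
    · exact le_rfl
    · simp
  have hHmain := em_main hG T hK₀ hε₁0 hς0 hς1 hN hchain hD1 hDN hb1 hb hbm hbt
    (fun j hj => hj₀ j hj.le) he hf₀ h1 h2 (x := xH)
    (by
      filter_upwards [hH, hxf] with t ht1 ht2 ht3
      rw [ht1, ht2 (fun h => ht3 (hff h))]
      simp) hHmd
    (by
      filter_upwards [hH] with t ht
      rw [ht]
      split_ifs with h3
      · exact Or.inr h3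
      · exact Or.inl rfl)
  have hHη : md (MG G) (fun t => e.indicator (fun s => (T xH) s) t) ≤ ENNReal.ofReal η := by
    refine hHmain.trans (ENNReal.ofReal_le_ofReal ?_)
    linarith
  -- the low part
  obtain ⟨z, hz⟩ : ∃ z : Linf, z = (1 / B) • xL := ⟨_, rfl⟩
  have hzt : ∀ᵐ t ∂lam, (z : L2) t = 1 / B * (xL : L2) t := by
    have h3 : (z : L2) = (1 / B) • (xL : L2) := by rw [hz]; rfl
    rw [h3]
    filter_upwards [Lp.coeFn_smul (1 / B) (xL : L2)] with t ht
    rw [ht, Pi.smul_apply, smul_eq_mul]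
  have hz2 : ∀ᵐ t ∂lam, (z : L2) t ^ 2 ≤ 1 / 2 := by
    filter_upwards [hzt, hL] with t ht1 ht2
    rw [ht1, ht2]
    split_ifs with h3
    · norm_num
    · push Not at h3
      have h4 : (x : L2) t ^ 2 ≤ b j₀ ^ 2 := by
        rw [← sq_abs]
        exact pow_le_pow_left₀ (abs_nonneg _) h3 2
      have h5 : 0 < B ^ 2 := by positivity
      rw [mul_pow, div_pow, one_pow, div_mul_eq_mul_div, one_mul, div_le_iff₀ h5, hB2]
      linarith
  have hzf : ∀ᵐ t ∂lam, t ∉ f → (z : L2) t = 0 := by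
    filter_upwards [hzt, hL, hxf] with t ht1 ht2 ht3 ht4
    rw [ht1, ht2, ht3 ht4]
    simp
  have hzi : ∫ t, (z : L2) t ^ 2 ∂lam ≤ s := by
    have h3 : ∫ t, (z : L2) t ^ 2 ∂lam ≤ ∫ t, f.indicator (fun _ => (1 : ℝ)) t ∂lam := by
      refine integral_mono_of_nonneg (Eventually.of_forall fun t => sq_nonneg _)
        ((integrable_const (1 : ℝ)).indicator hf) ?_
      filter_upwards [hz2, hzf] with t ht1 ht2
      by_cases h4 : t ∈ f
      · rw [indicator_of_mem h4]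
        linarith
      · rw [indicator_of_notMem h4, ht2 h4]
        simp
    refine h3.trans ?_
    rw [integral_indicator_const _ hf, smul_eq_mul, mul_one]
    exact ENNReal.toReal_le_of_le_ofReal hs0.le hfs
  have hTz : md (MG G) (T z) ≤ ENNReal.ofReal (K₀ * s) := by
    refine (h2 z ?_ hz2).trans (ENNReal.ofReal_le_ofReal (mul_le_mul_of_nonneg_left hzi hK₀.le))
    filter_upwards [hzf] with t ht1 ht2
    exact ht1 fun h => ht2 (hff h)
  have hTL : T xL = B • T z := by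
    rw [hz, map_smul, smul_smul]
    rw [mul_one_div_cancel hB0.ne', one_smul]
  have hLη : md (MG G) (T xL) ≤ ENNReal.ofReal η := by
    have h3 : md (MG G) (T xL) = md (MG G) (fun t => B * (T z) t) := by
      refine md_congr ?_
      rw [hTL]
      filter_upwards [Lp.coeFn_smul B (T z)] with t ht
      rw [ht, Pi.smul_apply, smul_eq_mul]
    rw [h3]
    calc md (MG G) (fun t => B * (T z) t)
        ≤ ENNReal.ofReal (B ^ (κ + 2)) * md (MG G) (T z) := eme_scale hG hB1 _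
      _ ≤ ENNReal.ofReal (B ^ (κ + 2)) * ENNReal.ofReal (K₀ * s) := by gcongr
      _ = ENNReal.ofReal η := by rw [← ENNReal.ofReal_mul (by positivity), hse]
  have hLη' : md (MG G) (fun t => e.indicator (fun s => (T xL) s) t) ≤ ENNReal.ofReal η := by
    refine le_trans (md_mono hM (Eventually.of_forall fun t => ?_)) hLη
    by_cases h4 : t ∈ e
    · rw [indicator_of_mem h4]
    · rw [indicator_of_notMem h4]
      simp
  -- the sum
  have hadd : ∀ᵐ t ∂lam, e.indicator (fun s => (T x) s) t =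
      2 * ((e.indicator (fun s => (T xL) s) t + e.indicator (fun s => (T xH) s) t) / 2) := by
    have h3 : T x = T xL + T xH := by rw [← map_add, ← hsum]
    rw [h3]
    filter_upwards [Lp.coeFn_add (T xL) (T xH)] with t ht
    by_cases h4 : t ∈ e
    · rw [indicator_of_mem h4, indicator_of_mem h4, indicator_of_mem h4, ht, Pi.add_apply]
      ring
    · rw [indicator_of_notMem h4, indicator_of_notMem h4, indicator_of_notMem h4]
      simp
  have hmeas : AEMeasurable (fun t => e.indicator (fun s => (T xL) s) t) lam :=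
    ((Lp.aestronglyMeasurable (T xL)).aemeasurable).indicator he
  have hx2 : md (MG G) (fun t => e.indicator (fun s => (T x) s) t) ≤
      ENNReal.ofReal (2 ^ (κ + 2) * (2 * η)) := by
    rw [md_congr hadd]
    calc md (MG G) (fun t => 2 *
          ((e.indicator (fun s => (T xL) s) t + e.indicator (fun s => (T xH) s) t) / 2))
        ≤ ENNReal.ofReal (2 ^ (κ + 2)) * md (MG G) (fun t =>
          (e.indicator (fun s => (T xL) s) t + e.indicator (fun s => (T xH) s) t) / 2) :=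
          eme_scale hG (by norm_num) _
      _ ≤ ENNReal.ofReal (2 ^ (κ + 2)) * (ENNReal.ofReal η + ENNReal.ofReal η) := by
          gcongr
          exact (md_add2 hM hmeas).trans (add_le_add hLη' hHη)
      _ = ENNReal.ofReal (2 ^ (κ + 2) * (2 * η)) := by
          rw [← ENNReal.ofReal_add hη0.le hη0.le, ← ENNReal.ofReal_mul (by positivity)]
          congr 1
          ring
  have hx3 : md (MG G) (fun t => e.indicator (fun s => (T x) s) t / c) ≤
      md (MG G) (fun t => 1 / c1 * e.indicator (fun s => (T x) s) t) := by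
    refine md_mono hM (Eventually.of_forall fun t => ?_)
    rw [abs_div, abs_mul, abs_of_pos hc, abs_of_pos (by positivity : (0 : ℝ) < 1 / c1),
      div_eq_mul_inv, mul_comm, ← one_div]
    exact mul_le_mul_of_nonneg_right (one_div_le_one_div_of_le hc10 hc1c) (abs_nonneg _)
  calc md (MG G) (fun t => e.indicator (fun s => (T x) s) t / c)
      ≤ md (MG G) (fun t => 1 / c1 * e.indicator (fun s => (T x) s) t) := hx3
    _ ≤ ENNReal.ofReal ((1 / c1) ^ (κ + 2)) *
        md (MG G) (fun t => e.indicator (fun s => (T x) s) t) := eme_scale hG hci _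
    _ ≤ ENNReal.ofReal q * ENNReal.ofReal (2 ^ (κ + 2) * (2 * η)) := by
        rw [← hq]
        gcongr
    _ = 1 := by rw [← ENNReal.ofReal_mul hq0.le, hηq, ENNReal.ofReal_one]

end

end Pool.Agent.OB9
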