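import Pool.Agent.OB9.NmB
import Pool.Agent.OB9.EqvInf

/-!
# Module OB9/EmptyA

`Triv Φ` implies `𝒟(L^Φ) = ∅`, when `L^Φ ⊆ L²` and `Φ` is doubling.

PROOF. Suppose `T` is bounded on `LPhi Φ` with constant `K` and `c = sigma Φ T > 0`; so
`blockNorm Φ T e f ≥ c` for all `e`, `f` of positive measure. `LPhi Φ ⊆ L2`: from `superquad`,
`t² ≤ C(1 + Φ t)`, and `md Φ (x/r) < ∞`. Define the linear map `T₀ : Linf → L2`, `T₀ x = T x`. If
`md Φ x ≤ 1` then `Nm Φ (T x) ≤ K`, `md Φ (T x/(K+1)) ≤ 1` (wlog `K ≥ 0`), and by doubling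
`Φ((K+1) t) ≤ C' (1 + Φ t)`, so `md Φ (T₀ x) ≤ 2 C'`. Let `c' = c/4` and take `e`, `f` from `Triv Φ`:
for bounded `x` supported in `f`, `md Φ x ≤ 1`: `md Φ (1_e T x/c') ≤ 1`, i.e.
`Nm Φ (Q e (T x)) ≤ c'`. By homogeneity `Nm Φ (Q e (T x)) ≤ c' r` for bounded `x` supported in `f` and
`r > Nm Φ x`. For general `x ∈ LPhi Φ` put `x' = Q f x`, `x_n = x' 1_{|x'| ≤ n}`: by doubling and
dominated convergence `md Φ ((x' - x_n)/δ) → 0` for every `δ > 0`, so `Nm Φ (x' - x_n) → 0`. Since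
`Nm Φ (Q e (T x')) ≤ Nm Φ (Q e (T x_n)) + K Nm Φ (x' - x_n)`, we get
`Nm Φ (Q e (T (Q f x))) ≤ 2 c' Nm Φ x` for all `x ∈ LPhi Φ` (if `Nm Φ x = 0` then `x = 0`). So
`blockNorm ≤ 2 c' < c`, contradiction.
-/

set_option autoImplicit false

namespace Pool.Agent.OB9

open MeasureTheory Set Filter
open scoped ENNReal Topology

noncomputable section

variable {Φ : ℝ → ℝ}

namespace EmptyA

/-- doubling, in a form valid for all `t ≥ 0` and all factors -/
theorem doub (hΦ : Orl Φ) (hd : Doubling Φ) (A : ℝ) (hA : 0 ≤ A) :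
    ∃ C : ℝ, 1 ≤ C ∧ ∀ t, 0 ≤ t → Φ (A * t) ≤ C * (1 + Φ t) := by
  have hM := hΦ.qorl
  obtain ⟨C, t0, ht0, hC⟩ := hd
  set C1 : ℝ := |C| + Φ (2 * t0) + 1 with hC1
  have hp : 0 ≤ Φ (2 * t0) := hM.nonneg (by positivity)
  have hC1' : 1 ≤ C1 := by
    have := abs_nonneg C
    linarith
  have h2 : ∀ t, 0 ≤ t → Φ (2 * t) ≤ C1 * (1 + Φ t) := by
    intro t ht
    have hn := hM.nonneg ht
    rcases le_total t0 t with h | h
    · calc Φ (2 * t) ≤ C * Φ t := hC t h
        _ ≤ |C| * Φ t := by gcongr; exact le_abs_self C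
        _ ≤ C1 * (1 + Φ t) := by
          have h3 : |C| ≤ C1 := by linarith
          nlinarith [abs_nonneg C]
    · calc Φ (2 * t) ≤ Φ (2 * t0) :=
            hM.mono (mem_Ici.2 (by positivity)) (mem_Ici.2 (by positivity)) (by linarith)
        _ ≤ C1 := by
          have := abs_nonneg C
          linarith
        _ ≤ C1 * (1 + Φ t) := by nlinarith
  have hn : ∀ n : ℕ, ∃ D : ℝ, 1 ≤ D ∧ ∀ t, 0 ≤ t → Φ (2 ^ n * t) ≤ D * (1 + Φ t) := by
    intro n
    induction n with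
    | zero =>
      refine ⟨1, le_rfl, fun t ht => ?_⟩
      simp
    | succ n ih =>
      obtain ⟨D, hD1, hD⟩ := ih
      refine ⟨C1 + C1 * D, by nlinarith, fun t ht => ?_⟩
      have h3 := h2 (2 ^ n * t) (by positivity)
      have h4 := hD t ht
      have h5 : (2 : ℝ) ^ (n + 1) * t = 2 * (2 ^ n * t) := by ring
      rw [h5]
      have h6 := hM.nonneg ht
      nlinarith
  obtain ⟨n, hn'⟩ := pow_unbounded_of_one_lt A (one_lt_two (α := ℝ))
  obtain ⟨D, hD1, hD⟩ := hn n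
  refine ⟨D, hD1, fun t ht => le_trans ?_ (hD t ht)⟩
  exact hM.mono (mem_Ici.2 (by positivity)) (mem_Ici.2 (by positivity))
    (mul_le_mul_of_nonneg_right hn'.le ht)

theorem md_scale (hΦ : Orl Φ) (hd : Doubling Φ) (A : ℝ) (hA : 0 ≤ A) :
    ∃ C : ℝ, 1 ≤ C ∧ ∀ x : ℝ → ℝ, md Φ (fun t => A * x t) ≤ ENNReal.ofReal C * (1 + md Φ x) := by
  obtain ⟨C, hC1, hC⟩ := doub hΦ hd A hA
  have hM := hΦ.qorl
  refine ⟨C, hC1, fun x => ?_⟩
  unfold md
  calc ∫⁻ t, ENNReal.ofReal (Φ |A * x t|) ∂lam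
      ≤ ∫⁻ t, ENNReal.ofReal C * (1 + ENNReal.ofReal (Φ |x t|)) ∂lam := by
        refine lintegral_mono fun t => ?_
        rw [abs_mul, abs_of_nonneg hA]
        have h1 := hC |x t| (abs_nonneg _)
        have h2 := hM.nonneg (abs_nonneg (x t))
        calc ENNReal.ofReal (Φ (A * |x t|)) ≤ ENNReal.ofReal (C * (1 + Φ |x t|)) :=
              ENNReal.ofReal_le_ofReal h1
          _ = _ := by
            rw [ENNReal.ofReal_mul (by linarith), ENNReal.ofReal_add zero_le_one h2,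
              ENNReal.ofReal_one]
    _ = _ := by
      rw [lintegral_const_mul' _ _ ENNReal.ofReal_ne_top, lintegral_add_left measurable_const]
      simp

/-- elements of the Orlicz space are in `L²` -/
theorem memLp (hΦ : Orl Φ) (hq : Tendsto (fun t => Φ t / t ^ 2) atTop atTop) {x : F0}
    (hx : x ∈ LPhi Φ) : MemLp x 2 lam := by
  have hM := hΦ.qorl
  obtain ⟨r, hr, hfin⟩ := hx
  obtain ⟨t1, ht1⟩ := (hq.eventually_ge_atTop 1).exists_forall_of_atTop
  set b : ℝ := max t1 1 with hb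
  have hb1 : 1 ≤ b := le_max_right _ _
  have key : ∀ t, 0 ≤ t → t ^ 2 ≤ b ^ 2 + Φ t := by
    intro t ht
    rcases le_total b t with h | h
    · have h1 := ht1 t ((le_max_left _ _).trans h)
      have h2 : 0 < t := by linarith
      rw [le_div_iff₀ (by positivity), one_mul] at h1
      nlinarith
    · have h1 := hM.nonneg ht
      nlinarith
  rw [memLp_two_iff_integrable_sq x.aestronglyMeasurable]
  have h1 : Integrable (fun t => (x t / r) ^ 2) lam := by
    refine ⟨(x.stronglyMeasurable.measurable.div_const r).pow_const 2 |>.aestronglyMeasurable, ?_⟩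
    rw [hasFiniteIntegral_iff_ofReal (ae_of_all _ fun t => by positivity)]
    calc ∫⁻ t, ENNReal.ofReal ((x t / r) ^ 2) ∂lam
        ≤ ∫⁻ t, (ENNReal.ofReal (b ^ 2) + ENNReal.ofReal (Φ |x t / r|)) ∂lam := by
          refine lintegral_mono fun t => ?_
          rw [← ENNReal.ofReal_add (by positivity) (hM.nonneg (abs_nonneg _))]
          refine ENNReal.ofReal_le_ofReal ?_
          have := key |x t / r| (abs_nonneg _)
          rwa [sq_abs] at this
      _ = ENNReal.ofReal (b ^ 2) + md Φ (fun t => x t / r) := by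
          rw [lintegral_add_left measurable_const]
          simp [md]
      _ < ⊤ := ENNReal.add_lt_top.2 ⟨ENNReal.ofReal_lt_top, hfin⟩
  have h2 := h1.const_mul (r ^ 2)
  refine h2.congr (ae_of_all _ fun t => ?_)
  have := hr.ne'
  field_simp

theorem Q_smul (e : Set ℝ) (he : MeasurableSet e) (a : ℝ) (x : F0) :
    Q e he (a • x) = a • Q e he x := by
  apply AEEqFun.ext
  filter_upwards [Q_coe e he (a • x), AEEqFun.coeFn_smul a x, AEEqFun.coeFn_smul a (Q e he x),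
    Q_coe e he x] with t h1 h2 h3 h4
  rw [h1, h3, Pi.smul_apply, h4]
  by_cases ht : t ∈ e
  · simp only [indicator_of_mem ht]
    rw [h2]
    rfl
  · simp only [indicator_of_notMem ht, smul_zero]

theorem Q_add (e : Set ℝ) (he : MeasurableSet e) (x y : F0) :
    Q e he (x + y) = Q e he x + Q e he y := by
  apply AEEqFun.ext
  filter_upwards [Q_coe e he (x + y), AEEqFun.coeFn_add x y, AEEqFun.coeFn_add (Q e he x) (Q e he y),
    Q_coe e he x, Q_coe e he y] with t h1 h2 h3 h4 h5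
  rw [h1, h3, Pi.add_apply, h4, h5]
  by_cases ht : t ∈ e
  · simp only [indicator_of_mem ht]
    rw [h2]
    rfl
  · simp only [indicator_of_notMem ht, add_zero]

theorem Q_add_compl (e : Set ℝ) (he : MeasurableSet e) (x : F0) :
    Q e he x + Q eᶜ he.compl x = x := by
  apply AEEqFun.ext
  filter_upwards [AEEqFun.coeFn_add (Q e he x) (Q eᶜ he.compl x),
    Q_coe e he x, Q_coe eᶜ he.compl x] with t h3 h4 h5
  rw [h3, Pi.add_apply, h4, h5]
  by_cases ht : t ∈ e
  · simp [ht]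
  · simp [ht]

/-- truncations converge -/
theorem trunc (hΦ : Orl Φ) (hd : Doubling Φ) {x : F0} (hx : x ∈ LPhi Φ) {δ : ℝ} (hδ : 0 < δ) :
    ∃ (E : Set ℝ) (hE : MeasurableSet E) (R : ℝ), (∀ t ∈ E, |x t| ≤ R) ∧
      Nm Φ (Q Eᶜ hE.compl x) ≤ δ := by
  have hM := hΦ.qorl
  have hxm : Measurable (x : ℝ → ℝ) := x.stronglyMeasurable.measurable
  obtain ⟨r, hr, hfin⟩ := hx
  obtain ⟨C, hC1, hC⟩ := md_scale hΦ hd (r / δ) (by positivity)
  have hfin2 : md Φ (fun t => x t / δ) < ⊤ := by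
    have h1 := hC (fun t => x t / r)
    have h2 : (fun t => r / δ * (x t / r)) = fun t => x t / δ := by
      funext t
      field_simp
    rw [h2] at h1
    exact h1.trans_lt (ENNReal.mul_lt_top ENNReal.ofReal_lt_top
      (ENNReal.add_lt_top.2 ⟨ENNReal.one_lt_top, hfin⟩))
  set E : ℕ → Set ℝ := fun n => {t | |x t| ≤ n} with hE
  have hEm : ∀ n, MeasurableSet (E n) := fun n => measurableSet_le hxm.abs measurable_const
  have hlim : Tendsto (fun n => ∫⁻ t, (E n)ᶜ.indicator (fun t => ENNReal.ofReal (Φ |x t / δ|)) t ∂lam)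
      atTop (𝓝 (∫⁻ _, 0 ∂lam)) := by
    have hme : Measurable (fun t => ENNReal.ofReal (Φ |x t / δ|)) :=
      (hM.meas.comp (hxm.div_const δ)).ennreal_ofReal
    refine tendsto_lintegral_of_dominated_convergence (fun t => ENNReal.ofReal (Φ |x t / δ|))
      (fun n => hme.indicator (hEm n).compl) (fun n => ae_of_all _ fun t => ?_) hfin2.ne
      (ae_of_all _ fun t => ?_)
    · exact indicator_le_self _ _ _
    · obtain ⟨N, hN⟩ := exists_nat_ge |x t|
      refine tendsto_const_nhds.congr' ?_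
      filter_upwards [eventually_ge_atTop N] with n hn
      have : t ∉ (E n)ᶜ := by
        rw [mem_compl_iff, not_not]
        exact hN.trans (by exact_mod_cast hn)
      rw [indicator_of_notMem this]
  rw [lintegral_zero] at hlim
  obtain ⟨n, hn⟩ := (hlim.eventually (ge_mem_nhds (zero_lt_one' ℝ≥0∞))).exists
  refine ⟨E n, hEm n, n, fun t ht => ht, Nm_le hδ ?_⟩
  refine le_trans (le_of_eq ?_) hn
  unfold md
  refine lintegral_congr_ae ?_
  filter_upwards [Q_coe (E n)ᶜ (hEm n).compl x] with t h1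
  rw [h1]
  by_cases ht : t ∈ (E n)ᶜ
  · rw [indicator_of_mem ht, indicator_of_mem ht]
  · rw [indicator_of_notMem ht, indicator_of_notMem ht]
    simp [hM.zero]

end EmptyA

open EmptyA in
theorem not_DNonempty_of_triv (hΦ : Orl Φ)
    (hq : Tendsto (fun t => Φ t / t ^ 2) atTop atTop) (hd : Doubling Φ) (h : Triv Φ) :
    ¬ DNonempty Φ := by
  rintro ⟨T, hT, hσ⟩
  have hM := hΦ.qorl
  obtain ⟨K0, hK0⟩ := hT.bdd
  set K : ℝ := max K0 0 with hK
  have hKnn : 0 ≤ K := le_max_right _ _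
  have hKb : ∀ x ∈ LPhi Φ, Nm Φ (T x) ≤ K * Nm Φ x := fun x hx =>
    (hK0 x hx).trans (mul_le_mul_of_nonneg_right (le_max_left _ _) (Nm_nonneg x))
  have hbd : ∀ x : Linf, ((x : L2) : F0) ∈ LPhi Φ := by
    intro x
    obtain ⟨R, hR⟩ := x.2
    exact mem_LPhi_of_bdd hΦ (R := R) hR
  let T₀ : Linf →ₗ[ℝ] L2 :=
    { toFun := fun x => ⟨T ((x : L2) : F0), Lp.mem_Lp_iff_memLp.2
        (EmptyA.memLp hΦ hq (hT.maps _ (hbd x)))⟩
      map_add' := fun x y => Subtype.ext (hT.add _ (hbd x) _ (hbd y))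
      map_smul' := fun a x => Subtype.ext (hT.smul a _ (hbd x)) }
  have hT₀ : ∀ x : Linf, ((T₀ x : L2) : F0) = T ((x : L2) : F0) := fun x => rfl
  obtain ⟨C', hC'1, hC'⟩ := md_scale hΦ hd (K + 1) (by linarith)
  obtain ⟨e, f, he, hf, he0, hf0, hef⟩ := h T₀ (C' * 2) (by
    intro x hx
    have h1 : Nm Φ ((x : L2) : F0) ≤ 1 := Nm_le one_pos (by simpa using hx)
    have h2 : Nm Φ (T ((x : L2) : F0)) < K + 1 := by
      have := hKb _ (hbd x)
      nlinarith [Nm_nonneg (Φ := Φ) ((x : L2) : F0)]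
    have h3 := md_of_lt hΦ (hT.maps _ (hbd x)) h2
    have h4 := hC' (fun t => T ((x : L2) : F0) t / (K + 1))
    have h5 : (fun t => (K + 1) * (T ((x : L2) : F0) t / (K + 1))) =
        (T ((x : L2) : F0) : ℝ → ℝ) := by
      funext t
      have : K + 1 ≠ 0 := by linarith
      field_simp
    rw [h5] at h4
    rw [hT₀]
    refine h4.trans ?_
    rw [ENNReal.ofReal_mul (by linarith)]
    gcongr
    calc (1 : ℝ≥0∞) + _ ≤ 1 + 1 := by gcongr
      _ = ENNReal.ofReal 2 := by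
        rw [one_add_one_eq_two]
        simp) (sigma Φ T / 4) (by positivity)
  set c' : ℝ := sigma Φ T / 4 with hc'
  have hc'pos : 0 < c' := by positivity
  -- bounded functions
  have claim1 : ∀ x : F0, (∃ R : ℝ, ∀ᵐ t ∂lam, |x t| ≤ R) → (∀ᵐ t ∂lam, t ∉ f → x t = 0) →
      ∀ r : ℝ, Nm Φ x < r → Nm Φ (Q e he (T x)) ≤ c' * r := by
    rintro x ⟨R, hR⟩ hs r hr
    have hr0 : 0 < r := (Nm_nonneg x).trans_lt hr
    have hx : x ∈ LPhi Φ := mem_LPhi_of_bdd hΦ hR
    set y : F0 := (1 / r) • x with hy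
    have hyx : (y : ℝ → ℝ) =ᵐ[lam] fun t => x t / r := by
      filter_upwards [AEEqFun.coeFn_smul (1 / r) x] with t ht
      rw [ht]
      simp only [Pi.smul_apply, smul_eq_mul]
      ring
    have hyL : y ∈ LPhi Φ := LPhi_smul hΦ _ hx
    have hyb : ∀ᵐ t ∂lam, |y t| ≤ R / r := by
      filter_upwards [hyx, hR] with t h1 h2
      rw [h1, abs_div, abs_of_pos hr0]
      gcongr
    have hy2 : MemLp y 2 lam := EmptyA.memLp hΦ hq hyL
    let Y : Linf := ⟨⟨y, Lp.mem_Lp_iff_memLp.2 hy2⟩, ⟨R / r, hyb⟩⟩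
    have h1 := hef Y (by
      filter_upwards [hyx, hs] with t h1 h2 h3
      show y t = 0
      rw [h1, h2 h3, zero_div]) (by
      show md Φ y ≤ 1
      rw [md_congr hyx]
      exact md_of_lt hΦ hx hr)
    have h2 : Nm Φ (Q e he (T y)) ≤ c' := by
      refine Nm_le hc'pos (le_trans (le_of_eq (md_congr ?_)) h1)
      filter_upwards [Q_coe e he (T y)] with t h3
      rw [h3]
      rfl
    rw [hy, hT.smul _ _ hx, Q_smul, Nm_smul hΦ _ (Q_mem hΦ e he (hT.maps _ hx)),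
      abs_of_pos (by positivity)] at h2
    rw [one_div, inv_mul_le_iff₀ hr0] at h2
    linarith
  have claim2 : ∀ x ∈ LPhi Φ, (∀ᵐ t ∂lam, t ∉ f → x t = 0) →
      Nm Φ (Q e he (T x)) ≤ c' * Nm Φ x := by
    intro x hx hs
    refine le_of_forall_pos_le_add fun ε hε => ?_
    set δ : ℝ := ε / (2 * (K + 1)) with hδ
    have hδ0 : 0 < δ := by positivity
    obtain ⟨E, hE, R, hER, hEδ⟩ := trunc hΦ hd hx hδ0
    have hsplit := Q_add_compl E hE x
    have h1 : Nm Φ (Q E hE x) ≤ Nm Φ x := Nm_Q_le hΦ E hE hx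
    have hL1 : Q E hE x ∈ LPhi Φ := Q_mem hΦ E hE hx
    have hL2 : Q Eᶜ hE.compl x ∈ LPhi Φ := Q_mem hΦ Eᶜ hE.compl hx
    have h2 := claim1 (Q E hE x) ⟨max R 0, by
      filter_upwards [Q_coe E hE x] with t ht
      rw [ht]
      by_cases hm : t ∈ E
      · rw [indicator_of_mem hm]
        exact (hER t hm).trans (le_max_left _ _)
      · rw [indicator_of_notMem hm, abs_zero]
        exact le_max_right _ _⟩ (by
      filter_upwards [Q_coe E hE x, hs] with t ht h3 h4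
      rw [ht]
      by_cases hm : t ∈ E
      · rw [indicator_of_mem hm, h3 h4]
      · rw [indicator_of_notMem hm]) (Nm Φ x + ε / (2 * c')) (by
      have : 0 < ε / (2 * c') := by positivity
      linarith)
    have h3 : Nm Φ (Q e he (T (Q Eᶜ hE.compl x))) ≤ ε / 2 := by
      calc _ ≤ Nm Φ (T (Q Eᶜ hE.compl x)) := Nm_Q_le hΦ e he (hT.maps _ hL2)
        _ ≤ K * Nm Φ (Q Eᶜ hE.compl x) := hKb _ hL2
        _ ≤ (K + 1) * δ := mul_le_mul (by linarith) hEδ (Nm_nonneg _) (by linarith)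
        _ = ε / 2 := by
          rw [hδ]
          have : K + 1 ≠ 0 := by linarith
          field_simp
    have h4 : Q e he (T x) = Q e he (T (Q E hE x)) + Q e he (T (Q Eᶜ hE.compl x)) := by
      rw [← Q_add, ← hT.add _ hL1 _ hL2, hsplit]
    rw [h4]
    have h5 := Nm_add hΦ (Q_mem hΦ e he (hT.maps _ hL1)) (Q_mem hΦ e he (hT.maps _ hL2))
    have h6 : c' * (Nm Φ x + ε / (2 * c')) = c' * Nm Φ x + ε / 2 := by
      field_simp
    linarith
  have hbn : blockNorm Φ T e f he hf ≤ c' := by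
    refine csInf_le ⟨0, fun C hC => hC.1⟩ ⟨hc'pos.le, fun x hx => ?_⟩
    have hq1 : ∀ᵐ t ∂lam, t ∉ f → (Q f hf x) t = 0 := by
      filter_upwards [Q_coe f hf x] with t ht h3
      rw [ht, indicator_of_notMem h3]
    refine (claim2 _ (Q_mem hΦ f hf hx) hq1).trans ?_
    exact mul_le_mul_of_nonneg_left (Nm_Q_le hΦ f hf hx) hc'pos.le
  have hsig : sigma Φ T ≤ blockNorm Φ T e f he hf := by
    refine csInf_le ⟨0, ?_⟩ ⟨e, f, he, hf, ENNReal.mul_pos he0 hf0, rfl⟩
    rintro r ⟨e', f', he', hf', -, rfl⟩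
    exact Real.sInf_nonneg fun C hC => hC.1
  linarith

end

end Pool.Agent.OB9
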