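import Pool.Agent.OB9.NmB
import Pool.Agent.OB9.AdjB
import Pool.Agent.OB9.DualP
import Pool.Agent.OB9.EmptyA

/-!
# Module OB9/EmptyB

`Triv (conj Φ)` implies `𝒟(L^Φ) = ∅`.

PROOF. `Ψ = conj Φ`. By `dual_quad`, `Φ t ≤ C(1+t²)`: bounded functions and `L2` functions are in
`LPhi Φ`, with `Nm Φ x ≤ C' ‖x‖₂`; also `‖z‖_{L¹} ≤ C'' Nm Φ z` for `z ∈ LPhi Φ` (`t ≤ a (1 + Φ t)`).
Suppose `T` is bounded on `LPhi Φ` with constant `K > 0` and `c = sigma Φ T > 0`. For bounded `y`
the functional `x ↦ ∫ y (T x)` on `L2` is linear and bounded by `‖y‖_∞ C'' K C' ‖x‖₂`, so there is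
`S y ∈ L2` with `∫ y (T x) = ⟪S y, x⟫` for all `x ∈ L2` (`InnerProductSpace.toDual`), `S : Linf → L2`
linear. If `md Ψ y ≤ 1` then for bounded `x`, `md Φ x ≤ 1`:
`∫ x (S y) = ∫ y (T x) ≤ (K+1) ∫ |y| |T x/(K+1)| ≤ 2(K+1)` (Young); by `ko`,
`md Ψ (S y/(2(K+1))) ≤ 1` and, `Ψ` being doubling, `md Ψ (S y) ≤ K'`. Apply `Triv Ψ` to `S` with the
constant `c/16`: sets `e₁`, `f₁` such that `md Ψ (1_{e₁} S y/(c/16)) ≤ 1` for bounded `y` supported
in `f₁`, `md Ψ y ≤ 1`. Put `e = f₁`, `f = e₁`. For bounded `x` supported in `f` with `md Φ x ≤ 1`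
and bounded `y` supported in `e` with `md Ψ y ≤ 1`:
`|∫ y (T x)| = |∫ x 1_{e₁} (S y)| ≤ (c/16)·2 = c/8`. By `ko` for `Ψ` (`conj Ψ = Φ` on `[0,∞)`),
`md Φ (1_e T x/(c/8)) ≤ 1` (test functions `z` may be multiplied by `1_e sgn`). So
`Nm Φ (Q e (T x)) ≤ c/8` for such `x`. `Φ` is doubling (`dual_doubling`), so as in `EmptyA` bounded
functions are dense in `LPhi Φ` (restricted to `f`), and `Nm Φ (Q e (T (Q f x))) ≤ (c/4) Nm Φ x` for
all `x ∈ LPhi Φ`, contradicting `blockNorm ≥ c`.
-/

set_option autoImplicit false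

namespace Pool.Agent.OB9

open MeasureTheory Set Filter
open scoped ENNReal Topology

noncomputable section

variable {Φ : ℝ → ℝ}

private theorem inner_eq (f g : L2) : inner ℝ f g = ∫ t, f t * g t ∂lam := by
  rw [MeasureTheory.L2.inner_def]
  refine integral_congr_ae (Eventually.of_forall fun t => ?_)
  simp [mul_comm]

private theorem int_mul (f g : L2) : Integrable (fun t => f t * g t) lam := by
  have h := MeasureTheory.L2.integrable_inner (𝕜 := ℝ) f g
  refine h.congr (Eventually.of_forall fun t => ?_)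
  simp [mul_comm]

private theorem ofReal_int_le {h : ℝ → ℝ} (hh : Integrable h lam) :
    ENNReal.ofReal (∫ t, h t ∂lam) ≤ ∫⁻ t, ENNReal.ofReal |h t| ∂lam := by
  rw [← ofReal_integral_eq_lintegral_ofReal hh.abs (Eventually.of_forall fun t => abs_nonneg _)]
  exact ENNReal.ofReal_le_ofReal (integral_mono hh hh.abs fun t => le_abs_self _)

private theorem lint_const {c : ℝ} (hc : 0 ≤ c) (h : ℝ → ℝ) :
    ∫⁻ t, ENNReal.ofReal (c * h t) ∂lam = ENNReal.ofReal c * ∫⁻ t, ENNReal.ofReal (h t) ∂lam := by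
  simp_rw [ENNReal.ofReal_mul hc]
  exact lintegral_const_mul' _ _ ENNReal.ofReal_ne_top

/-- the class of a simple function with signs -/
private theorem exists_sgn (x : SimpleFunc ℝ ℝ) (hx : ∀ t, 0 ≤ x t) {w : ℝ → ℝ}
    (hw : AEMeasurable w lam) {A : Set ℝ} (hA : MeasurableSet A) :
    ∃ y : L2, Bd y ∧ ∀ᵐ t ∂lam, (t ∉ A → y t = 0) ∧ (t ∈ A → |y t| = x t ∧ y t * w t = x t * |w t|) := by
  set g : ℝ → ℝ := A.indicator fun t => if 0 ≤ w t then x t else -(x t) with hg
  obtain ⟨R, hR⟩ := x.exists_forall_norm_le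
  have hgm : AEStronglyMeasurable g lam := by
    have h1 : Measurable fun p : ℝ × ℝ => if 0 ≤ p.1 then p.2 else -p.2 :=
      Measurable.ite (measurableSet_le measurable_const measurable_fst) measurable_snd
        measurable_snd.neg
    have h2 : AEMeasurable (fun t => if 0 ≤ w t then x t else -(x t)) lam :=
      h1.comp_aemeasurable (hw.prodMk x.measurable.aemeasurable)
    exact (h2.indicator hA).aestronglyMeasurable
  have hgb : ∀ t, |g t| ≤ R := by
    intro t
    have h0 : 0 ≤ R := (norm_nonneg _).trans (hR t)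
    have h1 : |x t| ≤ R := hR t
    rw [hg]
    by_cases ht : t ∈ A
    · rw [indicator_of_mem ht]
      split_ifs
      · exact h1
      · rw [abs_neg]
        exact h1
    · rw [indicator_of_notMem ht, abs_zero]
      exact h0
  have hgL : MemLp g 2 lam := MemLp.of_bound hgm R (Eventually.of_forall hgb)
  refine ⟨hgL.toLp g, ⟨R, ?_⟩, ?_⟩
  · filter_upwards [hgL.coeFn_toLp] with t ht
    rw [ht]
    exact hgb t
  · filter_upwards [hgL.coeFn_toLp] with t ht
    rw [ht, hg]
    refine ⟨fun h => indicator_of_notMem h _, fun h => ?_⟩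
    rw [indicator_of_mem h]
    split_ifs with h1
    · exact ⟨abs_of_nonneg (hx t), by rw [abs_of_nonneg h1]⟩
    · rw [not_le] at h1
      refine ⟨by rw [abs_neg, abs_of_nonneg (hx t)], ?_⟩
      rw [abs_of_neg h1]
      ring

/-- elements of the Orlicz space are integrable -/
private theorem int_of_mem (hΦ : Orl Φ) (hs : SuperLin Φ) {z : F0} (hz : z ∈ LPhi Φ) :
    Integrable z lam ∧ ∫ t, |z t| ∂lam ≤ (1 + conj Φ 1) * Nm Φ z := by
  have hM := hΦ.qorl
  have hΨ0 : 0 ≤ conj Φ 1 := (conj_orl hΦ hs).qorl.nonneg zero_le_one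
  have key : ∀ r, Nm Φ z < r → ∫⁻ t, ENNReal.ofReal |z t| ∂lam ≤
      ENNReal.ofReal ((1 + conj Φ 1) * r) := by
    intro r hr
    have hr0 : 0 < r := (Nm_nonneg z).trans_lt hr
    have hmd := md_of_lt hΦ hz hr
    calc ∫⁻ t, ENNReal.ofReal |z t| ∂lam
        ≤ ∫⁻ t, ENNReal.ofReal r * (ENNReal.ofReal (conj Φ 1) +
            ENNReal.ofReal (Φ |z t / r|)) ∂lam := by
          refine lintegral_mono fun t => ?_
          have h1 := young hΦ hs zero_le_one (abs_nonneg (z t / r))
          rw [one_mul] at h1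
          rw [← ENNReal.ofReal_add hΨ0 (hM.nonneg (abs_nonneg _)), ← ENNReal.ofReal_mul hr0.le]
          refine ENNReal.ofReal_le_ofReal ?_
          have h2 : |z t| = r * |z t / r| := by
            rw [abs_div, abs_of_pos hr0]
            field_simp
          rw [h2]
          exact mul_le_mul_of_nonneg_left (by linarith) hr0.le
      _ = ENNReal.ofReal r * (ENNReal.ofReal (conj Φ 1) + md Φ (fun t => z t / r)) := by
          rw [lintegral_const_mul' _ _ ENNReal.ofReal_ne_top, lintegral_add_left measurable_const]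
          simp [md]
      _ ≤ ENNReal.ofReal r * (ENNReal.ofReal (conj Φ 1) + 1) := by gcongr
      _ = ENNReal.ofReal ((1 + conj Φ 1) * r) := by
          rw [← ENNReal.ofReal_one, ← ENNReal.ofReal_add hΨ0 zero_le_one,
            ← ENNReal.ofReal_mul hr0.le]
          congr 1
          ring
  have hint : Integrable z lam := by
    refine ⟨z.aestronglyMeasurable, ?_⟩
    rw [hasFiniteIntegral_iff_norm]
    exact (key (Nm Φ z + 1) (by linarith)).trans_lt ENNReal.ofReal_lt_top
  refine ⟨hint, le_of_forall_pos_le_add fun ε hε => ?_⟩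
  have hε' : 0 < ε / (1 + conj Φ 1) := by positivity
  have h1 := key (Nm Φ z + ε / (1 + conj Φ 1)) (by linarith)
  rw [← ofReal_integral_eq_lintegral_ofReal hint.abs
    (Eventually.of_forall fun t => abs_nonneg _)] at h1
  have h0 := Nm_nonneg (Φ := Φ) z
  rw [ENNReal.ofReal_le_ofReal_iff (by positivity)] at h1
  refine h1.trans (le_of_eq ?_)
  field_simp

/-- `L²` is contained in the Orlicz space -/
private theorem l2_mem (hΦ : Orl Φ) {C : ℝ} (hC : 0 < C)
    (h : ∀ t, 0 ≤ t → Φ t ≤ C * (1 + t ^ 2)) (x : L2) :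
    md Φ x ≤ ENNReal.ofReal (C * (1 + ‖x‖ ^ 2)) := by
  have e : ∫⁻ t, ENNReal.ofReal (x t * x t) ∂lam = ENNReal.ofReal (‖x‖ ^ 2) := by
    rw [← ofReal_integral_eq_lintegral_ofReal (int_mul x x)
      (Eventually.of_forall fun t => mul_self_nonneg _), ← inner_eq, real_inner_self_eq_norm_sq]
  calc md Φ x ≤ ∫⁻ t, ENNReal.ofReal C * (1 + ENNReal.ofReal (x t * x t)) ∂lam := by
        unfold md
        refine lintegral_mono fun t => ?_
        rw [← ENNReal.ofReal_one, ← ENNReal.ofReal_add zero_le_one (mul_self_nonneg _),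
          ← ENNReal.ofReal_mul hC.le]
        refine ENNReal.ofReal_le_ofReal ?_
        have h1 := h |x t| (abs_nonneg _)
        rw [sq_abs] at h1
        rw [← sq]
        exact h1
    _ = ENNReal.ofReal C * (1 + ENNReal.ofReal (‖x‖ ^ 2)) := by
        rw [lintegral_const_mul' _ _ ENNReal.ofReal_ne_top, lintegral_add_left measurable_const, e]
        simp
    _ = ENNReal.ofReal (C * (1 + ‖x‖ ^ 2)) := by
        rw [← ENNReal.ofReal_one, ← ENNReal.ofReal_add zero_le_one (by positivity),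
          ← ENNReal.ofReal_mul hC.le]

private theorem Nm_zero (hΦ : Orl Φ) : Nm Φ (0 : F0) = 0 := by
  have h0 : (0 : F0) ∈ LPhi Φ := mem_LPhi_of_bdd hΦ (R := 0) (by
    filter_upwards [AEEqFun.coeFn_zero (μ := lam) (β := ℝ)] with t ht
    rw [ht]
    simp)
  have h1 := Nm_smul hΦ 0 h0
  rw [zero_smul, abs_zero, zero_mul] at h1
  exact h1

private theorem Nm_l2 (hΦ : Orl Φ) {C : ℝ} (hC : 0 < C)
    (h : ∀ t, 0 ≤ t → Φ t ≤ C * (1 + t ^ 2)) (x : L2) :
    Nm Φ (x : F0) ≤ max (2 * C) 1 * ‖x‖ := by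
  rcases eq_or_ne ‖x‖ 0 with h0 | h0
  · have hx : x = 0 := norm_eq_zero.1 h0
    rw [hx, norm_zero, mul_zero]
    exact (Nm_zero hΦ).le
  · have hpos : 0 < ‖x‖ := lt_of_le_of_ne (norm_nonneg _) (Ne.symm h0)
    have hmem : (x : F0) ∈ LPhi Φ := ⟨1, one_pos, by
      simp only [div_one]
      exact (l2_mem hΦ hC h x).trans_lt ENNReal.ofReal_lt_top⟩
    have h1 := l2_mem hΦ hC h ((1 / ‖x‖) • x)
    have hn : ‖(1 / ‖x‖) • x‖ = 1 := by
      rw [norm_smul, Real.norm_eq_abs, abs_of_pos (by positivity)]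
      field_simp
    rw [hn] at h1
    have h2 : md Φ ((1 / ‖x‖) • x : L2) ≤ ENNReal.ofReal (max (2 * C) 1) := by
      refine h1.trans (ENNReal.ofReal_le_ofReal ?_)
      refine le_trans (le_of_eq ?_) (le_max_left _ _)
      ring
    have h3 := md_div_le hΦ.qorl (le_max_right _ _) h2
    have h4 : Nm Φ (((1 / ‖x‖) • x : L2) : F0) ≤ max (2 * C) 1 :=
      Nm_le (lt_of_lt_of_le one_pos (le_max_right _ _)) h3
    have h5 : (((1 / ‖x‖) • x : L2) : F0) = (1 / ‖x‖) • (x : F0) := rfl
    rw [h5, Nm_smul hΦ _ hmem, abs_of_pos (by positivity), one_div, inv_mul_le_iff₀ hpos] at h4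
    linarith

private theorem md_conj_conj (hΦ : Orl Φ) (hs : SuperLin Φ) : md (conj (conj Φ)) = md Φ := by
  funext x
  unfold md
  congr 1
  funext t
  rw [conj_conj hΦ hs (abs_nonneg _)]

open EmptyA in
theorem not_DNonempty_of_triv_conj (hΦ : Orl Φ) (hs : SuperLin Φ)
    (hq : Tendsto (fun t => conj Φ t / t ^ 2) atTop atTop) (hc : TwoConvex (conj Φ))
    (hd : Doubling (conj Φ)) (h : Triv (conj Φ)) : ¬ DNonempty Φ := by
  rintro ⟨T, hT, hσ⟩
  have hM := hΦ.qorl
  have hΨ := conj_orl hΦ hs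
  have hΨs := conj_superLin hΦ hs
  have hdΦ := dual_doubling hΦ hs hc
  obtain ⟨C, hC, hCq⟩ := dual_quad hΦ hs hq
  obtain ⟨K0, hK0⟩ := hT.bdd
  set K : ℝ := max K0 0 with hK
  have hKnn : 0 ≤ K := le_max_right _ _
  have hKb : ∀ x ∈ LPhi Φ, Nm Φ (T x) ≤ K * Nm Φ x := fun x hx =>
    (hK0 x hx).trans (mul_le_mul_of_nonneg_right (le_max_left _ _) (Nm_nonneg x))
  have hmem : ∀ x : L2, (x : F0) ∈ LPhi Φ := fun x => ⟨1, one_pos, by
    simp only [div_one]
    exact (l2_mem hΦ hC hCq x).trans_lt ENNReal.ofReal_lt_top⟩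
  have hΨ0 : 0 ≤ conj Φ 1 := hΨ.qorl.nonneg zero_le_one
  -- integrability of products
  have hprod : ∀ (y : L2) (R : ℝ), (∀ᵐ t ∂lam, |y t| ≤ R) → ∀ x : L2,
      Integrable (fun t => y t * T (x : F0) t) lam ∧
        ‖∫ t, y t * T (x : F0) t ∂lam‖ ≤
          |R| * ((1 + conj Φ 1) * (K * max (2 * C) 1)) * ‖x‖ := by
    intro y R hR x
    obtain ⟨h1, h2⟩ := int_of_mem hΦ hs (hT.maps _ (hmem x))
    have hR' : ∀ᵐ t ∂lam, ‖y t‖ ≤ |R| := by
      filter_upwards [hR] with t ht
      exact ht.trans (le_abs_self R)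
    have hi : Integrable (fun t => y t * T (x : F0) t) lam :=
      h1.bdd_mul (Lp.aestronglyMeasurable y) hR'
    refine ⟨hi, ?_⟩
    calc ‖∫ t, y t * T (x : F0) t ∂lam‖ ≤ ∫ t, |R| * |T (x : F0) t| ∂lam := by
          refine norm_integral_le_of_norm_le (h1.abs.const_mul _) ?_
          filter_upwards [hR'] with t ht
          rw [norm_mul]
          exact mul_le_mul_of_nonneg_right ht (norm_nonneg _)
      _ = |R| * ∫ t, |T (x : F0) t| ∂lam := integral_const_mul _ _
      _ ≤ |R| * ((1 + conj Φ 1) * (K * (max (2 * C) 1 * ‖x‖))) := by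
          refine mul_le_mul_of_nonneg_left (h2.trans ?_) (abs_nonneg R)
          refine mul_le_mul_of_nonneg_left ?_ (by linarith)
          exact (hKb _ (hmem x)).trans (mul_le_mul_of_nonneg_left (Nm_l2 hΦ hC hCq x) hKnn)
      _ = _ := by ring
  -- the functional and the adjoint
  have hlin : ∀ y : Linf, ∃ l : L2 →L[ℝ] ℝ, ∀ x : L2, l x = ∫ t, (y : L2) t * T (x : F0) t ∂lam := by
    intro y
    obtain ⟨R, hR⟩ := y.2
    let l0 : L2 →ₗ[ℝ] ℝ :=
      { toFun := fun x => ∫ t, (y : L2) t * T (x : F0) t ∂lam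
        map_add' := fun x x' => by
          rw [← integral_add (hprod y R hR x).1 (hprod y R hR x').1]
          refine integral_congr_ae ?_
          have e : T ((x + x' : L2) : F0) = T (x : F0) + T (x' : F0) :=
            hT.add _ (hmem x) _ (hmem x')
          rw [e]
          filter_upwards [AEEqFun.coeFn_add (T (x : F0)) (T (x' : F0))] with t ht
          rw [ht, Pi.add_apply]
          ring
        map_smul' := fun a x => by
          simp only [RingHom.id_apply, smul_eq_mul]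
          rw [← integral_const_mul]
          refine integral_congr_ae ?_
          have e : T ((a • x : L2) : F0) = a • T (x : F0) := hT.smul a _ (hmem x)
          rw [e]
          filter_upwards [AEEqFun.coeFn_smul a (T (x : F0))] with t ht
          rw [ht, Pi.smul_apply, smul_eq_mul]
          ring }
    exact ⟨l0.mkContinuousOfExistsBound ⟨_, fun x => (hprod y R hR x).2⟩, fun x => rfl⟩
  choose l hl using hlin
  have hinner : ∀ (y : Linf) (x : L2), inner ℝ ((InnerProductSpace.toDual ℝ L2).symm (l y)) x =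
      ∫ t, (y : L2) t * T (x : F0) t ∂lam := by
    intro y x
    rw [InnerProductSpace.toDual_symm_apply, hl]
  let S : Linf →ₗ[ℝ] L2 :=
    { toFun := fun y => (InnerProductSpace.toDual ℝ L2).symm (l y)
      map_add' := fun y y' => by
        refine ext_inner_right ℝ fun x => ?_
        rw [inner_add_left, hinner, hinner, hinner]
        obtain ⟨R, hR⟩ := y.2
        obtain ⟨R', hR'⟩ := y'.2
        rw [← integral_add (hprod y R hR x).1 (hprod y' R' hR' x).1]
        refine integral_congr_ae ?_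
        have e : ((y + y' : Linf) : L2) = (y : L2) + (y' : L2) := rfl
        rw [e]
        filter_upwards [Lp.coeFn_add (y : L2) (y' : L2)] with t ht
        rw [ht, Pi.add_apply]
        ring
      map_smul' := fun a y => by
        refine ext_inner_right ℝ fun x => ?_
        rw [RingHom.id_apply, real_inner_smul_left, hinner, hinner, ← integral_const_mul]
        refine integral_congr_ae ?_
        have e : ((a • y : Linf) : L2) = a • (y : L2) := rfl
        rw [e]
        filter_upwards [Lp.coeFn_smul a (y : L2)] with t ht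
        rw [ht, Pi.smul_apply, smul_eq_mul]
        ring }
  have hS : ∀ (y : Linf) (x : L2), ∫ t, x t * (S y) t ∂lam = ∫ t, (y : L2) t * T (x : F0) t ∂lam := by
    intro y x
    rw [← inner_eq, real_inner_comm]
    exact hinner y x
  -- upper bound for `S`
  have hTx : ∀ x : L2, md Φ x ≤ 1 → md Φ (fun t => T (x : F0) t / (K + 1)) ≤ 1 := by
    intro x hx
    have h1 : Nm Φ (x : F0) ≤ 1 := Nm_le one_pos (by simpa using hx)
    have h2 : Nm Φ (T (x : F0)) < K + 1 := by
      have := hKb _ (hmem x)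
      nlinarith [Nm_nonneg (Φ := Φ) (x : F0)]
    exact md_of_lt hΦ (hT.maps _ (hmem x)) h2
  have hSup : ∀ y : Linf, md (conj Φ) (y : L2) ≤ 1 →
      md (conj Φ) (fun t => (S y) t / (2 * (K + 1))) ≤ 1 := by
    intro y hy
    have hwm : AEMeasurable (fun t => (S y) t) lam := (Lp.aestronglyMeasurable (S y)).aemeasurable
    refine ko hΦ hs (hwm.div_const _) fun x hx hx1 => ?_
    obtain ⟨z, hz, hz1⟩ := exists_sgn x hx hwm (MeasurableSet.univ : MeasurableSet (univ : Set ℝ))
    have hzx : md Φ z ≤ 1 := by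
      refine (md_mono hM ?_).trans hx1
      filter_upwards [hz1] with t ht
      rw [(ht.2 (mem_univ t)).1]
      exact le_abs_self _
    have h1 : ∫ t, x t * |(S y) t| ∂lam = ∫ t, (y : L2) t * T (z : F0) t ∂lam := by
      rw [← hS y z]
      refine integral_congr_ae ?_
      filter_upwards [hz1] with t ht
      exact (ht.2 (mem_univ t)).2.symm
    have hi : Integrable (fun t => x t * |(S y) t|) lam := by
      refine (int_mul z (S y)).congr ?_
      filter_upwards [hz1] with t ht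
      exact (ht.2 (mem_univ t)).2
    have h2 : ∫⁻ t, ENNReal.ofReal (x t * |(S y) t|) ∂lam ≤ ENNReal.ofReal (K + 1) * 2 := by
      rw [← ofReal_integral_eq_lintegral_ofReal hi
        (Eventually.of_forall fun t => mul_nonneg (hx t) (abs_nonneg _)), h1]
      obtain ⟨R, hR⟩ := y.2
      refine (ofReal_int_le (hprod y R hR z).1).trans ?_
      have e2 : (fun t => ENNReal.ofReal |(y : L2) t * T (z : F0) t|) =
          fun t => ENNReal.ofReal ((K + 1) * (|T (z : F0) t / (K + 1)| * |(y : L2) t|)) := by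
        funext t
        rw [abs_mul, abs_div, abs_of_pos (show (0 : ℝ) < K + 1 by linarith)]
        congr 1
        have : K + 1 ≠ 0 := by linarith
        field_simp
      rw [e2, lint_const (by linarith)]
      gcongr
      have hTm : AEMeasurable (fun t => T (z : F0) t / (K + 1)) lam :=
        (T (z : F0)).aestronglyMeasurable.aemeasurable.div_const _
      refine (young_md hΦ hs hTm).trans ?_
      calc md Φ (fun t => T (z : F0) t / (K + 1)) + md (conj Φ) (y : L2) ≤ 1 + 1 :=
            add_le_add (hTx z hzx) hy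
        _ = 2 := by norm_num
    have e3 : (fun t => ENNReal.ofReal (x t * |(S y) t / (2 * (K + 1))|)) =
        fun t => ENNReal.ofReal (1 / (2 * (K + 1)) * (x t * |(S y) t|)) := by
      funext t
      rw [abs_div, abs_of_pos (show (0 : ℝ) < 2 * (K + 1) by positivity)]
      congr 1
      ring
    rw [e3, lint_const (by positivity)]
    calc ENNReal.ofReal (1 / (2 * (K + 1))) * ∫⁻ t, ENNReal.ofReal (x t * |(S y) t|) ∂lam
        ≤ ENNReal.ofReal (1 / (2 * (K + 1))) * (ENNReal.ofReal (K + 1) * 2) := by gcongr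
      _ = 1 := by
          rw [show (2 : ℝ≥0∞) = ENNReal.ofReal 2 by norm_num, ← ENNReal.ofReal_mul (by linarith),
            ← ENNReal.ofReal_mul (by positivity)]
          rw [show 1 / (2 * (K + 1)) * ((K + 1) * 2) = 1 by
            have : K + 1 ≠ 0 := by linarith
            field_simp]
          exact ENNReal.ofReal_one
  obtain ⟨C', hC'1, hC'⟩ := md_scale hΨ hd (2 * (K + 1)) (by positivity)
  have hc'pos : 0 < sigma Φ T / 8 := by positivity
  obtain ⟨e₁, f₁, he₁, hf₁, he0, hf0, hef⟩ := h S (C' * 2) (by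
    intro y hy
    have h4 := hC' (fun t => (S y) t / (2 * (K + 1)))
    have h5 : (fun t => 2 * (K + 1) * ((S y) t / (2 * (K + 1)))) = ((S y : L2) : ℝ → ℝ) := by
      funext t
      have : K + 1 ≠ 0 := by linarith
      field_simp
    rw [h5] at h4
    refine h4.trans ?_
    rw [ENNReal.ofReal_mul (by linarith)]
    gcongr
    calc (1 : ℝ≥0∞) + _ ≤ 1 + 1 := by
          gcongr
          exact hSup y hy
      _ = ENNReal.ofReal 2 := by
        rw [one_add_one_eq_two]
        simp) (sigma Φ T / 8 / 2) (by positivity)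
  set c' : ℝ := sigma Φ T / 8 with hc'
  -- bounded functions, modular at most one
  have claim0 : ∀ x : L2, (∀ᵐ t ∂lam, t ∉ e₁ → x t = 0) → md Φ x ≤ 1 →
      md Φ (fun t => f₁.indicator (fun s => T (x : F0) s) t / c') ≤ 1 := by
    intro x hxs hx1
    have hTm : AEMeasurable (fun s => T (x : F0) s) lam :=
      (T (x : F0)).aestronglyMeasurable.aemeasurable
    rw [← md_conj_conj hΦ hs]
    refine ko hΨ hΨs ((hTm.indicator hf₁).div_const _) fun z hz hz1 => ?_
    obtain ⟨y, hyb, hy1⟩ := exists_sgn z hz hTm hf₁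
    have hy_md : md (conj Φ) y ≤ 1 := by
      refine (md_mono hΨ.qorl ?_).trans hz1
      filter_upwards [hy1] with t ht
      by_cases h : t ∈ f₁
      · rw [(ht.2 h).1]
        exact le_abs_self _
      · rw [ht.1 h, abs_zero]
        exact abs_nonneg _
    let Y : Linf := ⟨y, hyb⟩
    have hY := hef Y (by
      filter_upwards [hy1] with t ht h
      exact ht.1 h) hy_md
    have hiT : Integrable (fun t => y t * T (x : F0) t) lam := by
      obtain ⟨R, hR⟩ := hyb
      exact (hprod y R hR x).1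
    have e1 : (fun t => y t * T (x : F0) t) =ᵐ[lam]
        fun t => c' * (z t * |f₁.indicator (fun s => T (x : F0) s) t / c'|) := by
      filter_upwards [hy1] with t ht
      by_cases h : t ∈ f₁
      · rw [(ht.2 h).2, indicator_of_mem h, abs_div, abs_of_pos hc'pos]
        field_simp
      · rw [ht.1 h, indicator_of_notMem h]
        simp
    have h1 : ENNReal.ofReal c' * ∫⁻ t, ENNReal.ofReal
        (z t * |f₁.indicator (fun s => T (x : F0) s) t / c'|) ∂lam =
          ENNReal.ofReal (∫ t, y t * T (x : F0) t ∂lam) := by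
      rw [integral_congr_ae e1, ofReal_integral_eq_lintegral_ofReal (hiT.congr e1)
        (Eventually.of_forall fun t => mul_nonneg hc'pos.le (mul_nonneg (hz t) (abs_nonneg _))),
        lint_const hc'pos.le]
    have h2 : ENNReal.ofReal (∫ t, y t * T (x : F0) t ∂lam) ≤ ENNReal.ofReal c' := by
      rw [← hS Y x]
      refine (ofReal_int_le (int_mul x (S Y))).trans ?_
      have e2 : (fun t => ENNReal.ofReal |x t * (S Y) t|) =ᵐ[lam]
          fun t => ENNReal.ofReal
            (c' / 2 * (|x t| * |e₁.indicator (fun s => (S Y) s) t / (c' / 2)|)) := by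
        filter_upwards [hxs] with t ht
        by_cases h : t ∈ e₁
        · rw [indicator_of_mem h, abs_div, abs_mul, abs_of_pos (half_pos hc'pos)]
          congr 1
          field_simp
        · rw [ht h]
          simp
      rw [lintegral_congr_ae e2, lint_const (half_pos hc'pos).le]
      have h5 := young_md hΦ hs (x := fun t => x t)
        (y := fun t => e₁.indicator (fun s => (S Y) s) t / (c' / 2))
        (Lp.aestronglyMeasurable x).aemeasurable
      calc ENNReal.ofReal (c' / 2) *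
            ∫⁻ t, ENNReal.ofReal (|x t| * |e₁.indicator (fun s => (S Y) s) t / (c' / 2)|) ∂lam
          ≤ ENNReal.ofReal (c' / 2) * (1 + 1) := by
            gcongr
            exact h5.trans (add_le_add hx1 hY)
        _ = ENNReal.ofReal c' := by
            rw [show (1 : ℝ≥0∞) + 1 = ENNReal.ofReal 2 by norm_num,
              ← ENNReal.ofReal_mul (half_pos hc'pos).le]
            congr 1
            ring
    have h3 := h1.le.trans h2
    have hc0 : ENNReal.ofReal c' ≠ 0 := (ENNReal.ofReal_pos.2 hc'pos).ne'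
    have h4 : ENNReal.ofReal c' * ∫⁻ t, ENNReal.ofReal
        (z t * |f₁.indicator (fun s => T (x : F0) s) t / c'|) ∂lam ≤ ENNReal.ofReal c' * 1 := by
      rw [mul_one]
      exact h3
    exact (ENNReal.mul_le_mul_iff_right hc0 ENNReal.ofReal_ne_top).1 h4
  -- bounded functions
  have claim1 : ∀ x : F0, (∃ R : ℝ, ∀ᵐ t ∂lam, |x t| ≤ R) → (∀ᵐ t ∂lam, t ∉ e₁ → x t = 0) →
      ∀ r : ℝ, Nm Φ x < r → Nm Φ (Q f₁ hf₁ (T x)) ≤ c' * r := by
    rintro x ⟨R, hR⟩ hxs r hr
    have hr0 : 0 < r := (Nm_nonneg x).trans_lt hr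
    have hx : x ∈ LPhi Φ := mem_LPhi_of_bdd hΦ hR
    set y : F0 := (1 / r) • x with hy
    have hyx : (y : ℝ → ℝ) =ᵐ[lam] fun t => x t / r := by
      filter_upwards [AEEqFun.coeFn_smul (1 / r) x] with t ht
      rw [ht]
      simp only [Pi.smul_apply, smul_eq_mul]
      ring
    have hyL : y ∈ LPhi Φ := LPhi_smul hΦ _ hx
    have hyb : ∀ᵐ t ∂lam, |y t| ≤ R / r := by
      filter_upwards [hyx, hR] with t h1 h2
      rw [h1, abs_div, abs_of_pos hr0]
      gcongr
    have hy2 : MemLp y 2 lam := MemLp.of_bound y.aestronglyMeasurable (R / r) hyb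
    let Y : L2 := ⟨y, Lp.mem_Lp_iff_memLp.2 hy2⟩
    have h1 := claim0 Y (by
      filter_upwards [hyx, hxs] with t h1 h2 h3
      show y t = 0
      rw [h1, h2 h3, zero_div]) (by
      show md Φ y ≤ 1
      rw [md_congr hyx]
      exact md_of_lt hΦ hx hr)
    have h2 : Nm Φ (Q f₁ hf₁ (T y)) ≤ c' := by
      refine Nm_le hc'pos (le_trans (le_of_eq (md_congr ?_)) h1)
      filter_upwards [Q_coe f₁ hf₁ (T y)] with t h3
      rw [h3]
    rw [hy, hT.smul _ _ hx, Q_smul, Nm_smul hΦ _ (Q_mem hΦ f₁ hf₁ (hT.maps _ hx)),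
      abs_of_pos (by positivity)] at h2
    rw [one_div, inv_mul_le_iff₀ hr0] at h2
    linarith
  have claim2 : ∀ x ∈ LPhi Φ, (∀ᵐ t ∂lam, t ∉ e₁ → x t = 0) →
      Nm Φ (Q f₁ hf₁ (T x)) ≤ c' * Nm Φ x := by
    intro x hx hxs
    refine le_of_forall_pos_le_add fun ε hε => ?_
    set δ : ℝ := ε / (2 * (K + 1)) with hδ
    have hδ0 : 0 < δ := by positivity
    obtain ⟨E, hE, R, hER, hEδ⟩ := trunc hΦ hdΦ hx hδ0
    have hsplit := Q_add_compl E hE x
    have h1 : Nm Φ (Q E hE x) ≤ Nm Φ x := Nm_Q_le hΦ E hE hx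
    have hL1 : Q E hE x ∈ LPhi Φ := Q_mem hΦ E hE hx
    have hL2 : Q Eᶜ hE.compl x ∈ LPhi Φ := Q_mem hΦ Eᶜ hE.compl hx
    have h2 := claim1 (Q E hE x) ⟨max R 0, by
      filter_upwards [Q_coe E hE x] with t ht
      rw [ht]
      by_cases hm : t ∈ E
      · rw [indicator_of_mem hm]
        exact (hER t hm).trans (le_max_left _ _)
      · rw [indicator_of_notMem hm, abs_zero]
        exact le_max_right _ _⟩ (by
      filter_upwards [Q_coe E hE x, hxs] with t ht h3 h4
      rw [ht]
      by_cases hm : t ∈ E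
      · rw [indicator_of_mem hm, h3 h4]
      · rw [indicator_of_notMem hm]) (Nm Φ x + ε / (2 * c')) (by
      have : 0 < ε / (2 * c') := by positivity
      linarith)
    have h3 : Nm Φ (Q f₁ hf₁ (T (Q Eᶜ hE.compl x))) ≤ ε / 2 := by
      calc _ ≤ Nm Φ (T (Q Eᶜ hE.compl x)) := Nm_Q_le hΦ f₁ hf₁ (hT.maps _ hL2)
        _ ≤ K * Nm Φ (Q Eᶜ hE.compl x) := hKb _ hL2
        _ ≤ (K + 1) * δ := mul_le_mul (by linarith) hEδ (Nm_nonneg _) (by linarith)
        _ = ε / 2 := by
          rw [hδ]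
          have : K + 1 ≠ 0 := by linarith
          field_simp
    have h4 : Q f₁ hf₁ (T x) = Q f₁ hf₁ (T (Q E hE x)) + Q f₁ hf₁ (T (Q Eᶜ hE.compl x)) := by
      rw [← Q_add, ← hT.add _ hL1 _ hL2, hsplit]
    rw [h4]
    have h5 := Nm_add hΦ (Q_mem hΦ f₁ hf₁ (hT.maps _ hL1)) (Q_mem hΦ f₁ hf₁ (hT.maps _ hL2))
    have h6 : c' * (Nm Φ x + ε / (2 * c')) = c' * Nm Φ x + ε / 2 := by
      field_simp
    linarith
  have hbn : blockNorm Φ T f₁ e₁ hf₁ he₁ ≤ c' := by
    refine csInf_le ⟨0, fun C hC => hC.1⟩ ⟨hc'pos.le, fun x hx => ?_⟩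
    have hq1 : ∀ᵐ t ∂lam, t ∉ e₁ → (Q e₁ he₁ x) t = 0 := by
      filter_upwards [Q_coe e₁ he₁ x] with t ht h3
      rw [ht, indicator_of_notMem h3]
    refine (claim2 _ (Q_mem hΦ e₁ he₁ hx) hq1).trans ?_
    exact mul_le_mul_of_nonneg_left (Nm_Q_le hΦ e₁ he₁ hx) hc'pos.le
  have hsig : sigma Φ T ≤ blockNorm Φ T f₁ e₁ hf₁ he₁ := by
    refine csInf_le ⟨0, ?_⟩ ⟨f₁, e₁, hf₁, he₁, ENNReal.mul_pos hf0 he0, rfl⟩
    rintro r ⟨e', f', he', hf', -, rfl⟩
    exact Real.sInf_nonneg fun C hC => hC.1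
  linarith

end

end Pool.Agent.OB9
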