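import Pool.Agent.OB9.Core

/-!
# Module OB9/WalB

Walsh signs.

PROOF. `abs_wal`: induction on `n`. `wal_orth`: induction on `n`: split the sum over `s < 2^(n+1)` as
`s = 2 s' + ε`, `ε ∈ {0,1}`, `s' < 2^n` (`Finset.sum_range_succ_mul_comm`-like; e.g. prove
`∑ s ∈ range (2 * m), f s = ∑ s ∈ range m, (f (2 s) + f (2 s + 1))`). With `u = 2 u' + a`,
`v = 2 v' + b` the sum is `(∑_ε (-1)^{ε a} (-1)^{ε b}) ∑_{s'} wal n u' s' wal n v' s'`; if `a ≠ b` the
first factor is `0`, otherwise `u' ≠ v'` and the second one is `0` by induction.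
-/

set_option autoImplicit false

namespace Pool.Agent.OB9

open MeasureTheory Set Filter
open scoped ENNReal Topology

noncomputable section

theorem abs_wal (n u s : ℕ) : |wal n u s| = 1 := by
  induction n generalizing u s with
  | zero => simp [wal]
  | succ n ih =>
    rw [wal, abs_mul, ih]
    split_ifs <;> simp

private theorem sum_range_two_mul (f : ℕ → ℝ) (m : ℕ) :
    ∑ s ∈ Finset.range (2 * m), f s = ∑ s ∈ Finset.range m, (f (2 * s) + f (2 * s + 1)) := by
  induction m with
  | zero => simp
  | succ m ih =>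
    rw [show 2 * (m + 1) = 2 * m + 1 + 1 by ring, Finset.sum_range_succ, Finset.sum_range_succ, ih,
      Finset.sum_range_succ]
    ring

theorem wal_orth {n u v : ℕ} (hu : u < 2 ^ n) (hv : v < 2 ^ n) (h : u ≠ v) :
    ∑ s ∈ Finset.range (2 ^ n), wal n u s * wal n v s = 0 := by
  induction n generalizing u v with
  | zero =>
    exfalso
    simp at hu hv
    omega
  | succ n ih =>
    rw [show (2 : ℕ) ^ (n + 1) = 2 * 2 ^ n by ring, sum_range_two_mul]
    have key : ∀ s : ℕ, wal (n + 1) u (2 * s) * wal (n + 1) v (2 * s)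
        + wal (n + 1) u (2 * s + 1) * wal (n + 1) v (2 * s + 1)
        = (1 + (if u % 2 = 1 then -1 else 1) * (if v % 2 = 1 then -1 else 1)) *
          (wal n (u / 2) s * wal n (v / 2) s) := by
      intro s
      simp only [wal]
      have e1 : (2 * s) % 2 = 0 := by omega
      have e2 : (2 * s + 1) % 2 = 1 := by omega
      have e3 : (2 * s) / 2 = s := by omega
      have e4 : (2 * s + 1) / 2 = s := by omega
      rw [e1, e2, e3, e4]
      simp only [show ¬ ((0 : ℕ) = 1) by omega, and_false, and_true, if_false]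
      ring
    rw [Finset.sum_congr rfl (fun s _ => key s), ← Finset.mul_sum]
    by_cases hab : u % 2 = v % 2
    · rw [ih (u := u / 2) (v := v / 2) (by rw [pow_succ] at hu; omega)
        (by rw [pow_succ] at hv; omega) (by omega), mul_zero]
    · have : (1 : ℝ) + (if u % 2 = 1 then -1 else 1) * (if v % 2 = 1 then -1 else 1) = 0 := by
        rcases Nat.mod_two_eq_zero_or_one u with h1 | h1 <;>
          rcases Nat.mod_two_eq_zero_or_one v with h2 | h2
        · exact absurd (h1.trans h2.symm) hab
        · rw [h1, h2]; norm_num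
        · rw [h1, h2]; norm_num
        · exact absurd (h1.trans h2.symm) hab
      rw [this, zero_mul]

end

end Pool.Agent.OB9
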