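import Pool.Agent.OB9.RadI
import Pool.Agent.OB9.WalB
import Pool.Agent.OB9.AdrB

/-!
# Module OB9/EsB

The type I functions `es`.

PROOF. `es` is measurable, with values in `{-1, 0, 1}`, and nonzero exactly where `idx a t` is the
address (`|wal| = |rad| = 1`). `es_idx`: all the ingredients are functions of `idx p t` for `t ≥ 0`
(`idx_div`, `rad_eq_idx`). `es_sq`: `es² = 1_{idx a t = adr}`, `integral_idx` at level `a`.
`es_orth_same` (`i ≠ j`, same system): the factors `rad p` cancel (`rad_mul_self`); if the addresses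
differ the product is `0`; if they agree, then `wix i ≠ wix j` (`adr_wix_inj`), and the integral is
`2^{-b} ∑_{k < 2^b, k/2^(b-a) = m} wal(.., k % 2^(b-a)) wal(..) = 2^{-b} ∑_s wal wal = 0` (`wal_orth`;
`integral_idx` at level `b`, `idx a t = idx b t / 2^(b-a)`). `es_orth_level`: if `c` is a function of
`idx q t`, `q < p` and `b < p`, then `c · es` is a function of `idx (max q b) t` times `rad p`:
`integral_rad`.
-/

set_option autoImplicit false

namespace Pool.Agent.OB9

open MeasureTheory Set Filter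
open scoped ENNReal Topology

noncomputable section

theorem measurable_es (l a b p i : ℕ) : Measurable (es l a b p i) := by
  have h1 : Measurable fun t => (if idx a t = adr l a b i then (1 : ℝ) else 0) :=
    (measurable_from_nat (f := fun k => if k = adr l a b i then (1 : ℝ) else 0)).comp
      (measurable_idx a)
  have h2 : Measurable fun t => wal (b - a) (wix l a b i) (idx b t % 2 ^ (b - a)) :=
    (measurable_from_nat (f := fun k => wal (b - a) (wix l a b i) (k % 2 ^ (b - a)))).comp
      (measurable_idx b)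
  exact (h1.mul h2).mul (measurable_rad p)

theorem es_vals (l a b p i : ℕ) (t : ℝ) : es l a b p i t = 0 ∨ |es l a b p i t| = 1 := by
  unfold es
  by_cases h : idx a t = adr l a b i
  · right
    rw [if_pos h, one_mul, abs_mul, abs_wal, abs_rad, one_mul]
  · left
    rw [if_neg h, zero_mul, zero_mul]

theorem es_ne_zero (l a b p i : ℕ) (t : ℝ) :
    es l a b p i t ≠ 0 ↔ idx a t = adr l a b i := by
  constructor
  · intro h
    by_contra h1
    apply h
    unfold es
    rw [if_neg h1, zero_mul, zero_mul]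
  · intro h h0
    have h1 : |es l a b p i t| = 1 := by
      unfold es
      rw [if_pos h, one_mul, abs_mul, abs_wal, abs_rad, one_mul]
    rw [h0, abs_zero] at h1
    exact zero_ne_one h1

private theorem eb_idx {n r : ℕ} (h : n ≤ r) {t : ℝ} (ht : 0 ≤ t) :
    idx n t = idx r t / 2 ^ (r - n) := by
  have h1 := idx_div n (r - n) ht
  rw [Nat.add_sub_cancel' h] at h1
  exact h1.symm

private theorem es_form {l a b r : ℕ} (h : l + a ≤ b) (i : ℕ) (hr : b ≤ r) :
    ∃ c : ℕ → ℝ, ∀ p t, 0 ≤ t → es l a b p i t = c (idx r t) * rad p t := by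
  refine ⟨fun k => (if k / 2 ^ (r - a) = adr l a b i then 1 else 0) *
    wal (b - a) (wix l a b i) (k / 2 ^ (r - b) % 2 ^ (b - a)), fun p t ht => ?_⟩
  unfold es
  rw [eb_idx (show a ≤ r by omega) ht, eb_idx hr ht]

theorem es_idx {l a b p i : ℕ} (h : l + a ≤ b) (hp : b ≤ p) :
    ∃ c : ℕ → ℝ, ∀ t, 0 ≤ t → es l a b p i t = c (idx p t) := by
  obtain ⟨c, hc⟩ := es_form h i hp
  obtain ⟨d, hd⟩ := rad_eq_idx (le_refl p)
  exact ⟨fun k => c k * d k, fun t ht => by rw [hc p t ht, hd t ht]⟩

theorem es_sq (l a b p i : ℕ) : ∫ t, es l a b p i t ^ 2 ∂lam = 1 / 2 ^ a := by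
  have h1 : (fun t => es l a b p i t ^ 2) =
      fun t => (fun k => if k = adr l a b i then (1 : ℝ) else 0) (idx a t) := by
    funext t
    by_cases h : idx a t = adr l a b i
    · have h2 : |es l a b p i t| = 1 := by
        unfold es
        rw [if_pos h, one_mul, abs_mul, abs_wal, abs_rad, one_mul]
      rw [← sq_abs, h2]
      simp [h]
    · have h2 : es l a b p i t = 0 := by
        unfold es
        rw [if_neg h, zero_mul, zero_mul]
      rw [h2]
      simp [h]
  have h2 := integral_idx a (fun k => if k = adr l a b i then (1 : ℝ) else 0)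
  rw [Finset.sum_ite_eq' (Finset.range (2 ^ a)),
    if_pos (Finset.mem_range.2 (adr_lt l a b i))] at h2
  rw [h1]
  exact h2

private theorem eb_sum {a b m : ℕ} (hab : a ≤ b) (hm : m < 2 ^ a) (g : ℕ → ℝ) :
    (∑ k ∈ Finset.range (2 ^ b), if k / 2 ^ (b - a) = m then g (k % 2 ^ (b - a)) else 0) =
      ∑ s ∈ Finset.range (2 ^ (b - a)), g s := by
  have hB : 0 < 2 ^ (b - a) := by positivity
  have hpow : 2 ^ b = 2 ^ a * 2 ^ (b - a) := by
    rw [← pow_add, Nat.add_sub_cancel' hab]
  rw [← Finset.sum_filter]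
  refine Finset.sum_nbij' (fun k => k % 2 ^ (b - a)) (fun s => m * 2 ^ (b - a) + s) ?_ ?_ ?_ ?_ ?_
  · intro k _
    exact Finset.mem_range.2 (Nat.mod_lt _ hB)
  · intro s hs
    rw [Finset.mem_range] at hs
    rw [Finset.mem_filter, Finset.mem_range]
    constructor
    · rw [hpow]
      calc m * 2 ^ (b - a) + s < m * 2 ^ (b - a) + 2 ^ (b - a) := by omega
        _ = (m + 1) * 2 ^ (b - a) := by ring
        _ ≤ 2 ^ a * 2 ^ (b - a) := Nat.mul_le_mul_right _ hm
    · rw [mul_comm, Nat.mul_add_div hB, Nat.div_eq_of_lt hs, add_zero]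
  · intro k hk
    rw [Finset.mem_filter] at hk
    have h1 := Nat.div_add_mod k (2 ^ (b - a))
    rw [hk.2] at h1
    rw [mul_comm m]
    exact h1
  · intro s hs
    rw [Finset.mem_range] at hs
    rw [mul_comm, Nat.mul_add_mod, Nat.mod_eq_of_lt hs]
  · intro k _
    rfl

theorem es_orth_same {l a b p i j : ℕ} (h : l + a ≤ b) (hi : i < 2 ^ b) (hj : j < 2 ^ b)
    (hij : i ≠ j) : ∫ t, es l a b p i t * es l a b p j t ∂lam = 0 := by
  set c : ℕ → ℝ := fun k => if k / 2 ^ (b - a) = adr l a b i ∧ adr l a b i = adr l a b j then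
    wal (b - a) (wix l a b i) (k % 2 ^ (b - a)) * wal (b - a) (wix l a b j) (k % 2 ^ (b - a))
    else 0 with hc
  have h1 : ∀ᵐ t ∂lam, es l a b p i t * es l a b p j t = c (idx b t) := by
    filter_upwards [ae_mem_Ico] with t ht
    have h2 := rad_mul_self p t
    have h3 : idx a t = idx b t / 2 ^ (b - a) := eb_idx (by omega) ht.1
    unfold es
    rw [hc]
    simp only
    rw [h3]
    by_cases c1 : idx b t / 2 ^ (b - a) = adr l a b i
    · by_cases c2 : adr l a b i = adr l a b j
      · rw [if_pos c1, if_pos (c1.trans c2), if_pos ⟨c1, c2⟩, one_mul, one_mul]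
        calc _ = wal (b - a) (wix l a b i) (idx b t % 2 ^ (b - a)) *
              wal (b - a) (wix l a b j) (idx b t % 2 ^ (b - a)) * (rad p t * rad p t) := by ring
          _ = _ := by rw [h2, mul_one]
      · have c3 : ¬ idx b t / 2 ^ (b - a) = adr l a b j := fun h4 => c2 (c1.symm.trans h4)
        have c4 : ¬ (idx b t / 2 ^ (b - a) = adr l a b i ∧ adr l a b i = adr l a b j) :=
          fun h4 => c2 h4.2
        rw [if_neg c3, if_neg c4, zero_mul, zero_mul, mul_zero]
    · have c4 : ¬ (idx b t / 2 ^ (b - a) = adr l a b i ∧ adr l a b i = adr l a b j) :=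
        fun h4 => c1 h4.1
      rw [if_neg c1, if_neg c4, zero_mul, zero_mul, zero_mul]
  rw [integral_congr_ae h1, integral_idx]
  by_cases c2 : adr l a b i = adr l a b j
  · have h4 : ∑ k ∈ Finset.range (2 ^ b), c k = ∑ s ∈ Finset.range (2 ^ (b - a)),
        wal (b - a) (wix l a b i) s * wal (b - a) (wix l a b j) s := by
      rw [← eb_sum (a := a) (b := b) (by omega) (adr_lt l a b i)
        (fun s => wal (b - a) (wix l a b i) s * wal (b - a) (wix l a b j) s)]
      refine Finset.sum_congr rfl fun k _ => ?_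
      rw [hc]
      simp only [c2, and_true]
    rw [h4, wal_orth (wix_lt h hi) (wix_lt h hj) (fun h5 => hij (adr_wix_inj h hi hj c2 h5)),
      zero_div]
  · have h4 : ∑ k ∈ Finset.range (2 ^ b), c k = 0 := by
      refine Finset.sum_eq_zero fun k _ => ?_
      rw [hc]
      simp only
      rw [if_neg (fun h5 => c2 h5.2)]
    rw [h4, zero_div]

theorem es_orth_level {l a b p i q : ℕ} (h : l + a ≤ b) (hb : b < p) (hq : q < p) (c : ℕ → ℝ)
    {F : ℝ → ℝ} (hF : ∀ t, 0 ≤ t → F t = c (idx q t)) :
    ∫ t, F t * es l a b p i t ∂lam = 0 := by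
  obtain ⟨d, hd⟩ := es_form h i (le_max_right q b)
  have h1 : ∀ᵐ t ∂lam, F t * es l a b p i t =
      (fun k => c (k / 2 ^ (max q b - q)) * d k) (idx (max q b) t) * rad p t := by
    filter_upwards [ae_mem_Ico] with t ht
    rw [hF t ht.1, hd p t ht.1, eb_idx (le_max_left q b) ht.1]
    ring
  rw [integral_congr_ae h1]
  exact integral_rad (max_lt hq hb) (fun k => c (k / 2 ^ (max q b - q)) * d k)

end

end Pool.Agent.OB9
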