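import Pool.Agent.OB9.MdB

/-!
# Module OB9/NmB

The Luxemburg norm on `F0`.

PROOF. The set `S = {r | 0 < r ∧ md Φ (x/r) ≤ 1}` is upward closed (`md_mono`) and bounded below by
`0`; for `x ∈ LPhi Φ` it is nonempty: if `md Φ (x/r) = K < ∞` use `md_div_le` with `max K 1`. So
`r > Nm Φ x` implies `r ∈ S` (`md_of_lt`). If `0 < Nm` then also `md Φ (x/Nm) ≤ 1` by `md_fatou`
(`md_of_pos`). `le_Nm`: if `r ∉ S`, `r > 0`, then every element of `S` is `> r`. `LPhi_add`,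
`Nm_add`: for `r > Nm x`, `s > Nm y` convexity gives `Φ(|x+y|/(r+s)) ≤ (r Φ(|x|/r) + s Φ(|y|/s))/(r+s)`
pointwise, so the modular is `≤ 1`. `Nm_smul`: scaling. `Nm_zero_iff`: if `Nm x = 0` then
`md Φ (n x) ≤ 1` for all `n`, and `Φ(n |x|) ≥ n Φ(..)`: `Φ (n |x t|) → ∞` where `x t ≠ 0`; so `x = 0`
a.e. (Fatou or Markov: `n md Φ' ≤ 1`; e.g. for `t1` with `Φ t1 > 0`, `Φ (n k t1) ≥ n Φ(k t1)`:
`lam {|x| ≥ t1/k}·Φ(t1)·n ≤ md Φ (n k x) ≤ 1`). `Q`: `Q e x` equals `e.indicator x` a.e.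
(`AEEqFun.coeFn_mk`) and `md_mono`.
-/

set_option autoImplicit false

namespace Pool.Agent.OB9

open MeasureTheory Set Filter
open scoped ENNReal Topology

noncomputable section

variable {Φ : ℝ → ℝ}

private theorem nb_bdd (x : F0) : BddBelow {r : ℝ | 0 < r ∧ md Φ (fun t => x t / r) ≤ 1} :=
  ⟨0, fun _ h => h.1.le⟩

private theorem nb_scale (hΦ : Orl Φ) {x : ℝ → ℝ} {r s : ℝ} (hr : 0 < r) (hrs : r ≤ s) :
    md Φ (fun t => x t / s) ≤ md Φ (fun t => x t / r) := by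
  refine md_mono hΦ.qorl (Eventually.of_forall fun t => ?_)
  rw [abs_div, abs_div, abs_of_pos hr, abs_of_pos (hr.trans_le hrs)]
  exact div_le_div_of_nonneg_left (abs_nonneg _) hr hrs

theorem Nm_nonneg (x : F0) : 0 ≤ Nm Φ x :=
  Real.sInf_nonneg fun _ h => h.1.le

theorem Nm_le {x : F0} {r : ℝ} (hr : 0 < r) (h : md Φ (fun t => x t / r) ≤ 1) :
    Nm Φ x ≤ r :=
  csInf_le (nb_bdd x) ⟨hr, h⟩

private theorem nb_ne (hΦ : Orl Φ) {x : F0} (hx : x ∈ LPhi Φ) :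
    {r : ℝ | 0 < r ∧ md Φ (fun t => x t / r) ≤ 1}.Nonempty := by
  obtain ⟨r, hr, h⟩ := hx
  have hK : (1 : ℝ) ≤ max (md Φ (fun t => x t / r)).toReal 1 := le_max_right _ _
  have h1 : md Φ (fun t => x t / r) ≤ ENNReal.ofReal (max (md Φ (fun t => x t / r)).toReal 1) := by
    rw [← ENNReal.ofReal_toReal h.ne]
    refine ENNReal.ofReal_le_ofReal ?_
    rw [ENNReal.toReal_ofReal ENNReal.toReal_nonneg]
    exact le_max_left _ _
  have h2 := md_div_le hΦ.qorl hK h1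
  refine ⟨r * max (md Φ (fun t => x t / r)).toReal 1, mul_pos hr (by linarith), ?_⟩
  simpa only [div_div] using h2

theorem md_of_lt (hΦ : Orl Φ) {x : F0} (hx : x ∈ LPhi Φ) {r : ℝ} (hr : Nm Φ x < r) :
    md Φ (fun t => x t / r) ≤ 1 := by
  obtain ⟨s, ⟨hs, h⟩, hsr⟩ := exists_lt_of_csInf_lt (nb_ne hΦ hx) hr
  exact (nb_scale hΦ hs hsr.le).trans h

theorem md_of_pos (hΦ : Orl Φ) {x : F0} (hx : x ∈ LPhi Φ) (hr : 0 < Nm Φ x) :
    md Φ (fun t => x t / Nm Φ x) ≤ 1 := by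
  refine md_fatou hΦ.qorl (x := fun n t => x t / (Nm Φ x + 1 / ((n : ℝ) + 1))) (fun n => ?_)
    (Eventually.of_forall fun t => ?_) (fun n => ?_)
  · exact x.aestronglyMeasurable.aemeasurable.div_const _
  · have h1 : Tendsto (fun n : ℕ => Nm Φ x + 1 / ((n : ℝ) + 1)) atTop (𝓝 (Nm Φ x + 0)) :=
      tendsto_const_nhds.add tendsto_one_div_add_atTop_nhds_zero_nat
    rw [add_zero] at h1
    exact tendsto_const_nhds.div h1 hr.ne'
  · refine md_of_lt hΦ hx ?_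
    have : (0 : ℝ) < 1 / ((n : ℝ) + 1) := by positivity
    linarith

theorem le_Nm (hΦ : Orl Φ) {x : F0} (hx : x ∈ LPhi Φ) {r : ℝ} (hr : 0 < r)
    (h : 1 < md Φ (fun t => x t / r)) : r ≤ Nm Φ x := by
  refine le_csInf (nb_ne hΦ hx) ?_
  rintro s ⟨hs, h1⟩
  by_contra hcon
  rw [not_le] at hcon
  exact absurd ((nb_scale hΦ hs hcon.le).trans h1) (not_le.2 h)

theorem mem_LPhi_of_md {x : F0} {r : ℝ} (hr : 0 < r) (h : md Φ (fun t => x t / r) ≤ 1) :
    x ∈ LPhi Φ :=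
  ⟨r, hr, h.trans_lt ENNReal.one_lt_top⟩

private theorem nb_add (hΦ : Orl Φ) {x y : F0} {r s : ℝ} (hr : 0 < r) (hs : 0 < s)
    (h1 : md Φ (fun t => x t / r) ≤ 1) (h2 : md Φ (fun t => y t / s) ≤ 1) :
    md Φ (fun t => (x + y : F0) t / (r + s)) ≤ 1 := by
  have hrs : 0 < r + s := add_pos hr hs
  have ha : 0 ≤ r / (r + s) := by positivity
  have hb : 0 ≤ s / (r + s) := by positivity
  have hab : r / (r + s) + s / (r + s) = 1 := by field_simp
  have hpt : ∀ᵐ t ∂lam, ENNReal.ofReal (Φ |(x + y : F0) t / (r + s)|) ≤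
      ENNReal.ofReal (r / (r + s)) * ENNReal.ofReal (Φ |x t / r|) +
      ENNReal.ofReal (s / (r + s)) * ENNReal.ofReal (Φ |y t / s|) := by
    filter_upwards [AEEqFun.coeFn_add x y] with t ht
    rw [ht, Pi.add_apply, ← ENNReal.ofReal_mul ha, ← ENNReal.ofReal_mul hb,
      ← ENNReal.ofReal_add (mul_nonneg ha (hΦ.qorl.nonneg (abs_nonneg _)))
        (mul_nonneg hb (hΦ.qorl.nonneg (abs_nonneg _)))]
    refine ENNReal.ofReal_le_ofReal ?_
    have h3 := hΦ.conv.2 (x := |x t / r|) (y := |y t / s|) (mem_Ici.2 (abs_nonneg _))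
      (mem_Ici.2 (abs_nonneg _)) ha hb hab
    simp only [smul_eq_mul] at h3
    refine le_trans ?_ h3
    refine hΦ.mono (mem_Ici.2 (abs_nonneg _)) ?_ ?_
    · change (0 : ℝ) ≤ _
      positivity
    · have e1 : (x t + y t) / (r + s) = r / (r + s) * (x t / r) + s / (r + s) * (y t / s) := by
        field_simp
      rw [e1]
      refine (abs_add_le _ _).trans ?_
      rw [abs_mul, abs_mul, abs_of_nonneg ha, abs_of_nonneg hb]
  have hm : AEMeasurable (fun t => ENNReal.ofReal (r / (r + s)) *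
      ENNReal.ofReal (Φ |x t / r|)) lam := by
    refine AEMeasurable.const_mul ?_ _
    refine AEMeasurable.ennreal_ofReal ?_
    exact hΦ.qorl.meas.comp_aemeasurable (x.aestronglyMeasurable.aemeasurable.div_const r)
  calc md Φ (fun t => (x + y : F0) t / (r + s))
      ≤ ∫⁻ t, (ENNReal.ofReal (r / (r + s)) * ENNReal.ofReal (Φ |x t / r|) +
      ENNReal.ofReal (s / (r + s)) * ENNReal.ofReal (Φ |y t / s|)) ∂lam := lintegral_mono_ae hpt
    _ = ENNReal.ofReal (r / (r + s)) * md Φ (fun t => x t / r) +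
        ENNReal.ofReal (s / (r + s)) * md Φ (fun t => y t / s) := by
        rw [lintegral_add_left' hm, lintegral_const_mul' _ _ ENNReal.ofReal_ne_top,
          lintegral_const_mul' _ _ ENNReal.ofReal_ne_top]
        rfl
    _ ≤ ENNReal.ofReal (r / (r + s)) * 1 + ENNReal.ofReal (s / (r + s)) * 1 := by gcongr
    _ = 1 := by
        rw [mul_one, mul_one, ← ENNReal.ofReal_add ha hb, hab, ENNReal.ofReal_one]

theorem LPhi_add (hΦ : Orl Φ) {x y : F0} (hx : x ∈ LPhi Φ) (hy : y ∈ LPhi Φ) :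
    x + y ∈ LPhi Φ := by
  obtain ⟨r, hr, h1⟩ := nb_ne hΦ hx
  obtain ⟨s, hs, h2⟩ := nb_ne hΦ hy
  exact mem_LPhi_of_md (add_pos hr hs) (nb_add hΦ hr hs h1 h2)

private theorem nb_smul_le (hΦ : Orl Φ) (a : ℝ) (x : F0) {r : ℝ} (hr : 0 < r) {s : ℝ}
    (hs : |a| * r ≤ s) (hs0 : 0 < s) :
    md Φ (fun t => (a • x : F0) t / s) ≤ md Φ (fun t => x t / r) := by
  refine md_mono hΦ.qorl ?_
  filter_upwards [AEEqFun.coeFn_smul a x] with t ht
  rw [ht, Pi.smul_apply, smul_eq_mul, abs_div, abs_div, abs_mul, abs_of_pos hs0, abs_of_pos hr,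
    div_le_div_iff₀ hs0 hr]
  have h1 := mul_le_mul_of_nonneg_left hs (abs_nonneg (x t))
  nlinarith

theorem LPhi_smul (hΦ : Orl Φ) (a : ℝ) {x : F0} (hx : x ∈ LPhi Φ) : a • x ∈ LPhi Φ := by
  obtain ⟨r, hr, h1⟩ := hx
  have hs0 : 0 < |a| * r + r := by positivity
  exact ⟨|a| * r + r, hs0, (nb_smul_le hΦ a x hr (by linarith) hs0).trans_lt h1⟩

theorem Nm_add (hΦ : Orl Φ) {x y : F0} (hx : x ∈ LPhi Φ) (hy : y ∈ LPhi Φ) :
    Nm Φ (x + y) ≤ Nm Φ x + Nm Φ y := by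
  refine le_of_forall_pos_le_add fun ε hε => ?_
  have hx0 := Nm_nonneg (Φ := Φ) x
  have hy0 := Nm_nonneg (Φ := Φ) y
  have h1 := md_of_lt hΦ hx (r := Nm Φ x + ε / 2) (by linarith)
  have h2 := md_of_lt hΦ hy (r := Nm Φ y + ε / 2) (by linarith)
  have h3 := Nm_le (by linarith) (nb_add hΦ (by linarith) (by linarith) h1 h2)
  linarith

private theorem nb_smul1 (hΦ : Orl Φ) (a : ℝ) {x : F0} (hx : x ∈ LPhi Φ) :
    Nm Φ (a • x) ≤ |a| * Nm Φ x := by
  refine le_of_forall_pos_le_add fun ε hε => ?_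
  have hx0 := Nm_nonneg (Φ := Φ) x
  have ha1 : 0 < |a| + 1 := by positivity
  have hr : 0 < Nm Φ x + ε / (|a| + 1) := by positivity
  have h1 := md_of_lt hΦ hx (r := Nm Φ x + ε / (|a| + 1)) (by
    have : 0 < ε / (|a| + 1) := by positivity
    linarith)
  have hs0 : 0 < |a| * Nm Φ x + ε := by positivity
  refine Nm_le hs0 ((nb_smul_le hΦ a x hr ?_ hs0).trans h1)
  rw [mul_add]
  have h2 : |a| * (ε / (|a| + 1)) ≤ ε := by
    rw [mul_div_assoc', div_le_iff₀ ha1]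
    nlinarith
  linarith

theorem Nm_smul (hΦ : Orl Φ) (a : ℝ) {x : F0} (hx : x ∈ LPhi Φ) :
    Nm Φ (a • x) = |a| * Nm Φ x := by
  refine le_antisymm (nb_smul1 hΦ a hx) ?_
  by_cases ha : a = 0
  · rw [ha, abs_zero, zero_mul]
    exact Nm_nonneg _
  · have h1 := nb_smul1 hΦ a⁻¹ (LPhi_smul hΦ a hx)
    rw [smul_smul, inv_mul_cancel₀ ha, one_smul, abs_inv] at h1
    have ha' : 0 < |a| := abs_pos.2 ha
    rw [inv_mul_eq_div, le_div_iff₀ ha'] at h1
    linarith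

theorem Nm_eq_zero (hΦ : Orl Φ) {x : F0} (hx : x ∈ LPhi Φ) (h : Nm Φ x = 0) : x = 0 := by
  obtain ⟨t1, ht0, ht1⟩ := hΦ.nontriv
  have hpos : 0 < t1 := lt_of_le_of_ne ht0 fun h0 => ht1 (h0 ▸ hΦ.zero)
  have hΦpos : 0 < Φ t1 := lt_of_le_of_ne (hΦ.qorl.nonneg ht0) (Ne.symm ht1)
  have hk : ∀ k : ℕ, lam {t | t1 / ((k : ℝ) + 1) ≤ |x t|} = 0 := by
    intro k
    by_contra hne
    have hfin : lam {t | t1 / ((k : ℝ) + 1) ≤ |x t|} ≠ ⊤ := measure_ne_top _ _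
    have hpos' : 0 < (lam {t | t1 / ((k : ℝ) + 1) ≤ |x t|}).toReal :=
      ENNReal.toReal_pos hne hfin
    obtain ⟨n, hn⟩ := exists_nat_gt (1 / (Φ t1 * (lam {t | t1 / ((k : ℝ) + 1) ≤ |x t|}).toReal))
    have hn0 : (0 : ℝ) < n := lt_trans (by positivity) hn
    have hn1 : (1 : ℝ) ≤ n := by
      have : 0 < n := by exact_mod_cast hn0
      exact_mod_cast this
    have hk1 : (0 : ℝ) < (k : ℝ) + 1 := by positivity
    have h1 := md_of_lt hΦ hx (r := 1 / (n * ((k : ℝ) + 1))) (by rw [h]; positivity)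
    have hm : AEMeasurable (fun t => ENNReal.ofReal (Φ |x t / (1 / (n * ((k : ℝ) + 1)))|)) lam :=
      (hΦ.qorl.meas.comp_aemeasurable
        (x.aestronglyMeasurable.aemeasurable.div_const _)).ennreal_ofReal
    have h2 := mul_meas_ge_le_lintegral₀ hm (ENNReal.ofReal (n * Φ t1))
    have h3 : lam {t | t1 / ((k : ℝ) + 1) ≤ |x t|} ≤ lam {t | ENNReal.ofReal (n * Φ t1) ≤
        ENNReal.ofReal (Φ |x t / (1 / (n * ((k : ℝ) + 1)))|)} := by
      refine measure_mono fun t ht => ?_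
      refine ENNReal.ofReal_le_ofReal ?_
      have ht' : t1 / ((k : ℝ) + 1) ≤ |x t| := ht
      refine (hΦ.qorl.super hn1 ht0).trans (hΦ.mono ?_ ?_ ?_)
      · change (0 : ℝ) ≤ _
        positivity
      · exact mem_Ici.2 (abs_nonneg _)
      · rw [div_div_eq_mul_div, div_one, abs_mul, abs_mul, abs_of_pos hn0, abs_of_pos hk1]
        rw [div_le_iff₀ hk1] at ht'
        nlinarith
    have h4 : ENNReal.ofReal (n * Φ t1) * lam {t | t1 / ((k : ℝ) + 1) ≤ |x t|} ≤ 1 :=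
      (mul_le_mul_right h3 _).trans (h2.trans h1)
    have h5 := ENNReal.toReal_mono ENNReal.one_ne_top h4
    rw [ENNReal.toReal_mul, ENNReal.toReal_ofReal (by positivity), ENNReal.toReal_one] at h5
    rw [div_lt_iff₀ (by positivity)] at hn
    nlinarith
  refine AEEqFun.ext ?_
  filter_upwards [AEEqFun.coeFn_zero (α := ℝ) (β := ℝ) (μ := lam),
    ae_all_iff.2 fun k => measure_eq_zero_iff_ae_notMem.1 (hk k)] with t h0 h1
  rw [h0, Pi.zero_apply]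
  by_contra hne
  have hxt : 0 < |x t| / t1 := div_pos (abs_pos.2 hne) hpos
  obtain ⟨k, hk'⟩ := exists_nat_one_div_lt hxt
  refine h1 k ?_
  rw [lt_div_iff₀ hpos] at hk'
  have e1 : t1 / ((k : ℝ) + 1) = 1 / ((k : ℝ) + 1) * t1 := by ring
  rw [e1]
  exact hk'.le

theorem mem_LPhi_of_bdd (hΦ : Orl Φ) {x : F0} {R : ℝ} (h : ∀ᵐ t ∂lam, |x t| ≤ R) :
    x ∈ LPhi Φ := by
  refine ⟨1, one_pos, ?_⟩
  have h1 : md Φ (fun t => x t / 1) ≤ ENNReal.ofReal (Φ R) := by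
    refine md_const_le hΦ.qorl ?_
    filter_upwards [h] with t ht
    rwa [div_one]
  exact h1.trans_lt ENNReal.ofReal_lt_top

theorem Q_coe (e : Set ℝ) (he : MeasurableSet e) (x : F0) :
    (Q e he x : ℝ → ℝ) =ᵐ[lam] e.indicator x :=
  AEEqFun.coeFn_mk _ _

private theorem nb_Q (hΦ : Orl Φ) (e : Set ℝ) (he : MeasurableSet e) (x : F0) (r : ℝ) :
    md Φ (fun t => Q e he x t / r) ≤ md Φ (fun t => x t / r) := by
  refine md_mono hΦ.qorl ?_
  filter_upwards [Q_coe e he x] with t ht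
  rw [ht, abs_div, abs_div]
  refine div_le_div_of_nonneg_right ?_ (abs_nonneg _)
  by_cases h : t ∈ e
  · rw [indicator_of_mem h]
  · rw [indicator_of_notMem h, abs_zero]
    exact abs_nonneg _

theorem Q_mem (hΦ : Orl Φ) (e : Set ℝ) (he : MeasurableSet e) {x : F0} (hx : x ∈ LPhi Φ) :
    Q e he x ∈ LPhi Φ := by
  obtain ⟨r, hr, h⟩ := hx
  exact ⟨r, hr, (nb_Q hΦ e he x r).trans_lt h⟩

theorem Nm_Q_le (hΦ : Orl Φ) (e : Set ℝ) (he : MeasurableSet e) {x : F0} (hx : x ∈ LPhi Φ) :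
    Nm Φ (Q e he x) ≤ Nm Φ x := by
  refine le_of_forall_pos_le_add fun ε hε => ?_
  have hx0 := Nm_nonneg (Φ := Φ) x
  exact Nm_le (by linarith) ((nb_Q hΦ e he x _).trans (md_of_lt hΦ hx (by linarith)))

end

end Pool.Agent.OB9
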