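import Pool.Agent.OB9.AdjB
import Pool.Agent.OB9.NmB

/-!
# Module OB9/ExtA

The value of the extension of `T` to `L^Φ` at one `x`, by the Radon-Nikodym theorem.

PROOF. `S = adjoint T`, `Ψ = conj Φ`, `BddOn Ψ S (2C)` (`adj_bdd`), `ind A ∈ L2` the indicator. Let
`r > 0` with `md Φ (x/r) ≤ 1`. For measurable `A` and `ρ > 0` with `Ψ(1/ρ) lam(A) ≤ 1` we have
`md Ψ (1_A/ρ) ≤ 1`, so `w = S(1_A)/(2 C ρ)` has `md Ψ w ≤ 1`, and by Young
`∫ |x/r| |w| ≤ 2`: `x · S(1_A)` is integrable and `|ν A| ≤ 4 C r ρ`, `ν A = ∫ x S(1_A)`. `ν` is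
additive on disjoint sets, and `ν A → 0` as `lam A → 0` (take `ρ` small; need only
`lam A ≤ 1/(Ψ(1/ρ)+1)`). So `ν` is a signed measure: define the `VectorMeasure` with value `ν A` on
measurable `A`; for disjoint `A_i` the sum of `ν A_i` converges to `ν (⋃ A_i)` since
`lam (⋃_{i ≥ n} A_i) → 0` (to get `HasSum` note that the same holds for every subfamily, or use the
bound for finite sums outside a finite set). It is absolutely continuous, so
`SignedMeasure.withDensityᵥ_rnDeriv_eq` (or the like) gives the density `w`.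
-/

set_option autoImplicit false

namespace Pool.Agent.OB9

open MeasureTheory Set Filter
open scoped ENNReal Topology

noncomputable section

variable {Φ : ℝ → ℝ}

/-- Indicators as elements of `L2`. -/
def ind (A : Set ℝ) (hA : MeasurableSet A) : L2 :=
  indicatorConstLp 2 hA (measure_ne_top lam A) (1 : ℝ)

private theorem md_smul_ind {M : ℝ → ℝ} (hM : QOrl M) {A : Set ℝ} (hA : MeasurableSet A) {a : ℝ}
    (ha : 0 ≤ a) (h : ENNReal.ofReal (M a) * lam A ≤ 1) : md M (a • ind A hA : L2) ≤ 1 := by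
  have h1 : (fun t => ENNReal.ofReal (M |(a • ind A hA : L2) t|)) =ᵐ[lam]
      A.indicator fun _ => ENNReal.ofReal (M a) := by
    filter_upwards [Lp.coeFn_smul a (ind A hA), indicatorConstLp_coeFn (p := 2) (hs := hA)
      (hμs := measure_ne_top lam A) (c := (1 : ℝ))] with t h2 h3
    rw [h2, Pi.smul_apply]
    unfold ind
    rw [h3]
    by_cases ht : t ∈ A
    · rw [indicator_of_mem ht, indicator_of_mem ht, smul_eq_mul, mul_one, abs_of_nonneg ha]
    · rw [indicator_of_notMem ht, indicator_of_notMem ht, smul_zero, abs_zero, hM.zero,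
        ENNReal.ofReal_zero]
  unfold md
  rw [lintegral_congr_ae h1, lintegral_indicator_const hA]
  exact h

private theorem bd_smul_ind {A : Set ℝ} (hA : MeasurableSet A) (a : ℝ) : Bd (a • ind A hA : L2) := by
  refine ⟨|a|, ?_⟩
  filter_upwards [Lp.coeFn_smul a (ind A hA), indicatorConstLp_coeFn (p := 2) (hs := hA)
    (hμs := measure_ne_top lam A) (c := (1 : ℝ))] with t h2 h3
  rw [h2, Pi.smul_apply]
  unfold ind
  rw [h3, smul_eq_mul, abs_mul]
  by_cases ht : t ∈ A
  · rw [indicator_of_mem ht, abs_one, mul_one]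
  · rw [indicator_of_notMem ht, abs_zero, mul_zero]
    exact abs_nonneg _

private theorem key (hΦ : Orl Φ) (hs : SuperLin Φ) {T : L2 →L[ℝ] L2} {C : ℝ} (hC : 0 < C)
    (hT : BddOn Φ T C) {x : F0} (hx : x ∈ LPhi Φ) :
    ∃ r : ℝ, 0 < r ∧ ∀ (A : Set ℝ) (hA : MeasurableSet A) (ρ : ℝ), 0 < ρ →
      ENNReal.ofReal (conj Φ (1 / ρ)) * lam A ≤ 1 →
      ∫⁻ t, ENNReal.ofReal |x t * ContinuousLinearMap.adjoint T (ind A hA) t| ∂lam ≤
        ENNReal.ofReal (4 * C * r * ρ) := by
  have hr0 : 0 < Nm Φ x + 1 := by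
    have := Nm_nonneg (Φ := Φ) x
    linarith
  refine ⟨Nm Φ x + 1, hr0, fun A hA ρ hρ h => ?_⟩
  set r : ℝ := Nm Φ x + 1 with hr
  have hmx : md Φ (fun t => x t / r) ≤ 1 := md_of_lt hΦ hx (by linarith)
  have hΨ := (conj_orl hΦ hs).qorl
  have h1 := adj_bdd hΦ hs hC hT ((1 / ρ) • ind A hA) (bd_smul_ind hA _)
    (md_smul_ind hΨ hA (by positivity) h)
  set S : L2 →L[ℝ] L2 := ContinuousLinearMap.adjoint T with hS
  have hxm : AEMeasurable (fun t => x t / r) lam :=
    x.aestronglyMeasurable.aemeasurable.div_const _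
  have h2 := young_md hΦ hs (x := fun t => x t / r)
    (y := fun t => S ((1 / ρ) • ind A hA) t / (2 * C)) hxm
  have h3 : ∫⁻ t, ENNReal.ofReal (|x t / r| * |S ((1 / ρ) • ind A hA) t / (2 * C)|) ∂lam ≤ 2 :=
    h2.trans ((add_le_add hmx h1).trans (le_of_eq (by norm_num)))
  have h4 : (fun t => ENNReal.ofReal |x t * S (ind A hA) t|) =ᵐ[lam] fun t =>
      ENNReal.ofReal (2 * C * r * ρ) *
        ENNReal.ofReal (|x t / r| * |S ((1 / ρ) • ind A hA) t / (2 * C)|) := by
    have e : S ((1 / ρ) • ind A hA) = (1 / ρ) • S (ind A hA) := map_smul _ _ _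
    rw [e]
    filter_upwards [Lp.coeFn_smul (1 / ρ) (S (ind A hA))] with t ht
    rw [ht, Pi.smul_apply, smul_eq_mul, ← ENNReal.ofReal_mul (by positivity)]
    congr 1
    rw [abs_mul, abs_div, abs_div, abs_mul, abs_of_pos hr0,
      abs_of_pos (show (0 : ℝ) < 2 * C by positivity), abs_of_pos (show (0 : ℝ) < 1 / ρ by positivity)]
    field_simp
  rw [lintegral_congr_ae h4, lintegral_const_mul' _ _ ENNReal.ofReal_ne_top]
  calc ENNReal.ofReal (2 * C * r * ρ) *
        ∫⁻ t, ENNReal.ofReal (|x t / r| * |S ((1 / ρ) • ind A hA) t / (2 * C)|) ∂lam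
      ≤ ENNReal.ofReal (2 * C * r * ρ) * 2 := by gcongr
    _ = ENNReal.ofReal (4 * C * r * ρ) := by
        rw [show (2 : ℝ≥0∞) = ENNReal.ofReal 2 by norm_num, ← ENNReal.ofReal_mul (by positivity)]
        congr 1
        ring

theorem integrable_mul_adj (hΦ : Orl Φ) (hs : SuperLin Φ) {T : L2 →L[ℝ] L2} {C : ℝ} (hC : 0 < C)
    (hT : BddOn Φ T C) {x : F0} (hx : x ∈ LPhi Φ) {A : Set ℝ} (hA : MeasurableSet A) :
    Integrable (fun t => x t * ContinuousLinearMap.adjoint T (ind A hA) t) lam := by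
  obtain ⟨r, hr, h⟩ := key hΦ hs hC hT hx
  have hΨ := (conj_orl hΦ hs).qorl
  have h0 : 0 ≤ conj Φ 1 := hΨ.nonneg zero_le_one
  have h1 : conj Φ (1 / (conj Φ 1 + 1)) ≤ 1 := by
    have h2 := hΨ.sub (1 / (conj Φ 1 + 1)) 1 (by positivity)
      (by rw [div_le_one (by positivity)]; linarith) zero_le_one
    rw [mul_one] at h2
    refine h2.trans ?_
    rw [one_div, inv_mul_le_iff₀ (by positivity)]
    linarith
  have h2 := h A hA (conj Φ 1 + 1) (by positivity) (by
    calc ENNReal.ofReal (conj Φ (1 / (conj Φ 1 + 1))) * lam A ≤ 1 * 1 := by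
          gcongr
          · rw [← ENNReal.ofReal_one]
            exact ENNReal.ofReal_le_ofReal h1
          · exact prob_le_one
      _ = 1 := one_mul 1)
  refine ⟨x.aestronglyMeasurable.mul (Lp.aestronglyMeasurable _), ?_⟩
  rw [hasFiniteIntegral_iff_norm]
  exact h2.trans_lt ENNReal.ofReal_lt_top

theorem ext_fun (hΦ : Orl Φ) (hs : SuperLin Φ) {T : L2 →L[ℝ] L2} {C : ℝ} (hC : 0 < C)
    (hT : BddOn Φ T C) {x : F0} (hx : x ∈ LPhi Φ) :
    ∃ w : F0, Integrable w lam ∧ ∀ (A : Set ℝ) (hA : MeasurableSet A),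
      ∫ t in A, w t ∂lam = ∫ t, x t * ContinuousLinearMap.adjoint T (ind A hA) t ∂lam := by
  classical
  obtain ⟨r, hr, hkey⟩ := key hΦ hs hC hT hx
  have hΨ := (conj_orl hΦ hs).qorl
  set S : L2 →L[ℝ] L2 := ContinuousLinearMap.adjoint T with hS
  let ν : Set ℝ → ℝ := fun A => if hA : MeasurableSet A then ∫ t, x t * S (ind A hA) t ∂lam else 0
  have hν : ∀ A (hA : MeasurableSet A), ν A = ∫ t, x t * S (ind A hA) t ∂lam :=
    fun A hA => dif_pos hA
  -- additivity
  have hadd : ∀ A B, MeasurableSet A → MeasurableSet B → Disjoint A B →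
      ν (A ∪ B) = ν A + ν B := by
    intro A B hA hB hAB
    rw [hν _ (hA.union hB), hν A hA, hν B hB,
      ← integral_add (integrable_mul_adj hΦ hs hC hT hx hA) (integrable_mul_adj hΦ hs hC hT hx hB)]
    refine integral_congr_ae ?_
    have e : ind (A ∪ B) (hA.union hB) = ind A hA + ind B hB :=
      indicatorConstLp_disjoint_union hA hB _ _ hAB 1
    rw [e, map_add]
    filter_upwards [Lp.coeFn_add (S (ind A hA)) (S (ind B hB))] with t ht
    rw [ht, Pi.add_apply]
    ring
  have hempty : ν ∅ = 0 := by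
    have h := hadd ∅ ∅ MeasurableSet.empty MeasurableSet.empty (disjoint_empty _)
    rw [union_self] at h
    linarith
  -- smallness
  have hsmall : ∀ ε : ℝ, 0 < ε → ∃ δ : ℝ≥0∞, 0 < δ ∧ ∀ A, MeasurableSet A → lam A ≤ δ →
      |ν A| ≤ ε := by
    intro ε hε
    set ρ : ℝ := ε / (4 * C * r) with hρ
    have hρ0 : 0 < ρ := by positivity
    have h0 : 0 ≤ conj Φ (1 / ρ) := hΨ.nonneg (by positivity)
    refine ⟨ENNReal.ofReal (1 / (conj Φ (1 / ρ) + 1)), ENNReal.ofReal_pos.2 (by positivity),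
      fun A hA hAl => ?_⟩
    have h1 := hkey A hA ρ hρ0 (by
      calc ENNReal.ofReal (conj Φ (1 / ρ)) * lam A
          ≤ ENNReal.ofReal (conj Φ (1 / ρ)) * ENNReal.ofReal (1 / (conj Φ (1 / ρ) + 1)) := by
            gcongr
        _ ≤ 1 := by
            rw [← ENNReal.ofReal_mul h0, ← ENNReal.ofReal_one]
            refine ENNReal.ofReal_le_ofReal ?_
            rw [mul_one_div, div_le_one (by positivity)]
            linarith)
    rw [hν A hA]
    have h2 : ‖∫ t, x t * S (ind A hA) t ∂lam‖ ≤ ε := by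
      refine (norm_integral_le_integral_norm _).trans ?_
      have hi := (integrable_mul_adj hΦ hs hC hT hx hA).norm
      have h3 : ENNReal.ofReal (∫ t, ‖x t * S (ind A hA) t‖ ∂lam) ≤ ENNReal.ofReal ε := by
        rw [ofReal_integral_eq_lintegral_ofReal hi (Eventually.of_forall fun t => norm_nonneg _)]
        refine h1.trans (ENNReal.ofReal_le_ofReal (le_of_eq ?_))
        rw [hρ]
        field_simp
      exact (ENNReal.ofReal_le_ofReal_iff hε.le).1 h3
    exact h2
  -- finite additivity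
  have hfin : ∀ (f : ℕ → Set ℝ), (∀ i, MeasurableSet (f i)) → Pairwise (Function.onFun Disjoint f) →
      ∀ s : Finset ℕ, ν (⋃ i ∈ s, f i) = ∑ i ∈ s, ν (f i) := by
    intro f hf hd s
    induction s using Finset.induction_on with
    | empty => simpa using hempty
    | insert a s ha ih =>
      rw [Finset.set_biUnion_insert, hadd _ _ (hf a) (Finset.measurableSet_biUnion s fun i _ => hf i) ?_,
        ih, Finset.sum_insert ha]
      rw [disjoint_iUnion₂_right]
      intro i hi
      exact hd (fun h => ha (h ▸ hi))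
  -- countable additivity
  have hsum : ∀ ⦃f : ℕ → Set ℝ⦄, (∀ i, MeasurableSet (f i)) → Pairwise (Function.onFun Disjoint f) →
      HasSum (fun i => ν (f i)) (ν (⋃ i, f i)) := by
    intro f hf hd
    refine Metric.tendsto_atTop.2 fun ε hε => ?_
    obtain ⟨δ, hδ, hδ'⟩ := hsmall (ε / 2) (half_pos hε)
    -- the tails
    have htail : ∃ n, lam (⋃ i ∈ {i | n ≤ i}, f i) ≤ δ := by
      have hanti : Antitone fun n => ⋃ i ∈ {i | n ≤ i}, f i := by
        intro n m hnm
        refine iUnion₂_subset fun i hi => ?_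
        exact subset_iUnion₂_of_subset i (le_trans hnm hi) subset_rfl
      have h1 : Tendsto (fun n => lam (⋃ i ∈ {i | n ≤ i}, f i)) atTop
          (𝓝 (lam (⋂ n, ⋃ i ∈ {i | n ≤ i}, f i))) :=
        tendsto_measure_iInter_atTop
          (fun n => (MeasurableSet.biUnion (to_countable _) fun i _ => hf i).nullMeasurableSet)
          hanti ⟨0, measure_ne_top _ _⟩
      have h2 : (⋂ n, ⋃ i ∈ {i | n ≤ i}, f i) = ∅ := by
        rw [eq_empty_iff_forall_notMem]
        intro t ht
        have h3 := mem_iInter.1 ht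
        obtain ⟨i, hi, hti⟩ := mem_iUnion₂.1 (h3 0)
        obtain ⟨j, hj, htj⟩ := mem_iUnion₂.1 (h3 (i + 1))
        have hij : i ≠ j := fun h => by
          have hj' : i + 1 ≤ j := hj
          omega
        exact disjoint_left.1 (hd hij) hti htj
      rw [h2, measure_empty] at h1
      exact ((h1.eventually (gt_mem_nhds hδ)).exists).imp fun n hn => hn.le
    obtain ⟨n, hn⟩ := htail
    refine ⟨Finset.range n, fun s hs' => ?_⟩
    have hm1 : MeasurableSet (⋃ i ∈ s, f i) := Finset.measurableSet_biUnion s fun i _ => hf i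
    have hm2 : MeasurableSet (⋃ i ∈ {i | i ∉ s}, f i) :=
      MeasurableSet.biUnion (to_countable _) fun i _ => hf i
    have hU : (⋃ i, f i) = (⋃ i ∈ s, f i) ∪ ⋃ i ∈ {i | i ∉ s}, f i := by
      ext t
      simp only [mem_iUnion, mem_union, mem_setOf_eq, exists_prop]
      constructor
      · rintro ⟨i, hi⟩
        by_cases h : i ∈ s
        · exact Or.inl ⟨i, h, hi⟩
        · exact Or.inr ⟨i, h, hi⟩
      · rintro (⟨i, -, hi⟩ | ⟨i, -, hi⟩)
        · exact ⟨i, hi⟩
        · exact ⟨i, hi⟩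
    have hdis : Disjoint (⋃ i ∈ s, f i) (⋃ i ∈ {i | i ∉ s}, f i) := by
      rw [disjoint_iUnion₂_left]
      intro i hi
      rw [disjoint_iUnion₂_right]
      intro j hj
      exact hd (fun h => hj (h ▸ hi))
    have h1 : lam (⋃ i ∈ {i | i ∉ s}, f i) ≤ δ := by
      refine (measure_mono ?_).trans hn
      refine iUnion₂_subset fun i hi => ?_
      refine subset_iUnion₂_of_subset i ?_ subset_rfl
      by_contra h
      exact hi (hs' (Finset.mem_range.2 (not_le.1 h)))
    have h2 := hδ' _ hm2 h1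
    show dist (∑ i ∈ s, ν (f i)) (ν (⋃ i, f i)) < ε
    rw [← hfin f hf hd s, hU, hadd _ _ hm1 hm2 hdis, Real.dist_eq]
    rw [show ν (⋃ i ∈ s, f i) - (ν (⋃ i ∈ s, f i) + ν (⋃ i ∈ {i | i ∉ s}, f i)) =
      -(ν (⋃ i ∈ {i | i ∉ s}, f i)) by ring, abs_neg]
    linarith
  let V : SignedMeasure ℝ :=
    { measureOf' := ν
      empty' := hempty
      not_measurable' := fun A hA => dif_neg hA
      m_iUnion' := hsum }
  have hVν : ∀ A, V A = ν A := fun A => rfl
  have hac : VectorMeasure.AbsolutelyContinuous V lam.toENNRealVectorMeasure := by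
    refine VectorMeasure.AbsolutelyContinuous.mk fun A hA h0 => ?_
    rw [Measure.toENNRealVectorMeasure_apply_measurable hA] at h0
    rw [hVν]
    by_contra hne
    have hpos : 0 < |ν A| := abs_pos.2 hne
    obtain ⟨δ, -, hδ⟩ := hsmall (|ν A| / 2) (half_pos hpos)
    have := hδ A hA (by rw [h0]; exact zero_le)
    linarith
  have hden := SignedMeasure.withDensityᵥ_rnDeriv_eq V lam hac
  have hint := SignedMeasure.integrable_rnDeriv V lam
  refine ⟨AEEqFun.mk (V.rnDeriv lam) hint.aestronglyMeasurable, ?_, ?_⟩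
  · exact hint.congr (AEEqFun.coeFn_mk _ _).symm
  · intro A hA
    rw [← hν A hA, ← hVν A]
    conv_rhs => rw [← hden]
    rw [withDensityᵥ_apply hint hA]
    exact integral_congr_ae (ae_restrict_of_ae (AEEqFun.coeFn_mk _ _))

end

end Pool.Agent.OB9
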