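import Pool.Agent.OB9.ExtA

/-!
# Module OB9/ExtB

The extension of `T` to a bounded operator of `L^Φ`.

PROOF. `T' x` is the function of `ext_fun` for `x ∈ LPhi Φ` (choice) and `0` otherwise. It is unique
(`Integrable.ae_eq_of_forall_setIntegral_eq`), hence additive and homogeneous on `LPhi Φ`. Bound: let
`md Φ (x/r) ≤ 1`, `w = T' x`. By linearity `∫ y w = ∫ x S y` for every simple `y` (as an element of
`L2`; `y` is a finite combination of indicators). `md Φ (w/(4 C r)) ≤ 1` by `ko` applied to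
`Ψ = conj Φ` (`md (conj Ψ) = md Φ` by `conj_conj`): for simple `y ≥ 0` with `md Ψ y ≤ 1` let
`y' = y sgn(w)` (simple up to a.e. equality), then
`∫ y |w| = ∫ y' w = ∫ x S y' ≤ r · 2C ∫ |x/r| |S y'/(2C)| ≤ 4 C r` by Young. So `T' x ∈ LPhi Φ` and
`Nm Φ (T' x) ≤ 4 C r` for every `r > Nm Φ x`. For bounded `x ∈ L2`:
`∫_A T x = ⟪1_A, T x⟫ = ⟪S 1_A, x⟫`, so `T' x = T x` by uniqueness.
-/

set_option autoImplicit false

namespace Pool.Agent.OB9

open MeasureTheory Set Filter
open scoped ENNReal Topology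

noncomputable section

variable {Φ : ℝ → ℝ}

private theorem eq_of_set {w1 w2 : F0} (h1 : Integrable w1 lam) (h2 : Integrable w2 lam)
    (h : ∀ A, MeasurableSet A → ∫ t in A, w1 t ∂lam = ∫ t in A, w2 t ∂lam) : w1 = w2 := by
  apply AEEqFun.ext
  exact Integrable.ae_eq_of_forall_setIntegral_eq _ _ h1 h2 fun A hA _ => h A hA

private theorem ext_simple {S : L2 →L[ℝ] L2} {x w : F0} (hw : Integrable w lam)
    (hi : ∀ (A : Set ℝ) (hA : MeasurableSet A), Integrable (fun t => x t * S (ind A hA) t) lam)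
    (he : ∀ (A : Set ℝ) (hA : MeasurableSet A),
      ∫ t in A, w t ∂lam = ∫ t, x t * S (ind A hA) t ∂lam)
    (f : SimpleFunc ℝ ℝ) :
    ∃ Y : L2, (Y : ℝ → ℝ) =ᵐ[lam] f ∧ Integrable (fun t => x t * S Y t) lam ∧
      Integrable (fun t => w t * f t) lam ∧
      ∫ t, w t * f t ∂lam = ∫ t, x t * S Y t ∂lam := by
  classical
  induction f using SimpleFunc.induction with
  | @const c s hs =>
    have h1 : ∀ t, (SimpleFunc.piecewise s hs (SimpleFunc.const ℝ c) (SimpleFunc.const ℝ 0)) t =
        c * s.indicator (fun _ => (1 : ℝ)) t := by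
      intro t
      rw [SimpleFunc.coe_piecewise]
      by_cases ht : t ∈ s
      · rw [Set.piecewise_eq_of_mem _ _ _ ht, Set.indicator_of_mem ht, mul_one]
        rfl
      · rw [Set.piecewise_eq_of_notMem _ _ _ ht, Set.indicator_of_notMem ht, mul_zero]
        rfl
    have h2 : (fun t => w t * (SimpleFunc.piecewise s hs (SimpleFunc.const ℝ c)
        (SimpleFunc.const ℝ 0)) t) = fun t => c * s.indicator (w : ℝ → ℝ) t := by
      funext t
      rw [h1]
      by_cases ht : t ∈ s
      · rw [Set.indicator_of_mem ht, Set.indicator_of_mem ht]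
        ring
      · rw [Set.indicator_of_notMem ht, Set.indicator_of_notMem ht]
        ring
    have h3 : (fun t => x t * S (c • ind s hs) t) =ᵐ[lam]
        fun t => c * (x t * S (ind s hs) t) := by
      rw [map_smul]
      filter_upwards [Lp.coeFn_smul c (S (ind s hs))] with t ht
      rw [ht, Pi.smul_apply, smul_eq_mul]
      ring
    refine ⟨c • ind s hs, ?_, ?_, ?_, ?_⟩
    · have h4 : (ind s hs : ℝ → ℝ) =ᵐ[lam] s.indicator fun _ => (1 : ℝ) :=
        indicatorConstLp_coeFn
      filter_upwards [Lp.coeFn_smul c (ind s hs), h4] with t ht ht2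
      rw [ht, Pi.smul_apply, smul_eq_mul, ht2, h1]
    · exact ((hi s hs).const_mul c).congr h3.symm
    · rw [h2]
      exact (hw.indicator hs).const_mul c
    · rw [h2, integral_congr_ae h3, integral_const_mul, integral_const_mul, ← he s hs,
        integral_indicator hs]
  | @add f g _ ihf ihg =>
    obtain ⟨Y1, a1, a2, a3, a4⟩ := ihf
    obtain ⟨Y2, b1, b2, b3, b4⟩ := ihg
    have h1 : (fun t => w t * (f + g) t) = fun t => w t * f t + w t * g t := by
      funext t
      rw [SimpleFunc.coe_add, Pi.add_apply]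
      ring
    have h3 : (fun t => x t * S (Y1 + Y2) t) =ᵐ[lam]
        fun t => x t * S Y1 t + x t * S Y2 t := by
      rw [map_add]
      filter_upwards [Lp.coeFn_add (S Y1) (S Y2)] with t ht
      rw [ht, Pi.add_apply]
      ring
    refine ⟨Y1 + Y2, ?_, ?_, ?_, ?_⟩
    · filter_upwards [Lp.coeFn_add Y1 Y2, a1, b1] with t ht h4 h5
      rw [ht, Pi.add_apply, h4, h5, SimpleFunc.coe_add, Pi.add_apply]
    · exact (a2.add b2).congr h3.symm
    · rw [h1]
      exact a3.add b3
    · rw [h1, integral_congr_ae h3, integral_add a3 b3, integral_add a2 b2, a4, b4]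

private theorem ext_bound (hΦ : Orl Φ) (hs : SuperLin Φ) {T : L2 →L[ℝ] L2} {C : ℝ} (hC : 0 < C)
    (hT : BddOn Φ T C) {x w : F0} (hx : x ∈ LPhi Φ) (hw : Integrable w lam)
    (he : ∀ (A : Set ℝ) (hA : MeasurableSet A),
      ∫ t in A, w t ∂lam = ∫ t, x t * ContinuousLinearMap.adjoint T (ind A hA) t ∂lam)
    {r : ℝ} (hr : Nm Φ x < r) : md Φ (fun t => w t / (4 * C * r)) ≤ 1 := by
  have hr0 : 0 < r := (Nm_nonneg x).trans_lt hr
  have hxr := md_of_lt hΦ hx hr
  set S : L2 →L[ℝ] L2 := ContinuousLinearMap.adjoint T with hS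
  have hΨ := conj_orl hΦ hs
  have hΨs := conj_superLin hΦ hs
  have hadj := adj_bdd hΦ hs hC hT
  have hcc : md Φ (fun t => w t / (4 * C * r)) =
      md (conj (conj Φ)) (fun t => w t / (4 * C * r)) := by
    unfold md
    refine lintegral_congr fun t => ?_
    rw [conj_conj hΦ hs (abs_nonneg _)]
  have hwm : Measurable (w : ℝ → ℝ) := w.measurable
  rw [hcc]
  refine ko hΨ hΨs ((hwm.div_const _).aemeasurable) fun y hy0 hy1 => ?_
  have hsg : MeasurableSet {t | 0 ≤ w t} := measurableSet_le measurable_const hwm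
  let y' : SimpleFunc ℝ ℝ := y * SimpleFunc.piecewise {t | 0 ≤ w t} hsg
    (SimpleFunc.const ℝ 1) (SimpleFunc.const ℝ (-1))
  have hy' : ∀ t, (y' t = y t ∧ 0 ≤ w t) ∨ (y' t = -y t ∧ w t < 0) := by
    intro t
    have h1 : y' t = y t * ({t | 0 ≤ w t}.piecewise (SimpleFunc.const ℝ (1 : ℝ) : ℝ → ℝ)
        (SimpleFunc.const ℝ (-1 : ℝ) : ℝ → ℝ) t) := rfl
    by_cases ht : 0 ≤ w t
    · left
      rw [Set.piecewise_eq_of_mem _ _ _ (show t ∈ {t | 0 ≤ w t} from ht)] at h1
      refine ⟨?_, ht⟩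
      rw [h1]
      exact mul_one _
    · right
      rw [Set.piecewise_eq_of_notMem _ _ _ (show t ∉ {t | 0 ≤ w t} from ht)] at h1
      refine ⟨?_, not_le.1 ht⟩
      rw [h1]
      show y t * (-1) = -y t
      ring
  have hwy : ∀ t, w t * y' t = y t * |w t| := by
    intro t
    rcases hy' t with ⟨h1, h2⟩ | ⟨h1, h2⟩
    · rw [h1, abs_of_nonneg h2]
      ring
    · rw [h1, abs_of_neg h2]
      ring
  obtain ⟨Y, hY1, hY2, hY3, hY4⟩ := ext_simple (S := S) hw
    (fun A hA => integrable_mul_adj hΦ hs hC hT hx hA) he y'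
  have hYabs : ∀ᵐ t ∂lam, |Y t| = |y t| := by
    filter_upwards [hY1] with t ht
    rw [ht]
    rcases hy' t with ⟨h1, _⟩ | ⟨h1, _⟩
    · rw [h1]
    · rw [h1, abs_neg]
  have hYB : Bd Y := by
    obtain ⟨R, hR⟩ := y.exists_forall_norm_le
    refine ⟨R, ?_⟩
    filter_upwards [hYabs] with t ht
    rw [ht]
    exact hR t
  have hYmd : md (conj Φ) Y ≤ 1 := by
    refine le_trans (le_of_eq ?_) hy1
    unfold md
    refine lintegral_congr_ae ?_
    filter_upwards [hYabs] with t ht
    rw [ht]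
  have hSY := hadj Y hYB hYmd
  have hyoung := young_md hΦ hs (x := fun t => x t / r) (y := fun t => S Y t / (2 * C))
    ((x.measurable.div_const r).aemeasurable)
  have hle2 : ∫⁻ t, ENNReal.ofReal (|x t / r| * |S Y t / (2 * C)|) ∂lam ≤ 2 := by
    refine hyoung.trans ?_
    calc md Φ (fun t => x t / r) + md (conj Φ) (fun t => S Y t / (2 * C)) ≤ 1 + 1 :=
        add_le_add hxr hSY
      _ = 2 := by norm_num
  have hfac : ∀ t, |x t / r| * |S Y t / (2 * C)| = (1 / (2 * C * r)) * |x t * S Y t| := by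
    intro t
    rw [abs_div, abs_div, abs_of_pos hr0, abs_of_pos (by positivity : 0 < 2 * C), abs_mul]
    field_simp
  have hint : ∫ t, |x t * S Y t| ∂lam ≤ 4 * C * r := by
    have h1 : ∫ t, (1 / (2 * C * r)) * |x t * S Y t| ∂lam ≤ 2 := by
      rw [integral_eq_lintegral_of_nonneg_ae (Eventually.of_forall fun t => by positivity)
        (hY2.abs.const_mul _).aestronglyMeasurable]
      simp only [← hfac]
      exact ENNReal.toReal_le_of_le_ofReal (by norm_num) (hle2.trans (by norm_num))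
    rw [integral_const_mul] at h1
    have h2 : (0 : ℝ) < 2 * C * r := by positivity
    rw [one_div, inv_mul_le_iff₀ h2] at h1
    linarith
  have h5 : ∫ t, y t * |w t| ∂lam ≤ 4 * C * r := by
    have h6 : ∫ t, y t * |w t| ∂lam = ∫ t, x t * S Y t ∂lam := by
      rw [← hY4]
      exact integral_congr_ae (Eventually.of_forall fun t => (hwy t).symm)
    rw [h6]
    refine le_trans ?_ hint
    exact integral_mono hY2 hY2.abs fun t => le_abs_self _
  have h7 : ∀ t, y t * |w t / (4 * C * r)| = (1 / (4 * C * r)) * (y t * |w t|) := by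
    intro t
    rw [abs_div, abs_of_pos (by positivity : 0 < 4 * C * r)]
    field_simp
  have hInt : Integrable (fun t => y t * |w t|) lam :=
    hY3.congr (Eventually.of_forall fun t => hwy t)
  have h8 : ∫⁻ t, ENNReal.ofReal (y t * |w t / (4 * C * r)|) ∂lam =
      ENNReal.ofReal (∫ t, (1 / (4 * C * r)) * (y t * |w t|) ∂lam) := by
    rw [ofReal_integral_eq_lintegral_ofReal (hInt.const_mul _)
      (Eventually.of_forall fun t => mul_nonneg (by positivity)
        (mul_nonneg (hy0 t) (abs_nonneg _)))]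
    simp only [h7]
  rw [h8]
  refine (ENNReal.ofReal_le_ofReal ?_).trans (le_of_eq ENNReal.ofReal_one)
  rw [integral_const_mul, one_div, inv_mul_le_iff₀ (by positivity)]
  linarith

theorem ext_op (hΦ : Orl Φ) (hs : SuperLin Φ) {T : L2 →L[ℝ] L2} {C : ℝ} (hC : 0 < C)
    (hT : BddOn Φ T C) :
    ∃ T' : F0 → F0, BddOp Φ T' ∧ ∀ x : L2, Bd x → T' (x : F0) = (T x : F0) := by
  classical
  let T' : F0 → F0 := fun x => if h : x ∈ LPhi Φ then (ext_fun hΦ hs hC hT h).choose else 0
  have hT' : ∀ x ∈ LPhi Φ, Integrable (T' x) lam ∧ ∀ (A : Set ℝ) (hA : MeasurableSet A),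
      ∫ t in A, T' x t ∂lam =
        ∫ t, x t * ContinuousLinearMap.adjoint T (ind A hA) t ∂lam := by
    intro x hx
    have h1 : T' x = (ext_fun hΦ hs hC hT hx).choose := dif_pos hx
    rw [h1]
    exact (ext_fun hΦ hs hC hT hx).choose_spec
  have huniq : ∀ x ∈ LPhi Φ, ∀ w : F0, Integrable w lam →
      (∀ (A : Set ℝ) (hA : MeasurableSet A), ∫ t in A, w t ∂lam =
        ∫ t, x t * ContinuousLinearMap.adjoint T (ind A hA) t ∂lam) → T' x = w := by
    intro x hx w hw h
    refine eq_of_set (hT' x hx).1 hw fun A hA => ?_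
    rw [(hT' x hx).2 A hA, h A hA]
  have hbd : ∀ x ∈ LPhi Φ, ∀ r, Nm Φ x < r → md Φ (fun t => T' x t / (4 * C * r)) ≤ 1 :=
    fun x hx r hr => ext_bound hΦ hs hC hT hx (hT' x hx).1 (hT' x hx).2 hr
  refine ⟨T', ⟨?_, ?_, ?_, ?_⟩, ?_⟩
  · intro x hx
    have h0 := Nm_nonneg (Φ := Φ) x
    exact mem_LPhi_of_md (r := 4 * C * (Nm Φ x + 1)) (by positivity)
      (hbd x hx (Nm Φ x + 1) (by linarith))
  · intro x hx y hy
    have hc : ((T' x + T' y : F0) : ℝ → ℝ) =ᵐ[lam] fun t => T' x t + T' y t :=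
      AEEqFun.coeFn_add _ _
    refine huniq (x + y) (LPhi_add hΦ hx hy) _ (((hT' x hx).1.add (hT' y hy).1).congr hc.symm) ?_
    intro A hA
    rw [integral_congr_ae (ae_restrict_of_ae hc), integral_add (hT' x hx).1.integrableOn
      (hT' y hy).1.integrableOn, (hT' x hx).2 A hA, (hT' y hy).2 A hA, ← integral_add
      (integrable_mul_adj hΦ hs hC hT hx hA) (integrable_mul_adj hΦ hs hC hT hy hA)]
    refine integral_congr_ae ?_
    filter_upwards [AEEqFun.coeFn_add x y] with t ht
    rw [ht, Pi.add_apply]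
    ring
  · intro a x hx
    have hc : ((a • T' x : F0) : ℝ → ℝ) =ᵐ[lam] fun t => a * T' x t :=
      AEEqFun.coeFn_smul _ _
    refine huniq (a • x) (LPhi_smul hΦ a hx) _ (((hT' x hx).1.const_mul a).congr hc.symm) ?_
    intro A hA
    rw [integral_congr_ae (ae_restrict_of_ae hc), integral_const_mul, (hT' x hx).2 A hA,
      ← integral_const_mul]
    refine integral_congr_ae ?_
    filter_upwards [AEEqFun.coeFn_smul a x] with t ht
    rw [ht, Pi.smul_apply, smul_eq_mul]
    ring
  · refine ⟨4 * C, fun x hx => ?_⟩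
    have h0 := Nm_nonneg (Φ := Φ) x
    have h1 : ∀ r, Nm Φ x < r → Nm Φ (T' x) ≤ 4 * C * r := fun r hr =>
      Nm_le (by have := h0.trans_lt hr; positivity) (hbd x hx r hr)
    refine le_of_forall_pos_le_add fun ε hε => ?_
    have h2 := h1 (Nm Φ x + ε / (4 * C)) (by have : 0 < ε / (4 * C) := by positivity
                                             linarith)
    refine h2.trans (le_of_eq ?_)
    field_simp
  · intro x hxB
    have hxL : (x : F0) ∈ LPhi Φ := by
      obtain ⟨R, hR⟩ := hxB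
      exact mem_LPhi_of_bdd hΦ hR
    have hTi : Integrable (T x : ℝ → ℝ) lam :=
      (Lp.memLp (T x)).integrable (by norm_num)
    refine huniq _ hxL _ hTi ?_
    intro A hA
    have h1 : ∫ t in A, (T x) t ∂lam = inner ℝ (ind A hA) (T x) :=
      (MeasureTheory.L2.inner_indicatorConstLp_one hA (measure_ne_top lam A) (T x)).symm
    have h2 : inner ℝ (ind A hA) (T x) = inner ℝ (ContinuousLinearMap.adjoint T (ind A hA)) x :=
      (ContinuousLinearMap.adjoint_inner_left T x (ind A hA)).symm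
    change ∫ t in A, (T x) t ∂lam = _
    rw [h1, h2, MeasureTheory.L2.inner_def]
    refine integral_congr_ae (Eventually.of_forall fun t => ?_)
    simp

end

end Pool.Agent.OB9
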