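import Pool.Agent.OB9.Core

/-!
# Module OB9/FRop

Operators given by finitely many functionals, and reading off their values.

PROOF. `T = ∑_{i<n} (innerSL ℝ (W_i)).smulRight (B_i)` with `W_i`, `B_i` as elements of `L2`
(`MemLp.toLp`; bounded measurable functions on a probability space). `⟪W_i, x⟫ = ∫ x W_i`
(`L2.inner_def`). `opNorm_le`: `ContinuousLinearMap.opNorm_le_bound`, `‖x‖² = ∫ x²`.
-/

set_option autoImplicit false

namespace Pool.Agent.OB9

open MeasureTheory Set Filter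
open scoped ENNReal Topology

noncomputable section

private theorem inner_eq' (x y : L2) : inner ℝ x y = ∫ t, x t * y t ∂lam := by
  rw [L2.inner_def]
  refine integral_congr_ae (Eventually.of_forall fun t => ?_)
  show inner ℝ (x t) (y t) = x t * y t
  simp [mul_comm]

private theorem memLp_of_bdd' {x : ℝ → ℝ} (hx : Measurable x) {R : ℝ} (h : ∀ t, |x t| ≤ R) :
    MemLp x 2 lam :=
  MemLp.of_bound hx.aestronglyMeasurable R (Eventually.of_forall fun t => by
    rw [Real.norm_eq_abs]; exact h t)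

theorem exists_op (n : ℕ) (W B : ℕ → ℝ → ℝ) (hW : ∀ i, Measurable (W i) ∧ ∃ C, ∀ t, |W i t| ≤ C)
    (hB : ∀ i, Measurable (B i) ∧ ∃ C, ∀ t, |B i t| ≤ C) :
    ∃ T : L2 →L[ℝ] L2, ∀ x : L2, ∀ᵐ t ∂lam,
      T x t = ∑ i ∈ Finset.range n, (∫ s, x s * W i s ∂lam) * B i t := by
  have hWL : ∀ i, MemLp (W i) 2 lam := fun i => by
    obtain ⟨h1, C, h2⟩ := hW i
    exact memLp_of_bdd' h1 h2
  have hBL : ∀ i, MemLp (B i) 2 lam := fun i => by
    obtain ⟨h1, C, h2⟩ := hB i
    exact memLp_of_bdd' h1 h2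
  induction n with
  | zero =>
    refine ⟨0, fun x => ?_⟩
    filter_upwards [Lp.coeFn_zero ℝ 2 lam] with t ht
    simpa using ht
  | succ n ih =>
    obtain ⟨T, hT⟩ := ih
    refine ⟨T + (innerSL ℝ ((hWL n).toLp (W n))).smulRight ((hBL n).toLp (B n)), fun x => ?_⟩
    have e1 : (T + (innerSL ℝ ((hWL n).toLp (W n))).smulRight ((hBL n).toLp (B n))) x =
        T x + (∫ s, x s * W n s ∂lam) • (hBL n).toLp (B n) := by
      rw [ContinuousLinearMap.add_apply, ContinuousLinearMap.smulRight_apply, innerSL_apply_apply,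
        inner_eq']
      congr 2
      refine integral_congr_ae ?_
      filter_upwards [(hWL n).coeFn_toLp] with t ht
      rw [ht, mul_comm]
    rw [e1]
    filter_upwards [hT x, Lp.coeFn_add (T x) ((∫ s, x s * W n s ∂lam) • (hBL n).toLp (B n)),
      Lp.coeFn_smul (∫ s, x s * W n s ∂lam) ((hBL n).toLp (B n)), (hBL n).coeFn_toLp]
      with t h1 h2 h3 h4
    rw [h2, Pi.add_apply, h3, Pi.smul_apply, h4, h1, Finset.sum_range_succ, smul_eq_mul]

theorem norm_sq_eq (x : L2) : ‖x‖ ^ 2 = ∫ t, x t ^ 2 ∂lam := by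
  rw [← real_inner_self_eq_norm_sq, inner_eq']
  refine integral_congr_ae (Eventually.of_forall fun t => ?_)
  show x t * x t = x t ^ 2
  rw [sq]

theorem opNorm_le (T : L2 →L[ℝ] L2) {c : ℝ} (hc : 0 ≤ c)
    (h : ∀ x : L2, ∫ t, T x t ^ 2 ∂lam ≤ c ^ 2 * ∫ t, x t ^ 2 ∂lam) : ‖T‖ ≤ c := by
  refine ContinuousLinearMap.opNorm_le_bound _ hc fun x => ?_
  have h1 := h x
  rw [← norm_sq_eq, ← norm_sq_eq, ← mul_pow] at h1
  exact le_of_sq_le_sq h1 (by positivity)

theorem inner_eq (x y : L2) : inner ℝ x y = ∫ t, x t * y t ∂lam := inner_eq' x y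

theorem memLp_of_bdd {x : ℝ → ℝ} (hx : Measurable x) {R : ℝ} (h : ∀ t, |x t| ≤ R) :
    MemLp x 2 lam := memLp_of_bdd' hx h

end

end Pool.Agent.OB9
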