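import Pool.Agent.OB9.ExtB

/-!
# Module OB9/InfNon

`DInf Φ` implies `𝒟(L^Φ) ≠ ∅`.

PROOF. Take `T'` from `ext_op`. For `e`, `f` of positive measure let `x` be from `LowOn`: bounded,
supported in `f`, `md Φ x ≤ 1` so `Nm Φ x ≤ 1`, and `Q f x = x` in `F0`, `T' x = T x`,
`1 < md Φ (1_e T x / c)` so `c ≤ Nm Φ (Q e (T' (Q f x)))` (`le_Nm`; `Q_coe`). So every `C` in the set
defining `blockNorm` is `≥ c` (that set is nonempty by boundedness of `T'` and `Nm_Q_le`), hence
`blockNorm ≥ c` and `sigma ≥ c` (the set in `sigma` is nonempty: `e = f = univ`; `0 < lam e * lam f`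
iff both are nonzero).
-/

set_option autoImplicit false

namespace Pool.Agent.OB9

open MeasureTheory Set Filter
open scoped ENNReal Topology

noncomputable section

variable {Φ : ℝ → ℝ}

theorem DNonempty_of_DInf (hΦ : Orl Φ) (hs : SuperLin Φ) (h : DInf Φ) : DNonempty Φ := by
  obtain ⟨T, C, c, hC, hc, hT, hL⟩ := h
  obtain ⟨T', hB, hTT⟩ := ext_op hΦ hs hC hT
  have key : ∀ (e f : Set ℝ) (he : MeasurableSet e) (hf : MeasurableSet f),
      0 < lam e * lam f → c ≤ blockNorm Φ T' e f he hf := by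
    intro e f he hf hpos
    have he0 : lam e ≠ 0 := by
      rintro h0
      rw [h0, zero_mul] at hpos
      exact lt_irrefl _ hpos
    have hf0 : lam f ≠ 0 := by
      rintro h0
      rw [h0, mul_zero] at hpos
      exact lt_irrefl _ hpos
    obtain ⟨x, hxb, hxs, hx1, hx2⟩ := hL e f he hf he0 hf0
    have hX1 : md Φ (fun t => (x : F0) t / 1) ≤ 1 := by
      have h1 : (fun t => (x : F0) t / 1) = (fun t => x t) := by
        funext t
        exact div_one _
      rw [h1]
      exact hx1
    have hXm : (x : F0) ∈ LPhi Φ := mem_LPhi_of_md one_pos hX1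
    have hXn : Nm Φ (x : F0) ≤ 1 := Nm_le one_pos hX1
    have hQf : Q f hf (x : F0) = (x : F0) := by
      apply AEEqFun.ext
      filter_upwards [Q_coe f hf (x : F0), hxs] with t h1 h2
      rw [h1]
      by_cases ht : t ∈ f
      · rw [indicator_of_mem ht]
      · rw [indicator_of_notMem ht]
        exact (h2 ht).symm
    have hTx : T' (x : F0) = (T x : F0) := hTT x hxb
    have hTm : (T x : F0) ∈ LPhi Φ := by
      rw [← hTx]
      exact hB.maps _ hXm
    have hlow : c ≤ Nm Φ (Q e he (T x : F0)) := by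
      apply le_Nm hΦ (Q_mem hΦ e he hTm) hc
      have h1 : md Φ (fun t => Q e he (T x : F0) t / c) =
          md Φ (fun t => e.indicator (fun s => T x s) t / c) := by
        apply md_congr
        filter_upwards [Q_coe e he (T x : F0)] with t ht
        rw [ht]
      rw [h1]
      exact hx2
    obtain ⟨K, hK⟩ := hB.bdd
    unfold blockNorm
    apply le_csInf
    · refine ⟨|K|, abs_nonneg K, ?_⟩
      intro y hy
      have hy1 : Q f hf y ∈ LPhi Φ := Q_mem hΦ f hf hy
      calc Nm Φ (Q e he (T' (Q f hf y))) ≤ Nm Φ (T' (Q f hf y)) :=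
            Nm_Q_le hΦ e he (hB.maps _ hy1)
        _ ≤ K * Nm Φ (Q f hf y) := hK _ hy1
        _ ≤ |K| * Nm Φ (Q f hf y) :=
            mul_le_mul_of_nonneg_right (le_abs_self K) (Nm_nonneg _)
        _ ≤ |K| * Nm Φ y := mul_le_mul_of_nonneg_left (Nm_Q_le hΦ f hf hy) (abs_nonneg K)
    · rintro b ⟨hb0, hb⟩
      have h1 := hb (x : F0) hXm
      rw [hQf, hTx] at h1
      calc c ≤ Nm Φ (Q e he (T x : F0)) := hlow
        _ ≤ b * Nm Φ (x : F0) := h1
        _ ≤ b * 1 := mul_le_mul_of_nonneg_left hXn hb0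
        _ = b := mul_one b
  refine ⟨T', hB, lt_of_lt_of_le hc ?_⟩
  unfold sigma
  apply le_csInf
  · refine ⟨_, univ, univ, MeasurableSet.univ, MeasurableSet.univ, ?_, rfl⟩
    rw [measure_univ, one_mul]
    exact one_pos
  · rintro r ⟨e, f, he, hf, hpos, rfl⟩
    exact key e f he hf hpos

end

end Pool.Agent.OB9
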