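import Pool.Agent.OB9.L1A

/-!
# Module OB9/L1B

`𝒟(L^Φ) = ∅` when `Φ` is linear at infinity.

PROOF. Suppose `T` is bounded and `c = sigma Φ T > 0`. Let `‖T x‖₁ ≤ K ‖x‖₁` (`n1_equiv`), `c₁` from
`local_low`, and `n` with `n c₁ > 2 K + 2`. Let `e_i = [i/n, (i+1)/n)`, `i < n` (positive measure). For
each `i` the class `𝒜_i = {A measurable, lam A ≠ 0, c₁ lam A ≤ ‖1_{e_i} T 1_A‖₁}` satisfies the
hypothesis of `exhaust` (`local_low`; `blockNorm ≥ c` by definition of `sigma`, whose set is bounded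
below by `0`), so there are finitely many disjoint sets in `𝒜_i` of total measure `≥ 1/2`. Let
`(P_j)` be a finite measurable partition of `[0,1]` (up to a null set) refining all these families
(e.g. the atoms of the finite algebra generated by them). By the triangle inequality
`∑_j ‖1_{e_i} T 1_{P_j}‖₁ ≥ ∑_{A} ‖1_{e_i} T 1_A‖₁ ≥ c₁/2` for each `i` (only `P_j ⊆ A` for the
`A` of the `i`-th family are used; `1_A = ∑_{P_j ⊆ A} 1_{P_j}`). Summing over `i` and using
`∑_i ‖1_{e_i} z‖₁ ≤ ‖z‖₁`: `n c₁/2 ≤ ∑_j ‖T 1_{P_j}‖₁ ≤ K ∑_j lam P_j ≤ K`, contradiction.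
-/

set_option autoImplicit false

namespace Pool.Agent.OB9

open MeasureTheory Set Filter
open scoped ENNReal Topology

noncomputable section

variable {Φ : ℝ → ℝ}

private theorem L1B_n1_Q (e : Set ℝ) (he : MeasurableSet e) (z : F0) :
    n1 (Q e he z) = ∫ t in e, |z t| ∂lam := by
  unfold n1
  rw [← integral_indicator he]
  apply integral_congr_ae
  filter_upwards [Q_coe e he z] with t ht
  rw [ht]
  by_cases h : t ∈ e
  · rw [indicator_of_mem h, indicator_of_mem h]
  · rw [indicator_of_notMem h, indicator_of_notMem h, abs_zero]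

private theorem L1B_ind0_coe (A : Set ℝ) (hA : MeasurableSet A) :
    (ind0 A hA : ℝ → ℝ) =ᵐ[lam] A.indicator (fun _ => (1 : ℝ)) := by
  filter_upwards [Q_coe A hA (AEEqFun.const ℝ 1), AEEqFun.coeFn_const ℝ (1 : ℝ) (μ := lam)]
    with t h1 h2
  unfold ind0
  rw [h1]
  by_cases h : t ∈ A
  · rw [indicator_of_mem h, indicator_of_mem h, h2]
    rfl
  · rw [indicator_of_notMem h, indicator_of_notMem h]

private theorem L1B_ind0_int (A : Set ℝ) (hA : MeasurableSet A) :
    Integrable (ind0 A hA : ℝ → ℝ) lam :=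
  ((integrable_const (1 : ℝ)).indicator hA).congr (L1B_ind0_coe A hA).symm

private theorem L1B_n1_ind0 (A : Set ℝ) (hA : MeasurableSet A) :
    n1 (ind0 A hA) = (lam A).toReal := by
  unfold n1
  have h1 : ∫ t, |ind0 A hA t| ∂lam = ∫ t, A.indicator (fun _ => (1 : ℝ)) t ∂lam := by
    apply integral_congr_ae
    filter_upwards [L1B_ind0_coe A hA] with t ht
    rw [ht]
    by_cases h : t ∈ A
    · rw [indicator_of_mem h, abs_one]
    · rw [indicator_of_notMem h, abs_zero]
  rw [h1, integral_indicator hA]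
  simp [Measure.real]

private theorem L1B_sum_coe {ι : Type*} (s : Finset ι) (g : ι → F0) :
    (↑(∑ i ∈ s, g i) : ℝ → ℝ) =ᵐ[lam] fun t => ∑ i ∈ s, g i t := by
  classical
  induction s using Finset.induction_on with
  | empty =>
    filter_upwards [AEEqFun.coeFn_zero (α := ℝ) (β := ℝ) (μ := lam)] with t ht
    simpa using ht
  | insert i s hi ih =>
    filter_upwards [AEEqFun.coeFn_add (g i) (∑ j ∈ s, g j), ih] with t h1 h2
    rw [Finset.sum_insert hi, h1, Pi.add_apply, h2, Finset.sum_insert hi]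

private theorem L1B_sub {ι : Type*} (hI : ∀ x : F0, x ∈ LPhi Φ ↔ Integrable x lam)
    {T : F0 → F0} (hT : BddOp Φ T) (e : Set ℝ) (s : Finset ι) (g : ι → F0)
    (hg : ∀ i ∈ s, g i ∈ LPhi Φ) :
    (∑ i ∈ s, g i) ∈ LPhi Φ ∧
      ∫ t in e, |T (∑ i ∈ s, g i) t| ∂lam ≤ ∑ i ∈ s, ∫ t in e, |T (g i) t| ∂lam := by
  classical
  have h0 : (0 : F0) ∈ LPhi Φ := by
    rw [hI]
    exact (integrable_zero ℝ ℝ lam).congr (AEEqFun.coeFn_zero (α := ℝ) (β := ℝ) (μ := lam)).symm
  induction s using Finset.induction_on with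
  | empty =>
    have hT0 : T 0 = 0 := by
      have := hT.smul 0 0 h0
      rwa [zero_smul, zero_smul] at this
    refine ⟨by simpa using h0, ?_⟩
    rw [Finset.sum_empty, Finset.sum_empty, hT0]
    apply le_of_eq
    have h1 : ∀ᵐ t ∂(lam.restrict e), |(0 : F0) t| = 0 := by
      filter_upwards [ae_restrict_of_ae (AEEqFun.coeFn_zero (α := ℝ) (β := ℝ) (μ := lam))] with t ht
      rw [ht, Pi.zero_apply, abs_zero]
    rw [integral_congr_ae h1]
    simp
  | insert i s hi ih =>
    obtain ⟨h1, h2⟩ := ih fun j hj => hg j (Finset.mem_insert_of_mem hj)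
    have h3 : g i ∈ LPhi Φ := hg i (Finset.mem_insert_self _ _)
    rw [Finset.sum_insert hi, Finset.sum_insert hi]
    constructor
    · rw [hI] at h1 h3 ⊢
      exact (h3.add h1).congr (AEEqFun.coeFn_add _ _).symm
    · have i1 : Integrable (T (g i)) lam := (hI _).1 (hT.maps _ h3)
      have i2 : Integrable (T (∑ j ∈ s, g j)) lam := (hI _).1 (hT.maps _ h1)
      rw [hT.add _ h3 _ h1]
      calc ∫ t in e, |(T (g i) + T (∑ j ∈ s, g j) : F0) t| ∂lam
          ≤ ∫ t in e, (|T (g i) t| + |T (∑ j ∈ s, g j) t|) ∂lam := by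
            apply integral_mono_ae
            · have i3 : Integrable (↑(T (g i) + T (∑ j ∈ s, g j)) : ℝ → ℝ) lam :=
                (i1.add i2).congr (AEEqFun.coeFn_add _ _).symm
              exact i3.abs.integrableOn
            · exact (i1.abs.add i2.abs).integrableOn
            · filter_upwards [ae_restrict_of_ae
                (AEEqFun.coeFn_add (T (g i)) (T (∑ j ∈ s, g j)))] with t ht
              rw [ht, Pi.add_apply]
              exact abs_add_le _ _
        _ = ∫ t in e, |T (g i) t| ∂lam + ∫ t in e, |T (∑ j ∈ s, g j) t| ∂lam :=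
            integral_add i1.abs.integrableOn i2.abs.integrableOn
        _ ≤ _ := by
            gcongr

theorem not_DNonempty_linear (hΦ : Orl Φ) (hl : ∃ C : ℝ, ∀ t, 1 ≤ t → Φ t ≤ C * t) :
    ¬ DNonempty Φ := by
  classical
  rintro ⟨T, hT, hσ⟩
  obtain ⟨hI, a, ha, hn⟩ := n1_equiv hΦ hl
  obtain ⟨K, hK⟩ := hT.bdd
  obtain ⟨c₁, hc₁, hloc⟩ := local_low hΦ hl hT hσ
  -- the bound in `L¹`
  set K' : ℝ := a * (max K 0 * a) with hK'
  have hK'0 : 0 ≤ K' := by positivity
  have hT1 : ∀ x ∈ LPhi Φ, n1 (T x) ≤ K' * n1 x := by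
    intro x hx
    calc n1 (T x) ≤ a * Nm Φ (T x) := (hn _ (hT.maps x hx)).1
      _ ≤ a * (max K 0 * Nm Φ x) := by
          gcongr
          exact (hK x hx).trans (mul_le_mul_of_nonneg_right (le_max_left _ _) (Nm_nonneg x))
      _ ≤ a * (max K 0 * (a * n1 x)) := by
          gcongr
          exact (hn x hx).2
      _ = K' * n1 x := by rw [hK']; ring
  -- intervals
  obtain ⟨n, hn'⟩ := exists_nat_gt (2 * K' / c₁)
  have hnpos : 0 < (n : ℝ) := lt_of_le_of_lt (by positivity) hn'
  let e : Fin n → Set ℝ := fun i => Ico ((i : ℝ) / n) (((i : ℝ) + 1) / n)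
  have he : ∀ i, MeasurableSet (e i) := fun i => measurableSet_Ico
  have hdis : ∀ i j, i ≠ j → Disjoint (e i) (e j) := by
    have key : ∀ i j : Fin n, i < j → Disjoint (e i) (e j) := by
      intro i j hij
      rw [Set.disjoint_left]
      rintro t ⟨_, h2⟩ ⟨h3, _⟩
      have h4 : ((i : ℝ) + 1) / n ≤ (j : ℝ) / n := by
        gcongr
        have : (i : ℕ) + 1 ≤ j := hij
        exact_mod_cast this
      linarith
    intro i j hij
    rcases lt_or_gt_of_ne hij with h | h
    · exact key i j h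
    · exact (key j i h).symm
  have hlam : ∀ i, lam (e i) ≠ 0 := by
    intro i
    have h1 : e i ⊆ Icc 0 1 := by
      rintro t ⟨h1, h2⟩
      have h3 : (0 : ℝ) ≤ (i : ℝ) / n := by positivity
      have h4 : ((i : ℝ) + 1) / n ≤ 1 := by
        rw [div_le_one hnpos]
        have : (i : ℕ) + 1 ≤ n := i.isLt
        exact_mod_cast this
      exact ⟨by linarith, by linarith⟩
    unfold lam
    rw [Measure.restrict_apply (he i), inter_eq_left.2 h1]
    simp only [e, Real.volume_Ico]
    rw [Ne, ENNReal.ofReal_eq_zero, not_le]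
    have : ((i : ℝ) + 1) / n - (i : ℝ) / n = 1 / n := by ring
    rw [this]
    positivity
  -- the classes
  have hblock : ∀ (i : Fin n) (f : Set ℝ) (hf : MeasurableSet f), lam f ≠ 0 →
      sigma Φ T ≤ blockNorm Φ T (e i) f (he i) hf := by
    intro i f hf hf0
    apply csInf_le
    · refine ⟨0, ?_⟩
      rintro r ⟨e', f', he', hf', _, rfl⟩
      apply Real.sInf_nonneg
      rintro C ⟨hC, _⟩
      exact hC
    · refine ⟨e i, f, he i, hf, ?_, rfl⟩
      exact pos_iff_ne_zero.2 (mul_ne_zero (hlam i) hf0)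
  have hex : ∀ i : Fin n, ∃ (k : ℕ) (A : ℕ → Set ℝ),
      (∀ j < k, ∃ hA : MeasurableSet (A j),
        c₁ * (lam (A j)).toReal ≤ n1 (Q (e i) (he i) (T (ind0 (A j) hA)))) ∧
      (∀ j < k, ∀ j' < k, j ≠ j' → Disjoint (A j) (A j')) ∧
      1 - 1 / 2 ≤ ∑ j ∈ Finset.range k, (lam (A j)).toReal := by
    intro i
    obtain ⟨k, A, h1, h2, h3⟩ := exhaust
      {A | ∃ hA : MeasurableSet A, lam A ≠ 0 ∧
        c₁ * (lam A).toReal ≤ n1 (Q (e i) (he i) (T (ind0 A hA)))}
      (fun A hA => ⟨hA.1, hA.2.1⟩)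
      (fun f hf hf0 => by
        obtain ⟨A, hA, hsub, hA0, hA1⟩ := hloc (e i) (he i) (hblock i) f hf hf0
        exact ⟨A, ⟨hA, hA0, hA1⟩, hsub⟩)
      (δ := 1 / 2) (by norm_num)
    exact ⟨k, A, fun j hj => ⟨(h1 j hj).1, (h1 j hj).2.2⟩, h2, h3⟩
  choose k A hA1 hA2 hA3 using hex
  -- the refining partition
  let B : (i : Fin n) → Fin (k i + 1) → Set ℝ := fun i j =>
    if (j : ℕ) < k i then A i j else (⋃ j' : Fin (k i), A i j')ᶜ
  have hBm : ∀ i j, MeasurableSet (B i j) := by
    intro i j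
    simp only [B]
    split_ifs with h
    · exact (hA1 i j h).1
    · exact (MeasurableSet.iUnion fun j' : Fin (k i) => (hA1 i j' j'.isLt).1).compl
  have hBc : ∀ t i, ∃ j, t ∈ B i j := by
    intro t i
    by_cases h : ∃ j' : Fin (k i), t ∈ A i j'
    · obtain ⟨j', hj'⟩ := h
      refine ⟨j'.castSucc, ?_⟩
      simp only [B, Fin.val_castSucc, j'.isLt, if_true]
      exact hj'
    · refine ⟨Fin.last _, ?_⟩
      simp only [B, Fin.val_last, lt_irrefl, if_false]
      rw [mem_compl_iff, mem_iUnion]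
      exact h
  choose lab hlab using hBc
  have hBu : ∀ t i j, t ∈ B i j ↔ lab t i = j := by
    intro t i j
    constructor
    · intro h
      have h' := hlab t i
      by_contra hne
      have hne' : ((lab t i : Fin (k i + 1)) : ℕ) ≠ (j : ℕ) := fun h => hne (Fin.ext h)
      have e1 := (lab t i).isLt
      have e2 := j.isLt
      simp only [B] at h h'
      by_cases h1 : ((lab t i : Fin (k i + 1)) : ℕ) < k i
      · rw [if_pos h1] at h'
        by_cases h2 : (j : ℕ) < k i
        · rw [if_pos h2] at h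
          exact Set.disjoint_left.1 (hA2 i _ h1 _ h2 hne') h' h
        · rw [if_neg h2] at h
          exact h (mem_iUnion.2 ⟨⟨_, h1⟩, h'⟩)
      · rw [if_neg h1] at h'
        by_cases h2 : (j : ℕ) < k i
        · rw [if_pos h2] at h
          exact h' (mem_iUnion.2 ⟨⟨_, h2⟩, h⟩)
        · omega
    · rintro rfl
      exact hlab t i
  let P : ((i : Fin n) → Fin (k i + 1)) → Set ℝ := fun σ => ⋂ i, B i (σ i)
  have hPm : ∀ σ, MeasurableSet (P σ) := fun σ => MeasurableSet.iInter fun i => hBm i _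
  have hPu : ∀ t σ, t ∈ P σ ↔ lab t = σ := by
    intro t σ
    simp only [P, mem_iInter, hBu]
    exact funext_iff.symm
  let g : ((i : Fin n) → Fin (k i + 1)) → F0 := fun σ => ind0 (P σ) (hPm σ)
  have hgL : ∀ σ, g σ ∈ LPhi Φ := fun σ => (hI _).2 (L1B_ind0_int _ _)
  -- one set of a family
  have hone : ∀ (i : Fin n) (j : Fin (k i)) (hAm : MeasurableSet (A i j)),
      ∫ t in e i, |T (ind0 (A i j) hAm) t| ∂lam ≤
        ∑ σ ∈ Finset.univ.filter (fun σ : (i : Fin n) → Fin (k i + 1) => σ i = j.castSucc),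
          ∫ t in e i, |T (g σ) t| ∂lam := by
    intro i j hAm
    have h1 : ind0 (A i j) hAm = ∑ σ ∈ Finset.univ.filter
        (fun σ : (i : Fin n) → Fin (k i + 1) => σ i = j.castSucc), g σ := by
      apply AEEqFun.ext
      have h2 : ∀ᵐ t ∂lam, ∀ σ, (g σ : ℝ → ℝ) t = (P σ).indicator (fun _ => (1 : ℝ)) t := by
        rw [ae_all_iff]
        intro σ
        exact L1B_ind0_coe _ _
      filter_upwards [L1B_ind0_coe (A i j) hAm, L1B_sum_coe (Finset.univ.filter
        (fun σ : (i : Fin n) → Fin (k i + 1) => σ i = j.castSucc)) g, h2] with t h3 h4 h5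
      rw [h3, h4]
      have h6 : ∀ σ, (g σ : ℝ → ℝ) t = if lab t = σ then 1 else 0 := by
        intro σ
        rw [h5 σ]
        by_cases h : lab t = σ
        · rw [if_pos h, indicator_of_mem ((hPu t σ).2 h)]
        · rw [if_neg h, indicator_of_notMem (fun h' => h ((hPu t σ).1 h'))]
      simp_rw [h6]
      rw [Finset.sum_ite_eq]
      simp only [Finset.mem_filter, Finset.mem_univ, true_and]
      have h7 : t ∈ A i j ↔ lab t i = j.castSucc := by
        rw [← hBu]
        simp only [B, Fin.val_castSucc, j.isLt, if_true]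
      by_cases h : t ∈ A i j
      · rw [indicator_of_mem h, if_pos (h7.1 h)]
      · rw [indicator_of_notMem h, if_neg (fun h' => h (h7.2 h'))]
    rw [h1]
    exact (L1B_sub hI hT (e i) _ g fun σ _ => hgL σ).2
  -- one family
  have hfam : ∀ i : Fin n, c₁ / 2 ≤ ∑ σ, ∫ t in e i, |T (g σ) t| ∂lam := by
    intro i
    have h1 := hA3 i
    rw [← Fin.sum_univ_eq_sum_range (fun j => (lam (A i j)).toReal)] at h1
    calc c₁ / 2 ≤ c₁ * ∑ j : Fin (k i), (lam (A i j)).toReal := by
          have := mul_le_mul_of_nonneg_left h1 hc₁.le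
          linarith
      _ = ∑ j : Fin (k i), c₁ * (lam (A i j)).toReal := Finset.mul_sum _ _ _
      _ ≤ ∑ j : Fin (k i), ∑ σ ∈ Finset.univ.filter
            (fun σ : (i : Fin n) → Fin (k i + 1) => σ i = j.castSucc),
              ∫ t in e i, |T (g σ) t| ∂lam := by
          apply Finset.sum_le_sum
          intro j _
          obtain ⟨hAm, h2⟩ := hA1 i j j.isLt
          rw [L1B_n1_Q] at h2
          exact h2.trans (hone i j hAm)
      _ ≤ ∑ j : Fin (k i + 1), ∑ σ ∈ Finset.univ.filter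
            (fun σ : (i : Fin n) → Fin (k i + 1) => σ i = j),
              ∫ t in e i, |T (g σ) t| ∂lam := by
          rw [Fin.sum_univ_castSucc]
          apply le_add_of_nonneg_right
          apply Finset.sum_nonneg
          intro σ _
          exact integral_nonneg fun t => abs_nonneg _
      _ = ∑ σ, ∫ t in e i, |T (g σ) t| ∂lam :=
          Finset.sum_fiberwise _ _ _
  -- all families
  have hσ1 : ∀ σ, ∑ i, ∫ t in e i, |T (g σ) t| ∂lam ≤ n1 (T (g σ)) := by
    intro σ
    have i1 : Integrable (T (g σ)) lam := (hI _).1 (hT.maps _ (hgL σ))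
    rw [← integral_iUnion_fintype he (fun i j hij => hdis i j hij)
      (fun i => i1.abs.integrableOn)]
    exact setIntegral_le_integral i1.abs (Filter.Eventually.of_forall fun t => abs_nonneg _)
  have hPsum : ∑ σ, (lam (P σ)).toReal ≤ 1 := by
    have h1 : ∑ σ, lam (P σ) = lam (⋃ σ, P σ) := by
      rw [measure_iUnion _ hPm, tsum_fintype]
      intro σ τ hne
      rw [Function.onFun, Set.disjoint_left]
      intro t h1 h2
      exact hne (((hPu t σ).1 h1).symm.trans ((hPu t τ).1 h2))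
    have h2 : ∑ σ, (lam (P σ)).toReal = (∑ σ, lam (P σ)).toReal :=
      (ENNReal.toReal_sum fun σ _ => measure_ne_top _ _).symm
    rw [h2, h1]
    exact ENNReal.toReal_le_of_le_ofReal zero_le_one (by
      rw [ENNReal.ofReal_one]
      exact prob_le_one)
  have hfinal : (n : ℝ) * (c₁ / 2) ≤ K' := by
    calc (n : ℝ) * (c₁ / 2) = ∑ _i : Fin n, c₁ / 2 := by simp
      _ ≤ ∑ i : Fin n, ∑ σ, ∫ t in e i, |T (g σ) t| ∂lam := Finset.sum_le_sum fun i _ => hfam i
      _ = ∑ σ, ∑ i : Fin n, ∫ t in e i, |T (g σ) t| ∂lam := Finset.sum_comm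
      _ ≤ ∑ σ, n1 (T (g σ)) := Finset.sum_le_sum fun σ _ => hσ1 σ
      _ ≤ ∑ σ, K' * n1 (g σ) := Finset.sum_le_sum fun σ _ => hT1 _ (hgL σ)
      _ = K' * ∑ σ, (lam (P σ)).toReal := by
          rw [Finset.mul_sum]
          refine Finset.sum_congr rfl fun σ _ => ?_
          rw [L1B_n1_ind0]
      _ ≤ K' * 1 := mul_le_mul_of_nonneg_left hPsum hK'0
      _ = K' := mul_one _
  rw [div_lt_iff₀ hc₁] at hn'
  linarith

end

end Pool.Agent.OB9
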