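import Pool.Agent.OB9.EqvInf
import Pool.Agent.OB9.NiB

/-!
# Module OB9/RgC

Transfer of `Triv`.

PROOF. Let `A` be from `Eqv.md_le` (for `Eqv Φ (MG G)`). Let `T`, `K` be as in `Triv Φ`
(wlog `K ≥ 1`), `M = MG G`. If `md M x ≤ 1` then `md Φ (x/A) ≤ 1`, `md Φ (T x/A) ≤ K`,
`md Φ (T x/(A K)) ≤ 1` (`md_div_le`), `md M (T x/(A² K)) ≤ 1`, and `M(A² K t) ≤ (A² K)^(κ+2) M(t)`, so
`md M (T x) ≤ (A² K)^(κ+2)`: `T` satisfies the hypothesis of `Triv M`. Given `c > 0` apply it with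
`c' = c/A²`: sets `e`, `f`. Let `x` be supported in `f`, `md Φ x ≤ 1`; `x' = x/A`, `md M x' ≤ 1`, so
`md M (1_e T x'/c') ≤ 1`, `md Φ (1_e T x'/(A c')) ≤ 1`, and `x'/(A c') = x/(A² c') = x/c`.
-/

set_option autoImplicit false

namespace Pool.Agent.OB9

open MeasureTheory Set Filter
open scoped ENNReal Topology

noncomputable section

variable {κ : ℕ} {Φ G : ℝ → ℝ}

private theorem smul_ae (a : ℝ) (x : L2) :
    (fun t => (a • x : L2) t) =ᵐ[lam] fun t => a * x t := by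
  filter_upwards [Lp.coeFn_smul a x] with t ht
  rw [ht, Pi.smul_apply, smul_eq_mul]

private theorem aem (x : L2) : AEMeasurable (fun t => x t) lam :=
  (Lp.aestronglyMeasurable x).aemeasurable

/-- Growth of the modular. -/
private theorem md_mul_le (hG : Nice κ G) {c : ℝ} (hc : 1 ≤ c) (x : ℝ → ℝ) :
    md (MG G) (fun t => c * x t) ≤ ENNReal.ofReal (c ^ (κ + 2)) * md (MG G) x := by
  have hc0 : 0 ≤ c := by linarith
  unfold md
  rw [← lintegral_const_mul' _ _ ENNReal.ofReal_ne_top]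
  refine lintegral_mono fun t => ?_
  rw [← ENNReal.ofReal_mul (by positivity), abs_mul, abs_of_nonneg hc0]
  exact ENNReal.ofReal_le_ofReal (hG.MG_mul_le hc (abs_nonneg _))

theorem triv_of_eqv (hΦ : QOrl Φ) (hG : Nice κ G) (h : Eqv Φ (MG G)) (hT : Triv (MG G)) :
    Triv Φ := by
  obtain ⟨A, hA, hΦM, hMΦ⟩ := h.md_le hΦ hG.qorl
  have hA0 : 0 < A := by linarith
  intro T K' hTK' c hc
  obtain ⟨K, hK1, hTK⟩ : ∃ K : ℝ, 1 ≤ K ∧
      ∀ x : Linf, md Φ (x : L2) ≤ 1 → md Φ (T x) ≤ ENNReal.ofReal K :=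
    ⟨max K' 1, le_max_right _ _, fun x hx =>
      (hTK' x hx).trans (ENNReal.ofReal_le_ofReal (le_max_left _ _))⟩
  have hK0 : 0 < K := by linarith
  have hmd : ∀ (M : ℝ → ℝ) (x : Linf),
      md M (fun t => (((1 / A) • x : Linf) : L2) t) = md M (fun t => (x : L2) t / A) := by
    intro M x
    refine md_congr ?_
    have e0 : (((1 / A) • x : Linf) : L2) = (1 / A) • (x : L2) := rfl
    rw [e0]
    filter_upwards [smul_ae (1 / A) (x : L2)] with t ht
    rw [ht]
    ring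
  have hTs : ∀ x : Linf, ∀ᵐ t ∂lam, T ((1 / A) • x) t = T x t / A := by
    intro x
    rw [map_smul]
    filter_upwards [smul_ae (1 / A) (T x)] with t ht
    rw [ht]
    ring
  have h1 : ∀ x : Linf, md (MG G) (x : L2) ≤ 1 →
      md (MG G) (T x) ≤ ENNReal.ofReal ((A ^ 2 * K) ^ (κ + 2)) := by
    intro x hx
    have e1 : md Φ (((1 / A) • x : Linf) : L2) ≤ 1 := by
      rw [hmd]
      exact hMΦ _ (aem x) hx
    have e2 := hTK _ e1
    have e3 := md_div_le hΦ hK1 e2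
    have e4 := hΦM _ ((aem (T ((1 / A) • x))).div_const K) e3
    have hAK : 1 ≤ A ^ 2 * K := one_le_mul_of_one_le_of_one_le (one_le_pow₀ hA) hK1
    have e5 := md_mul_le hG hAK (fun t => T ((1 / A) • x) t / K / A)
    have e6 : md (MG G) (T x) =
        md (MG G) (fun t => A ^ 2 * K * (T ((1 / A) • x) t / K / A)) := by
      refine md_congr ?_
      filter_upwards [hTs x] with t ht
      rw [ht]
      field_simp
    rw [e6]
    calc md (MG G) (fun t => A ^ 2 * K * (T ((1 / A) • x) t / K / A))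
        ≤ ENNReal.ofReal ((A ^ 2 * K) ^ (κ + 2)) *
          md (MG G) (fun t => T ((1 / A) • x) t / K / A) := e5
      _ ≤ ENNReal.ofReal ((A ^ 2 * K) ^ (κ + 2)) * 1 := by gcongr
      _ = ENNReal.ofReal ((A ^ 2 * K) ^ (κ + 2)) := mul_one _
  obtain ⟨e, f, he, hf, he0, hf0, hef⟩ := hT T _ h1 (c / A ^ 2) (by positivity)
  refine ⟨e, f, he, hf, he0, hf0, ?_⟩
  intro x hxs hx
  have e1 : md (MG G) (((1 / A) • x : Linf) : L2) ≤ 1 := by
    rw [hmd]
    exact hΦM _ (aem x) hx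
  have e0 : ∀ᵐ t ∂lam, t ∉ f → (((1 / A) • x : Linf) : L2) t = 0 := by
    have e0 : (((1 / A) • x : Linf) : L2) = (1 / A) • (x : L2) := rfl
    rw [e0]
    filter_upwards [hxs, smul_ae (1 / A) (x : L2)] with t h3 h4 h5
    rw [h4, h3 h5, mul_zero]
  have e2 := hef _ e0 e1
  have e3 := hMΦ _ (((aem (T ((1 / A) • x))).indicator he).div_const _) e2
  refine le_of_eq_of_le (md_congr ?_) e3
  filter_upwards [hTs x] with t ht
  by_cases h6 : t ∈ e
  · simp only [indicator_of_mem h6]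
    rw [ht]
    field_simp
  · simp only [indicator_of_notMem h6, zero_div]

end

end Pool.Agent.OB9
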