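import Pool.Agent.OB9.CaseA
import Pool.Agent.OB9.CaseB
import Pool.Agent.OB9.EmptyA
import Pool.Agent.OB9.EmptyB
import Pool.Agent.OB9.L1B
import Pool.Agent.OB9.InfNon
import Pool.Agent.OB9.RgC
import Pool.Agent.OB9.EmE

/-!
# Module OB9/Final: the classification
-/

set_option autoImplicit false

namespace Pool.Agent.OB9

open MeasureTheory Set Filter
open scoped ENNReal Topology

noncomputable section

variable {Φ : ℝ → ℝ}

theorem triv_of_Thin (hΦ : Orl Φ) (h : Thin Φ) : Triv Φ := by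
  obtain ⟨κ, G, A, t0, hG, hA, ht, he, hc⟩ := regular hΦ h.superquad h.doubling h.twoconvex
  exact triv_of_eqv hΦ.qorl hG he
    (triv_of_thin hG (thinG_of_chainSmall hΦ hG hA ht hc h.chain))

theorem superLin_of_not_linear (hΦ : Orl Φ) (h : ¬ ∃ C : ℝ, ∀ t, 1 ≤ t → Φ t ≤ C * t) :
    SuperLin Φ := by
  push Not at h
  refine tendsto_atTop.2 fun b => ?_
  obtain ⟨t, ht, hb⟩ := h b
  filter_upwards [eventually_ge_atTop t] with s hs
  have ht0 : 0 < t := by linarith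
  have h1 := hΦ.qorl.ratio ht0 hs
  have h2 : b < Φ t / t := by rw [lt_div_iff₀ ht0]; exact hb
  linarith

theorem DInf_of_not (hΦ : Orl Φ) (hs : SuperLin Φ) (h1 : ¬ Thin Φ) (h2 : ¬ Thin (conj Φ)) :
    DInf Φ := by
  by_cases hu : ∀ C T : ℝ, ∃ s, T ≤ s ∧ C * s ^ 2 < Φ s
  · exact caseA hΦ hs hu h1
  push Not at hu
  obtain ⟨C, T, hC⟩ := hu
  by_cases hl : ∃ c t0 : ℝ, 0 < c ∧ ∀ t, t0 ≤ t → c * t ^ 2 ≤ Φ t
  · obtain ⟨c, t0, hc, hl⟩ := hl
    exact caseB (t0 := max T t0) hΦ hc (fun t ht => hl t ((le_max_right _ _).trans ht))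
      (fun t ht => hC t ((le_max_left _ _).trans ht))
  push Not at hl
  have hd : ∀ δ T : ℝ, 0 < δ → ∃ t, T ≤ t ∧ Φ t ≤ δ * t ^ 2 := by
    intro δ T hδ
    obtain ⟨t, ht, h⟩ := hl δ T hδ
    exact ⟨t, ht, h.le⟩
  exact DInf_of_conj hΦ hs (caseA (conj_orl hΦ hs) (conj_superLin hΦ hs)
    (dual_unbdd hΦ hs hd) h2)

/-- The classification of the Orlicz functions with `𝒟(L^Φ) ≠ ∅`. -/
theorem classification (hΦ : Orl Φ) :
    DNonempty Φ ↔ ¬ ((∃ C : ℝ, ∀ t, 1 ≤ t → Φ t ≤ C * t) ∨ Thin Φ ∨ Thin (conj Φ)) := by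
  constructor
  · intro hD h
    by_cases hl : ∃ C : ℝ, ∀ t, 1 ≤ t → Φ t ≤ C * t
    · exact not_DNonempty_linear hΦ hl hD
    have hs := superLin_of_not_linear hΦ hl
    rcases h with h | h | h
    · exact hl h
    · exact not_DNonempty_of_triv hΦ h.superquad h.doubling (triv_of_Thin hΦ h) hD
    · exact not_DNonempty_of_triv_conj hΦ hs h.superquad h.twoconvex h.doubling
        (triv_of_Thin (conj_orl hΦ hs) h) hD
  · intro h
    push Not at h
    have hs := superLin_of_not_linear hΦ (by push Not; exact h.1)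
    exact DNonempty_of_DInf hΦ hs (DInf_of_not hΦ hs h.2.1 h.2.2)

end

end Pool.Agent.OB9
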