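import Pool.Agent.OB9.ConjB
import Pool.Agent.OB9.MdB

/-!
# Module OB9/KO

Koethe duality.

PROOF. `young_md`: integrate Young's inequality. `ko`: Let `y ≥ 0` first be a simple function with
nonnegative values. For each value `s` of `y` choose `t(s) ≥ 0` with `conj Φ s = s t(s) - Φ (t s)`
(`conj_attained`), and let `x = t ∘ y` (`SimpleFunc.map`). Then pointwise
`x y = Φ x + conj Φ y`, so `∫ x y = md Φ x + md (conj Φ) y` (all finite since `x`, `y` are simple). If
`md Φ x ≤ 1` then `∫ x y ≤ 1` gives `md (conj Φ) y ≤ 1`. If `ρ = md Φ x > 1` then `md Φ (x/ρ) ≤ 1`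
(`md_div_le`), so `∫ x y ≤ ρ = md Φ x`, hence `md (conj Φ) y ≤ 0`. In general let `y_n` be simple
functions with `0 ≤ y_n ↑ |y|` pointwise (after replacing `y` by a measurable representative:
`SimpleFunc.eapprox`, or `SimpleFunc.approxOn`; e.g. `y_n = min(n, ⌊2^n |y|⌋/2^n)`): each `y_n`
satisfies the hypothesis since `0 ≤ y_n ≤ |y|`, so `md (conj Φ) y_n ≤ 1`, and `md_fatou` (for
`conj Φ`, an Orlicz function) concludes.
-/

set_option autoImplicit false

namespace Pool.Agent.OB9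

open MeasureTheory Set Filter
open scoped ENNReal Topology

noncomputable section

variable {Φ : ℝ → ℝ}

theorem young_md (hΦ : Orl Φ) (hs : SuperLin Φ) {x y : ℝ → ℝ} (hx : AEMeasurable x lam) :
    ∫⁻ t, ENNReal.ofReal (|x t| * |y t|) ∂lam ≤ md Φ x + md (conj Φ) y := by
  unfold md
  have hm : AEMeasurable (fun t => ENNReal.ofReal (Φ |x t|)) lam :=
    (hΦ.qorl.meas.comp_aemeasurable hx).ennreal_ofReal
  rw [← lintegral_add_left' hm]
  refine lintegral_mono fun t => ?_
  refine le_trans (ENNReal.ofReal_le_ofReal ?_) ENNReal.ofReal_add_le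
  have h1 := young hΦ hs (abs_nonneg (y t)) (abs_nonneg (x t))
  show |x t| * |y t| ≤ Φ |x t| + conj Φ |y t|
  linarith [mul_comm (|x t|) (|y t|)]

private theorem ko_simple (hΦ : Orl Φ) (hs : SuperLin Φ) (z : SimpleFunc ℝ ℝ) (hz : ∀ t, 0 ≤ z t)
    (h : ∀ x : SimpleFunc ℝ ℝ, (∀ t, 0 ≤ x t) → md Φ x ≤ 1 →
      ∫⁻ t, ENNReal.ofReal (x t * z t) ∂lam ≤ 1) : md (conj Φ) z ≤ 1 := by
  classical
  have hc := conj_orl hΦ hs
  obtain ⟨τ, hτ⟩ : ∃ τ : ℝ → ℝ, ∀ s, 0 ≤ τ s ∧ (0 ≤ s → conj Φ s = s * τ s - Φ (τ s)) := by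
    have h1 : ∀ s : ℝ, ∃ t, 0 ≤ t ∧ (0 ≤ s → conj Φ s = s * t - Φ t) := by
      intro s
      by_cases h0 : 0 ≤ s
      · obtain ⟨t, ht, ht'⟩ := conj_attained hΦ hs h0
        exact ⟨t, ht, fun _ => ht'⟩
      · exact ⟨0, le_rfl, fun h1 => absurd h1 h0⟩
    choose τ hτ using h1
    exact ⟨τ, hτ⟩
  obtain ⟨x, hx⟩ : ∃ x : SimpleFunc ℝ ℝ, ∀ t, x t = τ (z t) := ⟨z.map τ, fun t => rfl⟩
  have hx0 : ∀ t, 0 ≤ x t := fun t => by rw [hx]; exact (hτ _).1
  have hpt : ∀ t, ENNReal.ofReal (x t * z t) =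
      ENNReal.ofReal (Φ |x t|) + ENNReal.ofReal (conj Φ |z t|) := by
    intro t
    rw [abs_of_nonneg (hx0 t), abs_of_nonneg (hz t),
      ← ENNReal.ofReal_add (hΦ.qorl.nonneg (hx0 t)) (hc.qorl.nonneg (hz t)),
      (hτ (z t)).2 (hz t), hx t]
    congr 1
    ring
  have hint : ∫⁻ t, ENNReal.ofReal (x t * z t) ∂lam = md Φ x + md (conj Φ) z := by
    unfold md
    have hm : AEMeasurable (fun t => ENNReal.ofReal (Φ |x t|)) lam :=
      (hΦ.qorl.meas.comp_aemeasurable x.measurable.aemeasurable).ennreal_ofReal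
    rw [← lintegral_add_left' hm]
    exact lintegral_congr hpt
  obtain ⟨R, hR⟩ := x.exists_forall_norm_le
  have hfin : md Φ x ≠ ⊤ := by
    refine ne_top_of_le_ne_top ENNReal.ofReal_ne_top
      (md_const_le hΦ.qorl (x := x) (R := R) (Eventually.of_forall fun t => ?_))
    simpa using hR t
  by_cases h1 : md Φ x ≤ 1
  · have h2 := h x hx0 h1
    rw [hint] at h2
    exact le_trans le_add_self h2
  · have h1' : 1 < md Φ x := not_le.1 h1
    have hρ : 1 ≤ (md Φ x).toReal := by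
      have h3 := (ENNReal.toReal_le_toReal ENNReal.one_ne_top hfin).2 h1'.le
      simpa using h3
    have hρ0 : 0 < (md Φ x).toReal := by linarith
    have h2 := h (x.map fun a => a / (md Φ x).toReal) (fun t => div_nonneg (hx0 t) hρ0.le)
      (md_div_le hΦ.qorl (x := x) hρ (by rw [ENNReal.ofReal_toReal hfin]))
    have h3 : ∫⁻ t, ENNReal.ofReal (x t * z t) ∂lam ≤ md Φ x := by
      have h4 : ∀ t, ENNReal.ofReal (x t * z t) = md Φ x * ENNReal.ofReal
          ((x.map fun a => a / (md Φ x).toReal) t * z t) := by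
        intro t
        have h5 : (x.map fun a => a / (md Φ x).toReal) t = x t / (md Φ x).toReal := rfl
        rw [h5]
        conv_rhs => rw [← ENNReal.ofReal_toReal hfin]
        rw [← ENNReal.ofReal_mul hρ0.le]
        congr 1
        rw [ENNReal.toReal_ofReal hρ0.le]
        field_simp
      calc ∫⁻ t, ENNReal.ofReal (x t * z t) ∂lam
          = ∫⁻ t, md Φ x * ENNReal.ofReal
              ((x.map fun a => a / (md Φ x).toReal) t * z t) ∂lam := lintegral_congr h4
        _ = md Φ x * ∫⁻ t, ENNReal.ofReal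
              ((x.map fun a => a / (md Φ x).toReal) t * z t) ∂lam :=
            lintegral_const_mul' _ _ hfin
        _ ≤ md Φ x * 1 := by gcongr
        _ = md Φ x := mul_one _
    rw [hint] at h3
    have h4 : md (conj Φ) z ≤ 0 := by
      have h5 : md Φ x + md (conj Φ) z ≤ md Φ x + 0 := by rw [add_zero]; exact h3
      exact (ENNReal.add_le_add_iff_left hfin).1 h5
    exact h4.trans zero_le_one

theorem ko (hΦ : Orl Φ) (hs : SuperLin Φ) {y : ℝ → ℝ} (hy : AEMeasurable y lam)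
    (h : ∀ x : SimpleFunc ℝ ℝ, (∀ t, 0 ≤ x t) → md Φ x ≤ 1 →
      ∫⁻ t, ENNReal.ofReal (x t * |y t|) ∂lam ≤ 1) : md (conj Φ) y ≤ 1 := by
  obtain ⟨y', hy'm, hyy'⟩ := hy
  have hm : Measurable fun t => ENNReal.ofReal |y' t| := by fun_prop
  obtain ⟨z, hz⟩ : ∃ z : ℕ → SimpleFunc ℝ ℝ, ∀ n t, z n t =
      (SimpleFunc.eapprox (fun t => ENNReal.ofReal |y' t|) n t).toReal :=
    ⟨fun n => (SimpleFunc.eapprox (fun t => ENNReal.ofReal |y' t|) n).map ENNReal.toReal,
      fun _ _ => rfl⟩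
  have hz0 : ∀ n t, 0 ≤ z n t := fun n t => by rw [hz]; exact ENNReal.toReal_nonneg
  have hle : ∀ n t, z n t ≤ |y' t| := by
    intro n t
    rw [hz]
    have h1 : SimpleFunc.eapprox (fun t => ENNReal.ofReal |y' t|) n t ≤ ENNReal.ofReal |y' t| := by
      rw [← SimpleFunc.iSup_eapprox_apply hm t]
      exact le_iSup (fun n => SimpleFunc.eapprox (fun t => ENNReal.ofReal |y' t|) n t) n
    exact (ENNReal.toReal_mono ENNReal.ofReal_ne_top h1).trans
      (le_of_eq (ENNReal.toReal_ofReal (abs_nonneg _)))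
  have hlim : ∀ t, Tendsto (fun n => z n t) atTop (𝓝 |y' t|) := by
    intro t
    have h1 := SimpleFunc.tendsto_eapprox hm t
    have h2 := (ENNReal.tendsto_toReal (ENNReal.ofReal_ne_top (r := |y' t|))).comp h1
    rw [ENNReal.toReal_ofReal (abs_nonneg _)] at h2
    refine h2.congr fun n => ?_
    exact (hz n t).symm
  have hn : ∀ n, md (conj Φ) (z n) ≤ 1 := by
    intro n
    refine ko_simple hΦ hs (z n) (hz0 n) fun x hx0 hx1 => ?_
    refine le_trans (lintegral_mono_ae ?_) (h x hx0 hx1)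
    filter_upwards [hyy'] with t ht
    refine ENNReal.ofReal_le_ofReal ?_
    rw [ht]
    exact mul_le_mul_of_nonneg_left (hle n t) (hx0 t)
  have h1 := md_fatou (conj_orl hΦ hs).qorl (x := fun n => z n) (y := fun t => |y' t|)
    (fun n => (z n).measurable.aemeasurable) (Eventually.of_forall hlim) hn
  have h2 : md (conj Φ) y = md (conj Φ) fun t => |y' t| := by
    rw [md_congr hyy']
    unfold md
    simp only [abs_abs]
  rw [h2]
  exact h1

end

end Pool.Agent.OB9
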