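import Pool.Agent.OB9.NmB

/-!
# Module OB9/L1A

`L¹`: exhaustion and local lower bounds.

PROOF. `exhaust`: let `𝒜` be a class of measurable sets of positive measure such that every
measurable set of positive measure contains a member of `𝒜`. Greedy choice: given disjoint
`A_1, …, A_k ∈ 𝒜`, let `s_k` be the supremum of `lam A`, `A ∈ 𝒜`, `A` disjoint from them; choose
`A_{k+1}` with `lam A_{k+1} ≥ s_k/2`. As `∑ lam A_k ≤ 1`, `s_k → 0`; the complement of `⋃ A_k` contains
no member of `𝒜`, so it is null; hence finitely many cover all but `δ`. (Or: take a finite disjoint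
family in `𝒜` with total measure `> sup - δ/2`, where `sup` is over all countable disjoint
families, which is attained and equals `1`.)
`local_low`: `Φ` is linear at infinity (`Φ t ≤ C t` for `t ≥ 1`), so `LPhi Φ` is `L¹` and `Nm Φ` is
equivalent to the `L¹` norm: `Φ t ≤ C(t + 1)`, `t ≤ a (Φ t + 1)`. If `blockNorm Φ T e f ≥ c` for all
`f` of positive measure, then for every `f` there is a measurable `A ⊆ f` of positive measure with
`‖1_e T 1_A‖₁ ≥ c₁ lam A`, where `c₁ > 0` depends only on `Φ`, `c`, `K`: otherwise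
`‖1_e T 1_A‖₁ ≤ c₁ lam A` for all `A ⊆ f`, so `‖1_e T x‖₁ ≤ c₁ ‖x‖₁` for simple `x` supported in
`f`, and by density for all `x ∈ L¹(f)`; so `Nm Φ (Q e (T (Q f x))) ≤ a' c₁ Nm Φ x` with `a'`
depending only on `Φ`: `blockNorm ≤ a' c₁ < c` for `c₁` small.
-/

set_option autoImplicit false

namespace Pool.Agent.OB9

open MeasureTheory Set Filter
open scoped ENNReal Topology

noncomputable section

variable {Φ : ℝ → ℝ}

theorem exhaust (𝒜 : Set (Set ℝ)) (h1 : ∀ A ∈ 𝒜, MeasurableSet A ∧ lam A ≠ 0)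
    (h2 : ∀ f : Set ℝ, MeasurableSet f → lam f ≠ 0 → ∃ A ∈ 𝒜, A ⊆ f) {δ : ℝ} (hδ : 0 < δ) :
    ∃ (k : ℕ) (A : ℕ → Set ℝ), (∀ i < k, A i ∈ 𝒜) ∧
      (∀ i < k, ∀ j < k, i ≠ j → Disjoint (A i) (A j)) ∧
      1 - δ ≤ ∑ i ∈ Finset.range k, (lam (A i)).toReal := by
  classical
  obtain ⟨ℬ, hmax⟩ := zorn_subset {ℬ : Set (Set ℝ) | ℬ ⊆ 𝒜 ∧ ℬ.PairwiseDisjoint id} (by
    intro c hc hch
    refine ⟨⋃₀ c, ⟨?_, ?_⟩, fun s hs => subset_sUnion_of_mem hs⟩
    · exact sUnion_subset fun s hs => (hc hs).1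
    · rw [pairwiseDisjoint_sUnion hch.directedOn]
      exact fun a ha => (hc ha).2)
  obtain ⟨hB, hdis⟩ := hmax.prop
  have hmeas : ∀ i : ℬ, MeasurableSet (i : Set ℝ) := fun i => (h1 i (hB i.2)).1
  have hdis' : Pairwise (Function.onFun Disjoint (fun i : ℬ => (i : Set ℝ))) := by
    intro i j hij
    exact hdis i.2 j.2 (fun h => hij (Subtype.ext h))
  have hcount : Countable ℬ := by
    have h := Measure.countable_meas_pos_of_disjoint_iUnion (μ := lam) hmeas hdis'
    have h3 : {i : ℬ | 0 < lam (i : Set ℝ)} = univ := by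
      ext i
      simp only [mem_ofPred_eq, mem_univ, iff_true]
      exact pos_iff_ne_zero.2 (h1 i (hB i.2)).2
    rw [h3] at h
    exact countable_univ_iff.1 h
  have hU : MeasurableSet (⋃ i : ℬ, (i : Set ℝ)) := MeasurableSet.iUnion hmeas
  have hnull : lam (⋃ i : ℬ, (i : Set ℝ))ᶜ = 0 := by
    by_contra hne
    obtain ⟨A, hA, hAf⟩ := h2 _ hU.compl hne
    have hAB : A ∈ ℬ := by
      have h3 : insert A ℬ ∈ {ℬ : Set (Set ℝ) | ℬ ⊆ 𝒜 ∧ ℬ.PairwiseDisjoint id} := by
        refine ⟨insert_subset hA hB, ?_⟩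
        apply hdis.insert
        intro C hC _
        refine Set.disjoint_left.2 fun x hx hx' => ?_
        exact hAf hx (mem_iUnion.2 ⟨⟨C, hC⟩, hx'⟩)
      exact hmax.le_of_ge h3 (subset_insert A ℬ) (mem_insert A ℬ)
    have h4 : A ⊆ ∅ := fun x hx => hAf hx (mem_iUnion.2 ⟨⟨A, hAB⟩, hx⟩)
    have h5 : A = ∅ := subset_empty_iff.1 h4
    exact (h1 A hA).2 (by rw [h5]; exact measure_empty)
  have h1' : lam (⋃ i : ℬ, (i : Set ℝ)) = 1 := (prob_compl_eq_zero_iff hU).1 hnull
  rw [measure_iUnion hdis' hmeas, ENNReal.tsum_eq_iSup_sum] at h1'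
  have hlt : ENNReal.ofReal (1 - δ) < ⨆ s : Finset ℬ, ∑ i ∈ s, lam (i : Set ℝ) := by
    rw [h1']
    rw [← ENNReal.ofReal_one]
    exact (ENNReal.ofReal_lt_ofReal_iff one_pos).2 (by linarith)
  obtain ⟨s, hs⟩ := lt_iSup_iff.1 hlt
  refine ⟨s.card, fun i => if h : i < s.card then ((s.equivFin.symm ⟨i, h⟩ : ℬ) : Set ℝ) else ∅,
    ?_, ?_, ?_⟩
  · intro i hi
    dsimp only
    rw [dif_pos hi]
    exact hB (Subtype.coe_prop _)
  · intro i hi j hj hij
    dsimp only
    rw [dif_pos hi, dif_pos hj]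
    apply hdis'
    intro h
    have h' := s.equivFin.symm.injective (Subtype.ext h)
    exact hij (by simpa using h')
  · have hsum : ∑ i ∈ Finset.range s.card, (lam (if h : i < s.card then
        ((s.equivFin.symm ⟨i, h⟩ : ℬ) : Set ℝ) else ∅)).toReal =
        ∑ i ∈ s, (lam (i : Set ℝ)).toReal := by
      rw [Finset.sum_range]
      rw [← Finset.sum_coe_sort s (fun i => (lam (i : Set ℝ)).toReal)]
      rw [← Equiv.sum_comp s.equivFin.symm]
      refine Finset.sum_congr rfl fun i _ => ?_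
      rw [dif_pos i.2]
    rw [hsum, ← ENNReal.toReal_sum (fun i _ => measure_ne_top _ _)]
    exact (ENNReal.ofReal_le_iff_le_toReal
      (ENNReal.sum_ne_top.2 fun i _ => measure_ne_top _ _)).1 hs.le

/-- The `L¹` norm. -/
def n1 (x : F0) : ℝ := ∫ t, |x t| ∂lam

private lemma lin_upper (hΦ : Orl Φ) (hl : ∃ C : ℝ, ∀ t, 1 ≤ t → Φ t ≤ C * t) :
    ∃ K : ℝ, 1 ≤ K ∧ ∀ t, 0 ≤ t → Φ t ≤ K * t := by
  obtain ⟨C, hC⟩ := hl
  have hq := hΦ.qorl
  refine ⟨max C 1, le_max_right _ _, fun t ht => ?_⟩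
  by_cases h : 1 ≤ t
  · exact (hC t h).trans (mul_le_mul_of_nonneg_right (le_max_left _ _) ht)
  · push Not at h
    have h1 := hq.sub t 1 ht h.le zero_le_one
    rw [mul_one] at h1
    have h2 := hC 1 le_rfl
    calc Φ t ≤ t * Φ 1 := h1
      _ ≤ t * max C 1 := by
          apply mul_le_mul_of_nonneg_left _ ht
          rw [mul_one] at h2
          exact h2.trans (le_max_left _ _)
      _ = max C 1 * t := mul_comm _ _

private lemma lin_lower (hΦ : Orl Φ) :
    ∃ b : ℝ, 0 < b ∧ ∀ t, 0 ≤ t → t ≤ b * (1 + Φ t) := by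
  have hq := hΦ.qorl
  obtain ⟨t0, ht0, hne⟩ := hq.nontriv
  have hpos : 0 < Φ t0 := lt_of_le_of_ne (hq.nonneg ht0) (Ne.symm hne)
  have ht0' : 0 < t0 := by
    rcases ht0.lt_or_eq with h1 | h1
    · exact h1
    · rw [← h1, hq.zero] at hpos
      exact absurd hpos (lt_irrefl _)
  refine ⟨max t0 (t0 / Φ t0), lt_max_of_lt_left ht0', fun t ht => ?_⟩
  have hΦt := hq.nonneg ht
  have hb : 0 < max t0 (t0 / Φ t0) := lt_max_of_lt_left ht0'
  by_cases h : t0 ≤ t
  · have h1 := hq.ratio ht0' h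
    have htp : 0 < t := ht0'.trans_le h
    rw [div_le_div_iff₀ ht0' htp] at h1
    have h2 : t ≤ t0 / Φ t0 * Φ t := by
      rw [div_mul_eq_mul_div, le_div_iff₀ hpos]
      linarith
    calc t ≤ t0 / Φ t0 * Φ t := h2
      _ ≤ max t0 (t0 / Φ t0) * Φ t := mul_le_mul_of_nonneg_right (le_max_right _ _) hΦt
      _ ≤ max t0 (t0 / Φ t0) * (1 + Φ t) := by
          apply mul_le_mul_of_nonneg_left _ hb.le
          linarith
  · push Not at h
    calc t ≤ t0 := h.le
      _ ≤ max t0 (t0 / Φ t0) := le_max_left _ _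
      _ = max t0 (t0 / Φ t0) * 1 := (mul_one _).symm
      _ ≤ max t0 (t0 / Φ t0) * (1 + Φ t) := by
          apply mul_le_mul_of_nonneg_left _ hb.le
          linarith

private lemma lint_upper {K : ℝ} (hK : ∀ t, 0 ≤ t → Φ t ≤ K * t) (hK0 : 0 ≤ K) (y : ℝ → ℝ) :
    md Φ y ≤ ENNReal.ofReal K * ∫⁻ t, ENNReal.ofReal |y t| ∂lam := by
  unfold md
  rw [← lintegral_const_mul' _ _ ENNReal.ofReal_ne_top]
  refine lintegral_mono fun t => ?_
  rw [← ENNReal.ofReal_mul hK0]
  exact ENNReal.ofReal_le_ofReal (hK _ (abs_nonneg _))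

private lemma lint_lower {b : ℝ} (hb : ∀ t, 0 ≤ t → t ≤ b * (1 + Φ t)) (hb0 : 0 < b)
    (hΦ : Orl Φ) (y : ℝ → ℝ) :
    ∫⁻ t, ENNReal.ofReal |y t| ∂lam ≤ ENNReal.ofReal b * (1 + md Φ y) := by
  have h1 : ∫⁻ t, ENNReal.ofReal |y t| ∂lam ≤
      ∫⁻ t, ENNReal.ofReal b * (1 + ENNReal.ofReal (Φ |y t|)) ∂lam := by
    refine lintegral_mono fun t => ?_
    show ENNReal.ofReal |y t| ≤ ENNReal.ofReal b * (1 + ENNReal.ofReal (Φ |y t|))
    rw [← ENNReal.ofReal_one, ← ENNReal.ofReal_add zero_le_one (hΦ.qorl.nonneg (abs_nonneg _)),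
      ← ENNReal.ofReal_mul hb0.le]
    exact ENNReal.ofReal_le_ofReal (hb _ (abs_nonneg _))
  refine h1.trans (le_of_eq ?_)
  rw [lintegral_const_mul' _ _ ENNReal.ofReal_ne_top, lintegral_add_left measurable_const]
  simp [md]

private lemma n1_lint (x : F0) :
    n1 x = (∫⁻ t, ENNReal.ofReal |x t| ∂lam).toReal := by
  unfold n1
  rw [integral_eq_lintegral_of_nonneg_ae (Eventually.of_forall fun t => abs_nonneg _)
    x.aestronglyMeasurable.norm]

private lemma lint_n1 {x : F0} (hx : Integrable x lam) :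
    ∫⁻ t, ENNReal.ofReal |x t| ∂lam = ENNReal.ofReal (n1 x) := by
  rw [n1_lint, ENNReal.ofReal_toReal]
  have h := hx.2
  rw [hasFiniteIntegral_iff_norm] at h
  exact h.ne

private lemma lint_div (x : F0) {r : ℝ} (hr : 0 < r) :
    ∫⁻ t, ENNReal.ofReal |x t / r| ∂lam = ENNReal.ofReal r⁻¹ * ∫⁻ t, ENNReal.ofReal |x t| ∂lam := by
  rw [← lintegral_const_mul' _ _ ENNReal.ofReal_ne_top]
  refine lintegral_congr fun t => ?_
  rw [← ENNReal.ofReal_mul (inv_nonneg.2 hr.le), abs_div, abs_of_pos hr, div_eq_inv_mul]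

theorem n1_equiv (hΦ : Orl Φ) (hl : ∃ C : ℝ, ∀ t, 1 ≤ t → Φ t ≤ C * t) :
    (∀ x : F0, x ∈ LPhi Φ ↔ Integrable x lam) ∧
      ∃ a : ℝ, 0 < a ∧ ∀ x : F0, x ∈ LPhi Φ → n1 x ≤ a * Nm Φ x ∧ Nm Φ x ≤ a * n1 x := by
  obtain ⟨K, hK1, hK⟩ := lin_upper hΦ hl
  obtain ⟨b, hb0, hb⟩ := lin_lower hΦ
  have hK0 : 0 < K := by linarith
  have hmem : ∀ x : F0, x ∈ LPhi Φ ↔ Integrable x lam := by
    intro x
    constructor
    · rintro ⟨r, hr, hm⟩
      refine ⟨x.aestronglyMeasurable, ?_⟩
      rw [hasFiniteIntegral_iff_norm]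
      have h1 := lint_lower hb hb0 hΦ (fun t => x t / r)
      rw [lint_div x hr] at h1
      have h2 : ENNReal.ofReal b * (1 + md Φ (fun t => x t / r)) < ⊤ :=
        ENNReal.mul_lt_top ENNReal.ofReal_lt_top (ENNReal.add_lt_top.2 ⟨ENNReal.one_lt_top, hm⟩)
      have h3 := h1.trans_lt h2
      by_contra h4
      rw [not_lt, top_le_iff] at h4
      have h5 : ∫⁻ t, ENNReal.ofReal |x t| ∂lam = ⊤ := h4
      rw [h5, ENNReal.mul_top] at h3
      · exact absurd h3 (lt_irrefl _)
      · rw [Ne, ENNReal.ofReal_eq_zero, not_le]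
        exact inv_pos.2 hr
    · intro hx
      refine ⟨1, one_pos, (lint_upper hK hK0.le _).trans_lt ?_⟩
      rw [lint_div x one_pos, lint_n1 hx]
      exact ENNReal.mul_lt_top ENNReal.ofReal_lt_top
        (ENNReal.mul_lt_top ENNReal.ofReal_lt_top ENNReal.ofReal_lt_top)
  refine ⟨hmem, max (2 * b) K, lt_max_of_lt_right hK0, fun x hx => ?_⟩
  have hxi := (hmem x).1 hx
  have hn0 : 0 ≤ n1 x := integral_nonneg fun t => abs_nonneg _
  constructor
  · have h1 : n1 x ≤ 2 * b * Nm Φ x := by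
      have h2 : ∀ r, Nm Φ x < r → n1 x ≤ 2 * b * r := by
        intro r hr
        have hr0 : 0 < r := (Nm_nonneg x).trans_lt hr
        have h3 := md_of_lt hΦ hx hr
        have h4 := lint_lower hb hb0 hΦ (fun t => x t / r)
        rw [lint_div x hr0, lint_n1 hxi, ← ENNReal.ofReal_mul (inv_nonneg.2 hr0.le)] at h4
        have h5 : ENNReal.ofReal b * (1 + md Φ (fun t => x t / r)) ≤ ENNReal.ofReal (b * 2) := by
          rw [ENNReal.ofReal_mul hb0.le]
          refine mul_le_mul_right ?_ _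
          calc 1 + md Φ (fun t => x t / r) ≤ 1 + 1 := add_le_add le_rfl h3
            _ = ENNReal.ofReal 2 := by
                rw [ENNReal.ofReal_ofNat]
                norm_num
        have h6 := (ENNReal.ofReal_le_ofReal_iff (by positivity)).1 (h4.trans h5)
        rw [inv_mul_le_iff₀ hr0] at h6
        linarith
      have h7 : n1 x / (2 * b) ≤ Nm Φ x := by
        apply le_of_forall_gt
        intro r hr
        have := h2 r hr
        rcases lt_or_ge (n1 x / (2 * b)) r with h | h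
        · exact h
        · exfalso
          -- choose r' between
          obtain ⟨r', hr1, hr2⟩ := exists_between hr
          have h8 := h2 r' hr1
          rw [le_div_iff₀ (by positivity)] at h
          nlinarith
      rw [div_le_iff₀ (by positivity)] at h7
      linarith
    refine h1.trans (mul_le_mul_of_nonneg_right (le_max_left _ _) (Nm_nonneg x))
  · have h1 : Nm Φ x ≤ K * n1 x := by
      apply le_of_forall_pos_le_add
      intro ε hε
      have hr : 0 < K * n1 x + ε := by positivity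
      refine Nm_le hr ?_
      refine (lint_upper hK hK0.le _).trans ?_
      rw [lint_div x hr, lint_n1 hxi, ← ENNReal.ofReal_mul (inv_nonneg.2 hr.le),
        ← ENNReal.ofReal_mul hK0.le, ← ENNReal.ofReal_one]
      apply ENNReal.ofReal_le_ofReal
      rw [← mul_assoc, mul_comm K, mul_assoc, inv_mul_le_iff₀ hr]
      linarith
    exact h1.trans (mul_le_mul_of_nonneg_right (le_max_right _ _) hn0)

/-- Indicators as elements of `F0`. -/
def ind0 (A : Set ℝ) (hA : MeasurableSet A) : F0 := Q A hA (AEEqFun.const ℝ 1)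

private lemma Q_add (e : Set ℝ) (he : MeasurableSet e) (x y : F0) :
    Q e he (x + y) = Q e he x + Q e he y := by
  apply AEEqFun.ext
  filter_upwards [Q_coe e he (x + y), Q_coe e he x, Q_coe e he y, AEEqFun.coeFn_add x y,
    AEEqFun.coeFn_add (Q e he x) (Q e he y)] with t h1 h2 h3 h4 h5
  rw [h1, h5, Pi.add_apply, h2, h3]
  by_cases ht : t ∈ e
  · rw [indicator_of_mem ht, indicator_of_mem ht, indicator_of_mem ht, h4]
    rfl
  · rw [indicator_of_notMem ht, indicator_of_notMem ht, indicator_of_notMem ht, add_zero]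

private lemma Q_smul (e : Set ℝ) (he : MeasurableSet e) (a : ℝ) (x : F0) :
    Q e he (a • x) = a • Q e he x := by
  apply AEEqFun.ext
  filter_upwards [Q_coe e he (a • x), Q_coe e he x, AEEqFun.coeFn_smul a x,
    AEEqFun.coeFn_smul a (Q e he x)] with t h1 h2 h3 h4
  rw [h1, h4, Pi.smul_apply, h2]
  by_cases ht : t ∈ e
  · rw [indicator_of_mem ht, indicator_of_mem ht, h3]
    rfl
  · rw [indicator_of_notMem ht, indicator_of_notMem ht, smul_zero]

private lemma n1_add {x y : F0} (hx : Integrable x lam) (hy : Integrable y lam) :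
    n1 (x + y) ≤ n1 x + n1 y := by
  unfold n1
  rw [← integral_add hx.abs hy.abs]
  refine integral_mono_ae ?_ (hx.abs.add hy.abs) ?_
  · exact ((hx.add hy).congr (AEEqFun.coeFn_add x y).symm).abs
  · filter_upwards [AEEqFun.coeFn_add x y] with t h
    rw [h]
    exact abs_add_le _ _

private lemma n1_smul (a : ℝ) (x : F0) : n1 (a • x) = |a| * n1 x := by
  unfold n1
  rw [← integral_const_mul]
  apply integral_congr_ae
  filter_upwards [AEEqFun.coeFn_smul a x] with t h
  rw [h, Pi.smul_apply, smul_eq_mul, abs_mul]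


private lemma n1_Q_le (e : Set ℝ) (he : MeasurableSet e) {x : F0} (hx : Integrable x lam) :
    n1 (Q e he x) ≤ n1 x := by
  unfold n1
  have h1 : Integrable (Q e he x) lam :=
    (hx.indicator he).congr (Q_coe e he x).symm
  refine integral_mono_ae h1.abs hx.abs ?_
  filter_upwards [Q_coe e he x] with t h
  rw [h]
  by_cases ht : t ∈ e
  · rw [indicator_of_mem ht]
  · rw [indicator_of_notMem ht, abs_zero]
    exact abs_nonneg _

private lemma n1_nonneg (x : F0) : 0 ≤ n1 x := integral_nonneg fun t => abs_nonneg _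

private lemma ind0_coe (A : Set ℝ) (hA : MeasurableSet A) :
    (ind0 A hA : ℝ → ℝ) =ᵐ[lam] A.indicator (fun _ => (1 : ℝ)) := by
  filter_upwards [Q_coe A hA (AEEqFun.const ℝ (1 : ℝ)), AEEqFun.coeFn_const ℝ (1 : ℝ) (μ := lam)]
    with t h1 h2
  show (Q A hA (AEEqFun.const ℝ 1) : ℝ → ℝ) t = _
  rw [h1]
  by_cases ht : t ∈ A
  · rw [indicator_of_mem ht, indicator_of_mem ht, h2]
    rfl
  · rw [indicator_of_notMem ht, indicator_of_notMem ht]

/-- The bound on simple functions. -/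
private lemma simple_bound {L : F0 → ℝ} {c₁ : ℝ} {f : Set ℝ} (hf : MeasurableSet f)
    (hadd : ∀ x y : F0, Integrable x lam → Integrable y lam → L (x + y) ≤ L x + L y)
    (hsmul : ∀ (a : ℝ) (x : F0), Integrable x lam → L (a • x) = |a| * L x)
    (hQ : ∀ x : F0, L (Q f hf x) = L x)
    (hind : ∀ (A : Set ℝ) (hA : MeasurableSet A), A ⊆ f → L (ind0 A hA) ≤ c₁ * (lam A).toReal)
    (s : SimpleFunc ℝ ℝ) :
    L (AEEqFun.mk s s.stronglyMeasurable.aestronglyMeasurable) ≤
      c₁ * ∫ t, |f.indicator s t| ∂lam := by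
  have hint : ∀ s : SimpleFunc ℝ ℝ, Integrable s lam := fun s =>
    SimpleFunc.integrable_of_isFiniteMeasure s
  induction s using SimpleFunc.induction with
  | @const a B hB =>
    have e1 : Q f hf (AEEqFun.mk (SimpleFunc.piecewise B hB (SimpleFunc.const ℝ a)
        (SimpleFunc.const ℝ 0)) (SimpleFunc.stronglyMeasurable _).aestronglyMeasurable) =
        a • ind0 (B ∩ f) (hB.inter hf) := by
      apply AEEqFun.ext
      filter_upwards [Q_coe f hf (AEEqFun.mk (SimpleFunc.piecewise B hB (SimpleFunc.const ℝ a)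
        (SimpleFunc.const ℝ 0)) (SimpleFunc.stronglyMeasurable _).aestronglyMeasurable),
        AEEqFun.coeFn_mk (μ := lam) (SimpleFunc.piecewise B hB (SimpleFunc.const ℝ a)
        (SimpleFunc.const ℝ 0) : ℝ → ℝ) (SimpleFunc.stronglyMeasurable _).aestronglyMeasurable,
        ind0_coe (B ∩ f) (hB.inter hf), AEEqFun.coeFn_smul a (ind0 (B ∩ f) (hB.inter hf))]
        with t h1 h2 h3 h4
      rw [h1, h4, Pi.smul_apply, h3]
      by_cases ht : t ∈ f
      · rw [indicator_of_mem ht, h2]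
        by_cases htB : t ∈ B
        · rw [indicator_of_mem (show t ∈ B ∩ f from ⟨htB, ht⟩)]
          simp [SimpleFunc.coe_piecewise, htB]
        · rw [indicator_of_notMem (fun h : t ∈ B ∩ f => htB h.1)]
          simp [SimpleFunc.coe_piecewise, htB]
      · rw [indicator_of_notMem ht, indicator_of_notMem (fun h : t ∈ B ∩ f => ht h.2), smul_zero]
    rw [← hQ, e1, hsmul _ _ (((integrable_const (1 : ℝ)).indicator (hB.inter hf)).congr
      (ind0_coe _ _).symm)]
    have e2 : ∫ t, |f.indicator (SimpleFunc.piecewise B hB (SimpleFunc.const ℝ a)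
        (SimpleFunc.const ℝ 0)) t| ∂lam = |a| * (lam (B ∩ f)).toReal := by
      have e3 : (fun t => |f.indicator (SimpleFunc.piecewise B hB (SimpleFunc.const ℝ a)
        (SimpleFunc.const ℝ 0)) t|) = (B ∩ f).indicator (fun _ => |a|) := by
        funext t
        by_cases ht : t ∈ f
        · rw [indicator_of_mem ht]
          by_cases htB : t ∈ B
          · rw [indicator_of_mem (show t ∈ B ∩ f from ⟨htB, ht⟩)]
            simp [SimpleFunc.coe_piecewise, htB]
          · rw [indicator_of_notMem (fun h : t ∈ B ∩ f => htB h.1)]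
            simp [SimpleFunc.coe_piecewise, htB]
        · rw [indicator_of_notMem ht, indicator_of_notMem (fun h : t ∈ B ∩ f => ht h.2), abs_zero]
      rw [e3, integral_indicator_const _ (hB.inter hf), smul_eq_mul, mul_comm]
      rfl
    rw [e2]
    have h5 := hind (B ∩ f) (hB.inter hf) inter_subset_right
    calc |a| * L (ind0 (B ∩ f) (hB.inter hf)) ≤ |a| * (c₁ * (lam (B ∩ f)).toReal) :=
          mul_le_mul_of_nonneg_left h5 (abs_nonneg _)
      _ = _ := by ring
  | @add u v huv hu hv =>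
    have e1 : AEEqFun.mk (μ := lam) ((u + v : SimpleFunc ℝ ℝ) : ℝ → ℝ)
        (SimpleFunc.stronglyMeasurable _).aestronglyMeasurable =
        AEEqFun.mk (u : ℝ → ℝ) u.stronglyMeasurable.aestronglyMeasurable +
        AEEqFun.mk (v : ℝ → ℝ) v.stronglyMeasurable.aestronglyMeasurable := by
      rw [AEEqFun.mk_add_mk]
      rfl
    rw [e1]
    refine (hadd _ _ ((hint u).congr (AEEqFun.coeFn_mk _ _).symm)
      ((hint v).congr (AEEqFun.coeFn_mk _ _).symm)).trans ?_
    refine (add_le_add hu hv).trans (le_of_eq ?_)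
    rw [← mul_add, ← integral_add ((hint u).indicator hf).abs ((hint v).indicator hf).abs]
    congr 1
    refine integral_congr_ae (Eventually.of_forall fun t => ?_)
    show |f.indicator (⇑u) t| + |f.indicator (⇑v) t| = |f.indicator (⇑(u + v)) t|
    by_cases ht : t ∈ f
    · rw [indicator_of_mem ht, indicator_of_mem ht, indicator_of_mem ht]
      have h6 : u t = 0 ∨ v t = 0 := by
        by_contra hcon
        push Not at hcon
        exact Set.disjoint_left.1 huv (Function.mem_support.2 hcon.1)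
          (Function.mem_support.2 hcon.2)
      rcases h6 with h6 | h6
      · simp [h6]
      · simp [h6]
    · rw [indicator_of_notMem ht, indicator_of_notMem ht, indicator_of_notMem ht, abs_zero,
        add_zero]

/-- The bound on all integrable functions. -/
private lemma full_bound {L : F0 → ℝ} {c₁ K' : ℝ} (hc₁ : 0 ≤ c₁) (hK' : 0 ≤ K') {f : Set ℝ}
    (hf : MeasurableSet f)
    (hadd : ∀ x y : F0, Integrable x lam → Integrable y lam → L (x + y) ≤ L x + L y)
    (hsmul : ∀ (a : ℝ) (x : F0), Integrable x lam → L (a • x) = |a| * L x)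
    (hQ : ∀ x : F0, L (Q f hf x) = L x)
    (hbd : ∀ x : F0, Integrable x lam → L x ≤ K' * n1 x)
    (hind : ∀ (A : Set ℝ) (hA : MeasurableSet A), A ⊆ f → L (ind0 A hA) ≤ c₁ * (lam A).toReal)
    {x : F0} (hx : Integrable x lam) : L x ≤ c₁ * n1 x := by
  apply le_of_forall_pos_le_add
  intro ε hε
  obtain ⟨η, hη, hη2⟩ : ∃ η : ℝ, 0 < η ∧ (c₁ + K') * η ≤ ε := by
    refine ⟨ε / (c₁ + K' + 1), by positivity, ?_⟩
    rw [mul_div_assoc', div_le_iff₀ (by positivity)]
    nlinarith
  obtain ⟨s, hs, _⟩ := (memLp_one_iff_integrable.2 hx).exists_simpleFunc_eLpNorm_sub_lt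
    ENNReal.one_ne_top (ε := ENNReal.ofReal η) (ENNReal.ofReal_pos.2 hη).ne'
  have hsi : Integrable s lam := SimpleFunc.integrable_of_isFiniteMeasure s
  obtain ⟨y, hy⟩ : ∃ y : F0, y = AEEqFun.mk (s : ℝ → ℝ)
    s.stronglyMeasurable.aestronglyMeasurable := ⟨_, rfl⟩
  have hyc : (y : ℝ → ℝ) =ᵐ[lam] s := by
    rw [hy]; exact AEEqFun.coeFn_mk _ _
  have hyi : Integrable y lam := hsi.congr hyc.symm
  have hdi : Integrable (x - y : F0) lam := (hx.sub hyi).congr (AEEqFun.coeFn_sub x y).symm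
  have hdn : n1 (x - y) ≤ η := by
    have h1 : eLpNorm ((x : ℝ → ℝ) - (s : ℝ → ℝ)) 1 lam = ENNReal.ofReal (n1 (x - y)) := by
      rw [← lint_n1 hdi, eLpNorm_one_eq_lintegral_enorm]
      apply lintegral_congr_ae
      filter_upwards [AEEqFun.coeFn_sub x y, hyc] with t h1 h2
      rw [h1, Pi.sub_apply, Pi.sub_apply, h2, Real.enorm_eq_ofReal_abs]
    rw [h1] at hs
    exact ((ENNReal.ofReal_lt_ofReal_iff hη).1 hs).le
  have h1 := simple_bound (c₁ := c₁) hf hadd hsmul hQ hind s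
  rw [← hy] at h1
  have h2 : ∫ t, |f.indicator s t| ∂lam ≤ n1 y := by
    unfold n1
    refine integral_mono_ae (hsi.indicator hf).abs hyi.abs ?_
    filter_upwards [hyc] with t h
    rw [h]
    by_cases ht : t ∈ f
    · rw [indicator_of_mem ht]
    · rw [indicator_of_notMem ht, abs_zero]
      exact abs_nonneg _
  have h3 : n1 y ≤ n1 x + η := by
    have e : y = x + (-1 : ℝ) • (x - y) := by
      rw [neg_one_smul]; abel
    have hi : Integrable ((-1 : ℝ) • (x - y) : F0) lam :=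
      (hdi.smul (-1 : ℝ)).congr (AEEqFun.coeFn_smul _ _).symm
    have h4 := n1_add hx hi
    rw [← e, n1_smul] at h4
    norm_num at h4
    linarith
  have e : x = y + (x - y) := by abel
  calc L x = L (y + (x - y)) := by rw [← e]
    _ ≤ L y + L (x - y) := hadd _ _ hyi hdi
    _ ≤ c₁ * n1 y + K' * η := by
        refine add_le_add (h1.trans (mul_le_mul_of_nonneg_left h2 hc₁)) ?_
        exact (hbd _ hdi).trans (mul_le_mul_of_nonneg_left hdn hK')
    _ ≤ c₁ * (n1 x + η) + K' * η := by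
        have := mul_le_mul_of_nonneg_left h3 hc₁
        linarith
    _ ≤ c₁ * n1 x + ε := by linarith

theorem local_low (hΦ : Orl Φ) (hl : ∃ C : ℝ, ∀ t, 1 ≤ t → Φ t ≤ C * t) {T : F0 → F0}
    (hT : BddOp Φ T) {c : ℝ} (hc : 0 < c) :
    ∃ c₁ : ℝ, 0 < c₁ ∧ ∀ (e : Set ℝ) (he : MeasurableSet e),
      (∀ (f : Set ℝ) (hf : MeasurableSet f), lam f ≠ 0 → c ≤ blockNorm Φ T e f he hf) →
      ∀ f : Set ℝ, MeasurableSet f → lam f ≠ 0 → ∃ (A : Set ℝ) (hA : MeasurableSet A),
        A ⊆ f ∧ lam A ≠ 0 ∧ c₁ * (lam A).toReal ≤ n1 (Q e he (T (ind0 A hA))) := by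
  obtain ⟨hmem, a, ha, hab⟩ := n1_equiv hΦ hl
  obtain ⟨K, hK⟩ := hT.bdd
  refine ⟨c / (2 * a ^ 2), by positivity, fun e he hlow f hf hf0 => ?_⟩
  by_contra hcon
  push Not at hcon
  obtain ⟨K', hK'⟩ : ∃ K' : ℝ, K' = a * (max K 0 * a) := ⟨_, rfl⟩
  have hK'0 : 0 ≤ K' := by rw [hK']; positivity
  have hbd0 : ∀ x : F0, x ∈ LPhi Φ → n1 (Q e he (T x)) ≤ K' * n1 x := by
    intro x hx
    have hTx := hT.maps x hx
    calc n1 (Q e he (T x)) ≤ a * Nm Φ (Q e he (T x)) := (hab _ (Q_mem hΦ e he hTx)).1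
      _ ≤ a * Nm Φ (T x) := mul_le_mul_of_nonneg_left (Nm_Q_le hΦ e he hTx) ha.le
      _ ≤ a * (max K 0 * Nm Φ x) := by
          refine mul_le_mul_of_nonneg_left ((hK x hx).trans ?_) ha.le
          exact mul_le_mul_of_nonneg_right (le_max_left _ _) (Nm_nonneg x)
      _ ≤ a * (max K 0 * (a * n1 x)) := by
          refine mul_le_mul_of_nonneg_left ?_ ha.le
          exact mul_le_mul_of_nonneg_left (hab _ hx).2 (le_max_right _ _)
      _ = K' * n1 x := by rw [hK']; ring
  have hQQ : ∀ x : F0, Q f hf (Q f hf x) = Q f hf x := by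
    intro x
    apply AEEqFun.ext
    filter_upwards [Q_coe f hf (Q f hf x), Q_coe f hf x] with t h1 h2
    rw [h1]
    by_cases ht : t ∈ f
    · rw [indicator_of_mem ht]
    · rw [indicator_of_notMem ht, h2, indicator_of_notMem ht]
  have hind : ∀ (A : Set ℝ) (hA : MeasurableSet A), A ⊆ f →
      n1 (Q e he (T (Q f hf (ind0 A hA)))) ≤ c / (2 * a ^ 2) * (lam A).toReal := by
    intro A hA hAf
    have e1 : Q f hf (ind0 A hA) = ind0 A hA := by
      apply AEEqFun.ext
      filter_upwards [Q_coe f hf (ind0 A hA), ind0_coe A hA] with t h1 h2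
      rw [h1]
      by_cases ht : t ∈ f
      · rw [indicator_of_mem ht]
      · rw [indicator_of_notMem ht, h2, indicator_of_notMem (fun h => ht (hAf h))]
    rw [e1]
    by_cases h0 : lam A = 0
    · have e2 : n1 (ind0 A hA) = 0 := by
        unfold n1
        rw [integral_eq_zero_of_ae]
        have h3 : ∀ᵐ t ∂lam, t ∉ A := measure_eq_zero_iff_ae_notMem.1 h0
        filter_upwards [ind0_coe A hA, h3] with t h4 h5
        rw [h4, indicator_of_notMem h5, abs_zero]
        rfl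
      have h6 := hbd0 (ind0 A hA) ((hmem _).2
        (((integrable_const (1 : ℝ)).indicator hA).congr (ind0_coe _ _).symm))
      rw [e2, mul_zero] at h6
      rw [h0, ENNReal.toReal_zero, mul_zero]
      exact h6
    · exact (hcon A hA hAf h0).le
  have hfull : ∀ x : F0, x ∈ LPhi Φ → n1 (Q e he (T (Q f hf x))) ≤ c / (2 * a ^ 2) * n1 x := by
    intro x hx
    refine full_bound (L := fun x => n1 (Q e he (T (Q f hf x)))) (K' := K') (by positivity) hK'0
      hf ?_ ?_ ?_ ?_ hind ((hmem x).1 hx)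
    · intro y z hy hz
      have hy' := Q_mem hΦ f hf ((hmem y).2 hy)
      have hz' := Q_mem hΦ f hf ((hmem z).2 hz)
      show n1 (Q e he (T (Q f hf (y + z)))) ≤ _
      rw [Q_add, hT.add _ hy' _ hz', Q_add]
      exact n1_add ((hmem _).1 (Q_mem hΦ e he (hT.maps _ hy')))
        ((hmem _).1 (Q_mem hΦ e he (hT.maps _ hz')))
    · intro r y hy
      have hy' := Q_mem hΦ f hf ((hmem y).2 hy)
      show n1 (Q e he (T (Q f hf (r • y)))) = _
      rw [Q_smul, hT.smul _ _ hy', Q_smul, n1_smul]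
    · intro y
      show n1 (Q e he (T (Q f hf (Q f hf y)))) = _
      rw [hQQ]
    · intro y hy
      have hy' := Q_mem hΦ f hf ((hmem y).2 hy)
      refine (hbd0 _ hy').trans (mul_le_mul_of_nonneg_left (n1_Q_le f hf hy) hK'0)
  have hbn : blockNorm Φ T e f he hf ≤ c / 2 := by
    unfold blockNorm
    refine csInf_le ⟨0, fun r hr => hr.1⟩ ⟨by positivity, fun x hx => ?_⟩
    have hy' := hT.maps _ (Q_mem hΦ f hf hx)
    calc Nm Φ (Q e he (T (Q f hf x))) ≤ a * n1 (Q e he (T (Q f hf x))) :=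
          (hab _ (Q_mem hΦ e he hy')).2
      _ ≤ a * (c / (2 * a ^ 2) * n1 x) := mul_le_mul_of_nonneg_left (hfull x hx) ha.le
      _ ≤ a * (c / (2 * a ^ 2) * (a * Nm Φ x)) := by
          refine mul_le_mul_of_nonneg_left ?_ ha.le
          exact mul_le_mul_of_nonneg_left (hab x hx).1 (by positivity)
      _ = c / 2 * Nm Φ x := by field_simp
  have := hlow f hf hf0
  linarith

end

end Pool.Agent.OB9
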