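import Pool.Agent.OB9.DyA

/-!
# Module OB9/RadI

Rademacher functions.

PROOF. `integral_rad`: with `idx q t / 2^(q-p) = idx p t` the integrand is a function of `idx q t`:
`a (k / 2^(q-p)) * (if k % 2 = 0 then 1 else -1)`, `k = idx q t`; `integral_idx` and pairing `k = 2j`,
`k = 2j + 1` (both have the same `k / 2^(q-p)` as `q - p ≥ 1`). `rad_eq_idx`: `idx p t` is
`idx q t / 2^(q-p)`.
-/

set_option autoImplicit false

namespace Pool.Agent.OB9

open MeasureTheory Set Filter
open scoped ENNReal Topology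

noncomputable section

theorem measurable_rad (p : ℕ) : Measurable (rad p) := by
  have h : rad p = (fun k : ℕ => if k % 2 = 0 then (1 : ℝ) else -1) ∘ idx p := rfl
  rw [h]
  exact (measurable_of_countable _).comp (measurable_idx p)

theorem abs_rad (p : ℕ) (t : ℝ) : |rad p t| = 1 := by
  unfold rad
  split_ifs <;> simp

theorem rad_mul_self (p : ℕ) (t : ℝ) : rad p t * rad p t = 1 := by
  unfold rad
  split_ifs <;> simp

private lemma sum_pairs (f : ℕ → ℝ) (n : ℕ) :
    ∑ k ∈ Finset.range (2 * n), f k = ∑ j ∈ Finset.range n, (f (2 * j) + f (2 * j + 1)) := by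
  induction n with
  | zero => simp
  | succ n ih =>
    rw [show 2 * (n + 1) = 2 * n + 1 + 1 by ring, Finset.sum_range_succ, Finset.sum_range_succ, ih,
      Finset.sum_range_succ]
    ring

theorem integral_rad {p q : ℕ} (h : p < q) (a : ℕ → ℝ) :
    ∫ t, a (idx p t) * rad q t ∂lam = 0 := by
  obtain ⟨m, rfl⟩ : ∃ m, q = p + (m + 1) := ⟨q - p - 1, by omega⟩
  set A : ℕ → ℝ := fun k => a (k / 2 ^ (m + 1)) * (if k % 2 = 0 then 1 else -1) with hA
  have h1 : ∫ t, a (idx p t) * rad (p + (m + 1)) t ∂lam = ∫ t, A (idx (p + (m + 1)) t) ∂lam := by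
    refine integral_congr_ae ?_
    filter_upwards [ae_mem_Ico] with t ht
    simp only [hA]
    rw [idx_div p (m + 1) ht.1]
    rfl
  rw [h1, integral_idx]
  have h2 : ∑ k ∈ Finset.range (2 ^ (p + (m + 1))), A k = 0 := by
    rw [show 2 ^ (p + (m + 1)) = 2 * 2 ^ (p + m) by ring, sum_pairs]
    refine Finset.sum_eq_zero fun j _ => ?_
    have e1 : (2 * j) / 2 ^ (m + 1) = j / 2 ^ m := by
      rw [pow_succ, mul_comm (2 ^ m) 2, ← Nat.div_div_eq_div_mul]
      congr 1
      omega
    have e2 : (2 * j + 1) / 2 ^ (m + 1) = j / 2 ^ m := by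
      rw [pow_succ, mul_comm (2 ^ m) 2, ← Nat.div_div_eq_div_mul]
      congr 1
      omega
    simp only [hA]
    rw [e1, e2, if_pos (by omega), if_neg (by omega)]
    ring
  rw [h2, zero_div]

theorem rad_eq_idx {p q : ℕ} (h : p ≤ q) : ∃ a : ℕ → ℝ, ∀ t, 0 ≤ t → rad p t = a (idx q t) := by
  obtain ⟨m, rfl⟩ : ∃ m, q = p + m := ⟨q - p, by omega⟩
  refine ⟨fun k => if (k / 2 ^ m) % 2 = 0 then 1 else -1, fun t ht => ?_⟩
  simp only
  rw [idx_div p m ht]
  rfl

end

end Pool.Agent.OB9
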