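import Pool.Agent.OB9.FRop
import Pool.Agent.OB9.RadI
import Pool.Agent.OB9.DensA

/-!
# Module OB9/LtA

Two orthonormal systems for the case of `L²`.

PROOF. For `n : ℕ` let `l = (Nat.unpair n).1 ≤ n`, `(c, j)` the two components of
`Nat.unpair (Nat.unpair n).2` reduced modulo `2^l`, `p = n + 1 > l`. Put
`φ_n = 2^{l/2} 1_{cell l c} rad p`, `ψ_n = 2^{l/2} 1_{cell l j} rad p` (`Real.sqrt (2^l)`). Each has norm
`1`, and for `n < n'`: `φ_n φ_{n'}` is a function of `idx (n+1) t` and of `idx l' t`, `l' ≤ n'`, times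
`rad (n'+1)`, i.e. a function of `idx n' t` (`n + 1 ≤ n'`) times `rad (n'+1)`: integral `0`
(`integral_rad`). Same for `ψ`. Given `e`, `f` and `δ > 0`, by `dens` (or directly by the density
theorem used there: from `Good (δ/2)`-type statements; note that `Good η l e f` with any `η` gives
some cell `j < 2^l` with `lam (cell l j \ e) ≤ ρ/16 2^{-l}` where `ρ ≤ 1`, which is not small enough, so
use the first part: `Good η l e f` with `η = δ` and `ρ > 0` gives a point `t` with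
`lam (cell n (idx n t) \ f) ≤ δ 2^{-n}` for `n ≥ l`; and `Good δ l f e` gives one for `e`), for large `l`
there are `c, j < 2^l` with `lam (cell l c \ f) ≤ δ 2^{-l}`, `lam (cell l j \ e) ≤ δ 2^{-l}`. Let
`n = Nat.pair l (Nat.pair c j)`. Then `∫_{f^c} φ_n² ≤ δ`, `∫_{e^c} ψ_n² ≤ δ`.
-/

set_option autoImplicit false

namespace Pool.Agent.OB9

open MeasureTheory Set Filter
open scoped ENNReal Topology

noncomputable section

/-- The normalized function on the cell `c` of level `l`, times `rad p`. -/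
private def nf (l c p : ℕ) (t : ℝ) : ℝ :=
  Real.sqrt (2 ^ l) * (if idx l t = c then 1 else 0) * rad p t

private theorem measurable_nf (l c p : ℕ) : Measurable (nf l c p) := by
  unfold nf
  refine (measurable_const.mul ?_).mul (measurable_rad p)
  exact Measurable.ite (measurable_idx l (measurableSet_singleton c)) measurable_const
    measurable_const

private theorem nf_bdd (l c p : ℕ) (t : ℝ) : |nf l c p t| ≤ Real.sqrt (2 ^ l) := by
  unfold nf
  rw [abs_mul, abs_rad, mul_one, abs_mul, abs_of_nonneg (Real.sqrt_nonneg _)]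
  split_ifs <;> simp

private theorem nf_sq (l c p : ℕ) (t : ℝ) :
    nf l c p t * nf l c p t = if idx l t = c then 2 ^ l else 0 := by
  unfold nf
  have h1 := rad_mul_self p t
  have h2 : Real.sqrt (2 ^ l) * Real.sqrt (2 ^ l) = 2 ^ l := Real.mul_self_sqrt (by positivity)
  split_ifs
  · calc _ = (Real.sqrt (2 ^ l) * Real.sqrt (2 ^ l)) * (rad p t * rad p t) := by ring
      _ = 2 ^ l := by rw [h1, h2, mul_one]
  · simp

private theorem nf_int (l c p : ℕ) (hc : c < 2 ^ l) : ∫ t, nf l c p t * nf l c p t ∂lam = 1 := by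
  have h1 : (fun t => nf l c p t * nf l c p t) =
      fun t => (fun k : ℕ => if k = c then (2 : ℝ) ^ l else 0) (idx l t) := by
    funext t
    exact nf_sq l c p t
  rw [h1]
  refine (integral_idx l (fun k : ℕ => if k = c then (2 : ℝ) ^ l else 0)).trans ?_
  rw [Finset.sum_ite_eq' (Finset.range (2 ^ l)) c, if_pos (Finset.mem_range.mpr hc)]
  exact div_self (by positivity)

private theorem nf_orth {l c p l' c' p' : ℕ} (h : l < p') (h' : l' < p') (hp : p < p') :
    ∫ t, nf l c p t * nf l' c' p' t ∂lam = 0 := by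
  obtain ⟨q, rfl⟩ : ∃ q, p' = q + 1 := ⟨p' - 1, by omega⟩
  obtain ⟨a, ha⟩ := rad_eq_idx (p := p) (q := q) (by omega)
  have h1 : ∫ t, nf l c p t * nf l' c' (q + 1) t ∂lam =
      ∫ t, (fun k : ℕ => (Real.sqrt (2 ^ l) * (if k / 2 ^ (q - l) = c then 1 else 0) * a k) *
        (Real.sqrt (2 ^ l') * (if k / 2 ^ (q - l') = c' then 1 else 0))) (idx q t) *
          rad (q + 1) t ∂lam := by
    refine integral_congr_ae ?_
    filter_upwards [ae_mem_Ico] with t ht
    have e1 := idx_div l (q - l) ht.1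
    have e2 := idx_div l' (q - l') ht.1
    rw [Nat.add_sub_cancel' (by omega)] at e1 e2
    simp only [nf]
    rw [e1, e2, ha t ht.1]
    ring
  rw [h1]
  exact integral_rad (Nat.lt_succ_self q)
    (fun k : ℕ => (Real.sqrt (2 ^ l) * (if k / 2 ^ (q - l) = c then 1 else 0) * a k) *
      (Real.sqrt (2 ^ l') * (if k / 2 ^ (q - l') = c' then 1 else 0)))

private theorem sys (l c : ℕ → ℕ) (hl : ∀ n, l n ≤ n) (hc : ∀ n, c n < 2 ^ l n) :
    ∃ φ : ℕ → L2, Orthonormal ℝ φ ∧ (∀ n, Bd (φ n)) ∧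
      ∀ n, (fun t => φ n t) =ᵐ[lam] nf (l n) (c n) (n + 1) := by
  have hm : ∀ n, MemLp (nf (l n) (c n) (n + 1)) 2 lam := fun n =>
    memLp_of_bdd (measurable_nf _ _ _) (nf_bdd _ _ _)
  have hco : ∀ n, (fun t => (hm n).toLp _ t) =ᵐ[lam] nf (l n) (c n) (n + 1) := fun n =>
    (hm n).coeFn_toLp
  refine ⟨fun n => (hm n).toLp _, ?_, ?_, hco⟩
  · have hin : ∀ i j, inner ℝ ((hm i).toLp (nf (l i) (c i) (i + 1)))
        ((hm j).toLp (nf (l j) (c j) (j + 1))) =
        ∫ t, nf (l i) (c i) (i + 1) t * nf (l j) (c j) (j + 1) t ∂lam := by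
      intro i j
      rw [inner_eq]
      refine integral_congr_ae ?_
      filter_upwards [hco i, hco j] with t h1 h2
      rw [h1, h2]
    rw [orthonormal_iff_ite]
    intro i j
    rw [hin]
    have hi := hl i
    have hj := hl j
    rcases lt_trichotomy i j with h | h | h
    · rw [if_neg h.ne]
      exact nf_orth (by omega) (by omega) (by omega)
    · subst h
      rw [if_pos rfl]
      exact nf_int _ _ _ (hc i)
    · rw [if_neg h.ne']
      rw [← nf_orth (l := l j) (c := c j) (p := j + 1) (l' := l i) (c' := c i) (p' := i + 1)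
        (by omega) (by omega) (by omega)]
      refine integral_congr_ae (ae_of_all _ fun t => ?_)
      exact mul_comm _ _
  · intro n
    refine ⟨Real.sqrt (2 ^ l n), ?_⟩
    filter_upwards [hco n] with t ht
    rw [ht]
    exact nf_bdd _ _ _ t

private theorem nf_compl {l c p : ℕ} {f : Set ℝ} {δ : ℝ}
    (hδ : 0 < δ) (h : lam (cell l c \ f) ≤ ENNReal.ofReal (δ / 2 ^ l)) {φ : ℝ → ℝ}
    (hφ : φ =ᵐ[lam] nf l c p) : ∫ t in fᶜ, φ t ^ 2 ∂lam ≤ δ := by
  have h1 : ∫ t in fᶜ, φ t ^ 2 ∂lam =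
      ∫ t in fᶜ, (cell l c).indicator (fun _ => (2 : ℝ) ^ l) t ∂lam := by
    refine integral_congr_ae (ae_restrict_of_ae ?_)
    filter_upwards [hφ, ae_mem_Ico] with t h2 h3
    rw [h2, sq, nf_sq]
    by_cases h4 : idx l t = c
    · rw [if_pos h4, indicator_of_mem ((mem_cell h3.1).mpr h4)]
    · rw [if_neg h4, indicator_of_notMem fun h5 => h4 ((mem_cell h3.1).mp h5)]
  rw [h1, integral_indicator_const _ (measurableSet_cell l c), measureReal_def,
    Measure.restrict_apply (measurableSet_cell l c), smul_eq_mul]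
  have h2 : (lam (cell l c ∩ fᶜ)).toReal ≤ δ / 2 ^ l := by
    refine ENNReal.toReal_le_of_le_ofReal (by positivity) ?_
    exact h
  calc (lam (cell l c ∩ fᶜ)).toReal * 2 ^ l ≤ δ / 2 ^ l * 2 ^ l :=
        mul_le_mul_of_nonneg_right h2 (by positivity)
    _ = δ := by field_simp

private theorem good_cell {η : ℝ} {l : ℕ} {e f : Set ℝ} (h : Good η l e f) :
    ∃ c, c < 2 ^ l ∧ lam (cell l c \ f) ≤ ENNReal.ofReal (η / 2 ^ l) := by
  obtain ⟨ρ, hρ, h1, -⟩ := h
  have h2 : (0 : ℝ≥0∞) < ENNReal.ofReal ρ := ENNReal.ofReal_pos.mpr hρ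
  obtain ⟨t, ht0, ht⟩ := nonempty_of_measure_ne_zero (h2.trans_le h1).ne'
  exact ⟨idx l t, idx_lt ht0.1 ht0.2, ht l le_rfl⟩

theorem two_systems : ∃ φ ψ : ℕ → L2, Orthonormal ℝ φ ∧ Orthonormal ℝ ψ ∧
    (∀ n, Bd (φ n)) ∧
    ∀ e f : Set ℝ, MeasurableSet e → MeasurableSet f → lam e ≠ 0 → lam f ≠ 0 →
      ∀ δ : ℝ, 0 < δ → ∃ n, ∫ t in fᶜ, φ n t ^ 2 ∂lam ≤ δ ∧ ∫ t in eᶜ, ψ n t ^ 2 ∂lam ≤ δ := by
  obtain ⟨φ, hφ, hφb, hφe⟩ := sys (fun n => (Nat.unpair n).1)
    (fun n => (Nat.unpair (Nat.unpair n).2).1 % 2 ^ (Nat.unpair n).1)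
    (fun n => Nat.unpair_left_le n) (fun n => Nat.mod_lt _ (by positivity))
  obtain ⟨ψ, hψ, -, hψe⟩ := sys (fun n => (Nat.unpair n).1)
    (fun n => (Nat.unpair (Nat.unpair n).2).2 % 2 ^ (Nat.unpair n).1)
    (fun n => Nat.unpair_left_le n) (fun n => Nat.mod_lt _ (by positivity))
  refine ⟨φ, ψ, hφ, hψ, hφb, fun e f he hf he0 hf0 δ hδ => ?_⟩
  obtain ⟨l1, h1⟩ := dens hδ he hf he0 hf0
  obtain ⟨l2, h2⟩ := dens hδ hf he hf0 he0
  set l := max l1 l2 with hl
  obtain ⟨c, hc, hcl⟩ := good_cell (h1 l (le_max_left _ _))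
  obtain ⟨j, hj, hjl⟩ := good_cell (h2 l (le_max_right _ _))
  refine ⟨Nat.pair l (Nat.pair c j), ?_, ?_⟩
  · have h3 := hφe (Nat.pair l (Nat.pair c j))
    simp only [Nat.unpair_pair, Nat.mod_eq_of_lt hc] at h3
    exact nf_compl hδ hcl h3
  · have h3 := hψe (Nat.pair l (Nat.pair c j))
    simp only [Nat.unpair_pair, Nat.mod_eq_of_lt hj] at h3
    exact nf_compl hδ hjl h3

end

end Pool.Agent.OB9
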