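import Pool.Agent.OB9.LtA

/-!
# Module OB9/LtB

An operator of `L²` with `‖T‖ ≤ 1` and all blocks bounded below.

PROOF. `T = V_ψ V_φ^*`, i.e. `T x = ∑ ⟪φ_n, x⟫ ψ_n`: with `V_ψ : ℓ²(ℕ) → L2` the isometry given by an
orthonormal sequence (`Orthonormal.orthogonalFamily`, `OrthogonalFamily.linearIsometry`), and
`V_φ^*` the adjoint of the one for `φ`. `‖T‖ ≤ 1` and `T φ_n = ψ_n`. Given `e`, `f`, take `n` for
`δ = 1/100` and `x = φ_n 1_f` (bounded, `‖x‖ ≤ 1`). `‖x - φ_n‖² ≤ δ`, so `‖T x - ψ_n‖ ≤ 1/10`, and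
`‖1_e T x‖ ≥ ‖1_e ψ_n‖ - 1/10 ≥ (1-δ)^{1/2} - 1/10 ≥ 1/2`, so `∫_e (T x)² ≥ 1/4`.
-/

set_option autoImplicit false

namespace Pool.Agent.OB9

open MeasureTheory Set Filter
open scoped ENNReal Topology

noncomputable section

private theorem LtB_normsq (x : L2) : ‖x‖ ^ 2 = ∫ t, x t ^ 2 ∂lam := by
  rw [← real_inner_self_eq_norm_sq, L2.inner_def]
  refine integral_congr_ae (Eventually.of_forall fun t => ?_)
  simp [pow_two]

private theorem LtB_intsq (x : L2) : Integrable (fun t => x t ^ 2) lam :=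
  (Lp.memLp x).integrable_sq

private theorem LtB_op {φ ψ : ℕ → L2} (hφ : Orthonormal ℝ φ) (hψ : Orthonormal ℝ ψ) :
    ∃ T : L2 →L[ℝ] L2, ‖T‖ ≤ 1 ∧ ∀ n, T (φ n) = ψ n := by
  classical
  let Vφ := hφ.orthogonalFamily.linearIsometry
  let Vψ := hψ.orthogonalFamily.linearIsometry
  let A := Vφ.toContinuousLinearMap
  let B := Vψ.toContinuousLinearMap
  refine ⟨B ∘L (ContinuousLinearMap.adjoint A), ?_, ?_⟩
  · calc ‖B ∘L (ContinuousLinearMap.adjoint A)‖ ≤ ‖B‖ * ‖ContinuousLinearMap.adjoint A‖ :=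
          ContinuousLinearMap.opNorm_comp_le _ _
      _ ≤ 1 * 1 := by
          rw [LinearIsometryEquiv.norm_map]
          exact mul_le_mul Vψ.norm_toContinuousLinearMap_le Vφ.norm_toContinuousLinearMap_le
            (norm_nonneg _) zero_le_one
      _ = 1 := one_mul 1
  · intro n
    have h1 : (ContinuousLinearMap.adjoint A) ∘L A = 1 :=
      (ContinuousLinearMap.norm_map_iff_adjoint_comp_self A).1 fun x => Vφ.norm_map x
    have h2 : A (lp.single 2 n (1 : ℝ)) = φ n := by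
      change Vφ (lp.single 2 n (1 : ℝ)) = φ n
      rw [OrthogonalFamily.linearIsometry_apply_single]
      simp
    have h3 : B (lp.single 2 n (1 : ℝ)) = ψ n := by
      change Vψ (lp.single 2 n (1 : ℝ)) = ψ n
      rw [OrthogonalFamily.linearIsometry_apply_single]
      simp
    rw [ContinuousLinearMap.comp_apply, ← h2]
    have h4 : (ContinuousLinearMap.adjoint A) (A (lp.single 2 n (1 : ℝ))) =
        lp.single 2 n (1 : ℝ) := by
      have := congrArg (fun S => S (lp.single 2 n (1 : ℝ))) h1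
      simpa using this
    rw [h4, h3]

theorem l2_operator : ∃ T : L2 →L[ℝ] L2, ‖T‖ ≤ 1 ∧
    ∀ e f : Set ℝ, MeasurableSet e → MeasurableSet f → lam e ≠ 0 → lam f ≠ 0 →
      ∃ x : L2, Bd x ∧ (∀ᵐ t ∂lam, t ∉ f → x t = 0) ∧ ‖x‖ ≤ 1 ∧
        1 / 4 ≤ ∫ t in e, T x t ^ 2 ∂lam := by
  obtain ⟨φ, ψ, hφ, hψ, hbd, hsys⟩ := two_systems
  obtain ⟨T, hT, hTφ⟩ := LtB_op hφ hψ
  refine ⟨T, hT, fun e f he hf he0 hf0 => ?_⟩
  obtain ⟨n, h1, h2⟩ := hsys e f he hf he0 hf0 (1 / 100) (by norm_num)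
  have hmem : MemLp (f.indicator (φ n)) 2 lam := (Lp.memLp (φ n)).indicator hf
  set x : L2 := hmem.toLp _ with hx
  have hxae : (x : ℝ → ℝ) =ᵐ[lam] f.indicator (φ n) := hmem.coeFn_toLp
  have hxsq : ‖x‖ ^ 2 ≤ 1 := by
    rw [LtB_normsq]
    have h3 : ‖φ n‖ ^ 2 = 1 := by rw [hφ.1 n]; norm_num
    rw [LtB_normsq] at h3
    rw [← h3]
    refine integral_mono_ae (LtB_intsq x) (LtB_intsq (φ n)) ?_
    filter_upwards [hxae] with t ht
    rw [ht]
    by_cases htf : t ∈ f
    · rw [indicator_of_mem htf]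
    · rw [indicator_of_notMem htf]
      have := sq_nonneg (φ n t)
      simpa using this
  have hdiff : ‖x - φ n‖ ^ 2 ≤ 1 / 100 := by
    rw [LtB_normsq]
    refine le_trans (le_of_eq ?_) h1
    rw [← integral_indicator hf.compl]
    refine integral_congr_ae ?_
    filter_upwards [hxae, Lp.coeFn_sub x (φ n)] with t ht ht'
    rw [ht', Pi.sub_apply, ht]
    by_cases htf : t ∈ f
    · have htc : t ∉ fᶜ := fun hc => hc htf
      rw [indicator_of_mem htf, indicator_of_notMem htc]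
      ring
    · rw [indicator_of_notMem htf, indicator_of_mem (show t ∈ fᶜ from htf)]
      ring
  refine ⟨x, ?_, ?_, ?_, ?_⟩
  · obtain ⟨R, hR⟩ := hbd n
    refine ⟨|R|, ?_⟩
    filter_upwards [hxae, hR] with t ht ht'
    rw [ht]
    by_cases htf : t ∈ f
    · rw [indicator_of_mem htf]
      exact ht'.trans (le_abs_self R)
    · rw [indicator_of_notMem htf, abs_zero]
      exact abs_nonneg R
  · filter_upwards [hxae] with t ht htf
    rw [ht, indicator_of_notMem htf]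
  · nlinarith [norm_nonneg x]
  · have hTd : ‖T x - ψ n‖ ^ 2 ≤ 1 / 100 := by
      rw [← hTφ n, ← map_sub]
      have h3 : ‖T (x - φ n)‖ ≤ ‖x - φ n‖ := by
        refine (T.le_opNorm _).trans ?_
        exact mul_le_of_le_one_left (norm_nonneg _) hT
      have h4 := norm_nonneg (T (x - φ n))
      nlinarith
    rw [LtB_normsq] at hTd
    have hψ1 : ∫ t, ψ n t ^ 2 ∂lam = 1 := by
      rw [← LtB_normsq, hψ.1 n]
      norm_num
    have hsplit := integral_add_compl he (LtB_intsq (ψ n))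
    have h5 : ∫ t in e, (T x - ψ n : L2) t ^ 2 ∂lam ≤ 1 / 100 := by
      refine le_trans ?_ hTd
      exact setIntegral_le_integral (LtB_intsq _) (Eventually.of_forall fun t => by positivity)
    have h6 : ∫ t in e, (1 / 2 * ψ n t ^ 2 - (T x - ψ n : L2) t ^ 2) ∂lam ≤
        ∫ t in e, T x t ^ 2 ∂lam := by
      refine integral_mono_ae (((LtB_intsq (ψ n)).const_mul _).sub (LtB_intsq _)).integrableOn
        (LtB_intsq (T x)).integrableOn ?_
      refine ae_restrict_of_ae ?_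
      filter_upwards [Lp.coeFn_sub (T x) (ψ n)] with t ht
      rw [ht, Pi.sub_apply]
      nlinarith [sq_nonneg (2 * T x t - ψ n t)]
    rw [integral_sub ((LtB_intsq (ψ n)).const_mul _).integrableOn (LtB_intsq _).integrableOn,
      integral_const_mul] at h6
    linarith

end

end Pool.Agent.OB9
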