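import Pool.Agent.OB9.FRop
import Pool.Agent.OB9.EsB

/-!
# Module OB9/OpEx

Existence of the operators of type I, type II and of the multi-level type.

PROOF. Type I: `exists_op` with `n = 2^b`, `W_i = 2^a es l a b (b+1) i`, `B_i = 1_{cell b i}`; for
`t ∈ [0,1)` only `i = idx b t` contributes (`mem_cell`, `idx_lt`, `ae_mem_Ico`). Multi-level:
`W_i = v ∑_k σ_k/h_k 2^{α_k} es l (α_k) b (p+k) i`. Type II: `n = 2^a`, `W_i = r 2^a 1_{cell a i}`,
`B_i = 1_{idx b t = adr l b a i} rad (b+1+wix l b a i) t`.
-/

set_option autoImplicit false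

namespace Pool.Agent.OB9

open MeasureTheory Set Filter
open scoped ENNReal Topology

noncomputable section

private theorem opex_es_le (l a b p i : ℕ) (t : ℝ) : |es l a b p i t| ≤ 1 := by
  rcases es_vals l a b p i t with h | h
  · rw [h, abs_zero]
    exact zero_le_one
  · exact h.le

private theorem opex_int (x : L2) (l a b p i : ℕ) :
    Integrable (fun s => x s * es l a b p i s) lam :=
  (Lp.memLp x).integrable_mul (memLp_of_bdd (measurable_es l a b p i) (opex_es_le l a b p i))

private theorem opex_idx (b : ℕ) (W : ℕ → ℝ → ℝ)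
    (hW : ∀ i, Measurable (W i) ∧ ∃ C, ∀ t, |W i t| ≤ C) :
    ∃ T : L2 →L[ℝ] L2, ∀ x : L2, ∀ᵐ t ∂lam, T x t = ∫ s, x s * W (idx b t) s ∂lam := by
  obtain ⟨T, hT⟩ := exists_op (2 ^ b) W (fun i t => if idx b t = i then 1 else 0) hW (fun i => by
    refine ⟨Measurable.ite (measurable_idx b (measurableSet_singleton i)) measurable_const
      measurable_const, 1, fun t => ?_⟩
    split_ifs
    · rw [abs_one]
    · rw [abs_zero]
      exact zero_le_one)
  refine ⟨T, fun x => ?_⟩
  filter_upwards [hT x, ae_mem_Ico] with t h1 h2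
  rw [h1, Finset.sum_eq_single (idx b t)]
  · rw [if_pos rfl, mul_one]
  · intro i _ hi
    rw [if_neg (fun h => hi h.symm), mul_zero]
  · intro h
    exact absurd (Finset.mem_range.2 (idx_lt h2.1 h2.2)) h

theorem exists_TI (l a b : ℕ) : ∃ T : L2 →L[ℝ] L2, TI l a b T := by
  obtain ⟨T, hT⟩ := opex_idx b (fun i s => 2 ^ a * es l a b (b + 1) i s) (fun i => by
    refine ⟨(measurable_es l a b (b + 1) i).const_mul _, 2 ^ a, fun t => ?_⟩
    rw [abs_mul, abs_of_nonneg (by positivity : (0 : ℝ) ≤ 2 ^ a)]
    exact mul_le_of_le_one_right (by positivity) (opex_es_le l a b (b + 1) i t))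
  refine ⟨T, fun x => ?_⟩
  filter_upwards [hT x] with t h1
  rw [h1]
  unfold cf
  rw [div_div_eq_mul_div, div_one, ← integral_mul_const]
  refine integral_congr_ae (Eventually.of_forall fun s => ?_)
  show x s * (2 ^ a * es l a b (b + 1) (idx b t) s) =
    x s * es l a b (b + 1) (idx b t) s * 2 ^ a
  ring

theorem exists_TII (l b a : ℕ) (r : ℝ) : ∃ T : L2 →L[ℝ] L2, TII l b a r T := by
  obtain ⟨T, hT⟩ := exists_op (2 ^ a) (fun i => (cell a i).indicator (fun _ => r * 2 ^ a))
    (fun i t => if idx b t = adr l b a i then rad (b + 1 + wix l b a i) t else 0) (fun i => by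
      refine ⟨measurable_const.indicator (measurableSet_cell a i), |r * 2 ^ a|, fun t => ?_⟩
      by_cases h : t ∈ cell a i
      · rw [indicator_of_mem h]
      · rw [indicator_of_notMem h, abs_zero]
        exact abs_nonneg _) (fun i => by
      refine ⟨Measurable.ite (measurable_idx b (measurableSet_singleton _)) (measurable_rad _)
        measurable_const, 1, fun t => ?_⟩
      split_ifs
      · rw [abs_rad]
      · rw [abs_zero]
        exact zero_le_one)
  refine ⟨T, fun x => ?_⟩
  filter_upwards [hT x] with t h1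
  rw [h1, Finset.mul_sum]
  refine Finset.sum_congr rfl fun i _ => ?_
  have h2 : ∫ s, x s * (cell a i).indicator (fun _ => r * 2 ^ a) s ∂lam =
      r * (2 ^ a * ∫ s in cell a i, x s ∂lam) := by
    rw [← integral_indicator (measurableSet_cell a i), ← mul_assoc, ← integral_const_mul]
    refine integral_congr_ae (Eventually.of_forall fun s => ?_)
    show x s * (cell a i).indicator (fun _ => r * 2 ^ a) s =
      r * 2 ^ a * (cell a i).indicator (fun s => x s) s
    by_cases h : s ∈ cell a i
    · rw [indicator_of_mem h, indicator_of_mem h]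
      ring
    · rw [indicator_of_notMem h, indicator_of_notMem h, mul_zero, mul_zero]
  rw [h2]
  by_cases h3 : adr l b a i = idx b t
  · rw [if_pos h3, if_pos h3.symm]
    ring
  · rw [if_neg h3, if_neg (fun h => h3 h.symm), mul_zero, mul_zero]

theorem exists_TM (l b p K : ℕ) (α : ℕ → ℕ) (h σ : ℕ → ℝ) (v : ℝ) :
    ∃ T : L2 →L[ℝ] L2, TM l b p K α h σ v T := by
  obtain ⟨T, hT⟩ := opex_idx b (fun i s => v * ∑ k ∈ Finset.range K,
      σ k / h k * 2 ^ α k * es l (α k) b (p + k) i s) (fun i => by
    refine ⟨(Finset.measurable_sum _ fun k _ =>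
      (measurable_es l (α k) b (p + k) i).const_mul _).const_mul _,
      |v| * ∑ k ∈ Finset.range K, |σ k / h k * 2 ^ α k|, fun t => ?_⟩
    rw [abs_mul]
    refine mul_le_mul_of_nonneg_left ?_ (abs_nonneg v)
    refine (Finset.abs_sum_le_sum_abs _ _).trans (Finset.sum_le_sum fun k _ => ?_)
    rw [abs_mul]
    exact mul_le_of_le_one_right (abs_nonneg _) (opex_es_le l (α k) b (p + k) i t))
  refine ⟨T, fun x => ?_⟩
  filter_upwards [hT x] with t h1
  rw [h1]
  have h2 : ∀ s, x s * (v * ∑ k ∈ Finset.range K,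
      σ k / h k * 2 ^ α k * es l (α k) b (p + k) (idx b t) s) =
      v * ∑ k ∈ Finset.range K, σ k / h k * 2 ^ α k *
        (x s * es l (α k) b (p + k) (idx b t) s) := by
    intro s
    rw [mul_left_comm, Finset.mul_sum]
    congr 1
    refine Finset.sum_congr rfl fun k _ => ?_
    ring
  simp only [h2]
  rw [integral_const_mul, integral_finsetSum]
  · congr 1
    refine Finset.sum_congr rfl fun k _ => ?_
    rw [integral_const_mul]
    unfold cf
    rw [div_div_eq_mul_div, div_one]
    ring
  · intro k _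
    exact (opex_int x l (α k) b (p + k) (idx b t)).const_mul _

end

end Pool.Agent.OB9
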