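import Pool.Agent.OB9.OpEx
import Pool.Agent.OB9.NiB
import Pool.Agent.OB9.OrlB

/-!
# Module OB9/PmA

Multi-level operators: levels, and the bound of the functionals.

Levels of a profile: `α_k` with `2^(α_k)/2 < M(h_k)/σ_k ≤ 2^(α_k)`, `b` with `2^b/2 < M(v) ≤ 2^b`.

PROOF. `levels`: existence of the powers of two (`M(h_k)/σ_k ≥ 1`, as `M(h_k) ≥ 1`, `σ_k ≤ 1`);
`l + α_k ≤ b`: `2^(α_k) < 2 M(h_k)/σ_k ≤ 2 M(v)/N ≤ 2 · 2^b/N` (`cap`), and `N ≥ 2^(l+1)`. The `α_k` are
nondecreasing by `nest`. `l ≤ α_k`: `2^(α_k) ≥ M(h_k) ≥ h_k² ≥ N ≥ 2^l`.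
`F_bound`: for `i < 2^b` let `A_k = cell (α_k) (adr l (α_k) b i)`, nested decreasing in `k`
(`adr_div`). `|cf (es ..) (1/2^(α_k)) x| ≤ 2^(α_k) ∫_{A_k} |x|` and
`σ_k/h_k 2^(α_k) ≤ 2 M(h_k)/h_k = 2 Th(h_k)`. Pointwise, with `k*` the largest `k` with `t ∈ A_k`:
`∑_{k : t ∈ A_k} 2 Th(h_k) ≤ 4 Th(h_{k*})` (`geo`), and
`|x| Th(h_{k*}) ≤ M|x| + M(h_{k*})` (if `|x| ≤ h` the left side is `≤ h Th h = M h`, otherwise
`≤ |x| Th|x|`). So `∑_k σ_k/h_k |cf| ≤ 4 ∫ M|x| + 4 ∑_k M(h_k) 2^(-α_k) ≤ 4 + 4 ∑ σ_k = 8`.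
-/

set_option autoImplicit false

namespace Pool.Agent.OB9

open MeasureTheory Set Filter
open scoped ENNReal Topology

noncomputable section

variable {κ : ℕ} {G : ℝ → ℝ}

/-- The levels of a profile. -/
structure Lev (G : ℝ → ℝ) (l b K : ℕ) (α : ℕ → ℕ) (h σ : ℕ → ℝ) (v : ℝ) : Prop where
  up : ∀ k < K, MG G (h k) / σ k ≤ 2 ^ (α k)
  dn : ∀ k < K, 2 ^ (α k) < 2 * (MG G (h k) / σ k)
  bup : MG G v ≤ 2 ^ b
  bdn : 2 ^ b < 2 * MG G v
  le : ∀ k < K, l + α k ≤ b ∧ l ≤ α k
  mono : ∀ k k', k ≤ k' → k' < K → α k ≤ α k'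

private theorem pmA_pow (x : ℝ) (hx : 1 ≤ x) : ∃ n : ℕ, x ≤ 2 ^ n ∧ (2 : ℝ) ^ n < 2 * x := by
  classical
  have hex : ∃ n : ℕ, x ≤ (2 : ℝ) ^ n := by
    obtain ⟨n, hn⟩ := pow_unbounded_of_one_lt x (by norm_num : (1 : ℝ) < 2)
    exact ⟨n, hn.le⟩
  refine ⟨Nat.find hex, Nat.find_spec hex, ?_⟩
  rcases h : Nat.find hex with _ | m
  · rw [pow_zero]
    linarith
  · have h1 : ¬ x ≤ (2 : ℝ) ^ m := Nat.find_min hex (by omega)
    rw [not_le] at h1
    rw [pow_succ]
    linarith

private theorem pmA_σle {CJ N : ℝ} {K : ℕ} {h σ : ℕ → ℝ} {v : ℝ} (hP : Prof κ G CJ N K h σ v)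
    (k : ℕ) (hk : k < K) : σ k ≤ 1 := by
  rw [← hP.σsum]
  exact Finset.single_le_sum (f := σ) (fun j hj => (hP.σpos j (Finset.mem_range.1 hj)).le)
    (Finset.mem_range.2 hk)

theorem levels (hG : Nice κ G) {CJ N : ℝ} {K : ℕ} {h σ : ℕ → ℝ} {v : ℝ} (l : ℕ)
    (hN : 2 ^ (l + 1) ≤ N) (hP : Prof κ G CJ N K h σ v) :
    ∃ (b : ℕ) (α : ℕ → ℕ), Lev G l b K α h σ v := by
  have hN1 : 1 ≤ N := le_trans (one_le_pow₀ (by norm_num)) hN
  have hMh : ∀ k < K, 1 ≤ MG G (h k) := by
    intro k hk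
    obtain ⟨h1, h2⟩ := hP.hN k hk
    have h3 := hG.sq_le (by linarith : 0 ≤ h k)
    nlinarith
  have hq : ∀ k < K, MG G (h k) ≤ MG G (h k) / σ k := by
    intro k hk
    rw [le_div_iff₀ (hP.σpos k hk)]
    have := pmA_σle hP k hk
    nlinarith [hMh k hk]
  have hMv : 1 ≤ MG G v := by
    have h1 := hP.vN
    have h3 := hG.sq_le (by linarith : 0 ≤ v)
    nlinarith
  obtain ⟨b, hb1, hb2⟩ := pmA_pow (MG G v) hMv
  have hα : ∀ k, ∃ a : ℕ, k < K → MG G (h k) / σ k ≤ 2 ^ a ∧ (2 : ℝ) ^ a < 2 * (MG G (h k) / σ k) := by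
    intro k
    by_cases hk : k < K
    · obtain ⟨a, ha⟩ := pmA_pow (MG G (h k) / σ k) ((hMh k hk).trans (hq k hk))
      exact ⟨a, fun _ => ha⟩
    · exact ⟨0, fun h => absurd h hk⟩
  choose α hα using hα
  refine ⟨b, α, fun k hk => (hα k hk).1, fun k hk => (hα k hk).2, hb1, hb2, ?_, ?_⟩
  · intro k hk
    obtain ⟨h1, h2⟩ := hα k hk
    constructor
    · have h3 := hP.cap k hk
      have hσ := hP.σpos k hk
      have h4 : N * (MG G (h k) / σ k) ≤ MG G v := by
        rw [← mul_div_assoc, div_le_iff₀ hσ]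
        linarith
      have h5 : (2 : ℝ) ^ (l + α k) < 2 ^ b := by
        have h6 : (2 : ℝ) ^ (l + 1) * (MG G (h k) / σ k) ≤ N * (MG G (h k) / σ k) :=
          mul_le_mul_of_nonneg_right hN (by linarith [hMh k hk, hq k hk])
        have h7 : (2 : ℝ) ^ (l + α k) = 2 ^ l * 2 ^ (α k) := pow_add _ _ _
        have h8 : (2 : ℝ) ^ (l + 1) = 2 ^ l * 2 := pow_succ _ _
        have h9 : (0 : ℝ) < 2 ^ l := by positivity
        have h10 : (2 : ℝ) ^ l * 2 ^ (α k) < 2 ^ l * (2 * (MG G (h k) / σ k)) := by gcongr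
        rw [h7]
        rw [h8] at h6
        linarith
      exact ((pow_lt_pow_iff_right₀ (by norm_num : (1 : ℝ) < 2)).1 h5).le
    · have h3 : (2 : ℝ) ^ l ≤ 2 ^ (α k) := by
        obtain ⟨h4, h5⟩ := hP.hN k hk
        have h6 := hG.sq_le (by linarith : 0 ≤ h k)
        have h7 : N ≤ h k ^ 2 := by nlinarith
        have h8 := hq k hk
        have h9 : (2 : ℝ) ^ l ≤ 2 ^ (l + 1) := pow_le_pow_right₀ (by norm_num) (by omega)
        linarith
      exact (pow_le_pow_iff_right₀ (by norm_num : (1 : ℝ) < 2)).1 h3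
  · intro k k' hkk' hk'
    induction k' with
    | zero =>
      have : k = 0 := by omega
      rw [this]
    | succ n ih =>
      rcases Nat.lt_or_ge n k with h1 | h1
      · have : k = n + 1 := by omega
        rw [this]
      · refine (ih h1 (by omega)).trans ?_
        have h2 := hP.nest n hk'
        have h3 := (hα n (by omega)).2
        have h4 := (hα (n + 1) hk').1
        exact (pow_le_pow_iff_right₀ (by norm_num : (1 : ℝ) < 2)).1 (by linarith)

private theorem pmA_sum {CJ N : ℝ} {K : ℕ} {h σ : ℕ → ℝ} {v : ℝ} (hG : Nice κ G)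
    (hP : Prof κ G CJ N K h σ v) (n : ℕ) (hn : n < K) :
    ∑ k ∈ Finset.range (n + 1), Th G (h k) ≤ 2 * Th G (h n) := by
  induction n with
  | zero =>
    have h0 : 0 ≤ h 0 := by linarith [(hP.hN 0 hn).2]
    have h1 : 0 ≤ Th G (h 0) := mul_nonneg h0 (by linarith [hG.one_le h0])
    simp
    linarith
  | succ n ih =>
    rw [Finset.sum_range_succ]
    have h1 := (hP.geo n hn).2
    have h2 := ih (by omega)
    linarith

private theorem pmA_young (hG : Nice κ G) {u w : ℝ} (hu : 0 ≤ u) (hw : 0 ≤ w) :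
    u * Th G w ≤ MG G u + MG G w := by
  have e1 : MG G u = u * Th G u := by unfold MG Th; ring
  have e2 : MG G w = w * Th G w := by unfold MG Th; ring
  have n1 : 0 ≤ Th G u := mul_nonneg hu (by linarith [hG.one_le hu])
  have n2 : 0 ≤ Th G w := mul_nonneg hw (by linarith [hG.one_le hw])
  rcases le_total u w with h | h
  · have h1 : u * Th G w ≤ w * Th G w := mul_le_mul_of_nonneg_right h n2
    rw [e1, e2]
    nlinarith [mul_nonneg hu n1]
  · have h1 : Th G w ≤ Th G u := (hG.Th_le_iff hw hu).2 h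
    have h2 : u * Th G w ≤ u * Th G u := mul_le_mul_of_nonneg_left h1 hu
    rw [e1, e2]
    nlinarith [mul_nonneg hw n2]

private theorem pmA_ptw {CJ N : ℝ} {K : ℕ} {h σ : ℕ → ℝ} {v : ℝ} (hG : Nice κ G)
    (hP : Prof κ G CJ N K h σ v) {u : ℝ} (hu : 0 ≤ u) (I : ℕ → ℝ) (hI : ∀ k, I k = 0 ∨ I k = 1)
    (n : ℕ) (hn : n ≤ K) :
    ∑ k ∈ Finset.range n, 2 * Th G (h k) * (u * I k) ≤
      4 * MG G u + 4 * ∑ k ∈ Finset.range n, MG G (h k) * I k := by
  have hI0 : ∀ k, 0 ≤ I k ∧ I k ≤ 1 := by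
    intro k
    rcases hI k with h | h <;> rw [h] <;> norm_num
  have hh : ∀ k < K, 0 ≤ h k := fun k hk => by linarith [(hP.hN k hk).2]
  have hM0 : ∀ w, 0 ≤ w → 0 ≤ MG G w := fun w hw =>
    mul_nonneg (by positivity) (by linarith [hG.one_le hw])
  have hT0 : ∀ w, 0 ≤ w → 0 ≤ Th G w := fun w hw =>
    mul_nonneg hw (by linarith [hG.one_le hw])
  induction n with
  | zero =>
    simp
    linarith [hM0 u hu]
  | succ n ih =>
    have hnK : n < K := by omega
    rcases hI n with h1 | h1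
    · rw [Finset.sum_range_succ, Finset.sum_range_succ, h1]
      simp only [mul_zero, add_zero]
      exact ih (by omega)
    · have h2 : ∑ k ∈ Finset.range (n + 1), 2 * Th G (h k) * (u * I k) ≤
          2 * u * ∑ k ∈ Finset.range (n + 1), Th G (h k) := by
        rw [Finset.mul_sum]
        refine Finset.sum_le_sum fun k hk => ?_
        have hk' : k < K := by
          have := Finset.mem_range.1 hk
          omega
        have h3 := hT0 _ (hh k hk')
        have h4 : u * I k ≤ u * 1 := mul_le_mul_of_nonneg_left (hI0 k).2 hu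
        nlinarith
      have h3 := pmA_sum hG hP n hnK
      have h4 := pmA_young hG hu (hh n hnK)
      have h5 : MG G (h n) ≤ ∑ k ∈ Finset.range (n + 1), MG G (h k) * I k := by
        rw [Finset.sum_range_succ, h1, mul_one]
        have : 0 ≤ ∑ k ∈ Finset.range n, MG G (h k) * I k :=
          Finset.sum_nonneg fun k hk => mul_nonneg
            (hM0 _ (hh k (by have := Finset.mem_range.1 hk; omega))) (hI0 k).1
        linarith
      have h6 : 2 * u * ∑ k ∈ Finset.range (n + 1), Th G (h k) ≤ 2 * u * (2 * Th G (h n)) :=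
        mul_le_mul_of_nonneg_left h3 (by positivity)
      nlinarith

theorem F_bound (hG : Nice κ G) {CJ N : ℝ} {K l b p i : ℕ} {α : ℕ → ℕ} {h σ : ℕ → ℝ} {v : ℝ}
    (hP : Prof κ G CJ N K h σ v) (hL : Lev G l b K α h σ v) (hp : b < p) {x : L2} (hb : Bd x)
    (hx : md (MG G) x ≤ 1) :
    ∑ k ∈ Finset.range K, σ k / h k *
      |cf (es l (α k) b (p + k) i) (1 / 2 ^ (α k)) x| ≤ 8 := by
  have _ := hp
  have _ := hb
  have hM := hG.qorl
  have hh : ∀ k < K, 0 < h k := fun k hk => by linarith [(hP.hN k hk).2]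
  have hM0 : ∀ w, 0 ≤ w → 0 ≤ MG G w := fun w hw => hM.nonneg hw
  have hxm : AEMeasurable (x : ℝ → ℝ) lam := (Lp.aestronglyMeasurable x).aemeasurable
  have hxi : Integrable (x : ℝ → ℝ) lam := (Lp.memLp x).integrable one_le_two
  -- `∫ M|x| ≤ 1`
  have hMm : AEStronglyMeasurable (fun t => MG G |x t|) lam :=
    (hM.meas.comp_aemeasurable hxm).aestronglyMeasurable
  have hMn : 0 ≤ᵐ[lam] fun t => MG G |x t| :=
    Eventually.of_forall fun t => hM0 _ (abs_nonneg _)
  have hMi : Integrable (fun t => MG G |x t|) lam := by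
    rw [← lintegral_ofReal_ne_top_iff_integrable hMm hMn]
    exact ne_top_of_le_ne_top ENNReal.one_ne_top hx
  have hM1 : ∫ t, MG G |x t| ∂lam ≤ 1 := by
    rw [integral_eq_lintegral_of_nonneg_ae hMn hMm]
    have := ENNReal.toReal_mono ENNReal.one_ne_top hx
    simpa [md] using this
  -- the indicator functions
  obtain ⟨J, hJ⟩ : ∃ J : ℕ → ℝ → ℝ,
      ∀ k t, J k t = if idx (α k) t = adr l (α k) b i then 1 else 0 := ⟨_, fun _ _ => rfl⟩
  have hJ01 : ∀ k t, J k t = 0 ∨ J k t = 1 := by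
    intro k t
    rw [hJ]
    split_ifs
    · exact Or.inr rfl
    · exact Or.inl rfl
  have hJes : ∀ k t, |es l (α k) b (p + k) i t| = J k t := by
    intro k t
    rw [hJ]
    split_ifs with h1
    · have h2 := (es_ne_zero l (α k) b (p + k) i t).2 h1
      exact (es_vals l (α k) b (p + k) i t).resolve_left h2
    · have h2 := mt (es_ne_zero l (α k) b (p + k) i t).1 h1
      rw [not_not.1 h2, abs_zero]
  have hJfun : ∀ k, J k = fun t => if idx (α k) t = adr l (α k) b i then (1 : ℝ) else 0 :=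
    fun k => funext (hJ k)
  have hJm : ∀ k, Measurable (J k) := by
    intro k
    rw [hJfun]
    exact Measurable.ite (measurable_idx (α k) (measurableSet_singleton _)) measurable_const
      measurable_const
  have hJi : ∀ k, Integrable (J k) lam := by
    intro k
    refine Integrable.of_bound (hJm k).aestronglyMeasurable 1 (Eventually.of_forall fun t => ?_)
    rcases hJ01 k t with h | h <;> rw [h] <;> norm_num
  have hJint : ∀ k, ∫ t, J k t ∂lam = 1 / 2 ^ (α k) := by
    intro k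
    have h1 := integral_idx (α k) (fun m => if m = adr l (α k) b i then (1 : ℝ) else 0)
    rw [Finset.sum_ite_eq', if_pos (Finset.mem_range.2 (adr_lt l (α k) b i))] at h1
    rw [← h1, hJfun]
  -- the integrals
  have hei : ∀ k, Integrable (fun t => x t * es l (α k) b (p + k) i t) lam := by
    intro k
    refine Integrable.mono' hxi.abs
      (hxm.mul (measurable_es l (α k) b (p + k) i).aemeasurable).aestronglyMeasurable
      (Eventually.of_forall fun t => ?_)
    rw [Real.norm_eq_abs, abs_mul, hJes]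
    rcases hJ01 k t with h | h <;> rw [h] <;> simp
  have hcf : ∀ k, |cf (es l (α k) b (p + k) i) (1 / 2 ^ (α k)) x| ≤
      2 ^ (α k) * ∫ t, |x t| * J k t ∂lam := by
    intro k
    unfold cf
    rw [abs_div, abs_of_pos (by positivity : (0 : ℝ) < 1 / 2 ^ (α k)), div_div_eq_mul_div, div_one,
      mul_comm]
    refine mul_le_mul_of_nonneg_left ?_ (by positivity)
    refine abs_integral_le_integral_abs.trans (le_of_eq ?_)
    refine integral_congr_ae (Eventually.of_forall fun t => ?_)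
    show |x t * es l (α k) b (p + k) i t| = |x t| * J k t
    rw [abs_mul, hJes]
  have hxJ : ∀ k, Integrable (fun t => |x t| * J k t) lam := by
    intro k
    refine (hei k).abs.congr (Eventually.of_forall fun t => ?_)
    show |x t * es l (α k) b (p + k) i t| = |x t| * J k t
    rw [abs_mul, hJes]
  have hstep : ∀ k ∈ Finset.range K, σ k / h k *
      |cf (es l (α k) b (p + k) i) (1 / 2 ^ (α k)) x| ≤
      ∫ t, 2 * Th G (h k) * (|x t| * J k t) ∂lam := by
    intro k hk
    have hk' := Finset.mem_range.1 hk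
    have hσ := hP.σpos k hk'
    have hh' := hh k hk'
    have h0 : 0 ≤ ∫ t, |x t| * J k t ∂lam :=
      integral_nonneg fun t => mul_nonneg (abs_nonneg _)
        (by rcases hJ01 k t with h | h <;> rw [h] <;> norm_num)
    rw [integral_const_mul]
    have h1 : σ k / h k * 2 ^ (α k) ≤ 2 * Th G (h k) := by
      have h2 := (hL.dn k hk').le
      calc σ k / h k * 2 ^ (α k) ≤ σ k / h k * (2 * (MG G (h k) / σ k)) :=
            mul_le_mul_of_nonneg_left h2 (by positivity)
        _ = 2 * Th G (h k) := by unfold MG Th; field_simp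
    calc σ k / h k * |cf (es l (α k) b (p + k) i) (1 / 2 ^ (α k)) x|
        ≤ σ k / h k * (2 ^ (α k) * ∫ t, |x t| * J k t ∂lam) :=
          mul_le_mul_of_nonneg_left (hcf k) (by positivity)
      _ = (σ k / h k * 2 ^ (α k)) * ∫ t, |x t| * J k t ∂lam := by ring
      _ ≤ _ := mul_le_mul_of_nonneg_right h1 h0
  calc ∑ k ∈ Finset.range K, σ k / h k * |cf (es l (α k) b (p + k) i) (1 / 2 ^ (α k)) x|
      ≤ ∑ k ∈ Finset.range K, ∫ t, 2 * Th G (h k) * (|x t| * J k t) ∂lam :=
        Finset.sum_le_sum hstep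
    _ = ∫ t, ∑ k ∈ Finset.range K, 2 * Th G (h k) * (|x t| * J k t) ∂lam := by
        rw [integral_finsetSum]
        intro k _
        exact (hxJ k).const_mul _
    _ ≤ ∫ t, (4 * MG G |x t| + 4 * ∑ k ∈ Finset.range K, MG G (h k) * J k t) ∂lam := by
        refine integral_mono (integrable_finsetSum _ fun k _ => (hxJ k).const_mul _)
          ((hMi.const_mul _).add ((integrable_finsetSum _ fun k _ =>
            (hJi k).const_mul _).const_mul _)) fun t => ?_
        exact pmA_ptw hG hP (abs_nonneg (x t)) (fun k => J k t) (fun k => hJ01 k t) K le_rfl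
    _ = 4 * ∫ t, MG G |x t| ∂lam + 4 * ∑ k ∈ Finset.range K, MG G (h k) * (1 / 2 ^ (α k)) := by
        rw [integral_add (hMi.const_mul _) ((integrable_finsetSum _ fun k _ =>
            (hJi k).const_mul _).const_mul _), integral_const_mul, integral_const_mul,
          integral_finsetSum _ fun k _ => (hJi k).const_mul _]
        congr 2
        refine Finset.sum_congr rfl fun k _ => ?_
        rw [integral_const_mul, hJint]
    _ ≤ 4 * 1 + 4 * ∑ k ∈ Finset.range K, σ k := by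
        have h1 : ∑ k ∈ Finset.range K, MG G (h k) * (1 / 2 ^ (α k)) ≤
            ∑ k ∈ Finset.range K, σ k := by
          refine Finset.sum_le_sum fun k hk => ?_
          have hk' := Finset.mem_range.1 hk
          have h2 := hL.up k hk'
          rw [div_le_iff₀ (hP.σpos k hk')] at h2
          rw [mul_one_div, div_le_iff₀ (by positivity)]
          linarith
        linarith
    _ = 8 := by rw [hP.σsum]; norm_num

end

end Pool.Agent.OB9
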