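import Pool.Agent.OB9.PmA
import Pool.Agent.OB9.KeyL

/-!
# Module OB9/PmB

Multi-level operators: the family of functions is orthogonal, and the `L²` bound.

PROOF. `es_fam`: for pairs `(k, i)`, `k < K`, `i < 2^b`: `∫ es es' = 0` for different pairs: same `k`:
`es_orth_same`; `k < k'`: `es l (α k) b (p+k) i` is a function of `idx (p+k) t` (`es_idx`) and
`p + k < p + k'`, `b < p`: `es_orth_level`. `TM_sq`: `T x = v F_i` on `cell b i`,
`F_i = ∑_k (σ_k/h_k) β_{k,i}`, by Cauchy-Schwarz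
`F_i² ≤ (∑_k (σ_k/h_k)² 2^(α_k)) ∑_k 2^(-α_k) β_{k,i}²` and
`(σ_k/h_k)² 2^(α_k) ≤ 2 σ_k M(h_k)/h_k² = 2 σ_k G(h_k)`, so the first factor is `≤ 2 G(v)/N` (`l2`).
`∫ (T x)² = 2^{-b} v² ∑_i F_i² ≤ (2^{-b} v² · 2 G(v)/N) ∑_{k,i} 2^(-α_k) β² ≤ (2/N) ∫ x²`
(`v² G(v) = M(v) ≤ 2^b`; `bessel`).
-/

set_option autoImplicit false

namespace Pool.Agent.OB9

open MeasureTheory Set Filter
open scoped ENNReal Topology

noncomputable section

variable {κ : ℕ} {G : ℝ → ℝ}

theorem es_fam {l b p K : ℕ} {α : ℕ → ℕ} (hα : ∀ k < K, l + α k ≤ b) (hp : b < p)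
    {k k' i i' : ℕ} (hk : k < K) (hk' : k' < K) (hi : i < 2 ^ b) (hi' : i' < 2 ^ b)
    (h : (k, i) ≠ (k', i')) :
    ∫ t, es l (α k) b (p + k) i t * es l (α k') b (p + k') i' t ∂lam = 0 := by
  have key : ∀ k k' i i' : ℕ, k < K → k' < K → k < k' →
      ∫ t, es l (α k) b (p + k) i t * es l (α k') b (p + k') i' t ∂lam = 0 := by
    intro k k' i i' hk hk' hkk
    obtain ⟨c, hc⟩ := es_idx (i := i) (p := p + k) (hα k hk) (by omega)
    exact es_orth_level (hα k' hk') (by omega) (show p + k < p + k' by omega) c hc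
  rcases lt_trichotomy k k' with h1 | h1 | h1
  · exact key k k' i i' hk hk' h1
  · subst h1
    refine es_orth_same (hα k hk) hi hi' fun h2 => h ?_
    rw [h2]
  · have h2 := key k' k i' i hk' hk h1
    rw [← h2]
    refine integral_congr_ae (Eventually.of_forall fun t => ?_)
    exact mul_comm _ _

private theorem pb_G (hG : Nice κ G) {t : ℝ} (ht : 0 ≤ t) : 0 ≤ G t := by
  have h1 := hG.one 0 le_rfl zero_le_one
  have h2 := hG.mono (mem_Ici.2 le_rfl) (mem_Ici.2 ht) ht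
  linarith

theorem TM_sq (hG : Nice κ G) {CJ N : ℝ} (hN : 1 ≤ N) {K l b p : ℕ} {α : ℕ → ℕ} {h σ : ℕ → ℝ}
    {v : ℝ} (hP : Prof κ G CJ N K h σ v) (hL : Lev G l b K α h σ v) (hp : b < p)
    {T : L2 →L[ℝ] L2} (hT : TM l b p K α h σ v T) (x : L2) :
    ∫ t, T x t ^ 2 ∂lam ≤ 2 / N * ∫ t, x t ^ 2 ∂lam := by
  have hN0 : 0 < N := by linarith
  have hv0 : 0 < v := hN0.trans_le hP.vN
  set β : ℕ → ℕ → ℝ := fun k i => cf (es l (α k) b (p + k) i) (1 / 2 ^ (α k)) x with hβ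
  set F : ℕ → ℝ := fun i => ∑ k ∈ Finset.range K, σ k / h k * β k i with hF
  have h1 : ∫ t, T x t ^ 2 ∂lam = (∑ i ∈ Finset.range (2 ^ b), (v * F i) ^ 2) / 2 ^ b := by
    rw [← integral_idx b (fun i => (v * F i) ^ 2)]
    refine integral_congr_ae ?_
    filter_upwards [hT x] with t ht
    rw [ht]
  have hbes : ∑ i ∈ Finset.range (2 ^ b), ∑ k ∈ Finset.range K, β k i ^ 2 / 2 ^ (α k) ≤
      ∫ t, x t ^ 2 ∂lam := by
    have h2 := bessel (Finset.range K ×ˢ Finset.range (2 ^ b))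
      (fun a => es l (α a.1) b (p + a.1) a.2) (fun a => 1 / 2 ^ (α a.1)) (Lp.memLp x)
      (fun a _ => measurable_es _ _ _ _ _) (fun a _ t => es_vals _ _ _ _ _ t)
      (fun a _ => ⟨by positivity, es_sq _ _ _ _ _⟩) (fun a ha a' ha' hne => by
        rw [Finset.mem_product, Finset.mem_range, Finset.mem_range] at ha ha'
        exact es_fam (fun k hk => (hL.le k hk).1) hp ha.1 ha'.1 ha.2 ha'.2 (by
          intro h3
          exact hne h3))
    refine le_trans (le_of_eq ?_) h2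
    rw [Finset.sum_product_right]
    refine Finset.sum_congr rfl fun i _ => Finset.sum_congr rfl fun k _ => ?_
    change β k i ^ 2 / 2 ^ (α k) = 1 / 2 ^ (α k) * β k i ^ 2
    ring
  have hf : ∑ k ∈ Finset.range K, (σ k / h k) ^ 2 * 2 ^ (α k) ≤ 2 * (G v / N) := by
    have h3 : ∀ k ∈ Finset.range K, (σ k / h k) ^ 2 * 2 ^ (α k) ≤ 2 * (σ k * G (h k)) := by
      intro k hk
      rw [Finset.mem_range] at hk
      have hσ := hP.σpos k hk
      have hh : 0 < h k := by linarith [(hP.hN k hk).2]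
      have h4 := (hL.dn k hk).le
      calc (σ k / h k) ^ 2 * 2 ^ (α k) ≤ (σ k / h k) ^ 2 * (2 * (MG G (h k) / σ k)) := by
            exact mul_le_mul_of_nonneg_left h4 (by positivity)
        _ = 2 * (σ k * G (h k)) := by
            unfold MG
            field_simp
    refine (Finset.sum_le_sum h3).trans ?_
    rw [← Finset.mul_sum]
    refine mul_le_mul_of_nonneg_left ?_ (by norm_num)
    rw [le_div_iff₀ hN0]
    linarith [hP.l2]
  have hGv : 0 ≤ G v := pb_G hG hv0.le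
  have hFi : ∀ i, F i ^ 2 ≤ 2 * (G v / N) * ∑ k ∈ Finset.range K, β k i ^ 2 / 2 ^ (α k) := by
    intro i
    have h3 := Finset.sum_sq_le_sum_mul_sum_of_sq_le_mul (Finset.range K)
      (r := fun k => σ k / h k * β k i) (f := fun k => (σ k / h k) ^ 2 * 2 ^ (α k))
      (g := fun k => β k i ^ 2 / 2 ^ (α k)) (fun k _ => by positivity) (fun k _ => by positivity)
      (fun k _ => by
        have : (0 : ℝ) < 2 ^ (α k) := by positivity
        refine le_of_eq ?_
        field_simp)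
    refine h3.trans (mul_le_mul_of_nonneg_right hf ?_)
    exact Finset.sum_nonneg fun k _ => by positivity
  have hsum : ∑ i ∈ Finset.range (2 ^ b), F i ^ 2 ≤ 2 * (G v / N) * ∫ t, x t ^ 2 ∂lam := by
    refine (Finset.sum_le_sum fun i _ => hFi i).trans ?_
    rw [← Finset.mul_sum]
    exact mul_le_mul_of_nonneg_left hbes (by positivity)
  have hx0 : 0 ≤ ∫ t, x t ^ 2 ∂lam := integral_nonneg fun t => sq_nonneg _
  rw [h1]
  have h5 : (∑ i ∈ Finset.range (2 ^ b), (v * F i) ^ 2) =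
      v ^ 2 * ∑ i ∈ Finset.range (2 ^ b), F i ^ 2 := by
    rw [Finset.mul_sum]
    exact Finset.sum_congr rfl fun i _ => by ring
  rw [h5, div_le_iff₀ (by positivity)]
  have h6 : v ^ 2 * G v ≤ 2 ^ b := hL.bup
  calc v ^ 2 * ∑ i ∈ Finset.range (2 ^ b), F i ^ 2
      ≤ v ^ 2 * (2 * (G v / N) * ∫ t, x t ^ 2 ∂lam) :=
        mul_le_mul_of_nonneg_left hsum (by positivity)
    _ = 2 / N * (∫ t, x t ^ 2 ∂lam) * (v ^ 2 * G v) := by ring
    _ ≤ 2 / N * (∫ t, x t ^ 2 ∂lam) * 2 ^ b :=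
        mul_le_mul_of_nonneg_left h6 (by positivity)

end

end Pool.Agent.OB9
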