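import Pool.Agent.OB9.PmA
import Pool.Agent.OB9.MdB

/-!
# Module OB9/PmC

Multi-level operators: the modular.

PROOF. On `cell b i`: `|T x| ≤ v ∑_k (σ_k/h_k) |β_{k,i}|`. Put `b_k = |β_{k,i}|/(8 h_k)`; by
`F_bound` `∑ σ_k b_k ≤ 1`, so by `J1` `M(|T x|/8) ≤ M(v ∑ σ_k b_k) ≤
CJ M(v) ∑ σ_k M(|β_{k,i}|/8)/M(h_k) ≤ CJ M(v) ∑_k (σ_k/M(h_k)) M|β_{k,i}|`, and
`σ_k/M(h_k) ≤ 2 · 2^(-α_k)` (`Lev.dn`), `M(v) ≤ 2^b`. Integrate: `lintegral_idx`.
-/

set_option autoImplicit false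

namespace Pool.Agent.OB9

open MeasureTheory Set Filter
open scoped ENNReal Topology

noncomputable section

variable {κ : ℕ} {G : ℝ → ℝ}

theorem TM_pt (hG : Nice κ G) {CJ N : ℝ} {K l b p : ℕ} {α : ℕ → ℕ}
    {h σ : ℕ → ℝ} {v : ℝ} (hv : 0 ≤ v) (hP : Prof κ G CJ N K h σ v) (hL : Lev G l b K α h σ v)
    (hp : b < p) {T : L2 →L[ℝ] L2} (hT : TM l b p K α h σ v T) {x : L2} (hb : Bd x)
    (hx : md (MG G) x ≤ 1) : ∀ᵐ t ∂lam, |T x t| ≤ v * ∑ k ∈ Finset.range K, σ k / h k *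
      |cf (es l (α k) b (p + k) (idx b t)) (1 / 2 ^ (α k)) x| ∧
      ∑ k ∈ Finset.range K, σ k / h k *
      |cf (es l (α k) b (p + k) (idx b t)) (1 / 2 ^ (α k)) x| ≤ 8 := by
  filter_upwards [hT x] with t ht
  refine ⟨?_, F_bound hG hP hL hp hb hx⟩
  rw [ht, abs_mul, abs_of_nonneg hv]
  refine mul_le_mul_of_nonneg_left ?_ hv
  refine (Finset.abs_sum_le_sum_abs _ _).trans ?_
  refine Finset.sum_le_sum fun k hk => ?_
  have hk' := Finset.mem_range.1 hk
  have h1 : 0 ≤ σ k / h k :=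
    div_nonneg (hP.σpos k hk').le (zero_le_one.trans (hP.hN k hk').2)
  rw [abs_mul, abs_of_nonneg h1]

theorem TM_md (hG : Nice κ G) {CJ N : ℝ} (hCJ : 1 ≤ CJ) {K l b p : ℕ} {α : ℕ → ℕ}
    {h σ : ℕ → ℝ} {v : ℝ} (hv : 0 ≤ v) (hP : Prof κ G CJ N K h σ v) (hL : Lev G l b K α h σ v)
    (hp : b < p) {T : L2 →L[ℝ] L2} (hT : TM l b p K α h σ v T) {x : L2} (hb : Bd x)
    (hx : md (MG G) x ≤ 1) :
    md (MG G) (fun t => T x t / 8) ≤ ENNReal.ofReal (2 * CJ *
      ∑ k ∈ Finset.range K, ∑ i ∈ Finset.range (2 ^ b),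
        1 / 2 ^ (α k) * MG G |cf (es l (α k) b (p + k) i) (1 / 2 ^ (α k)) x|) := by
  have hM := hG.qorl
  set β : ℕ → ℕ → ℝ := fun k i => |cf (es l (α k) b (p + k) i) (1 / 2 ^ (α k)) x| with hβ
  have hβ0 : ∀ k i, 0 ≤ β k i := fun k i => abs_nonneg _
  have hMβ : ∀ k i, 0 ≤ MG G (β k i) := fun k i => hM.nonneg (hβ0 k i)
  have hpt : ∀ᵐ t ∂lam, ENNReal.ofReal (MG G |T x t / 8|) ≤
      ENNReal.ofReal (2 ^ b * (2 * CJ * ∑ k ∈ Finset.range K,
        1 / 2 ^ (α k) * MG G (β k (idx b t)))) := by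
    filter_upwards [TM_pt hG hv hP hL hp hT hb hx] with t ht
    obtain ⟨h1, h2⟩ := ht
    apply ENNReal.ofReal_le_ofReal
    set i := idx b t with hi
    set bb : ℕ → ℝ := fun k => β k i / (8 * h k) with hbb
    have hh : ∀ k < K, 0 < h k := fun k hk => lt_of_lt_of_le one_pos (hP.hN k hk).2
    have hb0 : ∀ k < K, 0 ≤ bb k := fun k hk =>
      div_nonneg (hβ0 k i) (mul_nonneg (by norm_num) (hh k hk).le)
    have hsum : ∑ k ∈ Finset.range K, σ k * bb k =
        (∑ k ∈ Finset.range K, σ k / h k * β k i) / 8 := by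
      rw [Finset.sum_div]
      refine Finset.sum_congr rfl fun k hk => ?_
      have h3 := (hh k (Finset.mem_range.1 hk)).ne'
      simp only [hbb]
      field_simp
    have hs1 : ∑ k ∈ Finset.range K, σ k * bb k ≤ 1 := by
      rw [hsum]
      have : ∑ k ∈ Finset.range K, σ k / h k * β k i ≤ 8 := h2
      linarith
    have hJ := hP.J1 bb hb0 hs1
    have h4 : |T x t / 8| ≤ v * ∑ k ∈ Finset.range K, σ k * bb k := by
      rw [hsum, abs_div, abs_of_pos (by norm_num : (0 : ℝ) < 8)]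
      have : |T x t| ≤ v * ∑ k ∈ Finset.range K, σ k / h k * β k i := h1
      calc |T x t| / 8 ≤ (v * ∑ k ∈ Finset.range K, σ k / h k * β k i) / 8 :=
            div_le_div_of_nonneg_right this (by norm_num)
        _ = _ := by ring
    have h5 : MG G |T x t / 8| ≤ MG G (v * ∑ k ∈ Finset.range K, σ k * bb k) :=
      hM.mono (mem_Ici.2 (abs_nonneg (T x t / 8)))
        (mem_Ici.2 ((abs_nonneg (T x t / 8)).trans h4)) h4
    have hMv : 0 ≤ MG G v := hM.nonneg hv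
    have h6 : ∑ k ∈ Finset.range K, σ k * (MG G (h k * bb k) / MG G (h k)) ≤
        2 * ∑ k ∈ Finset.range K, 1 / 2 ^ (α k) * MG G (β k i) := by
      rw [Finset.mul_sum]
      refine Finset.sum_le_sum fun k hk => ?_
      have hk' := Finset.mem_range.1 hk
      have hσ := hP.σpos k hk'
      have hhk := hh k hk'
      have hMh : 0 < MG G (h k) :=
        lt_of_lt_of_le (by positivity) (hG.sq_le hhk.le)
      have h7 : h k * bb k = β k i / 8 := by
        simp only [hbb]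
        field_simp
      have h8 : MG G (h k * bb k) ≤ MG G (β k i) := by
        rw [h7]
        refine hM.mono ?_ (hβ0 k i) ?_
        · exact div_nonneg (hβ0 k i) (by norm_num)
        · have := hβ0 k i
          linarith
      have h9 : σ k / MG G (h k) ≤ 2 / 2 ^ (α k) := by
        have hd := hL.dn k hk'
        rw [div_le_div_iff₀ hMh (by positivity)]
        have h10 : (2 : ℝ) ^ (α k) * σ k < 2 * (MG G (h k) / σ k) * σ k :=
          mul_lt_mul_of_pos_right hd hσ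
        have h11 : 2 * (MG G (h k) / σ k) * σ k = 2 * MG G (h k) := by
          field_simp
        rw [h11] at h10
        linarith
      calc σ k * (MG G (h k * bb k) / MG G (h k))
          = σ k / MG G (h k) * MG G (h k * bb k) := by ring
        _ ≤ 2 / 2 ^ (α k) * MG G (β k i) := by
            apply mul_le_mul h9 h8
            · exact hM.nonneg (mul_nonneg hhk.le (hb0 k hk'))
            · positivity
        _ = 2 * (1 / 2 ^ (α k) * MG G (β k i)) := by ring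
    have h12 : 0 ≤ ∑ k ∈ Finset.range K, 1 / 2 ^ (α k) * MG G (β k i) :=
      Finset.sum_nonneg fun k _ => mul_nonneg (by positivity) (hMβ k i)
    have hCJ0 : 0 ≤ CJ := zero_le_one.trans hCJ
    calc MG G |T x t / 8| ≤ CJ * MG G v *
          ∑ k ∈ Finset.range K, σ k * (MG G (h k * bb k) / MG G (h k)) := h5.trans hJ
      _ ≤ CJ * MG G v * (2 * ∑ k ∈ Finset.range K, 1 / 2 ^ (α k) * MG G (β k i)) :=
          mul_le_mul_of_nonneg_left h6 (mul_nonneg hCJ0 hMv)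
      _ ≤ CJ * 2 ^ b * (2 * ∑ k ∈ Finset.range K, 1 / 2 ^ (α k) * MG G (β k i)) := by
          apply mul_le_mul_of_nonneg_right
          · exact mul_le_mul_of_nonneg_left hL.bup hCJ0
          · exact mul_nonneg (by norm_num) h12
      _ = 2 ^ b * (2 * CJ * ∑ k ∈ Finset.range K, 1 / 2 ^ (α k) * MG G (β k i)) := by ring
  have hCJ0 : 0 ≤ CJ := zero_le_one.trans hCJ
  have hnn : ∀ i, 0 ≤ 2 ^ b * (2 * CJ * ∑ k ∈ Finset.range K,
      1 / 2 ^ (α k) * MG G (β k i)) := by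
    intro i
    have h12 : 0 ≤ ∑ k ∈ Finset.range K, 1 / 2 ^ (α k) * MG G (β k i) :=
      Finset.sum_nonneg fun k _ => mul_nonneg (by positivity) (hMβ k i)
    positivity
  calc md (MG G) (fun t => T x t / 8)
      ≤ ∫⁻ t, ENNReal.ofReal (2 ^ b * (2 * CJ * ∑ k ∈ Finset.range K,
        1 / 2 ^ (α k) * MG G (β k (idx b t)))) ∂lam := lintegral_mono_ae hpt
    _ = (∑ i ∈ Finset.range (2 ^ b), ENNReal.ofReal (2 ^ b * (2 * CJ * ∑ k ∈ Finset.range K,
        1 / 2 ^ (α k) * MG G (β k i)))) * ENNReal.ofReal (1 / 2 ^ b) :=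
        lintegral_idx b (fun i => ENNReal.ofReal (2 ^ b * (2 * CJ * ∑ k ∈ Finset.range K,
          1 / 2 ^ (α k) * MG G (β k i))))
    _ = ENNReal.ofReal ((∑ i ∈ Finset.range (2 ^ b), 2 ^ b * (2 * CJ * ∑ k ∈ Finset.range K,
        1 / 2 ^ (α k) * MG G (β k i))) * (1 / 2 ^ b)) := by
        rw [← ENNReal.ofReal_sum_of_nonneg (fun i _ => hnn i), ← ENNReal.ofReal_mul]
        exact Finset.sum_nonneg fun i _ => hnn i
    _ = _ := by
        congr 1
        rw [← Finset.mul_sum, ← Finset.mul_sum, Finset.sum_comm]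
        have h2b : (2 : ℝ) ^ b ≠ 0 := by positivity
        field_simp
        rfl

theorem TM_sup (hG : Nice κ G) {CJ N : ℝ} {K l b p : ℕ} {α : ℕ → ℕ}
    {h σ : ℕ → ℝ} {v : ℝ} (hv : 0 ≤ v) (hP : Prof κ G CJ N K h σ v) (hL : Lev G l b K α h σ v)
    (hp : b < p) {T : L2 →L[ℝ] L2} (hT : TM l b p K α h σ v T) {x : L2} (hb : Bd x)
    (hx : md (MG G) x ≤ 1) : ∀ᵐ t ∂lam, |T x t| ≤ 8 * v := by
  filter_upwards [TM_pt hG hv hP hL hp hT hb hx] with t ht
  refine ht.1.trans ?_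
  rw [mul_comm 8 v]
  exact mul_le_mul_of_nonneg_left ht.2 hv

end

end Pool.Agent.OB9
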