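import Pool.Agent.OB9.NiB

/-!
# Module OB9/SnB

The supremum `SN` of the values of chains.

PROOF. For a chain at `v` with base `N ≥ 1`: `Th (X i) ≥ Th 1 = 1`, so `Th (h i) ≤ Th v`, `h i ≤ v`;
`G(h_i) ≥ 2^i` (`G ≥ 1`), so `2^(m-1) ≤ G(v)` if `m ≥ 1`, `m ≤ G(v) + 1`; and
`h_i X_i G(h_i) G(X_i) ≤ v G(v)` gives `h_i X_i ≤ v G(v)`. So all the values are `≤ (G(v)+1) G(v)`
(`SN_bdd`). `SN ≥ 0` since `m = 0` is allowed. `SN_anti`: a chain with base `N' ≥ N` is a chain with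
base `N`. `SN_near`: definition of the supremum. `chain_le`: `le_csSup`.
-/

set_option autoImplicit false

namespace Pool.Agent.OB9

open MeasureTheory Set Filter
open scoped ENNReal Topology

noncomputable section

variable {κ : ℕ} {G : ℝ → ℝ}

private theorem snb_pow (hG : Nice κ G) {m : ℕ} {h : ℕ → ℝ} (h0 : ∀ i < m, 0 ≤ h i)
    (h2 : ∀ i, i + 1 < m → 2 * G (h i) ≤ G (h (i + 1))) : ∀ i, i < m → (2 : ℝ) ^ i ≤ G (h i) := by
  intro i
  induction i with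
  | zero =>
    intro hi
    rw [pow_zero]
    exact hG.one_le (h0 0 hi)
  | succ i ih =>
    intro hi
    have h3 := ih (by omega)
    have h4 := h2 i hi
    rw [pow_succ]
    linarith

theorem chain_bounds (hG : Nice κ G) {N v : ℝ} {m : ℕ} {h X : ℕ → ℝ} (hN : 1 ≤ N) (hv : 0 < v)
    (hc : Chain G N v m h X) : (m : ℝ) ≤ G v + 1 ∧
      ∀ i < m, h i ≤ v ∧ X i ≤ v ∧ h i * X i ≤ v * G v := by
  obtain ⟨hc1, hc2⟩ := hc
  have hGv : 1 ≤ G v := hG.one_le hv.le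
  have hTh1 : Th G 1 = 1 := by
    unfold Th
    rw [hG.one 1 zero_le_one le_rfl, mul_one]
  have key : ∀ i < m, h i ≤ v ∧ X i ≤ v ∧ h i * X i ≤ v * G v := by
    intro i hi
    obtain ⟨h1, h2, h3⟩ := hc1 i hi
    have hh : 1 ≤ h i := hN.trans h1
    have hX : 1 ≤ X i := hN.trans h2
    have hh0 : 0 ≤ h i := zero_le_one.trans hh
    have hX0 : 0 ≤ X i := zero_le_one.trans hX
    have a1 : 1 ≤ Th G (h i) := by
      rw [← hTh1]
      exact (hG.Th_le_iff zero_le_one hh0).2 hh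
    have a2 : 1 ≤ Th G (X i) := by
      rw [← hTh1]
      exact (hG.Th_le_iff zero_le_one hX0).2 hX
    refine ⟨?_, ?_, ?_⟩
    · rw [← hG.Th_le_iff hh0 hv.le]
      refine le_trans ?_ h3
      exact le_mul_of_one_le_right (zero_le_one.trans a1) a2
    · rw [← hG.Th_le_iff hX0 hv.le]
      refine le_trans ?_ h3
      exact le_mul_of_one_le_left (zero_le_one.trans a2) a1
    · have b1 : 1 ≤ G (h i) := hG.one_le hh0
      have b2 : 1 ≤ G (X i) := hG.one_le hX0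
      have b3 : h i * X i ≤ (h i * X i) * (G (h i) * G (X i)) :=
        le_mul_of_one_le_right (mul_nonneg hh0 hX0) (one_le_mul_of_one_le_of_one_le b1 b2)
      refine b3.trans (le_trans (le_of_eq ?_) h3)
      unfold Th
      ring
  refine ⟨?_, key⟩
  rcases Nat.eq_zero_or_pos m with hm | hm
  · rw [hm, Nat.cast_zero]
    linarith
  · have h1 : (2 : ℝ) ^ (m - 1) ≤ G (h (m - 1)) :=
      snb_pow hG (fun i hi => zero_le_one.trans (hN.trans (hc1 i hi).1)) hc2 (m - 1) (by omega)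
    have h2 : G (h (m - 1)) ≤ G v := by
      have h3 := (hc1 (m - 1) (by omega)).1
      have h4 : 0 ≤ h (m - 1) := zero_le_one.trans (hN.trans h3)
      exact hG.mono h4 hv.le (key (m - 1) (by omega)).1
    have h3 : m ≤ 2 ^ (m - 1) := by
      have h4 : m - 1 < 2 ^ (m - 1) := Nat.lt_two_pow_self
      omega
    have h4 : (m : ℝ) ≤ (2 : ℝ) ^ (m - 1) := by exact_mod_cast h3
    linarith

private theorem snb_val (hG : Nice κ G) {N v : ℝ} (hN : 1 ≤ N) (hv : 0 < v) {r : ℝ}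
    (hr : r ∈ chainVals G N v) : r ≤ (G v + 1) * G v := by
  obtain ⟨m, h, X, hc, rfl⟩ := hr
  obtain ⟨h1, h2⟩ := chain_bounds hG hN hv hc
  have hGv : 1 ≤ G v := hG.one_le hv.le
  rw [div_le_iff₀ hv]
  have h3 : ∑ i ∈ Finset.range m, h i * X i ≤ ∑ _i ∈ Finset.range m, v * G v :=
    Finset.sum_le_sum fun i hi => (h2 i (Finset.mem_range.1 hi)).2.2
  rw [Finset.sum_const, Finset.card_range, nsmul_eq_mul] at h3
  refine h3.trans ?_
  have h4 : (m : ℝ) * (v * G v) ≤ (G v + 1) * (v * G v) :=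
    mul_le_mul_of_nonneg_right h1 (mul_nonneg hv.le (zero_le_one.trans hGv))
  refine h4.trans (le_of_eq ?_)
  ring

private theorem snb_zero {N v : ℝ} : (0 : ℝ) ∈ chainVals G N v := by
  refine ⟨0, fun _ => 0, fun _ => 0, ⟨?_, ?_⟩, by simp⟩
  · intro i hi
    exact absurd hi (by omega)
  · intro i hi
    exact absurd hi (by omega)

private theorem snb_bdd (hG : Nice κ G) {N v : ℝ} (hN : 1 ≤ N) (hv : 0 < v) :
    BddAbove (chainVals G N v) := ⟨(G v + 1) * G v, fun _ hr => snb_val hG hN hv hr⟩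

theorem SN_le (hG : Nice κ G) {N v : ℝ} (hN : 1 ≤ N) (hv : 0 < v) :
    SN G N v ≤ (G v + 1) * G v :=
  csSup_le ⟨0, snb_zero⟩ fun _ hr => snb_val hG hN hv hr

theorem chain_le_SN (hG : Nice κ G) {N v : ℝ} {m : ℕ} {h X : ℕ → ℝ} (hN : 1 ≤ N) (hv : 0 < v)
    (hc : Chain G N v m h X) : ∑ i ∈ Finset.range m, h i * X i ≤ SN G N v * v := by
  rw [← div_le_iff₀ hv]
  exact le_csSup (snb_bdd hG hN hv) ⟨m, h, X, hc, rfl⟩

theorem SN_nonneg (hG : Nice κ G) {N v : ℝ} (hN : 1 ≤ N) (hv : 0 < v) : 0 ≤ SN G N v :=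
  le_csSup (snb_bdd hG hN hv) snb_zero

theorem SN_near (hG : Nice κ G) {N v r : ℝ} (hN : 1 ≤ N) (hv : 0 < v) (hr : r < SN G N v) :
    ∃ (m : ℕ) (h X : ℕ → ℝ), Chain G N v m h X ∧ r * v < ∑ i ∈ Finset.range m, h i * X i := by
  obtain ⟨_, ⟨m, h, X, hc, rfl⟩, h1⟩ := exists_lt_of_lt_csSup ⟨0, snb_zero⟩ hr
  exact ⟨m, h, X, hc, (lt_div_iff₀ hv).1 h1⟩

/-- A contiguous part of a chain whose levels are at least `N'`. -/
theorem Chain.shift {N N' v : ℝ} {m a b : ℕ} {h X : ℕ → ℝ} (hc : Chain G N v m h X)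
    (hb : b ≤ m) (h1 : ∀ i, a ≤ i → i < b → N' ≤ h i ∧ N' ≤ X i) :
    Chain G N' v (b - a) (fun i => h (a + i)) (fun i => X (a + i)) := by
  obtain ⟨hc1, hc2⟩ := hc
  refine ⟨fun i hi => ?_, fun i hi => ?_⟩
  · have h2 := h1 (a + i) (by omega) (by omega)
    exact ⟨h2.1, h2.2, (hc1 (a + i) (by omega)).2.2⟩
  · exact hc2 (a + i) (by omega)

end

end Pool.Agent.OB9
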