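import Pool.Agent.OB9.SelA
import Pool.Agent.OB9.SnB

/-!
# Module OB9/RecA

Good chains, when the values of chains are bounded for some base.

PROOF. Let `SN G N₁ v ≤ B` for all `v > 0`, and `ε₀ > 0` such that for every `N ≥ 1` there is a chain
with base `N` and `∑ h X > ε₀ v` (negation of `ThinG`). Given `N ≥ 1` let
`N' = max N (max N₁ (N (B + 1)))`. Take a chain with base `N'` and `select`: a double chain with base
`N'`, value `S = ∑ h' X'/v ≥ ε₀/6`. `S ≤ SN G N' v ≤ B` (chains with base `N'` are chains with base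
`N₁`). `M(X_i) ≥ X_i² ≥ N'^2 ≥ N (B+1) ≥ N S` (`N' ≥ N(B+1) ≥ 1`). `c₁ = ε₀/(6(1+B))`.
-/

set_option autoImplicit false

namespace Pool.Agent.OB9

open MeasureTheory Set Filter
open scoped ENNReal Topology

noncomputable section

variable {κ : ℕ} {G : ℝ → ℝ}

/-- A double chain with equality, of value `S`, compared with the values at smaller `v'`. -/
def GoodChain (G : ℝ → ℝ) (c₁ N₁ N v S : ℝ) (m : ℕ) (h X : ℕ → ℝ) : Prop :=
  0 < v ∧ 0 < S ∧ Chain G N v m h X ∧ (∀ i < m, Th G (h i) * Th G (X i) = Th G v) ∧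
    (∀ i, i + 1 < m → 2 * G (X (i + 1)) ≤ G (X i)) ∧
    ∑ i ∈ Finset.range m, h i * X i = S * v ∧
    (∀ v', 0 < v' → v' ≤ v → c₁ * (1 + SN G N₁ v') ≤ S) ∧ ∀ i < m, N * S ≤ MG G (X i)

theorem recA (hG : Nice κ G) (hT : ¬ ThinG G) {N₁ B : ℝ} (hN : 1 ≤ N₁)
    (hB : ∀ v, 0 < v → SN G N₁ v ≤ B) :
    ∃ c₁ : ℝ, 0 < c₁ ∧ ∀ N : ℝ, 1 ≤ N → ∃ (v S : ℝ) (m : ℕ) (h X : ℕ → ℝ),
      GoodChain G c₁ N₁ N v S m h X := by
  have hB0 : 0 ≤ B := (SN_nonneg hG hN one_pos).trans (hB 1 one_pos)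
  have hB1 : 0 < 1 + B := by linarith
  unfold ThinG at hT
  push Not at hT
  obtain ⟨ε, hε, hch⟩ := hT
  refine ⟨ε / (6 * (1 + B)), by positivity, fun N hN1 => ?_⟩
  set N' : ℝ := max N (max N₁ (N * (B + 1))) with hN'
  have hN'1 : N ≤ N' := le_max_left _ _
  have hN'2 : N₁ ≤ N' := (le_max_left _ _).trans (le_max_right _ _)
  have hN'3 : N * (B + 1) ≤ N' := (le_max_right _ _).trans (le_max_right _ _)
  have hN'0 : 1 ≤ N' := hN1.trans hN'1
  obtain ⟨v, m, h, X, hv, hc, hlt⟩ := hch N' hN'0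
  obtain ⟨m', h', X', hc', heq, hdb, hsum⟩ := select hG hN'0 hv hc
  set T : ℝ := ∑ i ∈ Finset.range m', h' i * X' i with hT'
  have hS1 : ε / 6 < T / v := by
    rw [lt_div_iff₀ hv]
    linarith
  have hmono : ∀ N₂ : ℝ, N₂ ≤ N' → Chain G N₂ v m' h' X' := by
    intro N₂ h2
    refine ⟨fun i hi => ?_, hc'.2⟩
    obtain ⟨h3, h4, h5⟩ := hc'.1 i hi
    exact ⟨h2.trans h3, h2.trans h4, h5⟩
  have hSB : T / v ≤ B := by
    have h1 := chain_le_SN hG hN hv (hmono N₁ hN'2)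
    rw [div_le_iff₀ hv]
    refine h1.trans ?_
    exact mul_le_mul_of_nonneg_right (hB v hv) hv.le
  have hSpos : 0 < T / v := lt_trans (by positivity) hS1
  refine ⟨v, T / v, m', h', X', hv, hSpos, hmono N hN'1, heq, hdb, ?_, ?_, ?_⟩
  · rw [div_mul_cancel₀ _ hv.ne']
  · intro v' hv' _
    have h1 := hB v' hv'
    have h2 : ε / (6 * (1 + B)) * (1 + SN G N₁ v') ≤ ε / (6 * (1 + B)) * (1 + B) := by
      apply mul_le_mul_of_nonneg_left _ (by positivity)
      linarith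
    have h3 : ε / (6 * (1 + B)) * (1 + B) = ε / 6 := by
      field_simp
    linarith
  · intro i hi
    have h1 := (hc'.1 i hi).2.1
    have h2 : 0 ≤ X' i := by linarith
    have h3 := hG.sq_le h2
    have h4 : N' ≤ X' i ^ 2 := by nlinarith
    have h5 : N * (T / v) ≤ N * (B + 1) := by
      apply mul_le_mul_of_nonneg_left _ (by linarith)
      linarith
    linarith

end

end Pool.Agent.OB9
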