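import Pool.Agent.OB9.RecA

/-!
# Module OB9/RecB

Good chains, when the values of chains are unbounded.

PROOF. `N₁ = 1`. Given `N ≥ 1` let `L` be large (depending on `N`, `G`). By hypothesis there is `V > 0`
with `SN G 1 V > L`. The set `{SN G 1 v' | 0 < v' ≤ V}` is bounded by `(G V + 1) G V` (`SN_le`,
monotonicity of `G`); choose `v ≤ V` with `SN G 1 v ≥ (1/2) sup`, so `SN G 1 v ≥ L/2` and
`SN G 1 v' ≤ 2 SN G 1 v` for `0 < v' ≤ v`. Take a chain with value `≥ (1/2) SN G 1 v` (`SN_near`) and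
`select`: a double chain (base `1`) of value `S₀ ≥ SN G 1 v/12 ≥ L/24`; `S₀ ≤ SN G 1 v`. Let
`X_* = max N (√(N S₀))`. Remove the indices with `h_i < N` (an initial segment as `h` is increasing) and
those with `X_i < X_*` (a final segment as `X` is decreasing): the rest is `a ≤ i < b`
(`Chain.shift`), a double chain with base `N`. Each removed term is small: if `h_i < N`,
`h_i X_i/v ≤ N` (`X_i ≤ v`), and the number of these `i` is `≤ 1 + log₂ G(N)` as
`2^i ≤ G(h_i) ≤ G(N)`: at most `G(N) + 1`; if `X_i < X_*`, `h_i X_i/v ≤ X_*` and the number of these is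
at most `1 + log₂ G(X_*)` (as `G(X_i) ≥ 2^(m-1-i)`), `≤ 2 + κ log₂ (1 + X_*)`. For `L` large
`N (G(N)+1) ≤ S₀/4` and `X_* (2 + κ log₂(1+X_*)) ≤ S₀/4` (since `X_* ≤ max N √(N S₀)` and
`√S₀ log S₀ = o(S₀)`). So the remaining value `S` satisfies `S₀/2 ≤ S ≤ S₀`,
`S ≥ SN G 1 v/24 ≥ SN G 1 v'/48` and `S ≥ 1`: `c₁ = 1/96`. `N S ≤ N S₀ ≤ X_*² ≤ M(X_i)`.
-/

set_option autoImplicit false

namespace Pool.Agent.OB9

open MeasureTheory Set Filter
open scoped ENNReal Topology

noncomputable section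

variable {κ : ℕ} {G : ℝ → ℝ}

private theorem RecB_asym (κ : ℕ) {N : ℝ} (hN : 1 ≤ N) : ∃ L : ℝ, 0 < L ∧ ∀ S₀, L ≤ S₀ →
    ∀ c : ℕ, (2 : ℝ) ^ c ≤ 4 * (max N (√(N * S₀))) ^ κ → (max N (√(N * S₀))) * c ≤ S₀ / 4 := by
  have hl2 : 0 < Real.log 2 := Real.log_pos (by norm_num)
  have hN0 : 0 < N := by linarith
  set r : ℝ := Real.log 2 / (4 * N) with hr
  have hr0 : 0 < r := by positivity
  have h1 : Tendsto (fun y : ℝ => y ^ κ * Real.exp (-y)) atTop (𝓝 0) :=
    Real.tendsto_pow_mul_exp_neg_atTop_nhds_zero κ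
  have h2 : Tendsto (fun x : ℝ => 4 * (1 / r) ^ κ * ((r * x) ^ κ * Real.exp (-(r * x)))) atTop
      (𝓝 0) := by
    have h3 : Tendsto (fun x : ℝ => r * x) atTop atTop := tendsto_id.const_mul_atTop hr0
    have h4 := (h1.comp h3).const_mul (4 * (1 / r) ^ κ)
    simpa using h4
  obtain ⟨x₀, hx₀⟩ := (h2.eventually_lt_const (show (0 : ℝ) < 1 by norm_num)).exists_forall_of_atTop
  refine ⟨N + x₀ ^ 2, by positivity, fun S₀ hS c hc => ?_⟩
  have hS0 : 0 ≤ S₀ := by nlinarith [sq_nonneg x₀]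
  have h5 : N ≤ √(N * S₀) := by
    apply Real.le_sqrt_of_sq_le
    nlinarith [sq_nonneg x₀]
  have h6 : x₀ ≤ √(N * S₀) := by
    apply Real.le_sqrt_of_sq_le
    nlinarith [sq_nonneg x₀]
  rw [max_eq_right h5] at hc ⊢
  set x : ℝ := √(N * S₀) with hx
  have hxx : x * x = N * S₀ := Real.mul_self_sqrt (by positivity)
  have hx0 : 0 < x := by linarith
  have h7 := hx₀ x h6
  have h8 : (c : ℝ) ≤ x / (4 * N) := by
    by_contra hcon
    push Not at hcon
    have h9 : Real.exp (r * x) ≤ (2 : ℝ) ^ c := by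
      rw [← Real.exp_log (show (0 : ℝ) < 2 ^ c by positivity), Real.log_pow]
      apply Real.exp_le_exp.2
      have : r * x = x / (4 * N) * Real.log 2 := by
        rw [hr]
        ring
      rw [this]
      exact mul_le_mul_of_nonneg_right hcon.le hl2.le
    have h10 : 4 * (1 / r) ^ κ * ((r * x) ^ κ * Real.exp (-(r * x))) =
        4 * x ^ κ * Real.exp (-(r * x)) := by
      have : (1 / r) ^ κ * (r * x) ^ κ = x ^ κ := by
        rw [← mul_pow]
        congr 1
        field_simp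
      calc 4 * (1 / r) ^ κ * ((r * x) ^ κ * Real.exp (-(r * x)))
          = 4 * ((1 / r) ^ κ * (r * x) ^ κ) * Real.exp (-(r * x)) := by ring
        _ = _ := by rw [this]
    rw [h10] at h7
    have h11 : Real.exp (r * x) * Real.exp (-(r * x)) = 1 := by
      rw [← Real.exp_add]
      simp
    have h12 : 0 < Real.exp (-(r * x)) := Real.exp_pos _
    nlinarith
  have h13 : x * c ≤ x * (x / (4 * N)) := mul_le_mul_of_nonneg_left h8 hx0.le
  have h14 : x * (x / (4 * N)) = S₀ / 4 := by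
    rw [← mul_div_assoc, hxx]
    field_simp
  linarith

private theorem RecB_sum {m a b : ℕ} (ha : a ≤ m) (hb : b ≤ m) {t : ℕ → ℝ}
    (ht : ∀ i < m, 0 ≤ t i) :
    ∑ i ∈ Finset.range m, t i ≤ ∑ i ∈ Finset.range a, t i +
      ∑ i ∈ Finset.range (b - a), t (a + i) + ∑ i ∈ Finset.range (m - b), t (b + i) ∧
    ∑ i ∈ Finset.range (b - a), t (a + i) ≤ ∑ i ∈ Finset.range m, t i := by
  have h1 : ∀ p q : ℕ, p ≤ q → ∑ i ∈ Finset.range q, t i =
      ∑ i ∈ Finset.range p, t i + ∑ i ∈ Finset.range (q - p), t (p + i) := by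
    intro p q hpq
    obtain ⟨d, rfl⟩ := Nat.exists_eq_add_of_le hpq
    rw [Nat.add_sub_cancel_left, Finset.sum_range_add]
  have h2 : ∀ p q : ℕ, q ≤ m → 0 ≤ ∑ i ∈ Finset.range (q - p), t (p + i) := by
    intro p q hq
    refine Finset.sum_nonneg fun i hi => ht _ ?_
    have := Finset.mem_range.1 hi
    omega
  have h3 : ∀ q : ℕ, q ≤ m → 0 ≤ ∑ i ∈ Finset.range q, t i := fun q hq =>
    Finset.sum_nonneg fun i hi => ht _ (by have := Finset.mem_range.1 hi; omega)
  rcases le_total a b with hab | hab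
  · have h4 := h1 b m hb
    have h5 := h1 a b hab
    have h6 := h3 a ha
    have h7 := h2 b m le_rfl
    constructor <;> linarith
  · have h4 : b - a = 0 := by omega
    rw [h4, Finset.range_zero, Finset.sum_empty]
    refine ⟨?_, h3 m le_rfl⟩
    have h5 := h1 b m hb
    have h6 := h1 b a hab
    have h7 := h2 b a ha
    linarith

theorem recB (hG : Nice κ G) (hB : ∀ B : ℝ, ∃ v, 0 < v ∧ B < SN G 1 v) :
    ∃ c₁ : ℝ, 0 < c₁ ∧ ∀ N : ℝ, 1 ≤ N → ∃ (v S : ℝ) (m : ℕ) (h X : ℕ → ℝ),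
      GoodChain G c₁ 1 N v S m h X := by
  refine ⟨1 / 96, by norm_num, fun N hN => ?_⟩
  have hN0 : 0 < N := by linarith
  obtain ⟨L₀, hL₀, hL⟩ := RecB_asym κ hN
  have hGN1 : 1 ≤ G N := hG.one_le hN0.le
  set L : ℝ := 24 * (L₀ + 4 * (N * (G N + 1)) + 2) with hLdef
  have hNG : 0 < N * (G N + 1) := by positivity
  have hLpos : 0 < L := by positivity
  obtain ⟨V, hV, hVL⟩ := hB L
  -- the choice of `v`
  set A : Set ℝ := {r | ∃ v', 0 < v' ∧ v' ≤ V ∧ r = SN G 1 v'} with hA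
  have hbdd : BddAbove A := by
    refine ⟨(G V + 1) * G V, ?_⟩
    rintro r ⟨v', hv', hv'V, rfl⟩
    have h1 := SN_le hG le_rfl hv'
    have h2 : G v' ≤ G V := hG.mono hv'.le hV.le hv'V
    have h3 : 1 ≤ G v' := hG.one_le hv'.le
    nlinarith
  have hVA : SN G 1 V ∈ A := ⟨V, hV, le_rfl, rfl⟩
  have hs1 : SN G 1 V ≤ sSup A := le_csSup hbdd hVA
  have hs0 : 0 < sSup A := by linarith
  obtain ⟨_, ⟨v, hv, hvV, rfl⟩, hv2⟩ := exists_lt_of_lt_csSup ⟨_, hVA⟩
    (show sSup A / 2 < sSup A by linarith)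
  have hle : ∀ v', 0 < v' → v' ≤ v → SN G 1 v' ≤ 2 * SN G 1 v := by
    intro v' hv' hv'v
    have h1 : SN G 1 v' ≤ sSup A := le_csSup hbdd ⟨v', hv', hv'v.trans hvV, rfl⟩
    linarith
  have hσL : L / 2 < SN G 1 v := by linarith
  have hσ0 : 0 < SN G 1 v := by linarith
  obtain ⟨m₀, h₀, X₀, hc₀, hr₀⟩ := SN_near hG le_rfl hv (show SN G 1 v / 2 < SN G 1 v by linarith)
  obtain ⟨m, h, X, hc, heq, hdb, hsum⟩ := select hG le_rfl hv hc₀
  obtain ⟨S₀, hS₀⟩ : ∃ S₀ : ℝ, S₀ = (∑ i ∈ Finset.range m, h i * X i) / v := ⟨_, rfl⟩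
  have hS₀v : ∑ i ∈ Finset.range m, h i * X i = S₀ * v := by
    rw [hS₀, div_mul_cancel₀ _ hv.ne']
  have hS₁ : SN G 1 v / 12 < S₀ := by
    rw [hS₀, lt_div_iff₀ hv]
    linarith
  have hS₂ : S₀ ≤ SN G 1 v := by
    rw [hS₀, div_le_iff₀ hv]
    exact chain_le_SN hG le_rfl hv hc
  have hS₃ : L / 24 < S₀ := by linarith
  have hS₄ : L₀ + 4 * (N * (G N + 1)) + 2 < S₀ := by
    rw [hLdef] at hS₃
    linarith
  have hS0 : 0 < S₀ := by linarith
  obtain ⟨Xs, hXs⟩ : ∃ Xs : ℝ, Xs = max N (√(N * S₀)) := ⟨_, rfl⟩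
  have hXsN : N ≤ Xs := by rw [hXs]; exact le_max_left _ _
  have hXs0 : 0 < Xs := by linarith
  have hXs2 : N * S₀ ≤ Xs ^ 2 := by
    have h1 : √(N * S₀) ≤ Xs := by rw [hXs]; exact le_max_right _ _
    have h2 : √(N * S₀) ^ 2 = N * S₀ := Real.sq_sqrt (by positivity)
    have h3 : 0 ≤ √(N * S₀) := Real.sqrt_nonneg _
    nlinarith
  have hcnt : ∀ c : ℕ, (2 : ℝ) ^ c ≤ 4 * Xs ^ κ → Xs * c ≤ S₀ / 4 := by
    intro c hc
    rw [hXs] at hc ⊢
    exact hL S₀ (by linarith) c hc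
  -- monotonicity
  have hh1 : ∀ i < m, 1 ≤ h i := fun i hi => (hc.1 i hi).1
  have hX1 : ∀ i < m, 1 ≤ X i := fun i hi => (hc.1 i hi).2.1
  obtain ⟨-, hbd⟩ := chain_bounds hG le_rfl hv hc
  have hhs : ∀ i, i + 1 < m → h i < h (i + 1) := fun i hi =>
    (hG.lt_of_two_mul (by linarith [hh1 i (by omega)]) (by linarith [hh1 (i + 1) hi])
      (hc.2 i hi)).1
  have hXs' : ∀ i, i + 1 < m → X (i + 1) < X i := fun i hi =>
    (hG.lt_of_two_mul (by linarith [hX1 (i + 1) hi]) (by linarith [hX1 i (by omega)])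
      (hdb i hi)).1
  have hhm : ∀ d i, i + d < m → h i ≤ h (i + d) := by
    intro d
    induction d with
    | zero => intro i _; exact le_rfl
    | succ d ih =>
      intro i hi
      exact (ih i (by omega)).trans (hhs (i + d) (by omega)).le
  have hXm : ∀ d i, i + d < m → X (i + d) ≤ X i := by
    intro d
    induction d with
    | zero => intro i _; exact le_rfl
    | succ d ih =>
      intro i hi
      exact (hXs' (i + d) (by omega)).le.trans (ih i (by omega))
  have hGh : ∀ i < m, (2 : ℝ) ^ i ≤ G (h i) := by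
    intro i
    induction i with
    | zero =>
      intro hi
      rw [pow_zero]
      exact hG.one_le (by linarith [hh1 0 hi])
    | succ i ih =>
      intro hi
      have h1 := ih (by omega)
      have h2 := hc.2 i hi
      rw [pow_succ]
      linarith
  have hGX : ∀ d i, i + d < m → (2 : ℝ) ^ d ≤ G (X i) := by
    intro d
    induction d with
    | zero =>
      intro i hi
      rw [pow_zero]
      exact hG.one_le (by linarith [hX1 i hi])
    | succ d ih =>
      intro i hi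
      have h1 := ih (i + 1) (by omega)
      have h2 := hdb i (by omega)
      rw [pow_succ]
      linarith
  -- the indices
  have hPa : ∃ i, m ≤ i ∨ N ≤ h i := ⟨m, Or.inl le_rfl⟩
  have hPb : ∃ i, m ≤ i ∨ X i < Xs := ⟨m, Or.inl le_rfl⟩
  classical
  obtain ⟨a, ha1, ha2⟩ : ∃ a, (m ≤ a ∨ N ≤ h a) ∧ ∀ i < a, ¬ (m ≤ i ∨ N ≤ h i) :=
    ⟨Nat.find hPa, Nat.find_spec hPa, fun i hi => Nat.find_min hPa hi⟩
  obtain ⟨b, hb1, hb2⟩ : ∃ b, (m ≤ b ∨ X b < Xs) ∧ ∀ i < b, ¬ (m ≤ i ∨ X i < Xs) :=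
    ⟨Nat.find hPb, Nat.find_spec hPb, fun i hi => Nat.find_min hPb hi⟩
  have ham : a ≤ m := by
    by_contra hcon
    exact ha2 m (by omega) (Or.inl le_rfl)
  have hbm : b ≤ m := by
    by_contra hcon
    exact hb2 m (by omega) (Or.inl le_rfl)
  have ha3 : ∀ i < a, h i < N := fun i hi => by
    have := ha2 i hi
    push Not at this
    exact this.2
  have ha4 : ∀ i, a ≤ i → i < m → N ≤ h i := by
    intro i hi him
    have h1 : N ≤ h a := by
      rcases ha1 with h1 | h1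
      · omega
      · exact h1
    have h2 := hhm (i - a) a (by omega)
    rw [Nat.add_sub_cancel' hi] at h2
    linarith
  have hb3 : ∀ i < b, Xs ≤ X i := fun i hi => by
    have := hb2 i hi
    push Not at this
    exact this.2
  have hb4 : ∀ i, b ≤ i → i < m → X i < Xs := by
    intro i hi him
    have h1 : X b < Xs := by
      rcases hb1 with h1 | h1
      · omega
      · exact h1
    have h2 := hXm (i - b) b (by omega)
    rw [Nat.add_sub_cancel' hi] at h2
    linarith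
  -- the outer sums
  obtain ⟨hsum1, hsum2⟩ := RecB_sum (t := fun i => h i * X i) ham hbm (fun i hi =>
    mul_nonneg (by linarith [hh1 i hi]) (by linarith [hX1 i hi]))
  have hca : (a : ℝ) ≤ G N + 1 := by
    rcases Nat.eq_zero_or_pos a with h0 | h0
    · rw [h0]
      push_cast
      linarith
    · have h1 := hGh (a - 1) (by omega)
      have h2 : G (h (a - 1)) ≤ G N :=
        hG.mono (by have := hh1 (a - 1) (by omega); exact (by linarith : (0 : ℝ) ≤ h (a - 1)))
          hN0.le (ha3 (a - 1) (by omega)).le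
      have h3 : ((a - 1 : ℕ) : ℝ) ≤ 2 ^ (a - 1) := by
        exact_mod_cast (Nat.lt_two_pow_self).le
      have h4 : ((a - 1 : ℕ) : ℝ) = a - 1 := by
        rw [Nat.cast_sub h0]
        norm_num
      rw [h4] at h3
      linarith
  have hout1 : ∑ i ∈ Finset.range a, h i * X i ≤ S₀ / 4 * v := by
    have h1 : ∑ i ∈ Finset.range a, h i * X i ≤ ∑ _i ∈ Finset.range a, N * v := by
      refine Finset.sum_le_sum fun i hi => ?_
      have hi' := Finset.mem_range.1 hi
      have h2 := hbd i (by omega)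
      have h3 := ha3 i hi'
      have h4 := hX1 i (by omega)
      exact mul_le_mul h3.le h2.2.1 (by linarith) hN0.le
    rw [Finset.sum_const, Finset.card_range, nsmul_eq_mul] at h1
    refine h1.trans ?_
    rw [← mul_assoc]
    apply mul_le_mul_of_nonneg_right _ hv.le
    have h5 : (a : ℝ) * N ≤ (G N + 1) * N := mul_le_mul_of_nonneg_right hca hN0.le
    linarith
  have hcb : (2 : ℝ) ^ (m - b) ≤ 4 * Xs ^ κ := by
    have h0 : (1 : ℝ) ≤ Xs ^ κ := one_le_pow₀ (by linarith)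
    rcases Nat.eq_zero_or_pos (m - b) with h1 | h1
    · rw [h1, pow_zero]
      linarith
    · have h2 := hGX (m - b - 1) b (by omega)
      have h3 : G (X b) ≤ G Xs :=
        hG.mono (by have := hX1 b (by omega); exact (by linarith : (0 : ℝ) ≤ X b)) hXs0.le
          (hb4 b le_rfl (by omega)).le
      have h4 := hG.G_le_pow hXs0.le
      have h5 : (2 : ℝ) ^ (m - b) = 2 ^ (m - b - 1) * 2 := by
        rw [← pow_succ]
        congr 1
        omega
      rw [h5]
      linarith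
  have hout2 : ∑ i ∈ Finset.range (m - b), h (b + i) * X (b + i) ≤ S₀ / 4 * v := by
    have h1 : ∑ i ∈ Finset.range (m - b), h (b + i) * X (b + i) ≤
        ∑ _i ∈ Finset.range (m - b), v * Xs := by
      refine Finset.sum_le_sum fun i hi => ?_
      have hi' := Finset.mem_range.1 hi
      have h2 := hbd (b + i) (by omega)
      have h3 := hb4 (b + i) (by omega) (by omega)
      have h4 := hX1 (b + i) (by omega)
      exact mul_le_mul h2.1 h3.le (by linarith) hv.le
    rw [Finset.sum_const, Finset.card_range, nsmul_eq_mul] at h1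
    refine h1.trans ?_
    have h5 := hcnt (m - b) hcb
    nlinarith
  obtain ⟨S, hS⟩ : ∃ S : ℝ, S = (∑ i ∈ Finset.range (b - a), h (a + i) * X (a + i)) / v :=
    ⟨_, rfl⟩
  have hSv : ∑ i ∈ Finset.range (b - a), h (a + i) * X (a + i) = S * v := by
    rw [hS, div_mul_cancel₀ _ hv.ne']
  have hSS : S₀ / 2 ≤ S := by
    rw [hS, le_div_iff₀ hv]
    rw [hS₀v] at hsum1
    linarith
  have hSS' : S ≤ S₀ := by
    rw [hS, div_le_iff₀ hv, ← hS₀v]
    exact hsum2
  have hSpos : 0 < S := by linarith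
  refine ⟨v, S, b - a, fun i => h (a + i), fun i => X (a + i), hv, hSpos,
    hc.shift hbm (fun i hai hib => ⟨ha4 i hai (by omega), hXsN.trans (hb3 i hib)⟩), ?_, ?_, hSv,
    ?_, ?_⟩
  · intro i hi
    exact heq (a + i) (by omega)
  · intro i hi
    exact hdb (a + i) (by omega)
  · intro v' hv' hv'v
    have h1 := hle v' hv' hv'v
    linarith
  · intro i hi
    have h1 := hb3 (a + i) (by omega)
    have h2 := hG.sq_le (show 0 ≤ X (a + i) by linarith)
    have h3 : N * S ≤ N * S₀ := mul_le_mul_of_nonneg_left hSS' hN0.le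
    have h4 : Xs ^ 2 ≤ X (a + i) ^ 2 := by
      apply pow_le_pow_left₀ hXs0.le h1
    linarith

theorem rec_exists (hG : Nice κ G) (hT : ¬ ThinG G) :
    ∃ c₁ N₁ : ℝ, 0 < c₁ ∧ 1 ≤ N₁ ∧ ∀ N : ℝ, 1 ≤ N → ∃ (v S : ℝ) (m : ℕ) (h X : ℕ → ℝ),
      GoodChain G c₁ N₁ N v S m h X := by
  by_cases hB : ∀ B : ℝ, ∃ v, 0 < v ∧ B < SN G 1 v
  · obtain ⟨c₁, h1, h2⟩ := recB hG hB
    exact ⟨c₁, 1, h1, le_rfl, h2⟩
  · push Not at hB
    obtain ⟨B, hB⟩ := hB
    obtain ⟨c₁, h1, h2⟩ := recA hG hT le_rfl hB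
    exact ⟨c₁, 1, h1, le_rfl, h2⟩

end

end Pool.Agent.OB9
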