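import Pool.Agent.OB9.NiB
import Pool.Agent.OB9.EqvInf
import Pool.Agent.OB9.OrlB

/-!
# Module OB9/RgA

Regularization: from `Φ` to a nice `G`.

PROOF. Let `g(t) = Φ(t)/t²`, `C ≥ 2`, `t₀ ≥ 1` such that for `t ≥ t₀`: `Φ t > 0`, `Φ(2t) ≤ C Φ(t)`, and
`g(s) ≤ C g(t)` for `t₀ ≤ s ≤ t`. Growth: for `s ≥ t₀`, `c ∈ [1,2]`: by convexity
`Φ(cs) ≤ (2-c) Φ(s) + (c-1) Φ(2s) ≤ (1 + (c-1)(C-1)) Φ(s) ≤ c^p Φ(s)`, `p` a natural number `≥ C - 1`
(Bernoulli, `one_add_mul_le_pow` for reals needs care: `1 + (C-1) x ≤ 1 + p x ≤ (1+x)^p`); for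
general `c ≥ 1` write `c = d^n`, `d ∈ [1,2]`, and iterate. Hence `g(cs) ≤ c^p g(s)` for `s ≥ t₀`,
`c ≥ 1`. Define `G(t) = sup_{t₀ ≤ s ≤ max t t₀} g(s)/g(t₀)` (finite: `g(s) ≤ C g(max t t₀)`).
`mono`, `one` (`G = 1` on `[0,t₀]`), `tends` clear. `grow`: for `s ∈ [t₀, max (ct) t₀]`: if
`s/c ≥ t₀` then `s/c ≤ max t t₀`.., `g(s) ≤ c^p g(s/c) ≤ c^p g(t₀) G(t)`; if `s/c < t₀` then
`g(s) ≤ (s/t₀)^p g(t₀) ≤ c^p g(t₀) ≤ c^p g(t₀) G(t)`. So `G(ct) ≤ c^p G(t)`: `κ = p`. Comparison: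
`g(t)/g(t₀) ≤ G(t) ≤ C g(t)/g(t₀)` for `t ≥ t₀`. `Eqv Φ (MG G)`: for `t ≥ t₀` `Φ t ≤ A M(t) ≤ M(A t)`
(`QOrl.super`, `A ≥ 1`) and conversely; for `t ≤ t₀` use constants.
-/

set_option autoImplicit false

namespace Pool.Agent.OB9

open MeasureTheory Set Filter
open scoped ENNReal Topology

noncomputable section

variable {Φ : ℝ → ℝ}

private theorem rgA_growth (hΦ : Orl Φ) {C a : ℝ} {p : ℕ} (hp : C - 1 ≤ p)
    (ha : 1 ≤ a) (hd : ∀ t, a ≤ t → Φ (2 * t) ≤ C * Φ t) (n : ℕ) :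
    ∀ c s : ℝ, 1 ≤ c → c ≤ 2 ^ n → a ≤ s → Φ (c * s) ≤ c ^ p * Φ s := by
  have hn0 : ∀ s, 0 ≤ s → 0 ≤ Φ s := fun s hs => hΦ.qorl.nonneg hs
  have base : ∀ c s : ℝ, 1 ≤ c → c ≤ 2 → a ≤ s → Φ (c * s) ≤ c ^ p * Φ s := by
    intro c s h1 h2 hs
    have hs0 : 0 ≤ s := by linarith
    have h3 := hΦ.conv.2 (mem_Ici.2 hs0) (mem_Ici.2 (by linarith : (0 : ℝ) ≤ 2 * s))
      (by linarith : (0 : ℝ) ≤ 2 - c) (by linarith : (0 : ℝ) ≤ c - 1) (by ring)
    simp only [smul_eq_mul] at h3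
    have e : (2 - c) * s + (c - 1) * (2 * s) = c * s := by ring
    rw [e] at h3
    have h4 := hd s hs
    have h5 : Φ (c * s) ≤ (1 + (c - 1) * (C - 1)) * Φ s := by
      have h6 : (c - 1) * Φ (2 * s) ≤ (c - 1) * (C * Φ s) :=
        mul_le_mul_of_nonneg_left h4 (by linarith)
      linarith
    have h7 : (1 + (c - 1) * (C - 1)) ≤ c ^ p := by
      have h8 := one_add_mul_le_pow (by linarith : (-2 : ℝ) ≤ c - 1) p
      have h9 : 1 + (c - 1) = c := by ring
      rw [h9] at h8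
      have h10 : (c - 1) * (C - 1) ≤ (c - 1) * p := mul_le_mul_of_nonneg_left hp (by linarith)
      linarith
    exact h5.trans (mul_le_mul_of_nonneg_right h7 (hn0 s hs0))
  induction n with
  | zero =>
    intro c s h1 h2 hs
    exact base c s h1 (by linarith [h2, pow_zero (2 : ℝ)]) hs
  | succ n ih =>
    intro c s h1 h2 hs
    rcases le_total c 2 with h3 | h3
    · exact base c s h1 h3 hs
    · have h4 := ih (c / 2) (2 * s) (by linarith) (by rw [pow_succ] at h2; linarith)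
        (by linarith)
      have e : c / 2 * (2 * s) = c * s := by ring
      rw [e] at h4
      have h5 := base 2 s (by norm_num) le_rfl hs
      calc Φ (c * s) ≤ (c / 2) ^ p * Φ (2 * s) := h4
        _ ≤ (c / 2) ^ p * (2 ^ p * Φ s) := by gcongr
        _ = c ^ p * Φ s := by rw [← mul_assoc, ← mul_pow]; congr 2; ring

theorem regular (hΦ : Orl Φ) (hq : Tendsto (fun t => Φ t / t ^ 2) atTop atTop)
    (hd : Doubling Φ) (hc : TwoConvex Φ) :
    ∃ (κ : ℕ) (G : ℝ → ℝ) (A t0 : ℝ), Nice κ G ∧ 1 ≤ A ∧ 1 ≤ t0 ∧ Eqv Φ (MG G) ∧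
      ∀ t, t0 ≤ t → Φ t / t ^ 2 ≤ A * G t ∧ G t ≤ A * (Φ t / t ^ 2) := by
  obtain ⟨C1, a1, ha1, hd1⟩ := hd
  obtain ⟨C2, a2, ha2, hc2⟩ := hc
  obtain ⟨a3, ha3⟩ := (tendsto_atTop.1 hq 1).exists_forall_of_atTop
  obtain ⟨C, hC⟩ : ∃ C : ℝ, C = max 2 (max C1 C2) := ⟨_, rfl⟩
  obtain ⟨a, ha⟩ : ∃ a : ℝ, a = max 1 (max a1 (max a2 a3)) := ⟨_, rfl⟩
  have hC2 : 2 ≤ C := hC ▸ le_max_left _ _
  have hCC1 : C1 ≤ C := hC ▸ (le_max_left _ _).trans (le_max_right _ _)
  have hCC2 : C2 ≤ C := hC ▸ (le_max_right _ _).trans (le_max_right _ _)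
  have ha1' : 1 ≤ a := ha ▸ le_max_left _ _
  have haa1 : a1 ≤ a := ha ▸ (le_max_left _ _).trans (le_max_right _ _)
  have haa2 : a2 ≤ a := ha ▸ (le_max_left _ _).trans ((le_max_right _ _).trans (le_max_right _ _))
  have haa3 : a3 ≤ a := ha ▸ (le_max_right _ _).trans ((le_max_right _ _).trans (le_max_right _ _))
  have hn0 : ∀ s, 0 ≤ s → 0 ≤ Φ s := fun s hs => hΦ.qorl.nonneg hs
  -- `g`
  obtain ⟨g, hg⟩ : ∃ g : ℝ → ℝ, ∀ t, g t = Φ t / t ^ 2 := ⟨_, fun _ => rfl⟩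
  have hg1 : ∀ t, a ≤ t → 1 ≤ g t := by
    intro t ht
    rw [hg]
    exact ha3 t (haa3.trans ht)
  have hgc : ∀ s t, a ≤ s → s ≤ t → g s ≤ C * g t := by
    intro s t hs hst
    have h1 := hc2 s t (haa2.trans hs) hst
    rw [← hg, ← hg] at h1
    exact h1.trans (mul_le_mul_of_nonneg_right hCC2 (by linarith [hg1 t (hs.trans hst)]))
  have hd' : ∀ t, a ≤ t → Φ (2 * t) ≤ C * Φ t := by
    intro t ht
    exact (hd1 t (haa1.trans ht)).trans
      (mul_le_mul_of_nonneg_right hCC1 (hn0 t (by linarith)))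
  obtain ⟨p, hp⟩ := exists_nat_ge (C - 1)
  have hgrow : ∀ c s : ℝ, 1 ≤ c → a ≤ s → g (c * s) ≤ c ^ p * g s := by
    intro c s h1 hs
    obtain ⟨n, hn⟩ := pow_unbounded_of_one_lt c (by norm_num : (1 : ℝ) < 2)
    have h2 := rgA_growth hΦ hp ha1' hd' n c s h1 hn.le hs
    have hs0 : 0 < s := by linarith
    have hc0 : 0 < c := by linarith
    rw [hg, hg, mul_pow, div_le_iff₀ (by positivity)]
    calc Φ (c * s) ≤ c ^ p * Φ s := h2
      _ = 1 * (c ^ p * Φ s) := by ring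
      _ ≤ c ^ 2 * (c ^ p * Φ s) := by
        apply mul_le_mul_of_nonneg_right (one_le_pow₀ h1)
        exact mul_nonneg (by positivity) (hn0 s hs0.le)
      _ = c ^ p * (Φ s / s ^ 2) * (c ^ 2 * s ^ 2) := by field_simp
  -- `S`
  obtain ⟨S, hS⟩ : ∃ S : ℝ → ℝ, ∀ t, S t = sSup (g '' Icc a (max t a)) := ⟨_, fun _ => rfl⟩
  have hne : ∀ t, (g '' Icc a (max t a)).Nonempty := fun t =>
    ⟨g a, a, ⟨le_rfl, le_max_right _ _⟩, rfl⟩
  have hbd : ∀ t, BddAbove (g '' Icc a (max t a)) := by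
    intro t
    refine ⟨C * g (max t a), ?_⟩
    rintro _ ⟨s, hs, rfl⟩
    exact hgc s _ hs.1 hs.2
  have hSge : ∀ s t, a ≤ s → s ≤ max t a → g s ≤ S t := by
    intro s t h1 h2
    rw [hS]
    exact le_csSup (hbd t) ⟨s, ⟨h1, h2⟩, rfl⟩
  have hSle : ∀ t B, (∀ s, a ≤ s → s ≤ max t a → g s ≤ B) → S t ≤ B := by
    intro t B h
    rw [hS]
    refine csSup_le (hne t) ?_
    rintro _ ⟨s, hs, rfl⟩
    exact h s hs.1 hs.2
  have hga : 1 ≤ g a := hg1 a le_rfl
  have hga0 : 0 < g a := by linarith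
  have hSa : ∀ t, g a ≤ S t := fun t => hSge a t le_rfl (le_max_right _ _)
  have hmono : ∀ s t, s ≤ t → S s ≤ S t := by
    intro s t hst
    refine hSle s _ fun r h1 h2 => hSge r t h1 (h2.trans (max_le_max hst le_rfl))
  have hone : ∀ t, t ≤ a → S t = g a := by
    intro t ht
    refine le_antisymm (hSle t _ ?_) (hSa t)
    intro s h1 h2
    rw [max_eq_right ht] at h2
    rw [le_antisymm h2 h1]
  have hSgrow : ∀ c t : ℝ, 1 ≤ c → 0 ≤ t → S (c * t) ≤ c ^ p * S t := by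
    intro c t h1 ht
    have hc0 : 0 < c := by linarith
    have hcp : 0 < c ^ p := by positivity
    refine hSle _ _ ?_
    intro s hs hs2
    rcases le_total a (s / c) with h2 | h2
    · have h3 : s / c ≤ max t a := by
        rcases le_total (c * t) a with h4 | h4
        · rw [max_eq_right h4] at hs2
          refine le_trans ?_ (le_max_right _ _)
          rw [div_le_iff₀ hc0]
          nlinarith
        · rw [max_eq_left h4] at hs2
          refine le_trans ?_ (le_max_left _ _)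
          rw [div_le_iff₀ hc0]
          linarith
      have h4 := hgrow c (s / c) h1 h2
      have e : c * (s / c) = s := by field_simp
      rw [e] at h4
      exact h4.trans (mul_le_mul_of_nonneg_left (hSge _ t h2 h3) hcp.le)
    · have ha0 : 0 < a := by linarith
      have h3 : 1 ≤ s / a := by rw [le_div_iff₀ ha0]; linarith
      have h4 := hgrow (s / a) a h3 le_rfl
      have e : s / a * a = s := by field_simp
      rw [e] at h4
      have h5 : s / a ≤ c := by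
        rw [div_le_iff₀ ha0]
        rw [div_le_iff₀ hc0] at h2
        linarith
      have h6 : (s / a) ^ p ≤ c ^ p := pow_le_pow_left₀ (by linarith) h5 p
      calc g s ≤ (s / a) ^ p * g a := h4
        _ ≤ c ^ p * g a := mul_le_mul_of_nonneg_right h6 hga0.le
        _ ≤ c ^ p * S t := mul_le_mul_of_nonneg_left (hSa t) hcp.le
  -- `G`
  obtain ⟨G, hG⟩ : ∃ G : ℝ → ℝ, ∀ t, G t = S t / g a := ⟨_, fun _ => rfl⟩
  have hN : Nice p G := by
    refine ⟨?_, ?_, ?_, ?_⟩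
    · intro s _ t _ hst
      rw [hG, hG]
      exact div_le_div_of_nonneg_right (hmono s t hst) hga0.le
    · intro t _ ht
      rw [hG, hone t (ht.trans ha1'), div_self hga0.ne']
    · intro c t h1 ht
      rw [hG, hG, ← mul_div_assoc]
      exact div_le_div_of_nonneg_right (hSgrow c t h1 ht) hga0.le
    · have h1 : Tendsto (fun t => Φ t / t ^ 2 / g a) atTop atTop := hq.atTop_div_const hga0
      refine tendsto_atTop_mono' _ ?_ h1
      filter_upwards [eventually_ge_atTop a] with t ht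
      rw [hG, ← hg]
      exact div_le_div_of_nonneg_right (hSge t t ht (le_max_left _ _)) hga0.le
  have hcmp : ∀ t, a ≤ t → g t ≤ g a * G t ∧ G t ≤ C * g t := by
    intro t ht
    constructor
    · rw [hG, mul_div_cancel₀ _ hga0.ne']
      exact hSge t t ht (le_max_left _ _)
    · rw [hG, div_le_iff₀ hga0]
      refine hSle t _ ?_
      intro s h1 h2
      rw [max_eq_left ht] at h2
      have h3 := hgc s t h1 h2
      have h4 : 0 < g t := by linarith [hg1 t ht]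
      have h5 : C * g t ≤ C * g t * g a := le_mul_of_one_le_right (by positivity) hga
      linarith
  have hG0 : ∀ t, 0 ≤ t → 1 ≤ G t := fun t ht => hN.one_le ht
  have hA1 : 1 ≤ C + g a := by linarith
  have hcmp2 : ∀ t, a ≤ t → Φ t / t ^ 2 ≤ (C + g a) * G t ∧ G t ≤ (C + g a) * (Φ t / t ^ 2) := by
    intro t ht
    obtain ⟨h1, h2⟩ := hcmp t ht
    have h3 := hG0 t (by linarith)
    have h4 := hg1 t ht
    rw [← hg]
    constructor
    · nlinarith
    · nlinarith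
  refine ⟨p, G, C + g a, a, hN, hA1, ha1', ?_, hcmp2⟩
  have hq' := hN.qorl
  have hΦa : 0 ≤ Φ a := hn0 a (by linarith)
  have hAC : C + g a ≤ C + g a + Φ a + a ^ 2 := by nlinarith
  refine ⟨C + g a + Φ a + a ^ 2, by linarith, ?_⟩
  intro t ht
  have hC't : 0 ≤ (C + g a + Φ a + a ^ 2) * t := mul_nonneg (by linarith) ht
  rcases le_total a t with h1 | h1
  · obtain ⟨h2, h3⟩ := hcmp2 t h1
    have ht0 : 0 < t := by linarith
    have hAt : 0 ≤ (C + g a) * t := mul_nonneg (by linarith) ht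
    have hle : (C + g a) * t ≤ (C + g a + Φ a + a ^ 2) * t :=
      mul_le_mul_of_nonneg_right hAC ht
    constructor
    · have h4 : Φ t ≤ (C + g a) * MG G t := by
        rw [div_le_iff₀ (by positivity)] at h2
        calc Φ t ≤ (C + g a) * G t * t ^ 2 := h2
          _ = (C + g a) * MG G t := by unfold MG; ring
      have h5 := hq'.super hA1 ht
      have h6 := hq'.mono (mem_Ici.2 hAt) (mem_Ici.2 hC't) hle
      linarith
    · have h4 : MG G t ≤ (C + g a) * Φ t := by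
        calc MG G t = t ^ 2 * G t := rfl
          _ ≤ t ^ 2 * ((C + g a) * (Φ t / t ^ 2)) := by gcongr
          _ = (C + g a) * Φ t := by field_simp
      have h5 := hΦ.qorl.super hA1 ht
      have h6 := hΦ.qorl.mono (mem_Ici.2 hAt) (mem_Ici.2 hC't) hle
      linarith
  · constructor
    · have h2 := hΦ.mono (mem_Ici.2 ht) (mem_Ici.2 (ht.trans h1)) h1
      have h3 := hq'.nonneg hC't
      nlinarith
    · have h2 := hq'.mono (mem_Ici.2 ht) (mem_Ici.2 (ht.trans h1)) h1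
      have h3 := hn0 _ hC't
      have h4 : MG G a = a ^ 2 := by
        unfold MG
        rw [hG, hone a le_rfl, div_self hga0.ne', mul_one]
      nlinarith

end

end Pool.Agent.OB9
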