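import Pool.Agent.OB9.NiB

/-!
# Module OB9/RsA

Rademacher averages over all signs `ε : Fin n → Bool`.

Notation: `sg ε i = ±1`, `avg F = (∑_ε F ε)/2^n`.

PROOF. `avg_sq`: `∑_ε (∑ sg ε i a_i)² = 2^n ∑ a_i²` (induction on `n`, or
`∑_ε sg ε i sg ε j = 0` for `i ≠ j`). `avg_exp`: `avg exp(θ S) = ∏ cosh(θ a_i) ≤ exp(θ² A²/2)`
(`Fintype.sum_pow`-like product formula: `∑_{ε} ∏_i f_i(ε_i) = ∏_i ∑_b f_i b`,
`Finset.prod_univ_sum`; `Real.cosh_le_exp_half_sq`). `avg_pow`: for `A > 0`:
`(S/A)^(2m)/(2m)! ≤ cosh(S/A)` (`Real.cosh` series) so `avg S^(2m) ≤ (2m)! A^(2m) exp(1/2) ≤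
2 (2m)! A^(2m)`; if `A = 0` all `a_i = 0` (for `m = 0` the bound is `1 ≤ 2`). `avg_low`:
`avg M|S| ≥ avg S² G(A/2) 1_{|S| ≥ A/2} ≥ G(A/2) (A² - A²/4)` and
`M(A) = A² G(A) ≤ 2^κ A² G(A/2)`, `(4/3) 2^κ ≤ 2^(κ+1)`. `sum_le_MG`: `a_i² G|a_i| ≤ a_i² G(A)`.
-/

set_option autoImplicit false

namespace Pool.Agent.OB9

open MeasureTheory Set Filter
open scoped ENNReal Topology

noncomputable section

variable {κ : ℕ} {G : ℝ → ℝ}

/-- The sign `±1`. -/
def sg {n : ℕ} (ε : Fin n → Bool) (i : Fin n) : ℝ := if ε i then 1 else -1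

/-- The average over all signs. -/
def avg {n : ℕ} (F : (Fin n → Bool) → ℝ) : ℝ := (∑ ε, F ε) / 2 ^ n

private theorem rsA_prod {n : ℕ} (f : Fin n → Bool → ℝ) :
    ∑ ε : Fin n → Bool, ∏ i, f i (ε i) = ∏ i, (f i true + f i false) := by
  have h := (Finset.prod_univ_sum (fun _ : Fin n => (Finset.univ : Finset Bool)) f).symm
  rw [Fintype.piFinset_univ] at h
  rw [h]
  refine Finset.prod_congr rfl fun i _ => ?_
  rw [Fintype.sum_bool]

private theorem rsA_sg {n : ℕ} (i j : Fin n) :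
    ∑ ε : Fin n → Bool, sg ε i * sg ε j = if i = j then 2 ^ n else 0 := by
  have h1 : ∀ ε : Fin n → Bool, sg ε i * sg ε j =
      ∏ k, ((if k = i then (if ε k then (1 : ℝ) else -1) else 1) *
        (if k = j then (if ε k then (1 : ℝ) else -1) else 1)) := by
    intro ε
    rw [Finset.prod_mul_distrib, Finset.prod_ite_eq' Finset.univ i,
      Finset.prod_ite_eq' Finset.univ j]
    simp [sg]
  rw [Finset.sum_congr rfl fun ε _ => h1 ε,
    rsA_prod (fun k b => (if k = i then (if b then (1 : ℝ) else -1) else 1) *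
        (if k = j then (if b then (1 : ℝ) else -1) else 1))]
  by_cases h : i = j
  · subst h
    have e0 : (if i = i then (2 : ℝ) ^ n else 0) = 2 ^ n := if_pos rfl
    rw [e0]
    have : ∀ k : Fin n, ((if k = i then (if true = true then (1 : ℝ) else -1) else 1) *
        (if k = i then (if true = true then (1 : ℝ) else -1) else 1) +
        (if k = i then (if false = true then (1 : ℝ) else -1) else 1) *
        (if k = i then (if false = true then (1 : ℝ) else -1) else 1)) = 2 := by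
      intro k
      by_cases hk : k = i
      · simp [hk]
        norm_num
      · simp [hk]
        norm_num
    rw [Finset.prod_congr rfl fun k _ => this k, Finset.prod_const, Finset.card_univ,
      Fintype.card_fin]
  · rw [if_neg h]
    refine Finset.prod_eq_zero (Finset.mem_univ i) ?_
    simp [h]

private theorem rsA_add {n : ℕ} (F F' : (Fin n → Bool) → ℝ) :
    avg (fun ε => F ε + F' ε) = avg F + avg F' := by
  unfold avg
  rw [Finset.sum_add_distrib, add_div]

private theorem rsA_mul {n : ℕ} (c : ℝ) (F : (Fin n → Bool) → ℝ) :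
    avg (fun ε => c * F ε) = c * avg F := by
  unfold avg
  rw [← Finset.mul_sum, mul_div_assoc]

private theorem rsA_const {n : ℕ} (c : ℝ) : avg (fun _ : Fin n → Bool => c) = c := by
  unfold avg
  rw [Finset.sum_const, Finset.card_univ, Fintype.card_fun, Fintype.card_bool, Fintype.card_fin,
    nsmul_eq_mul]
  push_cast
  field_simp

private theorem rsA_mono {n : ℕ} {F F' : (Fin n → Bool) → ℝ} (h : ∀ ε, F ε ≤ F' ε) :
    avg F ≤ avg F' := by
  unfold avg
  apply div_le_div_of_nonneg_right _ (by positivity)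
  exact Finset.sum_le_sum fun ε _ => h ε

theorem avg_sq {n : ℕ} (a : Fin n → ℝ) : avg (fun ε => (∑ i, sg ε i * a i) ^ 2) = ∑ i, a i ^ 2 := by
  unfold avg
  have h1 : ∑ ε : Fin n → Bool, (∑ i, sg ε i * a i) ^ 2 =
      ∑ i, ∑ j, a i * a j * ∑ ε : Fin n → Bool, sg ε i * sg ε j := by
    have h2 : ∀ ε : Fin n → Bool, (∑ i, sg ε i * a i) ^ 2 =
        ∑ i, ∑ j, a i * a j * (sg ε i * sg ε j) := by
      intro ε
      rw [sq, Finset.sum_mul_sum]
      exact Finset.sum_congr rfl fun i _ => Finset.sum_congr rfl fun j _ => by ring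
    rw [Finset.sum_congr rfl fun ε _ => h2 ε, Finset.sum_comm]
    refine Finset.sum_congr rfl fun i _ => ?_
    rw [Finset.sum_comm]
    exact Finset.sum_congr rfl fun j _ => (Finset.mul_sum _ _ _).symm
  rw [h1, div_eq_iff (by positivity), Finset.sum_mul]
  refine Finset.sum_congr rfl fun i _ => ?_
  simp only [rsA_sg, mul_ite, mul_zero, Finset.sum_ite_eq, Finset.mem_univ, if_true]
  ring

private theorem rsA_exp {n : ℕ} (a : Fin n → ℝ) :
    avg (fun ε => Real.exp (∑ i, sg ε i * a i)) = ∏ i, Real.cosh (a i) := by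
  unfold avg
  have h1 : ∀ ε : Fin n → Bool, Real.exp (∑ i, sg ε i * a i) =
      ∏ i, (fun (i : Fin n) (b : Bool) => Real.exp ((if b then 1 else -1) * a i)) i (ε i) := by
    intro ε
    rw [Real.exp_sum]
    rfl
  rw [Finset.sum_congr rfl fun ε _ => h1 ε,
    rsA_prod (fun (i : Fin n) (b : Bool) => Real.exp ((if b then 1 else -1) * a i))]
  have h2 : ∀ i : Fin n, Real.exp ((if true = true then 1 else -1) * a i) +
      Real.exp ((if false = true then 1 else -1) * a i) = 2 * Real.cosh (a i) := by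
    intro i
    rw [Real.cosh_eq]
    simp
    ring
  rw [Finset.prod_congr rfl fun i _ => h2 i, Finset.prod_mul_distrib, Finset.prod_const,
    Finset.card_univ, Fintype.card_fin]
  field_simp

private theorem rsA_cosh {n : ℕ} (a : Fin n → ℝ) :
    avg (fun ε => Real.cosh (∑ i, sg ε i * a i)) ≤ Real.exp ((∑ i, a i ^ 2) / 2) := by
  have h1 : ∀ ε : Fin n → Bool, Real.cosh (∑ i, sg ε i * a i) =
      (1 / 2) * Real.exp (∑ i, sg ε i * a i) + (1 / 2) * Real.exp (∑ i, sg ε i * -a i) := by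
    intro ε
    rw [Real.cosh_eq]
    have : ∑ i, sg ε i * -a i = -∑ i, sg ε i * a i := by
      simp only [mul_neg, Finset.sum_neg_distrib]
    rw [this]
    ring
  have h2 : avg (fun ε => Real.cosh (∑ i, sg ε i * a i)) = ∏ i, Real.cosh (a i) := by
    rw [show (fun ε => Real.cosh (∑ i, sg ε i * a i)) = fun ε : Fin n → Bool =>
      (1 / 2) * Real.exp (∑ i, sg ε i * a i) + (1 / 2) * Real.exp (∑ i, sg ε i * -a i) from
      funext h1, rsA_add, rsA_mul, rsA_mul, rsA_exp, rsA_exp (fun i => -a i)]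
    simp only [Real.cosh_neg]
    ring
  rw [h2, Finset.sum_div, Real.exp_sum]
  exact Finset.prod_le_prod (fun i _ => (Real.cosh_pos _).le)
    fun i _ => Real.cosh_le_exp_half_sq _

private theorem rsA_pow_le (x : ℝ) (m : ℕ) : x ^ (2 * m) ≤ (2 * m).factorial * Real.cosh x := by
  have h := Real.hasSum_cosh x
  have h1 := le_hasSum h m (fun j _ => by
    have : 0 ≤ x ^ (2 * j) := by
      rw [pow_mul]
      positivity
    positivity)
  rw [div_le_iff₀ (by positivity)] at h1
  linarith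

theorem avg_pow {n : ℕ} (a : Fin n → ℝ) (m : ℕ) :
    avg (fun ε => (∑ i, sg ε i * a i) ^ (2 * m)) ≤
      2 * (2 * m).factorial * (∑ i, a i ^ 2) ^ m := by
  set B : ℝ := ∑ i, a i ^ 2 with hB
  have hB0 : 0 ≤ B := Finset.sum_nonneg fun i _ => sq_nonneg _
  rcases hB0.lt_or_eq with hBp | hBz
  · set A : ℝ := Real.sqrt B with hA
    have hAp : 0 < A := Real.sqrt_pos.2 hBp
    have hA2 : A ^ 2 = B := Real.sq_sqrt hB0
    have h1 : ∀ ε : Fin n → Bool, (∑ i, sg ε i * a i) ^ (2 * m) ≤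
        (2 * m).factorial * B ^ m * Real.cosh (∑ i, sg ε i * (a i / A)) := by
      intro ε
      have e1 : ∑ i, sg ε i * a i = A * ∑ i, sg ε i * (a i / A) := by
        rw [Finset.mul_sum]
        refine Finset.sum_congr rfl fun i _ => ?_
        field_simp
      have h2 := rsA_pow_le (∑ i, sg ε i * (a i / A)) m
      rw [e1, mul_pow]
      have e2 : A ^ (2 * m) = B ^ m := by rw [pow_mul, hA2]
      rw [e2]
      have h3 := mul_le_mul_of_nonneg_left h2 (pow_nonneg hB0 m)
      linarith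
    have h2 := rsA_mono h1
    rw [rsA_mul] at h2
    have h3 := rsA_cosh (fun i => a i / A)
    have e3 : (∑ i, (a i / A) ^ 2) / 2 = 1 / 2 := by
      simp only [div_pow, hA2]
      rw [← Finset.sum_div, ← hB, div_self hBp.ne']
    rw [e3] at h3
    have h4 : Real.exp (1 / 2) ≤ 2 := by
      have h5 : Real.exp (1 / 2) ^ 2 = Real.exp 1 := by
        rw [← Real.exp_nat_mul]
        norm_num
      have h6 := Real.exp_one_lt_d9
      have h7 : Real.exp (1 / 2) ^ 2 ≤ 2 ^ 2 := by
        rw [h5]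
        norm_num at h6 ⊢
        linarith
      nlinarith [Real.exp_pos (1 / 2)]
    have h5 : 0 ≤ ((2 * m).factorial : ℝ) * B ^ m := by positivity
    refine h2.trans ((mul_le_mul_of_nonneg_left (h3.trans h4) h5).trans (le_of_eq ?_))
    ring
  · have ha : ∀ i, a i = 0 := by
      intro i
      have := (Finset.sum_eq_zero_iff_of_nonneg (fun i _ => sq_nonneg (a i))).1 hBz.symm i
        (Finset.mem_univ i)
      exact pow_eq_zero_iff (two_ne_zero) |>.1 this
    have h1 : (fun ε : Fin n → Bool => (∑ i, sg ε i * a i) ^ (2 * m)) = fun _ => (0 : ℝ) ^ (2 * m) := by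
      funext ε
      congr 1
      exact Finset.sum_eq_zero fun i _ => by rw [ha i, mul_zero]
    rw [h1, rsA_const, ← hBz]
    rcases Nat.eq_zero_or_pos m with rfl | hm
    · norm_num
    · rw [zero_pow (by omega), zero_pow (by omega), mul_zero]

theorem avg_low (hG : Nice κ G) {n : ℕ} (a : Fin n → ℝ) :
    MG G (Real.sqrt (∑ i, a i ^ 2)) ≤ 2 ^ (κ + 1) * avg (fun ε => MG G |∑ i, sg ε i * a i|) := by
  set B : ℝ := ∑ i, a i ^ 2 with hB
  have hB0 : 0 ≤ B := Finset.sum_nonneg fun i _ => sq_nonneg _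
  set A : ℝ := Real.sqrt B with hA
  have hA0 : 0 ≤ A := Real.sqrt_nonneg B
  have hA2 : A ^ 2 = B := Real.sq_sqrt hB0
  have hg0 : 0 ≤ G (A / 2) := zero_le_one.trans (hG.one_le (by positivity))
  have h1 : ∀ ε : Fin n → Bool, G (A / 2) * (∑ i, sg ε i * a i) ^ 2 + -(G (A / 2) * (A ^ 2 / 4)) ≤
      MG G |∑ i, sg ε i * a i| := by
    intro ε
    set S : ℝ := ∑ i, sg ε i * a i with hS
    have hgs : 0 ≤ G |S| := zero_le_one.trans (hG.one_le (abs_nonneg S))
    unfold MG
    rw [sq_abs]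
    rcases le_total (A / 2) |S| with h | h
    · have h2 : G (A / 2) ≤ G |S| := hG.mono (show A / 2 ∈ Ici (0 : ℝ) by
        exact Set.mem_Ici.2 (by positivity)) (Set.mem_Ici.2 (abs_nonneg S)) h
      have h3 := mul_le_mul_of_nonneg_left h2 (sq_nonneg S)
      have h4 : 0 ≤ G (A / 2) * (A ^ 2 / 4) := by positivity
      linarith
    · have h2 : S ^ 2 ≤ A ^ 2 / 4 := by
        rw [← sq_abs]
        have := pow_le_pow_left₀ (abs_nonneg S) h 2
        linarith [this, show (A / 2) ^ 2 = A ^ 2 / 4 by ring]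
      have h3 := mul_le_mul_of_nonneg_left h2 hg0
      have h4 : 0 ≤ S ^ 2 * G |S| := by positivity
      linarith
  have h2 := rsA_mono h1
  rw [rsA_add, rsA_mul, avg_sq, rsA_const, ← hB, ← hA2] at h2
  have h3 : G A ≤ 2 ^ κ * G (A / 2) := by
    have := hG.grow 2 (A / 2) one_le_two (by positivity)
    rwa [show 2 * (A / 2) = A by ring] at this
  have h4 : MG G A ≤ 2 ^ κ * (G (A / 2) * A ^ 2) := by
    unfold MG
    have := mul_le_mul_of_nonneg_left h3 (sq_nonneg A)
    linarith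
  have h5 : G (A / 2) * A ^ 2 ≤ 2 * avg (fun ε => MG G |∑ i, sg ε i * a i|) := by
    have h6 : 0 ≤ G (A / 2) * A ^ 2 := by positivity
    linarith
  calc MG G A ≤ 2 ^ κ * (G (A / 2) * A ^ 2) := h4
    _ ≤ 2 ^ κ * (2 * avg (fun ε => MG G |∑ i, sg ε i * a i|)) :=
        mul_le_mul_of_nonneg_left h5 (by positivity)
    _ = 2 ^ (κ + 1) * avg (fun ε => MG G |∑ i, sg ε i * a i|) := by ring

theorem sum_le_MG (hG : Nice κ G) {n : ℕ} (a : Fin n → ℝ) :
    ∑ i, MG G |a i| ≤ MG G (Real.sqrt (∑ i, a i ^ 2)) := by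
  have hB0 : 0 ≤ ∑ i, a i ^ 2 := Finset.sum_nonneg fun i _ => sq_nonneg _
  set A : ℝ := Real.sqrt (∑ i, a i ^ 2) with hA
  have hA2 : A ^ 2 = ∑ i, a i ^ 2 := Real.sq_sqrt hB0
  have h1 : ∀ i, MG G |a i| ≤ a i ^ 2 * G A := by
    intro i
    unfold MG
    rw [sq_abs]
    apply mul_le_mul_of_nonneg_left _ (sq_nonneg _)
    refine hG.mono (Set.mem_Ici.2 (abs_nonneg _)) (Set.mem_Ici.2 (Real.sqrt_nonneg _)) ?_
    apply Real.abs_le_sqrt
    exact Finset.single_le_sum (f := fun i => a i ^ 2) (fun i _ => sq_nonneg _) (Finset.mem_univ i)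
  refine (Finset.sum_le_sum fun i _ => h1 i).trans ?_
  rw [← Finset.sum_mul, ← hA2]
  exact le_rfl

end

end Pool.Agent.OB9
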