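import Pool.Agent.OB9.NiB

/-!
# Module OB9/SelA

Selection: from a chain to a double chain. All `X` are given by `Th (h i) Th (X i) = Th v`.

PROOF. (a) `Chain.eq`: given a chain `(h, X)` replace `X i` by the solution `X' i ≥ X i` of
`Th (X' i) = Th v / Th (h i)` (`Th_surj`; `Th (h i) > 0` as `h i ≥ N ≥ 1`).
(b) For a chain with equality put `τ_i = h_i X_i/v = G(v)/(G(h_i) G(X_i))`. The `h_i` increase
(`lt_of_two_mul`), so the `X_i` strictly decrease. Let `κ_i = ⌊log₂ G(X_i)⌋` (`Nat.log 2 ⌊G(X_i)⌋₊`),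
nonincreasing in `i`. If `i < i'` have the same `κ`, then `τ_{i'}/τ_i = G(h_i)G(X_i)/(G(h_{i'})G(X_{i'}))
≤ 2 · 2^{-(i'-i)}`. So the sum of `τ` over each level set of `κ` is at most
`τ_first (1 + 2 (1/2 + 1/4 + ...)) ≤ 3 τ_first`. Let `F₀` (`F₁`) be the set of first indices of the
level sets with `κ` even (odd): one of the two has `∑ τ ≥ (1/6) ∑_{all} τ`. For consecutive elements
`i < i'` of that set `κ_i ≥ κ_{i'} + 2`, so `G(X_i) ≥ 2^{κ_i} ≥ 2 · 2^{κ_{i'}+1} ≥ 2 G(X_{i'})`.
Reindex it increasingly (`Finset.orderEmbOfFin` or `Finset.sort`). `2 G(h) ≤ G(h')` is kept for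
subsequences (monotone).
-/

set_option autoImplicit false

namespace Pool.Agent.OB9

open MeasureTheory Set Filter
open scoped ENNReal Topology

noncomputable section

variable {κ : ℕ} {G : ℝ → ℝ}

theorem Chain.eq (hG : Nice κ G) {N v : ℝ} {m : ℕ} {h X : ℕ → ℝ} (hN : 1 ≤ N) (hv : 0 < v)
    (hc : Chain G N v m h X) : ∃ X' : ℕ → ℝ, Chain G N v m h X' ∧
      (∀ i < m, X i ≤ X' i ∧ Th G (h i) * Th G (X' i) = Th G v) := by
  have hpos : ∀ t : ℝ, 1 ≤ t → 0 < Th G t := by
    intro t ht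
    have h1 := hG.one_le (t := t) (by linarith)
    exact mul_pos (by linarith) (by linarith)
  have hv0 : 0 ≤ Th G v := by
    have h1 := hG.one_le hv.le
    exact mul_nonneg hv.le (by linarith)
  have hex : ∀ i, ∃ x : ℝ, i < m → (0 ≤ x ∧ Th G x = Th G v / Th G (h i)) := by
    intro i
    by_cases hi : i < m
    · have h1 := (hc.1 i hi).1
      obtain ⟨x, hx, hx'⟩ := hG.Th_surj (y := Th G v / Th G (h i))
        (div_nonneg hv0 (hpos _ (hN.trans h1)).le)
      exact ⟨x, fun _ => ⟨hx, hx'⟩⟩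
    · exact ⟨0, fun h => absurd h hi⟩
  choose X' hX' using hex
  have key : ∀ i < m, X i ≤ X' i ∧ Th G (h i) * Th G (X' i) = Th G v := by
    intro i hi
    obtain ⟨h1, h2, h3⟩ := hc.1 i hi
    obtain ⟨h4, h5⟩ := hX' i hi
    have h6 := hpos _ (hN.trans h1)
    refine ⟨(hG.Th_le_iff (by linarith) h4).1 ?_, ?_⟩
    · rw [h5, le_div_iff₀ h6, mul_comm]
      exact h3
    · rw [h5]
      field_simp
  refine ⟨X', ⟨fun i hi => ?_, hc.2⟩, key⟩
  obtain ⟨h1, h2, h3⟩ := hc.1 i hi
  obtain ⟨h4, h5⟩ := key i hi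
  exact ⟨h1, h2.trans h4, h5.le⟩

private def selaW (k : ℕ) : ℝ := if k = 0 then 1 else 2 * (1 / 2 : ℝ) ^ k

private theorem selaW_nonneg (k : ℕ) : 0 ≤ selaW k := by
  unfold selaW
  split_ifs <;> positivity

private theorem selaW_sum (n : ℕ) :
    ∑ k ∈ Finset.range (n + 1), selaW k = 3 - 2 * (1 / 2 : ℝ) ^ n := by
  induction n with
  | zero => simp [selaW]; norm_num
  | succ n ih =>
    rw [Finset.sum_range_succ, ih]
    simp only [selaW, Nat.succ_ne_zero, if_false, pow_succ]
    ring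

private theorem selaW_sum_le (n : ℕ) : ∑ k ∈ Finset.range n, selaW k ≤ 3 := by
  cases n with
  | zero => simp
  | succ n =>
    rw [selaW_sum]
    have : 0 ≤ 2 * (1 / 2 : ℝ) ^ n := by positivity
    linarith

private theorem sela_comb {m : ℕ} {τ : ℕ → ℝ} {K : ℕ → ℕ} (hτ : ∀ i < m, 0 ≤ τ i)
    (hK : ∀ i i', i < i' → i' < m → K i' ≤ K i)
    (hd : ∀ i i', i < i' → i' < m → K i' = K i → τ i' ≤ 2 * (1 / 2 : ℝ) ^ (i' - i) * τ i) :
    ∃ F : Finset ℕ, F ⊆ Finset.range m ∧ (∀ i ∈ F, ∀ i' ∈ F, i < i' → K i' + 2 ≤ K i) ∧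
      ∑ i ∈ Finset.range m, τ i ≤ 6 * ∑ i ∈ F, τ i := by
  classical
  set F0 : Finset ℕ := (Finset.range m).filter fun i => ∀ j < i, K j ≠ K i with hF0
  have hex : ∀ i, ∃ j, K j = K i := fun i => ⟨i, rfl⟩
  set f : ℕ → ℕ := fun i => Nat.find (hex i) with hf
  have f1 : ∀ i, K (f i) = K i := fun i => Nat.find_spec (hex i)
  have f2 : ∀ i, f i ≤ i := fun i => Nat.find_min' (hex i) rfl
  have f3 : ∀ i, ∀ j < f i, K j ≠ K i := fun i j hj => Nat.find_min (hex i) hj
  have hmap : ∀ i ∈ Finset.range m, f i ∈ F0 := by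
    intro i hi
    rw [Finset.mem_range] at hi
    refine Finset.mem_filter.2 ⟨Finset.mem_range.2 ((f2 i).trans_lt hi), fun j hj => ?_⟩
    rw [f1 i]
    exact f3 i j hj
  have hfib : ∀ j ∈ F0, ∑ i ∈ (Finset.range m).filter (fun i => f i = j), τ i ≤ 3 * τ j := by
    intro j hj
    rw [hF0, Finset.mem_filter, Finset.mem_range] at hj
    have h0 := hτ j hj.1
    have h1 : ∑ i ∈ (Finset.range m).filter (fun i => f i = j), τ i ≤
        ∑ i ∈ Finset.Ico j m, selaW (i - j) * τ j := by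
      refine (Finset.sum_le_sum (g := fun i => selaW (i - j) * τ j) ?_).trans
        (Finset.sum_le_sum_of_subset_of_nonneg ?_ ?_)
      · intro i hi
        rw [Finset.mem_filter, Finset.mem_range] at hi
        have h2 : j ≤ i := by rw [← hi.2]; exact f2 i
        rcases h2.eq_or_lt with h3 | h3
        · rw [← h3]
          simp [selaW]
        · have h4 := hd j i h3 hi.1 (by rw [← f1 i, hi.2])
          have h5 : i - j ≠ 0 := by omega
          simp only [selaW, h5, if_false]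
          exact h4
      · intro i hi
        rw [Finset.mem_filter, Finset.mem_range] at hi
        rw [Finset.mem_Ico]
        exact ⟨by rw [← hi.2]; exact f2 i, hi.1⟩
      · intro i _ _
        exact mul_nonneg (selaW_nonneg _) h0
    refine h1.trans ?_
    rw [Finset.sum_Ico_eq_sum_range]
    simp only [Nat.add_sub_cancel_left]
    rw [← Finset.sum_mul]
    exact mul_le_mul_of_nonneg_right (selaW_sum_le _) h0
  have hall : ∑ i ∈ Finset.range m, τ i ≤ 3 * ∑ i ∈ F0, τ i := by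
    rw [← Finset.sum_fiberwise_of_maps_to hmap, Finset.mul_sum]
    exact Finset.sum_le_sum hfib
  have hsplit := Finset.sum_filter_add_sum_filter_not F0 (fun i => K i % 2 = 0) τ
  have hfirst : ∀ i ∈ F0, ∀ i' ∈ F0, i < i' → K i' < K i := by
    intro i hi i' hi' hlt
    rw [hF0, Finset.mem_filter, Finset.mem_range] at hi hi'
    exact lt_of_le_of_ne (hK i i' hlt hi'.1) (fun h => hi'.2 i hlt h.symm)
  have hsub0 : F0 ⊆ Finset.range m := Finset.filter_subset _ _
  rcases le_total (∑ i ∈ F0.filter (fun i => K i % 2 = 0), τ i)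
    (∑ i ∈ F0.filter (fun i => ¬ K i % 2 = 0), τ i) with hle | hle
  · refine ⟨F0.filter (fun i => ¬ K i % 2 = 0), (Finset.filter_subset _ _).trans hsub0, ?_, ?_⟩
    · intro i hi i' hi' hlt
      rw [Finset.mem_filter] at hi hi'
      have := hfirst i hi.1 i' hi'.1 hlt
      omega
    · linarith
  · refine ⟨F0.filter (fun i => K i % 2 = 0), (Finset.filter_subset _ _).trans hsub0, ?_, ?_⟩
    · intro i hi i' hi' hlt
      rw [Finset.mem_filter] at hi hi'
      have := hfirst i hi.1 i' hi'.1 hlt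
      omega
    · linarith

private theorem sela_reindex (F : Finset ℕ) : ∃ e : ℕ → ℕ, (∀ k < F.card, e k ∈ F) ∧
    (∀ k, k + 1 < F.card → e k < e (k + 1)) ∧
    ∀ g : ℕ → ℝ, ∑ k ∈ Finset.range F.card, g (e k) = ∑ i ∈ F, g i := by
  classical
  set o := F.orderEmbOfFin rfl with ho
  refine ⟨fun k => if hk : k < F.card then o ⟨k, hk⟩ else 0, fun k hk => ?_, fun k hk => ?_,
    fun g => ?_⟩
  · simp only [hk, dif_pos]
    exact F.orderEmbOfFin_mem rfl _
  · have hk' : k < F.card := by omega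
    simp only [hk, hk', dif_pos]
    exact o.strictMono (by simp [Fin.lt_def])
  · rw [Finset.sum_range]
    simp only [Fin.is_lt, dif_pos, Fin.eta]
    conv_rhs => rw [← F.map_orderEmbOfFin_univ rfl]
    rw [Finset.sum_map]
    rfl

theorem select (hG : Nice κ G) {N v : ℝ} {m : ℕ} {h X : ℕ → ℝ} (hN : 1 ≤ N) (hv : 0 < v)
    (hc : Chain G N v m h X) : ∃ (m' : ℕ) (h' X' : ℕ → ℝ), Chain G N v m' h' X' ∧
      (∀ i < m', Th G (h' i) * Th G (X' i) = Th G v) ∧
      (∀ i, i + 1 < m' → 2 * G (X' (i + 1)) ≤ G (X' i)) ∧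
      ∑ i ∈ Finset.range m, h i * X i ≤ 6 * ∑ i ∈ Finset.range m', h' i * X' i := by
  obtain ⟨Y, hY, hYe⟩ := hc.eq hG hN hv
  have hh1 : ∀ i < m, 1 ≤ h i := fun i hi => hN.trans (hY.1 i hi).1
  have hY1 : ∀ i < m, 1 ≤ Y i := fun i hi => hN.trans (hY.1 i hi).2.1
  have hThp : ∀ t : ℝ, 1 ≤ t → 0 < Th G t := by
    intro t ht
    have h1 := hG.one_le (t := t) (by linarith)
    exact mul_pos (by linarith) (by linarith)
  have hvp : 0 < Th G v := by
    have h1 := hG.one_le hv.le
    exact mul_pos hv (by linarith)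
  -- steps
  have hstep : ∀ i, i + 1 < m → h i < h (i + 1) ∧ Y (i + 1) < Y i := by
    intro i hi
    have a1 := hh1 i (by omega)
    have a2 := hh1 (i + 1) hi
    have a3 := hY1 i (by omega)
    have a4 := hY1 (i + 1) hi
    have h1 := (hG.lt_of_two_mul (by linarith) (by linarith) (hY.2 i hi)).1
    refine ⟨h1, ?_⟩
    by_contra hcon
    rw [not_lt] at hcon
    have h2 := hG.Th_lt (by linarith) h1
    have h3 := (hG.Th_le_iff (by linarith) (by linarith)).2 hcon
    have h4 := (hYe i (by omega)).2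
    have h5 := (hYe (i + 1) hi).2
    have h6 := hThp _ a1
    have h7 := hThp _ a3
    have h8 : Th G (h i) * Th G (Y i) < Th G (h (i + 1)) * Th G (Y (i + 1)) :=
      mul_lt_mul h2 h3 h7 (h6.le.trans h2.le)
    linarith
  have hmono : ∀ i i', i ≤ i' → i' < m → h i ≤ h i' ∧ Y i' ≤ Y i := by
    intro i i' hii
    induction i', hii using Nat.le_induction with
    | base => exact fun _ => ⟨le_rfl, le_rfl⟩
    | succ k hk ih =>
      intro hk'
      have h1 := ih (by omega)
      have h2 := hstep k hk'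
      exact ⟨h1.1.trans h2.1.le, h2.2.le.trans h1.2⟩
  have hGm : ∀ s t : ℝ, 0 ≤ s → s ≤ t → G s ≤ G t := fun s t hs hst =>
    hG.mono (mem_Ici.2 hs) (mem_Ici.2 (hs.trans hst)) hst
  have hpow : ∀ i i', i ≤ i' → i' < m → 2 ^ (i' - i) * G (h i) ≤ G (h i') := by
    intro i i' hii
    induction i', hii using Nat.le_induction with
    | base => intro _; simp
    | succ k hk ih =>
      intro hk'
      have h1 := ih (by omega)
      have h2 := hY.2 k hk'
      have h3 : k + 1 - i = (k - i) + 1 := by omega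
      rw [h3, pow_succ]
      calc 2 ^ (k - i) * 2 * G (h i) = 2 * (2 ^ (k - i) * G (h i)) := by ring
        _ ≤ 2 * G (h k) := by linarith
        _ ≤ _ := h2
  -- the logarithms
  set K : ℕ → ℕ := fun i => Nat.log 2 ⌊G (Y i)⌋₊ with hK
  have hGY : ∀ i < m, 1 ≤ G (Y i) := fun i hi => hG.one_le (by linarith [hY1 i hi])
  have hGh : ∀ i < m, 1 ≤ G (h i) := fun i hi => hG.one_le (by linarith [hh1 i hi])
  have hKl : ∀ i < m, (2 : ℝ) ^ K i ≤ G (Y i) := by
    intro i hi
    have h1 : ⌊G (Y i)⌋₊ ≠ 0 := by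
      have := Nat.le_floor (show ((1 : ℕ) : ℝ) ≤ G (Y i) by simpa using hGY i hi)
      omega
    have h2 := Nat.pow_log_le_self 2 h1
    have h3 : ((2 ^ K i : ℕ) : ℝ) ≤ (⌊G (Y i)⌋₊ : ℝ) := by exact_mod_cast h2
    push_cast at h3
    exact h3.trans (Nat.floor_le (by linarith [hGY i hi]))
  have hKu : ∀ i < m, G (Y i) < (2 : ℝ) ^ (K i + 1) := by
    intro i hi
    have h2 := Nat.lt_pow_succ_log_self (b := 2) (by norm_num) ⌊G (Y i)⌋₊
    have h3 : ((⌊G (Y i)⌋₊ + 1 : ℕ) : ℝ) ≤ ((2 ^ (K i + 1) : ℕ) : ℝ) := by exact_mod_cast h2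
    push_cast at h3
    exact (Nat.lt_floor_add_one _).trans_le h3
  -- the combinatorial selection
  set τ : ℕ → ℝ := fun i => h i * Y i with hτ
  have hτ0 : ∀ i < m, 0 ≤ τ i := fun i hi =>
    mul_nonneg (by linarith [hh1 i hi]) (by linarith [hY1 i hi])
  have hτG : ∀ i < m, τ i * (G (h i) * G (Y i)) = Th G v := by
    intro i hi
    rw [← (hYe i hi).2]
    simp only [hτ, Th]
    ring
  obtain ⟨F, hFm, hFK, hFs⟩ := sela_comb (K := K) hτ0 (fun i i' hii hi' => by
      simp only [hK]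
      refine Nat.log_mono_right (Nat.floor_le_floor ?_)
      exact hGm _ _ (by linarith [hY1 i' hi']) (hmono i i' hii.le hi').2) (fun i i' hii hi' he => by
      have hi : i < m := hii.trans hi'
      have e1 := hτG i hi
      have e2 := hτG i' hi'
      have p1 := hGh i hi
      have p2 := hGY i hi
      have p3 := hGh i' hi'
      have p4 := hGY i' hi'
      have q1 := hpow i i' hii.le hi'
      have q2 : G (Y i) ≤ 2 * G (Y i') := by
        have r1 := hKu i hi
        have r2 := hKl i' hi'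
        rw [he] at r2
        rw [pow_succ] at r1
        linarith
      have t0 := hτ0 i hi
      have t1 := hτ0 i' hi'
      -- τ i' * (G h i' * G Y i') = τ i * (G h i * G Y i)
      set d := i' - i with hd
      have s1 : 0 < (2 : ℝ) ^ d := by positivity
      have s2 : τ i * (G (h i) * G (Y i)) ≤
          τ i * ((G (h i') / 2 ^ d) * (2 * G (Y i'))) := by
        refine mul_le_mul_of_nonneg_left ?_ t0
        refine mul_le_mul ?_ q2 (by linarith) (by positivity)
        rw [le_div_iff₀ s1, mul_comm]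
        exact q1
      have s3 : τ i' * (G (h i') * G (Y i')) ≤
          (2 * (1 / 2 : ℝ) ^ d * τ i) * (G (h i') * G (Y i')) := by
        rw [e2, ← e1]
        refine s2.trans (le_of_eq ?_)
        rw [one_div, inv_pow]
        field_simp
      exact le_of_mul_le_mul_right s3 (by positivity))
  obtain ⟨e, he1, he2, he3⟩ := sela_reindex F
  have hem : ∀ k < F.card, e k < m := fun k hk => Finset.mem_range.1 (hFm (he1 k hk))
  refine ⟨F.card, fun k => h (e k), fun k => Y (e k), ⟨fun k hk => ?_, fun k hk => ?_⟩,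
    fun k hk => (hYe _ (hem k hk)).2, fun k hk => ?_, ?_⟩
  · exact hY.1 _ (hem k hk)
  · have h1 := he2 k hk
    have h2 := hem (k + 1) hk
    have h3 := hY.2 (e k) (by omega)
    refine h3.trans (hGm _ _ (by linarith [hh1 (e k + 1) (by omega)]) ?_)
    exact (hmono (e k + 1) (e (k + 1)) (by omega) h2).1
  · have h1 := he2 k hk
    have h2 := hem (k + 1) hk
    have h3 := hem k (by omega)
    have h4 := hFK _ (he1 k (by omega)) _ (he1 (k + 1) hk) h1
    have h5 := hKu (e (k + 1)) h2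
    have h6 := hKl (e k) h3
    have h7 : (2 : ℝ) ^ (K (e (k + 1)) + 2) ≤ 2 ^ K (e k) :=
      pow_le_pow_right₀ (by norm_num) h4
    have h8 : (2 : ℝ) ^ (K (e (k + 1)) + 2) = 2 * 2 ^ (K (e (k + 1)) + 1) := by ring
    linarith
  · have h1 : ∑ i ∈ Finset.range m, h i * X i ≤ ∑ i ∈ Finset.range m, τ i :=
      Finset.sum_le_sum fun i hi => by
        rw [Finset.mem_range] at hi
        exact mul_le_mul_of_nonneg_left (hYe i hi).1 (by linarith [hh1 i hi])
    have h2 := he3 τ
    simp only [hτ] at h2 hFs h1 ⊢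
    rw [h2]
    exact h1.trans hFs

end

end Pool.Agent.OB9
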