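import Pool.Agent.OB9.BstB
import Pool.Agent.OB9.DensA

/-!
# Module OB9/SeqB

From packages (`PkgB`) to `DInf`.

PROOF. Choose by recursion packages `P_g = (Λ_g, l_g, T_g, u_g, H_g, v_g, Λ'_g)` with `Λ_0 = 2` and
`Λ_{g+1} ≥ max(2(Λ_g + u_g), Λ'_g, Λ_g', 64 H_g (M(v_g)+1)·4/v_g + 1)` (`v_g ≥ 32 Λ_g > 0`). Then `Gen` holds
with `c₀ = 1/4` (`vbig : 8 Λ_g ≤ v_g/4`). Sum condition: let `x` be bounded, `md M x ≤ 1`. Split
`x = x_L + x_m + x_H` according to `|x| ≤ Λ_g`, `Λ_g < |x| < Λ'_g`, otherwise (`|x| ≥ Λ'_g`, `> Λ_g`)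
(elements of `L2`; cut offs of bounded functions). By `md_add3`, `low`, `mid`, `high`
`md M (T_g x/(3 C₀)) ≤ 1/Λ_g + (C₀ md M x_m + 1/Λ_g) + 1/Λ_g` (`C₀ ≥ 1`; `T_g x/(3C₀)` is
`(T_g x_L/C₀ + T_g x_m/C₀ + T_g x_H/C₀)/3` a.e.). The middle parts for different `g` have disjoint
supports (`Λ'_g ≤ Λ_{g+1}`), so `∑_g md M (x_m^g) ≤ md M x ≤ 1` (`md_disj`), and `∑ 1/Λ_g ≤ 1`. So the
sum is `≤ C₀ + 3`: `bst_upper` with `3 C₀`, `C₁ = C₀ + 3`. Lower bound: `l_g ≥ Λ_g → ∞`, so by `dens`
(twice) the condition `Good` holds for all large `g`, and `PkgB.test` applies: `bst_lower`.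
-/

set_option autoImplicit false

namespace Pool.Agent.OB9

open MeasureTheory Set Filter
open scoped ENNReal Topology

noncomputable section

variable {M : ℝ → ℝ}

/-- Cut off of an element of `L2`. -/
private def cut (x : L2) (s : Set ℝ) (hs : MeasurableSet s) : L2 :=
  ((Lp.memLp x).indicator hs).toLp _

private theorem cut_coe (x : L2) (s : Set ℝ) (hs : MeasurableSet s) :
    (cut x s hs : ℝ → ℝ) =ᵐ[lam] s.indicator (x : ℝ → ℝ) :=
  MemLp.coeFn_toLp _

private theorem cut_abs (x : L2) (s : Set ℝ) (hs : MeasurableSet s) :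
    ∀ᵐ t ∂lam, |cut x s hs t| ≤ |x t| := by
  filter_upwards [cut_coe x s hs] with t ht
  rw [ht]
  by_cases h : t ∈ s
  · rw [Set.indicator_of_mem h]
  · rw [Set.indicator_of_notMem h, abs_zero]
    exact abs_nonneg _

private theorem cut_bd {x : L2} (hx : Bd x) (s : Set ℝ) (hs : MeasurableSet s) :
    Bd (cut x s hs) := by
  obtain ⟨R, hR⟩ := hx
  refine ⟨R, ?_⟩
  filter_upwards [hR, cut_abs x s hs] with t h1 h2
  exact h2.trans h1

private theorem seqB_step (hM : QOrl M) {C₀ : ℝ} (h0 : 1 ≤ C₀) {Λ : ℝ} {l : ℕ}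
    {T : L2 →L[ℝ] L2} {u H v Λ' : ℝ} (hΛ : 2 ≤ Λ) (hP : PkgB M C₀ Λ l T u H v Λ') {x : L2}
    (hx : Bd x) (hx1 : md M x ≤ 1) (hm : MeasurableSet {t | Λ < |x t| ∧ |x t| < Λ'}) :
    md M (fun t => T x t / (3 * C₀)) ≤
      ENNReal.ofReal C₀ * md M (cut x {t | Λ < |x t| ∧ |x t| < Λ'} hm) +
        ENNReal.ofReal (3 / Λ) := by
  have hxm : Measurable (x : ℝ → ℝ) := (Lp.stronglyMeasurable x).measurable
  have hC0 : 0 < C₀ := by linarith
  have hL : MeasurableSet {t | |x t| ≤ Λ} := measurableSet_le hxm.abs measurable_const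
  have hH : MeasurableSet {t | Λ < |x t| ∧ Λ' ≤ |x t|} :=
    (measurableSet_lt measurable_const hxm.abs).inter (measurableSet_le measurable_const hxm.abs)
  set xL := cut x {t | |x t| ≤ Λ} hL with hxL
  set xm := cut x {t | Λ < |x t| ∧ |x t| < Λ'} hm with hxmm
  set xH := cut x {t | Λ < |x t| ∧ Λ' ≤ |x t|} hH with hxH
  have hsum : x = xL + xm + xH := by
    apply Lp.ext
    filter_upwards [cut_coe x _ hL, cut_coe x _ hm, cut_coe x _ hH, Lp.coeFn_add (xL + xm) xH,
      Lp.coeFn_add xL xm] with t h1 h2 h3 h4 h5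
    rw [h4, Pi.add_apply, h5, Pi.add_apply, hxL, hxmm, hxH, h1, h2, h3]
    by_cases hA : |x t| ≤ Λ
    · rw [Set.indicator_of_mem (show t ∈ {t | |x t| ≤ Λ} from hA),
        Set.indicator_of_notMem (show t ∉ {t | Λ < |x t| ∧ |x t| < Λ'} from
          fun h => absurd hA (not_le.2 h.1)),
        Set.indicator_of_notMem (show t ∉ {t | Λ < |x t| ∧ Λ' ≤ |x t|} from
          fun h => absurd hA (not_le.2 h.1))]
      ring
    · have hA' := not_le.1 hA
      by_cases hB : |x t| < Λ'
      · rw [Set.indicator_of_notMem (show t ∉ {t | |x t| ≤ Λ} from hA),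
          Set.indicator_of_mem (show t ∈ {t | Λ < |x t| ∧ |x t| < Λ'} from ⟨hA', hB⟩),
          Set.indicator_of_notMem (show t ∉ {t | Λ < |x t| ∧ Λ' ≤ |x t|} from
            fun h => absurd hB (not_lt.2 h.2))]
        ring
      · rw [Set.indicator_of_notMem (show t ∉ {t | |x t| ≤ Λ} from hA),
          Set.indicator_of_notMem (show t ∉ {t | Λ < |x t| ∧ |x t| < Λ'} from
            fun h => hB h.2),
          Set.indicator_of_mem (show t ∈ {t | Λ < |x t| ∧ Λ' ≤ |x t|} from
            ⟨hA', not_lt.1 hB⟩)]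
        ring
  have hTm : ∀ y : L2, Measurable (fun t => T y t / C₀) := fun y =>
    (Lp.stronglyMeasurable (T y)).measurable.div_const C₀
  have e1 : md M (fun t => T x t / (3 * C₀)) =
      md M (fun t => (T xL t / C₀ + T xm t / C₀ + T xH t / C₀) / 3) := by
    refine md_congr ?_
    have hTx : T x = T xL + T xm + T xH := by
      rw [← map_add, ← map_add, ← hsum]
    rw [hTx]
    filter_upwards [Lp.coeFn_add (T xL + T xm) (T xH), Lp.coeFn_add (T xL) (T xm)] with t h1 h2
    rw [h1, Pi.add_apply, h2, Pi.add_apply]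
    field_simp
  have hdiv : ∀ y : L2, md M (fun t => T y t / C₀) ≤ md M (T y) := by
    intro y
    refine md_mono hM (Eventually.of_forall fun t => ?_)
    rw [abs_div, abs_of_pos hC0]
    exact div_le_self (abs_nonneg _) h0
  have hlow : md M (T xL) ≤ ENNReal.ofReal (1 / Λ) := by
    refine hP.low xL ?_
    filter_upwards [cut_coe x _ hL] with t ht
    rw [hxL, ht]
    by_cases h : t ∈ {t | |x t| ≤ Λ}
    · rw [Set.indicator_of_mem h]
      exact h
    · rw [Set.indicator_of_notMem h, abs_zero]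
      linarith
  have hmid : md M (fun t => T xm t / C₀) ≤
      ENNReal.ofReal C₀ * md M xm + ENNReal.ofReal (1 / Λ) :=
    hP.mid xm (cut_bd hx _ _) ((md_mono hM (cut_abs x _ _)).trans hx1)
  have hhigh : md M (T xH) ≤ ENNReal.ofReal (1 / Λ) := by
    refine hP.high xH (cut_bd hx _ _) ((md_mono hM (cut_abs x _ _)).trans hx1) ?_
    filter_upwards [cut_coe x _ hH] with t ht
    rw [hxH, ht]
    by_cases h : t ∈ {t | Λ < |x t| ∧ Λ' ≤ |x t|}
    · right
      rw [Set.indicator_of_mem h]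
      exact h.2
    · left
      rw [Set.indicator_of_notMem h]
  rw [e1]
  refine (md_add3 hM (hTm xL).aemeasurable (hTm xm).aemeasurable).trans ?_
  refine (add_le_add (add_le_add ((hdiv xL).trans hlow) hmid) ((hdiv xH).trans hhigh)).trans ?_
  have hΛ0 : 0 < Λ := by linarith
  have e2 : ENNReal.ofReal (3 / Λ) =
      ENNReal.ofReal (1 / Λ) + ENNReal.ofReal (1 / Λ) + ENNReal.ofReal (1 / Λ) := by
    rw [← ENNReal.ofReal_add (by positivity) (by positivity),
      ← ENNReal.ofReal_add (by positivity) (by positivity)]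
    congr 1
    ring
  rw [e2]
  apply le_of_eq
  ring

theorem seqB (hM : QOrl M) {C₀ : ℝ} (h0 : 1 ≤ C₀)
    (h : ∀ Λ : ℝ, 2 ≤ Λ → ∃ (l : ℕ) (T : L2 →L[ℝ] L2) (u H v Λ' : ℝ),
      PkgB M C₀ Λ l T u H v Λ') : DInf M := by
  choose! l T u H v Λ' hP using h
  let Ls : ℕ → ℝ := fun n => Nat.rec 2 (fun _ L => max (2 * (L + u L))
    (max (Λ' L) (256 * H L * (M (v L) + 1) / v L))) n
  have hLs0 : Ls 0 = 2 := rfl
  have hLs : ∀ n, Ls (n + 1) = max (2 * (Ls n + u (Ls n)))
    (max (Λ' (Ls n)) (256 * H (Ls n) * (M (v (Ls n)) + 1) / v (Ls n))) := fun n => rfl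
  have hge2 : ∀ n, 2 ≤ Ls n := by
    intro n
    induction n with
    | zero => exact le_refl _
    | succ n ih =>
      rw [hLs]
      refine le_trans ?_ (le_max_left _ _)
      have := (hP (Ls n) ih).u0
      linarith
  have hPk := fun n => hP (Ls n) (hge2 n)
  have hG : Gen M (1 / 4) (fun n => T (Ls n)) Ls (fun n => u (Ls n)) (fun n => H (Ls n))
      (fun n => v (Ls n)) := by
    refine ⟨le_refl _, ?_, fun g => (hPk g).u0, fun g => (hPk g).H0, fun g => (hPk g).norm,
      fun g => (hPk g).sup, fun g => (hPk g).small, ?_, ?_⟩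
    · intro g
      rw [hLs]
      exact le_max_left _ _
    · intro g
      have := (hPk g).vbig
      show 8 * Ls g ≤ 1 / 4 * v (Ls g)
      linarith
    · intro g
      have hv := (hPk g).vbig
      have hv0 : 0 < v (Ls g) := by linarith [hge2 g]
      have h1 : 256 * H (Ls g) * (M (v (Ls g)) + 1) / v (Ls g) ≤ Ls (g + 1) := by
        rw [hLs]
        exact (le_max_right _ _).trans (le_max_right _ _)
      rw [div_le_iff₀ hv0] at h1
      show 64 * H (Ls g) * (M (v (Ls g)) + 1) ≤ 1 / 4 * v (Ls g) * Ls (g + 1)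
      nlinarith
  have hpow : ∀ g, (2 : ℝ) ^ (g + 1) ≤ Ls g := fun g => (hG.lambda_ge g).1
  have hmono : Monotone Ls := by
    refine monotone_nat_of_le_succ fun n => ?_
    have h1 := hG.Lstep n
    have h2 := hG.u0 n
    have h3 := hge2 n
    linarith
  have hΛ' : ∀ g, Λ' (Ls g) ≤ Ls (g + 1) := fun g => by
    rw [hLs]
    exact (le_max_left _ _).trans (le_max_right _ _)
  have hC0 : 0 < C₀ := by linarith
  refine ⟨∑' g, T (Ls g), 4 * (3 * C₀) * (1 + (C₀ + 3)), 1 / 4 / 66, by positivity, by norm_num,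
    ?_, ?_⟩
  · refine bst_upper hM hG (by linarith) (by linarith) ?_
    intro x hx hx1 n
    have hxm : Measurable (x : ℝ → ℝ) := (Lp.stronglyMeasurable x).measurable
    have hms : ∀ g, MeasurableSet {t | Ls g < |x t| ∧ |x t| < Λ' (Ls g)} := fun g =>
      (measurableSet_lt measurable_const hxm.abs).inter
        (measurableSet_lt hxm.abs measurable_const)
    have hstep : ∀ g, md M (fun t => T (Ls g) x t / (3 * C₀)) ≤ ENNReal.ofReal C₀ *
        md M (cut x {t | Ls g < |x t| ∧ |x t| < Λ' (Ls g)} (hms g)) +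
          ENNReal.ofReal (3 / Ls g) := fun g =>
      seqB_step hM h0 (hge2 g) (hPk g) hx hx1 (hms g)
    refine (Finset.sum_le_sum fun g _ => hstep g).trans ?_
    rw [Finset.sum_add_distrib, ← Finset.mul_sum]
    have hcoe : ∀ᵐ t ∂lam, ∀ g : ℕ, cut x {t | Ls g < |x t| ∧ |x t| < Λ' (Ls g)} (hms g) t =
        {t | Ls g < |x t| ∧ |x t| < Λ' (Ls g)}.indicator (x : ℝ → ℝ) t :=
      ae_all_iff.2 fun g => cut_coe x _ (hms g)
    have hdis := md_disj hM (n := n)
      (x := fun g t => cut x {t | Ls g < |x t| ∧ |x t| < Λ' (Ls g)} (hms g) t)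
      (y := (x : ℝ → ℝ))
      (fun i _ => (Lp.stronglyMeasurable _).measurable.aemeasurable)
      (by
        have h1 : ∀ᵐ t ∂lam, ∀ i : ℕ,
            |cut x {t | Ls i < |x t| ∧ |x t| < Λ' (Ls i)} (hms i) t| ≤ |x t| :=
          ae_all_iff.2 fun i => cut_abs x _ (hms i)
        filter_upwards [h1] with t ht i _
        exact ht i)
      (by
        filter_upwards [hcoe] with t ht i _ j _ hij
        by_contra hcon
        rw [not_or] at hcon
        obtain ⟨hi, hj⟩ := hcon
        rw [ht i] at hi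
        rw [ht j] at hj
        have mi := Set.mem_of_indicator_ne_zero hi
        have mj := Set.mem_of_indicator_ne_zero hj
        have key : ∀ a b : ℕ, a < b → |x t| < Λ' (Ls a) → Ls b < |x t| → False := by
          intro a b hab h1 h2
          have h3 : Ls (a + 1) ≤ Ls b := hmono hab
          have h4 := hΛ' a
          linarith
        rcases lt_or_gt_of_ne hij with hlt | hgt
        · exact key i j hlt mi.2 mj.1
        · exact key j i hgt mj.2 mi.1)
    have hs1 : ∑ g ∈ Finset.range n, ENNReal.ofReal (3 / Ls g) ≤ ENNReal.ofReal 3 := by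
      rw [← ENNReal.ofReal_sum_of_nonneg (fun g _ => by
        have := hge2 g
        positivity)]
      refine ENNReal.ofReal_le_ofReal ?_
      have h2 : ∀ m : ℕ, ∑ g ∈ Finset.range m, 3 / Ls g ≤ 3 * (1 - (1 / 2) ^ m) := by
        intro m
        induction m with
        | zero => simp
        | succ m ih =>
          rw [Finset.sum_range_succ]
          have h3 : 3 / Ls m ≤ 3 * (1 / 2) ^ (m + 1) := by
            have h4 := hpow m
            have h5 : (0 : ℝ) < 2 ^ (m + 1) := by positivity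
            rw [one_div, inv_pow, ← div_eq_mul_inv]
            exact div_le_div_of_nonneg_left (by norm_num) h5 h4
          have h6 : ((1 : ℝ) / 2) ^ (m + 1) = (1 / 2) ^ m * (1 / 2) := pow_succ _ _
          rw [h6] at h3 ⊢
          linarith
      refine (h2 n).trans ?_
      have h7 : (0 : ℝ) ≤ (1 / 2) ^ n := by positivity
      linarith
    calc ENNReal.ofReal C₀ * ∑ g ∈ Finset.range n,
          md M (cut x {t | Ls g < |x t| ∧ |x t| < Λ' (Ls g)} (hms g)) +
            ∑ g ∈ Finset.range n, ENNReal.ofReal (3 / Ls g)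
        ≤ ENNReal.ofReal C₀ * 1 + ENNReal.ofReal 3 :=
          add_le_add (mul_le_mul_right (hdis.trans hx1) _) hs1
      _ = ENNReal.ofReal (C₀ + 3) := by
          rw [mul_one, ENNReal.ofReal_add hC0.le (by norm_num)]
  · refine bst_lower hM hG (by norm_num) (by norm_num) ?_
    intro e f he hf he0 hf0
    obtain ⟨l1, hl1⟩ := dens (η := 1 / 4) (by norm_num) he hf he0 hf0
    obtain ⟨l2, hl2⟩ := dens (η := 1 / 4) (by norm_num) hf he hf0 he0
    refine ⟨max l1 l2, fun g hg => ?_⟩
    have h1 : g ≤ l (Ls g) := by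
      have h2 := (hPk g).lbig
      have h3 := hpow g
      have h4 : g < 2 ^ (g + 1) := (Nat.lt_two_pow_self).trans
        (Nat.pow_lt_pow_right (by norm_num) (Nat.lt_succ_self g))
      have h5 : (g : ℝ) < 2 ^ (g + 1) := by exact_mod_cast h4
      have h6 : (g : ℝ) < l (Ls g) := by linarith
      exact_mod_cast h6.le
    exact (hPk g).test e f he hf (hl1 _ ((le_max_left _ _).trans (hg.trans h1)))
      (hl2 _ ((le_max_right _ _).trans (hg.trans h1)))

end

end Pool.Agent.OB9
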